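import Pool.Agent.GGS.Bas

/-!
# Finiteness and nilpotency (paper, 1.1-1.5)

* `ball_finite`: from `w.fin`.
* `ball_pgroup`: `W (g ^ (p ^ k)) ≤ (W g) ^ (p ^ k)` tends to `0`.
* `W_values_finite`: if `W g > t` then `W` is constant on `g * (ball t)` (`W_mul_eq`).
* `exists_nil`: `G` acts on the finite-dimensional space `Inv p V` through a finite `p`-group (the core
  of `V` contains some ball, which is normal).  For a nonzero finite-dimensional `𝔽_p`-space `M` with an
  action of a finite `p`-group, the span of the `(h - 1) m` is not `M` (the dual has a nonzero fixed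
  vector, `IsPGroup.card_modEq_card_fixedPoints`).  Apply this to the spans of the `dif L f`, `|L| = i`.
* `exists_small`: if `ball c ≤ V` and `n` is from `exists_nil`, take `a₀ = min c 1 ^ n` (or similar): if
  `wl w L ≤ a₀` and `|L| < n` then `L` contains an element `h ∈ ball c`; as `ball c` is normal and
  contained in `V`, `dif (L₁ ++ h :: L₂) f = 0` because `dif L₂ f` is `V`-invariant and
  `g * h = (g * h * g⁻¹) * g`.
-/

namespace Pool.Agent.GGS

universe u

variable {p : ℕ} {G : Type u} [Group G] (w : WG p G)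

theorem ball_finite {t : ℝ} (ht : 0 < t) : Finite (G ⧸ w.ball t) := by
  obtain ⟨S, hS⟩ := w.fin t ht
  refine Finite.of_surjective (fun s : S => ((s : G) : G ⧸ w.ball t)) ?_
  intro q
  obtain ⟨g, rfl⟩ := QuotientGroup.mk_surjective q
  obtain ⟨s, hs, hsg⟩ := hS g
  exact ⟨⟨s, hs⟩, QuotientGroup.eq.mpr ((w.mem_ball ht.le).mpr hsg)⟩

lemma Fin_W_pow_pow (g : G) (k : ℕ) : w.W (g ^ (p ^ k)) ≤ w.W g ^ (p ^ k) := by
  induction k with
  | zero => simp
  | succ k ih =>
    rw [pow_succ p k, pow_mul, pow_mul]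
    exact (w.pow _).trans (pow_le_pow_left₀ (w.nonneg _) ih p)

theorem ball_pgroup [Fact p.Prime] {t : ℝ} (ht : 0 < t) : IsPGroup p (G ⧸ w.ball t) := by
  intro q
  obtain ⟨g, rfl⟩ := QuotientGroup.mk_surjective q
  obtain ⟨k, hk⟩ := exists_pow_lt_of_lt_one ht w.wm_lt
  refine ⟨k, ?_⟩
  rw [← QuotientGroup.mk_pow, QuotientGroup.eq_one_iff, w.mem_ball ht.le]
  have h1 : k ≤ p ^ k := (Nat.lt_pow_self (Fact.out : p.Prime).one_lt).le
  calc w.W (g ^ (p ^ k)) ≤ w.W g ^ (p ^ k) := Fin_W_pow_pow w g k
    _ ≤ w.wm ^ (p ^ k) := pow_le_pow_left₀ (w.nonneg g) (w.le_wm g) _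
    _ ≤ w.wm ^ k := pow_le_pow_of_le_one w.wm_pos.le w.wm_lt.le h1
    _ ≤ t := hk.le

lemma Fin_ball_index {t : ℝ} (ht : 0 < t) : (w.ball t).FiniteIndex := by
  have := ball_finite w ht
  exact Subgroup.finiteIndex_of_finite_quotient

theorem op_finiteIndex {V : Subgroup G} (hV : Op w V) : V.FiniteIndex := by
  obtain ⟨t, ht, h⟩ := (op_iff w).mp hV
  have := Fin_ball_index w ht
  exact Subgroup.finiteIndex_of_le h

lemma Fin_op_index [Fact p.Prime] {V : Subgroup G} (hV : Op w V) : ∃ k, V.index = p ^ k := by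
  obtain ⟨t, ht, h⟩ := (op_iff w).mp hV
  have hfin := ball_finite w ht
  have hp := ball_pgroup w ht
  have h1 : (V.map (QuotientGroup.mk' (w.ball t))).comap (QuotientGroup.mk' (w.ball t)) = V := by
    rw [Subgroup.comap_map_eq, QuotientGroup.ker_mk']
    exact sup_eq_left.mpr h
  have h2 := Subgroup.index_comap_of_surjective (V.map (QuotientGroup.mk' (w.ball t)))
    (QuotientGroup.mk'_surjective (w.ball t))
  rw [h1] at h2
  obtain ⟨k, hk⟩ := hp.index (V.map (QuotientGroup.mk' (w.ball t)))
  exact ⟨k, h2.trans hk⟩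

/-- relative indices in a `p`-group: open subgroups have index a power of `p` -/
theorem op_relIndex [Fact p.Prime] {V V' : Subgroup G} (hV : Op w V') (h : V' ≤ V) :
    ∃ k, V'.relIndex V = p ^ k := by
  obtain ⟨k, hk⟩ := Fin_op_index w hV
  have h1 : V'.relIndex V ∣ p ^ k := by
    rw [← hk, ← Subgroup.relIndex_mul_index h]
    exact Dvd.intro _ rfl
  obtain ⟨i, -, hi⟩ := (Nat.dvd_prime_pow (Fact.out : p.Prime)).mp h1
  exact ⟨i, hi⟩

theorem W_values_finite {t : ℝ} (ht : 0 < t) : {r : ℝ | t < r ∧ ∃ g, w.W g = r}.Finite := by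
  obtain ⟨S, hS⟩ := w.fin t ht
  refine (S.finite_toSet.image w.W).subset ?_
  rintro r ⟨hr, g, rfl⟩
  obtain ⟨s, hs, hsg⟩ := hS g
  refine ⟨s, hs, ?_⟩
  have h1 : w.W ((s⁻¹ * g)⁻¹) < w.W g := by
    rw [w.inv]
    exact lt_of_le_of_lt hsg hr
  have h2 := W_mul_eq w h1
  have h3 : g * (s⁻¹ * g)⁻¹ = s := by group
  rwa [h3] at h2

theorem exists_minW {S : Set G} (hS : S.Nonempty) {t : ℝ} (ht : 0 < t) (h : ∀ g ∈ S, t < w.W g) :
    ∃ g ∈ S, ∀ h ∈ S, w.W g ≤ w.W h := by
  have h1 : (w.W '' S).Finite := by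
    refine (W_values_finite w ht).subset ?_
    rintro r ⟨g, hg, rfl⟩
    exact ⟨h g hg, g, rfl⟩
  obtain ⟨r, ⟨g, hg, rfl⟩, hmin⟩ := Set.exists_min_image (w.W '' S) id h1 (hS.image _)
  exact ⟨g, hg, fun x hx => hmin _ ⟨x, hx, rfl⟩⟩

omit w in
/-- a finite `p`-group acting on a nonzero finite dimensional `𝔽_p`-space has a nonzero fixed vector -/
theorem exists_fixed [Fact p.Prime] {Q : Type*} [Group Q] [Finite Q] (hQ : IsPGroup p Q)
    {M : Type*} [AddCommGroup M] [Module (ZMod p) M] [Module.Finite (ZMod p) M] [Nontrivial M]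
    (ρ : Q →* Module.End (ZMod p) M) : ∃ x : M, x ≠ 0 ∧ ∀ q, ρ q x = x := by
  let act : MulAction Q M :=
    { smul := fun q x => ρ q x
      one_smul := fun x => by
        change ρ 1 x = x
        rw [map_one]
        rfl
      mul_smul := fun q q' x => by
        change ρ (q * q') x = ρ q (ρ q' x)
        rw [map_mul]
        rfl }
  have hfin : Finite M := Module.finite_of_finite (ZMod p)
  have hcard : p ∣ Nat.card M := by
    rw [Module.natCard_eq_pow_finrank (K := ZMod p), Nat.card_zmod]
    exact dvd_pow_self p (Module.finrank_pos (R := ZMod p) (M := M)).ne'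
  have h0 : (0 : M) ∈ MulAction.fixedPoints Q M := fun q => map_zero (ρ q)
  obtain ⟨x, hx, hx0⟩ := hQ.exists_fixed_point_of_prime_dvd_card_of_fixed_point M hcard h0
  exact ⟨x, hx0.symm, fun q => hx q⟩

omit w in
/-- products of `dim M` operators `q - 1` vanish -/
theorem Fin_nilmod [Fact p.Prime] {Q : Type*} [Group Q] [Finite Q] (hQ : IsPGroup p Q) (d : ℕ) :
    ∀ (M : Type u) [AddCommGroup M] [Module (ZMod p) M] [Module.Finite (ZMod p) M]
      (ρ : Q →* Module.End (ZMod p) M), Module.finrank (ZMod p) M = d →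
      ∀ L : List Q, d ≤ L.length → (L.map fun q => ρ q - 1).prod = 0 := by
  induction d with
  | zero =>
    intro M _ _ _ ρ hd L _
    have : Subsingleton M := Module.finrank_zero_iff.mp hd
    ext x
    exact Subsingleton.elim _ _
  | succ d ih =>
    intro M _ _ _ ρ hd L hL
    have hnt : Nontrivial M := Module.finrank_pos_iff.mp (by rw [hd]; exact Nat.succ_pos d)
    obtain ⟨x, hx0, hx⟩ := exists_fixed hQ ρ
    let N : Submodule (ZMod p) M := Submodule.span (ZMod p) {x}
    have hN : ∀ q, ∀ y ∈ N, ρ q y = y := by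
      intro q y hy
      obtain ⟨c, rfl⟩ := Submodule.mem_span_singleton.mp hy
      rw [map_smul, hx]
    have hNc : ∀ q, N ≤ N.comap (ρ q) := fun q y hy => by
      rw [Submodule.mem_comap, hN q y hy]
      exact hy
    let ρ' : Q →* Module.End (ZMod p) (M ⧸ N) :=
      { toFun := fun q => N.mapQ N (ρ q) (hNc q)
        map_one' := by
          ext y
          change N.mkQ (ρ 1 y) = N.mkQ y
          rw [map_one]
          rfl
        map_mul' := fun q q' => by
          ext y
          change N.mkQ (ρ (q * q') y) = N.mkQ (ρ q (ρ q' y))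
          rw [map_mul]
          rfl }
    have hfr : Module.finrank (ZMod p) (M ⧸ N) = d := by
      have h1 := Submodule.finrank_quotient_add_finrank N
      rw [finrank_span_singleton hx0, hd] at h1
      exact Nat.succ_injective h1
    cases L with
    | nil => exact absurd hL (by simp)
    | cons q L =>
      have hL' : d ≤ L.length := by
        rw [List.length_cons] at hL
        exact Nat.le_of_succ_le_succ hL
      have h2 := ih (M ⧸ N) ρ' hfr L hL'
      have h3 : ∀ (L : List Q) (y : M), N.mkQ ((L.map fun q => ρ q - 1).prod y) =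
          (L.map fun q => ρ' q - 1).prod (N.mkQ y) := by
        intro L
        induction L with
        | nil => intro y; rfl
        | cons q L ihL =>
          intro y
          rw [List.map_cons, List.prod_cons, List.map_cons, List.prod_cons,
            Module.End.mul_apply, Module.End.mul_apply, ← ihL]
          rfl
      rw [List.map_cons, List.prod_cons]
      ext y
      have h4 : (L.map fun q => ρ q - 1).prod y ∈ N := by
        rw [← Submodule.Quotient.mk_eq_zero]
        have h5 := h3 L y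
        rw [h2] at h5
        exact h5
      rw [Module.End.mul_apply]
      change ρ q _ - _ = 0
      rw [hN q _ h4]
      exact sub_self _

omit w in
/-- the regular representation -/
noncomputable def FinReg (p : ℕ) (Q : Type u) [Group Q] :
    Q →* Module.End (ZMod p) (Q → ZMod p) where
  toFun q := LinearMap.funLeft (ZMod p) (ZMod p) (fun x => x * q)
  map_one' := by
    ext f x
    simp [LinearMap.funLeft_apply]
  map_mul' q q' := by
    refine LinearMap.ext fun f => funext fun x => ?_
    change f (x * (q * q')) = f (x * q * q')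
    rw [mul_assoc]

omit w in
theorem Fin_dif_eq {Q : Type u} [Group Q] (L : List Q) (f : Q → ZMod p) :
    dif L f = (L.map fun q => FinReg p Q q - 1).prod f := by
  induction L with
  | nil => rfl
  | cons q L ih =>
    rw [List.map_cons, List.prod_cons, Module.End.mul_apply, ← ih]
    rfl

omit w in
theorem Fin_dif_comp {Q : Type*} [Group Q] (π : G →* Q) (φ : Q → ZMod p) (L : List G) (g : G) :
    dif L (fun x => φ (π x)) g = dif (L.map π) φ (π g) := by
  induction L generalizing g with
  | nil => rfl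
  | cons h L ih =>
    rw [List.map_cons, dif_cons, dif_cons, ih, ih, map_mul]

theorem exists_nil [Fact p.Prime] {V : Subgroup G} (hV : Op w V) :
    ∃ n : ℕ, ∀ f : G → ZMod p, (∀ v ∈ V, ∀ g, f (v * g) = f g) →
      ∀ L : List G, n ≤ L.length → dif L f = 0 := by
  obtain ⟨t, ht, h⟩ := (op_iff w).mp hV
  have hfin := ball_finite w ht
  have hp := ball_pgroup w ht
  refine ⟨Module.finrank (ZMod p) ((G ⧸ w.ball t) → ZMod p), ?_⟩
  intro f hf L hL
  have hlift : ∀ a b : G, (QuotientGroup.leftRel (w.ball t)) a b → f a = f b := by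
    intro a b hab
    rw [QuotientGroup.leftRel_apply] at hab
    have h1 : b = (a * (a⁻¹ * b) * a⁻¹) * a := by group
    have h2 : a * (a⁻¹ * b) * a⁻¹ ∈ V := h ((ball_normal w t).conj_mem _ hab a)
    rw [h1, hf _ h2]
  let φ : (G ⧸ w.ball t) → ZMod p := Quotient.lift f hlift
  have hφ : f = fun x => φ (QuotientGroup.mk' (w.ball t) x) := rfl
  funext g
  rw [hφ, Fin_dif_comp, Fin_dif_eq,
    Fin_nilmod hp _ ((G ⧸ w.ball t) → ZMod p) (FinReg p (G ⧸ w.ball t)) rfl _
      (by rw [List.length_map]; exact hL)]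
  rfl

lemma Fin_wl_lower {c : ℝ} (hc : 0 < c) (L : List G) (hL : ∀ h ∈ L, c < w.W h) :
    c ^ L.length ≤ wl w L := by
  induction L with
  | nil => simp
  | cons h L ih =>
    rw [wl_cons, List.length_cons, pow_succ']
    exact mul_le_mul (hL h List.mem_cons_self).le
      (ih fun x hx => hL x (List.mem_cons_of_mem _ hx)) (pow_nonneg hc.le _) (w.nonneg h)

theorem exists_small [Fact p.Prime] {V : Subgroup G} (hV : Op w V) :
    ∃ a : ℝ, 0 < a ∧ ∀ f : G → ZMod p, (∀ v ∈ V, ∀ g, f (v * g) = f g) →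
      ∀ L : List G, wl w L ≤ a → dif L f = 0 := by
  obtain ⟨t, ht, h⟩ := (op_iff w).mp hV
  obtain ⟨n, hn⟩ := exists_nil w hV
  have hc0 : 0 < min t (1 / 2) := lt_min ht (by norm_num)
  have hc1 : min t (1 / 2) < 1 := (min_le_right _ _).trans_lt (by norm_num)
  refine ⟨min t (1 / 2) ^ (n + 1), pow_pos hc0 _, ?_⟩
  intro f hf L hL
  rcases le_or_gt n L.length with h1 | h1
  · exact hn f hf L h1
  · have h2 : ∃ x ∈ L, w.W x ≤ min t (1 / 2) := by
      by_contra hcon
      push Not at hcon
      have h3 := Fin_wl_lower w hc0 L hcon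
      have h4 : min t (1 / 2) ^ (n + 1) < min t (1 / 2) ^ L.length :=
        pow_lt_pow_right_of_lt_one₀ hc0 hc1 (by omega)
      exact absurd (h3.trans hL) (not_le.mpr h4)
    obtain ⟨x, hx, hxt⟩ := h2
    have hxb : x ∈ w.ball t := (w.mem_ball ht.le).mpr (hxt.trans (min_le_left _ _))
    obtain ⟨L₁, L₂, rfl⟩ := List.append_of_mem hx
    rw [dif_append]
    have h5 : dif (x :: L₂) f = 0 := by
      funext g
      rw [dif_cons]
      have h6 : g * x = (g * x * g⁻¹) * g := by group
      have h7 : g * x * g⁻¹ ∈ V := h ((ball_normal w t).conj_mem _ hxb g)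
      rw [h6, dif_left_inv hf L₂ _ h7, sub_self]
      rfl
    rw [h5, dif_zero]

end Pool.Agent.GGS
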