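import Pool.Agent.GGS.IxProd

/-!
# Steps and the `W`-index (paper, 2.2)
-/

namespace Pool.Agent.GGS

universe u

variable {p : ℕ} {G : Type u} [Group G] (w : WG p G)

theorem one_add_le_qq [Fact p.Prime] {r : ℝ} (h0 : 0 ≤ r) : 1 + r ≤ qq p r := by
  have hp : 2 ≤ p := (Fact.out : p.Prime).two_le
  unfold qq
  obtain ⟨k, rfl⟩ : ∃ k, p = k + 2 := ⟨p - 2, by omega⟩
  have h1 : ∑ i ∈ Finset.range 2, r ^ i ≤ ∑ i ∈ Finset.range (k + 2), r ^ i :=
    Finset.sum_le_sum_of_subset_of_nonneg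
      (Finset.range_subset_range.2 (by omega)) fun i _ _ => pow_nonneg h0 i
  simpa [Finset.sum_range_succ] using h1

theorem qq_le_two_mul {r : ℝ} (h0 : 0 ≤ r) (h1 : r ≤ 1 / 2) : qq p r ≤ 1 + 2 * r := by
  unfold qq
  have h2 : ∀ n : ℕ, ∑ i ∈ Finset.range (n + 1), r ^ i ≤ 1 + 2 * r * (1 - r ^ n) := by
    intro n
    induction n with
    | zero => simp
    | succ n ih =>
      rw [Finset.sum_range_succ]
      have h3 : 0 ≤ r ^ n := pow_nonneg h0 n
      have h4 : r ^ (n + 1) = r * r ^ n := pow_succ' r n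
      rw [h4]
      nlinarith [mul_nonneg h0 h3]
  rcases p with _ | n
  · simp; linarith
  · refine (h2 n).trans ?_
    have h3 : 0 ≤ r ^ n := pow_nonneg h0 n
    nlinarith [mul_nonneg h0 h3]

/-- `1 + r ≤ q(r)`, `q(r) ≤ 1 + 2r ≤ exp(2r)` for small `r`, monotone -/
theorem qq_bounds [Fact p.Prime] {r : ℝ} (h0 : 0 ≤ r) (h1 : r ≤ 1 / 2) :
    1 + r ≤ qq p r ∧ qq p r ≤ 1 + 2 * r ∧ Real.log (qq p r) ≤ 2 * r := by
  have h2 := one_add_le_qq (p := p) h0
  have h3 := qq_le_two_mul (p := p) h0 h1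
  refine ⟨h2, h3, ?_⟩
  have h4 := Real.log_le_sub_one_of_pos (show 0 < qq p r by linarith)
  linarith

theorem qq_mono {r s : ℝ} (h0 : 0 ≤ r) (h1 : r ≤ s) : qq p r ≤ qq p s := by
  unfold qq
  exact Finset.sum_le_sum fun i _ => pow_le_pow_left₀ h0 h1 i

theorem Ix_top [Fact p.Prime] : Ix w ⊤ = 1 := by
  rw [Ix_eq_prod w (Chain.nil : Chain w ⊤ ⊤ []) (op_top w)]
  simp

theorem one_le_prod_qq [Fact p.Prime] {L : List (G × ℝ)} (h : ∀ x ∈ L, 0 ≤ x.2) :
    1 ≤ (L.map fun x => qq p x.2).prod := by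
  induction L with
  | nil => simp
  | cons x L ih =>
    rw [List.map_cons, List.prod_cons]
    have h1 := ih fun y hy => h y (List.mem_cons_of_mem _ hy)
    have h2 := one_add_le_qq (p := p) (h x List.mem_cons_self)
    have h3 := h x List.mem_cons_self
    nlinarith

theorem chain_op {P V : Subgroup G} {L : List (G × ℝ)} (h : Chain w P V L) (hV : Op w V) :
    Op w P := op_mono w hV (chain_le w h)

theorem Ix_step [Fact p.Prime] {V V' : Subgroup G} {y : G} {r : ℝ} (h : Step w V V' y r)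
    (hV' : Op w V') : Ix w V' = qq p r * Ix w V := by
  have hV : Op w V := op_mono w hV' h.le
  obtain ⟨L, hL⟩ := exists_chain w hV (le_top : V ≤ ⊤)
  rw [Ix_eq_prod w hL hV, Ix_eq_prod w (Chain.cons hL h) hV']
  simp

theorem Ix_chain [Fact p.Prime] {V V' : Subgroup G} {L : List (G × ℝ)} (h : Chain w V V' L)
    (hV' : Op w V') : Ix w V' = (L.map fun x => qq p x.2).prod * Ix w V := by
  induction h with
  | nil => simp
  | cons h1 h2 ih =>
    rw [Ix_step w h2 hV', ih (op_mono w hV' h2.le)]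
    simp [mul_assoc]

theorem one_le_Ix [Fact p.Prime] {V : Subgroup G} (hV : Op w V) : 1 ≤ Ix w V := by
  obtain ⟨L, hL⟩ := exists_chain w hV (le_top : V ≤ ⊤)
  rw [Ix_eq_prod w hL hV]
  exact one_le_prod_qq fun x hx => (chain_mem w hL x hx).2.2.1.le

theorem Ix_anti [Fact p.Prime] {V V' : Subgroup G} (hV' : Op w V') (h : V' ≤ V) :
    Ix w V ≤ Ix w V' := by
  obtain ⟨L, hL⟩ := exists_chain w hV' h
  rw [Ix_chain w hL hV']
  have h1 : 1 ≤ (L.map fun x => qq p x.2).prod :=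
    one_le_prod_qq fun x hx => (chain_mem w hL x hx).2.2.1.le
  have h2 := one_le_Ix w (op_mono w hV' h)
  nlinarith

end Pool.Agent.GGS
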