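import Pool.Agent.GGS.PresDef
import Pool.Agent.GGS.IxMono
import Pool.Agent.GGS.Fin

/-!
# The action of the power series ring on the invariant functions (paper, 5.2)

`N x := ρ(ξ x) - 1` on the finite-dimensional space `Inv p V`; long words vanish (`exists_nil`), so `evs`
applies.  For `g ∈ Fhat` the operator `evs N k (toSer g)` is `ρ(π g)` (`Fhat_induction`).
-/

namespace Pool.Agent.GGS

universe u

open Ser

variable {p : ℕ} {G : Type u} [Group G] {w : WG p G}

lemma actFil_lt (Q : Pres p G w) (x : Q.X) : Q.wx x < 1 := (Q.le_wm x).trans_lt w.wm_lt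

/-- continuity of `π` -/
theorem isOpen_preimage (Q : Pres p G w) {V : Subgroup G} (hV : Op w V) (g : G) :
    IsOpen {h : Fhat p Q.X | g⁻¹ * Q.π h ∈ V} := by
  obtain ⟨t, ht, hV⟩ := hV
  rw [isOpen_iff_mem_nhds]
  intro h0 hh0
  have h1 : IsOpen {h : Fhat p Q.X | Wt Q.wx (h0⁻¹ * h) ≤ t} :=
    isOpen_Wt Q.pos (actFil_lt Q) ht h0
  have h2 : h0 ∈ {h : Fhat p Q.X | Wt Q.wx (h0⁻¹ * h) ≤ t} := by
    show Wt Q.wx (h0⁻¹ * h0) ≤ t
    rw [inv_mul_cancel, Wt_one]
    exact ht.le
  refine Filter.mem_of_superset (h1.mem_nhds h2) ?_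
  intro h hh
  have h3 : Q.π (h0⁻¹ * h) ∈ V := hV _ ((Q.le _).trans hh)
  have h4 : g⁻¹ * Q.π h = (g⁻¹ * Q.π h0) * Q.π (h0⁻¹ * h) := by
    rw [map_mul, map_inv]
    group
  show g⁻¹ * Q.π h ∈ V
  rw [h4]
  exact V.mul_mem hh0 h3

/-- right translation on the invariant functions -/
def actFil_rho (p : ℕ) (V : Subgroup G) (h : G) : Module.End (ZMod p) (Inv p V) where
  toFun f := ⟨fun g => f.1 (g * h), fun v hv g => by
    show f.1 (v * g * h) = f.1 (g * h)
    rw [mul_assoc, f.2 v hv]⟩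
  map_add' _ _ := rfl
  map_smul' _ _ := rfl

lemma actFil_rho_apply (V : Subgroup G) (h : G) (f : Inv p V) (g : G) :
    (actFil_rho p V h f).1 g = f.1 (g * h) := rfl

/-- the operators `ρ(ξ x) - 1` -/
noncomputable def actFil_N (Q : Pres p G w) (V : Subgroup G) (x : Q.X) :
    Module.End (ZMod p) (Inv p V) :=
  actFil_rho p V (Q.ξ x) - 1

lemma actFil_word (Q : Pres p G w) (V : Subgroup G) (u : List Q.X) (f : Inv p V) :
    (((u.map (actFil_N Q V)).prod f : Inv p V) : G → ZMod p) = dif (u.map Q.ξ) f.1 := by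
  induction u with
  | nil => rfl
  | cons x u ih =>
    funext g
    rw [List.map_cons, List.prod_cons, List.map_cons, dif_cons, ← ih]
    rfl

lemma actFil_nilW [Fact p.Prime] (Q : Pres p G w) {V : Subgroup G} (hV : Op w V) :
    ∃ k, NilW (actFil_N Q V) k := by
  obtain ⟨k, hk⟩ := exists_nil w hV
  refine ⟨k, fun u hu => ?_⟩
  refine LinearMap.ext fun f => Subtype.ext ?_
  rw [actFil_word, hk f.1 f.2 _ (by rwa [List.length_map])]
  rfl

/-- the action -/
noncomputable def actFil_ev (Q : Pres p G w) (V : Subgroup G) (k : ℕ) (s : Ser p Q.X) :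
    Module.End (ZMod p) (Inv p V) :=
  evs (actFil_N Q V) k s

lemma actFil_ev_apply (Q : Pres p G w) (V : Subgroup G) (k : ℕ) (s : Ser p Q.X) (f : Inv p V) :
    actFil_ev Q V k s f = ∑ n ∈ Finset.range k, ∑ u : Fin n → Q.X,
      s (List.ofFn u) • (((List.ofFn u).map (actFil_N Q V)).prod f) := by
  unfold actFil_ev evs
  rw [LinearMap.sum_apply]
  refine Finset.sum_congr rfl fun n _ => ?_
  rw [LinearMap.sum_apply]
  rfl

section ev
variable [Fact p.Prime] (Q : Pres p G w) {V : Subgroup G} {k : ℕ}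

lemma actFil_ev_gen (hk : NilW (actFil_N Q V) k) (x : Q.X) :
    actFil_ev Q V k (toSer (genF x)) = actFil_rho p V (Q.ξ x) := by
  have h1 : actFil_ev Q V k (1 + mon [x]) = actFil_ev Q V k 1 + actFil_ev Q V k (mon [x]) :=
    evs_add _ _ _ _
  have h2 : actFil_ev Q V k (1 : Ser p Q.X) = 1 := evs_one hk
  have h3 : actFil_ev Q V k (mon [x] : Ser p Q.X) = actFil_N Q V x := by
    refine (evs_mon hk [x]).trans ?_
    simp
  rw [toSer_gen, h1, h2, h3]
  unfold actFil_N
  abel

lemma actFil_main (hV : Op w V) (hk : NilW (actFil_N Q V) k) (g : Fhat p Q.X) :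
    actFil_ev Q V k (toSer g) = actFil_rho p V (Q.π g) := by
  have hmulev : ∀ a b : Ser p Q.X, actFil_ev Q V k (a * b) =
      actFil_ev Q V k a * actFil_ev Q V k b := fun a b => evs_mul hk a b
  have hone : actFil_ev Q V k (1 : Ser p Q.X) = 1 := evs_one hk
  have hrmul : ∀ a b : G, actFil_rho p V (a * b) = actFil_rho p V a * actFil_rho p V b := by
    intro a b
    refine LinearMap.ext fun f => Subtype.ext ?_
    funext c
    show f.1 (c * (a * b)) = f.1 (c * a * b)
    rw [mul_assoc]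
  have hrone : actFil_rho p V (1 : G) = 1 := by
    refine LinearMap.ext fun f => Subtype.ext ?_
    funext c
    show f.1 (c * 1) = f.1 c
    rw [mul_one]
  refine Fhat_induction (P := fun g => actFil_ev Q V k (toSer g) = actFil_rho p V (Q.π g))
    ?_ ?_ ?_ ?_ ?_ g
  · -- closed
    rw [← isOpen_compl_iff, isOpen_iff_mem_nhds]
    intro g0 hg0
    obtain ⟨t, ht, hVt⟩ := hV
    have hU1 : IsOpen {g : Fhat p Q.X | ∀ u : List Q.X, u.length < k → toSer g0 u = toSer g u} :=
      (isClopen_of_coeff k fun g g' hgg' hg u hu => (hg u hu).trans (hgg' u hu)).isOpen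
    have hU2 : IsOpen {g : Fhat p Q.X | (Q.π g0)⁻¹ * Q.π g ∈ w.ball t} :=
      isOpen_preimage Q (op_ball w ht) _
    refine Filter.mem_of_superset (Filter.inter_mem
      (hU1.mem_nhds (show ∀ u : List Q.X, u.length < k → toSer g0 u = toSer g0 u from
        fun _ _ => rfl))
      (hU2.mem_nhds (show (Q.π g0)⁻¹ * Q.π g0 ∈ w.ball t by
        rw [inv_mul_cancel]; exact (w.ball t).one_mem))) ?_
    rintro g ⟨h1, h2⟩ h3
    apply hg0
    show actFil_ev Q V k (toSer g0) = actFil_rho p V (Q.π g0)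
    have e1 : actFil_ev Q V k (toSer g0) = actFil_ev Q V k (toSer g) := evs_congr _ _ h1
    rw [e1, show actFil_ev Q V k (toSer g) = actFil_rho p V (Q.π g) from h3]
    refine LinearMap.ext fun f => Subtype.ext ?_
    funext c
    show f.1 (c * Q.π g) = f.1 (c * Q.π g0)
    have h4 : (c * Q.π g0) * ((Q.π g0)⁻¹ * Q.π g) * (c * Q.π g0)⁻¹ ∈ w.ball t :=
      (ball_normal w t).conj_mem _ h2 _
    have h5 : c * Q.π g = ((c * Q.π g0) * ((Q.π g0)⁻¹ * Q.π g) * (c * Q.π g0)⁻¹) *
        (c * Q.π g0) := by group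
    rw [h5]
    exact f.2 _ (hVt _ ((w.mem_ball ht.le).1 h4)) _
  · rw [toSer_one, map_one, hone, hrone]
  · intro x
    exact actFil_ev_gen Q hk x
  · intro g h hg hh
    rw [toSer_mul, map_mul, hmulev, hrmul, hg, hh]
  · intro g hg
    have h1 : actFil_ev Q V k (toSer g⁻¹) * actFil_ev Q V k (toSer g) = 1 := by
      rw [← hmulev, ← toSer_mul, inv_mul_cancel, toSer_one, hone]
    have h2 : actFil_rho p V (Q.π g) * actFil_rho p V (Q.π g)⁻¹ = 1 := by
      rw [← hrmul, mul_inv_cancel, hrone]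
    rw [map_inv]
    calc actFil_ev Q V k (toSer g⁻¹) =
        actFil_ev Q V k (toSer g⁻¹) * (actFil_rho p V (Q.π g) * actFil_rho p V (Q.π g)⁻¹) := by
          rw [h2, mul_one]
      _ = (actFil_ev Q V k (toSer g⁻¹) * actFil_ev Q V k (toSer g)) *
          actFil_rho p V (Q.π g)⁻¹ := by rw [hg, mul_assoc]
      _ = actFil_rho p V (Q.π g)⁻¹ := by rw [h1, one_mul]

end ev

lemma actFil_W_xi [Fact p.Prime] (Q : Pres p G w) (x : Q.X) : w.W (Q.ξ x) ≤ Q.wx x := by
  have h := Q.le (genF x)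
  rwa [Wt_gen Q.pos x] at h

lemma actFil_wl [Fact p.Prime] (Q : Pres p G w) (u : List Q.X) :
    wl w (u.map Q.ξ) ≤ wt Q.wx u := by
  induction u with
  | nil => simp [wt]
  | cons x u ih =>
    rw [List.map_cons, wl_cons]
    have h1 : wt Q.wx (x :: u) = Q.wx x * wt Q.wx u := by simp [wt]
    rw [h1]
    exact mul_le_mul (actFil_W_xi Q x) ih (wl_nonneg w _) (Q.pos x).le

lemma actFil_word_mem [Fact p.Prime] (Q : Pres p G w) {V : Subgroup G} {f : G → ZMod p} {t : ℝ}
    (hf : f ∈ Fil w V t) (u : List Q.X) {r : ℝ} (hr : 0 < r) (hu : wt Q.wx u ≤ r) :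
    dif (u.map Q.ξ) f ∈ Fil w V (t / r) := by
  refine ⟨dif_left_inv hf.1 _, fun L hL => ?_⟩
  rw [← dif_append]
  apply hf.2
  rw [wl_append]
  have h1 : wl w (u.map Q.ξ) ≤ r := (actFil_wl Q u).trans hu
  calc wl w L * wl w (u.map Q.ξ) ≤ (t / r) * r :=
        mul_le_mul hL h1 (wl_nonneg w _) ((wl_nonneg w L).trans hL)
    _ = t := by field_simp

lemma actFil_sw_pos [Fact p.Prime] (Q : Pres p G w) {s : Ser p Q.X} (hs : s ≠ 0) :
    0 < sw Q.wx s := by
  obtain ⟨u, hu⟩ : ∃ u, s u ≠ 0 := by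
    by_contra hc
    push Not at hc
    exact hs (Ser.ext hc)
  exact (wt_pos Q.pos u).trans_le (le_sw Q.pos (fun x => (actFil_lt Q x).le) s hu)

theorem act_exists [Fact p.Prime] (Q : Pres p G w) {V : Subgroup G} (hV : Op w V) :
    ∃ ev : Ser p Q.X → Module.End (ZMod p) (Inv p V),
      (∀ s s', ev (s + s') = ev s + ev s') ∧ (∀ s s', ev (s * s') = ev s * ev s') ∧
      (∀ (c : ZMod p) s, ev (c • s) = c • ev s) ∧ ev 1 = 1 ∧
      (∀ (g : Fhat p Q.X) (f : Inv p V) (h : G), (ev (toSer g) f).1 h = f.1 (h * Q.π g)) ∧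
      (∀ (s : Ser p Q.X) (f : Inv p V) (t : ℝ), s ≠ 0 → f.1 ∈ Fil w V t →
        (ev s f).1 ∈ Fil w V (t / sw Q.wx s)) ∧
      ∃ k : ℕ, ∀ s s' : Ser p Q.X, (∀ u : List Q.X, u.length < k → s u = s' u) → ev s = ev s' := by
  obtain ⟨k, hk⟩ := actFil_nilW Q hV
  refine ⟨actFil_ev Q V k, fun s s' => evs_add _ _ _ _, fun s s' => evs_mul hk s s',
    fun c s => evs_smul _ _ _ _, evs_one hk, fun g f h => ?_, fun s f t hs hf => ?_, k,
    fun s s' h => evs_congr _ _ h⟩
  · rw [actFil_main Q hV hk g]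
    rfl
  · have hpos := actFil_sw_pos Q hs
    have hmem : actFil_ev Q V k s f ∈ (Fil w V (t / sw Q.wx s)).comap (Inv p V).subtype := by
      rw [actFil_ev_apply]
      refine Submodule.sum_mem _ fun n _ => Submodule.sum_mem _ fun u _ => ?_
      by_cases h0 : s (List.ofFn u) = 0
      · rw [h0, zero_smul]
        exact Submodule.zero_mem _
      · refine Submodule.smul_mem _ _ ?_
        rw [Submodule.mem_comap]
        show ((((List.ofFn u).map (actFil_N Q V)).prod f : Inv p V) : G → ZMod p) ∈ _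
        rw [actFil_word]
        exact actFil_word_mem Q hf _ hpos (le_sw Q.pos (fun x => (actFil_lt Q x).le) s h0)
    exact hmem

/-- differences act through series of small weight -/
lemma actFil_list [Fact p.Prime] (Q : Pres p G w) {V : Subgroup G} (hV : Op w V) {k : ℕ}
    (hk : NilW (actFil_N Q V) k) (L : List G) :
    ∃ s : Ser p Q.X, (∀ u, s u ≠ 0 → wt Q.wx u ≤ wl w L) ∧
      ∀ f : Inv p V, (actFil_ev Q V k s f).1 = dif L f.1 := by
  have hle : ∀ x, Q.wx x ≤ 1 := fun x => (actFil_lt Q x).le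
  induction L with
  | nil =>
    refine ⟨1, fun u hu => ?_, fun f => ?_⟩
    · cases u with
      | nil => simp [wt]
      | cons x u => exact absurd (one_cons x u) hu
    · have : actFil_ev Q V k (1 : Ser p Q.X) = 1 := evs_one hk
      rw [this]
      rfl
  | cons h L ih =>
    obtain ⟨s, hs, hf⟩ := ih
    obtain ⟨h', hh', hW⟩ := Q.lift h
    refine ⟨(toSer h' - 1) * s, fun u hu => ?_, fun f => ?_⟩
    · have h1 : wt Q.wx u ≤ sw Q.wx ((toSer h' - 1) * s) := le_sw Q.pos hle _ hu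
      have h2 : sw Q.wx ((toSer h' - 1) * s) ≤ sw Q.wx (toSer h' - 1) * sw Q.wx s :=
        sw_mul_le Q.pos hle _ _
      have h3 : sw Q.wx (toSer h' - 1) = w.W h := hW
      have h4 : sw Q.wx s ≤ wl w L := (sw_le_iff Q.pos hle s (wl_nonneg w L)).2 hs
      rw [h3] at h2
      rw [wl_cons]
      exact h1.trans (h2.trans (mul_le_mul_of_nonneg_left h4 (w.nonneg h)))
    · have e1 : actFil_ev Q V k ((toSer h' - 1) * s) =
          actFil_ev Q V k (toSer h' - 1) * actFil_ev Q V k s := evs_mul hk _ _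
      have e2 : actFil_ev Q V k (toSer h') =
          actFil_ev Q V k (toSer h' - 1) + actFil_ev Q V k 1 := by
        have : toSer h' = (toSer h' - 1) + 1 := by abel
        conv_lhs => rw [this]
        exact evs_add _ _ _ _
      have e3 : actFil_ev Q V k (1 : Ser p Q.X) = 1 := evs_one hk
      have e4 : actFil_ev Q V k (toSer h' - 1) = actFil_rho p V h - 1 := by
        rw [actFil_main Q hV hk, hh', e3] at e2
        rw [e2]
        abel
      rw [e1, e4]
      funext g
      rw [dif_cons, ← hf f]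
      rfl

/-- words in the letters suffice -/
theorem Fil_letters [Fact p.Prime] (Q : Pres p G w) {V : Subgroup G} (hV : Op w V)
    {f : G → ZMod p} (hf : f ∈ Inv p V) (t : ℝ) :
    f ∈ Fil w V t ↔ ∀ u : List Q.X, wt Q.wx u ≤ t → dif (u.map Q.ξ) f 1 = 0 := by
  constructor
  · intro h u hu
    exact h.2 _ ((actFil_wl Q u).trans hu)
  · intro h
    refine ⟨hf, fun L hL => ?_⟩
    obtain ⟨k, hk⟩ := actFil_nilW Q hV
    obtain ⟨s, hs, hs'⟩ := actFil_list Q hV hk L
    have h1 := hs' ⟨f, hf⟩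
    rw [← show (actFil_ev Q V k s ⟨f, hf⟩).1 = dif L f from h1, actFil_ev_apply]
    have hmem : (∑ n ∈ Finset.range k, ∑ u : Fin n → Q.X, s (List.ofFn u) •
        (((List.ofFn u).map (actFil_N Q V)).prod (⟨f, hf⟩ : Inv p V))) ∈
        LinearMap.ker ((LinearMap.proj (R := ZMod p) (φ := fun _ : G => ZMod p) (1 : G)).comp
          (Inv p V).subtype) := by
      refine Submodule.sum_mem _ fun n _ => Submodule.sum_mem _ fun u _ => ?_
      by_cases h0 : s (List.ofFn u) = 0
      · rw [h0, zero_smul]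
        exact Submodule.zero_mem _
      · refine Submodule.smul_mem _ _ ?_
        rw [LinearMap.mem_ker]
        show ((((List.ofFn u).map (actFil_N Q V)).prod (⟨f, hf⟩ : Inv p V) : Inv p V) :
          G → ZMod p) 1 = 0
        rw [actFil_word]
        exact h _ ((hs _ h0).trans hL)
    exact hmem

theorem Fil_step [Fact p.Prime] (Q : Pres p G w) {V : Subgroup G} (hV : Op w V)
    {f : G → ZMod p} (hf : f ∈ Inv p V) {t : ℝ} (ht : t < 1) :
    f ∈ Fil w V t ↔ ∀ x, (fun g => f (g * Q.ξ x) - f g) ∈ Fil w V (t / Q.wx x) := by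
  constructor
  · intro h x
    have h1 := actFil_word_mem Q h [x] (Q.pos x) (by simp [wt])
    exact h1
  · intro h
    rw [Fil_letters Q hV hf]
    intro u hu
    rcases List.eq_nil_or_concat u with rfl | ⟨u', x, rfl⟩
    · exact absurd hu (by simp only [wt, List.map_nil, List.prod_nil, not_le]; exact ht)
    · rw [List.concat_eq_append, List.map_append, dif_append]
      have h1 : wt Q.wx (u' ++ [x]) = wt Q.wx u' * Q.wx x := by
        rw [wt_append]
        simp [wt]
      rw [List.concat_eq_append, h1] at hu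
      refine (h x).2 _ ((actFil_wl Q u').trans ?_)
      rw [le_div_iff₀ (Q.pos x)]
      exact hu

end Pool.Agent.GGS
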