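import Pool.Agent.GGS.ChFin

/-!
# Existence of adapted families (paper, section 3)

Induct on the dimension of `S`.  The element `v ∈ V` outside the common kernel of `S` of smallest weight exists by
`exists_minW` (all elements of `S` vanish on the elements of `V` of weight `≤ t`, for some `t > 0`, because `S` is
finite dimensional).
-/

namespace Pool.Agent.GGS

universe u

variable {p : ℕ} {G : Type u} [Group G] (w : WG p G)

theorem AdEx_common {V : Subgroup G} (F : Finset (G → ZMod p)) (hF : ∀ f ∈ F, f ∈ ChS w V) :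
    ∃ t, 0 < t ∧ ∀ f ∈ F, f ∈ Ch w V t := by
  classical
  induction F using Finset.induction_on with
  | empty => exact ⟨1, one_pos, fun f hf => absurd hf (Finset.notMem_empty f)⟩
  | insert a F _ ih =>
    obtain ⟨t, ht, h⟩ := ih fun f hf => hF f (Finset.mem_insert_of_mem hf)
    obtain ⟨s, hs, h'⟩ := hF a (Finset.mem_insert_self a F)
    refine ⟨min s t, lt_min hs ht, fun f hf => ?_⟩
    rcases Finset.mem_insert.1 hf with rfl | hf
    · exact Ch_anti w V (min_le_left _ _) h'
    · exact Ch_anti w V (min_le_right _ _) (h f hf)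

theorem AdEx_le {V : Subgroup G} (S : Submodule (ZMod p) (G → ZMod p))
    (hS : S ≤ ChS w V) (hf : S.FG) : ∃ t, 0 < t ∧ S ≤ Ch w V t := by
  obtain ⟨F, rfl⟩ := hf
  obtain ⟨t, ht, h⟩ := AdEx_common w F fun f hf => hS (Submodule.subset_span hf)
  exact ⟨t, ht, Submodule.span_le.2 h⟩

theorem AdEx_main [Fact p.Prime] {V : Subgroup G} (n : ℕ) :
    ∀ S : Submodule (ZMod p) (G → ZMod p), S ≤ ChS w V → Module.Finite (ZMod p) S →
      Module.finrank (ZMod p) S = n →
    ∃ (B : Type) (_ : Fintype B) (v : B → G) (r : B → ℝ) (χ : B → G → ZMod p),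
      Adapted w V S v r χ := by
  classical
  induction n using Nat.strong_induction_on with
  | _ n ih =>
    intro S hS hf hn
    by_cases h0 : S = ⊥
    · refine ⟨Empty, inferInstance, Empty.elim, Empty.elim, Empty.elim, ?_⟩
      refine ⟨fun b => b.elim, fun b => b.elim, fun b => b.elim, fun b => b.elim,
        fun b => b.elim, fun b => b.elim, fun ψ hψ _ => ?_⟩
      rw [h0] at hψ
      exact (Submodule.mem_bot (ZMod p)).1 hψ
    · obtain ⟨t, ht, hSt⟩ := AdEx_le w S hS (Module.Finite.iff_fg.1 hf)
      set A : Set G := {g | g ∈ V ∧ ∃ ψ ∈ S, ψ g ≠ 0} with hA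
      have hAne : A.Nonempty := by
        obtain ⟨ψ, hψ, hψ0⟩ := (Submodule.ne_bot_iff S).1 h0
        obtain ⟨g, hg⟩ : ∃ g, ψ g ≠ 0 := by
          by_contra hcon
          push Not at hcon
          exact hψ0 (funext hcon)
        refine ⟨g, ?_, ψ, hψ, hg⟩
        by_contra hgV
        exact hg ((hSt hψ).1 g hgV)
      have hAt : ∀ g ∈ A, t < w.W g := by
        rintro g ⟨hgV, ψ, hψ, hg⟩
        by_contra hcon
        exact hg ((hSt hψ).2.2 g hgV (not_lt.1 hcon))
      obtain ⟨y, ⟨hyV, ψ₀, hψ₀, hψ₀y⟩, hymin⟩ := exists_minW w hAne ht hAt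
      have hyt : t < w.W y := hAt y ⟨hyV, ψ₀, hψ₀, hψ₀y⟩
      set ev : (G → ZMod p) →ₗ[ZMod p] ZMod p := LinearMap.proj y with hev
      set S' : Submodule (ZMod p) (G → ZMod p) := S ⊓ LinearMap.ker ev with hS'
      have hS'S : S' ≤ S := inf_le_left
      have hlt : S' < S := by
        refine lt_of_le_of_ne hS'S fun h => ?_
        have h1 : ψ₀ ∈ S' := by rw [h]; exact hψ₀
        exact hψ₀y (LinearMap.mem_ker.1 h1.2)
      have hfd : FiniteDimensional (ZMod p) S := hf
      have hfin' : Module.Finite (ZMod p) S' := Submodule.finiteDimensional_of_le hS'S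
      have hrk : Module.finrank (ZMod p) S' < n := by
        rw [← hn]
        exact Submodule.finrank_lt_finrank_of_lt hlt
      obtain ⟨B, hB, v, r, χ, had⟩ := ih _ hrk S' (hS'S.trans hS) hfin' rfl
      have hχy : ∀ b, χ b y = 0 := fun b => LinearMap.mem_ker.1 (had.inS b).2
      -- the new character
      set χ₁ : G → ZMod p := (ψ₀ y)⁻¹ • ψ₀ with hχ₁
      have hχ₁S : χ₁ ∈ S := S.smul_mem _ hψ₀
      have hχ₁y : χ₁ y = 1 := by
        rw [hχ₁, Pi.smul_apply, smul_eq_mul, inv_mul_cancel₀ hψ₀y]
      set χ₂ : G → ZMod p := χ₁ - ∑ b, χ₁ (v b) • χ b with hχ₂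
      have hχ₂S : χ₂ ∈ S := S.sub_mem hχ₁S
        (S.sum_mem fun b _ => S.smul_mem _ (hS'S (had.inS b)))
      have hχ₂y : χ₂ y = 1 := by
        rw [hχ₂, Pi.sub_apply, Finset.sum_apply, hχ₁y]
        have h1 : ∑ b, (χ₁ (v b) • χ b) y = 0 := by
          refine Finset.sum_eq_zero fun b _ => ?_
          rw [Pi.smul_apply, hχy b, smul_zero]
        rw [h1, sub_zero]
      have hχ₂v : ∀ c, χ₂ (v c) = 0 := by
        intro c
        rw [hχ₂, Pi.sub_apply, Finset.sum_apply, Finset.sum_eq_single c]
        · rw [Pi.smul_apply, had.dual c c, if_pos rfl, smul_eq_mul, mul_one, sub_self]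
        · intro b _ hb
          rw [Pi.smul_apply, had.dual b c, if_neg hb, smul_zero]
        · intro h
          exact absurd (Finset.mem_univ c) h
      refine ⟨Option B, inferInstance, fun b => b.elim y v, fun b => b.elim (w.W y) r,
        fun b => b.elim χ₂ χ, ?_, ?_, ?_, ?_, ?_, ?_, ?_⟩
      · rintro (_ | b)
        · exact hyV
        · exact had.mem b
      · rintro (_ | b)
        · exact ht.trans hyt
        · exact had.pos b
      · rintro (_ | b)
        · rfl
        · exact had.wv b
      · rintro (_ | b)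
        · exact hχ₂S
        · exact hS'S (had.inS b)
      · rintro (_ | b) (_ | c)
        · rw [if_pos rfl]
          exact hχ₂y
        · rw [if_neg (by simp)]
          exact hχ₂v c
        · rw [if_neg (by simp)]
          exact hχy b
        · show χ b (v c) = _
          rw [had.dual b c]
          by_cases hbc : b = c
          · rw [if_pos hbc, if_pos (by rw [hbc])]
          · rw [if_neg hbc, if_neg (fun h => hbc (Option.some.inj h))]
      · rintro (_ | b) u hu huw
        · by_contra hcon
          have h1 := hymin u ⟨hu, χ₂, hχ₂S, hcon⟩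
          exact absurd huw (not_lt.2 h1)
        · exact had.van b u hu huw
      · intro ψ hψ h
        have h1 : ψ y = 0 := h none
        refine had.full ψ ⟨hψ, LinearMap.mem_ker.2 h1⟩ fun b => h (some b)

theorem exists_adapted [Fact p.Prime] {V : Subgroup G} (S : Submodule (ZMod p) (G → ZMod p))
    (hS : S ≤ ChS w V) (hf : Module.Finite (ZMod p) S) :
    ∃ (B : Type) (_ : Fintype B) (v : B → G) (r : B → ℝ) (χ : B → G → ZMod p),
      Adapted w V S v r χ :=
  AdEx_main w _ S hS hf rfl

end Pool.Agent.GGS
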