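import Pool.Agent.GGS.MdCount

/-!
# The `W`-index as a product (paper, 2.1, 2.2)

`∫₀¹ #{a | t < m_a} dt = ∑ m_a` for `m_a ∈ [0,1]`; `∑_a ∏ r_i^(a_i) = ∏ q(r_i)` (`Finset.prod_univ_sum`).
-/

namespace Pool.Agent.GGS

universe u

variable {p : ℕ} {G : Type u} [Group G] (w : WG p G)

theorem integral_lt_ind {m : ℝ} (h0 : 0 ≤ m) (h1 : m ≤ 1) :
    ∫ t in (0 : ℝ)..1, (if t < m then (1 : ℝ) else 0) = m := by
  have e1 : ∫ t in (0 : ℝ)..1, (if t < m then (1 : ℝ) else 0) =
      ∫ t in (0 : ℝ)..1, Set.indicator {x | x ≤ m} (fun _ => (1 : ℝ)) t := by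
    refine intervalIntegral.integral_congr_ae ?_
    have h2 : ∀ᵐ t : ℝ, t ≠ m := by
      rw [MeasureTheory.ae_iff]
      simp
    filter_upwards [h2] with t ht _
    by_cases h : t < m
    · rw [if_pos h, Set.indicator_of_mem (show t ∈ {x | x ≤ m} from h.le)]
    · have h3 : ¬ t ≤ m := fun h4 => h (lt_of_le_of_ne h4 ht)
      rw [if_neg h, Set.indicator_of_notMem (show t ∉ {x | x ≤ m} from h3)]
  rw [e1, intervalIntegral.integral_indicator ⟨h0, h1⟩]
  simp

theorem integrable_count {ι : Type*} [Fintype ι] (m : ι → ℝ) (a b : ℝ) :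
    IntervalIntegrable (fun t : ℝ => ((Finset.univ.filter fun i => t < m i).card : ℝ))
      MeasureTheory.volume a b := by
  refine Antitone.intervalIntegrable ?_
  intro s t hst
  have h : (Finset.univ.filter fun i => t < m i) ⊆ (Finset.univ.filter fun i => s < m i) := by
    intro i hi
    simp only [Finset.mem_filter, Finset.mem_univ, true_and] at hi ⊢
    exact lt_of_le_of_lt hst hi
  exact Nat.cast_le.2 (Finset.card_le_card h)

/-- the integral of a counting function -/
theorem integral_count {ι : Type*} [Fintype ι] (m : ι → ℝ) (h0 : ∀ i, 0 ≤ m i) (h1 : ∀ i, m i ≤ 1) :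
    ∫ t in (0 : ℝ)..1, ((Finset.univ.filter fun i => t < m i).card : ℝ) = ∑ i, m i := by
  have e1 : ∀ t : ℝ, ((Finset.univ.filter fun i => t < m i).card : ℝ) =
      ∑ i, (if t < m i then (1 : ℝ) else 0) := by
    intro t
    rw [Finset.card_filter]
    push_cast
    rfl
  simp only [e1]
  rw [intervalIntegral.integral_finsetSum]
  · exact Finset.sum_congr rfl fun i _ => integral_lt_ind (h0 i) (h1 i)
  · intro i _
    refine Antitone.intervalIntegrable ?_
    intro s t hst
    dsimp only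
    split_ifs with h2 h3
    · exact le_rfl
    · exact absurd (lt_of_le_of_lt hst h2) h3
    · exact zero_le_one
    · exact le_rfl

theorem Ix_eq_sum [Fact p.Prime] {V : Subgroup G} {L : List (G × ℝ)} (h : Chain w ⊤ V L)
    (hV : Op w V) : Ix w V = ∑ a : Fin L.length → Fin p, mw L a := by
  unfold Ix
  simp only [md_eq w h hV]
  exact integral_count _ (fun a => (mw_pos w h a).1.le) fun a => (mw_pos w h a).2

theorem Ix_eq_prod [Fact p.Prime] {V : Subgroup G} {L : List (G × ℝ)} (h : Chain w ⊤ V L)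
    (hV : Op w V) : Ix w V = (L.map fun x => qq p x.2).prod := by
  rw [Ix_eq_sum w h hV]
  have e1 : (L.map fun x => qq p x.2).prod = ∏ i : Fin L.length, qq p (L.get i).2 := by
    rw [← List.prod_ofFn]
    congr 1
    rw [List.ofFn_eq_map]
    conv_lhs => rw [← List.map_get_finRange L]
    rw [List.map_map]
    rfl
  rw [e1]
  unfold mw qq
  have e2 : ∀ i : Fin L.length, ∑ j ∈ Finset.range p, (L.get i).2 ^ j =
      ∑ j : Fin p, (L.get i).2 ^ (j : ℕ) := fun i =>
    (Fin.sum_univ_eq_sum_range (fun j => (L.get i).2 ^ j) p).symm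
  simp only [e2]
  rw [Finset.prod_univ_sum, Fintype.piFinset_univ]

theorem md_zero [Fact p.Prime] {V : Subgroup G} (hV : Op w V) {t : ℝ} (ht : 1 ≤ t) :
    md w V t = 0 := by
  obtain ⟨L, hL⟩ := exists_chain w hV (le_top : V ≤ ⊤)
  rw [md_eq w hL hV, Finset.card_eq_zero, Finset.filter_eq_empty_iff]
  intro a _
  exact not_lt.2 ((mw_pos w hL a).2.trans ht)

theorem md_anti [Fact p.Prime] {V : Subgroup G} (hV : Op w V) {s t : ℝ} (h : s ≤ t) :
    md w V t ≤ md w V s := by
  obtain ⟨L, hL⟩ := exists_chain w hV (le_top : V ≤ ⊤)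
  rw [md_eq w hL hV, md_eq w hL hV]
  refine Finset.card_le_card fun i hi => ?_
  simp only [Finset.mem_filter, Finset.mem_univ, true_and] at hi ⊢
  exact lt_of_le_of_lt h hi

/-- scaling: `∫₀¹ m_V(t / r) dt = r I(V)` for `0 < r ≤ 1` -/
theorem integral_md_div [Fact p.Prime] {V : Subgroup G} (hV : Op w V) {r : ℝ} (h0 : 0 < r)
    (h1 : r ≤ 1) : ∫ t in (0 : ℝ)..1, (md w V (t / r) : ℝ) = r * Ix w V := by
  obtain ⟨L, hL⟩ := exists_chain w hV (le_top : V ≤ ⊤)
  rw [Ix_eq_sum w hL hV]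
  simp only [md_eq w hL hV, div_lt_iff₀ h0]
  rw [integral_count (fun a : Fin L.length → Fin p => mw L a * r)
    (fun a => mul_nonneg (mw_pos w hL a).1.le h0.le)
    (fun a => mul_le_one₀ (mw_pos w hL a).2 h0.le h1), ← Finset.sum_mul, mul_comm]

end Pool.Agent.GGS
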