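import Pool.Agent.GGS.AdEx
import Pool.Agent.GGS.IxProd

/-!
# Adapted families and `K_V(t)`, `x(V)`, `x_t(V)` (paper, section 3)

`S ⊓ Ch w V t = span {χ_b | t < r_b}`; use `integral_count`.
-/

namespace Pool.Agent.GGS

universe u

variable {p : ℕ} {G : Type u} [Group G] (w : WG p G)

theorem adapted_lt {V : Subgroup G} {S : Submodule (ZMod p) (G → ZMod p)} {B : Type} {v : B → G}
    {r : B → ℝ} {χ : B → G → ZMod p} (h : Adapted w V S v r χ) (b : B) :
    0 < r b ∧ r b ≤ w.wm ∧ r b < 1 := by
  have h1 : r b ≤ w.wm := by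
    rw [← h.wv b]
    exact w.le_wm _
  exact ⟨h.pos b, h1, h1.trans_lt w.wm_lt⟩

open Classical in
theorem adSum_eval {V : Subgroup G} {S : Submodule (ZMod p) (G → ZMod p)} {B : Type}
    {v : B → G} {r : B → ℝ} {χ : B → G → ZMod p} (h : Adapted w V S v r χ) (T : Finset B)
    (a : B → ZMod p) (c : B) : (∑ b ∈ T, a b • χ b) (v c) = if c ∈ T then a c else 0 := by
  classical
  rw [Finset.sum_apply]
  simp only [Pi.smul_apply, smul_eq_mul, h.dual]
  rw [← Finset.sum_ite_eq T c a]
  refine Finset.sum_congr rfl fun b _ => ?_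
  by_cases hbc : b = c
  · rw [if_pos hbc, if_pos hbc.symm, mul_one]
  · rw [if_neg hbc, if_neg (fun hh => hbc hh.symm), mul_zero]

theorem adapted_expand [Fact p.Prime] {V : Subgroup G} {S : Submodule (ZMod p) (G → ZMod p)}
    {B : Type} [Fintype B] {v : B → G} {r : B → ℝ} {χ : B → G → ZMod p} (h : Adapted w V S v r χ)
    {ψ : G → ZMod p} (hψ : ψ ∈ S) : ψ = ∑ b, ψ (v b) • χ b := by
  classical
  rw [← sub_eq_zero]
  refine h.full _ (S.sub_mem hψ (S.sum_mem fun b _ => S.smul_mem _ (h.inS b))) fun c => ?_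
  rw [Pi.sub_apply, adSum_eval w h Finset.univ (fun b => ψ (v b)) c, if_pos (Finset.mem_univ c),
    sub_self]

theorem adapted_finite [Fact p.Prime] {V : Subgroup G} {S : Submodule (ZMod p) (G → ZMod p)}
    {B : Type} [Fintype B] {v : B → G} {r : B → ℝ} {χ : B → G → ZMod p}
    (h : Adapted w V S v r χ) : Module.Finite (ZMod p) S := by
  have h1 : S = Submodule.span (ZMod p) (Set.range χ) := by
    apply le_antisymm
    · intro ψ hψ
      rw [adapted_expand w h hψ]
      exact Submodule.sum_mem _ fun b _ =>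
        Submodule.smul_mem _ _ (Submodule.subset_span (Set.mem_range_self b))
    · rw [Submodule.span_le]
      rintro _ ⟨b, rfl⟩
      exact h.inS b
  have h2 : S.FG := by
    rw [h1]
    exact Submodule.fg_span (Set.finite_range χ)
  exact Module.Finite.iff_fg.2 h2

theorem adapted_dim [Fact p.Prime] {V : Subgroup G} {S : Submodule (ZMod p) (G → ZMod p)}
    (hS : S ≤ ChS w V) {B : Type} [Fintype B] {v : B → G} {r : B → ℝ} {χ : B → G → ZMod p}
    (h : Adapted w V S v r χ) {t : ℝ} (ht : 0 < t) :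
    Module.finrank (ZMod p) ↥(S ⊓ Ch w V t) = (Finset.univ.filter fun b => t < r b).card := by
  classical
  have _ := ht
  have hmem : ∀ b, t < r b → χ b ∈ S ⊓ Ch w V t := by
    intro b hb
    refine ⟨h.inS b, ?_⟩
    obtain ⟨t', ht', h1, h2, h3⟩ := hS (h.inS b)
    exact ⟨h1, h2, fun u hu hut => h.van b u hu (hut.trans_lt hb)⟩
  let φ : ↥(S ⊓ Ch w V t) →ₗ[ZMod p] ({b : B // t < r b} → ZMod p) :=
    { toFun := fun ψ b => (ψ : G → ZMod p) (v b.1)
      map_add' := fun ψ ψ' => by funext b; rfl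
      map_smul' := fun c ψ => by funext b; rfl }
  have hinj : Function.Injective φ := by
    rw [← LinearMap.ker_eq_bot, LinearMap.ker_eq_bot']
    rintro ⟨ψ, hψ⟩ h0
    apply Subtype.ext
    refine h.full ψ hψ.1 fun b => ?_
    by_cases hb : t < r b
    · exact congrFun h0 ⟨b, hb⟩
    · refine hψ.2.2.2 _ (h.mem b) ?_
      rw [h.wv]
      exact not_lt.1 hb
  have hsurj : Function.Surjective φ := by
    intro a
    let a' : B → ZMod p := fun b => if hb : t < r b then a ⟨b, hb⟩ else 0
    refine ⟨⟨∑ b ∈ Finset.univ.filter (fun b => t < r b), a' b • χ b, ?_⟩, ?_⟩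
    · refine Submodule.sum_mem _ fun b hb => Submodule.smul_mem _ _ (hmem b ?_)
      exact (Finset.mem_filter.1 hb).2
    · funext b
      change (∑ b ∈ Finset.univ.filter (fun b => t < r b), a' b • χ b) (v b.1) = a b
      have hbm : b.1 ∈ Finset.univ.filter (fun b => t < r b) := by
        rw [Finset.mem_filter]
        exact ⟨Finset.mem_univ _, b.2⟩
      rw [adSum_eval w h _ a' b.1, if_pos hbm]
      exact dif_pos b.2
  have e := LinearEquiv.ofBijective φ ⟨hinj, hsurj⟩
  rw [e.finrank_eq, Module.finrank_fintype_fun_eq_card, Fintype.card_subtype]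

theorem adapted_Kd [Fact p.Prime] {V : Subgroup G} {B : Type} [Fintype B] {v : B → G}
    {r : B → ℝ} {χ : B → G → ZMod p} (h : Adapted w V (ChS w V) v r χ) {t : ℝ} (ht : 0 < t) :
    Kd w V t = (Finset.univ.filter fun b => t < r b).card := by
  rw [← adapted_dim w le_rfl h ht, inf_eq_right.2 (Ch_le_ChS w V ht)]
  rfl

/-- the integral of `dim (S ⊓ Ch w V t)` -/
theorem adapted_integral [Fact p.Prime] {V : Subgroup G} {S : Submodule (ZMod p) (G → ZMod p)}
    (hS : S ≤ ChS w V) {B : Type} [Fintype B] {v : B → G} {r : B → ℝ} {χ : B → G → ZMod p}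
    (h : Adapted w V S v r χ) :
    ∫ t in (0 : ℝ)..1, (Module.finrank (ZMod p) ↥(S ⊓ Ch w V t) : ℝ) = ∑ b, r b := by
  rw [← integral_count r (fun b => (h.pos b).le) (fun b => (adapted_lt w h b).2.2.le)]
  refine intervalIntegral.integral_congr_ae (Filter.Eventually.of_forall fun t ht => ?_)
  rw [Set.uIoc_of_le zero_le_one] at ht
  rw [adapted_dim w hS h ht.1]

theorem adapted_xm [Fact p.Prime] {V : Subgroup G} {B : Type} [Fintype B] {v : B → G}
    {r : B → ℝ} {χ : B → G → ZMod p} (h : Adapted w V (ChS w V) v r χ) :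
    xm w V = ∑ b, r b := by
  rw [← integral_count r (fun b => (h.pos b).le) (fun b => (adapted_lt w h b).2.2.le)]
  unfold xm
  refine intervalIntegral.integral_congr_ae (Filter.Eventually.of_forall fun t ht => ?_)
  rw [Set.uIoc_of_le zero_le_one] at ht
  rw [adapted_Kd w h ht.1]

theorem adapted_xd [Fact p.Prime] {V : Subgroup G} {B : Type} [Fintype B] {v : B → G}
    {r : B → ℝ} {χ : B → G → ZMod p} (h : Adapted w V (ChS w V) v r χ) {t : ℝ} (ht : 0 < t) :
    xd w V t = ∑ b ∈ Finset.univ.filter (fun b => r b ≤ t), r b := by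
  classical
  have hr := fun b => adapted_lt w h b
  set m : B → ℝ := fun b => if r b ≤ t then r b else 0 with hm
  have hm0 : ∀ b, 0 ≤ m b ∧ m b ≤ 1 ∧ m b ≤ t := by
    intro b
    rw [hm]
    by_cases hb : r b ≤ t
    · simp only [if_pos hb]
      exact ⟨(hr b).1.le, (hr b).2.2.le, hb⟩
    · simp only [if_neg hb]
      exact ⟨le_rfl, zero_le_one, ht.le⟩
  have e1 : ∑ b ∈ Finset.univ.filter (fun b => r b ≤ t), r b = ∑ b, m b := by
    rw [Finset.sum_filter]
  rw [e1, ← integral_count m (fun b => (hm0 b).1) (fun b => (hm0 b).2.1)]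
  have e2 : ∫ s in (1 : ℝ)..t, ((Finset.univ.filter fun b => s < m b).card : ℝ) = 0 := by
    rw [← intervalIntegral.integral_zero (a := (1 : ℝ)) (b := t)]
    refine intervalIntegral.integral_congr fun s hs => ?_
    have h1 : (Finset.univ.filter fun b => s < m b) = ∅ := by
      rw [Finset.filter_eq_empty_iff]
      intro b _
      rw [Set.mem_uIcc] at hs
      rcases hs with hs | hs
      · exact not_lt.2 ((hm0 b).2.1.trans hs.1)
      · exact not_lt.2 ((hm0 b).2.2.trans hs.1)
    change ((Finset.univ.filter fun b => s < m b).card : ℝ) = 0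
    rw [h1]
    simp
  have e3 := intervalIntegral.integral_add_adjacent_intervals (integrable_count m 0 1)
    (integrable_count m 1 t)
  rw [e2, add_zero] at e3
  rw [e3]
  unfold xd
  refine intervalIntegral.integral_congr_ae (Filter.Eventually.of_forall fun s hs => ?_)
  rw [Set.uIoc_of_le ht.le] at hs
  rw [adapted_Kd w h hs.1, adapted_Kd w h ht]
  have e4 : (Finset.univ.filter fun b => s < r b).card =
      (Finset.univ.filter fun b => s < m b).card + (Finset.univ.filter fun b => t < r b).card := by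
    rw [← Finset.card_union_of_disjoint]
    · refine congrArg Finset.card ?_
      ext b
      rw [Finset.mem_union, Finset.mem_filter, Finset.mem_filter, Finset.mem_filter, hm]
      simp only [Finset.mem_univ, true_and]
      by_cases hb : r b ≤ t
      · rw [if_pos hb]
        exact ⟨fun hh => Or.inl hh, fun hh => hh.elim id fun h' => absurd h' (not_lt.2 hb)⟩
      · rw [if_neg hb]
        refine ⟨fun _ => Or.inr (not_le.1 hb), fun _ => hs.2.trans_lt (not_le.1 hb)⟩
    · rw [Finset.disjoint_filter]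
      intro b _ h1 h2
      rw [hm] at h1
      simp only [if_neg (not_le.2 h2)] at h1
      exact absurd h1 (not_lt.2 hs.1.le)
  rw [e4]
  push_cast
  ring

theorem xd_mono [Fact p.Prime] {V : Subgroup G} (hf : Module.Finite (ZMod p) (ChS w V))
    {s t : ℝ} (hs : 0 < s) (h : s ≤ t) : 0 ≤ xd w V s ∧ xd w V s ≤ xd w V t := by
  obtain ⟨B, hB, v, r, χ, had⟩ := exists_adapted w (ChS w V) le_rfl hf
  let _ := hB
  rw [adapted_xd w had hs, adapted_xd w had (hs.trans_le h)]
  refine ⟨Finset.sum_nonneg fun b _ => (had.pos b).le, ?_⟩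
  refine Finset.sum_le_sum_of_subset_of_nonneg ?_ fun b _ _ => (had.pos b).le
  intro b hb
  rw [Finset.mem_filter] at hb ⊢
  exact ⟨hb.1, hb.2.trans h⟩

end Pool.Agent.GGS
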