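import Pool.Agent.GGS.Ev

/-!
# The graded algebra: definitions (paper, sections 9, 10)
-/

namespace Pool.Agent.GGS

open Ser

/-- left-normed Lie monomial in a ring: `lieW z [a₁, …, a_l] = [⋯[[z a₁, z a₂], z a₃], …]` -/
def lieW {Z E : Type*} [Ring E] (z : Z → E) : List Z → E
  | [] => 0
  | a :: l => l.foldl (fun x b => x * z b - z b * x) (z a)

/-- a multilinear polynomial with coefficients `c` evaluated at `x` -/
def mulp {p m : ℕ} {E : Type*} [Ring E] [Algebra (ZMod p) E] (c : Equiv.Perm (Fin m) → ZMod p)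
    (x : Fin m → E) : E :=
  ∑ σ : Equiv.Perm (Fin m), c σ • (List.ofFn fun i => x (σ i)).prod

/-- a block: the first letter is larger than all the others -/
def IsBlock {Z : Type*} [LinearOrder Z] (v : List Z) : Prop :=
  ∃ a l, v = a :: l ∧ ∀ b ∈ l, b < a

/-- `m`-bad words -/
def BadW {Z : Type*} [LinearOrder Z] (m : ℕ) (u : List Z) : Prop :=
  ∃ (pre post : List Z) (vs : List (List Z)), vs.length = m ∧ u = pre ++ vs.flatten ++ post ∧
    (∀ v ∈ vs, IsBlock v) ∧ vs.Pairwise fun v v' => ∀ a ∈ v.head?, ∀ b ∈ v'.head?, b < a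

variable {p : ℕ} {Z : Type} [Fintype Z] {ι : Type}

/-- the homogeneous relation `∑_u f(u) u` as a power series -/
noncomputable def relS {k : ℕ} (f : (Fin k → Z) → ZMod p) : Ser p Z :=
  ∑ u : Fin k → Z, f u • mon (List.ofFn u)

/-- the degree `n` part of the ideal generated by the relations -/
noncomputable def Jn (k : ι → ℕ) (ρ : (j : ι) → (Fin (k j) → Z) → ZMod p) (n : ℕ) :
    Submodule (ZMod p) (Ser p Z) :=
  Submodule.span (ZMod p) {f | ∃ (j : ι) (u v : List Z), u.length + k j + v.length = n ∧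
    f = mon u * relS (ρ j) * mon v}

/-- the span of the words of length `n` and weight `≤ s` -/
noncomputable def Tn (p : ℕ) (t : Z → ℝ) (n : ℕ) (s : ℝ) : Submodule (ZMod p) (Ser p Z) :=
  Submodule.span (ZMod p) {f | ∃ u : List Z, u.length = n ∧ wt t u ≤ s ∧ f = mon u}

/-- `D_n(s) = dim T_n / (J_n + T_{n,s})` -/
noncomputable def Dn (t : Z → ℝ) (k : ι → ℕ) (ρ : (j : ι) → (Fin (k j) → Z) → ZMod p) (n : ℕ)
    (s : ℝ) : ℕ :=
  Fintype.card Z ^ n - Module.finrank (ZMod p) ↥(Jn k ρ n ⊔ Tn p t n s)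

end Pool.Agent.GGS
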