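import Pool.Agent.GGS.FhatBas

/-!
# The weights of power series (paper, section 5)
-/

namespace Pool.Agent.GGS

open Ser

variable {p : ℕ} {X : Type*} {w : X → ℝ}

theorem wt_append (u v : List X) : wt w (u ++ v) = wt w u * wt w v := by
  simp [wt]

theorem wt_pos (h0 : ∀ x, 0 < w x) (u : List X) : 0 < wt w u := by
  induction u with
  | nil => simp [wt]
  | cons x u ih =>
    have h : wt w (x :: u) = w x * wt w u := by simp [wt]
    rw [h]
    exact mul_pos (h0 x) ih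

theorem wt_le_pow {c : ℝ} (h0 : ∀ x, 0 < w x) (hc : ∀ x, w x ≤ c) (u : List X) :
    wt w u ≤ c ^ u.length := by
  induction u with
  | nil => simp [wt]
  | cons x u ih =>
    have h : wt w (x :: u) = w x * wt w u := by simp [wt]
    rw [h, List.length_cons, pow_succ']
    exact mul_le_mul (hc x) ih (wt_pos h0 u).le ((h0 x).le.trans (hc x))

theorem wt_le_one (h0 : ∀ x, 0 < w x) (h1 : ∀ x, w x ≤ 1) (u : List X) : wt w u ≤ 1 := by
  have h := wt_le_pow h0 h1 u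
  rwa [one_pow] at h

theorem sw_nonneg (h0 : ∀ x, 0 < w x) (f : Ser p X) : 0 ≤ sw w f :=
  Real.iSup_nonneg fun u => (wt_pos h0 u.1).le

theorem sw_bdd (h0 : ∀ x, 0 < w x) (h1 : ∀ x, w x ≤ 1) (f : Ser p X) :
    BddAbove (Set.range fun u : {u : List X // f u ≠ 0} => wt w u.1) := by
  refine ⟨1, ?_⟩
  rintro _ ⟨u, rfl⟩
  exact wt_le_one h0 h1 u.1

theorem sw_le_iff (h0 : ∀ x, 0 < w x) (h1 : ∀ x, w x ≤ 1) (f : Ser p X) {t : ℝ} (ht : 0 ≤ t) :
    sw w f ≤ t ↔ ∀ u, f u ≠ 0 → wt w u ≤ t := by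
  constructor
  · intro h u hu
    exact (le_ciSup (sw_bdd h0 h1 f) ⟨u, hu⟩).trans h
  · intro h
    exact Real.iSup_le (fun u => h u.1 u.2) ht

theorem le_sw (h0 : ∀ x, 0 < w x) (h1 : ∀ x, w x ≤ 1) (f : Ser p X) {u : List X} (h : f u ≠ 0) :
    wt w u ≤ sw w f :=
  le_ciSup (sw_bdd h0 h1 f) (⟨u, h⟩ : {u : List X // f u ≠ 0})

/-- a common bound `c < 1` of the weights -/
theorem exists_bound [Finite X] (h1 : ∀ x, w x < 1) : ∃ c : ℝ, 0 < c ∧ c < 1 ∧ ∀ x, w x ≤ c := by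
  rcases isEmpty_or_nonempty X with hX | hX
  · exact ⟨1 / 2, by norm_num, by norm_num, fun x => hX.elim x⟩
  · obtain ⟨x, hx⟩ := Finite.exists_max w
    refine ⟨max (w x) (1 / 2), lt_max_of_lt_right (by norm_num), max_lt (h1 x) (by norm_num),
      fun y => (hx y).trans (le_max_left _ _)⟩

/-- long words have small weights -/
theorem exists_len [Finite X] (h0 : ∀ x, 0 < w x) (h1 : ∀ x, w x < 1) {t : ℝ} (ht : 0 < t) :
    ∃ k : ℕ, ∀ u : List X, k ≤ u.length → wt w u < t := by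
  obtain ⟨c, hc0, hc1, hc⟩ := exists_bound h1
  obtain ⟨k, hk⟩ := exists_pow_lt_of_lt_one ht hc1
  refine ⟨k, fun u hu => ?_⟩
  exact ((wt_le_pow h0 hc u).trans (pow_le_pow_of_le_one hc0.le hc1.le hu)).trans_lt hk

/-- the supremum is attained -/
theorem exists_sw [Finite X] (h0 : ∀ x, 0 < w x) (h1 : ∀ x, w x < 1) (f : Ser p X) (hf : f ≠ 0) :
    ∃ u, f u ≠ 0 ∧ wt w u = sw w f := by
  obtain ⟨v, hv⟩ : ∃ v, f v ≠ 0 := by
    by_contra hne
    push Not at hne
    exact hf (Ser.ext hne)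
  obtain ⟨k, hk⟩ := exists_len h0 h1 (wt_pos h0 v)
  have hfin : {u : List X | u.length ≤ k}.Finite := List.finite_length_le X k
  have hfin' : ({u : List X | u.length ≤ k} ∩ {u | f u ≠ 0}).Finite := hfin.inter_of_left _
  have hne : ({u : List X | u.length ≤ k} ∩ {u | f u ≠ 0}).Nonempty := by
    refine ⟨v, ?_, hv⟩
    by_contra hc
    have hc' : k ≤ v.length := by
      have : ¬ v.length ≤ k := hc
      omega
    exact lt_irrefl _ (hk v hc')
  obtain ⟨u, hu, hmax⟩ := Set.exists_max_image _ (fun u => wt w u) hfin' hne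
  refine ⟨u, hu.2, le_antisymm (le_sw h0 (fun x => (h1 x).le) f hu.2) ?_⟩
  refine (sw_le_iff h0 (fun x => (h1 x).le) f (wt_pos h0 u).le).mpr fun u' hu' => ?_
  by_cases hl : u'.length ≤ k
  · exact hmax u' ⟨hl, hu'⟩
  · have h2 := hk u' (by omega)
    have hvk : v.length ≤ k := by
      by_contra hc
      exact lt_irrefl _ (hk v (by omega))
    exact h2.le.trans (hmax v ⟨hvk, hv⟩)

theorem sw_add_le (h0 : ∀ x, 0 < w x) (h1 : ∀ x, w x ≤ 1) (f g : Ser p X) :
    sw w (f + g) ≤ max (sw w f) (sw w g) := by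
  refine (sw_le_iff h0 h1 _ (le_max_of_le_left (sw_nonneg h0 f))).mpr fun u hu => ?_
  by_cases hf : f u = 0
  · have hg : g u ≠ 0 := by
      intro hg
      apply hu
      rw [add_apply, hf, hg, add_zero]
    exact (le_sw h0 h1 g hg).trans (le_max_right _ _)
  · exact (le_sw h0 h1 f hf).trans (le_max_left _ _)

theorem sw_neg (f : Ser p X) : sw w (-f) = sw w f := by
  unfold sw
  refine le_antisymm_iff.mpr ?_
  have key : ∀ g h : Ser p X, (∀ u, g u ≠ 0 ↔ h u ≠ 0) →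
      (⨆ u : {u : List X // g u ≠ 0}, wt w u.1) = ⨆ u : {u : List X // h u ≠ 0}, wt w u.1 := by
    intro g h hgh
    exact (Equiv.subtypeEquivRight hgh).iSup_congr fun u => rfl
  have h2 := key (-f) f (fun u => by simp)
  exact ⟨h2.le, h2.ge⟩

theorem sw_sub_le (h0 : ∀ x, 0 < w x) (h1 : ∀ x, w x ≤ 1) (f g : Ser p X) :
    sw w (f - g) ≤ max (sw w f) (sw w g) := by
  rw [sub_eq_add_neg, ← sw_neg (w := w) g]
  exact sw_add_le h0 h1 f (-g)

theorem sw_mul_le (h0 : ∀ x, 0 < w x) (h1 : ∀ x, w x ≤ 1) (f g : Ser p X) :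
    sw w (f * g) ≤ sw w f * sw w g := by
  refine (sw_le_iff h0 h1 _ (mul_nonneg (sw_nonneg h0 f) (sw_nonneg h0 g))).mpr fun u hu => ?_
  obtain ⟨i, hi, hne⟩ : ∃ i ∈ Finset.range (u.length + 1), f (u.take i) * g (u.drop i) ≠ 0 := by
    by_contra hc
    push Not at hc
    exact hu (by rw [mul_apply]; exact Finset.sum_eq_zero hc)
  have hf : f (u.take i) ≠ 0 := fun h => hne (by rw [h, zero_mul])
  have hg : g (u.drop i) ≠ 0 := fun h => hne (by rw [h, mul_zero])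
  have hw : wt w u = wt w (u.take i) * wt w (u.drop i) := by
    rw [← wt_append, List.take_append_drop]
  rw [hw]
  exact mul_le_mul (le_sw h0 h1 f hf) (le_sw h0 h1 g hg) (wt_pos h0 _).le (sw_nonneg h0 f)

theorem sw_le_one (h0 : ∀ x, 0 < w x) (h1 : ∀ x, w x ≤ 1) (f : Ser p X) : sw w f ≤ 1 :=
  (sw_le_iff h0 h1 f zero_le_one).mpr fun u _ => wt_le_one h0 h1 u

theorem sw_pow_le (h0 : ∀ x, 0 < w x) (h1 : ∀ x, w x ≤ 1) (f : Ser p X) (n : ℕ) :
    sw w (f ^ n) ≤ sw w f ^ n := by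
  induction n with
  | zero =>
    rw [pow_zero, pow_zero]
    exact sw_le_one h0 h1 1
  | succ n ih =>
    rw [pow_succ, pow_succ]
    exact (sw_mul_le h0 h1 _ _).trans (mul_le_mul_of_nonneg_right ih (sw_nonneg h0 f))

theorem sw_zero : sw w (0 : Ser p X) = 0 := by
  have : IsEmpty {u : List X // (0 : Ser p X) u ≠ 0} := ⟨fun u => u.2 rfl⟩
  unfold sw
  exact Real.iSup_of_isEmpty _

theorem Wt_def (g : Fhat p X) : Wt w g = sw w (toSer g - 1) := rfl

theorem Wt_nonneg (h0 : ∀ x, 0 < w x) (g : Fhat p X) : 0 ≤ Wt w g := sw_nonneg h0 _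

theorem Wt_le {c : ℝ} (h0 : ∀ x, 0 < w x) (hc : ∀ x, w x ≤ c) (hc1 : c ≤ 1) (hc0 : 0 ≤ c)
    (g : Fhat p X) : Wt w g ≤ c := by
  rw [Wt_def]
  refine (sw_le_iff h0 (fun x => (hc x).trans hc1) _ hc0).mpr fun u hu => ?_
  cases u with
  | nil =>
    exact absurd (by rw [sub_apply, toSer_nil, one_nil, sub_self]) hu
  | cons x u =>
    refine (wt_le_pow h0 hc _).trans ?_
    rw [List.length_cons, pow_succ]
    exact mul_le_of_le_one_left hc0 (pow_le_one₀ hc0 hc1)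

theorem Wt_one : Wt w (1 : Fhat p X) = 0 := by
  rw [Wt_def, toSer_one, sub_self, sw_zero]

theorem Wt_eq_zero (h0 : ∀ x, 0 < w x) (h1 : ∀ x, w x ≤ 1) (g : Fhat p X) (h : Wt w g = 0) :
    g = 1 := by
  apply toSer_inj
  rw [toSer_one]
  ext u
  by_contra hu
  have h2 : (toSer g - 1) u ≠ 0 := by
    rw [sub_apply]
    exact sub_ne_zero.mpr hu
  have h3 := le_sw h0 h1 (toSer g - 1) h2
  rw [← Wt_def, h] at h3
  exact absurd (wt_pos h0 u) (not_lt.mpr h3)

theorem Wt_gen (h0 : ∀ x, 0 < w x) (x : X) [Fact p.Prime] : Wt w (genF x : Fhat p X) = w x := by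
  rw [Wt_def, toSer_gen, add_sub_cancel_left]
  have hx : (mon [x] : Ser p X) [x] ≠ 0 := by
    rw [mon_self]
    exact one_ne_zero
  have hs : Subsingleton {u : List X // (mon [x] : Ser p X) u ≠ 0} :=
    ⟨fun u v => Subtype.ext (by
      have h : ∀ u : {u : List X // (mon [x] : Ser p X) u ≠ 0}, u.1 = [x] := fun u => by
        by_contra hne
        exact u.2 (mon_ne hne)
      rw [h u, h v])⟩
  unfold sw
  rw [ciSup_subsingleton (⟨[x], hx⟩ : {u : List X // (mon [x] : Ser p X) u ≠ 0})]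
  change wt w [x] = w x
  simp [wt]

theorem Wt_mul (h0 : ∀ x, 0 < w x) (h1 : ∀ x, w x ≤ 1) (g h : Fhat p X) :
    Wt w (g * h) ≤ max (Wt w g) (Wt w h) := by
  rw [Wt_def, toSer_mul]
  have e : toSer g * toSer h - 1 = (toSer g - 1) * toSer h + (toSer h - 1) := by
    rw [sub_mul, one_mul]
    abel
  rw [e]
  refine (sw_add_le h0 h1 _ _).trans (max_le_max ?_ le_rfl)
  refine (sw_mul_le h0 h1 _ _).trans ?_
  exact mul_le_of_le_one_right (sw_nonneg h0 _) (sw_le_one h0 h1 _)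

theorem toSer_inv_mul (g : Fhat p X) : toSer g⁻¹ * toSer g = 1 := by
  rw [← toSer_mul, inv_mul_cancel, toSer_one]

theorem toSer_mul_inv (g : Fhat p X) : toSer g * toSer g⁻¹ = 1 := by
  rw [← toSer_mul, mul_inv_cancel, toSer_one]

theorem Wt_inv_le (h0 : ∀ x, 0 < w x) (h1 : ∀ x, w x ≤ 1) (g : Fhat p X) :
    Wt w g⁻¹ ≤ Wt w g := by
  rw [Wt_def, Wt_def]
  have e : toSer g⁻¹ - 1 = -(toSer g⁻¹ * (toSer g - 1)) := by
    rw [mul_sub, toSer_inv_mul, mul_one]
    abel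
  rw [e, sw_neg]
  refine (sw_mul_le h0 h1 _ _).trans ?_
  exact mul_le_of_le_one_left (sw_nonneg h0 _) (sw_le_one h0 h1 _)

theorem Wt_inv (h0 : ∀ x, 0 < w x) (h1 : ∀ x, w x ≤ 1) (g : Fhat p X) : Wt w g⁻¹ = Wt w g := by
  refine le_antisymm (Wt_inv_le h0 h1 g) ?_
  have h := Wt_inv_le h0 h1 g⁻¹
  rwa [inv_inv] at h

theorem Wt_comm (h0 : ∀ x, 0 < w x) (h1 : ∀ x, w x ≤ 1) (g h : Fhat p X) :
    Wt w (g * h * g⁻¹ * h⁻¹) ≤ Wt w g * Wt w h := by
  rw [Wt_def, Wt_def, Wt_def, toSer_mul, toSer_mul, toSer_mul]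
  have e : toSer g * toSer h * toSer g⁻¹ * toSer h⁻¹ - 1 =
      ((toSer g - 1) * (toSer h - 1) - (toSer h - 1) * (toSer g - 1)) *
        (toSer g⁻¹ * toSer h⁻¹) := by
    have e1 : (toSer g - 1) * (toSer h - 1) - (toSer h - 1) * (toSer g - 1) =
        toSer g * toSer h - toSer h * toSer g := by
      noncomm_ring
    have e2 : toSer h * toSer g * (toSer g⁻¹ * toSer h⁻¹) = 1 := by
      rw [mul_assoc, ← mul_assoc (toSer g), toSer_mul_inv, one_mul, toSer_mul_inv]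
    rw [e1, sub_mul, e2, mul_assoc (toSer g * toSer h)]
  rw [e]
  have hg := sw_nonneg h0 (toSer g - 1)
  have hh := sw_nonneg h0 (toSer h - 1)
  refine (sw_mul_le h0 h1 _ _).trans ((mul_le_of_le_one_right (sw_nonneg h0 _)
    (sw_le_one h0 h1 _)).trans ?_)
  refine (sw_sub_le h0 h1 _ _).trans (max_le (sw_mul_le h0 h1 _ _) ?_)
  rw [mul_comm (sw w (toSer g - 1))]
  exact sw_mul_le h0 h1 _ _

theorem toSer_pow (g : Fhat p X) (n : ℕ) : toSer (g ^ n) = toSer g ^ n := by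
  induction n with
  | zero => rw [pow_zero, pow_zero, toSer_one]
  | succ n ih => rw [pow_succ, pow_succ, toSer_mul, ih]

theorem charP_ser [Fact p.Prime] : CharP (Ser p X) p := by
  have : Nontrivial (Ser p X) := by
    refine ⟨0, 1, fun h => ?_⟩
    have h2 := congrFun h []
    have h3 : (0 : Ser p X) [] = 0 := rfl
    have h4 : (1 : Ser p X) [] = 1 := one_nil
    rw [h3, h4] at h2
    exact zero_ne_one h2
  exact charP_of_injective_algebraMap (algebraMap (ZMod p) (Ser p X)).injective p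

theorem Wt_pow [Fact p.Prime] (h0 : ∀ x, 0 < w x) (h1 : ∀ x, w x ≤ 1) (g : Fhat p X) :
    Wt w (g ^ p) ≤ Wt w g ^ p := by
  rw [Wt_def, Wt_def, toSer_pow]
  have := charP_ser (p := p) (X := X)
  have e : toSer g ^ p - 1 = (toSer g - 1) ^ p := by
    rw [sub_pow_char_of_commute p (Commute.one_right _), one_pow]
  rw [e]
  exact sw_pow_le h0 h1 _ p

/-- small weight is an open condition -/
theorem isOpen_Wt [Finite X] (h0 : ∀ x, 0 < w x) (h1 : ∀ x, w x < 1) {t : ℝ} (ht : 0 < t)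
    (g : Fhat p X) : IsOpen {h : Fhat p X | Wt w (g⁻¹ * h) ≤ t} := by
  have h1' : ∀ x, w x ≤ 1 := fun x => (h1 x).le
  obtain ⟨k, hk⟩ := exists_len h0 h1 ht
  refine (isClopen_of_coeff (P := fun h : Fhat p X => Wt w (g⁻¹ * h) ≤ t) k ?_).isOpen
  intro h h' hh hP
  rw [Wt_def] at hP ⊢
  refine (sw_le_iff h0 h1' _ ht.le).mpr fun u hu => ?_
  by_cases hl : u.length < k
  · refine (sw_le_iff h0 h1' _ ht.le).mp hP u ?_
    rw [sub_apply, toSer_mul, mul_apply] at hu ⊢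
    have e : ∑ i ∈ Finset.range (u.length + 1), toSer g⁻¹ (u.take i) * toSer h (u.drop i) =
        ∑ i ∈ Finset.range (u.length + 1), toSer g⁻¹ (u.take i) * toSer h' (u.drop i) := by
      refine Finset.sum_congr rfl fun i _ => ?_
      rw [hh (u.drop i) (by rw [List.length_drop]; omega)]
    rw [e]
    exact hu
  · exact (hk u (by omega)).le

end Pool.Agent.GGS
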