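import Pool.Agent.GGS.AlgDef
import Pool.Agent.GGS.SwBas

/-!
# The quotient algebra (paper, section 12)

`E` = quotient of `Ser p Z` by the two-sided ideal of the `f` whose component of degree `n` lies in `Jn k ρ n` for all
`n ≤ N` (components of degree `> N` are arbitrary).  Or: endomorphisms of the quotient of the truncated free algebra by
the truncated ideal.
-/

namespace Pool.Agent.GGS

open Ser

variable {p : ℕ} {Z : Type} [Fintype Z] {ι : Type}

/-- the component of degree `n` of a power series -/
noncomputable def AlgE_comp (p : ℕ) (Z : Type) (n : ℕ) : Ser p Z →ₗ[ZMod p] Ser p Z where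
  toFun f := fun u => if u.length = n then f u else 0
  map_add' f g := by
    ext u
    by_cases h : u.length = n <;> simp [h]
  map_smul' c f := by
    ext u
    by_cases h : u.length = n <;> simp [h]

omit [Fintype Z] in
theorem AlgE_comp_apply (n : ℕ) (f : Ser p Z) (u : List Z) :
    AlgE_comp p Z n f u = if u.length = n then f u else 0 := rfl

omit [Fintype Z] in
theorem AlgE_comp_mul (n : ℕ) (f g : Ser p Z) :
    AlgE_comp p Z n (f * g) =
      ∑ i ∈ Finset.range (n + 1), AlgE_comp p Z i f * AlgE_comp p Z (n - i) g := by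
  ext u
  have hsum : ∀ (s : Finset ℕ) (F : ℕ → Ser p Z), (∑ i ∈ s, F i) u = ∑ i ∈ s, F i u := by
    intro s F
    classical
    induction s using Finset.induction_on with
    | empty => simp
    | insert a s ha ih => rw [Finset.sum_insert ha, Finset.sum_insert ha, add_apply, ih]
  rw [hsum, AlgE_comp_apply]
  simp only [mul_apply, AlgE_comp_apply, List.length_take, List.length_drop]
  split_ifs with h
  · subst h
    refine Finset.sum_congr rfl fun i hi => ?_
    rw [Finset.sum_eq_single i]
    · rw [Finset.mem_range] at hi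
      rw [if_pos (by omega), if_pos rfl]
    · intro j hj hji
      rw [Finset.mem_range] at hj
      rw [if_neg (by omega), zero_mul]
    · intro hi'
      exact absurd hi hi'
  · symm
    refine Finset.sum_eq_zero fun i hi => Finset.sum_eq_zero fun j hj => ?_
    rw [Finset.mem_range] at hi hj
    by_cases h1 : min j u.length = i
    · rw [if_neg (c := u.length - j = n - i) (by omega), mul_zero]
    · rw [if_neg h1, zero_mul]

theorem AlgE_comp_eq (n : ℕ) (f : Ser p Z) :
    AlgE_comp p Z n f = ∑ u : Fin n → Z, f (List.ofFn u) • (mon (List.ofFn u) : Ser p Z) := by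
  ext v
  have hsum : ∀ (F : (Fin n → Z) → Ser p Z), (∑ i, F i) v = ∑ i, F i v := by
    intro F
    classical
    have : ∀ s : Finset (Fin n → Z), (∑ i ∈ s, F i) v = ∑ i ∈ s, F i v := by
      intro s
      induction s using Finset.induction_on with
      | empty => simp
      | insert a s ha ih => rw [Finset.sum_insert ha, Finset.sum_insert ha, add_apply, ih]
    exact this _
  rw [hsum, AlgE_comp_apply]
  split_ifs with h
  · subst h
    rw [Finset.sum_eq_single v.get]
    · rw [smul_apply, List.ofFn_get, mon_self, mul_one]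
    · intro u _ hu
      have : v ≠ List.ofFn u := by
        intro e
        apply hu
        apply List.ofFn_injective
        rw [← e, List.ofFn_get]
      rw [smul_apply, mon_ne this, mul_zero]
    · intro h'
      exact absurd (Finset.mem_univ _) h'
  · symm
    refine Finset.sum_eq_zero fun u _ => ?_
    have : v ≠ List.ofFn u := by
      intro e
      apply h
      rw [e, List.length_ofFn]
    rw [smul_apply, mon_ne this, mul_zero]

omit [Fintype Z] in
theorem AlgE_mon_mul (u v : List Z) : (mon u * mon v : Ser p Z) = mon (u ++ v) := by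
  ext w
  rw [mul_apply]
  by_cases h : w = u ++ v
  · subst h
    rw [Finset.sum_eq_single u.length]
    · simp
    · intro i hi hiu
      rw [Finset.mem_range, List.length_append] at hi
      have : (u ++ v).take i ≠ u := by
        intro e
        have := congrArg List.length e
        rw [List.length_take, List.length_append] at this
        omega
      rw [mon_ne this, zero_mul]
    · intro h'
      exact absurd (Finset.mem_range.2 (by rw [List.length_append]; omega)) h'
  · rw [mon_ne h]
    refine Finset.sum_eq_zero fun i _ => ?_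
    by_cases h1 : w.take i = u
    · have h2 : w.drop i ≠ v := by
        intro e
        apply h
        rw [← h1, ← e, List.take_append_drop]
      rw [mon_ne h2, mul_zero]
    · rw [mon_ne h1, zero_mul]

theorem AlgE_left (k : ι → ℕ) (ρ : (j : ι) → (Fin (k j) → Z) → ZMod p) (n : ℕ) (w : List Z)
    {x : Ser p Z} (hx : x ∈ Jn k ρ n) : mon w * x ∈ Jn k ρ (w.length + n) := by
  induction hx using Submodule.span_induction with
  | mem x hx =>
    obtain ⟨j, u, v, hl, rfl⟩ := hx
    refine Submodule.subset_span ⟨j, w ++ u, v, ?_, ?_⟩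
    · rw [List.length_append]; omega
    · rw [← AlgE_mon_mul, mul_assoc, mul_assoc, mul_assoc]
  | zero => rw [mul_zero]; exact zero_mem _
  | add x y _ _ hx hy => rw [mul_add]; exact add_mem hx hy
  | smul c x _ hx => rw [mul_smul_comm]; exact Submodule.smul_mem _ _ hx

theorem AlgE_right (k : ι → ℕ) (ρ : (j : ι) → (Fin (k j) → Z) → ZMod p) (n : ℕ) (w : List Z)
    {x : Ser p Z} (hx : x ∈ Jn k ρ n) : x * mon w ∈ Jn k ρ (n + w.length) := by
  induction hx using Submodule.span_induction with
  | mem x hx =>
    obtain ⟨j, u, v, hl, rfl⟩ := hx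
    refine Submodule.subset_span ⟨j, u, v ++ w, ?_, ?_⟩
    · rw [List.length_append]; omega
    · rw [← AlgE_mon_mul, mul_assoc, mul_assoc]
  | zero => rw [zero_mul]; exact zero_mem _
  | add x y _ _ hx hy => rw [add_mul]; exact add_mem hx hy
  | smul c x _ hx => rw [smul_mul_assoc]; exact Submodule.smul_mem _ _ hx

/-- the ideal -/
noncomputable def AlgE_K (k : ι → ℕ) (ρ : (j : ι) → (Fin (k j) → Z) → ZMod p) (N : ℕ) :
    Ideal (Ser p Z) where
  carrier := {f | ∀ n ≤ N, AlgE_comp p Z n f ∈ Jn k ρ n}
  add_mem' := by
    intro a b ha hb n hn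
    rw [map_add]
    exact add_mem (ha n hn) (hb n hn)
  zero_mem' := by
    intro n hn
    rw [map_zero]
    exact zero_mem _
  smul_mem' := by
    intro c x hx n hn
    rw [smul_eq_mul, AlgE_comp_mul]
    refine sum_mem fun i hi => ?_
    rw [Finset.mem_range] at hi
    rw [AlgE_comp_eq i c, Finset.sum_mul]
    refine sum_mem fun u _ => ?_
    rw [smul_mul_assoc]
    refine Submodule.smul_mem _ _ ?_
    have := AlgE_left k ρ (n - i) (List.ofFn u) (hx (n - i) (by omega))
    rw [List.length_ofFn] at this
    rwa [show i + (n - i) = n by omega] at this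

theorem AlgE_mem (k : ι → ℕ) (ρ : (j : ι) → (Fin (k j) → Z) → ZMod p) (N : ℕ) (f : Ser p Z) :
    f ∈ AlgE_K k ρ N ↔ ∀ n ≤ N, AlgE_comp p Z n f ∈ Jn k ρ n := Iff.rfl

instance AlgE_two (k : ι → ℕ) (ρ : (j : ι) → (Fin (k j) → Z) → ZMod p) (N : ℕ) :
    (AlgE_K k ρ N).IsTwoSided where
  mul_mem_of_left := by
    intro x c hx n hn
    rw [AlgE_comp_mul]
    refine sum_mem fun i hi => ?_
    rw [Finset.mem_range] at hi
    rw [AlgE_comp_eq (n - i) c, Finset.mul_sum]
    refine sum_mem fun u _ => ?_
    rw [mul_smul_comm]
    refine Submodule.smul_mem _ _ ?_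
    have := AlgE_right k ρ i (List.ofFn u) (hx i (by omega))
    rw [List.length_ofFn] at this
    rwa [show i + (n - i) = n by omega] at this

omit [Fintype Z] in
theorem AlgE_prod {E : Type} [Ring E] [Algebra (ZMod p) E] (φ : Ser p Z →ₐ[ZMod p] E)
    (u : List Z) : (u.map fun a => φ (mon [a])).prod = φ (mon u) := by
  induction u with
  | nil =>
    rw [List.map_nil, List.prod_nil, ← one_def, map_one]
  | cons a u ih =>
    rw [List.map_cons, List.prod_cons, ih, ← map_mul, AlgE_mon_mul, List.singleton_append]

theorem alg_quot [Fact p.Prime] (k : ι → ℕ) (ρ : (j : ι) → (Fin (k j) → Z) → ZMod p) (N : ℕ)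
    {f : Ser p Z} (hf : ∀ u, f u ≠ 0 → u.length = N) (hfJ : f ∉ Jn k ρ N) :
    ∃ (E : Type) (_ : Ring E) (_ : Algebra (ZMod p) E) (z : Z → E), NilW z (N + 1) ∧
      (∀ j, ∑ u : Fin (k j) → Z, ρ j u • ((List.ofFn u).map z).prod = 0) ∧
      evs z (N + 1) f ≠ 0 := by
  set K := AlgE_K k ρ N with hK
  let φ : Ser p Z →ₐ[ZMod p] (Ser p Z ⧸ K) := Ideal.Quotient.mkₐ (ZMod p) K
  have hφ : ∀ g : Ser p Z, φ g = 0 ↔ g ∈ K := by
    intro g
    rw [← Ideal.Quotient.eq_zero_iff_mem]
    rfl
  refine ⟨Ser p Z ⧸ K, inferInstance, inferInstance, fun a => φ (mon [a]), ?_, ?_, ?_⟩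
  · intro u hu
    rw [AlgE_prod φ u, hφ]
    intro n hn
    have : AlgE_comp p Z n (mon u) = 0 := by
      ext v
      rw [AlgE_comp_apply]
      split_ifs with h
      · rw [mon_ne, zero_apply]
        intro e
        rw [e] at h
        omega
      · rfl
    rw [this]
    exact zero_mem _
  · intro j
    simp only [AlgE_prod φ, ← map_smul, ← map_sum]
    rw [hφ]
    intro n hn
    change AlgE_comp p Z n (relS (ρ j)) ∈ Jn k ρ n
    rw [relS, map_sum]
    by_cases h : n = k j
    · subst h
      have e : ∑ u : Fin (k j) → Z, AlgE_comp p Z (k j) (ρ j u • mon (List.ofFn u)) =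
          relS (ρ j) := by
        rw [relS]
        refine Finset.sum_congr rfl fun u _ => ?_
        ext v
        rw [AlgE_comp_apply]
        split_ifs with hv
        · rfl
        · rw [smul_apply, mon_ne, mul_zero]
          intro e
          apply hv
          rw [e, List.length_ofFn]
      rw [e]
      refine Submodule.subset_span ⟨j, [], [], by simp, ?_⟩
      rw [← one_def, one_mul, mul_one]
    · refine sum_mem fun u _ => ?_
      have : AlgE_comp p Z n (ρ j u • mon (List.ofFn u)) = 0 := by
        ext v
        rw [AlgE_comp_apply]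
        split_ifs with hv
        · rw [smul_apply, mon_ne, mul_zero, zero_apply]
          intro e
          apply h
          rw [← hv, e, List.length_ofFn]
        · rfl
      rw [this]
      exact zero_mem _
  · intro h0
    apply hfJ
    have e1 : ∀ n, n ≠ N → AlgE_comp p Z n f = 0 := by
      intro n hn
      ext v
      rw [AlgE_comp_apply]
      split_ifs with hv
      · by_contra hne
        exact hn (by rw [← hv, hf v hne])
      · rfl
    have e2 : AlgE_comp p Z N f = f := by
      ext v
      rw [AlgE_comp_apply]
      split_ifs with hv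
      · rfl
      · by_contra hne
        exact hv (hf v (fun h => hne h.symm))
    have e3 : evs (fun a => φ (mon [a])) (N + 1) f = φ f := by
      rw [evs]
      simp only [AlgE_prod φ, ← map_smul, ← map_sum]
      have e4 : ∑ n ∈ Finset.range (N + 1), ∑ u : Fin n → Z,
          f (List.ofFn u) • (mon (List.ofFn u) : Ser p Z) = f := by
        rw [Finset.sum_eq_single N]
        · rw [← AlgE_comp_eq, e2]
        · intro n _ hn
          rw [← AlgE_comp_eq, e1 n hn]
        · intro h'
          exact absurd (Finset.mem_range.2 (Nat.lt_succ_self N)) h'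
      rw [e4]
    rw [e3, hφ] at h0
    have := h0 N le_rfl
    rwa [e2] at this

end Pool.Agent.GGS
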