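import Pool.Agent.GGS.Core

/-!
# Basic calculus: weights of lists, the operators `dif`
-/

namespace Pool.Agent.GGS

universe u

variable {p : ℕ} {G : Type u} [Group G]

section lists

variable (w : WG p G)

@[simp] lemma wl_nil : wl w [] = 1 := rfl

@[simp] lemma wl_cons (h : G) (L : List G) : wl w (h :: L) = w.W h * wl w L := by
  simp [wl]

lemma wl_append (L L' : List G) : wl w (L ++ L') = wl w L * wl w L' := by
  simp [wl]

lemma wl_nonneg (L : List G) : 0 ≤ wl w L := by
  induction L with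
  | nil => simp
  | cons h L ih => rw [wl_cons]; exact mul_nonneg (w.nonneg h) ih

lemma W_le_one (g : G) : w.W g ≤ 1 := (w.le_wm g).trans w.wm_lt.le

lemma W_lt_one (g : G) : w.W g < 1 := (w.le_wm g).trans_lt w.wm_lt

lemma wl_le_pow (L : List G) : wl w L ≤ w.wm ^ L.length := by
  induction L with
  | nil => simp
  | cons h L ih =>
    rw [wl_cons, List.length_cons, pow_succ']
    exact mul_le_mul (w.le_wm h) ih (wl_nonneg w L) w.wm_pos.le

lemma wl_le_one (L : List G) : wl w L ≤ 1 :=
  (wl_le_pow w L).trans (pow_le_one₀ w.wm_pos.le w.wm_lt.le)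

lemma wl_cons_le (h : G) (L : List G) : wl w (h :: L) ≤ wl w L := by
  rw [wl_cons]
  exact mul_le_of_le_one_left (wl_nonneg w L) (W_le_one w h)

lemma W_pos {g : G} (hg : g ≠ 1) : 0 < w.W g :=
  lt_of_le_of_ne (w.nonneg g) fun h => hg (w.eq_one g h.symm)

lemma W_conj_le (g h : G) : w.W (h * g * h⁻¹) ≤ w.W g := by
  have h1 : h * g * h⁻¹ = (h * g * h⁻¹ * g⁻¹) * g := by group
  rw [h1]
  refine (w.mul _ _).trans (max_le ((w.comm h g).trans ?_) le_rfl)
  exact mul_le_of_le_one_left (w.nonneg g) (W_le_one w h)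

lemma W_conj (g h : G) : w.W (h * g * h⁻¹) = w.W g := by
  refine le_antisymm (W_conj_le w g h) ?_
  have h1 := W_conj_le w (h * g * h⁻¹) h⁻¹
  have h2 : h⁻¹ * (h * g * h⁻¹) * h⁻¹⁻¹ = g := by group
  rwa [h2] at h1

lemma W_mul_eq {g h : G} (hl : w.W h < w.W g) : w.W (g * h) = w.W g := by
  refine le_antisymm ((w.mul g h).trans (max_le le_rfl hl.le)) ?_
  have h1 := w.mul (g * h) h⁻¹
  rw [mul_inv_cancel_right, w.inv] at h1
  rcases le_max_iff.mp h1 with h2 | h2
  · exact h2
  · exact absurd h2 (not_le.mpr hl)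

lemma W_mul_eq' {g h : G} (hl : w.W g < w.W h) : w.W (g * h) = w.W h := by
  refine le_antisymm ((w.mul g h).trans (max_le hl.le le_rfl)) ?_
  have h1 := w.mul g⁻¹ (g * h)
  rw [inv_mul_cancel_left, w.inv] at h1
  rcases le_max_iff.mp h1 with h2 | h2
  · exact absurd h2 (not_le.mpr hl)
  · exact h2

lemma W_pow_le (g : G) (n : ℕ) : w.W (g ^ n) ≤ w.W g := by
  induction n with
  | zero => rw [pow_zero, w.one]; exact w.nonneg g
  | succ n ih => rw [pow_succ]; exact (w.mul _ _).trans (max_le ih le_rfl)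

lemma W_inv_mul_comm (g h : G) : w.W (g⁻¹ * h) = w.W (h⁻¹ * g) := by
  rw [← w.inv (g⁻¹ * h)]; congr 1; group

lemma W_inv_mul_trans (g h k : G) : w.W (g⁻¹ * k) ≤ max (w.W (g⁻¹ * h)) (w.W (h⁻¹ * k)) := by
  have h1 : g⁻¹ * k = (g⁻¹ * h) * (h⁻¹ * k) := by group
  rw [h1]; exact w.mul _ _

lemma ball_mono {s t : ℝ} (h : s ≤ t) : w.ball s ≤ w.ball t := fun g hg => by
  change w.W g ≤ max t 0
  exact le_trans (show w.W g ≤ max s 0 from hg) (max_le_max h le_rfl)

lemma op_iff {V : Subgroup G} : Op w V ↔ ∃ t, 0 < t ∧ w.ball t ≤ V := by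
  constructor
  · rintro ⟨t, ht, h⟩
    exact ⟨t, ht, fun g hg => h g ((w.mem_ball ht.le).mp hg)⟩
  · rintro ⟨t, ht, h⟩
    exact ⟨t, ht, fun g hg => h ((w.mem_ball ht.le).mpr hg)⟩

lemma op_mono {V V' : Subgroup G} (h : Op w V) (hle : V ≤ V') : Op w V' := by
  obtain ⟨t, ht, h⟩ := h
  exact ⟨t, ht, fun g hg => hle (h g hg)⟩

lemma op_top : Op w (⊤ : Subgroup G) := ⟨1, one_pos, fun _ _ => Subgroup.mem_top _⟩

lemma op_ball {t : ℝ} (ht : 0 < t) : Op w (w.ball t) :=
  ⟨t, ht, fun _ hg => (w.mem_ball ht.le).mpr hg⟩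

lemma op_inf {V V' : Subgroup G} (h : Op w V) (h' : Op w V') : Op w (V ⊓ V') := by
  obtain ⟨s, hs, h⟩ := h
  obtain ⟨t, ht, h'⟩ := h'
  exact ⟨min s t, lt_min hs ht, fun g hg => Subgroup.mem_inf.mpr
    ⟨h g (hg.trans (min_le_left _ _)), h' g (hg.trans (min_le_right _ _))⟩⟩

instance ball_normal (t : ℝ) : (w.ball t).Normal :=
  ⟨fun g hg h => by
    change w.W (h * g * h⁻¹) ≤ max t 0
    rw [W_conj]; exact hg⟩

end lists

section difs

variable {M : Type*} [AddCommGroup M]

@[simp] lemma dif_nil (f : G → M) : dif [] f = f := rfl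

lemma dif_cons (h : G) (L : List G) (f : G → M) (g : G) :
    dif (h :: L) f g = dif L f (g * h) - dif L f g := rfl

lemma dif_append (L L' : List G) (f : G → M) : dif (L ++ L') f = dif L (dif L' f) := by
  induction L with
  | nil => rfl
  | cons h L ih => funext g; simp only [List.cons_append, dif_cons, ih]

lemma dif_sub (L : List G) (f f' : G → M) : dif L (f - f') = dif L f - dif L f' := by
  induction L with
  | nil => rfl
  | cons h L ih => funext g; simp only [dif_cons, ih, Pi.sub_apply]; abel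

lemma dif_neg (L : List G) (f : G → M) : dif L (-f) = - dif L f := by
  induction L with
  | nil => rfl
  | cons h L ih => funext g; simp only [dif_cons, ih, Pi.neg_apply]; abel

lemma dif_one_cons (L : List G) (f : G → M) : dif (1 :: L) f = 0 := by
  funext g; simp [dif_cons]

lemma dif_mul (h h' : G) (L : List G) (f : G → M) :
    dif (h * h' :: L) f = dif (h :: L) f + dif (h' :: L) f + dif (h :: h' :: L) f := by
  funext g
  simp only [dif_cons, Pi.add_apply, mul_assoc]
  abel

lemma dif_swap (h h' : G) (L : List G) (f : G → M) :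
    dif (h :: h' :: L) f = dif (h' :: h :: L) f + dif (h * h' * h⁻¹ * h'⁻¹ :: L) f +
      dif (h * h' * h⁻¹ * h'⁻¹ :: h' * h :: L) f := by
  funext g
  have e : g * (h * h' * h⁻¹ * h'⁻¹) * (h' * h) = g * h * h' := by group
  simp only [dif_cons, Pi.add_apply, e]
  simp only [mul_assoc]
  abel

/-- the same identities in the middle of a list -/
lemma dif_mul_mid (L₁ : List G) (h h' : G) (L : List G) (f : G → M) :
    dif (L₁ ++ h * h' :: L) f =
      dif (L₁ ++ h :: L) f + dif (L₁ ++ h' :: L) f + dif (L₁ ++ h :: h' :: L) f := by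
  simp only [dif_append L₁, dif_mul, dif_add]

lemma dif_swap_mid (L₁ : List G) (h h' : G) (L : List G) (f : G → M) :
    dif (L₁ ++ h :: h' :: L) f = dif (L₁ ++ h' :: h :: L) f +
      dif (L₁ ++ h * h' * h⁻¹ * h'⁻¹ :: L) f +
      dif (L₁ ++ h * h' * h⁻¹ * h'⁻¹ :: h' * h :: L) f := by
  simp only [dif_append L₁]
  rw [dif_swap]
  simp only [dif_add]

lemma dif_left_inv {V : Subgroup G} {f : G → M} (hf : ∀ v ∈ V, ∀ g, f (v * g) = f g)
    (L : List G) : ∀ v ∈ V, ∀ g, dif L f (v * g) = dif L f g := by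
  induction L with
  | nil => exact hf
  | cons h L ih =>
    intro v hv g
    rw [dif_cons, dif_cons, mul_assoc, ih v hv, ih v hv]

lemma dif_base (L : List G) (f : G → M) (g : G) :
    dif L f g = dif L f 1 + dif (g :: L) f 1 := by
  rw [dif_cons, one_mul]; abel

lemma dif_cons_inv {V : Subgroup G} {f : G → M} (hf : ∀ v ∈ V, ∀ g, f (v * g) = f g)
    {v : G} (hv : v ∈ V) (L : List G) : dif (v :: L) f 1 = 0 := by
  rw [dif_cons, one_mul]
  have := dif_left_inv hf L v hv 1
  rw [mul_one] at this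
  rw [this, sub_self]

lemma dif_const (c : M) (L : List G) (hL : L ≠ []) : dif L (fun _ : G => c) = 0 := by
  induction L with
  | nil => exact absurd rfl hL
  | cons h L ih =>
    funext g
    cases L with
    | nil => simp [dif_cons]
    | cons h' L =>
      rw [dif_cons, ih (List.cons_ne_nil _ _)]
      simp

/-- iterated differences in one direction -/
lemma dif_replicate (h : G) (n : ℕ) (L : List G) (f : G → M) (g : G) :
    dif (List.replicate n h ++ L) f g =
      ∑ i ∈ Finset.range (n + 1), ((-1 : ℤ) ^ (n - i) * (n.choose i : ℤ)) • dif L f (g * h ^ i) := by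
  induction n generalizing g with
  | zero => simp
  | succ n ih =>
    rw [List.replicate_succ, List.cons_append, dif_cons, ih, ih, Finset.sum_range_succ' _ (n + 1)]
    rw [Finset.sum_range_succ _ n, Finset.sum_range_succ' _ n]
    have e1 : ∀ i ∈ Finset.range n,
        ((-1 : ℤ) ^ (n - i) * (n.choose i : ℤ)) • dif L f (g * h * h ^ i) -
        ((-1 : ℤ) ^ (n - (i + 1)) * (n.choose (i + 1) : ℤ)) • dif L f (g * h ^ (i + 1)) =
        ((-1 : ℤ) ^ (n + 1 - (i + 1)) * ((n + 1).choose (i + 1) : ℤ)) •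
          dif L f (g * h ^ (i + 1)) := by
      intro i hi
      have hi' : i < n := Finset.mem_range.mp hi
      obtain ⟨k, rfl⟩ : ∃ k, n = i + 1 + k := ⟨n - (i + 1), by omega⟩
      have a1 : i + 1 + k - i = k + 1 := by omega
      have a2 : i + 1 + k - (i + 1) = k := by omega
      have a3 : i + 1 + k + 1 - (i + 1) = k + 1 := by omega
      rw [a1, a2, a3, mul_assoc g h, ← pow_succ', ← sub_smul, Nat.choose_succ_succ]
      congr 1
      push_cast
      ring
    have e2 := Finset.sum_congr rfl e1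
    rw [Finset.sum_sub_distrib] at e2
    rw [Finset.sum_range_succ (fun i => ((-1 : ℤ) ^ (n + 1 - (i + 1)) *
      ((n + 1).choose (i + 1) : ℤ)) • dif L f (g * h ^ (i + 1))) n, ← e2]
    simp only [Nat.sub_self, pow_zero, Nat.choose_self, Nat.cast_one, one_smul,
      Nat.sub_zero, Nat.choose_zero_right, mul_one, pow_succ' (-1 : ℤ) n]
    rw [mul_assoc g h, ← pow_succ']
    simp only [neg_mul, one_mul, neg_smul]
    abel

/-- In characteristic `p`: `(h - 1)^p = h^p - 1`. -/
lemma dif_pow_p [Fact p.Prime] (h : G) (L : List G) (f : G → ZMod p) :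
    dif (List.replicate p h ++ L) f = dif (h ^ p :: L) f := by
  funext g
  rw [dif_replicate, Finset.sum_range_succ, dif_cons]
  have hp : p.Prime := Fact.out
  have h0 : ∑ i ∈ Finset.range p, ((-1 : ℤ) ^ (p - i) * (p.choose i : ℤ)) • dif L f (g * h ^ i) =
      - dif L f g := by
    rw [← Finset.add_sum_erase _ _ (Finset.mem_range.mpr hp.pos)]
    have h1 : ∑ i ∈ (Finset.range p).erase 0,
        ((-1 : ℤ) ^ (p - i) * (p.choose i : ℤ)) • dif L f (g * h ^ i) = 0 := by
      refine Finset.sum_eq_zero fun i hi => ?_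
      have hi0 : i ≠ 0 := (Finset.mem_erase.mp hi).1
      have hip : i < p := Finset.mem_range.mp (Finset.mem_erase.mp hi).2
      have hd : p ∣ p.choose i := hp.dvd_choose_self hi0 hip
      obtain ⟨k, hk⟩ := hd
      rw [hk, zsmul_eq_mul]
      push_cast
      simp
    rw [h1, add_zero, Nat.sub_zero, Nat.choose_zero_right, pow_zero, mul_one, Nat.cast_one, mul_one]
    rw [zsmul_eq_mul]
    push_cast
    rcases hp.eq_two_or_odd' with h2 | h2
    · subst h2
      have h3 : (-1 : ZMod 2) = 1 := CharTwo.neg_eq 1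
      rw [h3]; simp [CharTwo.neg_eq]
    · rw [h2.neg_one_pow]; ring
  rw [h0]
  simp only [Nat.sub_self, pow_zero, Nat.choose_self, Nat.cast_one, mul_one, one_smul]
  abel

end difs

end Pool.Agent.GGS
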