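import Pool.Agent.GGS.AdSum
import Pool.Agent.GGS.IxMono

/-!
# The classes `C(V; t)` (paper, section 4)
-/

namespace Pool.Agent.GGS

universe u

variable {p : ℕ} {G : Type u} [Group G] (w : WG p G)

theorem Cc_refl {V : Subgroup G} {t : ℝ} (hV : Op w V) (ht : 0 ≤ t) : Cc w V t V :=
  ⟨le_rfl, hV, fun v hv => ⟨v, hv, by rw [inv_mul_cancel, w.one]; exact ht⟩⟩

theorem Cc_trans {V V' V'' : Subgroup G} {t t' : ℝ} (h : Cc w V t V') (h' : Cc w V' t' V'')
    (hle : t' ≤ t) : Cc w V t V'' := by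
  refine ⟨h'.le.trans h.le, h'.op, fun v hv => ?_⟩
  obtain ⟨v', hv', h1⟩ := h.cov v hv
  obtain ⟨v'', hv'', h2⟩ := h'.cov v' hv'
  exact ⟨v'', hv'', (W_inv_mul_trans w v'' v' v).trans (max_le (h2.trans hle) h1)⟩

theorem Cc_mono {V V' : Subgroup G} {t t' : ℝ} (h : Cc w V t' V') (hle : t' ≤ t) :
    Cc w V t V' :=
  ⟨h.le, h.op, fun v hv => by
    obtain ⟨v', hv', h1⟩ := h.cov v hv
    exact ⟨v', hv', h1.trans hle⟩⟩

theorem Cc_op {V V' : Subgroup G} {t : ℝ} (h : Cc w V t V') : Op w V :=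
  op_mono w h.op h.le

theorem Cc_step {V V' : Subgroup G} {y : G} {r : ℝ} (h : Step w V V' y r) (hV' : Op w V') :
    Cc w V r V' := by
  refine ⟨h.le, hV', fun v hv => ?_⟩
  obtain ⟨i, -, u, hu, rfl⟩ := h.cover v hv
  refine ⟨u, hu, ?_⟩
  rw [inv_mul_cancel_left, ← h.wy]
  exact W_pow_le w y i

open Classical in
/-- restriction of characters as a linear map -/
noncomputable def ccbasRes {V V' : Subgroup G} (hle : V' ≤ V) (s : ℝ) :
    Ch w V s →ₗ[ZMod p] Ch w V' s where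
  toFun χ := ⟨fun g => if g ∈ V' then χ.1 g else 0, ch_restrict w hle χ.2⟩
  map_add' χ ψ := by
    apply Subtype.ext
    funext g
    by_cases hg : g ∈ V'
    · simp [hg]
    · simp [hg]
  map_smul' c χ := by
    apply Subtype.ext
    funext g
    by_cases hg : g ∈ V'
    · simp [hg]
    · simp [hg]

lemma ccbasRes_apply {V V' : Subgroup G} (hle : V' ≤ V) (s : ℝ) (χ : Ch w V s) {g : G}
    (hg : g ∈ V') : (ccbasRes w hle s χ).1 g = χ.1 g := by
  classical
  change (if g ∈ V' then χ.1 g else 0) = χ.1 g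
  rw [if_pos hg]

theorem ccbas_inj {V V' : Subgroup G} {t s : ℝ} (h : Cc w V t V') (hs : t ≤ s) :
    Function.Injective (ccbasRes w h.le s) := by
  rw [injective_iff_map_eq_zero]
  intro χ hχ
  apply Subtype.ext
  funext g
  by_cases hg : g ∈ V
  · obtain ⟨v', hv', h1⟩ := h.cov g hg
    have h2 : χ.1 v' = 0 := by
      rw [← ccbasRes_apply w h.le s χ hv', hχ]
      rfl
    have h3 : v'⁻¹ * g ∈ V := V.mul_mem (V.inv_mem (h.le hv')) hg
    have h4 : χ.1 (v'⁻¹ * g) = 0 := χ.2.2.2 _ h3 (h1.trans hs)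
    have h5 := χ.2.2.1 v' (h.le hv') (v'⁻¹ * g) h3
    rw [mul_inv_cancel_left, h2, h4, add_zero] at h5
    exact h5
  · exact χ.2.1 g hg

theorem ccbas_surj {V V' : Subgroup G} {t s : ℝ} (h : Cc w V t V') (hs : t ≤ s) :
    Function.Surjective (ccbasRes w h.le s) := by
  classical
  intro ψ
  obtain ⟨ψ, hψ⟩ := ψ
  have hc : ∀ v : G, ∃ v' : G, v ∈ V → v' ∈ V' ∧ w.W (v'⁻¹ * v) ≤ t := by
    intro v
    by_cases hv : v ∈ V
    · obtain ⟨v', hv', h1⟩ := h.cov v hv
      exact ⟨v', fun _ => ⟨hv', h1⟩⟩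
    · exact ⟨1, fun h1 => absurd h1 hv⟩
  choose f hf using hc
  -- independence of the choice
  have hind : ∀ v, v ∈ V → ∀ v' ∈ V', w.W (v'⁻¹ * v) ≤ t → ψ (f v) = ψ v' := by
    intro v hv v' hv' h1
    obtain ⟨h2, h3⟩ := hf v hv
    have h4 : w.W (v'⁻¹ * f v) ≤ s :=
      ((W_inv_mul_trans w v' v (f v)).trans (max_le h1 (by
        rw [W_inv_mul_comm]; exact h3))).trans hs
    have h5 : v'⁻¹ * f v ∈ V' := V'.mul_mem (V'.inv_mem hv') h2
    have h6 := hψ.2.1 v' hv' _ h5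
    rw [mul_inv_cancel_left, hψ.2.2 _ h5 h4, add_zero] at h6
    exact h6
  refine ⟨⟨fun g => if g ∈ V then ψ (f g) else 0, ?_, ?_, ?_⟩, ?_⟩
  · intro g hg
    simp [hg]
  · intro a ha b hb
    have hab := V.mul_mem ha hb
    simp only [ha, hb, hab, if_true]
    obtain ⟨h1, h2⟩ := hf a ha
    obtain ⟨h3, h4⟩ := hf b hb
    rw [← hψ.2.1 _ h1 _ h3]
    refine hind _ hab _ (V'.mul_mem h1 h3) ?_
    have h5 : (f a * f b)⁻¹ * (a * b) =
        ((f b)⁻¹ * ((f a)⁻¹ * a) * (f b)⁻¹⁻¹) * ((f b)⁻¹ * b) := by group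
    rw [h5]
    refine (w.mul _ _).trans (max_le ?_ h4)
    rw [W_conj]
    exact h2
  · intro v hv hws
    simp only [hv, if_true]
    obtain ⟨h1, h2⟩ := hf v hv
    refine hψ.2.2 _ h1 ?_
    have h3 : f v = v * (v⁻¹ * f v) := by group
    rw [h3]
    refine (w.mul _ _).trans (max_le hws ?_)
    rw [W_inv_mul_comm]
    exact h2.trans hs
  · apply Subtype.ext
    funext g
    by_cases hg : g ∈ V'
    · rw [ccbasRes_apply w h.le s _ hg]
      change (if g ∈ V then ψ (f g) else 0) = ψ g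
      rw [if_pos (h.le hg)]
      by_cases h0 : 0 ≤ t
      · exact hind g (h.le hg) g hg (by rw [inv_mul_cancel, w.one]; exact h0)
      · exact absurd ((w.nonneg _).trans (hf g (h.le hg)).2) h0
    · change (if g ∈ V' then _ else 0) = ψ g
      rw [if_neg hg, hψ.1 g hg]

theorem Cc_Kd [Fact p.Prime] {V V' : Subgroup G} {t s : ℝ} (ht : 0 < t) (h : Cc w V t V')
    (hs : t ≤ s) : Kd w V' s = Kd w V s := by
  have h1 := (LinearEquiv.ofBijective (ccbasRes w h.le s)
    ⟨ccbas_inj w h hs, ccbas_surj w h hs⟩).finrank_eq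
  exact h1.symm

theorem ccbas_int [Fact p.Prime] {V : Subgroup G} {t : ℝ} (ht : 0 < t)
    (hf : Module.Finite (ZMod p) (ChS w V)) :
    xm w V - xd w V t = ∫ s in (0 : ℝ)..1, (Kd w V (max t s) : ℝ) := by
  classical
  obtain ⟨B, hB, v, r, χ, h⟩ := exists_adapted w (ChS w V) le_rfl hf
  rw [adapted_xm w h, adapted_xd w h ht]
  have h1 : ∀ s : ℝ, (Kd w V (max t s) : ℝ) =
      ((Finset.univ.filter fun i : {b : B // t < r b} => s < r i.1).card : ℝ) := by
    intro s
    rw [adapted_Kd w h (lt_of_lt_of_le ht (le_max_left _ _))]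
    have h2 : (Finset.univ.filter fun b => max t s < r b) =
        (Finset.univ.filter fun i : {b : B // t < r b} => s < r i.1).map
          (Function.Embedding.subtype _) := by
      ext b
      simp only [Finset.mem_filter, Finset.mem_univ, true_and, max_lt_iff, Finset.mem_map,
        Function.Embedding.coe_subtype, Subtype.exists, exists_and_left, exists_prop,
        exists_eq_right_right]
      tauto
    rw [h2, Finset.card_map]
  have h3 : (fun s : ℝ => (Kd w V (max t s) : ℝ)) = fun s : ℝ =>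
      ((Finset.univ.filter fun i : {b : B // t < r b} => s < r i.1).card : ℝ) := funext h1
  rw [h3, integral_count (fun i : {b : B // t < r b} => r i.1)
    (fun i => (adapted_lt w h i.1).1.le) (fun i => (adapted_lt w h i.1).2.2.le)]
  have h4 : ∑ i : {b : B // t < r b}, r i.1 = ∑ b ∈ Finset.univ.filter (fun b => t < r b), r b := by
    rw [← Finset.sum_subtype_eq_sum_filter, Finset.subtype_univ]
  rw [h4, sub_eq_iff_eq_add', ← Finset.sum_filter_add_sum_filter_not Finset.univ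
    (fun b => r b ≤ t) r]
  congr 1
  refine Finset.sum_congr ?_ fun _ _ => rfl
  ext b
  simp only [Finset.mem_filter, Finset.mem_univ, true_and, not_le]

/-- `x(V) - x_t(V) = x(V') - x_t(V')` -/
theorem Cc_xd [Fact p.Prime] {V V' : Subgroup G} {t : ℝ} (ht : 0 < t) (h : Cc w V t V')
    (hf : Module.Finite (ZMod p) (ChS w V)) (hf' : Module.Finite (ZMod p) (ChS w V')) :
    xm w V - xd w V t = xm w V' - xd w V' t := by
  rw [ccbas_int w ht hf, ccbas_int w ht hf']
  have h1 : (fun s : ℝ => (Kd w V (max t s) : ℝ)) = fun s : ℝ => (Kd w V' (max t s) : ℝ) :=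
    funext fun s => by rw [Cc_Kd w ht h (le_max_left t s)]
  rw [h1]

/-- if all elements of `V` have weight `≤ t` then all open subgroups of `V` are in `C(V; t)` -/
theorem Cc_of_le {V V' : Subgroup G} {t : ℝ} (hV : ∀ g ∈ V, w.W g ≤ t) (hV' : Op w V')
    (hle : V' ≤ V) : Cc w V t V' :=
  ⟨hle, hV', fun v hv => ⟨1, V'.one_mem, by rw [inv_one, one_mul]; exact hV v hv⟩⟩

end Pool.Agent.GGS
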