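import Pool.Agent.GGS.Chains

/-!
# Spaces of characters (paper, section 3)
-/

namespace Pool.Agent.GGS

universe u

variable {p : ℕ} {G : Type u} [Group G] (w : WG p G)

open Classical in
/-- a representative in `V` of a coset of the ball, if there is one -/
noncomputable def ChFinRep (V : Subgroup G) (t : ℝ) (q : G ⧸ w.ball t) : G :=
  if h : ∃ v ∈ V, (v : G ⧸ w.ball t) = q then h.choose else 1

lemma ChFinRep_spec (V : Subgroup G) (t : ℝ) {g : G} (hg : g ∈ V) :
    ChFinRep w V t (g : G ⧸ w.ball t) ∈ V ∧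
      ((ChFinRep w V t (g : G ⧸ w.ball t) : G) : G ⧸ w.ball t) = g := by
  have h : ∃ v ∈ V, (v : G ⧸ w.ball t) = (g : G ⧸ w.ball t) := ⟨g, hg, rfl⟩
  unfold ChFinRep
  rw [dif_pos h]
  exact h.choose_spec

theorem Ch_finite [Fact p.Prime] (V : Subgroup G) {t : ℝ} (ht : 0 < t) :
    Module.Finite (ZMod p) (Ch w V t) := by
  have hfin := ball_finite w ht
  let φ : (Ch w V t) →ₗ[ZMod p] ((G ⧸ w.ball t) → ZMod p) :=
    (LinearMap.funLeft (ZMod p) (ZMod p) (ChFinRep w V t)).comp (Ch w V t).subtype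
  have hφ : Function.Injective φ := by
    rw [← LinearMap.ker_eq_bot, LinearMap.ker_eq_bot']
    rintro ⟨χ, hχ1, hχ2, hχ3⟩ h0
    refine Subtype.ext (funext fun g => ?_)
    by_cases hg : g ∈ V
    · obtain ⟨h1, h2⟩ := ChFinRep_spec w V t hg
      have h3 : χ (ChFinRep w V t (g : G ⧸ w.ball t)) = 0 :=
        congrFun h0 (g : G ⧸ w.ball t)
      have h4 : (ChFinRep w V t (g : G ⧸ w.ball t))⁻¹ * g ∈ w.ball t :=
        QuotientGroup.eq.mp h2
      have h5 : χ ((ChFinRep w V t (g : G ⧸ w.ball t))⁻¹ * g) = 0 :=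
        hχ3 _ (V.mul_mem (V.inv_mem h1) hg) ((w.mem_ball ht.le).mp h4)
      have h6 := hχ2 _ h1 _ (V.mul_mem (V.inv_mem h1) hg)
      rw [mul_inv_cancel_left, h3, h5, add_zero] at h6
      exact h6
    · exact hχ1 g hg
  exact Module.Finite.of_injective φ hφ

theorem Ch_anti (V : Subgroup G) {s t : ℝ} (h : s ≤ t) : Ch w V t ≤ Ch w V s :=
  fun _ hχ => ⟨hχ.1, hχ.2.1, fun v hv hvs => hχ.2.2 v hv (hvs.trans h)⟩

theorem Ch_le_ChS (V : Subgroup G) {t : ℝ} (ht : 0 < t) : Ch w V t ≤ ChS w V :=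
  fun _ hχ => ⟨t, ht, hχ⟩

theorem Kd_anti [Fact p.Prime] (V : Subgroup G) {s t : ℝ} (hs : 0 < s) (h : s ≤ t) :
    Kd w V t ≤ Kd w V s := by
  have := Ch_finite w V hs
  exact Submodule.finrank_mono (Ch_anti w V h)

theorem Kd_zero [Fact p.Prime] (V : Subgroup G) {t : ℝ} (ht : w.wm ≤ t) : Kd w V t = 0 := by
  have h1 : Ch w V t = ⊥ := by
    rw [eq_bot_iff]
    intro χ hχ
    rw [Submodule.mem_bot]
    funext g
    by_cases hg : g ∈ V
    · exact hχ.2.2 g hg ((w.le_wm g).trans ht)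
    · exact hχ.1 g hg
  unfold Kd
  rw [h1]
  exact finrank_bot _ _

/-- if `ChS w V` is finite dimensional, it is one of the `Ch w V t` -/
theorem exists_ChS_eq [Fact p.Prime] (V : Subgroup G) (hf : Module.Finite (ZMod p) (ChS w V)) :
    ∃ t, 0 < t ∧ ChS w V = Ch w V t := by
  classical
  obtain ⟨S, hS⟩ := (Module.Finite.iff_fg.mp hf)
  have key : ∀ T : Finset (G → ZMod p), (∀ χ ∈ T, χ ∈ ChS w V) →
      ∃ t, 0 < t ∧ ∀ χ ∈ T, χ ∈ Ch w V t := by
    intro T
    induction T using Finset.induction_on with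
    | empty => intro _; exact ⟨1, one_pos, fun χ hχ => absurd hχ (Finset.notMem_empty χ)⟩
    | insert a T _ ih =>
      intro hT
      obtain ⟨s, hs, hsT⟩ := ih fun χ hχ => hT χ (Finset.mem_insert_of_mem hχ)
      obtain ⟨t, ht, hta⟩ := hT a (Finset.mem_insert_self a T)
      refine ⟨min s t, lt_min hs ht, fun χ hχ => ?_⟩
      rcases Finset.mem_insert.mp hχ with rfl | hχ
      · exact Ch_anti w V (min_le_right _ _) hta
      · exact Ch_anti w V (min_le_left _ _) (hsT χ hχ)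
  obtain ⟨t, ht, hT⟩ := key S fun χ hχ => by
    rw [← hS]
    exact Submodule.subset_span hχ
  refine ⟨t, ht, le_antisymm ?_ (Ch_le_ChS w V ht)⟩
  rw [← hS, Submodule.span_le]
  exact hT

theorem ch_mul {V : Subgroup G} {χ : G → ZMod p} (h : χ ∈ ChS w V) {u v : G} (hu : u ∈ V)
    (hv : v ∈ V) : χ (u * v) = χ u + χ v := Chains_chi_mul w h hu hv

theorem ch_one {V : Subgroup G} {χ : G → ZMod p} (h : χ ∈ ChS w V) : χ 1 = 0 :=
  Chains_chi_one w h

theorem ch_inv {V : Subgroup G} {χ : G → ZMod p} (h : χ ∈ ChS w V) {u : G} (hu : u ∈ V) :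
    χ u⁻¹ = - χ u := Chains_chi_inv w h hu

theorem ch_pow {V : Subgroup G} {χ : G → ZMod p} (h : χ ∈ ChS w V) {u : G} (hu : u ∈ V) (n : ℕ) :
    χ (u ^ n) = n * χ u := Chains_chi_pow w h hu n

open Classical in
/-- restriction of characters to a smaller open subgroup -/
theorem ch_restrict {V V' : Subgroup G} (hle : V' ≤ V) {χ : G → ZMod p} {t : ℝ}
    (h : χ ∈ Ch w V t) : (fun g => if g ∈ V' then χ g else 0) ∈ Ch w V' t := by
  refine ⟨fun g hg => if_neg hg, fun u hu v hv => ?_, fun v hv hvt => ?_⟩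
  · change (if u * v ∈ V' then χ (u * v) else 0) =
      (if u ∈ V' then χ u else 0) + (if v ∈ V' then χ v else 0)
    rw [if_pos (V'.mul_mem hu hv), if_pos hu, if_pos hv]
    exact h.2.1 u (hle hu) v (hle hv)
  · change (if v ∈ V' then χ v else 0) = 0
    rw [if_pos hv]
    exact h.2.2 v (hle hv) hvt

end Pool.Agent.GGS
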