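import Pool.Agent.GGS.Chains

/-!
# Existence of chains (paper, section 1)

* `exists_step_above`: for `V' < V`, `V'` open, there is a step `V > V₁ ≥ V'`: in the finite `p`-group
  `V / (ball t)` (`ball t ≤ V'`) there is a subgroup of index `p` containing the image of `V'`
  (`Sylow.exists_subgroup_card_pow_prime_le`), it is normal (`Subgroup.normal_of_index_eq_minFac_card`).
  The deepest element from `exists_minW`.
* `exists_chain`: induct on the index (steps from above).
* `chain_small`: every group `V^i` of the chain satisfies `V^i = V' V^i_t` (modular law).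
-/

namespace Pool.Agent.GGS

universe u

variable {p : ℕ} {G : Type u} [Group G] (w : WG p G)

/-- a normal subgroup of index `p` is the second group of a step -/
lemma chainEx_step [Fact p.Prime] {V V' : Subgroup G} (hV' : Op w V') (N : Subgroup V)
    (hN : N.Normal) (hi : N.index = p) (hle : ∀ (v : G) (hv : v ∈ V), v ∈ V' → (⟨v, hv⟩ : V) ∈ N) :
    ∃ (y : G) (r : ℝ), Step w V (N.map V.subtype) y r := by
  have hp : p.Prime := Fact.out
  have hmem : ∀ (v : G) (hv : v ∈ V), v ∈ N.map V.subtype ↔ (⟨v, hv⟩ : V) ∈ N := by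
    intro v hv
    constructor
    · rintro ⟨x, hx, rfl⟩
      exact hx
    · intro h
      exact ⟨⟨v, hv⟩, h, rfl⟩
  have hne : ∃ v ∈ V, v ∉ N.map V.subtype := by
    by_contra hcon
    push Not at hcon
    have h1 : N = ⊤ := by
      rw [Subgroup.eq_top_iff']
      intro x
      exact (hmem x.1 x.2).mp (hcon x.1 x.2)
    rw [h1, Subgroup.index_top] at hi
    exact hp.one_lt.ne hi
  obtain ⟨t, ht, hball⟩ := hV'
  obtain ⟨y, ⟨hyV, hyN⟩, hmin⟩ := exists_minW w (S := {v | v ∈ V ∧ v ∉ N.map V.subtype})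
    (by obtain ⟨v, hv, hv'⟩ := hne; exact ⟨v, hv, hv'⟩) ht (by
      rintro g ⟨hg, hg'⟩
      by_contra hcon
      exact hg' ((hmem g hg).mpr (hle g hg (hball g (not_lt.mp hcon)))))
  refine ⟨y, w.W y, Subgroup.map_subtype_le N, hyV, hyN, rfl, fun v hv hv' => hmin v ⟨hv, hv'⟩,
    ?_, ?_, ?_⟩
  · intro v hv u hu
    have huV : u ∈ V := Subgroup.map_subtype_le N hu
    rw [hmem _ (V.mul_mem (V.mul_mem hv huV) (V.inv_mem hv))]
    have h1 := hN.conj_mem ⟨u, huV⟩ ((hmem u huV).mp hu) ⟨v, hv⟩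
    exact h1
  · rw [hmem _ (V.pow_mem hyV p)]
    have h1 := Subgroup.pow_index_mem N (⟨y, hyV⟩ : V)
    rw [hi] at h1
    exact h1
  · intro v hv
    have hcard : Nat.card (V ⧸ N) = p := hi
    have hy1 : ((⟨y, hyV⟩ : V) : V ⧸ N) ≠ 1 := by
      intro h
      rw [QuotientGroup.eq_one_iff] at h
      exact hyN ((hmem y hyV).mpr h)
    obtain ⟨n, hn⟩ := mem_powers_of_prime_card hcard (g' := ((⟨v, hv⟩ : V) : V ⧸ N)) hy1
    have hn' : ((⟨y, hyV⟩ : V) : V ⧸ N) ^ (n % p) = ((⟨v, hv⟩ : V) : V ⧸ N) := by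
      rw [← hn, ← hcard]
      exact pow_mod_natCard _ _
    refine ⟨n % p, Nat.mod_lt _ hp.pos, v * (y ^ (n % p))⁻¹, ?_, by group⟩
    rw [hmem _ (V.mul_mem hv (V.inv_mem (V.pow_mem hyV _)))]
    rw [← QuotientGroup.eq_one_iff]
    have e : (⟨v * (y ^ (n % p))⁻¹, V.mul_mem hv (V.inv_mem (V.pow_mem hyV _))⟩ : V) =
        ⟨v, hv⟩ * ((⟨y, hyV⟩ : V) ^ (n % p))⁻¹ := rfl
    rw [e, QuotientGroup.mk_mul, QuotientGroup.mk_inv, QuotientGroup.mk_pow, hn', mul_inv_cancel]

theorem exists_step_above [Fact p.Prime] {V V' : Subgroup G} (hV' : Op w V') (hlt : V' < V) :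
    ∃ (V₁ : Subgroup G) (y : G) (r : ℝ), V' ≤ V₁ ∧ Step w V V₁ y r := by
  have hp : p.Prime := Fact.out
  obtain ⟨t, ht, hball⟩ := (op_iff w).mp hV'
  have hfin := ball_finite w ht
  have hpg := ball_pgroup w ht
  have hbV : w.ball t ≤ V := hball.trans hlt.le
  let K : Subgroup V := (w.ball t).subgroupOf V
  let π : V →* V ⧸ K := QuotientGroup.mk' K
  have hπ : Function.Surjective π := QuotientGroup.mk'_surjective K
  have hker : π.ker = K := QuotientGroup.ker_mk' K
  have hK0 : K.index ≠ 0 := by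
    have h1 : (w.ball t).index ≠ 0 := by
      rw [Subgroup.index]
      exact Nat.card_pos.ne'
    exact ne_zero_of_dvd_ne_zero h1 (Subgroup.relIndex_dvd_index_of_normal (w.ball t) V)
  have hQfin : Finite (V ⧸ K) := Nat.finite_of_card_ne_zero hK0
  have hQp : IsPGroup p (V ⧸ K) := by
    intro q
    obtain ⟨v, rfl⟩ := QuotientGroup.mk'_surjective K q
    obtain ⟨k, hk⟩ := hpg ((v : G) : G ⧸ w.ball t)
    refine ⟨k, ?_⟩
    rw [← QuotientGroup.mk_pow, QuotientGroup.eq_one_iff] at hk
    rw [← map_pow, QuotientGroup.mk'_apply, QuotientGroup.eq_one_iff]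
    exact Subgroup.mem_subgroupOf.mpr hk
  let H : Subgroup (V ⧸ K) := (V'.subgroupOf V).map π
  have hH : H ≠ ⊤ := by
    intro h
    have h1 : H.comap π = V'.subgroupOf V := by
      rw [Subgroup.comap_map_eq, hker]
      exact sup_eq_left.mpr (Subgroup.comap_mono hball)
    rw [h, Subgroup.comap_top] at h1
    exact hlt.not_ge (Subgroup.subgroupOf_eq_top.mp h1.symm)
  obtain ⟨N, hN⟩ := IsPGroup.iff_card.mp hQp
  obtain ⟨n, hn⟩ := IsPGroup.iff_card.mp (hQp.to_subgroup H)
  have hnN : n < N := by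
    have h1 : Nat.card H < Nat.card (V ⧸ K) := by
      refine lt_of_le_of_ne (Subgroup.card_le_card_group H) ?_
      intro h
      exact hH (Subgroup.eq_top_of_card_eq H h)
    rw [hn, hN] at h1
    exact (Nat.pow_lt_pow_iff_right hp.one_lt).mp h1
  obtain ⟨m, rfl⟩ : ∃ m, N = m + 1 := ⟨N - 1, by omega⟩
  obtain ⟨M, hM, hHM⟩ := Sylow.exists_subgroup_card_pow_prime_le (p := p)
    (show p ^ m ∣ Nat.card (V ⧸ K) by rw [hN]; exact pow_dvd_pow p (Nat.le_succ m)) H hn
    (by omega)
  have hMi : M.index = p := by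
    have h1 := M.card_mul_index
    rw [hM, hN, pow_succ] at h1
    exact Nat.eq_of_mul_eq_mul_left (pow_pos hp.pos m) h1
  have hMn : M.Normal := by
    refine Subgroup.normal_of_index_eq_minFac_card ?_
    rw [hMi, hN, Nat.Prime.pow_minFac hp (Nat.succ_ne_zero m)]
  have hMc : (M.comap π).Normal := hMn.comap π
  have hMci : (M.comap π).index = p := by
    rw [Subgroup.index_comap_of_surjective M hπ, hMi]
  have hle : ∀ (v : G) (hv : v ∈ V), v ∈ V' → (⟨v, hv⟩ : V) ∈ M.comap π := by
    intro v hv hv'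
    exact hHM ⟨⟨v, hv⟩, Subgroup.mem_subgroupOf.mpr hv', rfl⟩
  obtain ⟨y, r, hstep⟩ := chainEx_step w hV' (M.comap π) hMc hMci hle
  refine ⟨(M.comap π).map V.subtype, y, r, ?_, hstep⟩
  intro v hv
  exact ⟨⟨v, hlt.le hv⟩, hle v (hlt.le hv) hv, rfl⟩

theorem exists_chain [Fact p.Prime] {V V' : Subgroup G} (hV' : Op w V') (hle : V' ≤ V) :
    ∃ L, Chain w V V' L := by
  have main : ∀ (n : ℕ) (V : Subgroup G), V' ≤ V → V'.relIndex V ≤ n →
      ∃ L, Chain w V V' L := by
    intro n
    induction n with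
    | zero =>
      intro V hle hn
      have := op_finiteIndex w hV'
      exact absurd (Nat.le_zero.mp hn)
        (Subgroup.isFiniteRelIndex_of_finiteIndex (H := V') (K := V)).relIndex_ne_zero
    | succ n ih =>
      intro V hle hn
      rcases eq_or_lt_of_le hle with h | hlt
      · subst h
        exact ⟨[], Chain.nil⟩
      · obtain ⟨V₁, y, r, h1, hs⟩ := exists_step_above w hV' hlt
        have := op_finiteIndex w hV'
        have h2 : V'.relIndex V₁ * V₁.relIndex V = V'.relIndex V :=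
          Subgroup.relIndex_mul_relIndex V' V₁ V h1 hs.le
        have h3 : V'.relIndex V ≠ 0 :=
          (Subgroup.isFiniteRelIndex_of_finiteIndex (H := V') (K := V)).relIndex_ne_zero
        have h4 : V₁.relIndex V ≠ 1 := by
          intro h
          exact hs.not_mem (Subgroup.relIndex_eq_one.mp h hs.mem)
        have h5 : V'.relIndex V₁ ≤ n := by
          have h6 : V₁.relIndex V ≠ 0 := by
            intro h
            rw [h, mul_zero] at h2
            exact h3 h2.symm
          have h7 : V'.relIndex V₁ ≠ 0 := by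
            intro h
            rw [h, zero_mul] at h2
            exact h3 h2.symm
          have h8 : 2 ≤ V₁.relIndex V := by omega
          have h9 : V'.relIndex V₁ * 2 ≤ V'.relIndex V := by
            rw [← h2]; exact Nat.mul_le_mul_left _ h8
          omega
        obtain ⟨L, hL⟩ := ih V₁ h1 h5
        exact ⟨L ++ [(y, r)], chain_append w (Chain.cons Chain.nil hs) hL⟩
  exact main _ V hle le_rfl

lemma chainEx_small {V V' : Subgroup G} {t : ℝ} (hC : Cc w V t V') {V₁ : Subgroup G}
    {L : List (G × ℝ)} (h : Chain w V V₁ L) (hle : V' ≤ V₁) : ∀ x ∈ L, x.2 ≤ t := by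
  induction h with
  | nil => intro x hx; exact absurd hx List.not_mem_nil
  | cons hc hs ih =>
    rename_i V₂ V₃ L y r
    intro x hx
    rcases List.mem_cons.mp hx with h | h
    · subst h
      obtain ⟨v', hv', hW⟩ := hC.cov y (chain_le w hc hs.mem)
      refine (hs.deep (v'⁻¹ * y) ?_ ?_).trans hW
      · exact V₂.mul_mem (V₂.inv_mem (hs.le (hle hv'))) hs.mem
      · intro hcon
        refine hs.not_mem ?_
        have h1 := V₃.mul_mem (hle hv') hcon
        rwa [mul_inv_cancel_left] at h1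
    · exact ih (hle.trans hs.le) x h

/-- If moreover `V = V' V_t`, all steps of a chain have weight `≤ t`. -/
theorem chain_small [Fact p.Prime] {V V' : Subgroup G} {t : ℝ} (hC : Cc w V t V')
    {L : List (G × ℝ)} (h : Chain w V V' L) : ∀ x ∈ L, x.2 ≤ t :=
  chainEx_small w hC h le_rfl

end Pool.Agent.GGS
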