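import Pool.Agent.GGS.Fin

/-!
# Steps and chains (paper, section 1)

* `step_of_char`: the kernel of a character; `char_of_step`: for a step, `χ (u * y ^ i) = i`.
-/

namespace Pool.Agent.GGS

universe u

variable {p : ℕ} {G : Type u} [Group G] (w : WG p G)

theorem step_pos {V V' : Subgroup G} {y : G} {r : ℝ} (h : Step w V V' y r) : 0 < r ∧ r ≤ w.wm := by
  have hy : y ≠ 1 := fun h1 => h.not_mem (h1 ▸ V'.one_mem)
  rw [← h.wy]
  exact ⟨W_pos w hy, w.le_wm y⟩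

theorem chain_le {P V : Subgroup G} {L : List (G × ℝ)} (h : Chain w P V L) : V ≤ P := by
  induction h with
  | nil => exact le_rfl
  | cons _ hs ih => exact hs.le.trans ih

theorem chain_mem {P V : Subgroup G} {L : List (G × ℝ)} (h : Chain w P V L) :
    ∀ x ∈ L, x.1 ∈ P ∧ w.W x.1 = x.2 ∧ 0 < x.2 ∧ x.2 ≤ w.wm := by
  induction h with
  | nil => intro x hx; exact absurd hx List.not_mem_nil
  | cons hc hs ih =>
    intro x hx
    rcases List.mem_cons.mp hx with rfl | hx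
    · exact ⟨chain_le w hc hs.mem, hs.wy, step_pos w hs⟩
    · exact ih x hx

theorem chain_append {P V V' : Subgroup G} {L L' : List (G × ℝ)} (h : Chain w P V L)
    (h' : Chain w V V' L') : Chain w P V' (L' ++ L) := by
  induction h' with
  | nil => exact h
  | cons _ hs ih => exact Chain.cons ih hs

omit w in
lemma Chains_pow_mem [Fact p.Prime] {V' : Subgroup G} {y : G} (hy : y ∉ V') (hp : y ^ p ∈ V')
    {n : ℤ} (hn : y ^ n ∈ V') : (n : ZMod p) = 0 := by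
  by_contra hcon
  rw [ZMod.intCast_zmod_eq_zero_iff_dvd] at hcon
  have hpr : Prime (p : ℤ) := Nat.prime_iff_prime_int.mp (Fact.out : p.Prime)
  have hcop : IsCoprime (p : ℤ) n := (hpr.coprime_iff_not_dvd).mpr hcon
  obtain ⟨a, b, hab⟩ := hcop
  apply hy
  have h1 : y = (y ^ p) ^ a * (y ^ n) ^ b := by
    rw [← zpow_natCast, ← zpow_mul, ← zpow_mul, ← zpow_add, mul_comm (p : ℤ) a, mul_comm n b, hab,
      zpow_one]
  rw [h1]
  exact V'.mul_mem (V'.zpow_mem hp a) (V'.zpow_mem hn b)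

/-- a step has index `p` -/
lemma Chains_step_relIndex [Fact p.Prime] {V V' : Subgroup G} {y : G} {r : ℝ}
    (h : Step w V V' y r) : V'.relIndex V = p := by
  have hn : (V'.subgroupOf V).Normal := ⟨fun u hu v => by
    rw [Subgroup.mem_subgroupOf] at hu ⊢
    exact h.norm v v.2 u hu⟩
  let Y : V ⧸ V'.subgroupOf V := QuotientGroup.mk ⟨y, h.mem⟩
  have hY1 : Y ≠ 1 := by
    intro h1
    rw [QuotientGroup.eq_one_iff, Subgroup.mem_subgroupOf] at h1
    exact h.not_mem h1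
  have hYp : Y ^ p = 1 := by
    have h1 : Y ^ p = QuotientGroup.mk ((⟨y, h.mem⟩ : V) ^ p) := rfl
    rw [h1, QuotientGroup.eq_one_iff, Subgroup.mem_subgroupOf]
    exact h.ypow
  have ho : orderOf Y = p := orderOf_eq_prime hYp hY1
  have hall : ∀ q : V ⧸ V'.subgroupOf V, q ∈ Subgroup.zpowers Y := by
    intro q
    obtain ⟨v, rfl⟩ := QuotientGroup.mk_surjective q
    obtain ⟨i, -, u, hu, hv⟩ := h.cover v v.2
    refine ⟨i, ?_⟩
    have h1 : (fun x : ℤ => Y ^ x) (i : ℤ) = QuotientGroup.mk ((⟨y, h.mem⟩ : V) ^ i) := by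
      change Y ^ (i : ℤ) = _
      rw [zpow_natCast]
      rfl
    rw [h1]
    have h2 : v = ⟨u, h.le hu⟩ * (⟨y, h.mem⟩ : V) ^ i := Subtype.ext hv
    have h3 : (QuotientGroup.mk v : V ⧸ V'.subgroupOf V) =
        QuotientGroup.mk (⟨u, h.le hu⟩ : V) * QuotientGroup.mk ((⟨y, h.mem⟩ : V) ^ i) := by
      rw [h2]
      rfl
    rw [h3]
    have h4 : (QuotientGroup.mk (⟨u, h.le hu⟩ : V) : V ⧸ V'.subgroupOf V) = 1 := by
      rw [QuotientGroup.eq_one_iff, Subgroup.mem_subgroupOf]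
      exact hu
    rw [h4, one_mul]
  change (V'.subgroupOf V).index = p
  rw [Subgroup.index, ← orderOf_eq_card_of_forall_mem_zpowers hall, ho]

theorem chain_relIndex [Fact p.Prime] {P V : Subgroup G} {L : List (G × ℝ)} (h : Chain w P V L) :
    V.relIndex P = p ^ L.length := by
  induction h with
  | nil => simp
  | cons hc hs ih =>
    rw [← Subgroup.relIndex_mul_relIndex _ _ _ hs.le (chain_le w hc), ih,
      Chains_step_relIndex w hs, List.length_cons, pow_succ']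

lemma Chains_chi_one {V : Subgroup G} {χ : G → ZMod p} (hχ : χ ∈ ChS w V) : χ 1 = 0 := by
  obtain ⟨t, _, _, hmul, _⟩ := hχ
  have h1 := hmul 1 V.one_mem 1 V.one_mem
  rw [mul_one] at h1
  exact left_eq_add.mp h1

lemma Chains_chi_mul {V : Subgroup G} {χ : G → ZMod p} (hχ : χ ∈ ChS w V) {a b : G}
    (ha : a ∈ V) (hb : b ∈ V) : χ (a * b) = χ a + χ b := by
  obtain ⟨t, _, _, hmul, _⟩ := hχ
  exact hmul a ha b hb

lemma Chains_chi_inv {V : Subgroup G} {χ : G → ZMod p} (hχ : χ ∈ ChS w V) {a : G}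
    (ha : a ∈ V) : χ a⁻¹ = - χ a := by
  have h1 := Chains_chi_mul w hχ (V.inv_mem ha) ha
  rw [inv_mul_cancel, Chains_chi_one w hχ] at h1
  exact eq_neg_of_add_eq_zero_left h1.symm

lemma Chains_chi_pow {V : Subgroup G} {χ : G → ZMod p} (hχ : χ ∈ ChS w V) {a : G}
    (ha : a ∈ V) (n : ℕ) : χ (a ^ n) = (n : ZMod p) * χ a := by
  induction n with
  | zero => rw [pow_zero, Chains_chi_one w hχ, Nat.cast_zero, zero_mul]
  | succ n ih =>
    rw [pow_succ, Chains_chi_mul w hχ (V.pow_mem ha n) ha, ih, Nat.cast_succ]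
    ring

theorem step_of_char [Fact p.Prime] {V : Subgroup G} {χ : G → ZMod p} (hχ : χ ∈ ChS w V) {y : G}
    (hy : y ∈ V) (hy0 : χ y ≠ 0) (hmin : ∀ v ∈ V, χ v ≠ 0 → w.W y ≤ w.W v) :
    ∃ V' : Subgroup G, (∀ g, g ∈ V' ↔ g ∈ V ∧ χ g = 0) ∧ Step w V V' y (w.W y) := by
  let V' : Subgroup G :=
    { carrier := {g | g ∈ V ∧ χ g = 0}
      mul_mem' := fun {a b} ha hb => ⟨V.mul_mem ha.1 hb.1, by
        rw [Chains_chi_mul w hχ ha.1 hb.1, ha.2, hb.2, add_zero]⟩
      one_mem' := ⟨V.one_mem, Chains_chi_one w hχ⟩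
      inv_mem' := fun {a} ha => ⟨V.inv_mem ha.1, by
        rw [Chains_chi_inv w hχ ha.1, ha.2, neg_zero]⟩ }
  have hV' : ∀ g, g ∈ V' ↔ g ∈ V ∧ χ g = 0 := fun g => Iff.rfl
  refine ⟨V', hV', ?_⟩
  refine ⟨fun g hg => ((hV' g).mp hg).1, hy, fun h => hy0 ((hV' y).mp h).2, rfl, ?_, ?_, ?_, ?_⟩
  · intro v hv hv'
    exact hmin v hv fun h0 => hv' ((hV' v).mpr ⟨hv, h0⟩)
  · intro v hv u hu
    obtain ⟨hu1, hu2⟩ := (hV' u).mp hu
    refine (hV' _).mpr ⟨V.mul_mem (V.mul_mem hv hu1) (V.inv_mem hv), ?_⟩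
    rw [Chains_chi_mul w hχ (V.mul_mem hv hu1) (V.inv_mem hv), Chains_chi_mul w hχ hv hu1,
      Chains_chi_inv w hχ hv, hu2]
    ring
  · refine (hV' _).mpr ⟨V.pow_mem hy p, ?_⟩
    rw [Chains_chi_pow w hχ hy, ZMod.natCast_self, zero_mul]
  · intro v hv
    refine ⟨(χ v / χ y).val, ZMod.val_lt _, v * (y ^ (χ v / χ y).val)⁻¹, ?_, ?_⟩
    · refine (hV' _).mpr ⟨V.mul_mem hv (V.inv_mem (V.pow_mem hy _)), ?_⟩
      rw [Chains_chi_mul w hχ hv (V.inv_mem (V.pow_mem hy _)),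
        Chains_chi_inv w hχ (V.pow_mem hy _), Chains_chi_pow w hχ hy, ZMod.natCast_val,
        ZMod.cast_id', id_eq, div_mul_cancel₀ _ hy0, add_neg_cancel]
    · rw [inv_mul_cancel_right]

/-- kernels of characters of open groups are open -/
theorem op_ker {V V' : Subgroup G} (hV : Op w V) {χ : G → ZMod p} (hχ : χ ∈ ChS w V)
    (h : ∀ g, g ∈ V' ↔ g ∈ V ∧ χ g = 0) : Op w V' := by
  obtain ⟨s, hs, hsV⟩ := hV
  obtain ⟨t, ht, -, -, hvan⟩ := hχ
  refine ⟨min s t, lt_min hs ht, fun g hg => (h g).mpr ?_⟩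
  have h1 : g ∈ V := hsV g (hg.trans (min_le_left _ _))
  exact ⟨h1, hvan g h1 (hg.trans (min_le_right _ _))⟩

lemma Chains_unique [Fact p.Prime] {V V' : Subgroup G} {y : G} {r : ℝ} (h : Step w V V' y r)
    {u u' : G} (hu : u ∈ V') (hu' : u' ∈ V') {i j : ℕ} (he : u * y ^ i = u' * y ^ j) :
    (i : ZMod p) = (j : ZMod p) := by
  have h1 : y ^ ((j : ℤ) - (i : ℤ)) ∈ V' := by
    have h2 : y ^ ((j : ℤ) - (i : ℤ)) = u'⁻¹ * u := by
      rw [zpow_sub, zpow_natCast, zpow_natCast, mul_inv_eq_iff_eq_mul, mul_assoc, he,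
        inv_mul_cancel_left]
    rw [h2]
    exact V'.mul_mem (V'.inv_mem hu') hu
  have h3 := Chains_pow_mem h.not_mem h.ypow h1
  push_cast at h3
  exact (sub_eq_zero.mp h3).symm

theorem char_of_step [Fact p.Prime] {V V' : Subgroup G} {y : G} {r : ℝ} (h : Step w V V' y r)
    (hV' : Op w V') : ∃ χ ∈ ChS w V, χ y = 1 ∧ ∀ v ∈ V, v ∈ V' ↔ χ v = 0 := by
  classical
  obtain ⟨t, ht, htV⟩ := hV'
  choose! i hi u hu hv using h.cover
  have key : ∀ v ∈ V, ∀ u' ∈ V', ∀ j : ℕ, v = u' * y ^ j → (i v : ZMod p) = (j : ZMod p) := by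
    intro v hvV u' hu' j hj
    exact Chains_unique w h (hu v hvV) hu' ((hv v hvV).symm.trans hj)
  have hzero : ∀ v ∈ V', (i v : ZMod p) = 0 := by
    intro v hvV
    have h1 := key v (h.le hvV) v hvV 0 (by rw [pow_zero, mul_one])
    rw [h1, Nat.cast_zero]
  refine ⟨fun g => if g ∈ V then (i g : ZMod p) else 0, ⟨t, ht, ?_, ?_, ?_⟩, ?_, ?_⟩
  · intro g hg
    exact if_neg hg
  · intro a ha b hb
    change (if a * b ∈ V then (i (a * b) : ZMod p) else 0) =
      (if a ∈ V then (i a : ZMod p) else 0) + (if b ∈ V then (i b : ZMod p) else 0)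
    rw [if_pos ha, if_pos hb, if_pos (V.mul_mem ha hb)]
    have h1 : a * b = (u a * (y ^ i a * u b * (y ^ i a)⁻¹)) * y ^ (i a + i b) := by
      calc a * b = (u a * y ^ i a) * (u b * y ^ i b) := by rw [← hv a ha, ← hv b hb]
        _ = _ := by rw [pow_add]; group
    have h2 := key (a * b) (V.mul_mem ha hb) _
      (V'.mul_mem (hu a ha) (h.norm _ (V.pow_mem h.mem (i a)) _ (hu b hb))) _ h1
    rw [h2, Nat.cast_add]
  · intro v hvV hvt
    change (if v ∈ V then (i v : ZMod p) else 0) = 0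
    rw [if_pos hvV]
    exact hzero v (htV v hvt)
  · change (if y ∈ V then (i y : ZMod p) else 0) = 1
    rw [if_pos h.mem]
    have h1 := key y h.mem 1 V'.one_mem 1 (by rw [pow_one, one_mul])
    rw [h1, Nat.cast_one]
  · intro v hvV
    change v ∈ V' ↔ (if v ∈ V then (i v : ZMod p) else 0) = 0
    rw [if_pos hvV]
    refine ⟨hzero v, fun h0 => ?_⟩
    have h1 : i v = 0 := by
      have h2 := (ZMod.natCast_eq_zero_iff (i v) p).mp h0
      exact Nat.eq_zero_of_dvd_of_lt h2 (hi v hvV)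
    have h3 := hv v hvV
    rw [h1, pow_zero, mul_one] at h3
    rw [h3]
    exact hu v hvV

end Pool.Agent.GGS
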