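import Pool.Agent.GGS.Bas

/-!
# The Leibniz rule for `dif`
-/

namespace Pool.Agent.GGS

universe u

variable {p : ℕ} {G : Type u} [Group G]

/-- the pairs of sublists which cover the list `L` -/
def covers {α : Type*} : List α → List (List α × List α)
  | [] => [([], [])]
  | h :: L => (covers L).flatMap fun c => [(h :: c.1, c.2), (c.1, h :: c.2), (h :: c.1, h :: c.2)]

theorem mem_covers_cons {α : Type*} {h : α} {L : List α} {c : List α × List α} :
    c ∈ covers (h :: L) ↔ ∃ d ∈ covers L,
      c = (h :: d.1, d.2) ∨ c = (d.1, h :: d.2) ∨ c = (h :: d.1, h :: d.2) := by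
  simp [covers, List.mem_flatMap]

theorem sum_flatMap_three {α : Type*} (F : List α × List α → ZMod p) (h : α)
    (C : List (List α × List α)) :
    ((C.flatMap fun c => [(h :: c.1, c.2), (c.1, h :: c.2), (h :: c.1, h :: c.2)]).map F).sum =
      (C.map fun c => F (h :: c.1, c.2) + F (c.1, h :: c.2) + F (h :: c.1, h :: c.2)).sum := by
  induction C with
  | nil => simp
  | cons c C ih =>
    rw [List.flatMap_cons, List.map_append, List.sum_append, ih, List.map_cons, List.sum_cons]
    simp [add_assoc]

theorem sum_map_sub' {β : Type*} (C : List β) (F F' : β → ZMod p) :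
    (C.map F).sum - (C.map F').sum = (C.map fun c => F c - F' c).sum := by
  induction C with
  | nil => simp
  | cons c C ih => rw [List.map_cons, List.map_cons, List.map_cons, List.sum_cons, List.sum_cons,
      List.sum_cons, ← ih]; ring

theorem dif_covers {α : Type*} (φ : α → G) (L : List α) (f f' : G → ZMod p) (g : G) :
    dif (L.map φ) (fun h => f h * f' h) g =
      ((covers L).map fun c => dif (c.1.map φ) f g * dif (c.2.map φ) f' g).sum := by
  induction L generalizing g with
  | nil => simp [covers]
  | cons h L ih =>
    rw [List.map_cons, dif_cons, ih, ih, covers, sum_flatMap_three, sum_map_sub']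
    refine congrArg List.sum (List.map_congr_left fun c _ => ?_)
    simp only [List.map_cons, dif_cons]
    ring

/-- the usual way to apply it -/
theorem dif_prod_zero {α : Type*} (φ : α → G) (L : List α) (f f' : G → ZMod p) (g : G)
    (h : ∀ c ∈ covers L, dif (c.1.map φ) f g = 0 ∨ dif (c.2.map φ) f' g = 0) :
    dif (L.map φ) (fun h => f h * f' h) g = 0 := by
  rw [dif_covers]
  refine List.sum_eq_zero fun x hx => ?_
  obtain ⟨c, hc, rfl⟩ := List.mem_map.mp hx
  rcases h c hc with h1 | h1 <;> simp [h1]

theorem covers_mem {α : Type*} {L : List α} {c : List α × List α} (hc : c ∈ covers L) :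
    (∀ x ∈ c.1, x ∈ L) ∧ ∀ x ∈ c.2, x ∈ L := by
  induction L generalizing c with
  | nil => simp [covers] at hc; subst hc; simp
  | cons h L ih =>
    obtain ⟨d, hd, h1⟩ := mem_covers_cons.mp hc
    obtain ⟨h2, h3⟩ := ih hd
    rcases h1 with rfl | rfl | rfl
    · refine ⟨fun x hx => ?_, fun x hx => List.mem_cons_of_mem _ (h3 x hx)⟩
      rcases List.mem_cons.mp hx with rfl | hx
      · exact List.mem_cons_self
      · exact List.mem_cons_of_mem _ (h2 x hx)
    · refine ⟨fun x hx => List.mem_cons_of_mem _ (h2 x hx), fun x hx => ?_⟩
      rcases List.mem_cons.mp hx with rfl | hx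
      · exact List.mem_cons_self
      · exact List.mem_cons_of_mem _ (h3 x hx)
    · refine ⟨fun x hx => ?_, fun x hx => ?_⟩
      · rcases List.mem_cons.mp hx with rfl | hx
        · exact List.mem_cons_self
        · exact List.mem_cons_of_mem _ (h2 x hx)
      · rcases List.mem_cons.mp hx with rfl | hx
        · exact List.mem_cons_self
        · exact List.mem_cons_of_mem _ (h3 x hx)

theorem prod_nonneg_of {α : Type*} (L : List α) (f : α → ℝ) (h0 : ∀ x ∈ L, 0 ≤ f x) :
    0 ≤ (L.map f).prod := by
  induction L with
  | nil => simp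
  | cons h L ih =>
    rw [List.map_cons, List.prod_cons]
    exact mul_nonneg (h0 h List.mem_cons_self) (ih fun x hx => h0 x (List.mem_cons_of_mem _ hx))

theorem prod_le_one_of {α : Type*} (L : List α) (f : α → ℝ) (h0 : ∀ x ∈ L, 0 ≤ f x)
    (h1 : ∀ x ∈ L, f x ≤ 1) : (L.map f).prod ≤ 1 := by
  induction L with
  | nil => simp
  | cons h L ih =>
    rw [List.map_cons, List.prod_cons]
    exact mul_le_one₀ (h1 h List.mem_cons_self)
      (prod_nonneg_of L f fun x hx => h0 x (List.mem_cons_of_mem _ hx))
      (ih (fun x hx => h0 x (List.mem_cons_of_mem _ hx)) fun x hx => h1 x (List.mem_cons_of_mem _ hx))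

/-- products over covering pairs; `P` = deep elements, each of value `≤ q` -/
theorem covers_deep {α : Type*} (L : List α) (f : α → ℝ) (P : α → Bool) {q : ℝ} (hq0 : 0 ≤ q)
    (h0 : ∀ x ∈ L, 0 ≤ f x) (h1 : ∀ x ∈ L, f x ≤ 1) (hP : ∀ x ∈ L, P x = true → f x ≤ q)
    {c : List α × List α} (hc : c ∈ covers L) :
    (L.filter P).length ≤ (c.1.filter P).length + (c.2.filter P).length ∧
      (c.1.map f).prod * (c.2.map f).prod ≤
        (L.map f).prod * q ^ ((c.1.filter P).length + (c.2.filter P).length - (L.filter P).length) := by
  induction L generalizing c with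
  | nil => simp [covers] at hc; subst hc; simp
  | cons h L ih =>
    obtain ⟨d, hd, h2⟩ := mem_covers_cons.mp hc
    have h0' : ∀ x ∈ L, 0 ≤ f x := fun x hx => h0 x (List.mem_cons_of_mem _ hx)
    have h1' : ∀ x ∈ L, f x ≤ 1 := fun x hx => h1 x (List.mem_cons_of_mem _ hx)
    obtain ⟨h3, h4⟩ := ih h0' h1' (fun x hx => hP x (List.mem_cons_of_mem _ hx)) hd
    have hh0 : 0 ≤ f h := h0 h List.mem_cons_self
    have hh1 : f h ≤ 1 := h1 h List.mem_cons_self
    have hhP := hP h List.mem_cons_self
    have hL : 0 ≤ (L.map f).prod := prod_nonneg_of L f h0'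
    have hd1 : 0 ≤ (d.1.map f).prod := prod_nonneg_of _ f fun x hx => h0' x ((covers_mem hd).1 x hx)
    have hd2 : 0 ≤ (d.2.map f).prod := prod_nonneg_of _ f fun x hx => h0' x ((covers_mem hd).2 x hx)
    by_cases hb : P h = true
    · have hf := hhP hb
      rcases h2 with rfl | rfl | rfl
      · simp only [List.filter_cons, hb, if_true, List.length_cons, List.map_cons, List.prod_cons]
        refine ⟨by omega, ?_⟩
        have e : (d.1.filter P).length + 1 + (d.2.filter P).length - ((L.filter P).length + 1) =
          (d.1.filter P).length + (d.2.filter P).length - (L.filter P).length := by omega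
        rw [e]
        calc f h * (d.1.map f).prod * (d.2.map f).prod
            = f h * ((d.1.map f).prod * (d.2.map f).prod) := by ring
          _ ≤ f h * ((L.map f).prod * q ^ ((d.1.filter P).length + (d.2.filter P).length -
              (L.filter P).length)) := mul_le_mul_of_nonneg_left h4 hh0
          _ = _ := by ring
      · simp only [List.filter_cons, hb, if_true, List.length_cons, List.map_cons, List.prod_cons]
        refine ⟨by omega, ?_⟩
        have e : (d.1.filter P).length + ((d.2.filter P).length + 1) - ((L.filter P).length + 1) =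
          (d.1.filter P).length + (d.2.filter P).length - (L.filter P).length := by omega
        rw [e]
        calc (d.1.map f).prod * (f h * (d.2.map f).prod)
            = f h * ((d.1.map f).prod * (d.2.map f).prod) := by ring
          _ ≤ f h * ((L.map f).prod * q ^ ((d.1.filter P).length + (d.2.filter P).length -
              (L.filter P).length)) := mul_le_mul_of_nonneg_left h4 hh0
          _ = _ := by ring
      · simp only [List.filter_cons, hb, if_true, List.length_cons, List.map_cons, List.prod_cons]
        refine ⟨by omega, ?_⟩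
        have e : (d.1.filter P).length + 1 + ((d.2.filter P).length + 1) - ((L.filter P).length + 1) =
          (d.1.filter P).length + (d.2.filter P).length - (L.filter P).length + 1 := by omega
        rw [e, pow_succ]
        calc f h * (d.1.map f).prod * (f h * (d.2.map f).prod)
            = f h * (f h * ((d.1.map f).prod * (d.2.map f).prod)) := by ring
          _ ≤ f h * (q * ((L.map f).prod * q ^ ((d.1.filter P).length + (d.2.filter P).length -
              (L.filter P).length))) :=
            mul_le_mul_of_nonneg_left (mul_le_mul hf h4 (mul_nonneg hd1 hd2) hq0) hh0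
          _ = _ := by ring
    · rcases h2 with rfl | rfl | rfl
      · simp only [List.filter_cons, hb, List.map_cons, List.prod_cons]
        refine ⟨h3, ?_⟩
        calc f h * (d.1.map f).prod * (d.2.map f).prod
            = f h * ((d.1.map f).prod * (d.2.map f).prod) := by ring
          _ ≤ f h * ((L.map f).prod * q ^ ((d.1.filter P).length + (d.2.filter P).length -
              (L.filter P).length)) := mul_le_mul_of_nonneg_left h4 hh0
          _ = _ := by simp [mul_assoc]
      · simp only [List.filter_cons, hb, List.map_cons, List.prod_cons]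
        refine ⟨h3, ?_⟩
        calc (d.1.map f).prod * (f h * (d.2.map f).prod)
            = f h * ((d.1.map f).prod * (d.2.map f).prod) := by ring
          _ ≤ f h * ((L.map f).prod * q ^ ((d.1.filter P).length + (d.2.filter P).length -
              (L.filter P).length)) := mul_le_mul_of_nonneg_left h4 hh0
          _ = _ := by simp [mul_assoc]
      · simp only [List.filter_cons, hb, List.map_cons, List.prod_cons]
        refine ⟨h3, ?_⟩
        calc f h * (d.1.map f).prod * (f h * (d.2.map f).prod)
            = f h * (f h * ((d.1.map f).prod * (d.2.map f).prod)) := by ring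
          _ ≤ 1 * (f h * ((d.1.map f).prod * (d.2.map f).prod)) :=
            mul_le_mul_of_nonneg_right hh1 (mul_nonneg hh0 (mul_nonneg hd1 hd2))
          _ = f h * ((d.1.map f).prod * (d.2.map f).prod) := one_mul _
          _ ≤ f h * ((L.map f).prod * q ^ ((d.1.filter P).length + (d.2.filter P).length -
              (L.filter P).length)) := mul_le_mul_of_nonneg_left h4 hh0
          _ = _ := by simp [mul_assoc]

theorem covers_prod {α : Type*} (L : List α) (f : α → ℝ) (h0 : ∀ x ∈ L, 0 ≤ f x)
    (h1 : ∀ x ∈ L, f x ≤ 1) {c : List α × List α} (hc : c ∈ covers L) :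
    (c.1.map f).prod * (c.2.map f).prod ≤ (L.map f).prod ∧
      (L.map f).prod ≤ (c.1.map f).prod ∧ (L.map f).prod ≤ (c.2.map f).prod := by
  refine ⟨?_, ?_⟩
  · have := (covers_deep L f (fun _ => false) (q := 1) zero_le_one h0 h1 (by simp) hc).2
    simpa using this
  · induction L generalizing c with
    | nil => simp [covers] at hc; subst hc; simp
    | cons h L ih =>
      obtain ⟨d, hd, h2⟩ := mem_covers_cons.mp hc
      have h0' : ∀ x ∈ L, 0 ≤ f x := fun x hx => h0 x (List.mem_cons_of_mem _ hx)
      have h1' : ∀ x ∈ L, f x ≤ 1 := fun x hx => h1 x (List.mem_cons_of_mem _ hx)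
      obtain ⟨h3, h4⟩ := ih h0' h1' hd
      have hh0 : 0 ≤ f h := h0 h List.mem_cons_self
      have hh1 : f h ≤ 1 := h1 h List.mem_cons_self
      have hL : 0 ≤ (L.map f).prod := prod_nonneg_of L f h0'
      have e1 : f h * (L.map f).prod ≤ (L.map f).prod := mul_le_of_le_one_left hL hh1
      rcases h2 with rfl | rfl | rfl
      · simp only [List.map_cons, List.prod_cons]
        exact ⟨mul_le_mul_of_nonneg_left h3 hh0, e1.trans h4⟩
      · simp only [List.map_cons, List.prod_cons]
        exact ⟨e1.trans h3, mul_le_mul_of_nonneg_left h4 hh0⟩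
      · simp only [List.map_cons, List.prod_cons]
        exact ⟨mul_le_mul_of_nonneg_left h3 hh0, mul_le_mul_of_nonneg_left h4 hh0⟩

end Pool.Agent.GGS
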