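import Pool.Agent.GGS.CocDef
import Pool.Agent.GGS.Leib

/-!
# The second bound for products (paper, 8.5)

Induct on `Pd`.  For a covering pair `(I, J)` of `L` (`dif_covers`): if `dif I l 1 ≠ 0` then
`r a ≤ flw I * √b ^ (1 - fld I)` (if `I` has no deep element then `√b ≤ flh L ≤ flh I = flw I` and
`r a ≤ b = √b * √b`), and if `dif J f 1 ≠ 0` then `wt r u ≤ flw J * √b ^ (u.length - fld J)`; multiply and use
`covers_deep` with `q = √b`.
-/

namespace Pool.Agent.GGS

universe u

open Ser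

variable {p : ℕ} {G : Type u} [Group G]

/-- products `l₁ ⋯ l_k` of left `V`-invariant functions with `dif L l_i 1 = 0` for `wl w L < r a_i`
(`u = [a₁, …, a_k]`) -/
inductive Pd (w : WG p G) (V : Subgroup G) {Z : Type} (r : Z → ℝ) :
    List Z → (G → ZMod p) → Prop
  | nil : Pd w V r [] (fun _ => 1)
  | cons {a : Z} {u : List Z} {l f : G → ZMod p} (hV : ∀ v ∈ V, ∀ h, l (v * h) = l h)
      (hl : ∀ L, wl w L < r a → dif L l 1 = 0) (hf : Pd w V r u f) :
      Pd w V r (a :: u) (fun h => l h * f h)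

theorem wl_le_flw (w : WG p G) (L : FL G) (hL : ∀ x ∈ L, w.W x.1 ≤ x.2.1) :
    wl w (L.map fun x => x.1) ≤ flw L := by
  induction L with
  | nil => simp [flw]
  | cons x L ih =>
    have h1 := ih fun y hy => hL y (List.mem_cons_of_mem _ hy)
    have h2 := hL x List.mem_cons_self
    rw [List.map_cons, wl_cons, flw, List.map_cons, List.prod_cons]
    exact mul_le_mul h2 h1 (wl_nonneg w _) ((w.nonneg _).trans h2)

theorem flw_eq_flh (L : FL G) (h : fld L = 0) : flw L = flh L := by
  have h1 : ∀ x ∈ L, x.2.2 = false := by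
    intro x hx
    have h2 : L.filter (fun x => x.2.2) = [] := List.length_eq_zero_iff.mp h
    by_contra h3
    have h4 : x ∈ L.filter (fun x => x.2.2) := List.mem_filter.mpr ⟨hx, by simpa using h3⟩
    rw [h2] at h4
    exact absurd h4 (by simp)
  unfold flw flh
  refine congrArg List.prod (List.map_congr_left fun x hx => ?_)
  rw [h1 x hx]; simp

/-- `bound2` for products -/
theorem bound2_Pd (w : WG p G) {V : Subgroup G} {Z : Type} {r : Z → ℝ} (hr0 : ∀ a, 0 < r a)
    {u : List Z} {f : G → ZMod p} (hf : Pd w V r u f) (L : FL G) (b : ℝ)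
    (hb0 : 0 < b) (hb1 : b < 1) (hr : ∀ a, r a ≤ b)
    (hL : ∀ x ∈ L, w.W x.1 ≤ x.2.1 ∧ 0 < x.2.1 ∧ x.2.1 ≤ 1 ∧ (x.2.2 = true → x.2.1 ≤ b))
    (hh : √b ≤ flh L) (hlt : flw L * √b ^ (u.length - fld L) < wt r u) :
    dif (L.map fun x => x.1) f 1 = 0 := by
  have hs0 : 0 < √b := Real.sqrt_pos.mpr hb0
  have hs1 : √b ≤ 1 := by
    rw [Real.sqrt_le_one]; exact hb1.le
  have hss : √b * √b = b := Real.mul_self_sqrt hb0.le
  have hbs : b ≤ √b := by
    calc b = √b * √b := hss.symm
      _ ≤ √b * 1 := mul_le_mul_of_nonneg_left hs1 hs0.le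
      _ = √b := mul_one _
  induction hf generalizing L with
  | nil =>
    have hne : L ≠ [] := by
      rintro rfl
      simp [flw, wt] at hlt
    have := dif_const (G := G) (1 : ZMod p) (L.map fun x => x.1) (by simpa using hne)
    rw [this]; rfl
  | @cons a u l f hV hl hf ih =>
    refine dif_prod_zero _ _ _ _ _ fun c hc => ?_
    by_contra hcon
    push Not at hcon
    obtain ⟨hc1, hc2⟩ := hcon
    obtain ⟨hm1, hm2⟩ := covers_mem hc
    have hL1 : ∀ x ∈ c.1, w.W x.1 ≤ x.2.1 ∧ 0 < x.2.1 ∧ x.2.1 ≤ 1 ∧ (x.2.2 = true → x.2.1 ≤ b) :=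
      fun x hx => hL x (hm1 x hx)
    have hL2 : ∀ x ∈ c.2, w.W x.1 ≤ x.2.1 ∧ 0 < x.2.1 ∧ x.2.1 ≤ 1 ∧ (x.2.2 = true → x.2.1 ≤ b) :=
      fun x hx => hL x (hm2 x hx)
    have hfh : flh L ≤ flh c.1 ∧ flh L ≤ flh c.2 := by
      have := covers_prod L (fun x => if x.2.2 then 1 else x.2.1)
        (fun x hx => by
          split_ifs
          · exact zero_le_one
          · exact (hL x hx).2.1.le)
        (fun x hx => by
          split_ifs
          · exact le_rfl
          · exact (hL x hx).2.2.1) hc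
      exact this.2
    have e1 : r a ≤ flw c.1 := by
      by_contra h1
      push Not at h1
      exact hc1 (hl _ ((wl_le_flw w c.1 fun x hx => (hL1 x hx).1).trans_lt h1))
    have hf0 : 0 ≤ flw c.1 := (hr0 a).le.trans e1
    have e2 : r a ≤ flw c.1 * √b ^ (1 - fld c.1) := by
      rcases Nat.eq_zero_or_pos (fld c.1) with h0 | h0
      · rw [h0, Nat.sub_zero, pow_one]
        have h3 : √b ≤ flw c.1 := by
          rw [flw_eq_flh c.1 h0]; exact hh.trans hfh.1
        calc r a ≤ b := hr a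
          _ = √b * √b := hss.symm
          _ ≤ flw c.1 * √b := mul_le_mul_of_nonneg_right h3 hs0.le
      · have h3 : 1 - fld c.1 = 0 := by omega
        rw [h3, pow_zero, mul_one]; exact e1
    have e3 : wt r u ≤ flw c.2 * √b ^ (u.length - fld c.2) := by
      by_contra h1
      push Not at h1
      exact hc2 (ih c.2 hL2 (hh.trans hfh.2) h1)
    have hwu : 0 ≤ wt r u := by
      have : 0 < wt r u := wt_pos hr0 u
      exact this.le
    obtain ⟨d1, d2⟩ := covers_deep L (fun x => x.2.1) (fun x => x.2.2) hs0.le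
      (fun x hx => (hL x hx).2.1.le) (fun x hx => (hL x hx).2.2.1)
      (fun x hx h => ((hL x hx).2.2.2 h).trans hbs) hc
    change fld L ≤ fld c.1 + fld c.2 at d1
    change flw c.1 * flw c.2 ≤ flw L * √b ^ (fld c.1 + fld c.2 - fld L) at d2
    have hfL : 0 ≤ flw L := prod_nonneg_of L _ fun x hx => (hL x hx).2.1.le
    have e4 : wt r (a :: u) = r a * wt r u := by simp [wt]
    rw [e4, List.length_cons] at hlt
    refine absurd hlt (not_lt.mpr ?_)
    calc r a * wt r u ≤ (flw c.1 * √b ^ (1 - fld c.1)) * (flw c.2 * √b ^ (u.length - fld c.2)) :=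
          mul_le_mul e2 e3 hwu (mul_nonneg hf0 (pow_nonneg hs0.le _))
      _ = (flw c.1 * flw c.2) * √b ^ ((1 - fld c.1) + (u.length - fld c.2)) := by
          rw [pow_add]; ring
      _ ≤ (flw L * √b ^ (fld c.1 + fld c.2 - fld L)) *
            √b ^ ((1 - fld c.1) + (u.length - fld c.2)) :=
          mul_le_mul_of_nonneg_right d2 (pow_nonneg hs0.le _)
      _ = flw L * √b ^ ((fld c.1 + fld c.2 - fld L) +
            ((1 - fld c.1) + (u.length - fld c.2))) := by rw [pow_add]; ring
      _ ≤ flw L * √b ^ (u.length + 1 - fld L) :=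
          mul_le_mul_of_nonneg_left (pow_le_pow_of_le_one hs0.le hs1 (by omega)) hfL

end Pool.Agent.GGS
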