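import Pool.Agent.GGS.PresDef
import Pool.Agent.GGS.ChFin

/-!
# The cocycle: interface (paper, section 8)
-/

namespace Pool.Agent.GGS

universe u

open Ser

variable {p : ℕ} {G : Type u} [Group G] {w : WG p G}

/-- flagged lists: (group element, upper bound for its weight, deep?) -/
abbrev FL (G : Type u) := List (G × ℝ × Bool)

/-- the product of all bounds -/
def flw (L : FL G) : ℝ := (L.map fun x => x.2.1).prod

/-- the product of the bounds of the heavy elements -/
def flh (L : FL G) : ℝ := (L.map fun x => if x.2.2 then 1 else x.2.1).prod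

/-- the number of deep elements -/
def fld (L : FL G) : ℕ := (L.filter fun x => x.2.2).length

/-- The properties of the cocycle `K` (for words of length `≤ n` in `Z`). -/
structure Coc (Q : Pres p G w) (V : Subgroup G) {Z : Type} (χ : Z → G → ZMod p) (r : Z → ℝ)
    (n : ℕ) (K : Fhat p Q.X → G → List Z → ZMod p) : Prop where
  nil : ∀ g h, K g h [] = 1
  one : ∀ h u, u ≠ [] → u.length ≤ n → K 1 h u = 0
  mul : ∀ g g' h u, u.length ≤ n → K (g * g') h u =
    ∑ i ∈ Finset.range (u.length + 1), K g h (u.take i) * K g' (h * Q.π g) (u.drop i)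
  inv : ∀ g, ∀ v ∈ V, ∀ h u, u.length ≤ n → K g (v * h) u = K g h u
  lin_ker : 1 ≤ n → ∀ g, Q.π g = 1 → ∀ h a, K g h [a] = 0
  lin : 1 ≤ n → ∀ g, Q.π g ∈ V → ∀ a, K g 1 [a] = χ a (Q.π g)
  bound1 : ∀ g L u, u ≠ [] → u.length ≤ n → Wt Q.wx g * wl w L < wt r u →
    dif L (fun h => K g h u) 1 = 0
  bound2 : ∀ g (L : FL G) (b : ℝ) (u : List Z), 0 < b → b < 1 → (∀ a, r a ≤ b) →
    (∀ x ∈ L, w.W x.1 ≤ x.2.1 ∧ 0 < x.2.1 ∧ x.2.1 ≤ 1 ∧ (x.2.2 = true → x.2.1 ≤ b)) →
    √b ≤ flh L → u.length ≤ n → flw L * √b ^ (u.length - fld L) < wt r u →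
    dif (L.map fun x => x.1) (fun h => K g h u) 1 = 0
  cont : ∀ h u, u.length ≤ n → Continuous fun g => K g h u

end Pool.Agent.GGS
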