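import Pool.Agent.GGS.Interp
import Pool.Agent.GGS.ChainEx
import Pool.Agent.GGS.ChFin

/-!
# Extension of characters (paper, 7.1), dual form

Let `c > 0` with `ball c ≤ V`, `χ = 0` on `ball c`.  Chains `⊤ → V` (list `L`) and `V → ball c` (list `L'`), the chain
`⊤ → ball c` has the list `L' ++ L`.  By `chain_interp` there is a left `ball c`-invariant `s` with
`dif (mono (L' ++ L) (b, a)) s 1 = 0` for `a ≠ 0` and `= dif (mono L' b) χ 1` for `a = 0`.  For `a ≠ 0` the function
`dif (mono L a) s` vanishes on `V` (`chain_inj` for `V → ball c`), and `s = χ` on `V`.  Hence for `v ∈ V` the function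
`g ↦ s (v * g) - χ v` has the same values `dif (mono _ _) _ 1` as `s`, so it is `s` (`chain_inj`).
Vanishing: `pbw` for the chain `⊤ → ball c`.
-/

namespace Pool.Agent.GGS

universe u

variable {p : ℕ} {G : Type u} [Group G] (w : WG p G)

omit [Group G] in
theorem ext_mono_cons (x : G × ℝ) (L : List (G × ℝ)) (a : Fin (x :: L).length → Fin p) :
    mono (x :: L) a = List.replicate (a ⟨0, Nat.succ_pos _⟩ : ℕ) x.1 ++
      mono L (fun i => a ⟨i.1 + 1, Nat.succ_lt_succ i.2⟩) := by
  change List.flatMap (fun i : Fin (L.length + 1) =>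
    List.replicate (a i : ℕ) ((x :: L).get i).1) (List.finRange (L.length + 1)) = _
  rw [List.finRange_succ, List.flatMap_cons, List.flatMap_map]
  rfl

omit [Group G] in
theorem ext_mono_append : ∀ (L' L : List (G × ℝ)) (a : Fin (L' ++ L).length → Fin p),
    mono (L' ++ L) a =
      mono L' (fun i => a ⟨i.1, by rw [List.length_append]; exact lt_of_lt_of_le i.2 (by omega)⟩) ++
      mono L (fun i => a ⟨L'.length + i.1, by
        rw [List.length_append]; exact Nat.add_lt_add_left i.2 _⟩)
  | [], L, a => by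
    show mono L a = [] ++ mono L _
    rw [List.nil_append]
    congr 1
    funext i
    congr 1
    apply Fin.ext
    simp
  | x :: L', L, a => by
    have h := ext_mono_append L' L (fun i => a ⟨i.1 + 1, Nat.succ_lt_succ i.2⟩)
    rw [ext_mono_cons x L']
    show mono (x :: (L' ++ L)) a = _
    rw [ext_mono_cons x (L' ++ L), h, List.append_assoc]
    congr 2
    congr 1
    funext i
    congr 1
    apply Fin.ext
    simp only [List.length_cons]
    omega

omit [Group G] in
theorem ext_mono_nil (L : List (G × ℝ)) (a : Fin L.length → Fin p) (h : ∀ i, (a i : ℕ) = 0) :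
    mono L a = [] := by
  unfold mono
  rw [List.flatMap_eq_nil_iff]
  intro i _
  rw [h i]
  rfl

omit [Group G] in
theorem ext_mono_ne_nil (L : List (G × ℝ)) (a : Fin L.length → Fin p)
    (h : ¬ ∀ i, (a i : ℕ) = 0) : mono L a ≠ [] := by
  intro h0
  apply h
  intro i
  unfold mono at h0
  rw [List.flatMap_eq_nil_iff] at h0
  have := h0 i (List.mem_finRange i)
  rwa [List.replicate_eq_nil_iff] at this

omit [Group G] in
theorem ext_mono_mem (L : List (G × ℝ)) (a : Fin L.length → Fin p) {g : G}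
    (hg : g ∈ mono L a) : ∃ x ∈ L, x.1 = g := by
  unfold mono at hg
  rw [List.mem_flatMap] at hg
  obtain ⟨i, -, hi⟩ := hg
  exact ⟨L.get i, List.get_mem _ _, (List.eq_of_mem_replicate hi).symm⟩

omit [Group G] in
/-- the combination of two exponents -/
theorem ext_comb (L' L : List (G × ℝ)) (a₁ : Fin L'.length → Fin p) (a₂ : Fin L.length → Fin p) :
    ∃ a : Fin (L' ++ L).length → Fin p,
      (fun i : Fin L'.length => a ⟨i.1, by
        rw [List.length_append]; exact lt_of_lt_of_le i.2 (by omega)⟩) = a₁ ∧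
      (fun i : Fin L.length => a ⟨L'.length + i.1, by
        rw [List.length_append]; exact Nat.add_lt_add_left i.2 _⟩) = a₂ := by
  refine ⟨fun i => if h : i.1 < L'.length then a₁ ⟨i.1, h⟩ else a₂ ⟨i.1 - L'.length, by
    have := lt_of_lt_of_eq i.2 (List.length_append (as := L') (bs := L))
    omega⟩, ?_, ?_⟩
  · funext i
    exact _root_.dif_pos i.2
  · funext i
    have h : ¬ (L'.length + i.1 < L'.length) := by omega
    refine (_root_.dif_neg h).trans ?_
    congr 1
    apply Fin.ext
    simp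

theorem ext_dif_zero {V : Subgroup G} {M : Type*} [AddCommGroup M] {f : G → M}
    (hf : ∀ g ∈ V, f g = 0) : ∀ (l : List G), (∀ y ∈ l, y ∈ V) → ∀ g ∈ V, dif l f g = 0
  | [], _, g, hg => hf g hg
  | y :: l, hl, g, hg => by
    have hy : y ∈ V := hl y List.mem_cons_self
    have ih := ext_dif_zero hf l (fun z hz => hl z (List.mem_cons_of_mem _ hz))
    rw [dif_cons, ih _ (V.mul_mem hg hy), ih _ hg, sub_zero]

theorem ext_dif_trans {M : Type*} [AddCommGroup M] (f : G → M) (v : G) :
    ∀ (l : List G) (g : G), dif l (fun x => f (v * x)) g = dif l f (v * g)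
  | [], _ => rfl
  | y :: l, g => by
    rw [dif_cons, dif_cons, ext_dif_trans f v l, ext_dif_trans f v l, mul_assoc]

theorem ext_dif_char {V : Subgroup G} {χ : G → ZMod p}
    (hadd : ∀ u ∈ V, ∀ v ∈ V, χ (u * v) = χ u + χ v) : ∀ (l : List G), (∀ y ∈ l, y ∈ V) →
      ∀ z ∈ V, ∀ g ∈ V, dif (l ++ [z]) χ g = if l = [] then χ z else 0
  | [], _, z, hz, g, hg => by
    rw [List.nil_append, dif_cons, dif_nil, hadd g hg z hz, if_pos rfl]
    ring
  | y :: l, hl, z, hz, g, hg => by
    have hy : y ∈ V := hl y List.mem_cons_self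
    have ih := ext_dif_char hadd l (fun z hz => hl z (List.mem_cons_of_mem _ hz)) z hz
    rw [List.cons_append, dif_cons, ih _ (V.mul_mem hg hy), ih _ hg, sub_self,
      if_neg (List.cons_ne_nil _ _)]

theorem ext_char [Fact p.Prime] {V : Subgroup G} (hV : Op w V) {χ : G → ZMod p}
    (hχ : χ ∈ ChS w V) {r : ℝ} (hr : r ≤ 1) (h0 : ∀ u ∈ V, w.W u < r → χ u = 0) :
    ∃ s : G → ZMod p, (∀ v ∈ V, ∀ g, s (v * g) = χ v + s g) ∧ s 1 = 0 ∧
      ∀ L : List G, wl w L < r → dif L s 1 = 0 := by
  have hp : p.Prime := Fact.out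
  obtain ⟨t₁, ht₁, hV1⟩ := (op_iff w).1 hV
  obtain ⟨t₂, ht₂, hχ2⟩ := hχ
  have hadd : ∀ u ∈ V, ∀ v ∈ V, χ (u * v) = χ u + χ v := hχ2.2.1
  have hχ1 : χ 1 = 0 := by
    have := hadd 1 V.one_mem 1 V.one_mem
    rw [mul_one] at this
    simpa using this
  set c := min t₁ t₂ with hc
  have hc0 : 0 < c := lt_min ht₁ ht₂
  set C := w.ball c with hCdef
  have hCV : C ≤ V := (ball_mono w (min_le_left _ _)).trans hV1
  have hCχ : ∀ u ∈ C, χ u = 0 := by
    intro u hu
    refine hχ2.2.2 u (hCV hu) ?_
    exact ((w.mem_ball hc0.le).1 hu).trans (min_le_right _ _)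
  have hCop : Op w C := op_ball w hc0
  obtain ⟨L, hL⟩ := exists_chain w hV (le_top : V ≤ ⊤)
  obtain ⟨L', hL'⟩ := exists_chain w hCop hCV
  have hLL := chain_append w hL hL'
  classical
  -- the interpolation
  obtain ⟨s, hs1, -, hs3⟩ := chain_interp w hLL hCop (fun a =>
    if (∀ i : Fin L.length, ((a ⟨L'.length + i.1, by
      rw [List.length_append]; exact Nat.add_lt_add_left i.2 _⟩ : Fin p) : ℕ) = 0) then
      dif (mono L' (fun i => a ⟨i.1, by
        rw [List.length_append]; exact lt_of_lt_of_le i.2 (by omega)⟩)) χ 1 else 0)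
  have hval : ∀ (a₁ : Fin L'.length → Fin p) (a₂ : Fin L.length → Fin p),
      dif (mono L' a₁ ++ mono L a₂) s 1 =
        if (∀ i, (a₂ i : ℕ) = 0) then dif (mono L' a₁) χ 1 else 0 := by
    intro a₁ a₂
    obtain ⟨a, ha1, ha2⟩ := ext_comb L' L a₁ a₂
    have h := hs3 a
    rw [ext_mono_append] at h
    subst ha1 ha2
    exact h
  have hmV : ∀ a₁ : Fin L'.length → Fin p, ∀ y ∈ mono L' a₁, y ∈ V := by
    intro a₁ y hy
    obtain ⟨x, hx, rfl⟩ := ext_mono_mem L' a₁ hy
    exact (chain_mem w hL' x hx).1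
  -- nonzero exponents
  have hnz : ∀ a₂ : Fin L.length → Fin p, (¬ ∀ i, (a₂ i : ℕ) = 0) →
      ∀ g ∈ V, dif (mono L a₂) s g = 0 := by
    intro a₂ ha₂
    refine chain_inj w hL' hCop (dif (mono L a₂) s) ?_ ?_
    · intro v hv g _
      exact dif_left_inv hs1 _ v hv g
    · intro a₁
      rw [← dif_append, hval, if_neg ha₂]
  -- on `V`
  have hsχ : ∀ g ∈ V, s g = χ g := by
    have h1 : ∀ g ∈ V, (s - χ) g = 0 := by
      refine chain_inj w hL' hCop (s - χ) ?_ ?_
      · intro v hv g hg
        rw [Pi.sub_apply, Pi.sub_apply, hs1 v hv, hadd v (hCV hv) g hg, hCχ v hv, zero_add]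
      · intro a₁
        have h2 := hval a₁ (fun _ => ⟨0, hp.pos⟩)
        rw [if_pos (fun _ => rfl), ext_mono_nil L _ (fun _ => rfl), List.append_nil] at h2
        rw [dif_sub, Pi.sub_apply, h2, sub_self]
    intro g hg
    have := h1 g hg
    rw [Pi.sub_apply, sub_eq_zero] at this
    exact this
  refine ⟨s, ?_, ?_, ?_⟩
  · intro v hv
    have hconst : ∀ a₂ : Fin L.length → Fin p, ∀ g ∈ V,
        dif (mono L a₂) ((fun x : G => s (v * x)) - (fun _ : G => χ v) - s : G → ZMod p) g = 0 := by
      intro a₂ g hg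
      by_cases ha₂ : ∀ i, (a₂ i : ℕ) = 0
      · rw [ext_mono_nil L a₂ ha₂, dif_nil]
        simp only [Pi.sub_apply]
        rw [hsχ g hg, hsχ _ (V.mul_mem hv hg), hadd v hv g hg]
        ring
      · rw [dif_sub, dif_sub, dif_const _ _ (ext_mono_ne_nil L a₂ ha₂), sub_zero,
          Pi.sub_apply, ext_dif_trans, hnz a₂ ha₂ _ (V.mul_mem hv hg), hnz a₂ ha₂ g hg, sub_zero]
    have hzero : ∀ g ∈ (⊤ : Subgroup G), ((fun x : G => s (v * x)) - (fun _ : G => χ v) - s : G → ZMod p) g = 0 := by
      refine chain_inj w hLL hCop _ ?_ ?_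
      · intro u hu g _
        simp only [Pi.sub_apply]
        have h1 : v * (u * g) = (v * u * v⁻¹) * (v * g) := by group
        have h2 : v * u * v⁻¹ ∈ C := (ball_normal w c).conj_mem u hu v
        rw [h1, hs1 _ h2, hs1 u hu]
      · intro a
        rw [ext_mono_append, dif_append]
        exact ext_dif_zero (hconst _) _ (hmV _) 1 V.one_mem
    intro g
    have h1 := hzero g (Subgroup.mem_top g)
    simp only [Pi.sub_apply] at h1
    have h2 : s (v * g) = χ v + s g := by
      have h3 : s (v * g) - χ v - s g = 0 := h1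
      linear_combination h3
    exact h2
  · rw [hsχ 1 V.one_mem, hχ1]
  · intro l hl
    refine pbw w hLL hCop s (fun v hv g _ => hs1 v hv g) (wl w l) ?_ l
      (fun g _ => Subgroup.mem_top g) le_rfl
    intro a ha
    rw [← wl_mono w hLL, ext_mono_append, wl_append] at ha
    rw [ext_mono_append, hval]
    split_ifs with h2
    · rw [ext_mono_nil L _ h2, wl_nil, mul_one] at ha
      set a₁ : Fin L'.length → Fin p := fun i => a ⟨i.1, by
        rw [List.length_append]; exact lt_of_lt_of_le i.2 (by omega)⟩ with ha₁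
      have hm := hmV a₁
      rcases List.eq_nil_or_concat (mono L' a₁) with h3 | ⟨l', z, h3⟩
      · rw [h3, dif_nil, hχ1]
      · rw [List.concat_eq_append] at h3
        rw [h3] at hm ha ⊢
        have hz : z ∈ V := hm z (by simp)
        rw [ext_dif_char hadd l' (fun y hy => hm y (List.mem_append_left _ hy)) z hz 1 V.one_mem]
        split_ifs with h4
        · subst h4
          rw [List.nil_append, wl_cons, wl_nil, mul_one] at ha
          exact h0 z hz (lt_of_le_of_lt ha hl)
        · rfl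
    · rfl

end Pool.Agent.GGS
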