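import Pool.Agent.GGS.ActFil
import Pool.Agent.GGS.ChFin

/-!
# The Golod-Shafarevich inequality (paper, 5.3, 5.4)
-/

namespace Pool.Agent.GGS

universe u

open Ser

variable {p : ℕ} {G : Type u} [Group G] {w : WG p G}

/-- the right derivative `s_x(u) = s(u x)` -/
def rder {X : Type*} (x : X) (s : Ser p X) : Ser p X := fun u => s (u ++ [x])

theorem rder_mul {X : Type*} (x : X) (s s' : Ser p X) :
    rder x (s * s') = s * rder x s' + s' [] • rder x s := by
  ext u
  change (s * s') (u ++ [x]) = (s * rder x s') u + s' [] * s (u ++ [x])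
  rw [Ser.mul_apply, Ser.mul_apply, List.length_append, List.length_singleton,
    Finset.sum_range_succ]
  congr 1
  · refine Finset.sum_congr rfl fun i hi => ?_
    have hi' : i ≤ u.length := by have := Finset.mem_range.mp hi; omega
    rw [List.take_append_of_le_length hi', List.drop_append_of_le_length hi']
    rfl
  · have h1 : List.take (u.length + 1) (u ++ [x]) = u ++ [x] := by
      rw [List.take_of_length_le]; simp
    have h2 : List.drop (u.length + 1) (u ++ [x]) = [] := by
      rw [List.drop_eq_nil_iff]; simp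
    rw [h1, h2, mul_comm]

lemma rder_apply {X : Type*} (x : X) (s : Ser p X) (u : List X) : rder x s u = s (u ++ [x]) := rfl

/-- 5.3: the additive cocycle -/
theorem add_cocycle [Fact p.Prime] (Q : Pres p G w) {V : Subgroup G} (hV : Op w V) {t : ℝ}
    (ζ : Q.X → G → ZMod p) (hζ : ∀ x, ζ x ∈ Fil w V (t / Q.wx x)) :
    ∃ Z : Fhat p Q.X → G → ZMod p,
      (∀ x, Z (genF x) = ζ x) ∧ (∀ g g' h, Z (g * g') h = Z g h + Z g' (h * Q.π g)) ∧
      (∀ g, g ≠ 1 → Z g ∈ Fil w V (t / Wt Q.wx g)) ∧ (∀ h, Continuous fun g => Z g h) := by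
  classical
  obtain ⟨ev, eadd, emul, esmul, eone, erho, efil, k, ek⟩ := act_exists Q hV
  have ezero : ev 0 = 0 := by
    have := esmul 0 0
    rw [zero_smul, zero_smul] at this
    exact this
  have hinv : ∀ x, ζ x ∈ Inv p V := fun x => (hζ x).1
  set Z : Fhat p Q.X → Inv p V := fun g => ∑ x, ev (rder x (toSer g)) ⟨ζ x, hinv x⟩ with hZ
  have hfil : ∀ g : Fhat p Q.X, g ≠ 1 → ∀ x, (ev (rder x (toSer g)) ⟨ζ x, hinv x⟩).1 ∈
      Fil w V (t / Wt Q.wx g) := by
    intro g hg x
    have h1 : ∀ x, Q.wx x ≤ 1 := fun x => (Q.le_wm x).trans w.wm_lt.le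
    have hW : 0 < Wt Q.wx g := lt_of_le_of_ne (Wt_nonneg Q.pos g) fun h =>
      hg (Wt_eq_zero Q.pos h1 g h.symm)
    rcases eq_or_ne (rder x (toSer g)) 0 with h0 | h0
    · rw [h0, ezero]
      exact Submodule.zero_mem _
    · have h2 := efil (rder x (toSer g)) ⟨ζ x, hinv x⟩ (t / Q.wx x) h0 (hζ x)
      refine ⟨h2.1, fun L hL => h2.2 L (hL.trans ?_)⟩
      have ht : 0 ≤ t := by
        have h3 := (wl_nonneg w L).trans hL
        by_contra h4
        exact absurd h3 (not_le.mpr (div_neg_of_neg_of_pos (not_le.mp h4) hW))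
      rw [div_div]
      have hsw : sw Q.wx (rder x (toSer g)) ≤ Wt Q.wx g / Q.wx x := by
        rw [sw_le_iff Q.pos h1 _ (div_nonneg hW.le (Q.pos x).le)]
        intro u hu
        rw [le_div_iff₀ (Q.pos x)]
        have h5 : wt Q.wx (u ++ [x]) = wt Q.wx u * Q.wx x := by
          rw [wt_append]; simp [wt]
        rw [← h5]
        refine le_sw Q.pos h1 (toSer g - 1) ?_
        rw [Ser.sub_apply]
        have h6 : (1 : Ser p Q.X) (u ++ [x]) = 0 := by
          rw [Ser.one_def]; exact Ser.mon_ne (by simp)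
        rw [h6, sub_zero]
        exact hu
      have hpos : 0 < sw Q.wx (rder x (toSer g)) := by
        obtain ⟨u, hu⟩ : ∃ u, rder x (toSer g) u ≠ 0 := by
          by_contra h7
          push Not at h7
          exact h0 (Ser.ext h7)
        exact lt_of_lt_of_le (wt_pos Q.pos u) (le_sw Q.pos h1 _ hu)
      refine div_le_div_of_nonneg_left ht (mul_pos (Q.pos x) hpos) ?_
      rw [le_div_iff₀ (Q.pos x)] at hsw
      linarith
  refine ⟨fun g => (Z g).1, fun y => ?_, fun g g' h => ?_, fun g hg => ?_, fun h => ?_⟩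
  · have h1 : ∀ x, rder x (toSer (genF y : Fhat p Q.X)) = if x = y then 1 else 0 := by
      intro x
      rw [toSer_gen]
      ext u
      rw [rder_apply, Ser.add_apply]
      have h2 : (1 : Ser p Q.X) (u ++ [x]) = 0 := by
        rw [Ser.one_def]; exact Ser.mon_ne (by simp)
      rw [h2, zero_add]
      by_cases hxy : x = y
      · subst hxy
        rw [if_pos rfl]
        cases u with
        | nil => rw [List.nil_append, Ser.mon_self, Ser.one_nil]
        | cons a u =>
          rw [Ser.one_cons]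
          exact Ser.mon_ne (by simp)
      · rw [if_neg hxy, Ser.zero_apply]
        refine Ser.mon_ne ?_
        cases u with
        | nil => simpa using hxy
        | cons a u => simp
    have h3 : Z (genF y) = ⟨ζ y, hinv y⟩ := by
      rw [hZ]
      change ∑ x, ev (rder x (toSer (genF y))) ⟨ζ x, hinv x⟩ = _
      rw [Finset.sum_eq_single y]
      · rw [h1, if_pos rfl, eone]; rfl
      · intro x _ hx
        rw [h1, if_neg hx, ezero]; rfl
      · intro h; exact absurd (Finset.mem_univ y) h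
    change (Z (genF y)).1 = ζ y
    rw [h3]
  · have h1 : Z (g * g') = Z g + ev (toSer g) (Z g') := by
      rw [hZ]
      change ∑ x, ev (rder x (toSer (g * g'))) ⟨ζ x, hinv x⟩ =
        ∑ x, ev (rder x (toSer g)) ⟨ζ x, hinv x⟩ +
          ev (toSer g) (∑ x, ev (rder x (toSer g')) ⟨ζ x, hinv x⟩)
      rw [map_sum, ← Finset.sum_add_distrib]
      refine Finset.sum_congr rfl fun x _ => ?_
      rw [toSer_mul, rder_mul, toSer_nil, one_smul, eadd, emul, LinearMap.add_apply,
        Module.End.mul_apply, add_comm]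
    change (Z (g * g')).1 h = (Z g).1 h + (Z g').1 (h * Q.π g)
    rw [h1, ← erho g (Z g') h]
    rfl
  · change (Z g).1 ∈ Fil w V (t / Wt Q.wx g)
    rw [hZ]
    change ((∑ x, ev (rder x (toSer g)) ⟨ζ x, hinv x⟩ : Inv p V) : G → ZMod p) ∈ _
    rw [Submodule.coe_sum]
    exact Submodule.sum_mem _ fun x _ => hfil g hg x
  · rw [continuous_def]
    intro s _
    refine (isClopen_of_coeff (P := fun g => (Z g).1 h ∈ s) (k + 1) ?_).isOpen
    intro g g' hgg' hs
    have h1 : Z g' = Z g := by
      rw [hZ]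
      change ∑ x, ev (rder x (toSer g')) ⟨ζ x, hinv x⟩ = ∑ x, ev (rder x (toSer g)) ⟨ζ x, hinv x⟩
      refine Finset.sum_congr rfl fun x _ => ?_
      rw [ek (rder x (toSer g')) (rder x (toSer g))]
      intro u hu
      exact (hgg' (u ++ [x]) (by simpa using hu)).symm
    rw [h1]
    exact hs

/-- the cocycle is determined by its values on the generators -/
theorem cocycle_unique (Q : Pres p G w) (Z Z' : Fhat p Q.X → G → ZMod p)
    (hZ : ∀ g g' h, Z (g * g') h = Z g h + Z g' (h * Q.π g))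
    (hZ' : ∀ g g' h, Z' (g * g') h = Z' g h + Z' g' (h * Q.π g))
    (hc : ∀ h, Continuous fun g => Z g h) (hc' : ∀ h, Continuous fun g => Z' g h)
    (hx : ∀ x, Z (genF x) = Z' (genF x)) : Z = Z' := by
  have one : ∀ (Z : Fhat p Q.X → G → ZMod p),
      (∀ g g' h, Z (g * g') h = Z g h + Z g' (h * Q.π g)) → ∀ h, Z 1 h = 0 := by
    intro Z hZ h
    have h1 := hZ 1 1 h
    rw [mul_one, map_one, mul_one] at h1
    exact left_eq_add.mp h1
  have inv : ∀ (Z : Fhat p Q.X → G → ZMod p),
      (∀ g g' h, Z (g * g') h = Z g h + Z g' (h * Q.π g)) → ∀ g h,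
      Z g⁻¹ h = - Z g (h * (Q.π g)⁻¹) := by
    intro Z hZ g h
    have h1 := hZ g g⁻¹ (h * (Q.π g)⁻¹)
    rw [mul_inv_cancel, one Z hZ, inv_mul_cancel_right] at h1
    exact (neg_eq_of_add_eq_zero_right h1.symm).symm
  have key : ∀ g, ∀ h, Z g h = Z' g h := by
    intro g
    refine Fhat_induction (P := fun g => ∀ h, Z g h = Z' g h) ?_ ?_ ?_ ?_ ?_ g
    · have e : {g : Fhat p Q.X | ∀ h, Z g h = Z' g h} = ⋂ h, {g | Z g h = Z' g h} := by
        ext g; simp
      rw [e]
      exact isClosed_iInter fun h => isClosed_eq (hc h) (hc' h)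
    · intro h; rw [one Z hZ, one Z' hZ']
    · intro x h; rw [hx x]
    · intro g g' h1 h2 h; rw [hZ, hZ', h1, h2]
    · intro g h1 h; rw [inv Z hZ, inv Z' hZ', h1]
  funext g h
  exact key g h

end Pool.Agent.GGS
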