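import Pool.Agent.GGS.CocM
import Pool.Agent.GGS.CocB
import Pool.Agent.GGS.CocDef
import Pool.Agent.GGS.ExtCh
import Pool.Agent.GGS.ActFil
import Pool.Agent.GGS.GSIa

/-!
# Existence of the cocycle (paper, section 8)

`M` = functions `κ : G → List Z → ZMod p`, left `V`-invariant in `G` and vanishing on words of length `> n`.
`(L_x κ) h (a :: u) = κ (h ξ_x) (a :: u) + ζ_{x,a}(h) κ (h ξ_x) u`, `(L_x κ) h [] = κ (h ξ_x) []`, where
`ζ_{x,a}(h) = s_a(h ξ_x) - s_a(h)`, `s_a` from `ext_char`.  The words of large length in the `L_x - 1` vanish because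
`L_x - 1` maps `M_t` to `M_{w_x t}`, `M_t = {κ | dif L (κ · u) 1 = 0 if t * wl w L < wt r u}`; so `evs` applies and
`K g = L_g 1`.  The linear part is found by `Fhat_induction`; products are handled by `Pd_stable`.
-/

namespace Pool.Agent.GGS

universe u

open Ser

variable {p : ℕ} {G : Type u} [Group G] {w : WG p G}

/-! ### the Leibniz rule -/

lemma cocA_leib (w : WG p G) (L : List G) : ∀ f f' : G → ZMod p,
    (∀ I J, wl w I * wl w J ≤ wl w L → dif I f 1 = 0 ∨ dif J f' 1 = 0) →
    dif L (fun h => f h * f' h) 1 = 0 := by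
  induction L using List.reverseRecOn with
  | nil =>
    intro f f' h
    rcases h [] [] (by simp) with h | h
    · show f 1 * f' 1 = 0
      rw [show f 1 = 0 from h, zero_mul]
    · show f 1 * f' 1 = 0
      rw [show f' 1 = 0 from h, mul_zero]
  | append_singleton L h0 ih =>
    intro f f' h
    have hW0 := w.nonneg h0
    have hW1 := W_le_one w h0
    have e : dif [h0] (fun h => f h * f' h) = (fun h => dif [h0] f h * f' h) +
        (fun h => f h * dif [h0] f' h) + (fun h => dif [h0] f h * dif [h0] f' h) := by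
      funext g
      simp only [dif_cons, dif_nil, Pi.add_apply]
      ring
    have hwl : ∀ I : List G, wl w (I ++ [h0]) = wl w I * w.W h0 := by
      intro I
      rw [wl_append, wl_cons, wl_nil, mul_one]
    have h1 : dif L (fun h => dif [h0] f h * f' h) 1 = 0 := by
      refine ih _ _ fun I J hIJ => ?_
      rw [← dif_append]
      refine h _ _ ?_
      rw [hwl, hwl, mul_right_comm]
      exact mul_le_mul_of_nonneg_right hIJ hW0
    have h2 : dif L (fun h => f h * dif [h0] f' h) 1 = 0 := by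
      refine ih _ _ fun I J hIJ => ?_
      rw [← dif_append]
      refine h _ _ ?_
      rw [hwl, hwl, ← mul_assoc]
      exact mul_le_mul_of_nonneg_right hIJ hW0
    have h3 : dif L (fun h => dif [h0] f h * dif [h0] f' h) 1 = 0 := by
      refine ih _ _ fun I J hIJ => ?_
      rw [← dif_append, ← dif_append]
      refine h _ _ ?_
      rw [hwl, hwl, hwl]
      calc wl w I * w.W h0 * (wl w J * w.W h0) = (wl w I * wl w J) * (w.W h0 * w.W h0) := by ring
        _ ≤ wl w L * (w.W h0 * 1) :=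
          mul_le_mul hIJ (mul_le_mul_of_nonneg_left hW1 hW0) (mul_nonneg hW0 hW0) (wl_nonneg w L)
        _ = wl w L * w.W h0 := by ring
    rw [dif_append, e, dif_add, dif_add, Pi.add_apply, Pi.add_apply, h1, h2, h3]
    ring

/-! ### series modulo long words -/

section eqn
variable {Z : Type}

/-- equality on the words of length `≤ n` -/
def cocA_eq (n : ℕ) (f g : Ser p Z) : Prop := ∀ u : List Z, u.length ≤ n → f u = g u

lemma cocA_eq_mul {n : ℕ} {f f' g g' : Ser p Z} (h : cocA_eq n f f') (h' : cocA_eq n g g') :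
    cocA_eq n (f * g) (f' * g') := by
  intro u hu
  rw [mul_apply, mul_apply]
  refine Finset.sum_congr rfl fun i _ => ?_
  rw [h _ (by rw [List.length_take]; omega), h' _ (by rw [List.length_drop]; omega)]

lemma cocA_eq_trans {n : ℕ} {f g h : Ser p Z} (h1 : cocA_eq n f g) (h2 : cocA_eq n g h) :
    cocA_eq n f h := fun u hu => (h1 u hu).trans (h2 u hu)

lemma cocA_eq_symm {n : ℕ} {f g : Ser p Z} (h1 : cocA_eq n f g) : cocA_eq n g f :=
  fun u hu => (h1 u hu).symm

lemma cocA_eq_refl {n : ℕ} (f : Ser p Z) : cocA_eq n f f := fun _ _ => rfl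

lemma cocA_cancel {n : ℕ} {f y y' : Ser p Z} (hf : f [] = 1) (h : cocA_eq n (f * y) (f * y')) :
    cocA_eq n y y' := by
  have key : ∀ m, ∀ u : List Z, u.length < m → u.length ≤ n → y u = y' u := by
    intro m
    induction m with
    | zero => intro u hu; omega
    | succ m ih =>
      intro u hu hn
      have h1 := h u hn
      rw [mul_apply, mul_apply, Finset.sum_range_succ', Finset.sum_range_succ'] at h1
      have h2 : ∑ i ∈ Finset.range u.length, f (u.take (i + 1)) * y (u.drop (i + 1)) =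
          ∑ i ∈ Finset.range u.length, f (u.take (i + 1)) * y' (u.drop (i + 1)) := by
        refine Finset.sum_congr rfl fun i hi => ?_
        rw [Finset.mem_range] at hi
        rw [ih _ (by rw [List.length_drop]; omega) (by rw [List.length_drop]; omega)]
      rw [h2] at h1
      simpa [hf] using h1
  exact fun u hu => key (u.length + 1) u (Nat.lt_succ_self _) hu

/-- `1 + ∑ z_a a` -/
def cocA_k (z : Z → ZMod p) : Ser p Z := fun u =>
  match u with
  | [] => 1
  | [a] => z a
  | _ :: _ :: _ => 0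

/-- the truncated product `(1 + ∑ z_a a) f` -/
def cocA_t (n : ℕ) (z : Z → ZMod p) (f : Ser p Z) : Ser p Z := fun u =>
  match u with
  | [] => f []
  | a :: u' => if u'.length < n then f (a :: u') + z a * f u' else 0

lemma cocA_k_mul (z : Z → ZMod p) (f : Ser p Z) (a : Z) (u : List Z) :
    (cocA_k z * f) (a :: u) = f (a :: u) + z a * f u := by
  have h : lder a (cocA_k z) = z a • (1 : Ser p Z) := by
    ext v
    cases v with
    | nil =>
      show z a = z a * (1 : Ser p Z) []
      rw [one_nil, mul_one]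
    | cons b v =>
      show (0 : ZMod p) = z a * (1 : Ser p Z) (b :: v)
      rw [one_cons, mul_zero]
  rw [mul_cons, h, smul_mul', one_mul, smul_apply]
  show 1 * f (a :: u) + _ = _
  rw [one_mul]

lemma cocA_t_eq (n : ℕ) (z : Z → ZMod p) (f : Ser p Z) :
    cocA_eq n (cocA_t n z f) (cocA_k z * f) := by
  intro u hu
  cases u with
  | nil =>
    rw [mul_nil]
    show f [] = 1 * f []
    rw [one_mul]
  | cons a u =>
    rw [cocA_k_mul]
    show (if u.length < n then f (a :: u) + z a * f u else 0) = _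
    rw [if_pos (by simpa using hu)]

end eqn

/-! ### locally constant predicates -/

lemma cocA_closed (Q : Pres p G w) (k : ℕ) {t : ℝ} (ht : 0 < t) {P : Fhat p Q.X → Prop}
    (h : ∀ g g' : Fhat p Q.X, (∀ u : List Q.X, u.length < k → toSer g u = toSer g' u) →
      (Q.π g)⁻¹ * Q.π g' ∈ w.ball t → P g → P g') : IsClosed {g | P g} := by
  rw [← isOpen_compl_iff, isOpen_iff_mem_nhds]
  intro g0 hg0
  have hU1 : IsOpen {g : Fhat p Q.X | ∀ u : List Q.X, u.length < k → toSer g0 u = toSer g u} :=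
    (isClopen_of_coeff k fun g g' hgg' hg u hu => (hg u hu).trans (hgg' u hu)).isOpen
  have hU2 : IsOpen {g : Fhat p Q.X | (Q.π g0)⁻¹ * Q.π g ∈ w.ball t} :=
    isOpen_preimage Q (op_ball w ht) _
  refine Filter.mem_of_superset (Filter.inter_mem
    (hU1.mem_nhds (show ∀ u : List Q.X, u.length < k → toSer g0 u = toSer g0 u from
      fun _ _ => rfl))
    (hU2.mem_nhds (show (Q.π g0)⁻¹ * Q.π g0 ∈ w.ball t by
      rw [inv_mul_cancel]; exact (w.ball t).one_mem))) ?_
  rintro g ⟨h1, h2⟩ h3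
  refine hg0 (h g g0 (fun u hu => (h1 u hu).symm) ?_ h3)
  have h4 := (w.ball t).inv_mem h2
  rwa [mul_inv_rev, inv_inv] at h4

lemma cocA_inv {V : Subgroup G} {t : ℝ} (ht : 0 < t) (hV : ∀ g, w.W g ≤ t → g ∈ V) {A : Type*}
    {f : G → A} (hf : ∀ v ∈ V, ∀ h, f (v * h) = f h) {a b : G} (hab : a⁻¹ * b ∈ w.ball t) (h : G) :
    f (h * a) = f (h * b) := by
  have h4 : (h * a) * (a⁻¹ * b) * (h * a)⁻¹ ∈ w.ball t := (ball_normal w t).conj_mem _ hab _
  have h5 : h * b = ((h * a) * (a⁻¹ * b) * (h * a)⁻¹) * (h * a) := by group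
  rw [h5, hf _ (hV _ ((w.mem_ball ht.le).1 h4))]

/-! ### the space and the operators -/

/-! ### products -/

lemma cocA_Pd_shift (w : WG p G) {V : Subgroup G} {Z : Type} (r : Z → ℝ) (x : G) {u : List Z}
    {f : G → ZMod p} (hf : Pd w V r u f) : Pd w V r u (fun h => f (h * x)) := by
  induction hf with
  | nil => exact Pd.nil
  | @cons a u l f hV hl hf ih =>
    refine Pd.cons (l := fun h => l (h * x)) (fun v hv h => ?_) (fun L hL => ?_) ih
    · rw [mul_assoc, hV v hv]
    · have e : (fun h => l (h * x)) = dif [x] l + l := by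
        funext h
        simp only [Pi.add_apply, dif_cons, dif_nil]
        ring
      rw [e, dif_add, Pi.add_apply, hl L hL, add_zero, ← dif_append]
      apply hl
      rw [wl_append, wl_cons, wl_nil, mul_one]
      exact (mul_le_of_le_one_right (wl_nonneg w L) (W_le_one w x)).trans_lt hL

/-- stability of products -/
theorem Pd_stable (w : WG p G) {V : Subgroup G} {Z : Type} (r : Z → ℝ)
    (x : G) {u : List Z} {f : G → ZMod p}
    (hf : f ∈ Submodule.span (ZMod p) {f | Pd w V r u f}) :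
    (fun h => f (h * x)) ∈ Submodule.span (ZMod p) {f | Pd w V r u f} := by
  induction hf using Submodule.span_induction with
  | mem f hf => exact Submodule.subset_span (cocA_Pd_shift w r x hf)
  | zero => exact Submodule.zero_mem _
  | add f g _ _ hf hg => exact Submodule.add_mem _ hf hg
  | smul c f _ hf => exact Submodule.smul_mem _ c hf

lemma cocA_Pd_cons (w : WG p G) {V : Subgroup G} {Z : Type} (r : Z → ℝ) (u : List Z) (a : Z)
    {z : G → ZMod p} (hz1 : ∀ v ∈ V, ∀ h, z (v * h) = z h)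
    (hz2 : ∀ L, wl w L < r a → dif L z 1 = 0)
    {f : G → ZMod p} (hf : f ∈ Submodule.span (ZMod p) {f | Pd w V r u f}) :
    (fun h => z h * f h) ∈ Submodule.span (ZMod p) {f | Pd w V r (a :: u) f} := by
  induction hf using Submodule.span_induction with
  | mem f hf => exact Submodule.subset_span (Pd.cons hz1 hz2 hf)
  | zero =>
    have e : (fun h => z h * (0 : G → ZMod p) h) = 0 := by
      funext h
      exact mul_zero _
    rw [e]
    exact Submodule.zero_mem _
  | add f g _ _ hf hg =>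
    have e : (fun h => z h * (f + g) h) = (fun h => z h * f h) + fun h => z h * g h := by
      funext h
      simp only [Pi.add_apply]
      ring
    rw [e]
    exact Submodule.add_mem _ hf hg
  | smul c f _ hf =>
    have e : (fun h => z h * (c • f) h) = c • fun h => z h * f h := by
      funext h
      simp only [Pi.smul_apply, smul_eq_mul]
      ring
    rw [e]
    exact Submodule.smul_mem _ c hf

section M

/-- left `V`-invariant functions to the series with words of length `≤ n` -/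
def cocA_M (p : ℕ) (V : Subgroup G) (Z : Type) (n : ℕ) : Submodule (ZMod p) (G → Ser p Z) where
  carrier := {κ | (∀ v ∈ V, ∀ h, κ (v * h) = κ h) ∧ ∀ h u, n < u.length → κ h u = 0}
  add_mem' := fun {a b} ha hb => ⟨fun v hv h => by
      rw [Pi.add_apply, Pi.add_apply, ha.1 v hv, hb.1 v hv],
    fun h u hu => by
      rw [Pi.add_apply, Ser.add_apply, ha.2 h u hu, hb.2 h u hu, add_zero]⟩
  zero_mem' := ⟨fun _ _ _ => rfl, fun _ _ _ => rfl⟩
  smul_mem' := fun c f hf => ⟨fun v hv h => by
      rw [Pi.smul_apply, Pi.smul_apply, hf.1 v hv],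
    fun h u hu => by
      rw [Pi.smul_apply, Ser.smul_apply, hf.2 h u hu, mul_zero]⟩

variable (Q : Pres p G w) (V : Subgroup G) {Z : Type} (n : ℕ) (ζ : Q.X → Z → Inv p V)

/-- the operator `L_x` -/
noncomputable def cocA_T (x : Q.X) : Module.End (ZMod p) (cocA_M p V Z n) where
  toFun κ := ⟨fun h => cocA_t n (fun a => (ζ x a).1 h) (κ.1 (h * Q.ξ x)), by
    constructor
    · intro v hv h
      show cocA_t n (fun a => (ζ x a).1 (v * h)) (κ.1 (v * h * Q.ξ x)) = _
      have h1 : (fun a => (ζ x a).1 (v * h)) = fun a => (ζ x a).1 h := by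
        funext a
        exact (ζ x a).2 v hv h
      rw [h1, mul_assoc, κ.2.1 v hv]
    · intro h u hu
      cases u with
      | nil => simp at hu
      | cons a u =>
        show (if u.length < n then _ else (0 : ZMod p)) = 0
        rw [if_neg]
        simpa using hu⟩
  map_add' κ κ' := by
    refine Subtype.ext ?_
    funext h
    refine Ser.ext fun u => ?_
    cases u with
    | nil => rfl
    | cons a u =>
      show (if u.length < n then (κ.1 (h * Q.ξ x) (a :: u) + κ'.1 (h * Q.ξ x) (a :: u)) +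
        (ζ x a).1 h * (κ.1 (h * Q.ξ x) u + κ'.1 (h * Q.ξ x) u) else 0) =
        (if u.length < n then κ.1 (h * Q.ξ x) (a :: u) + (ζ x a).1 h * κ.1 (h * Q.ξ x) u else 0) +
        (if u.length < n then κ'.1 (h * Q.ξ x) (a :: u) + (ζ x a).1 h * κ'.1 (h * Q.ξ x) u else 0)
      split_ifs
      · ring
      · ring
  map_smul' c κ := by
    refine Subtype.ext ?_
    funext h
    refine Ser.ext fun u => ?_
    cases u with
    | nil => rfl
    | cons a u =>
      show (if u.length < n then c * κ.1 (h * Q.ξ x) (a :: u) +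
        (ζ x a).1 h * (c * κ.1 (h * Q.ξ x) u) else 0) =
        c * (if u.length < n then κ.1 (h * Q.ξ x) (a :: u) +
          (ζ x a).1 h * κ.1 (h * Q.ξ x) u else 0)
      split_ifs
      · ring
      · ring

lemma cocA_T_nil (x : Q.X) (κ : cocA_M p V Z n) (h : G) :
    (cocA_T Q V n ζ x κ).1 h [] = κ.1 (h * Q.ξ x) [] := rfl

lemma cocA_T_cons (x : Q.X) (κ : cocA_M p V Z n) (h : G) (a : Z) (u : List Z)
    (hu : u.length < n) : (cocA_T Q V n ζ x κ).1 h (a :: u) =
      κ.1 (h * Q.ξ x) (a :: u) + (ζ x a).1 h * κ.1 (h * Q.ξ x) u := by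
  show (if u.length < n then κ.1 (h * Q.ξ x) (a :: u) +
          (ζ x a).1 h * κ.1 (h * Q.ξ x) u else 0) = _
  rw [if_pos hu]

/-- the operators `L_x - 1` -/
noncomputable def cocA_N (x : Q.X) : Module.End (ZMod p) (cocA_M p V Z n) := cocA_T Q V n ζ x - 1

/-- the filtration -/
def cocA_F (w : WG p G) (V : Subgroup G) (n : ℕ) (r : Z → ℝ) (t : ℝ) :
    Submodule (ZMod p) (cocA_M p V Z n) where
  carrier := {κ | ∀ L u, t * wl w L < wt r u → dif L (fun h => κ.1 h u) 1 = 0}
  add_mem' := fun {a b} ha hb L u hL => by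
    have h1 := ha L u hL
    have h2 := hb L u hL
    show dif L ((fun h => a.1 h u) + (fun h => b.1 h u)) 1 = 0
    rw [dif_add, Pi.add_apply, h1, h2, add_zero]
  zero_mem' := fun L u _ => by
    show dif L (0 : G → ZMod p) 1 = 0
    rw [dif_zero]
    rfl
  smul_mem' := fun c f hf L u hL => by
    have h1 := hf L u hL
    show dif L (c • (fun h => f.1 h u)) 1 = 0
    rw [dif_smul, Pi.smul_apply, h1, smul_zero]

lemma cocA_F_mono (w : WG p G) (V : Subgroup G) (n : ℕ) (r : Z → ℝ) {s t : ℝ} (h : s ≤ t) :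
    cocA_F w V n r s ≤ cocA_F w V n r t := fun _ hκ L u hL =>
  hκ L u ((mul_le_mul_of_nonneg_right h (wl_nonneg w L)).trans_lt hL)

variable {Q V n ζ}

lemma cocA_F_N [Fact p.Prime] {r : Z → ℝ} (hr0 : ∀ a, 0 < r a)
    (hζ : ∀ x a, ∀ I, Q.wx x * wl w I < r a → dif I (ζ x a).1 1 = 0) {t : ℝ} (ht : 0 ≤ t)
    (x : Q.X) {κ : cocA_M p V Z n} (hκ : κ ∈ cocA_F w V n r t) :
    cocA_N Q V n ζ x κ ∈ cocA_F w V n r (Q.wx x * t) := by
  intro L u hL
  have hWx := actFil_W_xi Q x
  have hWx0 := w.nonneg (Q.ξ x)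
  have hwl : ∀ I : List G, wl w (I ++ [Q.ξ x]) = wl w I * w.W (Q.ξ x) := by
    intro I
    rw [wl_append, wl_cons, wl_nil, mul_one]
  have hA : ∀ u, Q.wx x * t * wl w L < wt r u →
      dif L (dif [Q.ξ x] fun h => κ.1 h u) 1 = 0 := by
    intro u hL
    rw [← dif_append]
    refine hκ _ _ (lt_of_le_of_lt ?_ hL)
    rw [hwl]
    calc t * (wl w L * w.W (Q.ξ x)) ≤ t * (wl w L * Q.wx x) :=
          mul_le_mul_of_nonneg_left (mul_le_mul_of_nonneg_left hWx (wl_nonneg w L)) ht
      _ = Q.wx x * t * wl w L := by ring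
  by_cases hn : n < u.length
  · have h0 : (fun h => (cocA_N Q V n ζ x κ).1 h u) = 0 := by
      funext h
      exact (cocA_N Q V n ζ x κ).2.2 h u hn
    rw [h0, dif_zero]
    rfl
  · cases u with
    | nil => exact hA [] hL
    | cons a u =>
      have hn' : u.length < n := by
        rw [List.length_cons] at hn
        omega
      have h0 : (fun h => (cocA_N Q V n ζ x κ).1 h (a :: u)) =
          (dif [Q.ξ x] fun h => κ.1 h (a :: u)) +
            fun h => (ζ x a).1 h * κ.1 (h * Q.ξ x) u := by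
        funext h
        show (cocA_T Q V n ζ x κ).1 h (a :: u) - κ.1 h (a :: u) = _
        rw [cocA_T_cons Q V n ζ x κ h a u hn']
        simp only [Pi.add_apply, dif_cons, dif_nil]
        ring
      rw [h0, dif_add, Pi.add_apply, hA _ hL, zero_add]
      refine cocA_leib w L _ _ fun I J hIJ => ?_
      by_contra hc
      push Not at hc
      obtain ⟨hc1, hc2⟩ := hc
      have hI : r a ≤ Q.wx x * wl w I := by
        by_contra hlt
        exact hc1 (hζ x a I (not_le.1 hlt))
      have hJ : wt r u ≤ t * wl w J := by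
        by_contra hlt
        rw [not_le] at hlt
        apply hc2
        have e : (fun h => κ.1 (h * Q.ξ x) u) =
            (dif [Q.ξ x] fun h => κ.1 h u) + fun h => κ.1 h u := by
          funext h
          simp only [Pi.add_apply, dif_cons, dif_nil]
          ring
        rw [e, dif_add, Pi.add_apply, hκ _ _ hlt, add_zero, ← dif_append]
        refine hκ _ _ (lt_of_le_of_lt ?_ hlt)
        rw [hwl]
        refine mul_le_mul_of_nonneg_left ?_ ht
        exact mul_le_of_le_one_right (wl_nonneg w J) (W_le_one w _)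
      have h1 : wt r (a :: u) = r a * wt r u := by simp [wt]
      rw [h1] at hL
      have h2 : r a * wt r u ≤ (Q.wx x * wl w I) * (t * wl w J) :=
        mul_le_mul hI hJ (wt_pos hr0 u).le (mul_nonneg (Q.pos x).le (wl_nonneg w I))
      have h3 : (Q.wx x * wl w I) * (t * wl w J) ≤ Q.wx x * t * wl w L := by
        calc (Q.wx x * wl w I) * (t * wl w J) = Q.wx x * t * (wl w I * wl w J) := by ring
          _ ≤ Q.wx x * t * wl w L :=
            mul_le_mul_of_nonneg_left hIJ (mul_nonneg (Q.pos x).le ht)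
      linarith

lemma cocA_F_word [Fact p.Prime] {r : Z → ℝ} (hr0 : ∀ a, 0 < r a)
    (hζ : ∀ x a, ∀ I, Q.wx x * wl w I < r a → dif I (ζ x a).1 1 = 0) {t : ℝ} (ht : 0 ≤ t)
    (v : List Q.X) {κ : cocA_M p V Z n} (hκ : κ ∈ cocA_F w V n r t) :
    (v.map (cocA_N Q V n ζ)).prod κ ∈ cocA_F w V n r (wt Q.wx v * t) := by
  induction v with
  | nil =>
    have : wt Q.wx [] * t = t := by simp [wt]
    rw [this]
    exact hκ
  | cons x v ih =>
    have h1 : wt Q.wx (x :: v) * t = Q.wx x * (wt Q.wx v * t) := by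
      simp [wt, mul_assoc]
    rw [h1, List.map_cons, List.prod_cons]
    exact cocA_F_N hr0 hζ (mul_nonneg (wt_pos Q.pos v).le ht) x ih

lemma cocA_nilW [Fact p.Prime] [Fintype Z] (hV : Op w V) {r : Z → ℝ} (hr0 : ∀ a, 0 < r a)
    (hr1 : ∀ a, r a ≤ 1)
    (hζ : ∀ x a, ∀ I, Q.wx x * wl w I < r a → dif I (ζ x a).1 1 = 0) :
    ∃ k, NilW (cocA_N Q V n ζ) k := by
  obtain ⟨a0, ha0, hsm⟩ := exists_small w hV
  obtain ⟨c, hc0, hc1, hc⟩ : ∃ c : ℝ, 0 < c ∧ c ≤ 1 ∧ ∀ a, c ≤ r a := by
    by_cases hZ : Nonempty Z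
    · obtain ⟨b, hb⟩ := Finite.exists_min r
      exact ⟨r b, hr0 b, hr1 b, hb⟩
    · exact ⟨1, one_pos, le_rfl, fun a => absurd ⟨a⟩ hZ⟩
  have hwt : ∀ u : List Z, c ^ u.length ≤ wt r u := by
    intro u
    induction u with
    | nil => simp [wt]
    | cons a u ih =>
      have h1 : wt r (a :: u) = r a * wt r u := by simp [wt]
      rw [h1, List.length_cons, pow_succ']
      exact mul_le_mul (hc a) ih (pow_nonneg hc0.le _) (hr0 a).le
  have hwt1 : ∀ u : List Z, wt r u ≤ 1 := by
    intro u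
    have := wt_le_pow hr0 hr1 u
    rwa [one_pow] at this
  have hpos : 0 < c ^ n * a0 := by positivity
  obtain ⟨k, hk⟩ := exists_pow_lt_of_lt_one hpos w.wm_lt
  refine ⟨k, fun v hv => ?_⟩
  refine LinearMap.ext fun κ => ?_
  have h0 : κ ∈ cocA_F w V n r (1 / a0) := by
    intro L u hL
    have h1 : wl w L ≤ a0 := by
      have h2 : 1 / a0 * wl w L < 1 := hL.trans_le (hwt1 u)
      rw [one_div, inv_mul_lt_iff₀ ha0, mul_one] at h2
      exact h2.le
    rw [hsm (fun h => κ.1 h u) (fun v hv g => by rw [κ.2.1 v hv]) L h1]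
    rfl
  have h1 := cocA_F_word hr0 hζ (by positivity : (0 : ℝ) ≤ 1 / a0) v h0
  set κ' := (v.map (cocA_N Q V n ζ)).prod κ with hκ'
  have hsmall : wt Q.wx v * (1 / a0) < c ^ n := by
    have h2 : wt Q.wx v ≤ w.wm ^ v.length := wt_le_pow Q.pos Q.le_wm v
    have h3 : w.wm ^ v.length ≤ w.wm ^ k := pow_le_pow_of_le_one w.wm_pos.le w.wm_lt.le hv
    have h4 : wt Q.wx v < c ^ n * a0 := (h2.trans h3).trans_lt hk
    rw [mul_one_div, div_lt_iff₀ ha0]
    exact h4
  refine Subtype.ext ?_
  funext h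
  refine Ser.ext fun u => ?_
  show κ'.1 h u = 0
  by_cases hn : n < u.length
  · exact κ'.2.2 h u hn
  · have hlt : ∀ L, wt Q.wx v * (1 / a0) * wl w L < wt r u := by
      intro L
      have h2 : c ^ n ≤ c ^ u.length := pow_le_pow_of_le_one hc0.le hc1 (not_lt.1 hn)
      have h3 : wt Q.wx v * (1 / a0) * wl w L ≤ wt Q.wx v * (1 / a0) :=
        mul_le_of_le_one_right (mul_nonneg (wt_pos Q.pos v).le (by positivity)) (wl_le_one w L)
      exact (h3.trans_lt hsmall).trans_le (h2.trans (hwt u))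
    have h2 := dif_base [] (fun h => κ'.1 h u) h
    rw [dif_nil] at h2
    rw [h2]
    have h3 : κ'.1 1 u = 0 := h1 [] u (hlt [])
    have h4 : dif [h] (fun h => κ'.1 h u) 1 = 0 := h1 [h] u (hlt [h])
    rw [h3, h4, add_zero]

/-! ### evaluation -/

/-- the action of the series -/
noncomputable def cocA_ev (Q : Pres p G w) (V : Subgroup G) {Z : Type} (n : ℕ)
    (ζ : Q.X → Z → Inv p V) (k : ℕ) (s : Ser p Q.X) : Module.End (ZMod p) (cocA_M p V Z n) :=
  evs (cocA_N Q V n ζ) k s

lemma cocA_ev_apply (k : ℕ) (s : Ser p Q.X) (κ : cocA_M p V Z n) :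
    cocA_ev Q V n ζ k s κ = ∑ m ∈ Finset.range k, ∑ u : Fin m → Q.X,
      s (List.ofFn u) • (((List.ofFn u).map (cocA_N Q V n ζ)).prod κ) := by
  unfold cocA_ev evs
  rw [LinearMap.sum_apply]
  refine Finset.sum_congr rfl fun n _ => ?_
  rw [LinearMap.sum_apply]
  rfl

lemma cocA_ev_mem (k : ℕ) (s : Ser p Q.X) {F : Submodule (ZMod p) (cocA_M p V Z n)}
    {κ : cocA_M p V Z n}
    (h : ∀ v : List Q.X, s v ≠ 0 → (v.map (cocA_N Q V n ζ)).prod κ ∈ F) :
    cocA_ev Q V n ζ k s κ ∈ F := by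
  rw [cocA_ev_apply]
  refine Submodule.sum_mem _ fun n _ => Submodule.sum_mem _ fun u _ => ?_
  by_cases h0 : s (List.ofFn u) = 0
  · rw [h0, zero_smul]
    exact Submodule.zero_mem _
  · exact Submodule.smul_mem _ _ (h _ h0)

lemma cocA_ev_gen [Fact p.Prime] {k : ℕ} (hk : NilW (cocA_N Q V n ζ) k) (x : Q.X) :
    cocA_ev Q V n ζ k (toSer (genF x)) = cocA_T Q V n ζ x := by
  have h1 : cocA_ev Q V n ζ k (1 + mon [x]) =
      cocA_ev Q V n ζ k 1 + cocA_ev Q V n ζ k (mon [x]) := evs_add _ _ _ _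
  have h2 : cocA_ev Q V n ζ k (1 : Ser p Q.X) = 1 := evs_one hk
  have h3 : cocA_ev Q V n ζ k (mon [x] : Ser p Q.X) = cocA_N Q V n ζ x := by
    refine (evs_mon hk [x]).trans ?_
    simp
  rw [toSer_gen, h1, h2, h3]
  unfold cocA_N
  abel

/-- the constant `1` -/
noncomputable def cocA_one (p : ℕ) (V : Subgroup G) (Z : Type) (n : ℕ) : cocA_M p V Z n :=
  ⟨fun _ => 1, fun _ _ _ => rfl, fun _ u hu => by
    cases u with
    | nil => simp at hu
    | cons a u => exact one_cons a u⟩

/-- the main property of the action -/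
lemma cocA_main [Fact p.Prime] (hV : Op w V) {k : ℕ} (hk : NilW (cocA_N Q V n ζ) k)
    (g : Fhat p Q.X) :
    (∀ (κ : cocA_M p V Z n) (h : G),
      (cocA_ev Q V n ζ k (toSer g) κ).1 h [] = κ.1 (h * Q.π g) []) ∧
    ∀ (κ : cocA_M p V Z n) (h : G), cocA_eq n ((cocA_ev Q V n ζ k (toSer g) κ).1 h)
      ((cocA_ev Q V n ζ k (toSer g) (cocA_one p V Z n)).1 h * κ.1 (h * Q.π g)) := by
  have hmulev : ∀ a b : Ser p Q.X, cocA_ev Q V n ζ k (a * b) =
      cocA_ev Q V n ζ k a * cocA_ev Q V n ζ k b := fun a b => evs_mul hk a b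
  have hone : cocA_ev Q V n ζ k (1 : Ser p Q.X) = 1 := evs_one hk
  refine Fhat_induction (P := fun g => (∀ (κ : cocA_M p V Z n) (h : G),
      (cocA_ev Q V n ζ k (toSer g) κ).1 h [] = κ.1 (h * Q.π g) []) ∧
    ∀ (κ : cocA_M p V Z n) (h : G), cocA_eq n ((cocA_ev Q V n ζ k (toSer g) κ).1 h)
      ((cocA_ev Q V n ζ k (toSer g) (cocA_one p V Z n)).1 h * κ.1 (h * Q.π g)))
    ?_ ?_ ?_ ?_ ?_ g
  · obtain ⟨t, ht, hVt⟩ := hV
    refine cocA_closed Q k ht fun g g' hgg hπ hP => ?_
    have e1 : cocA_ev Q V n ζ k (toSer g') = cocA_ev Q V n ζ k (toSer g) :=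
      (evs_congr _ _ hgg).symm
    have e2 : ∀ (κ : cocA_M p V Z n) (h : G), κ.1 (h * Q.π g') = κ.1 (h * Q.π g) :=
      fun κ h => (cocA_inv ht hVt κ.2.1 hπ h).symm
    refine ⟨fun κ h => ?_, fun κ h => ?_⟩
    · rw [e1, e2]
      exact hP.1 κ h
    · rw [e1, e2]
      exact hP.2 κ h
  · rw [toSer_one, map_one, hone]
    refine ⟨fun κ h => ?_, fun κ h => ?_⟩
    · rw [mul_one]
      rfl
    · rw [mul_one]
      show cocA_eq n (κ.1 h) ((1 : Ser p Z) * κ.1 h)
      rw [one_mul]
      exact cocA_eq_refl _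
  · intro x
    rw [cocA_ev_gen hk x]
    refine ⟨fun κ h => rfl, fun κ h => ?_⟩
    have h1 : cocA_eq n ((cocA_T Q V n ζ x κ).1 h)
        (cocA_k (fun a => (ζ x a).1 h) * κ.1 (h * Q.ξ x)) := cocA_t_eq n _ _
    have h2 : cocA_eq n ((cocA_T Q V n ζ x (cocA_one p V Z n)).1 h)
        (cocA_k (fun a => (ζ x a).1 h) * 1) := cocA_t_eq n _ _
    rw [mul_one] at h2
    exact cocA_eq_trans h1 (cocA_eq_symm (cocA_eq_mul h2 (cocA_eq_refl _)))
  · rintro g g' ⟨hg1, hg2⟩ ⟨hg1', hg2'⟩
    rw [toSer_mul, map_mul, hmulev]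
    refine ⟨fun κ h => ?_, fun κ h => ?_⟩
    · show (cocA_ev Q V n ζ k (toSer g) (cocA_ev Q V n ζ k (toSer g') κ)).1 h [] = _
      rw [hg1, hg1', mul_assoc]
    · show cocA_eq n ((cocA_ev Q V n ζ k (toSer g) (cocA_ev Q V n ζ k (toSer g') κ)).1 h)
        ((cocA_ev Q V n ζ k (toSer g) (cocA_ev Q V n ζ k (toSer g') (cocA_one p V Z n))).1 h * _)
      have h1 := hg2 (cocA_ev Q V n ζ k (toSer g') κ) h
      have h2 := hg2' κ (h * Q.π g)
      have h3 := hg2 (cocA_ev Q V n ζ k (toSer g') (cocA_one p V Z n)) h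
      have h4 := cocA_eq_trans h1 (cocA_eq_mul (cocA_eq_refl _) h2)
      rw [← mul_assoc] at h4
      have h5 := cocA_eq_mul h3 (cocA_eq_refl (κ.1 (h * (Q.π g * Q.π g'))))
      rw [← mul_assoc h] at h5 ⊢
      exact cocA_eq_trans h4 (cocA_eq_symm h5)
  · rintro g ⟨hg1, hg2⟩
    have hinv : cocA_ev Q V n ζ k (toSer g) * cocA_ev Q V n ζ k (toSer g⁻¹) = 1 := by
      rw [← hmulev, ← toSer_mul, mul_inv_cancel, toSer_one, hone]
    have hinv' : ∀ κ, cocA_ev Q V n ζ k (toSer g) (cocA_ev Q V n ζ k (toSer g⁻¹) κ) = κ :=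
      fun κ => congrArg (fun E : Module.End (ZMod p) (cocA_M p V Z n) => E κ) hinv
    rw [map_inv]
    refine ⟨fun κ h => ?_, fun κ h => ?_⟩
    · have h1 := hg1 (cocA_ev Q V n ζ k (toSer g⁻¹) κ) (h * (Q.π g)⁻¹)
      rw [hinv', inv_mul_cancel_right] at h1
      exact h1.symm
    · have h1 := hg2 (cocA_ev Q V n ζ k (toSer g⁻¹) κ) (h * (Q.π g)⁻¹)
      rw [hinv', inv_mul_cancel_right] at h1
      have h2 := hg2 (cocA_ev Q V n ζ k (toSer g⁻¹) (cocA_one p V Z n)) (h * (Q.π g)⁻¹)
      rw [hinv', inv_mul_cancel_right] at h2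
      have h3 := cocA_eq_mul h2 (cocA_eq_refl (κ.1 (h * (Q.π g)⁻¹)))
      have h4 : (cocA_one p V Z n).1 (h * (Q.π g)⁻¹) * κ.1 (h * (Q.π g)⁻¹) =
          κ.1 (h * (Q.π g)⁻¹) := one_mul _
      rw [h4, mul_assoc] at h3
      refine cocA_cancel (f := (cocA_ev Q V n ζ k (toSer g) (cocA_one p V Z n)).1
        (h * (Q.π g)⁻¹)) ?_ (cocA_eq_trans (cocA_eq_symm h1) h3)
      rw [hg1]
      exact one_nil

/-- the functions with values in the spans -/
def cocA_FS (w : WG p G) (V : Subgroup G) (n : ℕ) (r : Z → ℝ) :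
    Submodule (ZMod p) (cocA_M p V Z n) where
  carrier := {κ | ∀ u : List Z, u.length ≤ n → 
    (fun h => κ.1 h u) ∈ Submodule.span (ZMod p) {f | Pd w V r u f}}
  add_mem' := fun {_ _} ha hb u hu => Submodule.add_mem _ (ha u hu) (hb u hu)
  zero_mem' := fun _ _ => Submodule.zero_mem _
  smul_mem' := fun c _ hf u hu => Submodule.smul_mem _ c (hf u hu)

lemma cocA_FS_word [Fact p.Prime] {r : Z → ℝ}
    (hζ : ∀ x a, ∀ I, wl w I < r a → dif I (ζ x a).1 1 = 0) (v : List Q.X)
    {κ : cocA_M p V Z n} (hκ : κ ∈ cocA_FS w V n r) :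
    (v.map (cocA_N Q V n ζ)).prod κ ∈ cocA_FS w V n r := by
  induction v with
  | nil => exact hκ
  | cons x v ih =>
    rw [List.map_cons, List.prod_cons]
    set κ' := (v.map (cocA_N Q V n ζ)).prod κ with hκ'
    show cocA_T Q V n ζ x κ' - κ' ∈ cocA_FS w V n r
    refine Submodule.sub_mem _ ?_ ih
    intro u hu
    cases u with
    | nil => exact Pd_stable w r (Q.ξ x) (ih [] hu)
    | cons a u =>
      rw [List.length_cons] at hu
      have e : (fun h => (cocA_T Q V n ζ x κ').1 h (a :: u)) =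
          (fun h => κ'.1 (h * Q.ξ x) (a :: u)) + fun h => (ζ x a).1 h * κ'.1 (h * Q.ξ x) u := by
        funext h
        exact cocA_T_cons Q V n ζ x κ' h a u (by omega)
      rw [e]
      exact Submodule.add_mem _ (Pd_stable w r (Q.ξ x) (ih (a :: u) hu))
        (cocA_Pd_cons w r u a (ζ x a).2 (hζ x a)
          (Pd_stable w r (Q.ξ x) (ih u (by omega))))

end M

/-- The cocycle without `bound2`; instead of it the fact that for every `g` and every word `u` the function
`h ↦ K g h u` is a sum of products as in `Pd`. -/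
theorem coc_exists' [Fact p.Prime] (Q : Pres p G w) {V : Subgroup G} (hV : Op w V) {Z : Type}
    [Fintype Z] (χ : Z → G → ZMod p) (r : Z → ℝ) (hr0 : ∀ a, 0 < r a) (hr1 : ∀ a, r a ≤ 1)
    (hχ : ∀ a, χ a ∈ ChS w V) (hχr : ∀ a, ∀ u ∈ V, w.W u < r a → χ a u = 0) (n : ℕ) :
    ∃ K : Fhat p Q.X → G → List Z → ZMod p,
      (∀ g h, K g h [] = 1) ∧ (∀ h u, u ≠ [] → u.length ≤ n → K 1 h u = 0) ∧
      (∀ g g' h u, u.length ≤ n → K (g * g') h u =
        ∑ i ∈ Finset.range (u.length + 1), K g h (u.take i) * K g' (h * Q.π g) (u.drop i)) ∧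
      (∀ g, ∀ v ∈ V, ∀ h u, u.length ≤ n → K g (v * h) u = K g h u) ∧
      (1 ≤ n → ∀ g, Q.π g = 1 → ∀ h a, K g h [a] = 0) ∧
      (1 ≤ n → ∀ g, Q.π g ∈ V → ∀ a, K g 1 [a] = χ a (Q.π g)) ∧
      (∀ g L u, u ≠ [] → u.length ≤ n → Wt Q.wx g * wl w L < wt r u →
        dif L (fun h => K g h u) 1 = 0) ∧
      (∀ g u, u.length ≤ n → (fun h => K g h u) ∈ Submodule.span (ZMod p) {f | Pd w V r u f}) ∧
      (∀ h u, u.length ≤ n → Continuous fun g => K g h u) := by
  choose s hs1 hs2 hs3 using fun a => ext_char w hV (hχ a) (hr1 a) (hχr a)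
  set ζ : Q.X → Z → Inv p V := fun x a => ⟨fun h => s a (h * Q.ξ x) - s a h, fun v hv h => by
    show s a (v * h * Q.ξ x) - s a (v * h) = s a (h * Q.ξ x) - s a h
    rw [mul_assoc, hs1 a v hv, hs1 a v hv]
    ring⟩ with hζdef
  have hζ0 : ∀ x a, (ζ x a).1 = dif [Q.ξ x] (s a) := fun x a => rfl
  have hζ : ∀ x a, ∀ I, Q.wx x * wl w I < r a → dif I (ζ x a).1 1 = 0 := by
    intro x a I hI
    rw [hζ0, ← dif_append]
    apply hs3
    rw [wl_append, wl_cons, wl_nil, mul_one]
    calc wl w I * w.W (Q.ξ x) ≤ wl w I * Q.wx x :=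
          mul_le_mul_of_nonneg_left (actFil_W_xi Q x) (wl_nonneg w I)
      _ = Q.wx x * wl w I := mul_comm _ _
      _ < r a := hI
  have hζ' : ∀ x a, ∀ I, wl w I < r a → dif I (ζ x a).1 1 = 0 := by
    intro x a I hI
    refine hζ x a I (lt_of_le_of_lt ?_ hI)
    exact mul_le_of_le_one_left (wl_nonneg w I) (actFil_lt Q x).le
  obtain ⟨k, hk⟩ := cocA_nilW (Q := Q) (n := n) (ζ := ζ) hV hr0 hr1 hζ
  have hmain := fun g => cocA_main (Q := Q) (n := n) (ζ := ζ) hV hk g
  have hmulev : ∀ a b : Ser p Q.X, cocA_ev Q V n ζ k (a * b) =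
      cocA_ev Q V n ζ k a * cocA_ev Q V n ζ k b := fun a b => evs_mul hk a b
  have hone : cocA_ev Q V n ζ k (1 : Ser p Q.X) = 1 := evs_one hk
  set K : Fhat p Q.X → G → List Z → ZMod p := fun g h u =>
    (cocA_ev Q V n ζ k (toSer g) (cocA_one p V Z n)).1 h u with hK
  have hnil : ∀ g h, K g h [] = 1 := by
    intro g h
    show (cocA_ev Q V n ζ k (toSer g) (cocA_one p V Z n)).1 h [] = 1
    rw [(hmain g).1]
    exact one_nil
  have hone' : ∀ h u, u ≠ [] → K 1 h u = 0 := by
    intro h u hu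
    show (cocA_ev Q V n ζ k (toSer 1) (cocA_one p V Z n)).1 h u = 0
    rw [toSer_one, hone]
    cases u with
    | nil => exact absurd rfl hu
    | cons a u => exact one_cons a u
  have hmul : ∀ g g' h u, u.length ≤ n → K (g * g') h u =
      ∑ i ∈ Finset.range (u.length + 1), K g h (u.take i) * K g' (h * Q.π g) (u.drop i) := by
    intro g g' h u hu
    show (cocA_ev Q V n ζ k (toSer (g * g')) (cocA_one p V Z n)).1 h u = _
    rw [toSer_mul, hmulev]
    exact (hmain g).2 (cocA_ev Q V n ζ k (toSer g') (cocA_one p V Z n)) h u hu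
  have hlin : 1 ≤ n → ∀ (a : Z) (g : Fhat p Q.X), ∀ h, K g h [a] = s a (h * Q.π g) - s a h := by
    intro hn a g
    have hmul1 : ∀ g g' h, K (g * g') h [a] = K g h [a] + K g' (h * Q.π g) [a] := by
      intro g g' h
      rw [hmul g g' h [a] (by simpa using hn), List.length_singleton, Finset.sum_range_succ,
        Finset.sum_range_one]
      simp only [List.take_zero, List.drop_zero, hnil, one_mul]
      have e1 : [a].take 1 = [a] := rfl
      have e2 : [a].drop 1 = [] := rfl
      rw [e1, e2, hnil, mul_one, add_comm]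
    refine Fhat_induction (P := fun g => ∀ h, K g h [a] = s a (h * Q.π g) - s a h)
      ?_ ?_ ?_ ?_ ?_ g
    · obtain ⟨t, ht, hχt⟩ := hχ a
      obtain ⟨t', ht', hVt⟩ := hV
      refine cocA_closed Q k (lt_min ht ht') fun g g' hgg hπ hP h => ?_
      have e1 : cocA_ev Q V n ζ k (toSer g') = cocA_ev Q V n ζ k (toSer g) :=
        (evs_congr _ _ hgg).symm
      have e2 : s a (h * Q.π g') = s a (h * Q.π g) := by
        refine (cocA_inv (V := w.ball (min t t')) (lt_min ht ht')
          (fun g hg => (w.mem_ball (lt_min ht ht').le).2 hg) (fun v hv b => ?_) hπ h).symm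
        have hv' := (w.mem_ball (lt_min ht ht').le).1 hv
        have hvV : v ∈ V := hVt v (hv'.trans (min_le_right _ _))
        rw [hs1 a v hvV, hχt.2.2 v hvV (hv'.trans (min_le_left _ _)), zero_add]
      show (cocA_ev Q V n ζ k (toSer g') (cocA_one p V Z n)).1 h [a] = _
      rw [e1, e2]
      exact hP h
    · intro h
      rw [hone' h [a] (by simp), map_one, mul_one, sub_self]
    · intro x h
      show (cocA_ev Q V n ζ k (toSer (genF x)) (cocA_one p V Z n)).1 h [a] = _
      rw [cocA_ev_gen hk x, cocA_T_cons Q V n ζ x _ h a [] (Nat.lt_of_succ_le hn)]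
      have e1 : (cocA_one p V Z n).1 (h * Q.ξ x) [a] = 0 := one_cons a []
      have e2 : (cocA_one p V Z n).1 (h * Q.ξ x) [] = 1 := one_nil
      rw [e1, e2, zero_add, mul_one]
      rfl
    · intro g g' hg hg' h
      rw [hmul1, hg, hg', map_mul, mul_assoc]
      ring
    · intro g hg h
      have h1 := hmul1 g g⁻¹ (h * (Q.π g)⁻¹)
      rw [mul_inv_cancel, hone' _ [a] (by simp), hg, inv_mul_cancel_right] at h1
      rw [map_inv]
      linear_combination -h1
  refine ⟨K, hnil, fun h u hu _ => hone' h u hu, hmul, ?_, ?_, ?_, ?_, ?_, ?_⟩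
  · intro g v hv h u _
    show (cocA_ev Q V n ζ k (toSer g) (cocA_one p V Z n)).1 (v * h) u = _
    rw [(cocA_ev Q V n ζ k (toSer g) (cocA_one p V Z n)).2.1 v hv]
  · intro hn g hg h a
    rw [hlin hn a g h, hg, mul_one, sub_self]
  · intro hn g hg a
    rw [hlin hn a g 1, one_mul, hs2, sub_zero]
    have h1 := hs1 a _ hg 1
    rw [mul_one, hs2, add_zero] at h1
    exact h1
  · intro g L u hu _ hL
    have h1 : cocA_one p V Z n ∈ cocA_F w V n r 1 := by
      intro L u hL
      cases u with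
      | nil =>
        have h2 : L ≠ [] := by
          rintro rfl
          simp [wt] at hL
        have e : (fun h => (cocA_one p V Z n).1 h []) = fun _ => (1 : ZMod p) := by
          funext h
          exact one_nil
        rw [e, dif_const _ L h2]
        rfl
      | cons a u =>
        have e : (fun h => (cocA_one p V Z n).1 h (a :: u)) = 0 := by
          funext h
          exact one_cons a u
        rw [e, dif_zero]
        rfl
    have h2 : cocA_ev Q V n ζ k (toSer g - 1) (cocA_one p V Z n) ∈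
        cocA_F w V n r (Wt Q.wx g) := by
      refine cocA_ev_mem k _ fun v hv => ?_
      refine cocA_F_mono w V n r ?_ (cocA_F_word hr0 hζ zero_le_one v h1)
      rw [mul_one]
      exact le_sw Q.pos (fun x => (actFil_lt Q x).le) _ hv
    have h3 := h2 L u hL
    have e1 : cocA_ev Q V n ζ k (toSer g) =
        cocA_ev Q V n ζ k (toSer g - 1) + cocA_ev Q V n ζ k 1 := by
      have : toSer g = (toSer g - 1) + 1 := by abel
      conv_lhs => rw [this]
      exact evs_add _ _ _ _
    have e2 : (fun h => K g h u) =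
        fun h => (cocA_ev Q V n ζ k (toSer g - 1) (cocA_one p V Z n)).1 h u := by
      funext h
      show (cocA_ev Q V n ζ k (toSer g) (cocA_one p V Z n)).1 h u = _
      rw [e1, hone]
      show (cocA_ev Q V n ζ k (toSer g - 1) (cocA_one p V Z n)).1 h u +
        (cocA_one p V Z n).1 h u = _
      have e3 : (cocA_one p V Z n).1 h u = 0 := by
        cases u with
        | nil => exact absurd rfl hu
        | cons a u => exact one_cons a u
      rw [e3, add_zero]
    rw [e2]
    exact h3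
  · intro g u hu
    have h1 : cocA_one p V Z n ∈ cocA_FS w V n r := by
      intro u _
      cases u with
      | nil =>
        have e : (fun h => (cocA_one p V Z n).1 h []) = fun _ => (1 : ZMod p) := by
          funext h
          exact one_nil
        rw [e]
        exact Submodule.subset_span Pd.nil
      | cons a u =>
        have e : (fun h => (cocA_one p V Z n).1 h (a :: u)) = 0 := by
          funext h
          exact one_cons a u
        rw [e]
        exact Submodule.zero_mem _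
    have h2 : cocA_ev Q V n ζ k (toSer g) (cocA_one p V Z n) ∈ cocA_FS w V n r :=
      cocA_ev_mem k _ fun v _ => cocA_FS_word hζ' v h1
    exact h2 u hu
  · intro h u _
    refine IsLocallyConstant.continuous fun A => ?_
    refine (isClopen_of_coeff (P := fun g => K g h u ∈ A) k fun g g' hgg hg => ?_).isOpen
    have e1 : cocA_ev Q V n ζ k (toSer g') = cocA_ev Q V n ζ k (toSer g) :=
      (evs_congr _ _ hgg).symm
    show (cocA_ev Q V n ζ k (toSer g') (cocA_one p V Z n)).1 h u ∈ A
    rw [e1]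
    exact hg

end Pool.Agent.GGS
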