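import Pool.Agent.GGS.CocA
import Pool.Agent.GGS.CocB

/-!
# Existence of the cocycle
-/

namespace Pool.Agent.GGS

universe u

open Ser

variable {p : ℕ} {G : Type u} [Group G] {w : WG p G}

theorem coc_exists [Fact p.Prime] (Q : Pres p G w) {V : Subgroup G} (hV : Op w V) {Z : Type}
    [Fintype Z] (χ : Z → G → ZMod p) (r : Z → ℝ) (hr0 : ∀ a, 0 < r a) (hr1 : ∀ a, r a ≤ 1)
    (hχ : ∀ a, χ a ∈ ChS w V) (hχr : ∀ a, ∀ u ∈ V, w.W u < r a → χ a u = 0) (n : ℕ) :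
    ∃ K, Coc Q V χ r n K := by
  obtain ⟨K, h1, h2, h3, h4, h5, h6, h7, h8, h9⟩ := coc_exists' Q hV χ r hr0 hr1 hχ hχr n
  refine ⟨K, h1, h2, h3, h4, h5, h6, h7, ?_, h9⟩
  intro g L b u hb0 hb1 hrb hL hh hu hlt
  have h := h8 g u hu
  generalize (fun h => K g h u) = F at h
  induction h using Submodule.span_induction with
  | mem f hf => exact bound2_Pd w hr0 hf L b hb0 hb1 hrb hL hh hlt
  | zero => rw [dif_zero]; rfl
  | add f f' _ _ hf hf' => rw [dif_add, Pi.add_apply, hf, hf', add_zero]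
  | smul c f _ hf => rw [dif_smul, Pi.smul_apply, hf, smul_zero]

end Pool.Agent.GGS
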