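import Pool.Agent.GGS.PresDef
import Pool.Agent.GGS.Leib
import Pool.Agent.GGS.Fin

/-!
# The operators of the cocycle (paper, 8.1, 8.2)

`CM` = functions `κ : G → List Z → ZMod p`, left `V`-invariant in `G` and vanishing on words of length `> n`; for a
letter `x` of the presentation `(L_x κ) h (a :: u) = κ (h ξ_x) (a :: u) + ζ_{x,a}(h) κ (h ξ_x) u` (for `|u| < n`) and
`(L_x κ) h [] = κ (h ξ_x) []`.  `N_x = L_x - 1` maps `CMt t` to `CMt (w_x t)`: `dif L (κ(· ξ_x) - κ) 1 =
dif (L ++ [ξ_x]) κ 1` for the first part, and for the product `ζ_{x,a} κ(· ξ_x) u` use `dif_prod_zero`, `covers_prod`.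
All `κ ∈ CM` lie in `CMt T` for large `T` (`exists_small`: `dif L (κ · u) = 0` for `wl w L ≤ a₀`), and `CMt t` is `0` for
small `t`; so long words in the `N_x` vanish and `ev s = evs N k s`.
-/

namespace Pool.Agent.GGS

universe u

open Ser

variable {p : ℕ} {G : Type u} [Group G] {w : WG p G}

/-- the space on which the letters act -/
def CM (p : ℕ) (V : Subgroup G) (Z : Type) (n : ℕ) : Submodule (ZMod p) (G → List Z → ZMod p) where
  carrier := {κ | (∀ v ∈ V, ∀ h u, κ (v * h) u = κ h u) ∧ ∀ h u, n < u.length → κ h u = 0}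
  add_mem' := fun {a b} ha hb => ⟨fun v hv h u => by simp [ha.1 v hv h u, hb.1 v hv h u],
    fun h u hu => by simp [ha.2 h u hu, hb.2 h u hu]⟩
  zero_mem' := ⟨fun _ _ _ _ => rfl, fun _ _ _ => rfl⟩
  smul_mem' := fun c f hf => ⟨fun v hv h u => by simp [hf.1 v hv h u],
    fun h u hu => by simp [hf.2 h u hu]⟩

/-- the filtration -/
def CMt (w : WG p G) {Z : Type} (r : Z → ℝ) (n : ℕ) (t : ℝ) (κ : G → List Z → ZMod p) : Prop :=
  ∀ (L : List G) (u : List Z), u.length ≤ n → t * wl w L < wt r u → dif L (fun h => κ h u) 1 = 0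

/-- the formula for the action of a letter -/
def cmf {Z : Type} (n : ℕ) (ξ : G) (z : Z → G → ZMod p) (κ : G → List Z → ZMod p) (h : G) :
    List Z → ZMod p
  | [] => κ (h * ξ) []
  | a :: u => if u.length < n then κ (h * ξ) (a :: u) + z a h * κ (h * ξ) u else 0

theorem cmf_nil {Z : Type} (n : ℕ) (ξ : G) (z : Z → G → ZMod p) (κ : G → List Z → ZMod p) (h : G) :
    cmf n ξ z κ h [] = κ (h * ξ) [] := rfl

theorem cmf_cons {Z : Type} {n : ℕ} (ξ : G) (z : Z → G → ZMod p) (κ : G → List Z → ZMod p) (h : G)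
    (a : Z) {u : List Z} (hu : u.length < n) :
    cmf n ξ z κ h (a :: u) = κ (h * ξ) (a :: u) + z a h * κ (h * ξ) u := if_pos hu

theorem cmf_mem {Z : Type} {V : Subgroup G} {n : ℕ} (ξ : G) {z : Z → G → ZMod p}
    (hz : ∀ a, ∀ v ∈ V, ∀ h, z a (v * h) = z a h) {κ : G → List Z → ZMod p}
    (hκ : κ ∈ CM p V Z n) : cmf n ξ z κ ∈ CM p V Z n := by
  refine ⟨fun v hv h u => ?_, fun h u hu => ?_⟩
  · cases u with
    | nil => rw [cmf_nil, cmf_nil, mul_assoc, hκ.1 v hv]
    | cons a u =>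
      by_cases hl : u.length < n
      · rw [cmf_cons _ _ _ _ _ hl, cmf_cons _ _ _ _ _ hl, mul_assoc, hκ.1 v hv, hκ.1 v hv, hz a v hv]
      · rw [show cmf n ξ z κ (v * h) (a :: u) = 0 from if_neg hl,
          show cmf n ξ z κ h (a :: u) = 0 from if_neg hl]
  · cases u with
    | nil => exact absurd hu (by simp)
    | cons a u =>
      refine if_neg ?_
      rw [List.length_cons] at hu
      omega

/-- the operator of a letter -/
def cmop {Z : Type} {V : Subgroup G} (n : ℕ) (ξ : G) (z : Z → G → ZMod p)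
    (hz : ∀ a, ∀ v ∈ V, ∀ h, z a (v * h) = z a h) : Module.End (ZMod p) (CM p V Z n) where
  toFun κ := ⟨cmf n ξ z κ.1, cmf_mem ξ hz κ.2⟩
  map_add' κ κ' := by
    apply Subtype.ext
    funext h u
    change cmf n ξ z (κ.1 + κ'.1) h u = cmf n ξ z κ.1 h u + cmf n ξ z κ'.1 h u
    cases u with
    | nil => simp [cmf_nil]
    | cons a u =>
      by_cases hl : u.length < n
      · rw [cmf_cons _ _ _ _ _ hl, cmf_cons _ _ _ _ _ hl, cmf_cons _ _ _ _ _ hl]
        simp only [Pi.add_apply]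
        ring
      · simp [cmf, hl]
  map_smul' c κ := by
    apply Subtype.ext
    funext h u
    change cmf n ξ z (c • κ.1) h u = c * cmf n ξ z κ.1 h u
    cases u with
    | nil => simp [cmf_nil]
    | cons a u =>
      by_cases hl : u.length < n
      · rw [cmf_cons _ _ _ _ _ hl, cmf_cons _ _ _ _ _ hl]
        simp only [Pi.smul_apply, smul_eq_mul]
        ring
      · simp [cmf, hl]

theorem CMt_mono {Z : Type} {r : Z → ℝ} {n : ℕ} {t t' : ℝ} (h : t ≤ t')
    {κ : G → List Z → ZMod p} (hκ : CMt w r n t κ) : CMt w r n t' κ := fun L u hu hl =>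
  hκ L u hu (lt_of_le_of_lt (mul_le_mul_of_nonneg_right h (wl_nonneg w L)) hl)

theorem CMt_zero {Z : Type} (r : Z → ℝ) (n : ℕ) (t : ℝ) :
    CMt w r n t (0 : G → List Z → ZMod p) := fun L u _ _ => by
  have h : (fun h => (0 : G → List Z → ZMod p) h u) = 0 := rfl
  rw [h, dif_zero]
  rfl

theorem CMt_add {Z : Type} {r : Z → ℝ} {n : ℕ} {t : ℝ} {κ κ' : G → List Z → ZMod p}
    (hκ : CMt w r n t κ) (hκ' : CMt w r n t κ') : CMt w r n t (κ + κ') := fun L u hu hl => by
  have h : (fun h => (κ + κ') h u) = (fun h => κ h u) + fun h => κ' h u := rfl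
  rw [h, dif_add, Pi.add_apply, hκ L u hu hl, hκ' L u hu hl, add_zero]

theorem CMt_smul {Z : Type} {r : Z → ℝ} {n : ℕ} {t : ℝ} {κ : G → List Z → ZMod p} (c : ZMod p)
    (hκ : CMt w r n t κ) : CMt w r n t (c • κ) := fun L u hu hl => by
  have h : (fun h => (c • κ) h u) = c • fun h => κ h u := rfl
  rw [h, dif_smul, Pi.smul_apply, hκ L u hu hl, smul_zero]

theorem CMt_sum {Z : Type} {r : Z → ℝ} {n : ℕ} {t : ℝ} {I : Type*} (s : Finset I)
    (κ : I → G → List Z → ZMod p) (hκ : ∀ i ∈ s, CMt w r n t (κ i)) :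
    CMt w r n t (∑ i ∈ s, κ i) := by
  classical
  induction s using Finset.induction_on with
  | empty => rw [Finset.sum_empty]; exact CMt_zero r n t
  | insert i s hi ih =>
    rw [Finset.sum_insert hi]
    exact CMt_add (hκ i (Finset.mem_insert_self i s))
      (ih fun j hj => hκ j (Finset.mem_insert_of_mem hj))

/-- translation by `ξ` -/
theorem dif_shift (L : List G) (ξ : G) (f : G → ZMod p) :
    dif L (fun h => f (h * ξ) - f h) = dif (L ++ [ξ]) f := by
  rw [dif_append]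
  rfl

theorem wt_cons' {Z : Type*} (r : Z → ℝ) (a : Z) (u : List Z) : wt r (a :: u) = r a * wt r u := by
  simp [wt]

/-- one letter lowers the weight -/
theorem cm_step {Z : Type} {r : Z → ℝ} (hr0 : ∀ a, 0 < r a) {n : ℕ} {t q : ℝ} (ht : 0 ≤ t)
    {ξ : G} (hξ : w.W ξ ≤ q) {z : Z → G → ZMod p}
    (hz : ∀ a L, q * wl w L < r a → dif L (z a) 1 = 0) {κ : G → List Z → ZMod p}
    (hκ : CMt w r n t κ) : CMt w r n (t * q) (cmf n ξ z κ - κ) := by
  intro L u hu hlt
  have hq : 0 ≤ q := (w.nonneg ξ).trans hξ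
  have e1 : dif L (fun h => κ (h * ξ) u - κ h u) 1 = 0 := by
    rw [dif_shift L ξ fun h => κ h u]
    refine hκ (L ++ [ξ]) u hu (lt_of_le_of_lt ?_ hlt)
    rw [wl_append, wl_cons, wl_nil, mul_one, mul_assoc, mul_comm q]
    exact mul_le_mul_of_nonneg_left (mul_le_mul_of_nonneg_left hξ (wl_nonneg w L)) ht
  cases u with
  | nil => exact e1
  | cons a u =>
    have hl : u.length < n := by
      rw [List.length_cons] at hu
      omega
    have e2 : dif L (fun h => z a h * κ (h * ξ) u) 1 = 0 := by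
      have e3 := dif_prod_zero (p := p) (id : G → G) L (z a) (fun h => κ (h * ξ) u) 1 ?_
      · rwa [List.map_id] at e3
      · intro c hc
        rw [List.map_id, List.map_id]
        have hcp := (covers_prod L w.W (fun x _ => w.nonneg x) (fun x _ => W_le_one w x) hc).1
        change wl w c.1 * wl w c.2 ≤ wl w L at hcp
        rcases lt_or_ge (q * wl w c.1) (r a) with h1 | h1
        · exact Or.inl (hz a c.1 h1)
        · right
          have h2 : t * wl w c.2 < wt r u := by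
            by_contra hcon
            rw [not_lt] at hcon
            have h3 : wt r u * r a ≤ (t * wl w c.2) * (q * wl w c.1) :=
              mul_le_mul hcon h1 (hr0 a).le (mul_nonneg ht (wl_nonneg w _))
            have h4 : (t * wl w c.2) * (q * wl w c.1) ≤ t * q * wl w L := by
              have h5 : (t * wl w c.2) * (q * wl w c.1) = t * q * (wl w c.1 * wl w c.2) := by ring
              rw [h5]
              exact mul_le_mul_of_nonneg_left hcp (mul_nonneg ht hq)
            rw [wt_cons', mul_comm (r a)] at hlt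
            exact absurd (h3.trans h4) (not_le.mpr hlt)
          have h6 : (fun h => κ (h * ξ) u) =
              (fun h => κ (h * ξ) u - κ h u) + fun h => κ h u := by
            funext h
            simp
          rw [h6, dif_add, Pi.add_apply, dif_shift c.2 ξ fun h => κ h u]
          rw [hκ c.2 u hl.le h2, add_zero]
          refine hκ (c.2 ++ [ξ]) u hl.le (lt_of_le_of_lt ?_ h2)
          rw [wl_append, wl_cons, wl_nil, mul_one]
          exact mul_le_mul_of_nonneg_left
            (mul_le_of_le_one_right (wl_nonneg w _) (W_le_one w ξ)) ht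
    have e4 : (fun h => (cmf n ξ z κ - κ) h (a :: u)) =
        (fun h => κ (h * ξ) (a :: u) - κ h (a :: u)) + fun h => z a h * κ (h * ξ) u := by
      funext h
      change cmf n ξ z κ h (a :: u) - κ h (a :: u) = _
      rw [cmf_cons _ _ _ _ _ hl]
      simp only [Pi.add_apply]
      ring
    rw [e4, dif_add, Pi.add_apply, e1, e2, add_zero]

/-- everything is in the filtration for large `t` -/
theorem cm_large [Fact p.Prime] {V : Subgroup G} (hV : Op w V) {Z : Type} (r : Z → ℝ)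
    (hr0 : ∀ a, 0 < r a) (hr1 : ∀ a, r a ≤ 1) (n : ℕ) :
    ∃ T : ℝ, 0 < T ∧ ∀ κ ∈ CM p V Z n, CMt w r n T κ := by
  obtain ⟨a, ha, h⟩ := exists_small (w := w) hV
  refine ⟨1 / a, by positivity, fun κ hκ L u _ hl => ?_⟩
  have h1 : 1 / a * wl w L < 1 := lt_of_lt_of_le hl (wt_le_one hr0 hr1 u)
  have h2 : wl w L ≤ a := by
    rw [one_div, inv_mul_lt_iff₀ ha, mul_one] at h1
    exact h1.le
  rw [h (fun h => κ h u) (fun v hv g => hκ.1 v hv g u) L h2]
  rfl

/-- the filtration is zero for small `t` -/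
theorem cm_small {V : Subgroup G} {Z : Type} [Finite Z] (r : Z → ℝ)
    (hr0 : ∀ a, 0 < r a) (n : ℕ) :
    ∃ t₀ : ℝ, 0 < t₀ ∧ ∀ κ ∈ CM p V Z n, ∀ t, 0 ≤ t → t < t₀ → CMt w r n t κ → κ = 0 := by
  have hfin : {u : List Z | u.length ≤ n}.Finite := List.finite_length_le Z n
  obtain ⟨v, -, hv⟩ := Set.exists_min_image _ (fun u => wt r u) hfin ⟨[], Nat.zero_le _⟩
  refine ⟨wt r v, wt_pos hr0 v, fun κ hκ t ht0 ht hκt => ?_⟩
  funext h u
  by_cases hu : u.length ≤ n
  · have key : ∀ L : List G, dif L (fun h => κ h u) 1 = 0 := fun L => by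
      refine hκt L u hu (lt_of_le_of_lt (mul_le_of_le_one_right ht0 (wl_le_one w L)) ?_)
      exact ht.trans_le (hv u hu)
    have h1 := dif_base [] (fun h => κ h u) h
    rw [key [], key [h], add_zero] at h1
    exact h1
  · exact hκ.2 h u (not_le.mp hu)

theorem cm_exists [Fact p.Prime] (Q : Pres p G w) {V : Subgroup G} (hV : Op w V) {Z : Type}
    [Fintype Z] (r : Z → ℝ) (hr0 : ∀ a, 0 < r a) (hr1 : ∀ a, r a ≤ 1)
    (ζ : Q.X → Z → G → ZMod p) (hζV : ∀ x a, ∀ v ∈ V, ∀ h, ζ x a (v * h) = ζ x a h)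
    (hζ : ∀ x a L, Q.wx x * wl w L < r a → dif L (ζ x a) 1 = 0) (n : ℕ) :
    ∃ ev : Ser p Q.X → Module.End (ZMod p) (CM (G := G) p V Z n),
      (∀ s s', ev (s + s') = ev s + ev s') ∧ (∀ s s', ev (s * s') = ev s * ev s') ∧
      (∀ (c : ZMod p) s, ev (c • s) = c • ev s) ∧ ev 1 = 1 ∧
      (∃ k : ℕ, ∀ s s' : Ser p Q.X, (∀ u : List Q.X, u.length < k → s u = s' u) → ev s = ev s') ∧
      (∀ x κ h, (ev (1 + mon [x]) κ).1 h [] = κ.1 (h * Q.ξ x) []) ∧
      (∀ x κ h a u, u.length < n → (ev (1 + mon [x]) κ).1 h (a :: u) =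
        κ.1 (h * Q.ξ x) (a :: u) + ζ x a h * κ.1 (h * Q.ξ x) u) ∧
      (∀ s κ t, 0 < t → CMt w r n t κ.1 → CMt w r n (t * sw Q.wx s) (ev s κ).1) ∧
      (∀ S : Submodule (ZMod p) (CM (G := G) p V Z n), (∀ x, ∀ κ ∈ S, ev (1 + mon [x]) κ ∈ S) →
        ∀ s, ∀ κ ∈ S, ev s κ ∈ S) := by
  have hwx1 : ∀ x, Q.wx x ≤ 1 := fun x => (Q.le_wm x).trans w.wm_lt.le
  have hξ : ∀ x, w.W (Q.ξ x) ≤ Q.wx x := fun x => by
    have h1 := Q.le (genF x)
    rwa [Wt_gen Q.pos x] at h1
  let N : Q.X → Module.End (ZMod p) (CM (G := G) p V Z n) := fun x =>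
    cmop n (Q.ξ x) (ζ x) (hζV x) - 1
  have hN : ∀ x κ, (N x κ).1 = cmf n (Q.ξ x) (ζ x) κ.1 - κ.1 := fun x κ => rfl
  have hstep : ∀ (u : List Q.X) (κ : CM (G := G) p V Z n) (t : ℝ), 0 < t → CMt w r n t κ.1 →
      CMt w r n (t * wt Q.wx u) (((u.map N).prod κ).1) := by
    intro u
    induction u with
    | nil =>
      intro κ t _ h
      have e : wt Q.wx [] = 1 := by simp [wt]
      rw [e, mul_one]
      exact h
    | cons x u ih =>
      intro κ t ht h
      rw [List.map_cons, List.prod_cons, Module.End.mul_apply, hN, wt_cons',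
        mul_comm (Q.wx x), ← mul_assoc]
      exact cm_step hr0 (mul_pos ht (wt_pos Q.pos u)).le (hξ x) (hζ x) (ih κ t ht h)
  obtain ⟨T, hT0, hT⟩ := cm_large (w := w) hV r hr0 hr1 n
  obtain ⟨t₀, ht₀, hsm⟩ := cm_small (w := w) (p := p) (V := V) r hr0 n
  obtain ⟨k, hk⟩ := exists_pow_lt_of_lt_one (div_pos ht₀ hT0) w.wm_lt
  have hnil : NilW N k := by
    intro u hu
    refine LinearMap.ext fun κ => Subtype.ext ?_
    refine hsm _ ((u.map N).prod κ).2 (T * wt Q.wx u) (mul_pos hT0 (wt_pos Q.pos u)).le ?_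
      (hstep u κ T hT0 (hT κ.1 κ.2))
    have h1 : wt Q.wx u ≤ w.wm ^ k := (wt_le_pow Q.pos Q.le_wm u).trans
      (pow_le_pow_of_le_one w.wm_pos.le w.wm_lt.le hu)
    rw [lt_div_iff₀ hT0, mul_comm] at hk
    exact lt_of_le_of_lt (mul_le_mul_of_nonneg_left h1 hT0.le) hk
  have hgen : ∀ x, evs N k ((1 : Ser p Q.X) + mon [x]) = cmop n (Q.ξ x) (ζ x) (hζV x) := by
    intro x
    have h1 : evs N k ((1 : Ser p Q.X) + mon [x]) = evs N k (1 : Ser p Q.X) + evs N k (mon [x]) :=
      evs_add N k _ _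
    rw [h1, evs_one hnil, evs_mon hnil, List.map_cons, List.map_nil, List.prod_cons, List.prod_nil,
      mul_one]
    exact add_sub_cancel 1 _
  refine ⟨fun s => evs N k s, fun s s' => evs_add N k s s', fun s s' => evs_mul hnil s s',
    fun c s => evs_smul N k c s, evs_one hnil, ⟨k, fun s s' h => evs_congr N k h⟩, ?_, ?_, ?_, ?_⟩
  · intro x κ h
    change (evs N k ((1 : Ser p Q.X) + mon [x]) κ).1 h [] = _
    rw [hgen]
    rfl
  · intro x κ h a u hu
    change (evs N k ((1 : Ser p Q.X) + mon [x]) κ).1 h (a :: u) = _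
    rw [hgen]
    exact cmf_cons _ _ _ _ _ hu
  · intro s κ t ht h
    have e : (evs N k s κ).1 = ∑ m ∈ Finset.range k, ∑ u : Fin m → Q.X,
        s (List.ofFn u) • (((List.ofFn u).map N).prod κ).1 := by
      unfold evs
      simp only [LinearMap.sum_apply, LinearMap.smul_apply, Submodule.coe_sum, Submodule.coe_smul]
    change CMt w r n (t * sw Q.wx s) (evs N k s κ).1
    rw [e]
    refine CMt_sum _ _ fun m _ => CMt_sum _ _ fun u _ => ?_
    by_cases hs : s (List.ofFn u) = 0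
    · rw [hs, zero_smul]
      exact CMt_zero r n _
    · refine CMt_smul _ (CMt_mono ?_ (hstep (List.ofFn u) κ t ht h))
      exact mul_le_mul_of_nonneg_left (le_sw Q.pos hwx1 s hs) ht.le
  · intro S hS s κ hκ
    have hSN : ∀ x, ∀ κ ∈ S, N x κ ∈ S := fun x κ hκ => by
      have h1 := hS x κ hκ
      change evs N k ((1 : Ser p Q.X) + mon [x]) κ ∈ S at h1
      rw [hgen] at h1
      exact S.sub_mem h1 hκ
    have hSu : ∀ u : List Q.X, (u.map N).prod κ ∈ S := by
      intro u
      induction u with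
      | nil => exact hκ
      | cons x u ih =>
        rw [List.map_cons, List.prod_cons, Module.End.mul_apply]
        exact hSN x _ ih
    change evs N k s κ ∈ S
    unfold evs
    simp only [LinearMap.sum_apply, LinearMap.smul_apply]
    exact S.sum_mem fun m _ => S.sum_mem fun u _ => S.smul_mem _ (hSu _)

end Pool.Agent.GGS
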