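import Pool.Agent.GGS.AlgDef

/-!
# Leading terms of group commutators (paper, section 12)

Induct on the list: `θ [g, h] - 1 = (θ g θ h - θ h θ g) θ(g)⁻¹ θ(h)⁻¹`.
-/

namespace Pool.Agent.GGS

universe u

/-- the left-normed Lie monomials, adding a letter at the end -/
theorem CommLead_step {p : ℕ} {G : Type u} [Group G] {E : Type} [Ring E] [Algebra (ZMod p) E]
    (J : ℕ → Submodule (ZMod p) E) (hJ : Antitone J)
    (hmul : ∀ i j, ∀ a ∈ J i, ∀ b ∈ J j, a * b ∈ J (i + j)) (h0 : J 0 = ⊤) (V : Subgroup G)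
    (θ : G → E) (hθ1 : θ 1 = 1) (hθ : ∀ g ∈ V, ∀ h ∈ V, θ (g * h) = θ g * θ h)
    {n : ℕ} (hn : 1 ≤ n) {x y : E} (hx : x ∈ J n) (hy : y ∈ J 1) {g h : G} (hg : g ∈ V)
    (hh : h ∈ V) (hgx : θ g - 1 - x ∈ J (n + 1)) (hhy : θ h - 1 - y ∈ J 2) :
    x * y - y * x ∈ J (n + 1) ∧ θ (g * h * g⁻¹ * h⁻¹) - 1 - (x * y - y * x) ∈ J (n + 2) := by
  have hg' : g⁻¹ ∈ V := V.inv_mem hg
  have hh' : h⁻¹ ∈ V := V.inv_mem hh
  have hxy : x * y ∈ J (n + 1) := hmul _ _ _ hx _ hy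
  have hyx : y * x ∈ J (n + 1) := by
    have := hmul _ _ _ hy _ hx
    rwa [add_comm] at this
  have hc1 : x * y - y * x ∈ J (n + 1) := sub_mem hxy hyx
  refine ⟨hc1, ?_⟩
  set r := θ g - 1 - x with hr
  set s := θ h - 1 - y with hs
  have eg : θ g = 1 + x + r := by rw [hr]; abel
  have eh : θ h = 1 + y + s := by rw [hs]; abel
  have hr1 : θ g - 1 ∈ J 1 := by
    have : θ g - 1 = x + r := by rw [eg]; abel
    rw [this]
    exact add_mem (hJ hn hx) (hJ (by omega) hgx)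
  have hs1 : θ h - 1 ∈ J 1 := by
    have : θ h - 1 = y + s := by rw [eh]; abel
    rw [this]
    exact add_mem hy (hJ (by omega) hhy)
  have htop : ∀ a : E, a ∈ J 0 := fun a => by rw [h0]; exact Submodule.mem_top
  have igg : θ g * θ g⁻¹ = 1 := by rw [← hθ g hg g⁻¹ hg', mul_inv_cancel, hθ1]
  have ihh : θ h * θ h⁻¹ = 1 := by rw [← hθ h hh h⁻¹ hh', mul_inv_cancel, hθ1]
  have iggl : θ g⁻¹ * θ g = 1 := by rw [← hθ g⁻¹ hg' g hg, inv_mul_cancel, hθ1]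
  have ihhl : θ h⁻¹ * θ h = 1 := by rw [← hθ h⁻¹ hh' h hh, inv_mul_cancel, hθ1]
  have hgi : θ g⁻¹ - 1 ∈ J 1 := by
    have e : θ g⁻¹ - 1 = -(θ g⁻¹ * (θ g - 1)) := by
      rw [mul_sub, iggl, mul_one]; abel
    rw [e]
    have := hmul 0 1 _ (htop (θ g⁻¹)) _ hr1
    rw [zero_add] at this
    exact neg_mem this
  have hhi : θ h⁻¹ - 1 ∈ J 1 := by
    have e : θ h⁻¹ - 1 = -(θ h⁻¹ * (θ h - 1)) := by
      rw [mul_sub, ihhl, mul_one]; abel
    rw [e]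
    have := hmul 0 1 _ (htop (θ h⁻¹)) _ hs1
    rw [zero_add] at this
    exact neg_mem this
  have hprod : θ g⁻¹ * θ h⁻¹ - 1 ∈ J 1 := by
    have e : θ g⁻¹ * θ h⁻¹ - 1 = (θ g⁻¹ - 1) * θ h⁻¹ + (θ h⁻¹ - 1) := by
      rw [sub_mul, one_mul]; abel
    rw [e]
    exact add_mem (hmul 1 0 _ hgi _ (htop _)) hhi
  have e1 : θ (g * h * g⁻¹ * h⁻¹) = θ g * θ h * θ g⁻¹ * θ h⁻¹ := by
    rw [hθ _ (V.mul_mem (V.mul_mem hg hh) hg') _ hh', hθ _ (V.mul_mem hg hh) _ hg',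
      hθ _ hg _ hh]
  have e2 : θ h * θ g * θ g⁻¹ * θ h⁻¹ = 1 := by
    rw [mul_assoc (θ h), igg, mul_one, ihh]
  set c := θ g * θ h - θ h * θ g with hc
  have e3 : θ (g * h * g⁻¹ * h⁻¹) - 1 = c + c * (θ g⁻¹ * θ h⁻¹ - 1) := by
    rw [mul_sub, mul_one, add_sub_cancel, e1, hc, sub_mul, ← mul_assoc, ← mul_assoc, e2]
  have e4 : c = (x * y - y * x) + ((x * s - s * x) + (r * y - y * r) + (r * s - s * r)) := by
    rw [hc, eg, eh]
    noncomm_ring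
  have hrest : (x * s - s * x) + (r * y - y * r) + (r * s - s * r) ∈ J (n + 2) := by
    refine add_mem (add_mem (sub_mem ?_ ?_) (sub_mem ?_ ?_)) (sub_mem ?_ ?_)
    · exact hmul n 2 _ hx _ hhy
    · have := hmul 2 n _ hhy _ hx
      rwa [add_comm] at this
    · exact hmul (n + 1) 1 _ hgx _ hy
    · have := hmul 1 (n + 1) _ hy _ hgx
      rwa [add_comm] at this
    · exact hJ (by omega) (hmul (n + 1) 2 _ hgx _ hhy)
    · have := hmul 2 (n + 1) _ hhy _ hgx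
      exact hJ (by omega) this
  have hcm : c ∈ J (n + 1) := by
    rw [e4]
    exact add_mem hc1 (hJ (by omega) hrest)
  have e5 : θ (g * h * g⁻¹ * h⁻¹) - 1 - (x * y - y * x) =
      ((x * s - s * x) + (r * y - y * r) + (r * s - s * r)) + c * (θ g⁻¹ * θ h⁻¹ - 1) := by
    rw [e3]
    nth_rw 1 [e4]
    abel
  rw [e5]
  exact add_mem hrest (hmul (n + 1) 1 _ hcm _ hprod)

theorem comm_lead {p : ℕ} {G : Type u} [Group G] {E : Type} [Ring E] [Algebra (ZMod p) E]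
    (J : ℕ → Submodule (ZMod p) E) (hJ : Antitone J)
    (hmul : ∀ i j, ∀ a ∈ J i, ∀ b ∈ J j, a * b ∈ J (i + j)) (h0 : J 0 = ⊤) (V : Subgroup G)
    (θ : G → E) (hθ1 : θ 1 = 1) (hθ : ∀ g ∈ V, ∀ h ∈ V, θ (g * h) = θ g * θ h) {Z : Type}
    (z : Z → E) (hz : ∀ a, z a ∈ J 1) (zz : Z → G) (hzz : ∀ a, zz a ∈ V)
    (h : ∀ a, θ (zz a) - 1 - z a ∈ J 2) (v : List Z) (hv : v ≠ []) :
    lieW z v ∈ J v.length ∧ ∃ g ∈ Subgroup.closure (Set.range zz),
      θ g - 1 - lieW z v ∈ J (v.length + 1) := by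
  have hcl : Subgroup.closure (Set.range zz) ≤ V := by
    rw [Subgroup.closure_le]
    rintro _ ⟨a, rfl⟩
    exact hzz a
  obtain ⟨a, l, rfl⟩ := List.exists_cons_of_ne_nil hv
  induction l using List.reverseRecOn with
  | nil =>
    refine ⟨hz a, zz a, Subgroup.subset_closure ⟨a, rfl⟩, ?_⟩
    exact h a
  | append_singleton l b ih =>
    obtain ⟨ih1, g, hg, ih2⟩ := ih (List.cons_ne_nil _ _)
    have hlen : (a :: l).length = l.length + 1 := rfl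
    have hlen' : (a :: (l ++ [b])).length = l.length + 2 := by
      simp
    have hlie : lieW z (a :: (l ++ [b])) = lieW z (a :: l) * z b - z b * lieW z (a :: l) := by
      simp only [lieW, List.foldl_append, List.foldl_cons, List.foldl_nil]
    rw [hlen] at ih1 ih2
    have key := CommLead_step J hJ hmul h0 V θ hθ1 hθ (n := l.length + 1) (by omega) ih1 (hz b)
      (hcl hg) (hzz b) ih2 (h b)
    rw [hlen', hlie]
    refine ⟨key.1, g * zz b * g⁻¹ * (zz b)⁻¹, ?_, key.2⟩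
    have hb : zz b ∈ Subgroup.closure (Set.range zz) := Subgroup.subset_closure ⟨b, rfl⟩
    exact mul_mem (mul_mem (mul_mem hg hb) (inv_mem hg)) (inv_mem hb)

end Pool.Agent.GGS
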