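import Pool.Agent.GGS.Defs

/-!
# Weighted groups: basic definitions

`WG p G`: weighted groups.  `dif L f` is `ρ(h₁ - 1) ⋯ ρ(h_k - 1) f` for `L = [h₁, …, h_k]`, where
`(ρ(h) f)(g) = f (g h)`.
-/

namespace Pool.Agent.GGS

universe u

variable {p : ℕ} {G : Type u} [Group G]

/-- Weighted groups. -/
structure WG (p : ℕ) (G : Type u) [Group G] where
  /-- the weight -/
  W : G → ℝ
  /-- an upper bound for the weights -/
  wm : ℝ
  wm_pos : 0 < wm
  wm_lt : wm < 1
  nonneg : ∀ g, 0 ≤ W g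
  le_wm : ∀ g, W g ≤ wm
  one : W 1 = 0
  eq_one : ∀ g, W g = 0 → g = 1
  inv : ∀ g, W g⁻¹ = W g
  mul : ∀ g h, W (g * h) ≤ max (W g) (W h)
  comm : ∀ g h, W (g * h * g⁻¹ * h⁻¹) ≤ W g * W h
  pow : ∀ g, W (g ^ p) ≤ W g ^ p
  fin : ∀ t, 0 < t → ∃ S : Finset G, ∀ g, ∃ s ∈ S, W (s⁻¹ * g) ≤ t

/-- The subgroup `{g | W g ≤ t}` (for `t ≥ 0`). -/
def WG.ball (w : WG p G) (t : ℝ) : Subgroup G where
  carrier := {g | w.W g ≤ max t 0}
  mul_mem' := fun {a b} ha hb => (w.mul a b).trans (max_le ha hb)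
  one_mem' := by
    change w.W 1 ≤ max t 0
    rw [w.one]; exact le_max_right _ _
  inv_mem' := fun {a} ha => by
    change w.W a⁻¹ ≤ max t 0
    rw [w.inv]; exact ha

lemma WG.mem_ball (w : WG p G) {t : ℝ} (ht : 0 ≤ t) {g : G} : g ∈ w.ball t ↔ w.W g ≤ t := by
  change w.W g ≤ max t 0 ↔ _
  rw [max_eq_left ht]

/-- `V` is open: it contains some `{g | W g ≤ t}`, `t > 0`. -/
def Op (w : WG p G) (V : Subgroup G) : Prop := ∃ t, 0 < t ∧ ∀ g, w.W g ≤ t → g ∈ V

/-- The weight of a list of group elements: the product of the weights. -/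
def wl (w : WG p G) (L : List G) : ℝ := (L.map w.W).prod

/-- `dif [h₁, …, h_k] f = ρ(h₁ - 1) ⋯ ρ(h_k - 1) f`, where `(ρ(h) f)(g) = f (g h)`. -/
def dif {M : Type*} [AddCommGroup M] : List G → (G → M) → G → M
  | [], f => f
  | h :: L, f => fun g => dif L f (g * h) - dif L f g

/-- The left `V`-invariant functions. -/
def Inv (p : ℕ) (V : Subgroup G) : Submodule (ZMod p) (G → ZMod p) where
  carrier := {f | ∀ v ∈ V, ∀ g, f (v * g) = f g}
  add_mem' := fun {a b} ha hb v hv g => by simp [ha v hv g, hb v hv g]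
  zero_mem' := fun _ _ _ => rfl
  smul_mem' := fun c f hf v hv g => by simp [hf v hv g]

lemma dif_add {M : Type*} [AddCommGroup M] (L : List G) (f f' : G → M) :
    dif L (f + f') = dif L f + dif L f' := by
  induction L with
  | nil => rfl
  | cons h L ih => funext g; simp only [dif, ih, Pi.add_apply]; abel

lemma dif_smul {M : Type*} [AddCommGroup M] [Module (ZMod p) M] (c : ZMod p) (L : List G)
    (f : G → M) : dif L (c • f) = c • dif L f := by
  induction L with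
  | nil => rfl
  | cons h L ih => funext g; simp only [dif, ih, Pi.smul_apply, smul_sub]

lemma dif_zero {M : Type*} [AddCommGroup M] (L : List G) : dif L (0 : G → M) = 0 := by
  induction L with
  | nil => rfl
  | cons h L ih => funext g; simp [dif, ih]

/-- `Fil w V t`: the `V`-invariant functions `f` with `(dif L f) 1 = 0` for all `L` of weight `≤ t`. -/
def Fil (w : WG p G) (V : Subgroup G) (t : ℝ) : Submodule (ZMod p) (G → ZMod p) where
  carrier := {f | f ∈ Inv p V ∧ ∀ L : List G, wl w L ≤ t → dif L f 1 = 0}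
  add_mem' := fun {a b} ha hb => ⟨(Inv p V).add_mem ha.1 hb.1, fun L hL => by
    rw [dif_add, Pi.add_apply, ha.2 L hL, hb.2 L hL, add_zero]⟩
  zero_mem' := ⟨(Inv p V).zero_mem, fun L _ => by rw [dif_zero]; rfl⟩
  smul_mem' := fun c f hf => ⟨(Inv p V).smul_mem c hf.1, fun L hL => by
    rw [dif_smul, Pi.smul_apply, hf.2 L hL, smul_zero]⟩

/-- `m_V(t)`. -/
noncomputable def md (w : WG p G) (V : Subgroup G) (t : ℝ) : ℕ :=
  Module.finrank (ZMod p) (Fil w V t)

/-- The `W`-index of the open subgroup `V`. -/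
noncomputable def Ix (w : WG p G) (V : Subgroup G) : ℝ := ∫ t in (0 : ℝ)..1, (md w V t : ℝ)

/-- `q(r) = 1 + r + ⋯ + r^(p-1)`. -/
def qq (p : ℕ) (r : ℝ) : ℝ := ∑ i ∈ Finset.range p, r ^ i

/-- One step `V > V'` with deepest element `y` of weight `r`. -/
structure Step (w : WG p G) (V V' : Subgroup G) (y : G) (r : ℝ) : Prop where
  le : V' ≤ V
  mem : y ∈ V
  not_mem : y ∉ V'
  wy : w.W y = r
  deep : ∀ v ∈ V, v ∉ V' → r ≤ w.W v
  norm : ∀ v ∈ V, ∀ u ∈ V', v * u * v⁻¹ ∈ V'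
  ypow : y ^ p ∈ V'
  cover : ∀ v ∈ V, ∃ i < p, ∃ u ∈ V', v = u * y ^ i

/-- Chains of steps from `P` down to `V`; the list contains the deepest elements and their weights,
the last step first. -/
inductive Chain (w : WG p G) (P : Subgroup G) : Subgroup G → List (G × ℝ) → Prop
  | nil : Chain w P P []
  | cons {V V' : Subgroup G} {L : List (G × ℝ)} {y : G} {r : ℝ} :
      Chain w P V L → Step w V V' y r → Chain w P V' ((y, r) :: L)

/-- The monomial `(g₁ - 1)^(a₁) (g₂ - 1)^(a₂) ⋯` as a list (`L = [(g₁, r₁), (g₂, r₂), …]`). -/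
def mono (L : List (G × ℝ)) (a : Fin L.length → Fin p) : List G :=
  (List.finRange L.length).flatMap fun i => List.replicate (a i : ℕ) (L.get i).1

/-- The weight of a monomial. -/
def mw (L : List (G × ℝ)) (a : Fin L.length → Fin p) : ℝ := ∏ i, (L.get i).2 ^ (a i : ℕ)

/-- The characters of `V` (extended by `0` to `G`) which vanish on the elements of weight `≤ t`. -/
def Ch (w : WG p G) (V : Subgroup G) (t : ℝ) : Submodule (ZMod p) (G → ZMod p) where
  carrier := {χ | (∀ g, g ∉ V → χ g = 0) ∧ (∀ u ∈ V, ∀ v ∈ V, χ (u * v) = χ u + χ v) ∧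
    ∀ v ∈ V, w.W v ≤ t → χ v = 0}
  add_mem' := fun {a b} ha hb => ⟨fun g hg => by simp [ha.1 g hg, hb.1 g hg],
    fun u hu v hv => by
      simp only [Pi.add_apply, ha.2.1 u hu v hv, hb.2.1 u hu v hv]; ring,
    fun v hv h => by simp [ha.2.2 v hv h, hb.2.2 v hv h]⟩
  zero_mem' := ⟨fun _ _ => rfl, fun _ _ _ _ => by simp, fun _ _ _ => rfl⟩
  smul_mem' := fun c f hf => ⟨fun g hg => by simp [hf.1 g hg],
    fun u hu v hv => by simp only [Pi.smul_apply, hf.2.1 u hu v hv, smul_add],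
    fun v hv h => by simp [hf.2.2 v hv h]⟩

/-- All (continuous) characters of `V`. -/
def ChS (w : WG p G) (V : Subgroup G) : Submodule (ZMod p) (G → ZMod p) where
  carrier := {χ | ∃ t, 0 < t ∧ χ ∈ Ch w V t}
  add_mem' := fun ⟨s, hs, ha⟩ ⟨t, ht, hb⟩ => ⟨min s t, lt_min hs ht,
    (Ch w V _).add_mem
      ⟨ha.1, ha.2.1, fun v hv h => ha.2.2 v hv (h.trans (min_le_left _ _))⟩
      ⟨hb.1, hb.2.1, fun v hv h => hb.2.2 v hv (h.trans (min_le_right _ _))⟩⟩
  zero_mem' := ⟨1, one_pos, (Ch w V 1).zero_mem⟩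
  smul_mem' := fun c _ ⟨t, ht, hf⟩ => ⟨t, ht, (Ch w V t).smul_mem c hf⟩

/-- `K_V(t)`. -/
noncomputable def Kd (w : WG p G) (V : Subgroup G) (t : ℝ) : ℕ :=
  Module.finrank (ZMod p) (Ch w V t)

/-- `x(V)`, the weighted number of generators. -/
noncomputable def xm (w : WG p G) (V : Subgroup G) : ℝ := ∫ t in (0 : ℝ)..1, (Kd w V t : ℝ)

/-- `x_t(V)`, the mass of the generators of weight `≤ t`. -/
noncomputable def xd (w : WG p G) (V : Subgroup G) (t : ℝ) : ℝ :=
  ∫ s in (0 : ℝ)..t, ((Kd w V s : ℝ) - Kd w V t)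

open Classical in
/-- Adapted families for a space `S` of characters of `V`. -/
structure Adapted (w : WG p G) (V : Subgroup G) (S : Submodule (ZMod p) (G → ZMod p))
    {B : Type} (v : B → G) (r : B → ℝ) (χ : B → G → ZMod p) : Prop where
  mem : ∀ b, v b ∈ V
  pos : ∀ b, 0 < r b
  wv : ∀ b, w.W (v b) = r b
  inS : ∀ b, χ b ∈ S
  dual : ∀ b c, χ b (v c) = if b = c then 1 else 0
  van : ∀ b, ∀ u ∈ V, w.W u < r b → χ b u = 0
  full : ∀ ψ ∈ S, (∀ b, ψ (v b) = 0) → ψ = 0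

/-- `rho(V) = (x(V) - 1) / [G : V]_W`. -/
noncomputable def rho (w : WG p G) (V : Subgroup G) : ℝ := (xm w V - 1) / Ix w V

/-- `V' ∈ C(V; t)`: `V'` is open and `V = V' V_t`. -/
structure Cc (w : WG p G) (V : Subgroup G) (t : ℝ) (V' : Subgroup G) : Prop where
  le : V' ≤ V
  op : Op w V'
  cov : ∀ v ∈ V, ∃ v' ∈ V', w.W (v'⁻¹ * v) ≤ t

/-- Weighted groups with the Golod-Shafarevich inequality. -/
structure GSG (p : ℕ) (G : Type u) [Group G] extends WG p G where
  K0 : ℝ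
  K0_pos : 0 < K0
  fd : Module.Finite (ZMod p) (ChS toWG ⊤)
  gs : ∀ V : Subgroup G, Op toWG V → K0 * Ix toWG V ≤ xm toWG V - 1

/-- `STATE_c(V, t)`. -/
structure State (w : GSG p G) (c t : ℝ) (V : Subgroup G) : Prop where
  c_pos : 0 < c
  c_le : c ≤ w.K0 / 4
  t_pos : 0 < t
  t_le : t ≤ 1 / 4
  op : Op w.toWG V
  deep : t ≤ xd w.toWG V t
  min : ∀ V', Cc w.toWG V t V' → rho w.toWG V ≤
    rho w.toWG V' + c * Real.log (Ix w.toWG V' / Ix w.toWG V) + w.K0 * t / 8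

end Pool.Agent.GGS
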