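import Pool.Agent.GGS.StepK

/-!
# The cut lemma (paper, 3.2)
-/

namespace Pool.Agent.GGS

universe u

variable {p : ℕ} {G : Type u} [Group G] (w : WG p G)

/-- The kernel of a character of `V`, as a subgroup. -/
def cutKer {V : Subgroup G} (χ : G → ZMod p) (hχ : χ ∈ ChS w V) : Subgroup G where
  carrier := {g | g ∈ V ∧ χ g = 0}
  mul_mem' := fun {a b} ha hb => ⟨V.mul_mem ha.1 hb.1, by
    rw [ch_mul w hχ ha.1 hb.1, ha.2, hb.2, add_zero]⟩
  one_mem' := ⟨V.one_mem, ch_one w hχ⟩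
  inv_mem' := fun {a} ha => ⟨V.inv_mem ha.1, by rw [ch_inv w hχ ha.1, ha.2, neg_zero]⟩

lemma mem_cutKer {V : Subgroup G} (χ : G → ZMod p) (hχ : χ ∈ ChS w V) (g : G) :
    g ∈ cutKer w χ hχ ↔ g ∈ V ∧ χ g = 0 := Iff.rfl

lemma cut_op {V : Subgroup G} (hV : Op w V) (χ : G → ZMod p) (hχ : χ ∈ ChS w V) :
    Op w (cutKer w χ hχ) := by
  obtain ⟨t1, ht1, h1⟩ := hV
  obtain ⟨t2, ht2, h2⟩ := id hχ
  refine ⟨min t1 t2, lt_min ht1 ht2, fun g hg => ?_⟩
  have hgV : g ∈ V := h1 g (hg.trans (min_le_left _ _))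
  exact ⟨hgV, h2.2.2 g hgV (hg.trans (min_le_right _ _))⟩

open Classical in
lemma cut_step [Fact p.Prime] {V : Subgroup G} {B : Type}
    {v : B → G} {r : B → ℝ} {χ : B → G → ZMod p} (h : Adapted w V (ChS w V) v r χ) (b₀ : B) :
    Step w V (cutKer w (χ b₀) (h.inS b₀)) (v b₀) (r b₀) := by
  have hy : χ b₀ (v b₀) = 1 := by rw [h.dual, if_pos rfl]
  refine ⟨fun g hg => hg.1, h.mem b₀, ?_, h.wv b₀, ?_, ?_, ?_, ?_⟩
  · intro hc
    have := hc.2
    rw [hy] at this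
    exact one_ne_zero this
  · intro g hg hn
    by_contra hlt
    exact hn ⟨hg, h.van b₀ g hg (not_le.mp hlt)⟩
  · intro g hg u hu
    refine ⟨V.mul_mem (V.mul_mem hg hu.1) (V.inv_mem hg), ?_⟩
    rw [ch_mul w (h.inS b₀) (V.mul_mem hg hu.1) (V.inv_mem hg), ch_mul w (h.inS b₀) hg hu.1,
      ch_inv w (h.inS b₀) hg, hu.2]
    ring
  · refine ⟨V.pow_mem (h.mem b₀) p, ?_⟩
    rw [ch_pow w (h.inS b₀) (h.mem b₀), CharP.cast_eq_zero, zero_mul]
  · intro g hg
    refine ⟨(χ b₀ g).val, ZMod.val_lt _, g * (v b₀ ^ (χ b₀ g).val)⁻¹, ⟨?_, ?_⟩, by group⟩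
    · exact V.mul_mem hg (V.inv_mem (V.pow_mem (h.mem b₀) _))
    · rw [ch_mul w (h.inS b₀) hg (V.inv_mem (V.pow_mem (h.mem b₀) _)),
        ch_inv w (h.inS b₀) (V.pow_mem (h.mem b₀) _), ch_pow w (h.inS b₀) (h.mem b₀), hy,
        ZMod.natCast_zmod_val, mul_one, add_neg_cancel]

omit [Group G] in
lemma linInd_of_dual [Fact p.Prime] {ι : Type} [Fintype ι] [DecidableEq ι] (N : Submodule (ZMod p) (G → ZMod p))
    (f : ι → N) (x : ι → G) (hf : ∀ i j, (f i : G → ZMod p) (x j) = if i = j then 1 else 0) :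
    LinearIndependent (ZMod p) f := by
  rw [Fintype.linearIndependent_iff]
  intro g hg j
  have h1 : ((∑ i, g i • f i : N) : G → ZMod p) (x j) = 0 := by rw [hg]; rfl
  rw [Submodule.coe_sum, Finset.sum_apply] at h1
  simp only [Submodule.coe_smul, Pi.smul_apply, hf, smul_eq_mul] at h1
  rw [Finset.sum_eq_single j] at h1
  · simpa using h1
  · intro b _ hb
    simp [hb]
  · intro hj
    exact absurd (Finset.mem_univ j) hj

/-- the characters of `V'` which kill all `v b`, `b ≠ b₀` -/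
def cutS {B : Type} (V' : Subgroup G) (v : B → G) (b₀ : B) : Submodule (ZMod p) (G → ZMod p) where
  carrier := {ψ | ψ ∈ ChS w V' ∧ ∀ b, b ≠ b₀ → ψ (v b) = 0}
  add_mem' := fun {a b} ha hb => ⟨(ChS w V').add_mem ha.1 hb.1, fun c hc => by
    rw [Pi.add_apply, ha.2 c hc, hb.2 c hc, add_zero]⟩
  zero_mem' := ⟨(ChS w V').zero_mem, fun _ _ => rfl⟩
  smul_mem' := fun c f hf => ⟨(ChS w V').smul_mem c hf.1, fun b hb => by
    rw [Pi.smul_apply, hf.2 b hb, smul_zero]⟩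

open Classical in
/-- the number of pairs in the bound of `step_Kd` for `t = wm * r b₀` -/
lemma cut_card [Fact p.Prime] {V : Subgroup G} {B : Type} [Fintype B]
    {v : B → G} {r : B → ℝ} {χ : B → G → ZMod p} (h : Adapted w V (ChS w V) v r χ) (b₀ : B) :
    (if w.wm * r b₀ < r b₀ ^ p then 1 else 0) +
      (Finset.univ.filter fun x : B × Fin p =>
        x.1 ≠ b₀ ∧ w.wm * r b₀ < r x.1 * r b₀ ^ (x.2 : ℕ)).card ≤
      Fintype.card {b : B // b ≠ b₀ ∧ w.wm * r b₀ < r b} := by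
  have hp : 2 ≤ p := (Fact.out : p.Prime).two_le
  have hr0 : 0 < r b₀ := h.pos b₀
  have hrm : r b₀ ≤ w.wm := (adapted_lt w h b₀).2.1
  have hr1 : r b₀ ≤ 1 := (adapted_lt w h b₀).2.2.le
  have h1 : ¬ w.wm * r b₀ < r b₀ ^ p := by
    rw [not_lt]
    calc r b₀ ^ p ≤ r b₀ ^ 2 := pow_le_pow_of_le_one hr0.le hr1 hp
      _ = r b₀ * r b₀ := sq _
      _ ≤ w.wm * r b₀ := mul_le_mul_of_nonneg_right hrm hr0.le
  rw [if_neg h1, zero_add, Fintype.card_subtype]
  have key : ∀ x : B × Fin p, w.wm * r b₀ < r x.1 * r b₀ ^ (x.2 : ℕ) → (x.2 : ℕ) = 0 := by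
    intro x hx
    by_contra hne
    refine absurd hx (not_lt.mpr ?_)
    have h2 : r b₀ ^ (x.2 : ℕ) ≤ r b₀ := by
      calc r b₀ ^ (x.2 : ℕ) ≤ r b₀ ^ 1 :=
            pow_le_pow_of_le_one hr0.le hr1 (Nat.one_le_iff_ne_zero.mpr hne)
        _ = r b₀ := pow_one _
    exact mul_le_mul (adapted_lt w h x.1).2.1 h2 (pow_nonneg hr0.le _) w.wm_pos.le
  refine Finset.card_le_card_of_injOn Prod.fst ?_ ?_
  · intro x hx
    have hx' := (Finset.mem_filter.mp (Finset.mem_coe.mp hx)).2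
    have h0 := key x hx'.2
    refine Finset.mem_coe.mpr (Finset.mem_filter.mpr ⟨Finset.mem_univ _, hx'.1, ?_⟩)
    have h3 := hx'.2
    rw [h0, pow_zero, mul_one] at h3
    exact h3
  · intro x hx y hy hxy
    have hx' := (Finset.mem_filter.mp (Finset.mem_coe.mp hx)).2
    have hy' := (Finset.mem_filter.mp (Finset.mem_coe.mp hy)).2
    refine Prod.ext hxy (Fin.ext ?_)
    rw [key x hx'.2, key y hy'.2]

open Classical in
/-- the restriction of the character `χ b` to `V'` -/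
noncomputable def cutR (V' : Subgroup G) (χ : G → ZMod p) : G → ZMod p :=
  fun g => if g ∈ V' then χ g else 0

lemma cutR_of_mem {V' : Subgroup G} {χ : G → ZMod p} {g : G} (hg : g ∈ V') :
    cutR V' χ g = χ g := if_pos hg

lemma cutR_mem_ch {V V' : Subgroup G} (hle : V' ≤ V) {χ : G → ZMod p} {t : ℝ}
    (h : χ ∈ Ch w V t) : cutR V' χ ∈ Ch w V' t := ch_restrict w hle h

lemma cutR_mem {V V' : Subgroup G} (hle : V' ≤ V) {χ : G → ZMod p}
    (h : χ ∈ ChS w V) : cutR V' χ ∈ ChS w V' := by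
  obtain ⟨t, ht, h⟩ := h
  exact ⟨t, ht, ch_restrict w hle h⟩

lemma mem_Ch_of_van {V : Subgroup G} {χ : G → ZMod p} (h : χ ∈ ChS w V) {s t : ℝ} (hst : t < s)
    (hv : ∀ u ∈ V, w.W u < s → χ u = 0) : χ ∈ Ch w V t := by
  obtain ⟨t', ht', h⟩ := h
  exact ⟨h.1, h.2.1, fun u hu hw => hv u hu (hw.trans_lt hst)⟩

open Classical in
/-- the new elements are deep -/
lemma cut_deep [Fact p.Prime] {V : Subgroup G} (hV : Op w V) {B : Type} [Fintype B]
    {v : B → G} {r : B → ℝ} {χ : B → G → ZMod p} (h : Adapted w V (ChS w V) v r χ) (b₀ : B)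
    {V' : Subgroup G} (hV' : ∀ g, g ∈ V' ↔ g ∈ V ∧ χ b₀ g = 0)
    {C : Type} {u : C → G} {s : C → ℝ} {ψ : C → G → ZMod p}
    (hC : Adapted w V' (cutS w V' v b₀) u s ψ) (c : C) :
    s c ≤ w.wm * r b₀ := by
  by_contra hlt
  rw [not_le] at hlt
  have ht0 : 0 < w.wm * r b₀ := mul_pos w.wm_pos (h.pos b₀)
  have hle : V' ≤ V := fun g hg => ((hV' g).mp hg).1
  have hvm : ∀ b, b ≠ b₀ → v b ∈ V' := fun b hb =>
    (hV' _).mpr ⟨h.mem b, by rw [h.dual, if_neg (Ne.symm hb)]⟩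
  have hfin : Module.Finite (ZMod p) (Ch w V' (w.wm * r b₀)) := Ch_finite w V' ht0
  have hψm : ψ c ∈ Ch w V' (w.wm * r b₀) :=
    mem_Ch_of_van w (hC.inS c).1 hlt (hC.van c)
  have hρm : ∀ b : {b : B // b ≠ b₀ ∧ w.wm * r b₀ < r b}, cutR V' (χ b.1) ∈
      Ch w V' (w.wm * r b₀) := fun b =>
    cutR_mem_ch w hle (mem_Ch_of_van w (h.inS b.1) b.2.2 (h.van b.1))
  let f : Option {b : B // b ≠ b₀ ∧ w.wm * r b₀ < r b} → Ch w V' (w.wm * r b₀) := fun o =>
    match o with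
    | none => ⟨ψ c, hψm⟩
    | some b => ⟨cutR V' (χ b.1) - χ b.1 (u c) • ψ c,
        Submodule.sub_mem _ (hρm b) (Submodule.smul_mem _ _ hψm)⟩
  let x : Option {b : B // b ≠ b₀ ∧ w.wm * r b₀ < r b} → G := fun o =>
    match o with
    | none => u c
    | some b => v b.1
  have hdual : ∀ i j, (f i : G → ZMod p) (x j) = if i = j then 1 else 0 := by
    intro i j
    rcases i with _ | b <;> rcases j with _ | b'
    · change ψ c (u c) = _
      rw [hC.dual, if_pos rfl, if_pos rfl]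
    · change ψ c (v b'.1) = _
      rw [(hC.inS c).2 _ b'.2.1, if_neg (by simp)]
    · change (cutR V' (χ b.1) - χ b.1 (u c) • ψ c) (u c) = _
      rw [Pi.sub_apply, Pi.smul_apply, cutR_of_mem (hC.mem c), hC.dual, if_pos rfl, if_neg (by simp),
        smul_eq_mul, mul_one, sub_self]
    · change (cutR V' (χ b.1) - χ b.1 (u c) • ψ c) (v b'.1) = _
      rw [Pi.sub_apply, Pi.smul_apply, cutR_of_mem (hvm _ b'.2.1), (hC.inS c).2 _ b'.2.1, smul_zero,
        sub_zero, h.dual]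
      by_cases hb : b = b'
      · rw [if_pos (by rw [hb]), if_pos (by rw [hb])]
      · rw [if_neg (fun hh => hb (Subtype.ext hh)), if_neg (fun hh => hb (Option.some.inj hh))]
  have hli := linInd_of_dual (Ch w V' (w.wm * r b₀)) f x hdual
  have hcard := hli.fintype_card_le_finrank
  rw [Fintype.card_option] at hcard
  have hK := step_Kd w hV h b₀ hV' ht0
  have hK2 := hK.trans (cut_card w h b₀)
  unfold Kd at hK2
  omega

theorem cut [Fact p.Prime] {V : Subgroup G} (hV : Op w V) {B : Type} [Fintype B]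
    {v : B → G} {r : B → ℝ} {χ : B → G → ZMod p} (h : Adapted w V (ChS w V) v r χ) (b₀ : B) :
    ∃ V' : Subgroup G, (∀ g, g ∈ V' ↔ g ∈ V ∧ χ b₀ g = 0) ∧ Op w V' ∧
      Step w V V' (v b₀) (r b₀) ∧
      ∃ (C : Type) (_ : Fintype C) (u : C → G) (s : C → ℝ)
        (ψ : {b : B // b ≠ b₀} ⊕ C → G → ZMod p),
        Adapted w V' (ChS w V') (Sum.elim (fun b => v b.1) u) (Sum.elim (fun b => r b.1) s) ψ ∧
        ∀ c, s c ≤ w.wm * r b₀ := by
  classical
  have hstep := cut_step w h b₀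
  have hop := cut_op w hV (χ b₀) (h.inS b₀)
  set V' := cutKer w (χ b₀) (h.inS b₀) with hV'def
  have hV' : ∀ g, g ∈ V' ↔ g ∈ V ∧ χ b₀ g = 0 := fun g => mem_cutKer w _ _ g
  have hle : V' ≤ V := fun g hg => ((hV' g).mp hg).1
  have hvm : ∀ b, b ≠ b₀ → v b ∈ V' := fun b hb =>
    (hV' _).mpr ⟨h.mem b, by rw [h.dual, if_neg (Ne.symm hb)]⟩
  have hfV : Module.Finite (ZMod p) (ChS w V) := adapted_finite w h
  have hf : Module.Finite (ZMod p) (ChS w V') := step_finite w hstep hop hfV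
  have hSle : cutS w V' v b₀ ≤ ChS w V' := fun ψ hψ => hψ.1
  have hfS : Module.Finite (ZMod p) (cutS w V' v b₀) :=
    Submodule.finiteDimensional_of_le hSle
  obtain ⟨C, hCf, u, s, ψ, hC⟩ := exists_adapted w (cutS w V' v b₀) hSle hfS
  refine ⟨V', hV', hop, hstep, C, hCf, u, s,
    Sum.elim (fun b => cutR V' (χ b.1) - ∑ c, χ b.1 (u c) • ψ c) ψ, ?_,
    fun c => cut_deep w hV h b₀ hV' hC c⟩
  have hval : ∀ (b : {b : B // b ≠ b₀}) (g : G), g ∈ V' →
      (cutR V' (χ b.1) - ∑ c, χ b.1 (u c) • ψ c) g = χ b.1 g - ∑ c, χ b.1 (u c) * ψ c g := by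
    intro b g hg
    rw [Pi.sub_apply, cutR_of_mem hg, Finset.sum_apply]
    simp only [Pi.smul_apply, smul_eq_mul]
  constructor
  · rintro (b | c)
    · exact hvm b.1 b.2
    · exact hC.mem c
  · rintro (b | c)
    · exact h.pos b.1
    · exact hC.pos c
  · rintro (b | c)
    · exact h.wv b.1
    · exact hC.wv c
  · rintro (b | c)
    · exact Submodule.sub_mem _ (cutR_mem w hle (h.inS b.1))
        (Submodule.sum_mem _ fun c _ => Submodule.smul_mem _ _ (hC.inS c).1)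
    · exact (hC.inS c).1
  · rintro (b | c) (b' | c')
    · simp only [Sum.elim_inl]
      rw [hval b _ (hvm b'.1 b'.2), h.dual]
      rw [Finset.sum_eq_zero (fun c _ => by rw [(hC.inS c).2 _ b'.2, mul_zero]), sub_zero]
      by_cases hb : b = b'
      · rw [if_pos (by rw [hb]), if_pos (by rw [hb])]
      · rw [if_neg (fun hh => hb (Subtype.ext hh)), if_neg (fun hh => hb (Sum.inl.inj hh))]
    · simp only [Sum.elim_inl, Sum.elim_inr]
      rw [hval b _ (hC.mem c'), if_neg (by simp)]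
      simp only [hC.dual]
      rw [Finset.sum_eq_single c']
      · rw [if_pos rfl, mul_one, sub_self]
      · intro c _ hc
        rw [if_neg hc, mul_zero]
      · intro hc
        exact absurd (Finset.mem_univ c') hc
    · simp only [Sum.elim_inl, Sum.elim_inr]
      rw [(hC.inS c).2 _ b'.2, if_neg (by simp)]
    · simp only [Sum.elim_inr]
      rw [hC.dual]
      by_cases hb : c = c'
      · rw [if_pos hb, if_pos (by rw [hb])]
      · rw [if_neg hb, if_neg (fun hh => hb (Sum.inr.inj hh))]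
  · rintro (b | c) g hg hlt
    · simp only [Sum.elim_inl] at hlt ⊢
      rw [hval b g hg, h.van b.1 g (hle hg) hlt, zero_sub, neg_eq_zero]
      refine Finset.sum_eq_zero fun c _ => ?_
      by_cases hz : χ b.1 (u c) = 0
      · rw [hz, zero_mul]
      · have h1 : r b.1 ≤ w.W (u c) := by
          by_contra hcon
          exact hz (h.van b.1 (u c) (hle (hC.mem c)) (not_le.mp hcon))
        rw [hC.wv c] at h1
        rw [hC.van c g hg (hlt.trans_le h1), mul_zero]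
    · exact hC.van c g hg hlt
  · intro φ hφ h0
    refine hC.full φ ⟨hφ, fun b hb => h0 (Sum.inl ⟨b, hb⟩)⟩ (fun c => h0 (Sum.inr c))

end Pool.Agent.GGS
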