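import Pool.Agent.GGS.Cut
import Pool.Agent.GGS.CcBas

/-!
# Cutting a deep final segment of an adapted basis (paper, 3.3)

Induct on the number of elements of `Y`, with the more general statement that `V` has an adapted basis indexed by
`B ⊕ C` (or any index type) whose remaining elements have weight `≤ wm * ρ`.
-/

namespace Pool.Agent.GGS

universe u

variable {p : ℕ} {G : Type u} [Group G] (w : WG p G)

theorem cutMany_ind [Fact p.Prime] {ρ : ℝ} (hρ : 0 < ρ) (n : ℕ) :
    ∀ (V : Subgroup G), Op w V → ∀ (B : Type) [Fintype B] (v : B → G) (r : B → ℝ)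
      (χ : B → G → ZMod p), Adapted w V (ChS w V) v r χ → ∀ Y : Finset B, Y.card = n →
      (∀ b ∈ Y, r b ≤ ρ) →
    ∃ VY : Subgroup G, Cc w V ρ VY ∧ (∀ b, b ∉ Y → v b ∈ VY) ∧
      Ix w VY = Ix w V * ∏ b ∈ Y, qq p (r b) ∧ Module.Finite (ZMod p) (ChS w VY) ∧
      ∀ t, w.wm * ρ ≤ t → ∃ Z : Finset B, (∀ b, b ∈ Z ↔ b ∉ Y ∧ t < r b) ∧ Kd w VY t = Z.card := by
  classical
  induction n with
  | zero =>
    intro V hV B _ v r χ h Y hYc hY
    rw [Finset.card_eq_zero] at hYc
    subst hYc
    refine ⟨V, Cc_refl w hV hρ.le, fun b _ => h.mem b, by simp, adapted_finite w h, ?_⟩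
    intro t ht
    have ht0 : 0 < t := lt_of_lt_of_le (mul_pos w.wm_pos hρ) ht
    refine ⟨Finset.univ.filter fun b => t < r b, fun b => by simp, ?_⟩
    exact adapted_Kd w h ht0
  | succ n ih =>
    intro V hV B _ v r χ h Y hYc hY
    obtain ⟨b₀, hb₀⟩ : Y.Nonempty := by
      rw [← Finset.card_pos, hYc]
      exact Nat.succ_pos n
    obtain ⟨V', hV'mem, hV', hstep, C, hC, u, s, ψ, had, hs⟩ := cut w hV h b₀
    let _ := hC
    -- the remaining elements
    set Y' : Finset ({b : B // b ≠ b₀} ⊕ C) :=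
      Finset.univ.filter fun x => ∃ b : {b : B // b ≠ b₀}, b.1 ∈ Y ∧ x = Sum.inl b with hY'
    have hmemY' : ∀ b : {b : B // b ≠ b₀}, (Sum.inl b : {b : B // b ≠ b₀} ⊕ C) ∈ Y' ↔ b.1 ∈ Y := by
      intro b
      rw [hY', Finset.mem_filter]
      constructor
      · rintro ⟨-, b', hb', heq⟩
        rw [Sum.inl.injEq] at heq
        rw [heq]
        exact hb'
      · intro hb
        exact ⟨Finset.mem_univ _, b, hb, rfl⟩
    have hmemY'c : ∀ c : C, (Sum.inr c : {b : B // b ≠ b₀} ⊕ C) ∉ Y' := by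
      intro c hc
      rw [hY', Finset.mem_filter] at hc
      obtain ⟨-, b', -, heq⟩ := hc
      exact absurd heq (by simp)
    -- Y' corresponds to the erasure
    have hbij : ∀ f : B → ℝ, ∏ x ∈ Y', (Sum.elim (fun b : {b : B // b ≠ b₀} => f b.1)
        (fun _ : C => (1 : ℝ)) x) = ∏ b ∈ Y.erase b₀, f b := by
      intro f
      refine Finset.prod_bij' (fun x _ => Sum.elim (fun b : {b : B // b ≠ b₀} => b.1)
        (fun _ : C => b₀) x)
        (fun b hb => Sum.inl ⟨b, (Finset.mem_erase.1 hb).1⟩) ?_ ?_ ?_ ?_ ?_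
      · intro x hx
        rcases x with b | c
        · rw [hmemY'] at hx
          exact Finset.mem_erase.2 ⟨b.2, hx⟩
        · exact absurd hx (hmemY'c c)
      · intro b hb
        exact (hmemY' _).2 (Finset.mem_erase.1 hb).2
      · intro x hx
        rcases x with b | c
        · rfl
        · exact absurd hx (hmemY'c c)
      · intro b hb
        rfl
      · intro x hx
        rcases x with b | c
        · rfl
        · exact absurd hx (hmemY'c c)
    have hcardY' : Y'.card = n := by
      have h1 : Y'.card = (Y.erase b₀).card := by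
        refine Finset.card_bij' (fun x _ => Sum.elim (fun b : {b : B // b ≠ b₀} => b.1)
          (fun _ : C => b₀) x)
          (fun b hb => Sum.inl ⟨b, (Finset.mem_erase.1 hb).1⟩) ?_ ?_ ?_ ?_
        · intro x hx
          rcases x with b | c
          · rw [hmemY'] at hx
            exact Finset.mem_erase.2 ⟨b.2, hx⟩
          · exact absurd hx (hmemY'c c)
        · intro b hb
          exact (hmemY' _).2 (Finset.mem_erase.1 hb).2
        · intro x hx
          rcases x with b | c
          · rfl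
          · exact absurd hx (hmemY'c c)
        · intro b hb
          rfl
      rw [h1, Finset.card_erase_of_mem hb₀, hYc]
      rfl
    obtain ⟨VY, hCc, hin, hIx, hfin, hKd⟩ := ih V' hV' _ _ _ ψ had Y' hcardY' (by
      intro x hx
      rcases x with b | c
      · rw [hmemY'] at hx
        exact hY b.1 hx
      · exact absurd hx (hmemY'c c))
    have hr0 : r b₀ ≤ ρ := hY b₀ hb₀
    refine ⟨VY, ?_, ?_, ?_, hfin, ?_⟩
    · exact Cc_trans w (Cc_mono w (Cc_step w hstep hV') hr0) hCc le_rfl
    · intro b hb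
      have hne : b ≠ b₀ := fun h' => hb (h' ▸ hb₀)
      have h1 := hin (Sum.inl ⟨b, hne⟩) (by rw [hmemY']; exact hb)
      exact h1
    · have h1 : ∏ x ∈ Y', qq p (Sum.elim (fun b : {b : B // b ≠ b₀} => r b.1) s x) =
          ∏ b ∈ Y.erase b₀, qq p (r b) := by
        rw [← hbij (fun b => qq p (r b))]
        refine Finset.prod_congr rfl fun x hx => ?_
        rcases x with b | c
        · rfl
        · exact absurd hx (hmemY'c c)
      rw [hIx, h1, Ix_step w hstep hV', ← Finset.mul_prod_erase Y (fun b => qq p (r b)) hb₀]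
      ring
    · intro t ht
      obtain ⟨Z, hZ, hZc⟩ := hKd t ht
      refine ⟨Finset.univ.filter fun b => b ∉ Y ∧ t < r b, fun b => by simp, ?_⟩
      rw [hZc]
      refine Finset.card_bij' (fun x _ => Sum.elim (fun b : {b : B // b ≠ b₀} => b.1)
        (fun _ : C => b₀) x)
        (fun b hb => Sum.inl ⟨b, fun h' => (Finset.mem_filter.1 hb).2.1 (h' ▸ hb₀)⟩) ?_ ?_ ?_ ?_
      · intro x hx
        rw [hZ] at hx
        rcases x with b | c
        · rw [hmemY'] at hx
          exact Finset.mem_filter.2 ⟨Finset.mem_univ _, hx.1, hx.2⟩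
        · exfalso
          have h1 : t < s c := hx.2
          have h2 := hs c
          have h3 : w.wm * r b₀ ≤ w.wm * ρ := mul_le_mul_of_nonneg_left hr0 w.wm_pos.le
          linarith
      · intro b hb
        rw [Finset.mem_filter] at hb
        rw [hZ, hmemY']
        exact ⟨hb.2.1, hb.2.2⟩
      · intro x hx
        rw [hZ] at hx
        rcases x with b | c
        · rfl
        · exfalso
          have h1 : t < s c := hx.2
          have h2 := hs c
          have h3 : w.wm * r b₀ ≤ w.wm * ρ := mul_le_mul_of_nonneg_left hr0 w.wm_pos.le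
          linarith
      · intro b hb
        rfl

open Classical in
theorem cut_many [Fact p.Prime] {V : Subgroup G} (hV : Op w V) {B : Type} [Fintype B]
    {v : B → G} {r : B → ℝ} {χ : B → G → ZMod p} (h : Adapted w V (ChS w V) v r χ)
    (Y : Finset B) {ρ : ℝ} (hρ : 0 < ρ) (hY : ∀ b ∈ Y, r b ≤ ρ) (hY' : ∀ b, b ∉ Y → ρ ≤ r b) :
    ∃ VY : Subgroup G, Cc w V ρ VY ∧ (∀ b, b ∉ Y → v b ∈ VY) ∧
      Ix w VY = Ix w V * ∏ b ∈ Y, qq p (r b) ∧ Module.Finite (ZMod p) (ChS w VY) ∧
      ∀ t, w.wm * ρ ≤ t → Kd w VY t = (Finset.univ.filter fun b => b ∉ Y ∧ t < r b).card := by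
  have _ := hY'
  obtain ⟨VY, h1, h2, h3, h4, h5⟩ := cutMany_ind w hρ Y.card V hV B v r χ h Y rfl hY
  refine ⟨VY, h1, h2, h3, h4, fun t ht => ?_⟩
  obtain ⟨Z, hZ, hZc⟩ := h5 t ht
  rw [hZc]
  refine congrArg Finset.card ?_
  ext b
  rw [hZ, Finset.mem_filter]
  exact ⟨fun hb => ⟨Finset.mem_univ _, hb⟩, fun hb => hb.2⟩

open Classical in
/-- consequences for the masses -/
theorem cut_many_xd [Fact p.Prime] {V : Subgroup G} (hV : Op w V) {B : Type} [Fintype B]
    {v : B → G} {r : B → ℝ} {χ : B → G → ZMod p} (h : Adapted w V (ChS w V) v r χ)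
    (Y : Finset B) {ρ : ℝ} (hρ : 0 < ρ) (hY' : ∀ b, b ∉ Y → ρ ≤ r b)
    {VY : Subgroup G} (hf : Module.Finite (ZMod p) (ChS w VY))
    (hK : ∀ t, w.wm * ρ ≤ t → Kd w VY t =
      (Finset.univ.filter fun b => b ∉ Y ∧ t < r b).card) :
    xm w VY - xd w VY (w.wm * ρ) = xm w V - ∑ b ∈ Y, r b := by
  have _ := hV
  obtain ⟨C, hC, u, s, ψ, had⟩ := exists_adapted w (ChS w VY) le_rfl hf
  let _ := hC
  set τ := w.wm * ρ with hτ
  have hτ0 : 0 < τ := mul_pos w.wm_pos hρ
  have hτρ : τ < ρ := by
    rw [hτ]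
    have := w.wm_lt
    nlinarith
  rw [adapted_xm w had, adapted_xd w had hτ0, adapted_xm w h]
  -- the two counting functions
  set m : C → ℝ := fun c => if τ < s c then s c else 0 with hm
  set m' : B → ℝ := fun b => if b ∈ Y then 0 else r b with hm'
  have hs := fun c => adapted_lt w had c
  have hr := fun b => adapted_lt w h b
  have h1 : ∑ c, s c - ∑ c ∈ Finset.univ.filter (fun c => s c ≤ τ), s c = ∑ c, m c := by
    have h2 := Finset.sum_filter_add_sum_filter_not Finset.univ (fun c => s c ≤ τ) s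
    have h3 : ∑ c, m c = ∑ c ∈ Finset.univ.filter (fun c => ¬ s c ≤ τ), s c := by
      rw [Finset.sum_filter]
      refine Finset.sum_congr rfl fun c _ => ?_
      rw [hm]
      by_cases hc : τ < s c
      · simp only [if_pos hc, if_pos (not_le.2 hc)]
      · simp only [if_neg hc, if_neg (fun hh : ¬ s c ≤ τ => hc (not_le.1 hh))]
    rw [h3, ← h2]
    ring
  have h1' : ∑ b, r b - ∑ b ∈ Y, r b = ∑ b, m' b := by
    have h2 : ∑ b ∈ Y, r b = ∑ b, (if b ∈ Y then r b else 0) := by
      rw [← Finset.sum_filter]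
      refine Finset.sum_congr ?_ fun _ _ => rfl
      ext b
      simp
    rw [h2, ← Finset.sum_sub_distrib]
    refine Finset.sum_congr rfl fun b _ => ?_
    rw [hm']
    by_cases hb : b ∈ Y
    · simp only [if_pos hb, sub_self]
    · simp only [if_neg hb, sub_zero]
  rw [h1, h1']
  have hmb : ∀ c, 0 ≤ m c ∧ m c ≤ 1 := by
    intro c
    rw [hm]
    by_cases hc : τ < s c
    · simp only [if_pos hc]
      exact ⟨(hs c).1.le, (hs c).2.2.le⟩
    · simp only [if_neg hc]
      exact ⟨le_rfl, zero_le_one⟩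
  have hmb' : ∀ b, 0 ≤ m' b ∧ m' b ≤ 1 := by
    intro b
    rw [hm']
    by_cases hb : b ∈ Y
    · simp only [if_pos hb]
      exact ⟨le_rfl, zero_le_one⟩
    · simp only [if_neg hb]
      exact ⟨(hr b).1.le, (hr b).2.2.le⟩
  rw [← integral_count m (fun c => (hmb c).1) (fun c => (hmb c).2),
    ← integral_count m' (fun b => (hmb' b).1) (fun b => (hmb' b).2)]
  refine intervalIntegral.integral_congr fun t ht => ?_
  rw [Set.uIcc_of_le zero_le_one] at ht
  have ht0 : 0 ≤ t := ht.1
  have e1 : (Finset.univ.filter fun c => t < m c).card =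
      (Finset.univ.filter fun c => max τ t < s c).card := by
    refine congrArg Finset.card (Finset.filter_congr fun c _ => ?_)
    rw [hm]
    by_cases hc : τ < s c
    · simp only [if_pos hc]
      exact ⟨fun hh => max_lt hc hh, fun hh => (le_max_right _ _).trans_lt hh⟩
    · simp only [if_neg hc]
      exact ⟨fun hh => absurd hh (not_lt.2 ht0), fun hh => absurd ((le_max_left _ _).trans_lt hh) hc⟩
  have hmax0 : 0 < max τ t := lt_max_of_lt_left hτ0
  have e2 : (Finset.univ.filter fun c => max τ t < s c).card = Kd w VY (max τ t) :=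
    (adapted_Kd w had hmax0).symm
  have e3 := hK (max τ t) (le_max_left _ _)
  have e4 : (Finset.univ.filter fun b => b ∉ Y ∧ max τ t < r b).card =
      (Finset.univ.filter fun b => t < m' b).card := by
    refine congrArg Finset.card ?_
    ext b
    rw [Finset.mem_filter, Finset.mem_filter, hm']
    by_cases hb : b ∈ Y
    · simp only [if_pos hb]
      exact ⟨fun hh => absurd hb hh.2.1, fun hh => absurd hh.2 (not_lt.2 ht0)⟩
    · simp only [if_neg hb]
      refine ⟨fun hh => ⟨hh.1, (le_max_right _ _).trans_lt hh.2.2⟩, fun hh => ⟨hh.1, hb, ?_⟩⟩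
      exact max_lt (hτρ.trans_le (hY' b hb)) hh.2
  change ((Finset.univ.filter fun c => t < m c).card : ℝ) =
    ((Finset.univ.filter fun b => t < m' b).card : ℝ)
  rw [e1, e2, e3, e4]

end Pool.Agent.GGS
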