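import Pool.Agent.GGS.IxMono
import Pool.Agent.GGS.CocDef

/-!
# Heavy and deep parts of PBW monomials (paper, section 12)

`L = Ld ++ Lh`, the first `n = Ld.length` entries are the deep ones.
-/

namespace Pool.Agent.GGS

universe u

open Ser

variable {p : ℕ} {G : Type u} [Group G]

/-- number of deep factors -/
def dd (n : ℕ) (L : List (G × ℝ)) (a : Fin L.length → Fin p) : ℕ :=
  ∑ i : Fin L.length, if (i : ℕ) < n then (a i : ℕ) else 0

/-- weight of the heavy part -/
def hw (n : ℕ) (L : List (G × ℝ)) (a : Fin L.length → Fin p) : ℝ :=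
  ∏ i : Fin L.length, if (i : ℕ) < n then 1 else (L.get i).2 ^ (a i : ℕ)

end Pool.Agent.GGS
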