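import Pool.Agent.GGS.AdSum
import Pool.Agent.GGS.CcBas
import Pool.Agent.GGS.ChainEx

/-!
# Generators of `V' ∈ C(V; β)` modulo the heavy lifts (paper, section 12); Frattini argument
-/

namespace Pool.Agent.GGS

universe u

variable {p : ℕ} {G : Type u} [Group G] (w : WG p G)

open Classical in
/-- the characters of `V'` of depth at least `β` are determined by their values at the lifts -/
theorem deepgen_inj [Fact p.Prime] {V V' : Subgroup G} {β : ℝ} (hβ : 0 < β) (hC : Cc w V β V')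
    {B : Type} [Fintype B] {v : B → G} {r : B → ℝ}
    {χ : B → G → ZMod p} (hA : Adapted w V (ChS w V) v r χ) (v' : B → G)
    (hv' : ∀ b, β < r b → v' b ∈ V' ∧ w.W ((v b)⁻¹ * v' b) ≤ β) :
    (∀ b, β < r b → (fun g => if g ∈ V' then χ b g else 0) ∈ Ch w V' β) ∧
    (∀ b, β < r b → ∀ c, β < r c → χ b (v' c) = if b = c then 1 else 0) ∧
    ∀ ψ ∈ Ch w V' β, (∀ b, β < r b → ψ (v' b) = 0) → ψ = 0 := by
  have hmemV : ∀ b, β < r b → v' b ∈ V := fun b hb => hC.le (hv' b hb).1
  have h1 : ∀ b, β < r b → χ b ∈ Ch w V β := by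
    intro b hb
    obtain ⟨t, ht, h2⟩ := hA.inS b
    exact ⟨h2.1, h2.2.1, fun u hu hw => hA.van b u hu (lt_of_le_of_lt hw hb)⟩
  have h2 : ∀ b, β < r b → (fun g => if g ∈ V' then χ b g else 0) ∈ Ch w V' β :=
    fun b hb => ch_restrict w hC.le (h1 b hb)
  have h3 : ∀ b, β < r b → ∀ c, β < r c → χ b (v' c) = if b = c then 1 else 0 := by
    intro b hb c hc
    have e1 : v' c = v c * ((v c)⁻¹ * v' c) := by group
    have m1 : (v c)⁻¹ * v' c ∈ V := V.mul_mem (V.inv_mem (hA.mem c)) (hmemV c hc)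
    rw [e1, ch_mul w (hA.inS b) (hA.mem c) m1, hA.dual b c,
      (h1 b hb).2.2 _ m1 (hv' c hc).2, add_zero]
  refine ⟨h2, h3, ?_⟩
  -- the evaluation map
  let Hv : Type := {b : B // β < r b}
  let T : Ch w V' β →ₗ[ZMod p] (Hv → ZMod p) :=
    { toFun := fun ψ c => (ψ : G → ZMod p) (v' c.1)
      map_add' := fun _ _ => rfl
      map_smul' := fun _ _ => rfl }
  have : Module.Finite (ZMod p) (Ch w V' β) := Ch_finite w V' hβ
  have hdim : Module.finrank (ZMod p) (Ch w V' β) = Module.finrank (ZMod p) (Hv → ZMod p) := by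
    have e1 : Kd w V' β = Kd w V β := Cc_Kd w hβ hC le_rfl
    have e2 := adapted_Kd w hA hβ
    rw [Module.finrank_fintype_fun_eq_card]
    change Kd w V' β = _
    rw [e1, e2, Fintype.card_subtype]
  have hsurj : Function.Surjective T := by
    intro f
    refine ⟨∑ c : Hv, f c • ⟨_, h2 c.1 c.2⟩, ?_⟩
    rw [map_sum]
    funext d
    rw [Finset.sum_apply]
    have e3 : ∀ c : Hv, (T (f c • ⟨_, h2 c.1 c.2⟩)) d = if c = d then f c else 0 := by
      intro c
      rw [map_smul, Pi.smul_apply]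
      change f c • (if v' d.1 ∈ V' then χ c.1 (v' d.1) else 0) = _
      rw [if_pos (hv' d.1 d.2).1, h3 c.1 c.2 d.1 d.2]
      by_cases hcd : c = d
      · rw [if_pos hcd, if_pos (congrArg Subtype.val hcd), smul_eq_mul, mul_one]
      · rw [if_neg hcd, if_neg (fun h => hcd (Subtype.ext h)), smul_zero]
    rw [Finset.sum_congr rfl fun c _ => e3 c, Finset.sum_ite_eq' Finset.univ d f,
      if_pos (Finset.mem_univ d)]
  have hinj : Function.Injective T :=
    (LinearMap.injective_iff_surjective_of_finrank_eq_finrank hdim).2 hsurj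
  intro ψ hψ h0
  have h4 : T ⟨ψ, hψ⟩ = 0 := by
    funext c
    exact h0 c.1 c.2
  have h5 : (⟨ψ, hψ⟩ : Ch w V' β) = 0 := hinj (by rw [h4, map_zero])
  exact congrArg Subtype.val h5

theorem deep_gens [Fact p.Prime] {V V' : Subgroup G} {β : ℝ} (hβ : 0 < β) (hC : Cc w V β V')
    (hf' : Module.Finite (ZMod p) (ChS w V')) {B : Type} [Fintype B] {v : B → G} {r : B → ℝ}
    {χ : B → G → ZMod p} (hA : Adapted w V (ChS w V) v r χ) (v' : B → G)
    (hv' : ∀ b, β < r b → v' b ∈ V' ∧ w.W ((v b)⁻¹ * v' b) ≤ β) :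
    ∃ (k : ℕ) (y : Fin k → G) (s : Fin k → ℝ), (∀ i, y i ∈ V' ∧ w.W (y i) = s i ∧ 0 < s i ∧ s i ≤ β) ∧
      ∑ i, s i = xd w V' β ∧
      ∀ ψ ∈ ChS w V', (∀ b, β < r b → ψ (v' b) = 0) → (∀ i, ψ (y i) = 0) → ψ = 0 := by
  classical
  obtain ⟨h2, h3, hker⟩ := deepgen_inj w hβ hC hA v' hv'
  -- the space of characters which vanish at the lifts
  let S' : Submodule (ZMod p) (G → ZMod p) :=
    { carrier := {ψ | ψ ∈ ChS w V' ∧ ∀ b, β < r b → ψ (v' b) = 0}
      add_mem' := fun {a b} ha hb => ⟨(ChS w V').add_mem ha.1 hb.1, fun c hc => by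
        rw [Pi.add_apply, ha.2 c hc, hb.2 c hc, add_zero]⟩
      zero_mem' := ⟨(ChS w V').zero_mem, fun _ _ => rfl⟩
      smul_mem' := fun c f hf => ⟨(ChS w V').smul_mem c hf.1, fun d hd => by
        rw [Pi.smul_apply, hf.2 d hd, smul_zero]⟩ }
  have hS' : S' ≤ ChS w V' := fun ψ hψ => hψ.1
  have := hf'
  have hfin : Module.Finite (ZMod p) S' := Submodule.finiteDimensional_of_le hS'
  obtain ⟨B', _, y, u, χ', hA'⟩ := exists_adapted w S' hS' hfin
  have hu : ∀ b, u b ≤ β := by
    intro b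
    by_contra hcon
    have hcon' : β < u b := not_le.1 hcon
    have m1 : χ' b ∈ Ch w V' β := by
      obtain ⟨t, ht, h4⟩ := (hA'.inS b).1
      exact ⟨h4.1, h4.2.1, fun g hg hw => hA'.van b g hg (lt_of_le_of_lt hw hcon')⟩
    have h5 := hker _ m1 (hA'.inS b).2
    have h6 := hA'.dual b b
    rw [h5, if_pos rfl] at h6
    exact zero_ne_one h6
  let e := Fintype.equivFin B'
  refine ⟨Fintype.card B', fun i => y (e.symm i), fun i => u (e.symm i), fun i => ?_, ?_, ?_⟩
  · exact ⟨hA'.mem _, hA'.wv _, hA'.pos _, hu _⟩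
  · rw [Equiv.sum_comp e.symm u]
    -- the combined family
    let Hv : Type := {b : B // β < r b}
    let vv : Hv ⊕ B' → G := Sum.elim (fun b => v' b.1) y
    let rr : Hv ⊕ B' → ℝ := Sum.elim (fun b => r b.1) u
    let cc : Hv ⊕ B' → G → ZMod p :=
      Sum.elim (fun b => fun g => if g ∈ V' then χ b.1 g else 0) χ'
    have hAA : Adapted w V' (ChS w V') vv rr cc := by
      refine ⟨?_, ?_, ?_, ?_, ?_, ?_, ?_⟩
      · rintro (b | b)
        · exact (hv' b.1 b.2).1
        · exact hA'.mem b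
      · rintro (b | b)
        · exact hA.pos b.1
        · exact hA'.pos b
      · rintro (b | b)
        · change w.W (v' b.1) = r b.1
          have e1 : v' b.1 = v b.1 * ((v b.1)⁻¹ * v' b.1) := by group
          rw [e1, W_mul_eq w, hA.wv]
          rw [hA.wv]
          exact lt_of_le_of_lt (hv' b.1 b.2).2 b.2
        · exact hA'.wv b
      · rintro (b | b)
        · exact ⟨β, hβ, h2 b.1 b.2⟩
        · exact hS' (hA'.inS b)
      · rintro (b | b) (c | c)
        · change (if v' c.1 ∈ V' then χ b.1 (v' c.1) else 0) = _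
          rw [if_pos (hv' c.1 c.2).1, h3 b.1 b.2 c.1 c.2]
          by_cases hbc : b = c
          · rw [if_pos (congrArg Subtype.val hbc), if_pos (congrArg Sum.inl hbc)]
          · rw [if_neg (fun h => hbc (Subtype.ext h)), if_neg (fun h => hbc (Sum.inl_injective h))]
        · rw [if_neg (by simp)]
          exact (h2 b.1 b.2).2.2 _ (hA'.mem c) ((hA'.wv c).le.trans (hu c))
        · rw [if_neg (by simp)]
          exact (hA'.inS b).2 c.1 c.2
        · change χ' b (y c) = _
          rw [hA'.dual b c]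
          by_cases hbc : b = c
          · rw [if_pos hbc, if_pos (congrArg Sum.inr hbc)]
          · rw [if_neg hbc, if_neg (fun h => hbc (Sum.inr_injective h))]
      · rintro (b | b) g hg hw
        · change (if g ∈ V' then χ b.1 g else 0) = 0
          rw [if_pos hg]
          exact hA.van b.1 g (hC.le hg) hw
        · exact hA'.van b g hg hw
      · intro ψ hψ h0
        exact hA'.full ψ ⟨hψ, fun b hb => h0 (Sum.inl ⟨b, hb⟩)⟩ fun b => h0 (Sum.inr b)
    rw [adapted_xd w hAA hβ]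
    rw [Finset.sum_filter, Fintype.sum_sum_type]
    have z1 : ∀ b : Hv, (if rr (Sum.inl b) ≤ β then rr (Sum.inl b) else 0) = 0 := fun b =>
      if_neg (not_le.2 b.2)
    have z2 : ∀ b : B', (if rr (Sum.inr b) ≤ β then rr (Sum.inr b) else 0) = u b := fun b =>
      if_pos (hu b)
    rw [Finset.sum_congr rfl fun b _ => z1 b, Finset.sum_congr rfl fun b _ => z2 b,
      Finset.sum_const_zero, zero_add]
  · intro ψ hψ h0 h1
    refine hA'.full ψ ⟨hψ, h0⟩ fun b => ?_
    have h4 : ψ (y (e.symm (e b))) = 0 := h1 (e b)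
    rwa [Equiv.symm_apply_apply] at h4

/-- If every character of `V` which vanishes on `S` is zero, then `S` generates `V` modulo all `V_t`. -/
theorem frattini [Fact p.Prime] {V : Subgroup G} (hV : Op w V) (S : Set G) (hS : ∀ s ∈ S, s ∈ V)
    (h : ∀ ψ ∈ ChS w V, (∀ s ∈ S, ψ s = 0) → ψ = 0) {t : ℝ} (ht : 0 < t) (g : G) (hg : g ∈ V) :
    ∃ h ∈ Subgroup.closure S, w.W (h⁻¹ * g) ≤ t := by
  let H : Subgroup G := (Subgroup.closure S ⊔ w.ball t) ⊓ V
  have hop : Op w H := op_inf w (op_mono w (op_ball w ht) le_sup_right) hV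
  have hHV : H = V := by
    by_contra hne
    have hlt : H < V := lt_of_le_of_ne inf_le_right hne
    obtain ⟨V₁, y, r, hle, hstep⟩ := exists_step_above w hop hlt
    obtain ⟨χ, hχ, hy, hker⟩ := char_of_step w hstep (op_mono w hop hle)
    have h1 : ∀ s ∈ S, χ s = 0 := by
      intro s hs
      refine (hker s (hS s hs)).1 (hle ?_)
      exact ⟨Subgroup.mem_sup_left (Subgroup.subset_closure hs), hS s hs⟩
    have h2 := h χ hχ h1
    rw [h2] at hy
    exact zero_ne_one hy
  have hg' : g ∈ H := by rw [hHV]; exact hg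
  have hg2 : g ∈ Subgroup.closure S ⊔ w.ball t := hg'.1
  obtain ⟨a, ha, b, hb, hab⟩ := Subgroup.mem_sup_of_normal_right.1 hg2
  refine ⟨a, ha, ?_⟩
  rw [← hab, inv_mul_cancel_left]
  exact (w.mem_ball ht.le).1 hb

end Pool.Agent.GGS
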