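import Mathlib

/-!
# Power series, free pro-`p` groups, weights, `W`-deficiency and `W`-index

The free pro-`p` group on `X` is the closed subgroup `Fhat p X` of the group of units of the ring
`Ser p X` of formal power series in noncommuting variables, topologically generated by the `1 + x`.
-/

namespace Pool.Agent.GGS

open scoped BigOperators

/-- The formal power series over `𝔽_p` in the noncommuting variables `x ∈ X`: the series
`∑ f(u) u` (sum over all words `u` in `X`) is given by its function of coefficients. -/
def Ser (p : ℕ) (X : Type*) : Type _ := List X → ZMod p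

namespace Ser

variable {p : ℕ} {X : Type*}

noncomputable instance : AddCommGroup (Ser p X) :=
  inferInstanceAs (AddCommGroup (List X → ZMod p))

noncomputable instance : Module (ZMod p) (Ser p X) :=
  inferInstanceAs (Module (ZMod p) (List X → ZMod p))

/-- The product topology (every `𝔽_p` is discrete). -/
instance : TopologicalSpace (Ser p X) := inferInstanceAs (TopologicalSpace (List X → ZMod p))

instance : IsTopologicalAddGroup (Ser p X) :=
  inferInstanceAs (IsTopologicalAddGroup (List X → ZMod p))

instance : T2Space (Ser p X) := inferInstanceAs (T2Space (List X → ZMod p))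

@[ext] lemma ext {f g : Ser p X} (h : ∀ u, f u = g u) : f = g := funext h

@[simp] lemma add_apply (f g : Ser p X) (u : List X) : (f + g) u = f u + g u := rfl
@[simp] lemma sub_apply (f g : Ser p X) (u : List X) : (f - g) u = f u - g u := rfl
@[simp] lemma neg_apply (f : Ser p X) (u : List X) : (-f) u = - f u := rfl
@[simp] lemma zero_apply (u : List X) : (0 : Ser p X) u = 0 := rfl
@[simp] lemma smul_apply (c : ZMod p) (f : Ser p X) (u : List X) : (c • f) u = c * f u := rfl

/-- The word `v` as a power series. -/
noncomputable def mon (v : List X) : Ser p X := fun u => by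
  classical exact if u = v then 1 else 0

/-- The product of power series (concatenation of words). -/
noncomputable instance : Mul (Ser p X) :=
  ⟨fun f g u => ∑ i ∈ Finset.range (u.length + 1), f (u.take i) * g (u.drop i)⟩

noncomputable instance : One (Ser p X) := ⟨mon []⟩

lemma mul_apply (f g : Ser p X) (u : List X) :
    (f * g) u = ∑ i ∈ Finset.range (u.length + 1), f (u.take i) * g (u.drop i) := rfl

lemma one_def : (1 : Ser p X) = mon [] := rfl

@[simp] lemma one_nil : (1 : Ser p X) [] = 1 := by simp [one_def, mon]

@[simp] lemma one_cons (x : X) (u : List X) : (1 : Ser p X) (x :: u) = 0 := by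
  simp [one_def, mon]

/-- the series `x⁻¹ f` -/
def lder (x : X) (f : Ser p X) : Ser p X := fun u => f (x :: u)

@[simp] lemma lder_apply (x : X) (f : Ser p X) (u : List X) : lder x f u = f (x :: u) := rfl

@[simp] lemma mul_nil (f g : Ser p X) : (f * g) [] = f [] * g [] := by simp [mul_apply]

lemma mul_cons (f g : Ser p X) (x : X) (u : List X) :
    (f * g) (x :: u) = f [] * g (x :: u) + (lder x f * g) u := by
  rw [mul_apply, List.length_cons, Finset.sum_range_succ', mul_apply, add_comm]
  simp [lder]

lemma lder_add (x : X) (f g : Ser p X) : lder x (f + g) = lder x f + lder x g := rfl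

lemma add_mul' (f g h : Ser p X) : (f + g) * h = f * h + g * h := by
  ext u; simp [mul_apply, add_mul, Finset.sum_add_distrib]

lemma mul_add' (f g h : Ser p X) : f * (g + h) = f * g + f * h := by
  ext u; simp [mul_apply, mul_add, Finset.sum_add_distrib]

lemma smul_mul' (c : ZMod p) (g h : Ser p X) : (c • g) * h = c • (g * h) := by
  ext u; simp [mul_apply, Finset.mul_sum, mul_assoc]

lemma mul_smul' (c : ZMod p) (g h : Ser p X) : g * (c • h) = c • (g * h) := by
  ext u
  simp only [mul_apply, Finset.mul_sum, smul_apply]
  exact Finset.sum_congr rfl fun i _ => by ring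

lemma lder_mul (x : X) (f g : Ser p X) :
    lder x (f * g) = f [] • lder x g + lder x f * g := by
  ext u; simp [mul_cons]

lemma mul_assoc' (f g h : Ser p X) : f * g * h = f * (g * h) := by
  ext u
  induction u generalizing f g h with
  | nil => simp [mul_assoc]
  | cons x u ih =>
    rw [mul_cons, mul_cons, lder_mul, add_mul', add_apply, ih, smul_mul', smul_apply, mul_cons,
      mul_nil]
    ring

lemma one_mul' (f : Ser p X) : 1 * f = f := by
  ext u
  cases u with
  | nil => simp
  | cons x u =>
    have : lder x (1 : Ser p X) = 0 := by ext v; simp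
    rw [mul_cons, this]
    simp [mul_apply]

lemma mul_one' (f : Ser p X) : f * 1 = f := by
  ext u
  induction u generalizing f with
  | nil => simp
  | cons x u ih => rw [mul_cons, ih]; simp

noncomputable instance : Ring (Ser p X) :=
  { (inferInstance : AddCommGroup (Ser p X)) with
    mul := (· * ·)
    one := 1
    left_distrib := mul_add'
    right_distrib := add_mul'
    zero_mul := fun f => by ext u; simp [mul_apply]
    mul_zero := fun f => by ext u; simp [mul_apply]
    mul_assoc := mul_assoc'
    one_mul := one_mul'
    mul_one := mul_one' }

noncomputable instance : Algebra (ZMod p) (Ser p X) :=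
  Algebra.ofModule (fun c f g => smul_mul' c f g) (fun c f g => mul_smul' c f g)

instance : ContinuousMul (Ser p X) where
  continuous_mul := by
    refine continuous_pi fun u => ?_
    change Continuous fun q : Ser p X × Ser p X =>
      ∑ i ∈ Finset.range (u.length + 1), q.1 (u.take i) * q.2 (u.drop i)
    refine continuous_finsetSum _ fun i _ => ?_
    exact ((continuous_apply (u.take i)).comp continuous_fst).mul
      ((continuous_apply (u.drop i)).comp continuous_snd)

@[simp] lemma mon_self (v : List X) : (mon v : Ser p X) v = 1 := by simp [mon]

lemma mon_ne {u v : List X} (h : u ≠ v) : (mon v : Ser p X) u = 0 := by simp [mon, h]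

/-- the inverse of `1 + x` -/
noncomputable def invGen (x : X) : Ser p X := fun u => by
  classical exact if u = List.replicate u.length x then (-1) ^ u.length else 0

lemma lder_mon_self (x : X) : lder x (mon [x] : Ser p X) = 1 := by
  ext u
  cases u with
  | nil => simp
  | cons y u => simp [mon]

lemma lder_mon_ne {x y : X} (h : y ≠ x) : lder y (mon [x] : Ser p X) = 0 := by
  ext u; simp [mon, h]

@[simp] lemma mon_nil_cons (x : X) : (mon [x] : Ser p X) [] = 0 := by simp [mon]

lemma invGen_nil (x : X) : (invGen x : Ser p X) [] = 1 := by simp [invGen]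

lemma lder_invGen_self (x : X) : lder x (invGen x : Ser p X) = - invGen x := by
  ext u
  by_cases h : u = List.replicate u.length x
  · have h' : x :: u = List.replicate (x :: u).length x := by
      rw [List.length_cons, List.replicate_succ, ← h]
    rw [lder_apply, neg_apply, invGen, invGen, if_pos h, if_pos h', List.length_cons, pow_succ]
    ring
  · have h' : ¬ x :: u = List.replicate (x :: u).length x := by
      intro h2
      rw [List.length_cons, List.replicate_succ] at h2
      exact h (List.cons.inj h2).2
    simp only [lder_apply, neg_apply, invGen, if_neg h, if_neg h', neg_zero]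

lemma lder_invGen_ne {x y : X} (h : y ≠ x) : lder y (invGen x : Ser p X) = 0 := by
  ext u
  have h' : ¬ y :: u = List.replicate (y :: u).length x := by
    intro h2
    rw [List.length_cons, List.replicate_succ] at h2
    exact h (List.cons.inj h2).1
  simp only [lder_apply, invGen, if_neg h', zero_apply]

lemma gen_mul_inv (x : X) : (1 + mon [x]) * invGen x = (1 : Ser p X) := by
  ext u
  cases u with
  | nil => simp [invGen_nil]
  | cons y u =>
    rw [add_mul, one_mul, add_apply, mul_cons]
    by_cases h : y = x
    · subst h
      rw [lder_mon_self, one_mul]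
      have := congrFun (lder_invGen_self (p := p) y) u
      rw [lder_apply] at this
      rw [this]
      simp
    · rw [lder_mon_ne h, zero_mul]
      have := congrFun (lder_invGen_ne (p := p) h) u
      rw [lder_apply] at this
      rw [this]
      simp

lemma inv_mul_gen (x : X) : invGen x * (1 + mon [x]) = (1 : Ser p X) := by
  ext u
  induction u with
  | nil => simp [invGen_nil]
  | cons y u ih =>
    rw [mul_cons, invGen_nil, one_mul]
    by_cases h : y = x
    · subst h
      rw [lder_invGen_self, neg_mul, neg_apply, ih]
      have := congrFun (lder_mon_self (p := p) y) u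
      rw [lder_apply] at this
      rw [add_apply, this]
      simp
    · rw [lder_invGen_ne h, zero_mul]
      have := congrFun (lder_mon_ne (p := p) h) u
      rw [lder_apply] at this
      rw [add_apply, this]
      simp

/-- The unit `1 + x`. -/
noncomputable def gen (x : X) : (Ser p X)ˣ where
  val := 1 + mon [x]
  inv := invGen x
  val_inv := gen_mul_inv x
  inv_val := inv_mul_gen x

/-- The weight of a word: the product of the weights of its letters. -/
def wt (w : X → ℝ) (u : List X) : ℝ := (u.map w).prod

/-- The weight of a series: the largest weight of a word which occurs in it (`0` for `f = 0`). -/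
noncomputable def sw (w : X → ℝ) (f : Ser p X) : ℝ := ⨆ u : {u : List X // f u ≠ 0}, wt w u.1

end Ser

open Ser

/-- The free pro-`p` group on `X` (on the set `X` converging to `1`, if `X` is infinite): the closed
subgroup of the group of units of the power series ring generated by the elements `1 + x`. -/
noncomputable def Fhat (p : ℕ) (X : Type*) : Subgroup (Ser p X)ˣ :=
  (Subgroup.closure (Set.range Ser.gen)).topologicalClosure

/-- The weight `W̃(g) = w(g - 1)` of an element of the free pro-`p` group. -/
noncomputable def Wt {p : ℕ} {X : Type*} (w : X → ℝ) (g : Fhat p X) : ℝ :=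
  Ser.sw w (((g : (Ser p X)ˣ) : Ser p X) - 1)

section

variable {G : Type*} [Group G]

/-- The function on `G` induced by `W̃` and `π : F → G`: `W(g) = inf {W̃(h) : π(h) = g}`. -/
noncomputable def indW {p : ℕ} {X : Type*} (w : X → ℝ) (π : Fhat p X →* G) (g : G) : ℝ :=
  ⨅ h : {h : Fhat p X // π h = g}, Wt w h.1

/-- A presentation `G = ⟨X | R⟩` of the pro-`p` group `G` (`π` is a continuous epimorphism of the free
pro-`p` group on `X` onto `G`, whose kernel is the closed normal subgroup generated by `R`), with
weights `w x ∈ (0,1)` such that `∑ w x < ∞`. -/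
structure Presn (p : ℕ) (G : Type*) [Group G] [TopologicalSpace G] where
  /-- the generators -/
  X : Type
  /-- their weights -/
  w : X → ℝ
  pos : ∀ x, 0 < w x
  lt_one : ∀ x, w x < 1
  summable : Summable w
  /-- the epimorphism -/
  π : Fhat p X →* G
  continuous : Continuous π
  surjective : Function.Surjective π
  /-- the relators -/
  R : Set (Fhat p X)
  ker : π.ker = (Subgroup.normalClosure R).topologicalClosure

variable {p : ℕ} [TopologicalSpace G]

open Classical in
/-- `W̃(X) - W̃(R) - 1` (this is `-∞` if `W̃(R) = ∞`). -/
noncomputable def Presn.deficiency (P : Presn p G) : EReal :=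
  if Summable (fun r : P.R => Wt P.w r.1) then
    ((∑' x, P.w x - ∑' r : P.R, Wt P.w r.1 - 1 : ℝ) : EReal)
  else ⊥

/-- `def_W(G)`: the supremum of the deficiencies of the weighted presentations which induce `W`. -/
noncomputable def wDef (p : ℕ) (W : G → ℝ) : EReal :=
  ⨆ P : {P : Presn p G // indW P.w P.π = W}, P.1.deficiency

/-- `c_α(G/H) = log_p |G_α H / G_{<α} H|`. -/
noncomputable def cIndex (p : ℕ) (W : G → ℝ) (H : Subgroup G) (α : ℝ) : ℕ :=
  Nat.log p ((Subgroup.closure ({g | W g < α} ∪ (H : Set G))).relIndex
    (Subgroup.closure ({g | W g ≤ α} ∪ (H : Set G))))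

/-- The `W`-index `[G:H]_W`: the product over `α ∈ Im W` of the factors
`((1 - α^p) / (1 - α)) ^ c_α(G/H) ≥ 1`, that is, the supremum of the finite partial products. -/
noncomputable def wIndex (p : ℕ) (W : G → ℝ) (H : Subgroup G) : EReal :=
  ⨆ s : Finset (Set.range W), ((∏ α ∈ s, ((1 - (α : ℝ) ^ p) / (1 - α)) ^ cIndex p W H α : ℝ) : EReal)

end

end Pool.Agent.GGS
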