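import Pool.Agent.GGS.Defs

/-!
# Evaluation of power series (paper, 5.1)

`evs N k f = ∑_{|u| < k} f(u) N_u`.  If all words of length `≥ k` in the `N x` vanish, it is a ring
homomorphism `Ser p X → E`.
-/

namespace Pool.Agent.GGS

open Ser

variable {p : ℕ} {X : Type*} [Fintype X] {E : Type*} [Ring E] [Algebra (ZMod p) E]

/-- `∑_{|u| < k} f(u) N_u` -/
noncomputable def evs (N : X → E) (k : ℕ) (f : List X → ZMod p) : E :=
  ∑ n ∈ Finset.range k, ∑ u : Fin n → X, f (List.ofFn u) • ((List.ofFn u).map N).prod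

/-- all words of length `≥ k` in the `N x` vanish -/
def NilW (N : X → E) (k : ℕ) : Prop := ∀ u : List X, k ≤ u.length → (u.map N).prod = 0

/-- the part of degree `n` -/
noncomputable def Ev_T (N : X → E) (n : ℕ) (f : Ser p X) : E :=
  ∑ u : Fin n → X, f (List.ofFn u) • ((List.ofFn u).map N).prod

theorem Ev_T_zero (N : X → E) (f : Ser p X) : Ev_T N 0 f = f [] • (1 : E) := by
  unfold Ev_T
  rw [Fintype.sum_unique]
  simp

theorem Ev_T_succ (N : X → E) (n : ℕ) (f : Ser p X) :
    Ev_T N (n + 1) f = ∑ x, N x * Ev_T N n (lder x f) := by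
  unfold Ev_T
  rw [← (Fin.consEquiv fun _ : Fin (n + 1) => X).sum_comp, Fintype.sum_prod_type]
  refine Finset.sum_congr rfl fun x _ => ?_
  rw [Finset.mul_sum]
  refine Finset.sum_congr rfl fun u _ => ?_
  have h : List.ofFn ((Fin.consEquiv fun _ : Fin (n + 1) => X) (x, u)) = x :: List.ofFn u := by
    show List.ofFn (Fin.cons x u : Fin (n + 1) → X) = x :: List.ofFn u
    rw [List.ofFn_cons]
  rw [h, List.map_cons, List.prod_cons, lder_apply, mul_smul_comm]

theorem Ev_T_add (N : X → E) (n : ℕ) (f g : Ser p X) :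
    Ev_T N n (f + g) = Ev_T N n f + Ev_T N n g := by
  unfold Ev_T
  rw [← Finset.sum_add_distrib]
  refine Finset.sum_congr rfl fun u _ => ?_
  rw [← add_smul]
  rfl

theorem Ev_T_smul (N : X → E) (n : ℕ) (c : ZMod p) (f : Ser p X) :
    Ev_T N n (c • f) = c • Ev_T N n f := by
  unfold Ev_T
  rw [Finset.smul_sum]
  refine Finset.sum_congr rfl fun u _ => ?_
  rw [smul_smul]
  rfl

theorem Ev_T_null (N : X → E) (n : ℕ) : Ev_T N n (0 : Ser p X) = 0 := by
  unfold Ev_T
  refine Finset.sum_eq_zero fun u _ => ?_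
  rw [Ser.zero_apply, zero_smul]

theorem Ev_T_nil {N : X → E} {k n : ℕ} (h : NilW N k) (hn : k ≤ n) (f : Ser p X) :
    Ev_T N n f = 0 := by
  unfold Ev_T
  refine Finset.sum_eq_zero fun u _ => ?_
  rw [h _ (by rw [List.length_ofFn]; exact hn), smul_zero]

theorem Ev_T_mul_nil {N : X → E} {k i j : ℕ} (h : NilW N k) (hn : k ≤ i + j)
    (f g : Ser p X) : Ev_T N i f * Ev_T N j g = 0 := by
  unfold Ev_T
  rw [Finset.sum_mul]
  refine Finset.sum_eq_zero fun u _ => ?_
  rw [Finset.mul_sum]
  refine Finset.sum_eq_zero fun v _ => ?_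
  have h1 : ((List.ofFn u).map N).prod * ((List.ofFn v).map N).prod = 0 := by
    rw [← List.prod_append, ← List.map_append]
    refine h _ ?_
    rw [List.length_append, List.length_ofFn, List.length_ofFn]
    exact hn
  rw [smul_mul_smul_comm, h1, smul_zero]

theorem Ev_T_mul (N : X → E) (n : ℕ) (f g : Ser p X) :
    Ev_T N n (f * g) = ∑ q ∈ Finset.HasAntidiagonal.antidiagonal n, Ev_T N q.1 f * Ev_T N q.2 g := by
  induction n generalizing f with
  | zero =>
    rw [Finset.Nat.antidiagonal_zero, Finset.sum_singleton, Ev_T_zero, Ev_T_zero, Ev_T_zero,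
      smul_mul_smul_comm, one_mul]
    congr 1
    exact mul_nil f g
  | succ n ih =>
    rw [Ev_T_succ, Finset.Nat.sum_antidiagonal_succ]
    have h1 : ∀ x, N x * Ev_T N n (lder x (f * g)) =
        f [] • (N x * Ev_T N n (lder x g)) +
          ∑ q ∈ Finset.HasAntidiagonal.antidiagonal n, (N x * Ev_T N q.1 (lder x f)) * Ev_T N q.2 g := by
      intro x
      rw [lder_mul, Ev_T_add, Ev_T_smul, ih, mul_add, mul_smul_comm, Finset.mul_sum]
      congr 1
      refine Finset.sum_congr rfl fun q _ => ?_
      rw [mul_assoc]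
    rw [Finset.sum_congr rfl fun x _ => h1 x, Finset.sum_add_distrib, ← Finset.smul_sum,
      ← Ev_T_succ, Finset.sum_comm]
    congr 1
    · rw [Ev_T_zero, smul_mul_assoc, one_mul]
    · refine Finset.sum_congr rfl fun q _ => ?_
      rw [Ev_T_succ, Finset.sum_mul]

theorem evs_congr (N : X → E) (k : ℕ) {f g : List X → ZMod p}
    (h : ∀ u : List X, u.length < k → f u = g u) : evs N k f = evs N k g := by
  unfold evs
  refine Finset.sum_congr rfl fun n hn => Finset.sum_congr rfl fun u _ => ?_
  rw [h _ (by rw [List.length_ofFn]; exact Finset.mem_range.1 hn)]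

theorem evs_add (N : X → E) (k : ℕ) (f g : List X → ZMod p) :
    evs N k (f + g) = evs N k f + evs N k g := by
  unfold evs
  rw [← Finset.sum_add_distrib]
  exact Finset.sum_congr rfl fun n _ => Ev_T_add N n f g

theorem evs_smul (N : X → E) (k : ℕ) (c : ZMod p) (f : List X → ZMod p) :
    evs N k (c • f) = c • evs N k f := by
  unfold evs
  rw [Finset.smul_sum]
  exact Finset.sum_congr rfl fun n _ => Ev_T_smul N n c f

theorem evs_mul {N : X → E} {k : ℕ} (h : NilW N k) (f g : Ser p X) :
    evs N k (f * g) = evs N k f * evs N k g := by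
  show ∑ n ∈ Finset.range k, Ev_T N n (f * g) =
    (∑ n ∈ Finset.range k, Ev_T N n f) * ∑ n ∈ Finset.range k, Ev_T N n g
  rw [Finset.sum_mul_sum, ← Finset.sum_product']
  have h1 : ∑ q ∈ Finset.range k ×ˢ Finset.range k, Ev_T N q.1 f * Ev_T N q.2 g =
      ∑ q ∈ (Finset.range k ×ˢ Finset.range k).filter (fun q => q.1 + q.2 < k),
        Ev_T N q.1 f * Ev_T N q.2 g := by
    rw [Finset.sum_filter]
    refine Finset.sum_congr rfl fun q _ => ?_
    by_cases hq : q.1 + q.2 < k
    · rw [if_pos hq]
    · rw [if_neg hq]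
      exact Ev_T_mul_nil h (not_lt.1 hq) f g
  rw [h1, Finset.sum_congr rfl fun n _ => Ev_T_mul N n f g, Finset.sum_sigma']
  refine Finset.sum_nbij' (fun s => s.2) (fun q => ⟨q.1 + q.2, q⟩) ?_ ?_ ?_ ?_ ?_
  · rintro ⟨n, i, j⟩ hs
    rw [Finset.mem_sigma, Finset.HasAntidiagonal.mem_antidiagonal, Finset.mem_range] at hs
    rw [Finset.mem_filter, Finset.mem_product, Finset.mem_range, Finset.mem_range]
    simp only at hs ⊢
    omega
  · rintro ⟨i, j⟩ hs
    rw [Finset.mem_filter] at hs
    rw [Finset.mem_sigma, Finset.HasAntidiagonal.mem_antidiagonal, Finset.mem_range]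
    exact ⟨hs.2, rfl⟩
  · rintro ⟨n, i, j⟩ hs
    rw [Finset.mem_sigma, Finset.HasAntidiagonal.mem_antidiagonal, Finset.mem_range] at hs
    obtain ⟨-, h2⟩ := hs
    simp only at h2
    subst h2
    rfl
  · rintro ⟨i, j⟩ _
    rfl
  · rintro ⟨n, i, j⟩ _
    rfl

theorem evs_one {N : X → E} {k : ℕ} (h : NilW N k) : evs N k (1 : Ser p X) = 1 := by
  rcases k with _ | k
  · have h1 := h [] le_rfl
    rw [List.map_nil, List.prod_nil] at h1
    rw [h1]
    exact Finset.sum_empty
  · show ∑ n ∈ Finset.range (k + 1), Ev_T N n (1 : Ser p X) = 1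
    rw [Finset.sum_range_succ', Ev_T_zero, one_nil, one_smul]
    have h1 : ∑ n ∈ Finset.range k, Ev_T N (n + 1) (1 : Ser p X) = 0 := by
      refine Finset.sum_eq_zero fun n _ => ?_
      rw [Ev_T_succ]
      refine Finset.sum_eq_zero fun x _ => ?_
      have h2 : lder x (1 : Ser p X) = 0 := by ext v; simp
      rw [h2, Ev_T_null, mul_zero]
    rw [h1, zero_add]

theorem Ev_T_mon (N : X → E) (n : ℕ) (u : List X) :
    Ev_T N n (mon u : Ser p X) = if n = u.length then (u.map N).prod else 0 := by
  classical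
  induction n generalizing u with
  | zero =>
    rw [Ev_T_zero]
    rcases u with _ | ⟨y, v⟩
    · simp
    · rw [mon_ne (List.cons_ne_nil y v).symm, zero_smul, if_neg]
      simp
  | succ n ih =>
    rw [Ev_T_succ]
    rcases u with _ | ⟨y, v⟩
    · rw [if_neg (by simp)]
      refine Finset.sum_eq_zero fun x _ => ?_
      have h2 : lder x (mon [] : Ser p X) = 0 := by
        ext w
        rw [lder_apply, mon_ne (List.cons_ne_nil x w), Ser.zero_apply]
      rw [h2, Ev_T_null, mul_zero]
    · rw [Finset.sum_eq_single y]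
      · have h2 : lder y (mon (y :: v) : Ser p X) = mon v := by
          ext w
          rw [lder_apply]
          by_cases hw : w = v
          · rw [hw, mon_self, mon_self]
          · rw [mon_ne hw, mon_ne]
            intro h3
            exact hw (List.cons.inj h3).2
        rw [h2, ih]
        by_cases hn : n = v.length
        · rw [if_pos hn, if_pos (by rw [List.length_cons, hn]), List.map_cons, List.prod_cons]
        · rw [if_neg hn, if_neg (by rw [List.length_cons]; omega), mul_zero]
      · intro x _ hx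
        have h2 : lder x (mon (y :: v) : Ser p X) = 0 := by
          ext w
          rw [lder_apply, mon_ne, Ser.zero_apply]
          intro h3
          exact hx (List.cons.inj h3).1
        rw [h2, Ev_T_null, mul_zero]
      · intro h3
        exact absurd (Finset.mem_univ y) h3

theorem evs_mon {N : X → E} {k : ℕ} (h : NilW N k) (u : List X) :
    evs N k (mon u : Ser p X) = (u.map N).prod := by
  show ∑ n ∈ Finset.range k, Ev_T N n (mon u : Ser p X) = (u.map N).prod
  rw [Finset.sum_congr rfl fun n _ => Ev_T_mon N n u, Finset.sum_ite_eq']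
  by_cases hu : u.length ∈ Finset.range k
  · rw [if_pos hu]
  · rw [if_neg hu]
    rw [Finset.mem_range, not_lt] at hu
    exact (h u hu).symm

/-- a larger bound gives the same value -/
theorem evs_le {N : X → E} {k l : ℕ} (h : NilW N k) (hl : k ≤ l) (f : List X → ZMod p) :
    evs N l f = evs N k f := by
  show ∑ n ∈ Finset.range l, Ev_T N n (f : Ser p X) = ∑ n ∈ Finset.range k, Ev_T N n (f : Ser p X)
  refine (Finset.sum_subset (Finset.range_mono hl) fun n _ hn => ?_).symm
  rw [Finset.mem_range, not_lt] at hn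
  exact Ev_T_nil h hn f

end Pool.Agent.GGS
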