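import Pool.Agent.GGS.Ev

/-!
# The free pro-`p` group (paper, section 5)

`Ser p X` is compact (a product of finite discrete spaces); the units of a compact Hausdorff topological ring are
compact (closed in `R × Rᵐᵒᵖ`).
-/

namespace Pool.Agent.GGS

open Ser

variable {p : ℕ} {X : Type*}

/-- the generator `1 + x` -/
noncomputable def genF (x : X) : Fhat p X :=
  ⟨Ser.gen x, Subgroup.le_topologicalClosure _ (Subgroup.subset_closure ⟨x, rfl⟩)⟩

/-- the power series of an element of `Fhat p X` -/
def toSer (g : Fhat p X) : Ser p X := ((g : (Ser p X)ˣ) : Ser p X)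

theorem toSer_mul (g h : Fhat p X) : toSer (g * h) = toSer g * toSer h := rfl

theorem toSer_one : toSer (1 : Fhat p X) = 1 := rfl

theorem toSer_gen (x : X) : toSer (genF x : Fhat p X) = 1 + mon [x] := rfl

theorem toSer_inj {g h : Fhat p X} (e : toSer g = toSer h) : g = h :=
  Subtype.ext (Units.ext e)

/-- the units with constant term `1` -/
def FhatBas_one : Subgroup (Ser p X)ˣ where
  carrier := {g | (g : Ser p X) [] = 1}
  mul_mem' := fun {a b} ha hb => by
    have ha' : (a : Ser p X) [] = 1 := ha
    have hb' : (b : Ser p X) [] = 1 := hb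
    change ((a * b : (Ser p X)ˣ) : Ser p X) [] = 1
    rw [Units.val_mul, mul_nil, ha', hb', mul_one]
  one_mem' := one_nil
  inv_mem' := fun {a} ha => by
    have ha' : (a : Ser p X) [] = 1 := ha
    change ((a⁻¹ : (Ser p X)ˣ) : Ser p X) [] = 1
    have h1 : ((a : Ser p X) * ((a⁻¹ : (Ser p X)ˣ) : Ser p X)) [] = (1 : Ser p X) [] := by
      rw [Units.mul_inv]
    rw [mul_nil, ha', one_mul, one_nil] at h1
    exact h1

theorem continuous_serApply (u : List X) : Continuous fun f : Ser p X => f u :=
  continuous_apply (A := fun _ : List X => ZMod p) u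

theorem continuous_unitApply (u : List X) : Continuous fun g : (Ser p X)ˣ => (g : Ser p X) u := by
  have h2 : Continuous fun g : (Ser p X)ˣ => (g : Ser p X) := Units.continuous_val
  exact (continuous_serApply u).comp h2

theorem toSer_nil (g : Fhat p X) : toSer g [] = 1 := by
  have h1 : Fhat p X ≤ FhatBas_one := by
    refine Subgroup.topologicalClosure_minimal _ ?_ ?_
    · rw [Subgroup.closure_le]
      rintro _ ⟨x, rfl⟩
      change (1 + mon [x] : Ser p X) [] = 1
      rw [add_apply, one_nil, mon_nil_cons, add_zero]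
    · exact (isClosed_singleton (x := (1 : ZMod p))).preimage (continuous_unitApply [])
  exact h1 g.2

theorem continuous_coeff (u : List X) : Continuous fun g : Fhat p X => toSer g u :=
  (continuous_unitApply u).comp continuous_subtype_val

theorem isClosed_Fhat : IsClosed ((Fhat p X : Subgroup (Ser p X)ˣ) : Set (Ser p X)ˣ) :=
  Subgroup.isClosed_topologicalClosure _

theorem compact_Fhat [Fact p.Prime] : CompactSpace (Fhat p X) := by
  have : CompactSpace (Ser p X) := inferInstanceAs (CompactSpace (List X → ZMod p))
  exact isCompact_iff_compactSpace.mp (isClosed_Fhat (p := p) (X := X)).isCompact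

instance : T2Space (Fhat p X) := inferInstance

/-- closed induction -/
theorem Fhat_induction {P : Fhat p X → Prop} (hcl : IsClosed {g | P g}) (h1 : P 1)
    (hgen : ∀ x, P (genF x)) (hmul : ∀ g h, P g → P h → P (g * h)) (hinv : ∀ g, P g → P g⁻¹)
    (g : Fhat p X) : P g := by
  let S : Subgroup (Fhat p X) :=
    { carrier := {g | P g}
      mul_mem' := fun {a b} ha hb => hmul a b ha hb
      one_mem' := h1
      inv_mem' := fun {a} ha => hinv a ha }
  have hmem : ∀ a : (Ser p X)ˣ, a ∈ S.map (Fhat p X).subtype ↔ ∃ h : a ∈ Fhat p X, P ⟨a, h⟩ := by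
    intro a
    constructor
    · rintro ⟨b, hb, rfl⟩
      exact ⟨b.2, hb⟩
    · rintro ⟨h, hP⟩
      exact ⟨⟨a, h⟩, hP, rfl⟩
  have hle : Fhat p X ≤ S.map (Fhat p X).subtype := by
    refine Subgroup.topologicalClosure_minimal _ ?_ ?_
    · rw [Subgroup.closure_le]
      rintro _ ⟨x, rfl⟩
      exact (hmem _).mpr ⟨(genF x).2, hgen x⟩
    · have he : Topology.IsClosedEmbedding (Subtype.val : Fhat p X → (Ser p X)ˣ) :=
        isClosed_Fhat.isClosedEmbedding_subtypeVal
      exact he.isClosedMap _ hcl
  obtain ⟨h, hP⟩ := (hmem _).mp (hle g.2)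
  exact hP

/-- If two continuous functions to a discrete space … a predicate depending on finitely many coefficients is clopen. -/
theorem isClopen_of_coeff [Finite X] {P : Fhat p X → Prop} (k : ℕ)
    (h : ∀ g g' : Fhat p X, (∀ u : List X, u.length < k → toSer g u = toSer g' u) → P g → P g') :
    IsClopen {g | P g} := by
  have hfin : Finite {u : List X // u.length < k} := (List.finite_length_lt X k).to_subtype
  let Φ : Fhat p X → ({u : List X // u.length < k} → ZMod p) := fun g u => toSer g u.1
  have hΦ : Continuous Φ := continuous_pi fun u => continuous_coeff u.1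
  have he : {g | P g} = Φ ⁻¹' (Φ '' {g | P g}) := by
    refine Set.Subset.antisymm (Set.subset_preimage_image _ _) ?_
    rintro g ⟨g', hg', e⟩
    exact h g' g (fun u hu => congrFun e ⟨u, hu⟩) hg'
  rw [he]
  exact (isClopen_discrete _).preimage hΦ

end Pool.Agent.GGS
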