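import Pool.Agent.GGS.Defs

/-!
# The `W`-index and quotients (paper, 13.0)

For `α` real the subgroups generated by `{g | W g < α}` (or `≤ α`) and the preimage of `H` are the preimages of the
subgroups generated by `{x | W' x < α}` (`≤ α`) and `H`, because these preimages contain `M`.  Relative indices of
preimages: `Subgroup.relIndex_comap` and similar.  If `α` is a value of `W` but not of `W'` then the exponent is `0`.
-/

namespace Pool.Agent.GGS

universe u

lemma redIdx_closure {G : Type u} [Group G] (M : Subgroup G) [M.Normal] (S : Set G)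
    (S' : Set (G ⧸ M)) (h1 : ∀ g ∈ S, QuotientGroup.mk' M g ∈ S')
    (h2 : ∀ x ∈ S', ∃ g ∈ S, QuotientGroup.mk' M g = x) (H : Subgroup (G ⧸ M)) :
    Subgroup.closure (S ∪ ((H.comap (QuotientGroup.mk' M) : Subgroup G) : Set G)) =
      (Subgroup.closure (S' ∪ (H : Set (G ⧸ M)))).comap (QuotientGroup.mk' M) := by
  apply le_antisymm
  · rw [Subgroup.closure_le]
    rintro g (hg | hg)
    · exact Subgroup.subset_closure (Or.inl (h1 g hg))
    · exact Subgroup.subset_closure (Or.inr hg)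
  · set A := Subgroup.closure (S ∪ ((H.comap (QuotientGroup.mk' M) : Subgroup G) : Set G)) with hA
    have hker : (QuotientGroup.mk' M).ker ≤ A := by
      intro g hg
      refine Subgroup.subset_closure (Or.inr ?_)
      change QuotientGroup.mk' M g ∈ H
      rw [MonoidHom.mem_ker.mp hg]
      exact H.one_mem
    have hle : Subgroup.closure (S' ∪ (H : Set (G ⧸ M))) ≤ A.map (QuotientGroup.mk' M) := by
      rw [Subgroup.closure_le]
      rintro x (hx | hx)
      · obtain ⟨g, hg, rfl⟩ := h2 x hx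
        exact ⟨g, Subgroup.subset_closure (Or.inl hg), rfl⟩
      · obtain ⟨g, rfl⟩ := QuotientGroup.mk'_surjective M x
        exact ⟨g, Subgroup.subset_closure (Or.inr hx), rfl⟩
    calc (Subgroup.closure (S' ∪ (H : Set (G ⧸ M)))).comap (QuotientGroup.mk' M)
        ≤ (A.map (QuotientGroup.mk' M)).comap (QuotientGroup.mk' M) := Subgroup.comap_mono hle
      _ = A := by rw [Subgroup.comap_map_eq, sup_eq_left.mpr hker]

lemma redIdx_cIndex {p : ℕ} {G : Type u} [Group G] (M : Subgroup G) [M.Normal] (W : G → ℝ)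
    (W' : G ⧸ M → ℝ) (h1 : ∀ g, W' (QuotientGroup.mk' M g) ≤ W g)
    (h2 : ∀ x, ∃ g, QuotientGroup.mk' M g = x ∧ W g ≤ W' x) (H : Subgroup (G ⧸ M)) (α : ℝ) :
    cIndex p W (H.comap (QuotientGroup.mk' M)) α = cIndex p W' H α := by
  unfold cIndex
  rw [redIdx_closure M {g | W g < α} {x | W' x < α} (fun g hg => (h1 g).trans_lt hg)
    (fun x hx => by
      obtain ⟨g, hg, hg'⟩ := h2 x
      exact ⟨g, hg'.trans_lt hx, hg⟩) H,
    redIdx_closure M {g | W g ≤ α} {x | W' x ≤ α} (fun g hg => (h1 g).trans hg)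
    (fun x hx => by
      obtain ⟨g, hg, hg'⟩ := h2 x
      exact ⟨g, hg'.trans hx, hg⟩) H,
    Subgroup.relIndex_comap,
    Subgroup.map_comap_eq_self_of_surjective (QuotientGroup.mk'_surjective M)]

lemma redIdx_zero {p : ℕ} {G : Type u} [Group G] (W : G → ℝ) (H : Subgroup G) {α : ℝ}
    (hα : α ∉ Set.range W) : cIndex p W H α = 0 := by
  have e : {g | W g < α} = {g | W g ≤ α} := by
    ext g
    constructor
    · intro h
      exact le_of_lt (show W g < α from h)
    · intro h
      exact lt_of_le_of_ne (show W g ≤ α from h) fun h' => hα ⟨g, h'⟩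
  unfold cIndex
  rw [e, Subgroup.relIndex_self]
  exact Nat.log_one_right p

theorem wIndex_comap {p : ℕ} (hp : 1 ≤ p) {G : Type u} [Group G] (M : Subgroup G) [M.Normal] (W : G → ℝ)
    (W' : G ⧸ M → ℝ) (h0 : ∀ g, 0 ≤ W g ∧ W g < 1) (h1 : ∀ g, W' (QuotientGroup.mk' M g) ≤ W g)
    (h2 : ∀ x, ∃ g, QuotientGroup.mk' M g = x ∧ W g ≤ W' x) (H : Subgroup (G ⧸ M)) :
    wIndex p W (H.comap (QuotientGroup.mk' M)) ≤ wIndex p W' H := by
  classical
  unfold wIndex
  refine iSup_le fun s => ?_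
  let T : Finset ℝ := s.map (Function.Embedding.subtype _)
  refine le_iSup_of_le (T.subtype (· ∈ Set.range W')) (le_of_eq ?_)
  congr 1
  have e1 := Finset.prod_subtype_eq_prod_filter (s := T) (p := (· ∈ Set.range W'))
    (fun α : ℝ => ((1 - α ^ p) / (1 - α)) ^ cIndex p W' H α)
  have e2 : ∏ α ∈ T with α ∈ Set.range W', ((1 - α ^ p) / (1 - α)) ^ cIndex p W' H α =
      ∏ α ∈ T, ((1 - α ^ p) / (1 - α)) ^ cIndex p W' H α := by
    refine Finset.prod_filter_of_ne fun α _ hne => ?_
    by_contra hcon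
    rw [redIdx_zero W' H hcon, pow_zero] at hne
    exact hne rfl
  have e3 : ∏ α ∈ T, ((1 - α ^ p) / (1 - α)) ^ cIndex p W' H α =
      ∏ α ∈ s, ((1 - (α : ℝ) ^ p) / (1 - (α : ℝ))) ^ cIndex p W' H (α : ℝ) :=
    Finset.prod_map _ _ _
  rw [e1, e2, e3]
  refine Finset.prod_congr rfl fun α _ => ?_
  rw [redIdx_cIndex M W W' h1 h2 H]

end Pool.Agent.GGS
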