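import Pool.Agent.GGS.RedKer
import Pool.Agent.GGS.RedIdx

/-!
# Reduction to finitely many generators (paper, 13.0)

Let `X₀` be finite with `∑_{x ∉ X₀} w x` less than the deficiency, `M = redM P X₀`, `D` from `exists_resD`,
`Q.X = X₀`, `Q.π g = P.π (D.ι g) mod M`, `Q.R = D.κ '' P.R`.  Onto: `red_kappa`.  Kernel: `red_ker`.
`wIndex_comap`: `h1` from `D.κ`, `wκ` and `red_kappa`; `h2`: the infimum `indW Q.w Q.π x` is attained (the fibre is
compact, `{h | Wt h ≤ t}` is closed), then `D.ι`, `wι`.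
-/

namespace Pool.Agent.GGS

universe u

open Ser

theorem isClosed_Wt_le {p : ℕ} {X : Type*} {w : X → ℝ} (h0 : ∀ x, 0 < w x) (h1 : ∀ x, w x ≤ 1) (t : ℝ) :
    IsClosed {h : Fhat p X | Wt w h ≤ t} := by
  rcases lt_or_ge t 0 with ht | ht
  · have e : {h : Fhat p X | Wt w h ≤ t} = ∅ := by
      ext h
      constructor
      · intro hh
        have hh' : Wt w h ≤ t := hh
        exact absurd (Wt_nonneg h0 h) (not_le.mpr (hh'.trans_lt ht))
      · intro hh
        exact absurd hh (Set.notMem_empty h)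
    rw [e]
    exact isClosed_empty
  · have e : {h : Fhat p X | Wt w h ≤ t} =
        ⋂ u : {u : List X // t < wt w u}, {h : Fhat p X | toSer h u.1 = (1 : Ser p X) u.1} := by
      ext h
      rw [Set.mem_iInter]
      constructor
      · intro hh u
        have hh' : Wt w h ≤ t := hh
        rw [Wt_def] at hh'
        by_contra hne
        have hne' : (toSer h - 1) u.1 ≠ 0 := by
          rw [sub_apply]
          exact sub_ne_zero.mpr hne
        exact absurd ((sw_le_iff h0 h1 _ ht).mp hh' u.1 hne') (not_le.mpr u.2)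
      · intro hh
        change Wt w h ≤ t
        rw [Wt_def]
        refine (sw_le_iff h0 h1 _ ht).mpr fun u hu => ?_
        by_contra hlt
        apply hu
        have h2 : toSer h u = (1 : Ser p X) u := hh ⟨u, not_le.mp hlt⟩
        rw [sub_apply, h2, sub_self]
    rw [e]
    refine isClosed_iInter fun u => ?_
    exact isClosed_eq (continuous_coeff u.1) continuous_const

/-- a common bound of the weights of a presentation -/
theorem Presn.exists_bd {p : ℕ} {G : Type*} [Group G] [TopologicalSpace G] (P : Presn p G) :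
    ∃ c : ℝ, 0 ≤ c ∧ c < 1 ∧ ∀ x, P.w x ≤ c := by
  have h := P.summable.tendsto_cofinite_zero
  have h2 : ∀ᶠ x in Filter.cofinite, P.w x < 1 / 2 :=
    h.eventually (gt_mem_nhds (by norm_num : (0 : ℝ) < 1 / 2))
  have h3 : {x | ¬ P.w x < 1 / 2}.Finite := Filter.eventually_cofinite.mp h2
  rcases h3.toFinset.eq_empty_or_nonempty with he | hne
  · refine ⟨1 / 2, by norm_num, by norm_num, fun x => ?_⟩
    by_contra hx
    have hx' : x ∈ h3.toFinset := by
      rw [Set.Finite.mem_toFinset]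
      exact fun hlt => hx hlt.le
    rw [he] at hx'
    exact absurd hx' (Finset.notMem_empty x)
  · obtain ⟨y, hy, hmax⟩ := Finset.exists_max_image h3.toFinset P.w hne
    refine ⟨max (P.w y) (1 / 2), le_max_of_le_right (by norm_num), max_lt (P.lt_one y) (by norm_num),
      fun x => ?_⟩
    by_cases hx : P.w x < 1 / 2
    · exact hx.le.trans (le_max_right _ _)
    · exact (hmax x (by rw [Set.Finite.mem_toFinset]; exact hx)).trans (le_max_left _ _)

theorem fin_red {p : ℕ} [Fact p.Prime] {G : Type u} [Group G] [TopologicalSpace G]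
    [IsTopologicalGroup G] [T2Space G] (P : Presn p G) (hdef : 0 < P.deficiency) :
    ∃ (M : Subgroup G) (_ : M.Normal), IsClosed (M : Set G) ∧
      ∃ Q : Presn p (G ⧸ M), Finite Q.X ∧ (Summable fun r : Q.R => Wt Q.w r.1) ∧
        0 < ∑' x, Q.w x - ∑' r : Q.R, Wt Q.w r.1 - 1 ∧
        ∀ H : Subgroup (G ⧸ M), wIndex p (indW P.w P.π) (H.comap (QuotientGroup.mk' M)) ≤
          wIndex p (indW Q.w Q.π) H := by
  classical
  -- the relators are summable and the deficiency is a positive real number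
  have hs : Summable (fun r : P.R => Wt P.w r.1) := by
    by_contra hns
    unfold Presn.deficiency at hdef
    rw [if_neg hns] at hdef
    exact absurd hdef not_lt_bot
  have hd : 0 < ∑' x, P.w x - ∑' r : P.R, Wt P.w r.1 - 1 := by
    unfold Presn.deficiency at hdef
    rw [if_pos hs] at hdef
    exact_mod_cast hdef
  -- the finite set of letters
  obtain ⟨S, hS⟩ : ∃ S : Finset P.X, ∑' r : P.R, Wt P.w r.1 + 1 < ∑ x ∈ S, P.w x := by
    have h1 : ∑' r : P.R, Wt P.w r.1 + 1 < ∑' x, P.w x := by linarith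
    have h2 : ∀ᶠ s : Finset P.X in Filter.atTop, ∑' r : P.R, Wt P.w r.1 + 1 < ∑ x ∈ s, P.w x :=
      P.summable.hasSum.eventually (lt_mem_nhds h1)
    exact h2.exists
  let X₀ : Set P.X := (S : Set P.X)
  have hw1 : ∀ x, P.w x ≤ 1 := fun x => (P.lt_one x).le
  obtain ⟨D⟩ := exists_resD p P.w P.pos hw1 X₀
  have hN : (redM P X₀).Normal := redM_normal P X₀
  have hcl : IsClosed ((redM P X₀ : Subgroup G) : Set G) := Subgroup.isClosed_topologicalClosure _
  have hk : ∀ h : Fhat p P.X, (QuotientGroup.mk' (redM P X₀)) (P.π (D.ι (D.κ h))) =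
      (QuotientGroup.mk' (redM P X₀)) (P.π h) := by
    intro h
    exact QuotientGroup.eq.mpr (red_kappa P X₀ D h)
  refine ⟨redM P X₀, hN, hcl, ?_⟩
  let Q : Presn p (G ⧸ redM P X₀) :=
    { X := X₀
      w := fun x => P.w x.1
      pos := fun x => P.pos x.1
      lt_one := fun x => P.lt_one x.1
      summable := P.summable.subtype X₀
      π := (QuotientGroup.mk' (redM P X₀)).comp (P.π.comp D.ι)
      continuous := by
        have h1 : Continuous (QuotientGroup.mk' (redM P X₀)) := QuotientGroup.continuous_mk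
        exact h1.comp (P.continuous.comp D.cι)
      surjective := by
        intro x
        obtain ⟨g, rfl⟩ := QuotientGroup.mk'_surjective _ x
        obtain ⟨h, rfl⟩ := P.surjective g
        exact ⟨D.κ h, hk h⟩
      R := D.κ '' P.R
      ker := by
        ext g
        rw [← red_ker P X₀ D g]
        change (QuotientGroup.mk' (redM P X₀)) (P.π (D.ι g)) = 1 ↔ _
        exact QuotientGroup.eq_one_iff _ }
  have hfin : Finite Q.X := by
    change Finite (S : Set P.X)
    exact Finset.finite_toSet S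
  have hQ1 : ∀ x, Q.w x ≤ 1 := fun x => (Q.lt_one x).le
  -- the relators
  have hR : ∀ r : Q.R, ∃ r' : P.R, D.κ r'.1 = r.1 := by
    rintro ⟨r, r', hr', rfl⟩
    exact ⟨⟨r', hr'⟩, rfl⟩
  choose f hf using hR
  have hfi : Function.Injective f := by
    intro r r' h
    apply Subtype.ext
    rw [← hf r, ← hf r', h]
  have hfw : ∀ r : Q.R, Wt Q.w r.1 ≤ Wt P.w (f r).1 := by
    intro r
    have h := D.wκ (f r).1
    rw [hf r] at h
    exact h
  have hsQ : Summable fun r : Q.R => Wt Q.w r.1 :=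
    Summable.of_nonneg_of_le (fun r => Wt_nonneg Q.pos r.1) hfw (hs.comp_injective hfi)
  have hsum : ∑' r : Q.R, Wt Q.w r.1 ≤ ∑' r : P.R, Wt P.w r.1 :=
    Summable.tsum_le_tsum_of_inj f hfi (fun r _ => Wt_nonneg P.pos r.1) hfw hsQ hs
  have hX : ∑' x, Q.w x = ∑ x ∈ S, P.w x := Finset.tsum_subtype' S P.w
  refine ⟨Q, hfin, hsQ, by rw [hX]; linarith, fun H => ?_⟩
  have hp : 1 ≤ p := (Fact.out : p.Prime).one_le
  have hbP : ∀ g, BddBelow (Set.range fun h : {h : Fhat p P.X // P.π h = g} => Wt P.w h.1) := by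
    intro g
    refine ⟨0, ?_⟩
    rintro _ ⟨h, rfl⟩
    exact Wt_nonneg P.pos h.1
  have hbQ : ∀ g, BddBelow (Set.range fun h : {h : Fhat p Q.X // Q.π h = g} => Wt Q.w h.1) := by
    intro g
    refine ⟨0, ?_⟩
    rintro _ ⟨h, rfl⟩
    exact Wt_nonneg Q.pos h.1
  refine wIndex_comap hp (redM P X₀) (indW P.w P.π) (indW Q.w Q.π) ?_ ?_ ?_ H
  · intro g
    constructor
    · exact Real.iInf_nonneg fun h => Wt_nonneg P.pos h.1
    · obtain ⟨h, hh⟩ := P.surjective g
      obtain ⟨c, hc0, hc1, hc⟩ := P.exists_bd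
      exact (ciInf_le (hbP g) ⟨h, hh⟩).trans_lt ((Wt_le P.pos hc hc1.le hc0 h).trans_lt hc1)
  · intro g
    have hne : Nonempty {h : Fhat p P.X // P.π h = g} := by
      obtain ⟨h, hh⟩ := P.surjective g
      exact ⟨⟨h, hh⟩⟩
    refine le_ciInf fun h => ?_
    have hq : Q.π (D.κ h.1) = (QuotientGroup.mk' (redM P X₀)) g := by
      have h2 := hk h.1
      rw [h.2] at h2
      exact h2
    exact (ciInf_le (hbQ _) ⟨D.κ h.1, hq⟩).trans (D.wκ h.1)
  · intro x
    obtain ⟨g₀, rfl⟩ := QuotientGroup.mk'_surjective _ x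
    have : CompactSpace (Fhat p Q.X) := compact_Fhat
    let K : Set (Fhat p Q.X) := {h | Q.π h = (QuotientGroup.mk' (redM P X₀)) g₀}
    have hK : K = (fun h : Fhat p Q.X => g₀⁻¹ * P.π (D.ι h)) ⁻¹' ((redM P X₀ : Subgroup G) : Set G) := by
      ext h
      change (QuotientGroup.mk' (redM P X₀)) (P.π (D.ι h)) = (QuotientGroup.mk' (redM P X₀)) g₀ ↔
        g₀⁻¹ * P.π (D.ι h) ∈ redM P X₀
      rw [eq_comm]
      exact QuotientGroup.eq
    have hKc : IsClosed K := by
      rw [hK]
      exact hcl.preimage (continuous_const.mul (P.continuous.comp D.cι))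
    have hKn : K.Nonempty := Q.surjective _
    have hls : LowerSemicontinuous fun h : Fhat p Q.X => Wt Q.w h := by
      rw [lowerSemicontinuous_iff_isClosed_preimage]
      intro t
      exact isClosed_Wt_le Q.pos hQ1 t
    obtain ⟨h, hhK, hmin⟩ := LowerSemicontinuousOn.exists_isMinOn hKn hKc.isCompact
      (hls.lowerSemicontinuousOn K)
    have hhK' : (QuotientGroup.mk' (redM P X₀)) (P.π (D.ι h)) = (QuotientGroup.mk' (redM P X₀)) g₀ := hhK
    refine ⟨P.π (D.ι h), hhK', ?_⟩
    have hne : Nonempty {h : Fhat p Q.X // Q.π h = (QuotientGroup.mk' (redM P X₀)) g₀} := ⟨⟨h, hhK⟩⟩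
    refine le_ciInf fun h' => ?_
    have h3 : Wt Q.w h ≤ Wt Q.w h'.1 := (isMinOn_iff.mp hmin) h'.1 h'.2
    exact (ciInf_le (hbP _) ⟨D.ι h, rfl⟩).trans ((D.wι h).trans h3)

end Pool.Agent.GGS
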