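import Pool.Agent.GGS.StepA
import Pool.Agent.GGS.IxMono

/-!
# The step lemma (paper, 3.1)

`(T ψ) u = ψ (y⁻¹ * u * y) - ψ u` for `u ∈ V'`; `ψ ↦ (ψ (y^p), (T^j ψ) (v b))` is injective on `ChS w V'`.
Integrate `step_Kd` (`integral_count`).
-/

namespace Pool.Agent.GGS

universe u

variable {p : ℕ} {G : Type u} [Group G] (w : WG p G)

/-- conjugation on functions: `(cj p y f) g = f (y⁻¹ g y)` -/
def cj (p : ℕ) (y : G) : Module.End (ZMod p) (G → ZMod p) where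
  toFun f := fun g => f (y⁻¹ * g * y)
  map_add' _ _ := rfl
  map_smul' _ _ := rfl

/-- the operator `T` -/
def td (p : ℕ) (y : G) : Module.End (ZMod p) (G → ZMod p) := cj p y - 1

lemma cj_apply (y : G) (f : G → ZMod p) (g : G) : cj p y f g = f (y⁻¹ * g * y) := rfl

lemma td_apply (y : G) (f : G → ZMod p) (g : G) : td p y f g = f (y⁻¹ * g * y) - f g := rfl

lemma cj_pow (y : G) (n : ℕ) (f : G → ZMod p) (g : G) :
    (cj p y ^ n) f g = f ((y ^ n)⁻¹ * g * y ^ n) := by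
  induction n generalizing g with
  | zero => simp
  | succ n ih =>
    rw [pow_succ', Module.End.mul_apply, cj_apply, ih]
    congr 1
    rw [pow_succ' y n]
    group

lemma td_pow_p [Fact p.Prime] (y : G) (f : G → ZMod p) :
    (td p y ^ p) f = (cj p y ^ p) f - f := by
  have h1 : ((Polynomial.X : Polynomial (ZMod p)) - 1) ^ p = Polynomial.X ^ p - 1 := by
    rw [sub_pow_char, one_pow]
  have h2 := congrArg (Polynomial.aeval (cj p y)) h1
  rw [map_pow, map_sub, map_sub, map_pow, Polynomial.aeval_X, map_one] at h2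
  change ((cj p y - 1) ^ p) f = _
  rw [h2]
  rfl

/-- the powers of `T` commute with evaluation at `y ^ n` -/
lemma td_succ_pow (y : G) (j n : ℕ) (f : G → ZMod p) : (td p y ^ (j + 1)) f (y ^ n) = 0 := by
  rw [pow_succ', Module.End.mul_apply, td_apply]
  have h1 : y⁻¹ * y ^ n * y = y ^ n := by
    rw [mul_assoc, ← pow_succ, pow_succ', inv_mul_cancel_left]
  rw [h1, sub_self]

lemma td_Ch {V' : Subgroup G} {y : G} (hn : ∀ u, y⁻¹ * u * y ∈ V' ↔ u ∈ V') {r : ℝ}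
    (hr : 0 < r) (hy : w.W y = r) {t : ℝ} {ψ : G → ZMod p} (hψ : ψ ∈ Ch w V' t) :
    td p y ψ ∈ Ch w V' (t / r) := by
  refine ⟨fun g hg => ?_, fun u hu v hv => ?_, fun v hv h => ?_⟩
  · rw [td_apply, hψ.1 g hg, hψ.1 _ (fun h => hg ((hn g).mp h)), sub_zero]
  · have h1 : y⁻¹ * (u * v) * y = (y⁻¹ * u * y) * (y⁻¹ * v * y) := by group
    rw [td_apply, td_apply, td_apply, h1, hψ.2.1 _ ((hn u).mpr hu) _ ((hn v).mpr hv),
      hψ.2.1 u hu v hv]
    ring
  · have h1 : y⁻¹ * v * y = (y⁻¹ * v * y⁻¹⁻¹ * v⁻¹) * v := by group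
    have h2 : y⁻¹ * v * y⁻¹⁻¹ * v⁻¹ ∈ V' := by
      rw [inv_inv]
      exact V'.mul_mem ((hn v).mpr hv) (V'.inv_mem hv)
    have h3 : w.W (y⁻¹ * v * y⁻¹⁻¹ * v⁻¹) ≤ t := by
      refine (w.comm y⁻¹ v).trans ?_
      rw [w.inv, hy]
      rwa [le_div_iff₀ hr, mul_comm] at h
    rw [td_apply, h1, hψ.2.1 _ h2 _ hv, hψ.2.2 _ h2 h3]
    ring

lemma td_pow_Ch {V' : Subgroup G} {y : G} (hn : ∀ u, y⁻¹ * u * y ∈ V' ↔ u ∈ V') {r : ℝ}
    (hr : 0 < r) (hy : w.W y = r) {t : ℝ} {ψ : G → ZMod p} (hψ : ψ ∈ Ch w V' t) (j : ℕ) :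
    (td p y ^ j) ψ ∈ Ch w V' (t / r ^ j) := by
  induction j with
  | zero => simpa using hψ
  | succ j ih =>
    rw [pow_succ' (td p y) j, Module.End.mul_apply, pow_succ r j, ← div_div]
    exact td_Ch w hn hr hy ih

lemma td_pow_ChS {V' : Subgroup G} {y : G} (hn : ∀ u, y⁻¹ * u * y ∈ V' ↔ u ∈ V') {r : ℝ}
    (hr : 0 < r) (hy : w.W y = r) {ψ : G → ZMod p} (hψ : ψ ∈ ChS w V') (j : ℕ) :
    (td p y ^ j) ψ ∈ ChS w V' := by
  obtain ⟨t, ht, h⟩ := hψ
  exact ⟨t / r ^ j, div_pos ht (pow_pos hr j), td_pow_Ch w hn hr hy h j⟩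

section core

variable {w}
variable {V V' : Subgroup G} {χ₀ : G → ZMod p} {y : G}

lemma ker_le (hV' : ∀ g, g ∈ V' ↔ g ∈ V ∧ χ₀ g = 0) {g : G} (hg : g ∈ V') : g ∈ V :=
  ((hV' g).mp hg).1

lemma ker_conj (hχ : χ₀ ∈ ChS w V) (hV' : ∀ g, g ∈ V' ↔ g ∈ V ∧ χ₀ g = 0) (hy : y ∈ V) (u : G) :
    y⁻¹ * u * y ∈ V' ↔ u ∈ V' := by
  rw [hV', hV']
  constructor
  · rintro ⟨h1, h2⟩
    have hu : u ∈ V := by
      have h3 : u = y * (y⁻¹ * u * y) * y⁻¹ := by group
      rw [h3]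
      exact V.mul_mem (V.mul_mem hy h1) (V.inv_mem hy)
    refine ⟨hu, ?_⟩
    rw [ch_mul w hχ (V.mul_mem (V.inv_mem hy) hu) hy, ch_mul w hχ (V.inv_mem hy) hu,
      ch_inv w hχ hy] at h2
    calc χ₀ u = -χ₀ y + χ₀ u + χ₀ y := by ring
      _ = 0 := h2
  · rintro ⟨h1, h2⟩
    refine ⟨V.mul_mem (V.mul_mem (V.inv_mem hy) h1) hy, ?_⟩
    rw [ch_mul w hχ (V.mul_mem (V.inv_mem hy) h1) hy, ch_mul w hχ (V.inv_mem hy) h1,
      ch_inv w hχ hy, h2]
    ring

lemma ker_pow [Fact p.Prime] (hχ : χ₀ ∈ ChS w V) (hV' : ∀ g, g ∈ V' ↔ g ∈ V ∧ χ₀ g = 0)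
    (hy : y ∈ V) : y ^ p ∈ V' := by
  rw [hV']
  refine ⟨V.pow_mem hy p, ?_⟩
  rw [ch_pow w hχ hy, CharP.cast_eq_zero, zero_mul]

/-- `T ^ p = 0` on characters of `V'` -/
lemma td_nil [Fact p.Prime] (hχ : χ₀ ∈ ChS w V) (hV' : ∀ g, g ∈ V' ↔ g ∈ V ∧ χ₀ g = 0)
    (hy : y ∈ V) {ψ : G → ZMod p} (hψ : ψ ∈ ChS w V') : (td p y ^ p) ψ = 0 := by
  funext g
  rw [td_pow_p, Pi.sub_apply, cj_pow, Pi.zero_apply]
  have hyp := ker_pow hχ hV' hy
  by_cases hg : g ∈ V'
  · rw [ch_mul w hψ (V'.mul_mem (V'.inv_mem hyp) hg) hyp, ch_mul w hψ (V'.inv_mem hyp) hg,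
      ch_inv w hψ hyp]
    ring
  · obtain ⟨t, ht, h⟩ := hψ
    rw [h.1 g hg, h.1 _ ?_, sub_zero]
    intro h1
    apply hg
    have h3 : g = y ^ p * ((y ^ p)⁻¹ * g * y ^ p) * (y ^ p)⁻¹ := by group
    rw [h3]
    exact V'.mul_mem (V'.mul_mem hyp h1) (V'.inv_mem hyp)

/-- the extension of a `y`-invariant character with `ψ (y ^ p) = 0` to `V` -/
lemma ext_zero [Fact p.Prime] (hV : Op w V) (hχ : χ₀ ∈ ChS w V)
    (hV' : ∀ g, g ∈ V' ↔ g ∈ V ∧ χ₀ g = 0)
    (hy : y ∈ V) (hy1 : χ₀ y = 1) {ψ : G → ZMod p} (hψ : ψ ∈ ChS w V')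
    (h1 : ψ (y ^ p) = 0) (h2 : td p y ψ = 0) :
    ∃ θ ∈ ChS w V, θ y = 0 ∧ ∀ u ∈ V', θ u = ψ u := by
  classical
  have hp : p.Prime := Fact.out
  have hop : Op w V' := op_ker w hV hχ hV'
  -- invariance
  have hinv : ∀ (n : ℕ) (u : G), ψ (y ^ n * u * (y ^ n)⁻¹) = ψ u := by
    intro n
    induction n with
    | zero => intro u; simp
    | succ n ih =>
      intro u
      have e1 : y ^ (n + 1) * u * (y ^ (n + 1))⁻¹ = y * (y ^ n * u * (y ^ n)⁻¹) * y⁻¹ := by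
        rw [pow_succ' y n]; group
      have e2 := congrFun h2 (y * (y ^ n * u * (y ^ n)⁻¹) * y⁻¹)
      rw [td_apply, Pi.zero_apply] at e2
      have e3 : y⁻¹ * (y * (y ^ n * u * (y ^ n)⁻¹) * y⁻¹) * y = y ^ n * u * (y ^ n)⁻¹ := by group
      rw [e3, ih] at e2
      rw [e1]
      exact (sub_eq_zero.mp e2).symm
  -- reduction
  have hred : ∀ g ∈ V, g * (y ^ (χ₀ g).val)⁻¹ ∈ V' := by
    intro g hg
    rw [hV']
    have hyn : y ^ (χ₀ g).val ∈ V := V.pow_mem hy _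
    refine ⟨V.mul_mem hg (V.inv_mem hyn), ?_⟩
    rw [ch_mul w hχ hg (V.inv_mem hyn), ch_inv w hχ hyn, ch_pow w hχ hy, hy1, mul_one,
      ZMod.natCast_zmod_val, add_neg_cancel]
  set θ : G → ZMod p := fun g => if g ∈ V then ψ (g * (y ^ (χ₀ g).val)⁻¹) else 0 with hθ
  have hθV : ∀ g ∈ V, θ g = ψ (g * (y ^ (χ₀ g).val)⁻¹) := fun g hg => by
    simp only [hθ, if_pos hg]
  have hθV' : ∀ u ∈ V', θ u = ψ u := by
    intro u hu
    rw [hθV u (ker_le hV' hu), ((hV' u).mp hu).2, ZMod.val_zero, pow_zero, inv_one, mul_one]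
  refine ⟨θ, ?_, ?_, hθV'⟩
  · obtain ⟨s, hs, hsV⟩ := hop
    obtain ⟨t, ht, hψt⟩ := id hψ
    refine ⟨min s t, lt_min hs ht, fun g hg => ?_, fun g hg h hh => ?_, fun g hg hgw => ?_⟩
    · simp only [hθ, if_neg hg]
    · rw [hθV _ (V.mul_mem hg hh), hθV _ hg, hθV _ hh, ch_mul w hχ hg hh]
      set n := (χ₀ g).val
      set k := (χ₀ h).val
      have hm : (χ₀ g + χ₀ h).val = (n + k) % p := ZMod.val_add _ _
      rw [hm]
      have hd : n + k = (n + k) % p + p * ((n + k) / p) := (Nat.mod_add_div _ _).symm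
      set m := (n + k) % p
      set q := (n + k) / p
      have hyp : y ^ p ∈ V' := ker_pow hχ hV' hy
      have e1 : g * h * (y ^ m)⁻¹ = (g * (y ^ n)⁻¹) *
          (y ^ n * (h * (y ^ k)⁻¹) * (y ^ n)⁻¹) * (y ^ p) ^ q := by
        have e2 : y ^ n * y ^ k = y ^ m * (y ^ p) ^ q := by
          rw [← pow_add, hd, pow_add, pow_mul]
        have e3 : (y ^ p) ^ q * (y ^ m) = y ^ m * (y ^ p) ^ q := by
          rw [← pow_mul, ← pow_add, ← pow_add, add_comm]
        have e4 : (y ^ m)⁻¹ = (y ^ k)⁻¹ * (y ^ n)⁻¹ * (y ^ p) ^ q := by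
          rw [← mul_inv_rev, e2, ← e3, mul_inv_rev, inv_mul_cancel_right]
        rw [e4]
        group
      have hn1 := hred g hg
      have hn2 := hred h hh
      have hn3 : y ^ n * (h * (y ^ k)⁻¹) * (y ^ n)⁻¹ ∈ V' := by
        have hc := ker_conj (y := (y ^ n)⁻¹) hχ hV' (V.inv_mem (V.pow_mem hy n)) (h * (y ^ k)⁻¹)
        rw [inv_inv] at hc
        exact hc.mpr hn2
      rw [e1, ch_mul w hψ (V'.mul_mem hn1 hn3) (V'.pow_mem hyp q), ch_mul w hψ hn1 hn3, hinv,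
        ch_pow w hψ hyp, h1, mul_zero, add_zero]
    · have hgV' : g ∈ V' := hsV g (hgw.trans (min_le_left _ _))
      rw [hθV' g hgV']
      exact hψt.2.2 g hgV' (hgw.trans (min_le_right _ _))
  · rw [hθV y hy, hy1]
    have : (1 : ZMod p).val = 1 := ZMod.val_one'' hp.one_lt.ne'
    rw [this, pow_one, mul_inv_cancel]
    exact ch_one w hψ

end core

/-- The key injectivity. -/
lemma core_inj [Fact p.Prime] {V V' : Subgroup G} (hV : Op w V) {B : Type}
    {v : B → G} {r : B → ℝ} {χ : B → G → ZMod p} (h : Adapted w V (ChS w V) v r χ) (b₀ : B)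
    (hV' : ∀ g, g ∈ V' ↔ g ∈ V ∧ χ b₀ g = 0) {ψ : G → ZMod p} (hψ : ψ ∈ ChS w V')
    (h1 : ψ (v b₀ ^ p) = 0)
    (h2 : ∀ b, b ≠ b₀ → ∀ j < p, (td p (v b₀) ^ j) ψ (v b) = 0) : ψ = 0 := by
  classical
  by_contra hne
  have hχ := h.inS b₀
  have hy := h.mem b₀
  have hnil := td_nil hχ hV' hy hψ
  have hex : ∃ n, (td p (v b₀) ^ n) ψ = 0 := ⟨p, hnil⟩
  obtain ⟨j, hj⟩ : ∃ j, Nat.find hex = j + 1 := by
    refine Nat.exists_eq_succ_of_ne_zero fun h0 => hne ?_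
    have := Nat.find_spec hex
    rw [h0, pow_zero] at this
    exact this
  have hj0 : (td p (v b₀) ^ j) ψ ≠ 0 := Nat.find_min hex (by omega)
  have hj1 : (td p (v b₀) ^ (j + 1)) ψ = 0 := by rw [← hj]; exact Nat.find_spec hex
  have hjp : j < p := by
    have := Nat.find_min' hex hnil
    omega
  rw [pow_succ', Module.End.mul_apply] at hj1
  have hmem : (td p (v b₀) ^ j) ψ ∈ ChS w V' :=
    td_pow_ChS w (ker_conj hχ hV' hy) (h.pos b₀) (h.wv b₀) hψ j
  have hyp : (td p (v b₀) ^ j) ψ (v b₀ ^ p) = 0 := by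
    cases j with
    | zero => exact h1
    | succ j => exact td_succ_pow _ j p ψ
  have hy1 : χ b₀ (v b₀) = 1 := by rw [h.dual, if_pos rfl]
  obtain ⟨θ, hθ, hθy, hθV'⟩ := ext_zero hV hχ hV' hy hy1 hmem hyp hj1
  have hθ0 : θ = 0 := by
    refine h.full θ hθ fun b => ?_
    by_cases hb : b = b₀
    · rw [hb]; exact hθy
    · have hbV' : v b ∈ V' := by
        rw [hV']
        exact ⟨h.mem b, by rw [h.dual, if_neg (Ne.symm hb)]⟩
      rw [hθV' _ hbV']
      exact h2 b hb j hjp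
  apply hj0
  funext g
  by_cases hg : g ∈ V'
  · rw [← hθV' g hg, hθ0]
  · obtain ⟨t, ht, h3⟩ := hmem
    exact h3.1 g hg

theorem step_finite [Fact p.Prime] {V V' : Subgroup G} {y : G} {r : ℝ} (h : Step w V V' y r)
    (hV' : Op w V') (hf : Module.Finite (ZMod p) (ChS w V)) :
    Module.Finite (ZMod p) (ChS w V') := by
  obtain ⟨B, _, v, s, χ, b₀, hA, hs, hk⟩ := step_adapted w h hV' hf
  let Φ : ChS w V' →ₗ[ZMod p] (ZMod p) × (B × Fin p → ZMod p) :=
    { toFun := fun ψ => (ψ.1 (v b₀ ^ p), fun x => (td p (v b₀) ^ (x.2 : ℕ)) ψ.1 (v x.1))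
      map_add' := fun a b => by
        refine Prod.ext rfl (funext fun x => ?_)
        simp only [Submodule.coe_add, map_add, Pi.add_apply, Prod.mk_add_mk]
      map_smul' := fun c a => by
        refine Prod.ext rfl (funext fun x => ?_)
        simp only [Submodule.coe_smul, map_smul, Pi.smul_apply, RingHom.id_apply, Prod.smul_mk] }
  refine Module.Finite.of_injective Φ ?_
  rw [← LinearMap.ker_eq_bot, LinearMap.ker_eq_bot']
  rintro ⟨ψ, hψ⟩ h0
  have h1 : ψ (v b₀ ^ p) = 0 := congrArg Prod.fst h0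
  have h2 : ∀ x : B × Fin p, (td p (v b₀) ^ (x.2 : ℕ)) ψ (v x.1) = 0 := fun x =>
    congrFun (congrArg Prod.snd h0) x
  have h3 := core_inj w (op_mono w hV' h.le) hA b₀ hk hψ h1 fun b _ j hj => h2 (b, ⟨j, hj⟩)
  exact Subtype.ext h3

open Classical in
/-- The bound for `K_{V'}(t)`: `V'` is the kernel of `χ_{b₀}`. -/
theorem step_Kd [Fact p.Prime] {V V' : Subgroup G} (hV : Op w V) {B : Type} [Fintype B]
    {v : B → G} {r : B → ℝ} {χ : B → G → ZMod p} (h : Adapted w V (ChS w V) v r χ) (b₀ : B)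
    (hV' : ∀ g, g ∈ V' ↔ g ∈ V ∧ χ b₀ g = 0) {t : ℝ} (ht : 0 < t) :
    Kd w V' t ≤ (if t < r b₀ ^ p then 1 else 0) +
      (Finset.univ.filter fun x : B × Fin p => x.1 ≠ b₀ ∧ t < r x.1 * r b₀ ^ (x.2 : ℕ)).card := by
  set S := Finset.univ.filter fun x : B × Fin p => x.1 ≠ b₀ ∧ t < r x.1 * r b₀ ^ (x.2 : ℕ) with hS
  set n : ℕ := if t < r b₀ ^ p then 1 else 0 with hn
  let Φ : Ch w V' t →ₗ[ZMod p] (Fin n → ZMod p) × (S → ZMod p) :=
    { toFun := fun ψ => (fun _ => ψ.1 (v b₀ ^ p),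
        fun x => (td p (v b₀) ^ (x.1.2 : ℕ)) ψ.1 (v x.1.1))
      map_add' := fun a b => by
        refine Prod.ext rfl (funext fun x => ?_)
        simp only [Submodule.coe_add, map_add, Pi.add_apply, Prod.mk_add_mk]
      map_smul' := fun c a => by
        refine Prod.ext rfl (funext fun x => ?_)
        simp only [Submodule.coe_smul, map_smul, Pi.smul_apply, RingHom.id_apply, Prod.smul_mk] }
  have hχ := h.inS b₀
  have hy := h.mem b₀
  have hinj : Function.Injective Φ := by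
    rw [← LinearMap.ker_eq_bot, LinearMap.ker_eq_bot']
    rintro ⟨ψ, hψ⟩ h0
    have hc0 : ∀ i : Fin n, ψ (v b₀ ^ p) = 0 := fun i => congrFun (congrArg Prod.fst h0) i
    have hc1 : ∀ x : S, (td p (v b₀) ^ (x.1.2 : ℕ)) ψ (v x.1.1) = 0 := fun x =>
      congrFun (congrArg Prod.snd h0) x
    have h1 : ψ (v b₀ ^ p) = 0 := by
      by_cases hc : t < r b₀ ^ p
      · have hn1 : n = 1 := by rw [hn, if_pos hc]
        exact hc0 ⟨0, by rw [hn1]; exact one_pos⟩
      · refine hψ.2.2 _ (ker_pow hχ hV' hy) ((w.pow _).trans ?_)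
        rw [h.wv]
        exact not_lt.mp hc
    have h2 : ∀ b, b ≠ b₀ → ∀ j < p, (td p (v b₀) ^ j) ψ (v b) = 0 := by
      intro b hb j hj
      by_cases hc : t < r b * r b₀ ^ j
      · exact hc1 ⟨(b, ⟨j, hj⟩), Finset.mem_filter.mpr ⟨Finset.mem_univ _, hb, hc⟩⟩
      · have hbV' : v b ∈ V' := by
          rw [hV']
          exact ⟨h.mem b, by rw [h.dual, if_neg (Ne.symm hb)]⟩
        refine (td_pow_Ch w (ker_conj hχ hV' hy) (h.pos b₀) (h.wv b₀) hψ j).2.2 _ hbV' ?_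
        rw [h.wv, le_div_iff₀ (pow_pos (h.pos b₀) j)]
        exact not_lt.mp hc
    exact Subtype.ext (core_inj w hV h b₀ hV' ⟨t, ht, hψ⟩ h1 h2)
  have hfin := LinearMap.finrank_le_finrank_of_injective hinj
  rw [Module.finrank_prod, Module.finrank_fin_fun, Module.finrank_fintype_fun_eq_card,
    Fintype.card_coe] at hfin
  exact hfin

theorem step_xm [Fact p.Prime] {V V' : Subgroup G} {y : G} {r : ℝ} (h : Step w V V' y r)
    (hV' : Op w V') (hf : Module.Finite (ZMod p) (ChS w V)) :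
    xm w V' - 1 ≤ qq p r * (xm w V - 1) := by
  classical
  have hp : p.Prime := Fact.out
  obtain ⟨B, _, v, s, χ, b₀, hA, hs, hk⟩ := step_adapted w h hV' hf
  obtain ⟨B', _, v', s', χ', hA'⟩ := exists_adapted w (ChS w V') le_rfl (step_finite w h hV' hf)
  have hr0 : 0 < r := by rw [← hs]; exact hA.pos b₀
  have hr1 : r < 1 := by rw [← hs]; exact (adapted_lt w hA b₀).2.2
  -- the bounding counting function
  let m : Option (B × Fin p) → ℝ := fun o => match o with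
    | none => r ^ p
    | some x => if x.1 = b₀ then 0 else s x.1 * r ^ (x.2 : ℕ)
  have hm0 : ∀ i, 0 ≤ m i := by
    intro i
    rcases i with _ | x
    · exact (pow_pos hr0 p).le
    · change 0 ≤ (if x.1 = b₀ then 0 else s x.1 * r ^ (x.2 : ℕ))
      split_ifs
      · exact le_rfl
      · exact mul_nonneg (hA.pos _).le (pow_pos hr0 _).le
  have hm1 : ∀ i, m i ≤ 1 := by
    intro i
    rcases i with _ | x
    · exact pow_le_one₀ hr0.le hr1.le
    · change (if x.1 = b₀ then 0 else s x.1 * r ^ (x.2 : ℕ)) ≤ 1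
      split_ifs
      · exact zero_le_one
      · exact mul_le_one₀ (adapted_lt w hA _).2.2.le (pow_pos hr0 _).le
          (pow_le_one₀ hr0.le hr1.le)
  have hle : ∀ t ∈ Set.Ioo (0 : ℝ) 1, ((Finset.univ.filter fun i => t < s' i).card : ℝ) ≤
      ((Finset.univ.filter fun i => t < m i).card : ℝ) := by
    intro t ht
    rw [← adapted_Kd w hA' ht.1]
    have h1 := step_Kd w (op_mono w hV' h.le) hA b₀ hk ht.1
    rw [hs] at h1
    refine Nat.cast_le.mpr (h1.trans (le_of_eq ?_))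
    rw [Finset.card_filter, Finset.card_filter, Fintype.sum_option]
    congr 1
    refine Finset.sum_congr rfl fun x _ => ?_
    by_cases hx : x.1 = b₀
    · have h2 : m (some x) = 0 := if_pos hx
      rw [h2, if_neg (fun hc => hc.1 hx), if_neg (not_lt.mpr ht.1.le)]
    · have h2 : m (some x) = s x.1 * r ^ (x.2 : ℕ) := if_neg hx
      rw [h2]
      by_cases hc : t < s x.1 * r ^ (x.2 : ℕ)
      · rw [if_pos hc, if_pos ⟨hx, hc⟩]
      · rw [if_neg hc, if_neg (fun hd => hc hd.2)]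
  have hint : ∑ b, s' b ≤ ∑ i, m i := by
    rw [← integral_count s' (fun i => (hA'.pos i).le) (fun i => (adapted_lt w hA' i).2.2.le),
      ← integral_count m hm0 hm1]
    refine intervalIntegral.integral_mono_on_of_le_Ioo zero_le_one
      (integrable_count s' 0 1) (integrable_count m 0 1) hle
  have hsum : ∑ i, m i = r ^ p + (xm w V - r) * qq p r := by
    rw [Fintype.sum_option, adapted_xm w hA, Fintype.sum_prod_type]
    congr 1
    have h1 : ∀ b : B, ∑ j : Fin p, m (some (b, j)) = (if b = b₀ then 0 else s b) * qq p r := by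
      intro b
      rw [qq, Finset.mul_sum, ← Fin.sum_univ_eq_sum_range (fun i => (if b = b₀ then 0 else s b) * r ^ i) p]
      refine Finset.sum_congr rfl fun j _ => ?_
      change (if b = b₀ then 0 else s b * r ^ (j : ℕ)) = _
      split_ifs
      · rw [zero_mul]
      · rfl
    rw [Finset.sum_congr rfl fun b _ => h1 b, ← Finset.sum_mul]
    congr 1
    have h4 := Finset.add_sum_erase Finset.univ (fun b => if b = b₀ then 0 else s b)
      (Finset.mem_univ b₀)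
    have h5 := Finset.add_sum_erase Finset.univ s (Finset.mem_univ b₀)
    have h6 : ∑ b ∈ Finset.univ.erase b₀, (if b = b₀ then 0 else s b) =
        ∑ b ∈ Finset.univ.erase b₀, s b :=
      Finset.sum_congr rfl fun b hb => if_neg (Finset.mem_erase.mp hb).1
    simp only [if_true] at h4
    rw [← h4, ← h5, h6, hs]
    ring
  have hxm' := adapted_xm w hA'
  have hgeo : qq p r * (1 - r) = 1 - r ^ p := by
    rw [qq]
    exact geom_sum_mul_neg r p
  rw [hxm']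
  have h3 : ∑ b, s' b ≤ r ^ p + (xm w V - r) * qq p r := hint.trans hsum.le
  nlinarith [h3, hgeo]

end Pool.Agent.GGS
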