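import Pool.Agent.GGS.GSIc
import Pool.Agent.GGS.StepK
import Pool.Agent.GGS.ChainEx

/-!
# Presentations of positive deficiency give `GSG`s
-/

namespace Pool.Agent.GGS

universe u

variable {p : ℕ} {G : Type u} [Group G]

private lemma ChS_finite_of_chain [Fact p.Prime] (w : WG p G)
    (h : Module.Finite (ZMod p) (ChS w ⊤)) {P V : Subgroup G} (hP : P = ⊤) {L : List (G × ℝ)}
    (hL : Chain w P V L) (hV : Op w V) : Module.Finite (ZMod p) (ChS w V) := by
  induction hL with
  | nil => rw [hP]; exact h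
  | cons _ hs ih => exact step_finite w hs hV (ih (op_mono w hV hs.le))

/-- all open subgroups have finite dimensional `ChS` (chain from `⊤`, `step_finite`) -/
theorem ChS_finite_of_top [Fact p.Prime] (w : WG p G) (h : Module.Finite (ZMod p) (ChS w ⊤))
    {V : Subgroup G} (hV : Op w V) : Module.Finite (ZMod p) (ChS w V) := by
  obtain ⟨L, hL⟩ := exists_chain w hV (le_top : V ≤ ⊤)
  exact ChS_finite_of_chain w h rfl hL hV

theorem gsg_of [Fact p.Prime] {w : WG p G} (Q : Pres p G w) (h : 0 < Q.K0) :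
    ∃ v : GSG p G, v.toWG = w ∧ v.K0 = Q.K0 :=
  ⟨{ toWG := w
     K0 := Q.K0
     K0_pos := h
     fd := ChS_top_finite Q
     gs := fun _ hV => gs_ineq Q hV (ChS_finite_of_top w (ChS_top_finite Q) hV) }, rfl, rfl⟩

end Pool.Agent.GGS
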