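import Pool.Agent.GGS.PresDef

/-!
# From presentations of topological groups to weighted groups

`w.wm`: any number `< 1` which is `≥` all `P.w x` and positive.  The infimum defining `indW` is attained: the fibres of
`π` are compact and `{h | Wt h ≤ t}` is closed (`isOpen_Wt`).  `eq_one`: if `indW g = 0` the infimum is attained, so
`g = π 1`.
-/

namespace Pool.Agent.GGS

universe u

section

variable {p : ℕ} [Fact p.Prime] {X : Type} [Finite X] {w : X → ℝ}

/-- The subgroup of the elements of weight `≤ t`. -/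
private def wtBall (h0 : ∀ x, 0 < w x) (h1 : ∀ x, w x < 1) (t : ℝ) (ht : 0 ≤ t) :
    Subgroup (Fhat p X) where
  carrier := {h | Wt w h ≤ t}
  mul_mem' := fun {a b} ha hb => (Wt_mul h0 (fun x => (h1 x).le) a b).trans (max_le ha hb)
  one_mem' := by
    change Wt w (1 : Fhat p X) ≤ t
    rw [Wt_one]; exact ht
  inv_mem' := fun {a} ha => by
    change Wt w a⁻¹ ≤ t
    rw [Wt_inv h0 (fun x => (h1 x).le)]; exact ha

private lemma wtBall_open (h0 : ∀ x, 0 < w x) (h1 : ∀ x, w x < 1) (t : ℝ) (ht : 0 < t) :
    IsOpen ((wtBall (p := p) h0 h1 t ht.le : Subgroup (Fhat p X)) : Set (Fhat p X)) := by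
  have h := isOpen_Wt (p := p) h0 h1 ht (1 : Fhat p X)
  have e : {h : Fhat p X | Wt w ((1 : Fhat p X)⁻¹ * h) ≤ t} =
      ((wtBall (p := p) h0 h1 t ht.le : Subgroup (Fhat p X)) : Set (Fhat p X)) := by
    ext h
    simp only [inv_one, one_mul, Set.mem_setOf_eq]
    exact Iff.rfl
  rwa [e] at h

private lemma wt_lsc (h0 : ∀ x, 0 < w x) (h1 : ∀ x, w x < 1) :
    LowerSemicontinuous (fun h : Fhat p X => Wt w h) := by
  intro h y hy
  rcases lt_trichotomy y 0 with hy0 | hy0 | hy0
  · exact Filter.Eventually.of_forall fun k => hy0.trans_le (Wt_nonneg h0 k)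
  · subst hy0
    have hne : h ≠ 1 := by
      rintro rfl
      simp only [Wt_one, lt_self_iff_false] at hy
    have ho : IsOpen ({1}ᶜ : Set (Fhat p X)) := isOpen_compl_singleton
    filter_upwards [ho.mem_nhds hne] with k hk
    refine lt_of_le_of_ne (Wt_nonneg h0 k) fun e => hk ?_
    exact Wt_eq_zero h0 (fun x => (h1 x).le) k e.symm
  · have hc : IsClosed ((wtBall (p := p) h0 h1 y hy0.le : Subgroup (Fhat p X)) :
        Set (Fhat p X)) := Subgroup.isClosed_of_isOpen _ (wtBall_open h0 h1 y hy0)
    have hm : h ∈ (((wtBall (p := p) h0 h1 y hy0.le : Subgroup (Fhat p X)) :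
        Set (Fhat p X)))ᶜ := fun hm => absurd hm (not_le.mpr hy)
    filter_upwards [hc.isOpen_compl.mem_nhds hm] with k hk
    exact not_le.mp hk

private lemma exists_wm (h1 : ∀ x, w x < 1) : ∃ c : ℝ, 0 < c ∧ c < 1 ∧ ∀ x, w x ≤ c := by
  rcases isEmpty_or_nonempty X with he | he
  · exact ⟨1 / 2, by norm_num, by norm_num, fun x => (IsEmpty.false x).elim⟩
  · obtain ⟨x0, hx0⟩ := Finite.exists_max w
    exact ⟨max (1 / 2) (w x0), lt_max_of_lt_left (by norm_num),
      max_lt (by norm_num) (h1 x0), fun x => (hx0 x).trans (le_max_right _ _)⟩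

variable {G : Type u} [Group G] [TopologicalSpace G] [T2Space G]

private lemma indW_le (h0 : ∀ x, 0 < w x) (π : Fhat p X →* G) (h : Fhat p X) :
    indW w π (π h) ≤ Wt w h := by
  refine ciInf_le (f := fun k : {k : Fhat p X // π k = π h} => Wt w k.1) ⟨0, ?_⟩ ⟨h, rfl⟩
  rintro _ ⟨k, rfl⟩
  exact Wt_nonneg h0 _

private lemma indW_attained (h0 : ∀ x, 0 < w x) (h1 : ∀ x, w x < 1) (π : Fhat p X →* G)
    (hπ : Continuous π) (hs : Function.Surjective π) (g : G) :
    ∃ h, π h = g ∧ Wt w h = indW w π g := by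
  haveI : CompactSpace (Fhat p X) := compact_Fhat
  have hcl : IsClosed {h : Fhat p X | π h = g} := isClosed_eq hπ continuous_const
  obtain ⟨k, hk⟩ := hs g
  obtain ⟨h, hh, hmin⟩ := LowerSemicontinuousOn.exists_isMinOn (s := {h : Fhat p X | π h = g})
    ⟨k, hk⟩ hcl.isCompact ((wt_lsc h0 h1).lowerSemicontinuousOn _)
  refine ⟨h, hh, ?_⟩
  haveI : Nonempty {k : Fhat p X // π k = g} := ⟨⟨k, hk⟩⟩
  refine le_antisymm ?_ ?_
  · exact le_ciInf fun k => hmin k.2
  · have hh' : π h = g := hh
    rw [← hh']
    exact indW_le h0 π h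

end

theorem presOf {p : ℕ} [Fact p.Prime] {G : Type u} [Group G] [TopologicalSpace G]
    [IsTopologicalGroup G] [T2Space G] (P : Presn p G) (hfin : Finite P.X)
    (hR : Summable fun r : P.R => Wt P.w r.1)
    (hdef : 0 < ∑' x, P.w x - ∑' r : P.R, Wt P.w r.1 - 1) :
    ∃ (w : WG p G) (Q : Pres p G w), w.W = indW P.w P.π ∧ 0 < Q.K0 ∧
      (∀ V : Subgroup G, Op w V → IsOpen (V : Set G)) ∧
      (∀ t, 0 < t → ∀ g, IsClosed {h | w.W (g⁻¹ * h) ≤ t}) := by
  haveI := hfin
  haveI : CompactSpace (Fhat p P.X) := compact_Fhat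
  have h0 := P.pos
  have h1 := P.lt_one
  have h1' : ∀ x, P.w x ≤ 1 := fun x => (h1 x).le
  have hatt := indW_attained h0 h1 P.π P.continuous P.surjective
  have hle := indW_le (p := p) h0 P.π
  obtain ⟨c, hc0, hc1, hc⟩ := exists_wm h1
  let w : WG p G :=
    { W := indW P.w P.π
      wm := c
      wm_pos := hc0
      wm_lt := hc1
      nonneg := fun g => by
        obtain ⟨h, _, e⟩ := hatt g
        rw [← e]; exact Wt_nonneg h0 h
      le_wm := fun g => by
        obtain ⟨h, _, e⟩ := hatt g
        rw [← e]; exact Wt_le h0 hc hc1.le hc0.le h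
      one := by
        refine le_antisymm ?_ ?_
        · have h := hle 1
          rw [map_one, Wt_one] at h
          exact h
        · obtain ⟨h, _, e⟩ := hatt 1
          rw [← e]; exact Wt_nonneg h0 h
      eq_one := fun g hg => by
        obtain ⟨h, hh, e⟩ := hatt g
        rw [hg] at e
        rw [← hh, Wt_eq_zero h0 h1' h e, map_one]
      inv := by
        have key : ∀ g : G, indW P.w P.π g⁻¹ ≤ indW P.w P.π g := by
          intro g
          obtain ⟨h, hh, e⟩ := hatt g
          rw [← e, ← Wt_inv h0 h1' h, ← hh, ← map_inv]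
          exact hle _
        intro g
        refine le_antisymm (key g) ?_
        have h := key g⁻¹
        rwa [inv_inv] at h
      mul := fun g g' => by
        obtain ⟨h, hh, e⟩ := hatt g
        obtain ⟨h', hh', e'⟩ := hatt g'
        rw [← e, ← e', ← hh, ← hh', ← map_mul]
        exact (hle _).trans (Wt_mul h0 h1' h h')
      comm := fun g g' => by
        obtain ⟨h, hh, e⟩ := hatt g
        obtain ⟨h', hh', e'⟩ := hatt g'
        rw [← e, ← e', ← hh, ← hh', ← map_inv, ← map_inv, ← map_mul, ← map_mul, ← map_mul]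
        exact (hle _).trans (Wt_comm h0 h1' h h')
      pow := fun g => by
        obtain ⟨h, hh, e⟩ := hatt g
        rw [← e, ← hh, ← map_pow]
        exact (hle _).trans (Wt_pow h0 h1' h)
      fin := fun t ht => by
        classical
        obtain ⟨T, hT⟩ := isCompact_univ.elim_finite_subcover
          (fun g : Fhat p P.X => {h : Fhat p P.X | Wt P.w (g⁻¹ * h) ≤ t})
          (fun g => isOpen_Wt h0 h1 ht g)
          (fun g _ => Set.mem_iUnion.mpr ⟨g, by
            simp only [Set.mem_setOf_eq, inv_mul_cancel, Wt_one]; exact ht.le⟩)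
        refine ⟨T.image P.π, fun g => ?_⟩
        obtain ⟨h, hh⟩ := P.surjective g
        obtain ⟨s, hs, hs'⟩ := Set.mem_iUnion₂.mp (hT (Set.mem_univ h))
        refine ⟨P.π s, Finset.mem_image_of_mem _ hs, ?_⟩
        rw [← hh, ← map_inv, ← map_mul]
        exact (hle _).trans hs' }
  have hopen : ∀ V : Subgroup G, Op w V → IsOpen (V : Set G) := by
    rintro V ⟨t, ht, hV⟩
    have hq : Topology.IsQuotientMap P.π :=
      (P.continuous.isClosedMap).isQuotientMap P.continuous P.surjective
    rw [← hq.isOpen_preimage]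
    have hle' : wtBall (p := p) h0 h1 t ht.le ≤ V.comap P.π := fun h hh =>
      hV _ ((hle h).trans hh)
    exact Subgroup.isOpen_mono hle' (wtBall_open h0 h1 t ht)
  have hker : ∀ r ∈ P.R, P.π r = 1 := by
    intro r hr
    have h : r ∈ P.π.ker := by
      rw [P.ker]
      exact Subgroup.le_topologicalClosure _ (Subgroup.subset_normalClosure hr)
    exact h
  let Q : Pres p G w :=
    { X := P.X
      fin := Fintype.ofFinite P.X
      wx := P.w
      pos := h0
      le_wm := hc
      π := P.π
      surj := P.surjective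
      lift := hatt
      le := hle
      ι := P.R
      r := fun i => i.1
      ker_r := fun i => hker i.1 i.2
      closed := by
        rw [P.ker]
        exact Subgroup.isClosed_topologicalClosure _
      minl := fun N hN hcl hr => by
        rw [P.ker]
        haveI := hN
        refine Subgroup.topologicalClosure_minimal _ ?_ hcl
        exact Subgroup.normalClosure_le_normal fun r hr' => hr ⟨r, hr'⟩
      summ := hR }
  refine ⟨w, Q, rfl, ?_, hopen, ?_⟩
  · letI : Fintype P.X := Fintype.ofFinite P.X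
    have e : Q.K0 = ∑' x, P.w x - ∑' r : P.R, Wt P.w r.1 - 1 := by
      rw [tsum_fintype]
      rfl
    rw [e]; exact hdef
  · intro t ht g
    have hb : IsClosed ((w.ball t : Subgroup G) : Set G) :=
      Subgroup.isClosed_of_isOpen _ (hopen _ (op_ball w ht))
    have e : {h | w.W (g⁻¹ * h) ≤ t} = (fun h => g⁻¹ * h) ⁻¹' ((w.ball t : Subgroup G) : Set G) := by
      ext h
      simp only [Set.mem_setOf_eq, Set.mem_preimage, SetLike.mem_coe]
      exact (w.mem_ball ht.le).symm
    rw [e]
    exact hb.preimage (continuous_const.mul continuous_id)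

end Pool.Agent.GGS
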