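import Pool.Agent.GGS.IxMono

/-!
# The index formula (paper, 2.4)

For a chain `⊤ > … > V` the number of steps of weight `t` is `cIndex p w.W V t`.
-/

namespace Pool.Agent.GGS

universe u

variable {p : ℕ} {G : Type u} [Group G] (w : WG p G)

namespace IxIdx

/-- the subgroup of the elements of weight `< t` -/
def oball {t : ℝ} (ht : 0 < t) : Subgroup G where
  carrier := {g | w.W g < t}
  mul_mem' := fun {a b} ha hb => (w.mul a b).trans_lt (max_lt ha hb)
  one_mem' := by
    change w.W 1 < t
    rw [w.one]; exact ht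
  inv_mem' := fun {a} ha => by
    change w.W a⁻¹ < t
    rw [w.inv]; exact ha

theorem mem_oball {t : ℝ} (ht : 0 < t) {g : G} : g ∈ oball w ht ↔ w.W g < t := Iff.rfl

theorem oball_normal {t : ℝ} (ht : 0 < t) : (oball w ht).Normal :=
  ⟨fun g hg h => by
    change w.W (h * g * h⁻¹) < t
    rw [W_conj]; exact hg⟩

theorem closure_union (N V : Subgroup G) :
    Subgroup.closure ((N : Set G) ∪ (V : Set G)) = N ⊔ V := by
  rw [Subgroup.closure_union, Subgroup.closure_eq, Subgroup.closure_eq]

/-- first case: the deepest element lies in `N` -/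
theorem sup_eq_of_mem {V V' : Subgroup G} {y : G} {r : ℝ} (h : Step w V V' y r) {N : Subgroup G}
    (hy : y ∈ N) : N ⊔ V' = N ⊔ V := by
  refine le_antisymm (sup_le_sup_left h.le N) (sup_le le_sup_left ?_)
  intro v hv
  obtain ⟨i, -, u, hu, rfl⟩ := h.cover v hv
  exact (N ⊔ V').mul_mem (Subgroup.mem_sup_right hu)
    (Subgroup.mem_sup_left (N.pow_mem hy i))

/-- second case: `N ∩ V` is contained in `V'` -/
theorem relIndex_of_le [Fact p.Prime] {V V' : Subgroup G} {y : G} {r : ℝ} (h : Step w V V' y r)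
    {N : Subgroup G} (hN : N.Normal) (hle : N ⊓ V ≤ V') : (N ⊔ V').relIndex (N ⊔ V) = p := by
  have h1 := Subgroup.relIndex_map_map (QuotientGroup.mk' N) V' V
  have h2 := Subgroup.relIndex_comap (V'.map (QuotientGroup.mk' N)) (QuotientGroup.mk' N) V
  rw [Subgroup.comap_map_eq] at h2
  rw [← h2, QuotientGroup.ker_mk'] at h1
  have h3 : (V' ⊔ N).relIndex V = V'.relIndex V := by
    rw [← Subgroup.inf_relIndex_right (V' ⊔ N) V]
    have h4 : (V' ⊔ N) ⊓ V = V' := by
      refine le_antisymm ?_ (le_inf le_sup_left h.le)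
      intro g hg
      obtain ⟨hg1, hg2⟩ := Subgroup.mem_inf.mp hg
      obtain ⟨a, ha, n, hn, rfl⟩ := Subgroup.mem_sup_of_normal_right.mp hg1
      have hnV : n ∈ V := by
        have := V.mul_mem (V.inv_mem (h.le ha)) hg2
        rwa [inv_mul_cancel_left] at this
      exact V'.mul_mem ha (hle (Subgroup.mem_inf.mpr ⟨hn, hnV⟩))
    rw [h4]
  have h5 : V'.relIndex V = p := by
    have := chain_relIndex w (Chain.cons Chain.nil h)
    simpa using this
  rw [sup_comm N V', sup_comm N V, ← h1, h3, h5]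

/-- the index of the formula as a relative index of subgroups -/
theorem cIndex_eq (V : Subgroup G) {t : ℝ} (ht : 0 < t) :
    cIndex p w.W V t = Nat.log p ((oball w ht ⊔ V).relIndex (w.ball t ⊔ V)) := by
  have h1 : ({g | w.W g < t} : Set G) = (oball w ht : Set G) := rfl
  have h2 : ({g | w.W g ≤ t} : Set G) = (w.ball t : Set G) := by
    ext g
    exact (w.mem_ball ht.le).symm
  unfold cIndex
  rw [h1, h2, closure_union, closure_union]

theorem relIndex_step [Fact p.Prime] {V V' : Subgroup G} {y : G} {r : ℝ} (h : Step w V V' y r)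
    {t : ℝ} (ht : 0 < t) [Decidable (r = t)] :
    (oball w ht ⊔ V').relIndex (w.ball t ⊔ V') =
      (oball w ht ⊔ V).relIndex (w.ball t ⊔ V) * (if r = t then p else 1) := by
  have hp : 0 < p := (Fact.out : p.Prime).pos
  have hob : oball w ht ≤ w.ball t := fun g hg => (w.mem_ball ht.le).mpr (le_of_lt hg)
  have t1 : (oball w ht ⊔ V').relIndex (oball w ht ⊔ V) *
      (oball w ht ⊔ V).relIndex (w.ball t ⊔ V) = (oball w ht ⊔ V').relIndex (w.ball t ⊔ V) :=
    Subgroup.relIndex_mul_relIndex _ _ _ (sup_le_sup_left h.le _) (sup_le_sup_right hob _)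
  have t2 : (oball w ht ⊔ V').relIndex (w.ball t ⊔ V') *
      (w.ball t ⊔ V').relIndex (w.ball t ⊔ V) = (oball w ht ⊔ V').relIndex (w.ball t ⊔ V) :=
    Subgroup.relIndex_mul_relIndex _ _ _ (sup_le_sup_right hob _) (sup_le_sup_left h.le _)
  have hdeep : ∀ g ∈ V, w.W g < r → g ∈ V' := by
    intro g hg hlt
    by_contra hn
    exact absurd (h.deep g hg hn) (not_le.mpr hlt)
  rcases lt_trichotomy r t with hrt | hrt | hrt
  · -- r < t
    have a1 : oball w ht ⊔ V' = oball w ht ⊔ V :=
      sup_eq_of_mem w h (by change w.W y < t; rw [h.wy]; exact hrt)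
    have a2 : w.ball t ⊔ V' = w.ball t ⊔ V :=
      sup_eq_of_mem w h ((w.mem_ball ht.le).mpr (by rw [h.wy]; exact hrt.le))
    rw [a1, a2, if_neg hrt.ne, mul_one]
  · -- r = t
    have a2 : w.ball t ⊔ V' = w.ball t ⊔ V :=
      sup_eq_of_mem w h ((w.mem_ball ht.le).mpr (by rw [h.wy]; exact hrt.le))
    have a1 : (oball w ht ⊔ V').relIndex (oball w ht ⊔ V) = p :=
      relIndex_of_le w h (oball_normal w ht) (fun g hg => hdeep g (Subgroup.mem_inf.mp hg).2
        (by rw [hrt]; exact (Subgroup.mem_inf.mp hg).1))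
    rw [a2, ← t1, a1, if_pos hrt, mul_comm]
  · -- t < r
    have a1 : (oball w ht ⊔ V').relIndex (oball w ht ⊔ V) = p :=
      relIndex_of_le w h (oball_normal w ht) (fun g hg => hdeep g (Subgroup.mem_inf.mp hg).2
        (lt_trans (Subgroup.mem_inf.mp hg).1 hrt))
    have a2 : (w.ball t ⊔ V').relIndex (w.ball t ⊔ V) = p :=
      relIndex_of_le w h (ball_normal w t) (fun g hg => hdeep g (Subgroup.mem_inf.mp hg).2
        (lt_of_le_of_lt ((w.mem_ball ht.le).mp (Subgroup.mem_inf.mp hg).1) hrt))
    rw [if_neg hrt.ne', mul_one]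
    rw [a1] at t1
    rw [a2] at t2
    have := t2.trans t1.symm
    rw [mul_comm p] at this
    exact Nat.eq_of_mul_eq_mul_right hp this

open Classical in
theorem relIndex_chain [Fact p.Prime] {V : Subgroup G} {L : List (G × ℝ)} (h : Chain w ⊤ V L)
    {t : ℝ} (ht : 0 < t) :
    (oball w ht ⊔ V).relIndex (w.ball t ⊔ V) = p ^ ((L.map Prod.snd).count t) := by
  induction h with
  | nil => simp
  | @cons V V' L y r _ hs ih =>
    rw [relIndex_step w hs ht, ih, List.map_cons, List.count_cons]
    by_cases hrt : r = t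
    · simp [hrt, pow_succ]
    · simp [hrt]

open Classical in
theorem prod_count_le [Fact p.Prime] (T : Finset ℝ) (L : List ℝ) (hL : ∀ r ∈ L, 0 ≤ r) :
    ∏ t ∈ T, qq p t ^ (L.count t) ≤ (L.map fun r => qq p r).prod := by
  induction L with
  | nil => simp
  | cons r L ih =>
    have ih' := ih (fun x hx => hL x (List.mem_cons_of_mem _ hx))
    have hr : 0 ≤ r := hL r List.mem_cons_self
    have h1 : 1 ≤ qq p r := by
      have := one_add_le_qq (p := p) hr
      linarith
    have hnn : 0 ≤ (L.map fun r => qq p r).prod := by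
      apply List.prod_nonneg
      intro x hx
      obtain ⟨s, hs, rfl⟩ := List.mem_map.mp hx
      have := one_add_le_qq (p := p) (hL s (List.mem_cons_of_mem _ hs))
      have := hL s (List.mem_cons_of_mem _ hs)
      linarith
    have h2 : ∏ t ∈ T, qq p t ^ ((r :: L).count t) =
        (∏ t ∈ T, qq p t ^ (L.count t)) * (if r ∈ T then qq p r else 1) := by
      have h3 : ∀ t ∈ T, qq p t ^ ((r :: L).count t) =
          qq p t ^ (L.count t) * (if r = t then qq p t else 1) := by
        intro t _
        rw [List.count_cons]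
        by_cases h : r = t
        · simp [h, pow_succ]
        · simp [h]
      rw [Finset.prod_congr rfl h3, Finset.prod_mul_distrib, Finset.prod_ite_eq]
    rw [h2, List.map_cons, List.prod_cons]
    split_ifs
    · rw [mul_comm]
      exact mul_le_mul_of_nonneg_left ih' (by linarith)
    · rw [mul_one]
      calc _ ≤ (L.map fun r => qq p r).prod := ih'
        _ = 1 * (L.map fun r => qq p r).prod := (one_mul _).symm
        _ ≤ _ := mul_le_mul_of_nonneg_right h1 hnn

end IxIdx

open IxIdx in
theorem prod_le_Ix [Fact p.Prime] {V : Subgroup G} (hV : Op w V) (T : Finset ℝ)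
    (hT : ∀ t ∈ T, 0 < t) : ∏ t ∈ T, qq p t ^ cIndex p w.W V t ≤ Ix w V := by
  classical
  obtain ⟨L, hL⟩ := exists_chain w hV (le_top : V ≤ ⊤)
  have hp : 1 < p := (Fact.out : p.Prime).one_lt
  have h1 : ∀ t ∈ T, qq p t ^ cIndex p w.W V t = qq p t ^ ((L.map Prod.snd).count t) := by
    intro t ht
    rw [cIndex_eq w V (hT t ht), relIndex_chain w hL (hT t ht), Nat.log_pow hp]
  rw [Finset.prod_congr rfl h1, Ix_eq_prod w hL hV]
  have h2 := prod_count_le (p := p) T (L.map Prod.snd) (by
    intro r hr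
    obtain ⟨x, hx, rfl⟩ := List.mem_map.mp hr
    exact (chain_mem w hL x hx).2.2.1.le)
  rw [List.map_map] at h2
  exact h2

end Pool.Agent.GGS
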