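import Pool.Agent.GGS.TLim
import Pool.Agent.GGS.IxIdx

/-!
# Finite `W`-index (paper, 13.6)

For positive `t > s`: the subgroups generated by `{W ≤ t}` (or `{W < t}`) and `H` contain `H * ball s`.
-/

namespace Pool.Agent.GGS

universe u

open Ser

section

variable {p : ℕ} {G : Type u} [Group G]

theorem tidx_closure_lt (w : WG p G) (H : Subgroup G) {s t : ℝ} (hs : 0 < s) (h : s < t) :
    Subgroup.closure ({g | w.W g < t} ∪ (H : Set G)) =
      Subgroup.closure ({g | w.W g < t} ∪ ((H ⊔ w.ball s : Subgroup G) : Set G)) := by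
  refine le_antisymm (Subgroup.closure_mono (Set.union_subset_union_right _ ?_)) ?_
  · exact fun g hg => (le_sup_left : H ≤ H ⊔ w.ball s) hg
  · rw [Subgroup.closure_le]
    refine Set.union_subset (fun g hg => Subgroup.subset_closure (Or.inl hg)) ?_
    have h1 : H ⊔ w.ball s ≤ Subgroup.closure ({g | w.W g < t} ∪ (H : Set G)) :=
      sup_le (fun g hg => Subgroup.subset_closure (Or.inr hg))
        (fun g hg => Subgroup.subset_closure (Or.inl
          (lt_of_le_of_lt ((w.mem_ball hs.le).1 hg) h)))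
    exact h1

theorem tidx_closure_le (w : WG p G) (H : Subgroup G) {s t : ℝ} (hs : 0 < s) (h : s < t) :
    Subgroup.closure ({g | w.W g ≤ t} ∪ (H : Set G)) =
      Subgroup.closure ({g | w.W g ≤ t} ∪ ((H ⊔ w.ball s : Subgroup G) : Set G)) := by
  refine le_antisymm (Subgroup.closure_mono (Set.union_subset_union_right _ ?_)) ?_
  · exact fun g hg => (le_sup_left : H ≤ H ⊔ w.ball s) hg
  · rw [Subgroup.closure_le]
    refine Set.union_subset (fun g hg => Subgroup.subset_closure (Or.inl hg)) ?_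
    have h1 : H ⊔ w.ball s ≤ Subgroup.closure ({g | w.W g ≤ t} ∪ (H : Set G)) :=
      sup_le (fun g hg => Subgroup.subset_closure (Or.inr hg))
        (fun g hg => Subgroup.subset_closure (Or.inl
          (((w.mem_ball hs.le).1 hg).trans h.le)))
    exact h1

theorem tidx_cIndex (w : WG p G) (H : Subgroup G) {s t : ℝ} (hs : 0 < s) (h : s < t) :
    cIndex p w.W H t = cIndex p w.W (H ⊔ w.ball s) t := by
  unfold cIndex
  rw [← tidx_closure_lt w H hs h, ← tidx_closure_le w H hs h]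

theorem tidx_small {w : WG p G} (T : Tower w) {ε : ℝ} (hε : 0 < ε) : ∃ i, T.t i < ε := by
  have h1 : ∀ i, T.t i ≤ T.t 0 * (1 / 2) ^ i := by
    intro i
    induction i with
    | zero => simp
    | succ i ih =>
      have h2 := T.t_succ i
      rw [pow_succ]
      linarith
  obtain ⟨i, hi⟩ := exists_pow_lt_of_lt_one (div_pos hε (T.t_pos 0))
    (show (1 / 2 : ℝ) < 1 by norm_num)
  refine ⟨i, (h1 i).trans_lt ?_⟩
  rw [lt_div_iff₀ (T.t_pos 0)] at hi
  linarith

theorem tidx_qq {t : ℝ} (h : t ≠ 1) : (1 - t ^ p) / (1 - t) = qq p t := by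
  unfold qq
  rw [geom_sum_eq h, ← neg_sub (t ^ p) 1, ← neg_sub t 1, neg_div_neg_eq]

end

variable {p : ℕ} {G : Type u} [Group G] [TopologicalSpace G] [IsTopologicalGroup G] [T2Space G]
  [CompactSpace G]

theorem tidx_bound [Fact p.Prime] (w : WG p G)
    (hcl : ∀ t, 0 < t → ∀ g, IsClosed {h | w.W (g⁻¹ * h) ≤ t}) (T : Tower w) (H : Subgroup G)
    (hH : ∀ g, (∀ i, g ∈ T.Nn i) → g ∈ H) {C : ℝ}
    (hC : ∀ (i : ℕ) (M : Subgroup G), (M : Set G) = T.Nn i → Ix w M ≤ C) {ε : ℝ} (hε : 0 < ε)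
    (A : Finset ℝ) (hA : ∀ t ∈ A, ε ≤ t) :
    ∏ t ∈ A, qq p t ^ cIndex p w.W H t ≤ C := by
  obtain ⟨i, hi⟩ := tidx_small T hε
  obtain ⟨M, hM, hMop, -, -, -⟩ := tower_sub T i
  have hMV : M ≤ H ⊔ w.ball (T.t i) := by
    intro g hg
    have hg' : g ∈ T.Nn i := by rw [← hM]; exact hg
    obtain ⟨h, h1, h2⟩ := exists_approx w hcl T i g hg'
    have h3 : g = h * (g⁻¹ * h)⁻¹ := by group
    rw [h3]
    refine Subgroup.mul_mem _ (Subgroup.mem_sup_left (hH h h1)) (Subgroup.inv_mem _ ?_)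
    exact Subgroup.mem_sup_right ((w.mem_ball (T.t_pos i).le).2 h2)
  have hop : Op w (H ⊔ w.ball (T.t i)) := op_mono w (op_ball w (T.t_pos i)) le_sup_right
  have h1 := prod_le_Ix w hop A fun t ht => hε.trans_le (hA t ht)
  have h2 : ∏ t ∈ A, qq p t ^ cIndex p w.W H t =
      ∏ t ∈ A, qq p t ^ cIndex p w.W (H ⊔ w.ball (T.t i)) t :=
    Finset.prod_congr rfl fun t ht => by
      rw [tidx_cIndex w H (T.t_pos i) (hi.trans_le (hA t ht))]
  rw [h2]
  exact h1.trans ((Ix_anti w hMop hMV).trans (hC i M hM))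

/-- 13.6 -/
theorem wIndex_finite [Fact p.Prime] (w : WG p G)
    (hcl : ∀ t, 0 < t → ∀ g, IsClosed {h | w.W (g⁻¹ * h) ≤ t}) (T : Tower w) (H : Subgroup G)
    (hH : ∀ g, (∀ i, g ∈ T.Nn i) → g ∈ H) : wIndex p w.W H < ⊤ := by
  classical
  obtain ⟨C, hC⟩ := tower_ix T
  refine lt_of_le_of_lt ?_ (EReal.coe_lt_top C)
  unfold wIndex
  refine iSup_le fun s => ?_
  rw [EReal.coe_le_coe_iff]
  have hp0 : p ≠ 0 := (Fact.out : p.Prime).ne_zero
  -- the positive values
  let A : Finset ℝ := (s.image Subtype.val).filter fun t => 0 < t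
  have hval : ∀ t ∈ s.image Subtype.val, 0 ≤ t ∧ t < 1 := by
    intro t ht
    obtain ⟨x, -, hx⟩ := Finset.mem_image.1 ht
    obtain ⟨g, hg⟩ := x.2
    rw [← hx, ← hg]
    exact ⟨w.nonneg g, W_lt_one w g⟩
  have h1 : (∏ α ∈ s, ((1 - (α : ℝ) ^ p) / (1 - α)) ^ cIndex p w.W H α : ℝ) =
      ∏ t ∈ A, qq p t ^ cIndex p w.W H t := by
    have h2 : (∏ α ∈ s, ((1 - (α : ℝ) ^ p) / (1 - α)) ^ cIndex p w.W H α : ℝ) =
        ∏ t ∈ s.image Subtype.val, ((1 - t ^ p) / (1 - t)) ^ cIndex p w.W H t :=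
      (Finset.prod_image (f := fun t : ℝ => ((1 - t ^ p) / (1 - t)) ^ cIndex p w.W H t)
        (fun x _ y _ hxy => Subtype.ext hxy)).symm
    rw [h2]
    have h3 : ∏ t ∈ s.image Subtype.val, ((1 - t ^ p) / (1 - t)) ^ cIndex p w.W H t =
        ∏ t ∈ A, ((1 - t ^ p) / (1 - t)) ^ cIndex p w.W H t := by
      refine (Finset.prod_subset (Finset.filter_subset _ _) fun t ht hn => ?_).symm
      have h4 : t = 0 := by
        refine le_antisymm ?_ (hval t ht).1
        by_contra hcon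
        exact hn (Finset.mem_filter.2 ⟨ht, not_le.1 hcon⟩)
      rw [h4, zero_pow hp0, sub_zero, div_one, one_pow]
    rw [h3]
    refine Finset.prod_congr rfl fun t ht => ?_
    rw [tidx_qq (hval t (Finset.mem_filter.1 ht).1).2.ne]
  rw [h1]
  rcases A.eq_empty_or_nonempty with hA | hA
  · refine tidx_bound w hcl T H hH hC one_pos A fun t ht => ?_
    rw [hA] at ht
    exact absurd ht (Finset.notMem_empty t)
  · refine tidx_bound w hcl T H hH hC (ε := A.min' hA) ?_ A fun t ht => A.min'_le t ht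
    exact (Finset.mem_filter.1 (A.min'_mem hA)).2

end Pool.Agent.GGS
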