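import Pool.Agent.GGS.St63

/-!
# Travelling (paper, 6.4)
-/

namespace Pool.Agent.GGS

universe u

variable {p : ℕ} {G : Type u} [Group G]

/-- one travel step -/
private lemma travel_one [Fact p.Prime] (w : GSG p G) {c c' t : ℝ} {V : Subgroup G}
    (h : State w c t V) (hc : c < c') (hc' : c' ≤ w.K0 / 4)
    (hs : 3 * w.K0 * t / (c' - c) ≤ 1 / 2) :
    ∃ (t' : ℝ) (V' : Subgroup G), State w c' t' V' ∧ t' ≤ w.wm * t ∧ Cc w.toWG V t V' ∧
      Real.log (Ix w.toWG V' / Ix w.toWG V) ≤ 3 * w.K0 * t / (c' - c) ∧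
      xd w.toWG V' t' ≤ 2 * t + (xm w.toWG V - 1) * (Ix w.toWG V' / Ix w.toWG V - 1) := by
  obtain ⟨B, hB, v, r, χ, hA⟩ := exists_adapted w.toWG (ChS w.toWG V) le_rfl (ChS_finite w h.op)
  obtain ⟨Y, ρ, VY, V', h1, h2, -, -, -, -, h7, -, h9, h10, h11, h12⟩ :=
    travel_step w h hc hc' hs hA
  have hle : w.wm * ρ ≤ ρ := mul_le_of_le_one_left h1.le w.wm_lt.le
  exact ⟨w.wm * ρ, V', h10, mul_le_mul_of_nonneg_left h2 w.wm_pos.le,
    Cc_mono w.toWG (Cc_trans w.toWG h7 h9 hle) h2, h11, h12⟩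

theorem travel [Fact p.Prime] (w : GSG p G) {c g t : ℝ} {V : Subgroup G}
    (h : State w c t V) (hg : 0 < g) (hc : c + g ≤ w.K0 / 4)
    (hs : 3 * w.K0 / (1 - √w.wm) ^ 2 * t / g ≤ 1 / 2) {η : ℝ} (hη : 0 < η) :
    ∃ c' t' V', c < c' ∧ c' < c + g ∧ State w c' t' V' ∧ t' ≤ η ∧ t' ≤ t ∧ Cc w.toWG V t V' ∧
      Real.log (Ix w.toWG V' / Ix w.toWG V) ≤ 3 * w.K0 / (1 - √w.wm) ^ 2 * t / g ∧
      xd w.toWG V' t' ≤ η := by
  have hK : 0 < w.K0 := w.K0_pos
  have ht : 0 < t := h.t_pos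
  have hwm0 : 0 < w.wm := w.wm_pos
  have hwm1 : w.wm < 1 := w.wm_lt
  have hV := h.op
  set s : ℝ := √w.wm with hsdef
  have hss : s * s = w.wm := Real.mul_self_sqrt hwm0.le
  have hs0 : 0 < s := Real.sqrt_pos.mpr hwm0
  have hs1 : s < 1 := by nlinarith
  have hs1' : 0 < 1 - s := sub_pos.mpr hs1
  set C : ℝ := 3 * w.K0 / (1 - s) ^ 2 * t / g with hC
  have hC0 : 0 < C := by positivity
  have hpow : ∀ j : ℕ, w.wm ^ j = s ^ j * s ^ j := fun j => by rw [← hss, mul_pow]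
  have hsj0 : ∀ j : ℕ, 0 < s ^ j := fun j => pow_pos hs0 j
  have hsj1 : ∀ j : ℕ, s ^ j ≤ 1 := fun j => pow_le_one₀ hs0.le hs1.le
  -- the cost of one step
  have hcost : ∀ (j : ℕ) (tj : ℝ), tj ≤ w.wm ^ j * t →
      3 * w.K0 * tj / (g * ((1 - s) * s ^ j)) ≤ C * ((1 - s) * s ^ j) := by
    intro j tj hj
    rw [div_le_iff₀ (mul_pos hg (mul_pos hs1' (hsj0 j)))]
    have e1 : C * ((1 - s) * s ^ j) * (g * ((1 - s) * s ^ j)) = 3 * w.K0 * (w.wm ^ j * t) := by
      rw [hC, hpow]; field_simp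
    rw [e1]
    exact mul_le_mul_of_nonneg_left hj (by positivity)
  have hcost2 : ∀ j : ℕ, C * ((1 - s) * s ^ j) ≤ 1 / 2 := by
    intro j
    refine le_trans ?_ hs
    have : (1 - s) * s ^ j ≤ 1 := by nlinarith [hsj0 j, hsj1 j]
    exact mul_le_of_le_one_right hC0.le this
  -- iterate
  have key : ∀ j : ℕ, ∃ (tj : ℝ) (Vj : Subgroup G), State w (c + g * (1 - s ^ j)) tj Vj ∧
      tj ≤ w.wm ^ j * t ∧ Cc w.toWG V t Vj ∧
      Real.log (Ix w.toWG Vj / Ix w.toWG V) ≤ C * (1 - s ^ j) := by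
    intro j
    induction j with
    | zero =>
      refine ⟨t, V, ?_, ?_, Cc_refl w.toWG hV ht.le, ?_⟩
      · rw [pow_zero, sub_self, mul_zero, add_zero]; exact h
      · rw [pow_zero, one_mul]
      · have h1 : Ix w.toWG V ≠ 0 := (lt_of_lt_of_le one_pos (one_le_Ix w.toWG hV)).ne'
        rw [div_self h1, Real.log_one, pow_zero, sub_self, mul_zero]
    | succ j ih =>
      obtain ⟨tj, Vj, h1, h2, h3, h4⟩ := ih
      have hd : c + g * (1 - s ^ (j + 1)) - (c + g * (1 - s ^ j)) = g * ((1 - s) * s ^ j) := by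
        rw [pow_succ]; ring
      have hlt : c + g * (1 - s ^ j) < c + g * (1 - s ^ (j + 1)) := by
        rw [← sub_pos, hd]; exact mul_pos hg (mul_pos hs1' (hsj0 j))
      have hle : c + g * (1 - s ^ (j + 1)) ≤ w.K0 / 4 := by
        refine le_trans ?_ hc
        have := hsj0 (j + 1)
        nlinarith
      have hc1 := hcost j tj h2
      have hq : 3 * w.K0 * tj / (c + g * (1 - s ^ (j + 1)) - (c + g * (1 - s ^ j))) ≤ 1 / 2 := by
        rw [hd]; exact hc1.trans (hcost2 j)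
      obtain ⟨t', V', k1, k2, k3, k4, -⟩ := travel_one w h1 hlt hle hq
      rw [hd] at k4
      have htj : tj ≤ t := h2.trans (mul_le_of_le_one_left ht.le (pow_le_one₀ hwm0.le hwm1.le))
      have hI : 0 < Ix w.toWG V := lt_of_lt_of_le one_pos (one_le_Ix w.toWG hV)
      have hIj : 0 < Ix w.toWG Vj := lt_of_lt_of_le one_pos (one_le_Ix w.toWG h1.op)
      have hI' : 0 < Ix w.toWG V' := lt_of_lt_of_le one_pos (one_le_Ix w.toWG k1.op)
      refine ⟨t', V', k1, ?_, Cc_trans w.toWG h3 k3 htj, ?_⟩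
      · calc t' ≤ w.wm * tj := k2
          _ ≤ w.wm * (w.wm ^ j * t) := mul_le_mul_of_nonneg_left h2 hwm0.le
          _ = w.wm ^ (j + 1) * t := by rw [pow_succ]; ring
      · have e1 : Ix w.toWG V' / Ix w.toWG V =
            (Ix w.toWG V' / Ix w.toWG Vj) * (Ix w.toWG Vj / Ix w.toWG V) := by
          field_simp
        rw [e1, Real.log_mul (div_pos hI' hIj).ne' (div_pos hIj hI).ne']
        calc Real.log (Ix w.toWG V' / Ix w.toWG Vj) + Real.log (Ix w.toWG Vj / Ix w.toWG V)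
            ≤ C * ((1 - s) * s ^ j) + C * (1 - s ^ j) := add_le_add (k4.trans hc1) h4
          _ = C * (1 - s ^ (j + 1)) := by rw [pow_succ]; ring
  -- the limits
  set M : ℝ := rho w.toWG V * Ix w.toWG V * Real.exp (1 / 2) with hM
  have lim1 : Filter.Tendsto (fun j : ℕ => w.wm ^ j) Filter.atTop (nhds 0) :=
    tendsto_pow_atTop_nhds_zero_of_lt_one hwm0.le hwm1
  have lim2 : Filter.Tendsto (fun j : ℕ => s ^ j) Filter.atTop (nhds 0) :=
    tendsto_pow_atTop_nhds_zero_of_lt_one hs0.le hs1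
  have lim3 : Filter.Tendsto (fun j : ℕ => 2 * (w.wm ^ j * t) +
      M * (2 * (C * ((1 - s) * s ^ j)))) Filter.atTop (nhds 0) := by
    have h1 := ((lim1.mul_const t).const_mul 2).add
      ((((lim2.const_mul (1 - s)).const_mul C).const_mul 2).const_mul M)
    simpa using h1
  have ev1 := lim3.eventually (Iio_mem_nhds hη)
  have ev2 := (show Filter.Tendsto (fun j : ℕ => w.wm ^ j * t) Filter.atTop (nhds 0) by
    simpa using lim1.mul_const t).eventually (Iio_mem_nhds hη)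
  obtain ⟨j, hj1, hj2⟩ := (ev1.and ev2).exists
  have hj1' : 2 * (w.wm ^ j * t) + M * (2 * (C * ((1 - s) * s ^ j))) < η := hj1
  have hj2' : w.wm ^ j * t < η := hj2
  -- the last step
  obtain ⟨tj, Vj, h1, h2, h3, h4⟩ := key j
  have hd : c + g * (1 - s ^ (j + 1)) - (c + g * (1 - s ^ j)) = g * ((1 - s) * s ^ j) := by
    rw [pow_succ]; ring
  have hlt : c + g * (1 - s ^ j) < c + g * (1 - s ^ (j + 1)) := by
    rw [← sub_pos, hd]; exact mul_pos hg (mul_pos hs1' (hsj0 j))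
  have hle : c + g * (1 - s ^ (j + 1)) ≤ w.K0 / 4 := by
    refine le_trans ?_ hc
    have := hsj0 (j + 1)
    nlinarith
  have hc1 := hcost j tj h2
  have hq : 3 * w.K0 * tj / (c + g * (1 - s ^ (j + 1)) - (c + g * (1 - s ^ j))) ≤ 1 / 2 := by
    rw [hd]; exact hc1.trans (hcost2 j)
  obtain ⟨t', V', k1, k2, k3, k4, k5⟩ := travel_one w h1 hlt hle hq
  rw [hd] at k4
  have hwj : w.wm ^ j * t ≤ t := mul_le_of_le_one_left ht.le (pow_le_one₀ hwm0.le hwm1.le)
  have htj : tj ≤ t := h2.trans hwj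
  have htj0 : 0 < tj := h1.t_pos
  have ht' : t' ≤ tj := k2.trans (mul_le_of_le_one_left htj0.le hwm1.le)
  have hI : 0 < Ix w.toWG V := lt_of_lt_of_le one_pos (one_le_Ix w.toWG hV)
  have hIj : 0 < Ix w.toWG Vj := lt_of_lt_of_le one_pos (one_le_Ix w.toWG h1.op)
  have hI' : 0 < Ix w.toWG V' := lt_of_lt_of_le one_pos (one_le_Ix w.toWG k1.op)
  refine ⟨c + g * (1 - s ^ (j + 1)), t', V', ?_, ?_, k1, ?_, ht'.trans htj,
    Cc_trans w.toWG h3 k3 htj, ?_, ?_⟩
  · have h5 : s ^ (j + 1) < 1 := pow_lt_one₀ hs0.le hs1 (Nat.succ_ne_zero j)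
    have h6 : 0 < g * (1 - s ^ (j + 1)) := mul_pos hg (sub_pos.mpr h5)
    linarith
  · have h5 : 0 < g * s ^ (j + 1) := mul_pos hg (hsj0 _)
    nlinarith
  · exact (ht'.trans h2).trans hj2'.le
  · have e1 : Ix w.toWG V' / Ix w.toWG V =
        (Ix w.toWG V' / Ix w.toWG Vj) * (Ix w.toWG Vj / Ix w.toWG V) := by
      field_simp
    rw [e1, Real.log_mul (div_pos hI' hIj).ne' (div_pos hIj hI).ne']
    calc Real.log (Ix w.toWG V' / Ix w.toWG Vj) + Real.log (Ix w.toWG Vj / Ix w.toWG V)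
        ≤ C * ((1 - s) * s ^ j) + C * (1 - s ^ j) := add_le_add (k4.trans hc1) h4
      _ = C * (1 - s ^ (j + 1)) := by rw [pow_succ]; ring
      _ ≤ C := mul_le_of_le_one_right hC0.le (by linarith [hsj0 (j + 1)])
  · -- the deep mass
    set ε : ℝ := C * ((1 - s) * s ^ j) with hε
    have hε0 : 0 < ε := mul_pos hC0 (mul_pos hs1' (hsj0 j))
    have hε1 : ε ≤ 1 / 2 := hcost2 j
    have hrat : Ix w.toWG V' / Ix w.toWG Vj - 1 ≤ 2 * ε := by
      have h5 : Ix w.toWG V' / Ix w.toWG Vj ≤ Real.exp ε := by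
        rw [← Real.exp_log (div_pos hI' hIj)]
        exact Real.exp_le_exp.mpr (k4.trans hc1)
      have h6 : 1 - ε ≤ Real.exp (-ε) := by linarith [Real.add_one_le_exp (-ε)]
      have h7 : Real.exp ε * Real.exp (-ε) = 1 := by rw [← Real.exp_add, add_neg_cancel, Real.exp_zero]
      have h8 : 0 < Real.exp ε := Real.exp_pos ε
      have h9 : Real.exp ε * (1 - ε) ≤ 1 :=
        (mul_le_mul_of_nonneg_left h6 h8.le).trans h7.le
      have h10 : Real.exp ε ≤ 1 + 2 * ε := by nlinarith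
      linarith
    have hrat0 : 0 ≤ Ix w.toWG V' / Ix w.toWG Vj - 1 := by
      have h5 : Ix w.toWG Vj ≤ Ix w.toWG V' := Ix_anti w.toWG k1.op k3.le
      rw [sub_nonneg, le_div_iff₀ hIj, one_mul]; exact h5
    have hρ0 : 0 ≤ rho w.toWG V := hK.le.trans (K0_le_rho w hV)
    have hρj : rho w.toWG Vj ≤ rho w.toWG V := rho_anti w h1.op h3.le
    have hρj0 : 0 ≤ rho w.toWG Vj := hK.le.trans (K0_le_rho w h1.op)
    have hIjle : Ix w.toWG Vj ≤ Ix w.toWG V * Real.exp (1 / 2) := by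
      have h5 : Ix w.toWG Vj / Ix w.toWG V ≤ Real.exp (1 / 2) := by
        rw [← Real.exp_log (div_pos hIj hI)]
        refine Real.exp_le_exp.mpr (h4.trans ?_)
        exact (mul_le_of_le_one_right hC0.le (by linarith [hsj0 j])).trans hs
      rw [div_le_iff₀ hI] at h5
      linarith
    have hxm : xm w.toWG Vj - 1 ≤ M := by
      rw [xm_eq w h1.op, add_sub_cancel_left, hM, mul_assoc]
      exact mul_le_mul hρj hIjle hIj.le hρ0
    have hM0 : 0 ≤ M := mul_nonneg (mul_nonneg hρ0 hI.le) (Real.exp_pos _).le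
    have h11 : (xm w.toWG Vj - 1) * (Ix w.toWG V' / Ix w.toWG Vj - 1) ≤ M * (2 * ε) :=
      mul_le_mul hxm hrat hrat0 hM0
    linarith

end Pool.Agent.GGS
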