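import Pool.Agent.GGS.St63

/-!
# Growth (paper, 6.5)
-/

namespace Pool.Agent.GGS

universe u

variable {p : ℕ} {G : Type u} [Group G]

/-- the shortest initial segment whose product passes `A` -/
lemma exists_init {B : Type} [Fintype B] (r : B → ℝ) (f : B → ℝ) (hf : ∀ b, 1 ≤ f b)
    {t A : ℝ}
    (hD : A ≤ ∏ b ∈ Finset.univ.filter (fun b => r b ≤ t), f b) :
    ∃ Y : Finset B, (∀ b ∈ Y, r b ≤ t) ∧ (∀ x ∈ Y, ∀ y, y ∉ Y → r x ≤ r y) ∧
      A ≤ ∏ b ∈ Y, f b ∧ (Y = ∅ ∨ ∃ b ∈ Y, (∀ x ∈ Y, r x ≤ r b) ∧ ∏ x ∈ Y, f x ≤ A * f b) := by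
  classical
  have hex : ∃ n, ∃ Y : Finset B, Y.card = n ∧ (∀ b ∈ Y, r b ≤ t) ∧
      (∀ x ∈ Y, ∀ y, y ∉ Y → r x ≤ r y) ∧ A ≤ ∏ b ∈ Y, f b := by
    refine ⟨_, Finset.univ.filter (fun b => r b ≤ t), rfl, ?_, ?_, hD⟩
    · intro b hb
      exact (Finset.mem_filter.mp hb).2
    · intro x hx y hy
      have h1 : r x ≤ t := (Finset.mem_filter.mp hx).2
      have h2 : ¬ r y ≤ t := fun h => hy (Finset.mem_filter.mpr ⟨Finset.mem_univ _, h⟩)
      exact h1.trans (not_le.mp h2).le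
  obtain ⟨Y, hYc, hYt, hYi, hYA⟩ := Nat.find_spec hex
  refine ⟨Y, hYt, hYi, hYA, ?_⟩
  rcases Y.eq_empty_or_nonempty with h0 | hne
  · exact Or.inl h0
  · right
    obtain ⟨b, hb, hbmax⟩ := Y.exists_max_image r hne
    refine ⟨b, hb, hbmax, ?_⟩
    have hlt : (Y.erase b).card < Nat.find hex := by
      rw [← hYc]
      exact Finset.card_erase_lt_of_mem hb
    have hmin := Nat.find_min hex hlt
    have hprod : ∏ x ∈ Y.erase b, f x < A := by
      by_contra hcon
      rw [not_lt] at hcon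
      refine hmin ⟨Y.erase b, rfl, ?_, ?_, hcon⟩
      · intro x hx
        exact hYt x (Finset.mem_of_mem_erase hx)
      · intro x hx y hy
        have hxY := Finset.mem_of_mem_erase hx
        by_cases hyb : y = b
        · rw [hyb]; exact hbmax x hxY
        · exact hYi x hxY y fun h => hy (Finset.mem_erase.mpr ⟨hyb, h⟩)
    have hfb : 0 ≤ f b := zero_le_one.trans (hf b)
    calc ∏ x ∈ Y, f x = f b * ∏ x ∈ Y.erase b, f x := (Finset.mul_prod_erase Y f hb).symm
      _ ≤ f b * A := mul_le_mul_of_nonneg_left hprod.le hfb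
      _ = A * f b := mul_comm _ _

lemma one_add_sum_le_prod {B : Type} (Y : Finset B) (r f : B → ℝ) (hr : ∀ b, 0 ≤ r b)
    (hf : ∀ b, 1 + r b ≤ f b) : 1 + ∑ b ∈ Y, r b ≤ ∏ b ∈ Y, f b := by
  classical
  induction Y using Finset.induction_on with
  | empty => simp
  | insert a s ha ih =>
    rw [Finset.sum_insert ha, Finset.prod_insert ha]
    have h1 : 0 ≤ ∑ b ∈ s, r b := Finset.sum_nonneg fun b _ => hr b
    have h2 := hr a
    have h3 := hf a
    have h4 : (1 + r a) * (1 + ∑ b ∈ s, r b) ≤ f a * ∏ b ∈ s, f b :=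
      mul_le_mul h3 ih (by positivity) (by linarith)
    nlinarith [mul_nonneg h2 h1]

/-- Cutting deep generators one after the other until the index passes `A`, or until all are cut. -/
theorem grow_batch [Fact p.Prime] (w : GSG p G) {V : Subgroup G} (hV : Op w.toWG V) {t A : ℝ}
    (ht : 0 < t) (hA : 1 ≤ A) :
    ∃ V', Cc w.toWG V t V' ∧
      ((A * Ix w.toWG V ≤ Ix w.toWG V' ∧ Ix w.toWG V' ≤ A * qq p t * Ix w.toWG V) ∨
        ((1 + xd w.toWG V t) * Ix w.toWG V ≤ Ix w.toWG V' ∧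
          Ix w.toWG V' ≤ A * Ix w.toWG V)) := by
  obtain ⟨B, hB, v, r, χ, hAd⟩ := exists_adapted w.toWG (ChS w.toWG V) le_rfl (ChS_finite w hV)
  have hI : 1 ≤ Ix w.toWG V := one_le_Ix w.toWG hV
  have hI0 : 0 ≤ Ix w.toWG V := zero_le_one.trans hI
  have hr0 : ∀ b, 0 ≤ r b := fun b => (hAd.pos b).le
  have hf1 : ∀ b, 1 + r b ≤ qq p (r b) := fun b => one_add_le_qq (hr0 b)
  have hf : ∀ b, 1 ≤ qq p (r b) := fun b => by linarith [hf1 b, hr0 b]
  by_cases hD : A ≤ ∏ b ∈ Finset.univ.filter (fun b => r b ≤ t), qq p (r b)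
  · obtain ⟨Y, hYt, hYi, hYA, hY⟩ := exists_init r (fun b => qq p (r b)) hf hD
    rcases hY with h0 | ⟨b, hb, hbmax, hbp⟩
    · refine ⟨V, Cc_refl w.toWG hV ht.le, Or.inl ?_⟩
      rw [h0, Finset.prod_empty] at hYA
      have hA1 : A = 1 := le_antisymm hYA hA
      have hq : 1 ≤ qq p t := by
        have := one_add_le_qq (p := p) ht.le
        linarith
      rw [hA1]
      constructor
      · rw [one_mul]
      · rw [one_mul]
        exact le_mul_of_one_le_left hI0 hq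
    · obtain ⟨VY, hC, -, hIx, -, -⟩ := cut_many w.toWG hV hAd Y (hAd.pos b) hbmax
        (fun y hy => hYi b hb y hy)
      refine ⟨VY, Cc_mono w.toWG hC (hYt b hb), Or.inl ?_⟩
      rw [hIx]
      constructor
      · rw [mul_comm]
        exact mul_le_mul_of_nonneg_left hYA hI0
      · have h1 : ∏ x ∈ Y, qq p (r x) ≤ A * qq p t :=
          hbp.trans (mul_le_mul_of_nonneg_left (qq_mono (hr0 b) (hYt b hb))
            (zero_le_one.trans hA))
        calc Ix w.toWG V * ∏ x ∈ Y, qq p (r x) ≤ Ix w.toWG V * (A * qq p t) :=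
              mul_le_mul_of_nonneg_left h1 hI0
          _ = A * qq p t * Ix w.toWG V := by ring
  · rw [not_le] at hD
    obtain ⟨VY, hC, -, hIx, -, -⟩ := cut_many w.toWG hV hAd
      (Finset.univ.filter (fun b => r b ≤ t)) ht
      (fun b hb => (Finset.mem_filter.mp hb).2)
      (fun b hb => (not_le.mp fun h => hb (Finset.mem_filter.mpr ⟨Finset.mem_univ _, h⟩)).le)
    refine ⟨VY, hC, Or.inr ?_⟩
    rw [hIx, adapted_xd w.toWG hAd ht]
    constructor
    · rw [mul_comm]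
      exact mul_le_mul_of_nonneg_left (one_add_sum_le_prod _ r _ hr0 hf1) hI0
    · rw [mul_comm]
      exact mul_le_mul_of_nonneg_right hD.le hI0

/-- 6.5 (a) -/
theorem grow [Fact p.Prime] (w : GSG p G) {c t e : ℝ} {V : Subgroup G} (h : State w c t V)
    (he : e ≤ 1 / 4) (hte : 8 * t ≤ e) :
    ∃ V', Cc w.toWG V t V' ∧ (1 + e / 2) * Ix w.toWG V ≤ Ix w.toWG V' ∧
      Ix w.toWG V' ≤ (1 + e) * Ix w.toWG V := by
  have ht := h.t_pos
  have hK := w.K0_pos
  have he0 : 0 < e := by linarith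
  have hV := h.op
  have hI : 1 ≤ Ix w.toWG V := one_le_Ix w.toWG hV
  have hI0 : 0 < Ix w.toWG V := zero_lt_one.trans_le hI
  have hq : qq p t ≤ 1 + 2 * t := (qq_bounds (p := p) ht.le (by linarith)).2.1
  have hpass : (1 + e / 2) * qq p t ≤ 1 + e := by
    have h1 : (1 + e / 2) * qq p t ≤ (1 + e / 2) * (1 + 2 * t) :=
      mul_le_mul_of_nonneg_left hq (by linarith)
    nlinarith
  -- the step
  have step : ∀ V' : Subgroup G, Cc w.toWG V t V' → Ix w.toWG V' ≤ (1 + e / 2) * Ix w.toWG V →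
      t ≤ xd w.toWG V' t →
      (∃ V'', Cc w.toWG V t V'' ∧ (1 + e / 2) * Ix w.toWG V ≤ Ix w.toWG V'' ∧
        Ix w.toWG V'' ≤ (1 + e) * Ix w.toWG V) ∨
      (∃ V'', Cc w.toWG V t V'' ∧ (1 + t) * Ix w.toWG V' ≤ Ix w.toWG V'' ∧
        Ix w.toWG V'' ≤ (1 + e / 2) * Ix w.toWG V) := by
    intro V' hC hle hx
    have hI' : 0 < Ix w.toWG V' := zero_lt_one.trans_le (one_le_Ix w.toWG hC.op)
    have hA : 1 ≤ (1 + e / 2) * Ix w.toWG V / Ix w.toWG V' := by
      rw [le_div_iff₀ hI', one_mul]; exact hle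
    have hcancel : (1 + e / 2) * Ix w.toWG V / Ix w.toWG V' * Ix w.toWG V' =
        (1 + e / 2) * Ix w.toWG V := div_mul_cancel₀ _ hI'.ne'
    obtain ⟨V'', hC', hcase⟩ := grow_batch w hC.op ht hA
    have hCC := Cc_trans w.toWG hC hC' le_rfl
    rcases hcase with ⟨h1, h2⟩ | ⟨h1, h2⟩
    · left
      refine ⟨V'', hCC, ?_, ?_⟩
      · rw [hcancel] at h1; exact h1
      · have e1 : (1 + e / 2) * Ix w.toWG V / Ix w.toWG V' * qq p t * Ix w.toWG V' =
            ((1 + e / 2) * qq p t) * Ix w.toWG V := by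
          field_simp
        rw [e1] at h2
        exact h2.trans (mul_le_mul_of_nonneg_right hpass hI0.le)
    · right
      refine ⟨V'', hCC, ?_, ?_⟩
      · refine le_trans (mul_le_mul_of_nonneg_right ?_ hI'.le) h1
        linarith
      · rw [hcancel] at h2; exact h2
  have key : ∀ n : ℕ, (∃ V'', Cc w.toWG V t V'' ∧ (1 + e / 2) * Ix w.toWG V ≤ Ix w.toWG V'' ∧
        Ix w.toWG V'' ≤ (1 + e) * Ix w.toWG V) ∨
      (∃ V', Cc w.toWG V t V' ∧ (1 + t) ^ (n + 1) * Ix w.toWG V ≤ Ix w.toWG V' ∧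
        Ix w.toWG V' ≤ (1 + e / 2) * Ix w.toWG V) := by
    intro n
    induction n with
    | zero =>
      rcases step V (Cc_refl w.toWG hV ht.le) (by nlinarith) h.deep with h1 | ⟨V'', h1, h2, h3⟩
      · exact Or.inl h1
      · refine Or.inr ⟨V'', h1, ?_, h3⟩
        rw [zero_add, pow_one]; exact h2
    | succ n ih =>
      rcases ih with h1 | ⟨V', hC, hlo, hhi⟩
      · exact Or.inl h1
      · have hl2 : Ix w.toWG V' ≤ 2 * Ix w.toWG V :=
          hhi.trans (mul_le_mul_of_nonneg_right (by linarith) hI0.le)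
        have h1t : 1 + t ≤ Ix w.toWG V' / Ix w.toWG V := by
          rw [le_div_iff₀ hI0]
          refine le_trans (mul_le_mul_of_nonneg_right ?_ hI0.le) hlo
          rw [pow_succ]
          have h2 : 1 ≤ (1 + t) ^ n := one_le_pow₀ (by linarith)
          nlinarith
        have hdeep := state_deep w h hC hl2
        have hx : t ≤ xd w.toWG V' t := by
          have h3 : 0 ≤ w.K0 / 2 * (Ix w.toWG V' / Ix w.toWG V - 1) - w.K0 * t / 4 := by
            have h4 : w.K0 / 2 * t ≤ w.K0 / 2 * (Ix w.toWG V' / Ix w.toWG V - 1) :=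
              mul_le_mul_of_nonneg_left (by linarith) (by linarith)
            nlinarith [mul_pos hK ht]
          have h5 := mul_nonneg hI0.le h3
          linarith [h.deep]
        rcases step V' hC hhi hx with h2 | ⟨V'', h2, h3, h4⟩
        · exact Or.inl h2
        · refine Or.inr ⟨V'', h2, ?_, h4⟩
          calc (1 + t) ^ (n + 1 + 1) * Ix w.toWG V
              = (1 + t) * ((1 + t) ^ (n + 1) * Ix w.toWG V) := by ring
            _ ≤ (1 + t) * Ix w.toWG V' := mul_le_mul_of_nonneg_left hlo (by linarith)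
            _ ≤ Ix w.toWG V'' := h3
  -- termination
  obtain ⟨n, hn⟩ := pow_unbounded_of_one_lt (1 + e / 2) (show (1 : ℝ) < 1 + t by linarith)
  rcases key n with h1 | ⟨V', -, hlo, hhi⟩
  · exact h1
  · exfalso
    have h2 : (1 + t) ^ (n + 1) ≤ 1 + e / 2 := le_of_mul_le_mul_right (hlo.trans hhi) hI0
    have h3 : (1 + t) ^ n ≤ (1 + t) ^ (n + 1) := pow_le_pow_right₀ (by linarith) (Nat.le_succ n)
    linarith

/-- 6.5 -/
theorem growth [Fact p.Prime] (w : GSG p G) {c c' t e : ℝ} {V : Subgroup G} (h : State w c t V)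
    (hc : c < c') (hc' : c' ≤ w.K0 / 4) (he : e ≤ 1 / 4) (hte : 8 * t ≤ e)
    (hs : w.K0 * e / (c' - c) ≤ 1 / 2) :
    ∃ V', Cc w.toWG V t V' ∧ State w c' t V' ∧ (1 + e / 2) * Ix w.toWG V ≤ Ix w.toWG V' ∧
      Real.log (Ix w.toWG V' / Ix w.toWG V) ≤ w.K0 * e / (c' - c) := by
  have ht := h.t_pos
  have hK := w.K0_pos
  have hc0 := h.c_pos
  have he0 : 0 < e := by linarith
  have hV := h.op
  have hd : 0 < c' - c := by linarith
  have hI0 : 0 < Ix w.toWG V := zero_lt_one.trans_le (one_le_Ix w.toWG hV)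
  obtain ⟨Vg, hCg, hglo, hghi⟩ := grow w h he hte
  have hIg0 : 0 < Ix w.toWG Vg := zero_lt_one.trans_le (one_le_Ix w.toWG hCg.op)
  obtain ⟨V', hC', hmin, hcost⟩ := near_min w hCg.op (hc0.trans hc) ht
  have hI'0 : 0 < Ix w.toWG V' := zero_lt_one.trans_le (one_le_Ix w.toWG hC'.op)
  have hCC := Cc_trans w.toWG hCg hC' le_rfl
  have hIle : Ix w.toWG Vg ≤ Ix w.toWG V' := Ix_anti w.toWG hC'.op hC'.le
  have hlo : (1 + e / 2) * Ix w.toWG V ≤ Ix w.toWG V' := hglo.trans hIle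
  have hlogadd : Real.log (Ix w.toWG V' / Ix w.toWG V) =
      Real.log (Ix w.toWG V' / Ix w.toWG Vg) + Real.log (Ix w.toWG Vg / Ix w.toWG V) := by
    rw [Real.log_div hI'0.ne' hI0.ne', Real.log_div hI'0.ne' hIg0.ne',
      Real.log_div hIg0.ne' hI0.ne']
    ring
  have hb : Real.log (Ix w.toWG Vg / Ix w.toWG V) ≤ e := by
    have h1 : Ix w.toWG Vg / Ix w.toWG V ≤ 1 + e := by
      rw [div_le_iff₀ hI0]; exact hghi
    have h2 := Real.log_le_sub_one_of_pos (div_pos hIg0 hI0)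
    linarith
  have hS2 := h.min V' hCC
  have hrho := rho_anti w hCg.op hCg.le
  rw [hlogadd] at hS2
  have hmain : (c' - c) * Real.log (Ix w.toWG V' / Ix w.toWG Vg) ≤ w.K0 * e / 2 := by
    have h1 : c * Real.log (Ix w.toWG Vg / Ix w.toWG V) ≤ w.K0 / 4 * e := by
      have h2 : c * Real.log (Ix w.toWG Vg / Ix w.toWG V) ≤ c * e :=
        mul_le_mul_of_nonneg_left hb hc0.le
      have h3 : c * e ≤ w.K0 / 4 * e := mul_le_mul_of_nonneg_right (by linarith) he0.le
      linarith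
    have h4 : w.K0 * t / 8 ≤ w.K0 * e / 64 := by
      have := mul_le_mul_of_nonneg_left hte hK.le
      linarith
    have h5 : 0 < w.K0 * e := mul_pos hK he0
    have h6 : (c' - c) * Real.log (Ix w.toWG V' / Ix w.toWG Vg) =
        c' * Real.log (Ix w.toWG V' / Ix w.toWG Vg) -
          c * Real.log (Ix w.toWG V' / Ix w.toWG Vg) := by ring
    rw [h6]
    rw [mul_add] at hS2
    linarith
  have ha : Real.log (Ix w.toWG V' / Ix w.toWG Vg) ≤ w.K0 * e / 2 / (c' - c) := by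
    rw [le_div_iff₀ hd, mul_comm]; exact hmain
  have hlog : Real.log (Ix w.toWG V' / Ix w.toWG V) ≤ w.K0 * e / (c' - c) := by
    rw [hlogadd]
    have h1 : e ≤ w.K0 * e / 2 / (c' - c) := by
      rw [le_div_iff₀ hd]
      nlinarith
    have h2 : w.K0 * e / (c' - c) = w.K0 * e / 2 / (c' - c) + w.K0 * e / 2 / (c' - c) := by
      field_simp
      ring
    linarith
  refine ⟨V', hCC, ?_, hlo, hlog⟩
  have hl2 : Ix w.toWG V' ≤ 2 * Ix w.toWG V := by
    have h1 : Ix w.toWG V' / Ix w.toWG V ≤ 2 := by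
      have h2 : Real.log (Ix w.toWG V' / Ix w.toWG V) ≤ 1 / 2 := hlog.trans hs
      have h3 : Real.log (Ix w.toWG V' / Ix w.toWG V) ≤ Real.log 2 := by
        have := Real.log_two_gt_d9
        linarith
      exact (Real.log_le_log_iff (div_pos hI'0 hI0) two_pos).mp h3
    rwa [div_le_iff₀ hI0] at h1
  have hdeep := state_deep w h hCC hl2
  refine ⟨hc0.trans hc, hc', ht, h.t_le, hC'.op, ?_, hmin⟩
  have h1 : 1 + e / 2 ≤ Ix w.toWG V' / Ix w.toWG V := by
    rw [le_div_iff₀ hI0]; exact hlo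
  have h3 : 0 ≤ w.K0 / 2 * (Ix w.toWG V' / Ix w.toWG V - 1) - w.K0 * t / 4 := by
    have h4 : w.K0 / 2 * t ≤ w.K0 / 2 * (Ix w.toWG V' / Ix w.toWG V - 1) :=
      mul_le_mul_of_nonneg_left (by linarith) (by linarith)
    nlinarith [mul_pos hK ht]
  have h5 := mul_nonneg hI0.le h3
  linarith [h.deep]

end Pool.Agent.GGS
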