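import Pool.Agent.GGS.St61
import Pool.Agent.GGS.CutMany

/-!
# Start (paper, 5.5, 6.6)
-/

namespace Pool.Agent.GGS

universe u

variable {p : ℕ} {G : Type u} [Group G]

theorem one_add_sum_le_prod_qq [Fact p.Prime] {B : Type} (s : Finset B) (r : B → ℝ)
    (hr : ∀ b, 0 ≤ r b) : 1 + ∑ b ∈ s, r b ≤ ∏ b ∈ s, qq p (r b) := by
  classical
  induction s using Finset.induction_on with
  | empty => simp
  | insert a s ha ih =>
    rw [Finset.sum_insert ha, Finset.prod_insert ha]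
    have h1 := one_add_le_qq (p := p) (hr a)
    have h2 : 0 ≤ ∑ b ∈ s, r b := Finset.sum_nonneg fun b _ => hr b
    have h3 := hr a
    calc 1 + (r a + ∑ b ∈ s, r b) ≤ (1 + r a) * (1 + ∑ b ∈ s, r b) := by nlinarith
      _ ≤ _ := mul_le_mul h1 ih (by linarith) (by linarith)

/-- all generators are cut -/
theorem exists_double [Fact p.Prime] (w : GSG p G) {V : Subgroup G} (hV : Op w.toWG V) :
    ∃ V', Op w.toWG V' ∧ 2 * Ix w.toWG V ≤ Ix w.toWG V' := by
  classical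
  obtain ⟨B, hB, v, r, χ, hA⟩ := exists_adapted w.toWG (ChS w.toWG V) le_rfl (ChS_finite w hV)
  obtain ⟨V', hC, -, hI, -, -⟩ := cut_many w.toWG hV hA Finset.univ (ρ := 1) one_pos
    (fun b _ => (adapted_lt w.toWG hA b).2.2.le) fun b hb => absurd (Finset.mem_univ b) hb
  refine ⟨V', hC.op, ?_⟩
  have h1 := one_add_sum_le_prod_qq (p := p) Finset.univ r fun b => (hA.pos b).le
  rw [← adapted_xm w.toWG hA, xm_eq w hV] at h1
  have h2 := one_le_Ix w.toWG hV
  have h3 := K0_le_rho w hV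
  have h4 := w.K0_pos
  rw [hI]
  have h5 : 0 ≤ rho w.toWG V * Ix w.toWG V := mul_nonneg (by linarith) (by linarith)
  nlinarith

/-- 5.5 -/
theorem Ix_ball_large [Fact p.Prime] (w : GSG p G) (A t₀ : ℝ) (ht₀ : 0 < t₀) :
    ∃ t, 0 < t ∧ t ≤ t₀ ∧ A ≤ Ix w.toWG (w.ball t) := by
  have key : ∀ n : ℕ, ∃ V, Op w.toWG V ∧ (2 : ℝ) ^ n ≤ Ix w.toWG V := by
    intro n
    induction n with
    | zero => exact ⟨⊤, op_top w.toWG, by rw [Ix_top, pow_zero]⟩
    | succ n ih =>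
      obtain ⟨V, hV, h1⟩ := ih
      obtain ⟨V', hV', h2⟩ := exists_double w hV
      exact ⟨V', hV', by rw [pow_succ]; linarith⟩
  obtain ⟨n, hn⟩ := pow_unbounded_of_one_lt A (one_lt_two : (1 : ℝ) < 2)
  obtain ⟨V, hV, h1⟩ := key n
  obtain ⟨t, ht, h2⟩ := (op_iff w.toWG).1 hV
  refine ⟨min t t₀, lt_min ht ht₀, min_le_right _ _, ?_⟩
  have h3 : w.ball (min t t₀) ≤ V := (ball_mono w.toWG (min_le_left _ _)).trans h2
  have h4 := Ix_anti w.toWG (op_ball w.toWG (lt_min ht ht₀)) h3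
  linarith

/-- 6.6 -/
theorem start [Fact p.Prime] (w : GSG p G) (A t₀ : ℝ) (ht₀ : 0 < t₀) :
    ∃ t V, t ≤ t₀ ∧ State w (w.K0 / 8) t V ∧ A ≤ Ix w.toWG V := by
  classical
  obtain ⟨t, ht, htt, hA⟩ := Ix_ball_large w A (min t₀ (1 / 4)) (lt_min ht₀ (by norm_num))
  have hK0 := w.K0_pos
  obtain ⟨V, hC, hmin, -⟩ := near_min w (op_ball w.toWG ht) (show 0 < w.K0 / 8 by linarith) ht
  have hIV := Ix_anti w.toWG hC.op hC.le
  refine ⟨t, V, htt.trans (min_le_left _ _), ?_, hA.trans hIV⟩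
  refine ⟨by linarith, by linarith, ht, htt.trans (min_le_right _ _), hC.op, ?_, hmin⟩
  obtain ⟨B, hB, v, r, χ, hAd⟩ := exists_adapted w.toWG (ChS w.toWG V) le_rfl
    (ChS_finite w hC.op)
  have h1 : ∀ b, r b ≤ t := by
    intro b
    rw [← hAd.wv b]
    exact (w.toWG.mem_ball ht.le).1 (hC.le (hAd.mem b))
  have h2 : xd w.toWG V t = xm w.toWG V := by
    rw [adapted_xd w.toWG hAd ht, adapted_xm w.toWG hAd]
    congr 1
    exact Finset.filter_true_of_mem fun b _ => h1 b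
  rw [h2, xm_eq w hC.op]
  have h3 := one_le_Ix w.toWG hC.op
  have h4 := K0_le_rho w hC.op
  have h5 : 0 ≤ rho w.toWG V * Ix w.toWG V := mul_nonneg (by linarith) (by linarith)
  have h6 := htt.trans (min_le_right _ _)
  linarith

end Pool.Agent.GGS
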