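import Pool.Agent.GGS.StTh
import Pool.Agent.GGS.St64
import Pool.Agent.GGS.St65
import Pool.Agent.GGS.St66

/-!
# The stage lemma (paper, section 12)
-/

namespace Pool.Agent.GGS

universe u

open Ser

variable {p : ℕ} {G : Type u} [Group G]

open Filter Topology in
theorem stage_dom {ι : Type*} {f : ι → ℝ} (hf : Summable f) (h0 : ∀ i, 0 ≤ f i) {ε : ℝ}
    (hε : 0 < ε) : ∀ᶠ β in 𝓝[>] (0 : ℝ), ∑' i, min (f i) (√β) < ε := by
  have hT : Tendsto (fun β : ℝ => ∑' i, min (f i) (√β)) (𝓝[>] 0)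
      (𝓝 (∑' i, min (f i) (√0))) := by
    refine tendsto_tsum_of_dominated_convergence hf ?_ ?_
    · intro k
      have hc : Continuous fun β : ℝ => min (f k) (√β) := by fun_prop
      exact (hc.tendsto 0).mono_left nhdsWithin_le_nhds
    · filter_upwards with β k
      rw [Real.norm_eq_abs, abs_of_nonneg (le_min (h0 k) (Real.sqrt_nonneg _))]
      exact min_le_left _ _
  have h00 : ∑' i, min (f i) (√0) = 0 := by
    have : ∀ i, min (f i) (√0) = 0 := fun i => by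
      rw [Real.sqrt_zero]; exact min_eq_right (h0 i)
    simp only [this, tsum_zero]
  rw [h00] at hT
  exact hT.eventually (gt_mem_nhds hε)

open Filter Topology in
theorem stage_lin (A : ℝ) {ε : ℝ} (hε : 0 < ε) : ∀ᶠ β in 𝓝[>] (0 : ℝ), A * β < ε := by
  have hc : Continuous fun β : ℝ => A * β := by fun_prop
  have hT : Tendsto (fun β : ℝ => A * β) (𝓝[>] 0) (𝓝 (A * 0)) :=
    (hc.tendsto 0).mono_left nhdsWithin_le_nhds
  rw [mul_zero] at hT
  exact hT.eventually (gt_mem_nhds hε)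

theorem stage_mw [Fact p.Prime] (w : WG p G) {P V : Subgroup G} {L : List (G × ℝ)}
    (h : Chain w P V L) : ∃ μ, 0 < μ ∧ ∀ a : Fin L.length → Fin p, μ ≤ mw L a := by
  haveI : Nonempty (Fin L.length → Fin p) := ⟨fun _ => ⟨0, (Fact.out : p.Prime).pos⟩⟩
  obtain ⟨a0, ha0⟩ := Finite.exists_min (fun a : Fin L.length → Fin p => mw L a)
  refine ⟨mw L a0, ?_, ha0⟩
  exact Finset.prod_pos fun i _ => pow_pos (chain_mem w h _ (List.get_mem _ _)).2.2.1 _

theorem stage_ratio {a b l : ℝ} (ha : 0 < a) (hb : 0 < b) (h : Real.log (b / a) ≤ l) :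
    b ≤ Real.exp l * a := by
  rw [Real.log_le_iff_le_exp (div_pos hb ha), div_le_iff₀ ha] at h
  exact h

theorem stage_exp {l : ℝ} (h0 : 0 ≤ l) (h1 : l ≤ 1) : Real.exp l ≤ 1 + 2 * l := by
  have h := Real.abs_exp_sub_one_le (x := l) (by rw [abs_of_nonneg h0]; exact h1)
  rw [abs_of_nonneg h0] at h
  linarith [(abs_le.mp h).2]

theorem stage [Fact p.Prime] (w : GSG p G) (Q : Pres p G w.toWG) {m : ℕ} (hm : 1 ≤ m)
    {δ g Imax : ℝ} (hδ : 0 < δ) (hδ1 : δ ≤ 1) (hg : 0 < g) :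
    ∃ ts, 0 < ts ∧ ∀ (c t : ℝ) (V : Subgroup G), State w c t V → t ≤ ts →
      max (64 / w.K0) (2048 * Q.WR / w.K0 ^ 2) ≤ Ix w.toWG V → Ix w.toWG V ≤ Imax →
      c + g ≤ w.K0 / 4 → ∀ u₀ ∈ V, ∀ v₀ ∈ V, ∀ wd, IsWd p m wd → ∀ η, 0 < η →
      ∃ c' t' V' u v, StageOut w m δ g c t V u₀ v₀ wd η c' t' V' u v := by
  have hK0 : 0 < w.K0 := w.K0_pos
  have hIm1 : (1 : ℝ) ≤ max Imax 1 := le_max_right _ _
  have hImax : Imax ≤ max Imax 1 := le_max_left _ _
  generalize max Imax 1 = Im at hIm1 hImax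
  have hIm0 : 0 < Im := by linarith
  have hop : Op w.toWG ⊤ := ⟨1, one_pos, fun _ _ => Subgroup.mem_top _⟩
  have hK1p : 0 < rho w.toWG ⊤ := hK0.trans_le (K0_le_rho w hop)
  have hrho : ∀ V, Op w.toWG V → rho w.toWG V ≤ rho w.toWG ⊤ := fun V hV => rho_anti w hV le_top
  generalize rho w.toWG ⊤ = K1 at hK1p hrho
  have hWR : 0 ≤ Q.WR := tsum_nonneg fun i => Wt_nonneg Q.pos (Q.r i)
  have hC1 : 0 ≤ 3 * w.K0 / (1 - √w.wm) ^ 2 := by positivity
  -- the small number bounding the logarithms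
  obtain ⟨lam, hlam, hlam1, hlam2, hlam3⟩ : ∃ lam : ℝ, 0 < lam ∧ lam ≤ 1 / 8 ∧ lam ≤ δ / 4 ∧
      (3 * K1 * Im) * (6 * lam) ≤ δ / 2 := by
    refine ⟨min (1 / 8) (min (δ / 4) (δ / (36 * K1 * Im))), by positivity, min_le_left _ _,
      (min_le_right _ _).trans (min_le_left _ _), ?_⟩
    have h : min (1 / 8) (min (δ / 4) (δ / (36 * K1 * Im))) ≤ δ / (36 * K1 * Im) :=
      (min_le_right _ _).trans (min_le_right _ _)
    calc (3 * K1 * Im) * (6 * min (1 / 8) (min (δ / 4) (δ / (36 * K1 * Im))))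
        ≤ (3 * K1 * Im) * (6 * (δ / (36 * K1 * Im))) := by gcongr
      _ = δ / 2 := by field_simp; norm_num
  obtain ⟨e, he, he1, he2⟩ : ∃ e : ℝ, 0 < e ∧ e ≤ 1 / 4 ∧ w.K0 * e / (g / 4) ≤ lam := by
    refine ⟨min (1 / 4) (lam * (g / 4) / w.K0), by positivity, min_le_left _ _, ?_⟩
    rw [div_le_iff₀ (by positivity)]
    calc w.K0 * min (1 / 4) (lam * (g / 4) / w.K0) ≤ w.K0 * (lam * (g / 4) / w.K0) := by
          gcongr; exact min_le_right _ _
      _ = lam * (g / 4) := by field_simp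
  -- the constant
  have hcst : (1 : ℝ) ≤ 1 / e := by
    rw [le_div_iff₀ he]; linarith
  have hcst0 : 0 < 1 / e := by linarith
  have hn1 : 1 ≤ n0 m := (n0_spec m).2.1
  have hD : 0 < (1 / e) ^ n0 m := by positivity
  obtain ⟨s, hs, hs1, hs2⟩ : ∃ s : ℝ, 0 < s ∧ s ≤ lam ∧
      (1 / e) ^ n0 m * (3 / 2) * Q.WR * (Im * (2 * s)) ≤ 1 / 3 := by
    have hX : 0 ≤ (1 / e) ^ n0 m * Q.WR * Im := by positivity
    refine ⟨min lam (1 / (9 * ((1 / e) ^ n0 m * Q.WR * Im) + 1)), by positivity,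
      min_le_left _ _, ?_⟩
    generalize hXX : (1 / e) ^ n0 m * Q.WR * Im = X at hX
    have h1 : (1 / e) ^ n0 m * (3 / 2) * Q.WR * (Im * (2 * min lam (1 / (9 * X + 1)))) =
        3 * X * min lam (1 / (9 * X + 1)) := by
      rw [← hXX]; ring
    rw [h1]
    calc 3 * X * min lam (1 / (9 * X + 1)) ≤ 3 * X * (1 / (9 * X + 1)) := by
          gcongr; exact min_le_right _ _
      _ ≤ 1 / 3 := by
          rw [mul_one_div, div_le_div_iff₀ (by positivity) (by norm_num)]; linarith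
  obtain ⟨ts, hts, hts1⟩ : ∃ ts : ℝ, 0 < ts ∧
      3 * w.K0 / (1 - √w.wm) ^ 2 * ts / (g / 4) ≤ s := by
    generalize 3 * w.K0 / (1 - √w.wm) ^ 2 = C at hC1
    refine ⟨s * (g / 4) / (C + 1), by positivity, ?_⟩
    rw [div_le_iff₀ (by positivity)]
    calc C * (s * (g / 4) / (C + 1)) = (C / (C + 1)) * (s * (g / 4)) := by ring
      _ ≤ 1 * (s * (g / 4)) := by
          gcongr
          rw [div_le_one (by positivity)]; linarith
      _ = s * (g / 4) := one_mul _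
  refine ⟨ts, hts, ?_⟩
  intro c t V hV htts hI hImx hcg u₀ hu₀ v₀ hv₀ wd hwd η hη
  have htp := hV.t_pos
  have hl1 : 3 * w.K0 / (1 - √w.wm) ^ 2 * t / (g / 4) ≤ s := by
    refine le_trans ?_ hts1
    gcongr
  obtain ⟨L0, hL0⟩ := exists_chain w.toWG hV.op (le_top : V ≤ ⊤)
  obtain ⟨μ, hμ, hμ'⟩ := stage_mw w.toWG hL0
  have hev := (((((((stage_lin 8 he).and (stage_lin (w.K0 / 4 + 2)
      (show 0 < 3 / 16 * w.K0 * e by positivity))).and
      (stage_lin ((1 / e) ^ n0 m * (1 + K1 * (9 / 2 * Im))) (show (0 : ℝ) < 1 / 3 by norm_num))).and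
      (stage_lin ((n0 m : ℝ) ^ 2 * 4 ^ n0 m * (1 / e)) one_pos)).and
      (stage_lin (1 / e) one_pos)).and
      (stage_lin (3 * w.K0 / (g / 4)) hlam)).and (stage_lin 1 (show 0 < μ ^ 2 by positivity))).and
      (stage_dom Q.summ (fun i => Wt_nonneg Q.pos (Q.r i))
        (show 0 < 1 / (3 * ((1 / e) ^ n0 m * (9 / 2 * Im))) by positivity))
  obtain ⟨b, hb, hbs⟩ := mem_nhdsGT_iff_exists_Ioc_subset.mp hev
  have hb0 : 0 < b := hb
  obtain ⟨c1, β, U, hc1, hc1', hU, hβη, hβt, hVU, hlog1, hxdU⟩ :=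
    travel w hV (show 0 < g / 4 by positivity) (by linarith) (by linarith)
      (show 0 < min b (δ / 2) by positivity)
  have hβ := hU.t_pos
  obtain ⟨⟨⟨⟨⟨⟨⟨hb1, hb2⟩, hb3⟩, hb4⟩, hb5⟩, hb6⟩, hb7⟩, hb8⟩ :=
    hbs ⟨hβ, hβη.trans (min_le_left _ _)⟩
  have hVp : 0 < Ix w.toWG V := one_pos.trans_le (one_le_Ix w.toWG hV.op)
  have hUp : 0 < Ix w.toWG U := one_pos.trans_le (one_le_Ix w.toWG hU.op)
  have hIVU : Ix w.toWG V ≤ Ix w.toWG U := Ix_anti w.toWG hU.op hVU.le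
  have hl10 : 0 ≤ 3 * w.K0 / (1 - √w.wm) ^ 2 * t / (g / 4) := by positivity
  have hIU1 : Ix w.toWG U ≤ (1 + 2 * s) * Ix w.toWG V := by
    have h1 := stage_ratio hVp hUp (hlog1.trans hl1)
    have h2 := stage_exp hs.le (by linarith)
    exact h1.trans (mul_le_mul_of_nonneg_right h2 hVp.le)
  have hIVm : Ix w.toWG V ≤ Im := hImx.trans hImax
  have hIU3 : Ix w.toWG U ≤ 3 * Im := by
    calc Ix w.toWG U ≤ (1 + 2 * s) * Ix w.toWG V := hIU1
      _ ≤ 3 * Im := by gcongr; linarith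
  obtain ⟨Vs, hUs, hVs, hgr, hlog2⟩ := growth w hU (show c1 < c1 + g / 4 by linarith)
    (by linarith) he1 hb1.le (by rw [add_sub_cancel_left]; linarith)
  rw [add_sub_cancel_left] at hlog2
  have hVsp : 0 < Ix w.toWG Vs := one_pos.trans_le (one_le_Ix w.toWG hVs.op)
  have hIVs : Ix w.toWG Vs ≤ 3 / 2 * Ix w.toWG U := by
    have h1 := stage_ratio hUp hVsp (hlog2.trans he2)
    have h2 := stage_exp hlam.le (by linarith)
    refine h1.trans (mul_le_mul_of_nonneg_right (by linarith) hUp.le)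
  have hIVs2 : Ix w.toWG Vs ≤ 9 / 2 * Im := by linarith
  have hfin := ChS_finite w hVs.op
  obtain ⟨B, hB, v, r, χ, hA⟩ := exists_adapted w.toWG (ChS w.toWG Vs) le_rfl hfin
  obtain ⟨Y, ρ, VY, V2, hρ, hρβ, hY, hY', -, hYm, hVY, hvY, hV2, hS2, hlog3, -⟩ :=
    travel_step w hVs (show c1 + g / 4 < c1 + g / 4 + g / 4 by linarith) (by linarith)
      (by
        rw [add_sub_cancel_left]
        have : 3 * w.K0 * β / (g / 4) = 3 * w.K0 / (g / 4) * β := by ring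
        linarith) hA
  rw [add_sub_cancel_left] at hlog3
  have hlog3' : Real.log (Ix w.toWG V2 / Ix w.toWG Vs) ≤ lam := by
    have : 3 * w.K0 * β / (g / 4) = 3 * w.K0 / (g / 4) * β := by ring
    linarith
  have hwmρ : w.wm * ρ ≤ ρ := by nlinarith [w.wm_lt]
  have hwmρ0 : 0 < w.wm * ρ := mul_pos w.wm_pos hρ
  have hl4 : 3 * w.K0 / (1 - √w.wm) ^ 2 * (w.wm * ρ) / (g / 4) ≤ s := by
    refine le_trans ?_ hts1
    gcongr
    linarith
  obtain ⟨c4, t', V', hc4, hc4', hS4, ht'η, ht'le, hV', hlog4, -⟩ :=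
    travel w hS2 (show 0 < g / 4 by positivity) (by linarith) (by linarith)
      (show 0 < min η (ρ ^ n0 m / 2) by positivity)
  have ht' := hS4.t_pos
  have ht'ρ : t' < ρ ^ n0 m := by
    have h1 : t' ≤ ρ ^ n0 m / 2 := ht'η.trans (min_le_right _ _)
    have h2 : 0 < ρ ^ n0 m := by positivity
    linarith
  have hV2p : 0 < Ix w.toWG V2 := one_pos.trans_le (one_le_Ix w.toWG hS2.op)
  have hV'p : 0 < Ix w.toWG V' := one_pos.trans_le (one_le_Ix w.toWG hS4.op)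
  have hlog4' : Real.log (Ix w.toWG V' / Ix w.toWG V2) ≤ lam := hlog4.trans (hl4.trans hs1)
  have hCV' : Cc w.toWG VY (w.wm * ρ) V' := Cc_trans w.toWG hV2 hV' le_rfl
  have hCVs : Cc w.toWG Vs ρ V' := Cc_trans w.toWG hVY hCV' hwmρ
  have hCU : Cc w.toWG U β V' := Cc_trans w.toWG hUs hCVs hρβ
  have hCV : Cc w.toWG V t V' := Cc_trans w.toWG hVU hCU hβt
  have hlogU : Real.log (Ix w.toWG V' / Ix w.toWG U) ≤ 3 * lam := by
    rw [Real.log_div hV'p.ne' hUp.ne']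
    rw [Real.log_div hV'p.ne' hV2p.ne'] at hlog4'
    rw [Real.log_div hV2p.ne' hVsp.ne'] at hlog3'
    rw [Real.log_div hVsp.ne' hUp.ne'] at hlog2
    linarith
  have hlogV : Real.log (Ix w.toWG V' / Ix w.toWG V) ≤ δ := by
    rw [Real.log_div hV'p.ne' hVp.ne']
    rw [Real.log_div hV'p.ne' hUp.ne'] at hlogU
    rw [Real.log_div hUp.ne' hVp.ne'] at hlog1
    linarith
  have hδ' : xd w.toWG V' β ≤ δ := by
    have h1 := deep_le w hβ hCU
    have h2 : xm w.toWG U - 1 = rho w.toWG U * Ix w.toWG U := by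
      rw [xm_eq w hU.op]; ring
    have h3 : xm w.toWG U - 1 ≤ 3 * K1 * Im := by
      rw [h2]
      calc rho w.toWG U * Ix w.toWG U ≤ K1 * (3 * Im) := by
            gcongr
            exact hrho U hU.op
        _ = 3 * K1 * Im := by ring
    have h4 : Ix w.toWG V' / Ix w.toWG U - 1 ≤ 6 * lam := by
      have h5 := stage_ratio hUp hV'p hlogU
      have h6 := stage_exp (show 0 ≤ 3 * lam by positivity) (by linarith)
      have h7 : Ix w.toWG V' / Ix w.toWG U ≤ Real.exp (3 * lam) := by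
        rw [div_le_iff₀ hUp]; exact h5
      linarith
    have h8 : 0 ≤ xm w.toWG U - 1 := by
      rw [h2]
      have := hK0.trans_le (K0_le_rho w hU.op)
      positivity
    have h9 : (xm w.toWG U - 1) * (Ix w.toWG V' / Ix w.toWG U - 1) ≤ (3 * K1 * Im) * (6 * lam) := by
      calc (xm w.toWG U - 1) * (Ix w.toWG V' / Ix w.toWG U - 1)
          ≤ (xm w.toWG U - 1) * (6 * lam) := by gcongr
        _ ≤ (3 * K1 * Im) * (6 * lam) := by gcongr
    have h10 : xd w.toWG U β ≤ δ / 2 := hxdU.trans (min_le_right _ _)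
    linarith
  have hmin : ∀ a : Fin L0.length → Fin p, √β ≤ mw L0 a := fun a =>
    ((Real.sqrt_le_left hμ.le).2 (by linarith)).trans (hμ' a)
  have hIU : max (64 / w.K0) (2048 * Q.WR / w.K0 ^ 2) ≤ Ix w.toWG U := hI.trans hIVU
  have hcst2 : 64 / (w.K0 * Ix w.toWG U * e) ≤ 1 / e := by
    have h1 : 64 / w.K0 ≤ Ix w.toWG U := (le_max_left _ _).trans hIU
    rw [div_le_iff₀ hK0] at h1
    rw [div_le_div_iff₀ (by positivity) he]
    nlinarith
  have hxm : xm w.toWG Vs ≤ 1 + K1 * (9 / 2 * Im) := by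
    rw [xm_eq w hVs.op]
    gcongr
    exact hrho Vs hVs.op
  have hxm0 : 0 ≤ xm w.toWG Vs := by
    rw [xm_eq w hVs.op]
    have := hK0.trans_le (K0_le_rho w hVs.op)
    positivity
  have hE1 : (1 / e) ^ n0 m * (3 / 2) * Q.WR * (Ix w.toWG U - Ix w.toWG V) ≤ 1 / 3 := by
    refine le_trans ?_ hs2
    have h1 : Ix w.toWG U - Ix w.toWG V ≤ Im * (2 * s) := by nlinarith
    gcongr
  have hE2 : (1 / e) ^ n0 m * Ix w.toWG Vs * ∑' i, min (Wt Q.wx (Q.r i)) (√β) ≤ 1 / 3 := by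
    have h0 : 0 ≤ ∑' i, min (Wt Q.wx (Q.r i)) (√β) :=
      tsum_nonneg fun i => le_min (Wt_nonneg Q.pos (Q.r i)) (Real.sqrt_nonneg _)
    calc (1 / e) ^ n0 m * Ix w.toWG Vs * ∑' i, min (Wt Q.wx (Q.r i)) (√β)
        ≤ (1 / e) ^ n0 m * (9 / 2 * Im) * (1 / (3 * ((1 / e) ^ n0 m * (9 / 2 * Im)))) := by
          gcongr
      _ = 1 / 3 := by
          have : (1 / e) ^ n0 m * (9 / 2 * Im) ≠ 0 := by positivity
          generalize (1 / e) ^ n0 m * (9 / 2 * Im) = Z at this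
          field_simp
  have hE3 : (1 / e) ^ n0 m * xm w.toWG Vs * β ≤ 1 / 3 := by
    calc (1 / e) ^ n0 m * xm w.toWG Vs * β
        ≤ (1 / e) ^ n0 m * (1 + K1 * (9 / 2 * Im)) * β := by gcongr
      _ ≤ 1 / 3 := hb3.le
  have hE4 : (n0 m : ℝ) ^ 2 * 4 ^ n0 m * (1 / e * β) ≤ 2 ^ n0 m := by
    calc (n0 m : ℝ) ^ 2 * 4 ^ n0 m * (1 / e * β) = (n0 m : ℝ) ^ 2 * 4 ^ n0 m * (1 / e) * β := by
          ring
      _ ≤ 1 := hb4.le
      _ ≤ 2 ^ n0 m := one_le_pow₀ (by norm_num)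
  obtain ⟨u, v, hu, hv, hun, hvn, hth⟩ := stage_th w Q hm hU hVU.le hL0 hmin hIU hUs he hgr hIVs
    (by linarith) hcst hcst2 hE1 hE2 hE3 hE4 hb5 hA Y hρ hρβ hY hY' hYm hVY hvY hCV' ht' ht'ρ hβt
    hδ' hCV wd hwd hu₀ hv₀
  exact ⟨c4, t', V', u, v, {
    c_lt := by linarith
    c_lt' := by linarith
    state := hS4
    t_le := ht'η.trans (min_le_left _ _)
    t_le' := by linarith
    cc := hCV
    ix := hlogV
    u_mem := hu
    v_mem := hv
    u_near := hun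
    v_near := hvn
    th := hth }⟩

end Pool.Agent.GGS
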