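import Pool.Agent.GGS.TowerDef
import Pool.Agent.GGS.Stage

/-!
# Existence of towers (paper, 13.1)

Enumerate the pairs `(m, wd)`: `m ≥ 1`, `wd` a truncated word (zero on words of length `> n0 m`) with
`IsWd p m wd`; countably many (`n0 m ≥ m`).  `c₀ = K0 / 8`, `start`, `travel` with gap `K0 / 32`, then `stage` with
`g_i = K0 / 2^(i+5)`, `δ_i = 1 / 2^(i+4)`, `Imax = 2 * Ix V` (`V` from `start`).
-/

namespace Pool.Agent.GGS

universe u

variable {p : ℕ} {G : Type u} [Group G]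

open Ser in
/-- enumeration of the truncated words -/
theorem exists_enum (p : ℕ) [Fact p.Prime] : ∃ (m : ℕ → ℕ) (wd : ℕ → List (Fin 2) → ZMod p),
    (∀ i, 1 ≤ m i) ∧ (∀ i, IsWd p (m i) (wd i)) ∧
    ∀ f : Ser p (Fin 2), f [] = 1 → f ≠ 1 → ∃ i, ∀ x : List (Fin 2), x.length ≤ n0 (m i) →
      f x = wd i x := by
  classical
  let P : Type := {q : ℕ × (List (Fin 2) →₀ ZMod p) // 1 ≤ q.1 ∧ IsWd p q.1 q.2}
  have : Countable (ZMod p) := inferInstance
  have : Countable P := inferInstance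
  have key : ∀ f : Ser p (Fin 2), f [] = 1 → f ≠ 1 → ∃ q : P, ∀ x : List (Fin 2),
      x.length ≤ n0 q.1.1 → f x = q.1.2 x := by
    intro f h1 hne
    have hex : ∃ k : ℕ, ∃ x : List (Fin 2), x ≠ [] ∧ x.length = k ∧ f x ≠ 0 := by
      by_contra hcon
      push Not at hcon
      refine hne (Ser.ext fun x => ?_)
      cases x with
      | nil => rw [h1, Ser.one_nil]
      | cons a x => rw [Ser.one_cons]; exact hcon _ (a :: x) (List.cons_ne_nil _ _) rfl
    obtain ⟨x0, hx0, hl0, hf0⟩ := Nat.find_spec hex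
    have hm1 : 1 ≤ Nat.find hex := by
      rw [← hl0]
      exact List.length_pos_iff.mpr hx0
    have hfin : {x : List (Fin 2) | x.length ≤ n0 (Nat.find hex)}.Finite :=
      List.finite_length_le _ _
    let g : List (Fin 2) →₀ ZMod p := Finsupp.ofSupportFinite
      (fun x => if x.length ≤ n0 (Nat.find hex) then f x else 0)
      (hfin.subset fun x hx => by
        by_contra h
        exact hx (if_neg h))
    have hg : ∀ x : List (Fin 2), x.length ≤ n0 (Nat.find hex) → g x = f x := fun x hx =>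
      if_pos hx
    have hg' : ∀ x : List (Fin 2), ¬ x.length ≤ n0 (Nat.find hex) → g x = 0 := fun x hx =>
      if_neg hx
    refine ⟨⟨(Nat.find hex, g), hm1, ⟨?_, ?_, ?_⟩⟩, fun x hx => (hg x hx).symm⟩
    · change g [] = 1
      rw [hg [] (by simp), h1]
    · intro u hu hlt
      change g u = 0
      by_cases hc : u.length ≤ n0 (Nat.find hex)
      · rw [hg u hc]
        by_contra h
        exact Nat.find_min hex hlt ⟨u, hu, rfl, h⟩
      · exact hg' u hc
    · refine ⟨x0, hl0, ?_⟩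
      change g x0 ≠ 0
      rw [hg x0 (hl0.le.trans (n0_spec _).1)]
      exact hf0
  have : Nonempty P := by
    have h2 : (1 : Ser p (Fin 2)) [] = 1 := Ser.one_nil
    have h3 : (1 + mon [0] : Ser p (Fin 2)) [] = 1 := by
      rw [Ser.add_apply, Ser.one_nil, Ser.mon_nil_cons, add_zero]
    have h4 : (1 + mon [0] : Ser p (Fin 2)) ≠ 1 := by
      intro h
      have h5 := congrFun h [0]
      rw [Ser.add_apply, Ser.one_cons, Ser.mon_self, zero_add] at h5
      exact one_ne_zero h5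
    obtain ⟨q, _⟩ := key _ h3 h4
    exact ⟨q⟩
  obtain ⟨e, he⟩ := exists_surjective_nat P
  refine ⟨fun i => (e i).1.1, fun i => (e i).1.2, fun i => (e i).2.1, fun i => (e i).2.2, ?_⟩
  intro f h1 hne
  obtain ⟨q, hq⟩ := key f h1 hne
  obtain ⟨i, rfl⟩ := he q
  exact ⟨i, hq⟩

/-- dependent choice along the natural numbers -/
theorem seq_choice {D : Type*} (Iv : ℕ → D → Prop) (Nx : ℕ → D → D → Prop) (h0 : ∃ d, Iv 0 d)
    (hs : ∀ i d, Iv i d → ∃ d', Iv (i + 1) d' ∧ Nx i d d') :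
    ∃ s : ℕ → D, (∀ i, Iv i (s i)) ∧ ∀ i, Nx i (s i) (s (i + 1)) := by
  obtain ⟨d0, hd0⟩ := h0
  have : Nonempty D := ⟨d0⟩
  choose! nx hnx using hs
  let s : ℕ → D := fun n => Nat.rec d0 (fun i d => nx i d) n
  have hI : ∀ i, Iv i (s i) := by
    intro i
    induction i with
    | zero => exact hd0
    | succ i ih => exact (hnx i (s i) ih).1
  exact ⟨s, hI, fun i => (hnx i (s i) (hI i)).2⟩

theorem exists_tower [Fact p.Prime] (w : GSG p G) (Q : Pres p G w.toWG) :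
    Nonempty (Tower w.toWG) := by
  classical
  obtain ⟨m, wd, hm, hwd, hall⟩ := exists_enum p
  have hK := w.K0_pos
  have hsq : √w.wm < 1 := by
    rw [Real.sqrt_lt' one_pos, one_pow]
    exact w.wm_lt
  have hC2 : 0 < 3 * w.K0 / (1 - √w.wm) ^ 2 := by
    have : 0 < 1 - √w.wm := by linarith
    positivity
  set C2 : ℝ := 3 * w.K0 / (1 - √w.wm) ^ 2 with hC2def
  obtain ⟨t₁, V₁, ht₁, hS₁, hA₁⟩ := start w (max (64 / w.K0) (2048 * Q.WR / w.K0 ^ 2))
    (w.K0 / 32 / (4 * C2)) (by positivity)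
  have hI1 : 1 ≤ Ix w.toWG V₁ := one_le_Ix _ hS₁.op
  have hI0 : 0 < Ix w.toWG V₁ := by linarith
  have hcost : C2 * t₁ / (w.K0 / 32) ≤ 1 / 4 := by
    rw [div_le_iff₀ (by positivity)]
    rw [le_div_iff₀ (by positivity)] at ht₁
    linarith
  have hst : ∀ i : ℕ, ∃ ts, 0 < ts ∧ ∀ (c t : ℝ) (V : Subgroup G), State w c t V → t ≤ ts →
      max (64 / w.K0) (2048 * Q.WR / w.K0 ^ 2) ≤ Ix w.toWG V → Ix w.toWG V ≤ 2 * Ix w.toWG V₁ →
      c + w.K0 / 2 ^ (i + 5) ≤ w.K0 / 4 → ∀ u₀ ∈ V, ∀ v₀ ∈ V, ∀ wd, IsWd p (m i) wd →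
      ∀ η, 0 < η →
      ∃ c' t' V' u v, StageOut w (m i) (1 / 2 ^ (i + 4)) (w.K0 / 2 ^ (i + 5)) c t V u₀ v₀ wd η
        c' t' V' u v := fun i =>
    stage w Q (hm i) (by positivity) (by
      rw [div_le_one (by positivity)]
      exact one_le_pow₀ (by norm_num)) (by positivity)
  choose ts hts0 hts using hst
  -- the invariant
  let Iv : ℕ → (ℝ × ℝ × Subgroup G × G × G) → Prop := fun i d =>
    State w d.1 d.2.1 d.2.2.1 ∧ d.2.1 ≤ ts i ∧ d.1 < 7 * w.K0 / 32 - w.K0 / (16 * 2 ^ i) ∧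
    d.2.2.1 ≤ V₁ ∧
    Real.log (Ix w.toWG d.2.2.1 / Ix w.toWG V₁) ≤ 3 / 8 - 1 / (8 * 2 ^ i) ∧
    d.2.2.2.1 ∈ d.2.2.1 ∧ d.2.2.2.2 ∈ d.2.2.1
  let Nx : ℕ → (ℝ × ℝ × Subgroup G × G × G) → (ℝ × ℝ × Subgroup G × G × G) → Prop :=
    fun i d d' => StageOut w (m i) (1 / 2 ^ (i + 4)) (w.K0 / 2 ^ (i + 5)) d.1 d.2.1 d.2.2.1
      d.2.2.2.1 d.2.2.2.2 (wd i) (min (d.2.1 / 2) (ts (i + 1))) d'.1 d'.2.1 d'.2.2.1
      d'.2.2.2.1 d'.2.2.2.2
  have hIx2 : ∀ V : Subgroup G, Op w.toWG V → ∀ i : ℕ,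
      Real.log (Ix w.toWG V / Ix w.toWG V₁) ≤ 3 / 8 - 1 / (8 * 2 ^ i) →
      Ix w.toWG V ≤ 2 * Ix w.toWG V₁ := by
    intro V hV i hlog
    have h1 : 1 ≤ Ix w.toWG V := one_le_Ix _ hV
    have h2 : 0 < Ix w.toWG V / Ix w.toWG V₁ := by positivity
    have h3 : Real.log (Ix w.toWG V / Ix w.toWG V₁) ≤ Real.log 2 := by
      have h4 : (0 : ℝ) < 1 / (8 * 2 ^ i) := by positivity
      have h5 := Real.log_two_gt_d9
      linarith
    have h6 := (Real.log_le_log_iff h2 (by norm_num)).mp h3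
    rw [div_le_iff₀ hI0] at h6
    exact h6
  have h0 : ∃ d, Iv 0 d := by
    obtain ⟨c', t', V', h1, h2, h3, h4, h5, h6, h7, h8⟩ := travel w hS₁ (g := w.K0 / 32)
      (by positivity) (by linarith) (by linarith) (hts0 0)
    refine ⟨(c', t', V', 1, 1), h3, h4, ?_, h6.le, ?_, V'.one_mem, V'.one_mem⟩
    · change c' < _
      have : w.K0 / (16 * 2 ^ 0) = w.K0 / 16 := by norm_num
      rw [this]
      linarith
    · change Real.log (Ix w.toWG V' / Ix w.toWG V₁) ≤ _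
      have : (1 : ℝ) / (8 * 2 ^ 0) = 1 / 8 := by norm_num
      rw [this]
      linarith
  have hs : ∀ i d, Iv i d → ∃ d', Iv (i + 1) d' ∧ Nx i d d' := by
    rintro i ⟨c, t, V, u, v⟩ ⟨h1, h2, h3, h4, h5, h6, h7⟩
    dsimp only at h1 h2 h3 h4 h5 h6 h7
    have hp2 : (0 : ℝ) < 2 ^ i := by positivity
    have e1 : w.K0 / 2 ^ (i + 5) = w.K0 / (16 * 2 ^ i) / 2 := by
      rw [pow_add]; field_simp; norm_num
    have e2 : w.K0 / (16 * 2 ^ (i + 1)) = w.K0 / (16 * 2 ^ i) / 2 := by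
      rw [pow_succ]; field_simp
    have e3 : (1 : ℝ) / 2 ^ (i + 4) = 1 / (8 * 2 ^ i) / 2 := by
      rw [pow_add]; field_simp; norm_num
    have e4 : (1 : ℝ) / (8 * 2 ^ (i + 1)) = 1 / (8 * 2 ^ i) / 2 := by
      rw [pow_succ]; field_simp
    have hpos : 0 < w.K0 / (16 * 2 ^ i) := by positivity
    obtain ⟨c', t', V', u', v', hout⟩ := hts i c t V h1 h2 (hA₁.trans (Ix_anti _ h1.op h4))
      (hIx2 V h1.op i h5) (by rw [e1]; linarith) u h6 v h7 (wd i) (hwd i)
      (min (t / 2) (ts (i + 1))) (lt_min (by linarith [h1.t_pos]) (hts0 _))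
    refine ⟨(c', t', V', u', v'), ⟨hout.state, hout.t_le.trans (min_le_right _ _), ?_,
      hout.cc.le.trans h4, ?_, hout.u_mem, hout.v_mem⟩, hout⟩
    · change c' < _
      have := hout.c_lt'
      rw [e2]
      rw [e1] at this
      linarith
    · change Real.log (Ix w.toWG V' / Ix w.toWG V₁) ≤ _
      have hV' : 1 ≤ Ix w.toWG V' := one_le_Ix _ hout.cc.op
      have hV : 1 ≤ Ix w.toWG V := one_le_Ix _ h1.op
      have h8 := hout.ix
      rw [e3] at h8
      rw [e4]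
      rw [Real.log_div (by positivity) (by positivity)] at h5 h8 ⊢
      linarith
  obtain ⟨s, hIv, hNx⟩ := seq_choice Iv Nx h0 hs
  choose E ring alg θ n1 hth using fun i => (hNx i).th
  exact ⟨{
    V := fun i => (s i).2.2.1
    t := fun i => (s i).2.1
    u := fun i => (s i).2.2.2.1
    v := fun i => (s i).2.2.2.2
    δ := fun i => 1 / 2 ^ (i + 4)
    wd := wd
    N := fun i => n0 (m i)
    E := E
    ring := ring
    alg := alg
    θ := θ
    n1 := n1
    B := 2 * Ix w.toWG V₁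
    t_pos := fun i => (hIv i).1.t_pos
    t_succ := fun i => (hNx i).t_le.trans (min_le_left _ _)
    op := fun i => (hIv i).1.op
    cc := fun i => (hNx i).cc
    ix := fun i => hIx2 _ (hIv i).1.op i (hIv i).2.2.2.2.1
    δ_nonneg := fun i => by positivity
    δ_le := fun i => by
      rw [one_div, one_div]
      refine inv_anti₀ (by norm_num) ?_
      calc (2 : ℝ) = 2 ^ 1 := by norm_num
        _ ≤ 2 ^ (i + 4) := pow_le_pow_right₀ (by norm_num) (by omega)
    δ_sum := by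
      have h1 : Summable fun i : ℕ => (1 / 2 : ℝ) ^ i * (1 / 2) ^ 4 :=
        (summable_geometric_of_lt_one (by norm_num) (by norm_num)).mul_right _
      refine h1.congr fun i => ?_
      rw [← pow_add, one_div_pow]
    u_mem := fun i => (hIv i).2.2.2.2.2.1
    v_mem := fun i => (hIv i).2.2.2.2.2.2
    u_near := fun i => (hNx i).u_near
    v_near := fun i => (hNx i).v_near
    th := hth
    all := hall }⟩

end Pool.Agent.GGS
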