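import Pool.Agent.GGS.THom
import Pool.Agent.GGS.TIdx
import Pool.Agent.GGS.PresOf
import Pool.Agent.GGS.TowerEx
import Pool.Agent.GGS.GsgOf
import Pool.Agent.GGS.FinRed

/-!
# The main theorem
-/

namespace Pool.Agent.GGS

universe u

variable {p : ℕ} {G : Type u} [Group G] [TopologicalSpace G] [IsTopologicalGroup G] [T2Space G]

/-- finitely many generators -/
theorem main_fin [Fact p.Prime] (P : Presn p G) (hfin : Finite P.X)
    (hR : Summable fun r : P.R => Wt P.w r.1)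
    (hdef : 0 < ∑' x, P.w x - ∑' r : P.R, Wt P.w r.1 - 1) :
    ∃ H : Subgroup G, IsClosed (H : Set G) ∧ wIndex p (indW P.w P.π) H < ⊤ ∧
      ∃ φ : H →* Fhat p (Fin 2), Continuous φ ∧ Function.Surjective φ := by
  obtain ⟨w, Q, hW, hK, hop, hcl⟩ := presOf P hfin hR hdef
  obtain ⟨v, hv, -⟩ := gsg_of Q hK
  subst hv
  obtain ⟨T⟩ := exists_tower v Q
  have hF : CompactSpace (Fhat p P.X) := compact_Fhat
  have hcomp : CompactSpace G := by
    refine ⟨?_⟩
    rw [← Set.range_eq_univ.2 P.surjective]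
    exact isCompact_range P.continuous
  obtain ⟨H, hH1, hH2, hH3⟩ := exists_hom v.toWG hop hcl T
  refine ⟨H, hH1, ?_, hH3⟩
  rw [← hW]
  exact wIndex_finite v.toWG hcl T H hH2

theorem main_presn [Fact p.Prime] (P : Presn p G) (hdef : 0 < P.deficiency) :
    ∃ H : Subgroup G, IsClosed (H : Set G) ∧ wIndex p (indW P.w P.π) H < ⊤ ∧
      ∃ φ : H →* Fhat p (Fin 2), Continuous φ ∧ Function.Surjective φ := by
  obtain ⟨M, hMn, hMc, Q, hfin, hR, hd, hidx⟩ := fin_red P hdef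
  have hMc' : IsClosed (M : Set G) := hMc
  have ht3 : T3Space (G ⧸ M) := QuotientGroup.instT3Space (N := M)
  obtain ⟨H₁, h1, h2, φ, h3, h4⟩ := main_fin Q hfin hR hd
  refine ⟨H₁.comap (QuotientGroup.mk' M), ?_, (hidx H₁).trans_lt h2,
    φ.comp ((QuotientGroup.mk' M).subgroupComap H₁), ?_, ?_⟩
  · exact h1.preimage continuous_quotient_mk'
  · exact h3.comp (Continuous.subtype_mk (continuous_quotient_mk'.comp continuous_subtype_val) _)
  · refine h4.comp ?_
    rintro ⟨y, hy⟩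
    obtain ⟨x, rfl⟩ := QuotientGroup.mk'_surjective M y
    exact ⟨⟨x, hy⟩, rfl⟩

theorem main [Fact p.Prime] (W : G → ℝ) (h : 0 < wDef p W) :
    ∃ H : Subgroup G, IsClosed (H : Set G) ∧ wIndex p W H < ⊤ ∧
      ∃ φ : H →* Fhat p (Fin 2), Continuous φ ∧ Function.Surjective φ := by
  unfold wDef at h
  obtain ⟨⟨P, hP⟩, hd⟩ := lt_iSup_iff.1 h
  have := main_presn P hd
  rwa [hP] at this

end Pool.Agent.GGS
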