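import Pool.Agent.GGS.GSIa

/-!
# The pointwise Golod-Shafarevich inequality (paper, 5.4)
-/

namespace Pool.Agent.GGS

universe u

open Ser

variable {p : ℕ} {G : Type u} [Group G] {w : WG p G}

namespace GSIbAux

/-- functions of filtration at least one vanish -/
lemma Fil_ge_one {V : Subgroup G} {s : ℝ} (hs : 1 ≤ s) {f : G → ZMod p}
    (hf : f ∈ Fil w V s) : f = 0 := by
  have h1 : dif [] f 1 = 0 := hf.2 [] (by rw [wl_nil]; exact hs)
  funext g
  have h2 : dif [g] f 1 = 0 := hf.2 [g] ((wl_le_one w _).trans hs)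
  rw [dif_cons, one_mul] at h2
  simp only [dif_nil] at h1 h2
  rw [h1, sub_zero] at h2
  exact h2

/-- constants have filtration at least `t` for `t < 1` -/
lemma const_mem_Fil {V : Subgroup G} {t : ℝ} (ht : t < 1) (c : ZMod p) :
    (fun _ : G => c) ∈ Fil w V t := by
  refine ⟨fun v _ g => rfl, fun L hL => ?_⟩
  have hne : L ≠ [] := by
    rintro rfl
    rw [wl_nil] at hL
    exact absurd hL (not_le.mpr ht)
  rw [dif_const c L hne]
  rfl

/-- The additive cocycles. -/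
structure IsCoc (Q : Pres p G w) (V : Subgroup G) (t : ℝ) (Z : Fhat p Q.X → G → ZMod p) :
    Prop where
  mul : ∀ g g' h, Z (g * g') h = Z g h + Z g' (h * Q.π g)
  fil : ∀ g, g ≠ 1 → Z g ∈ Fil w V (t / Wt Q.wx g)
  cont : ∀ h, Continuous fun g => Z g h

section coc

variable {Q : Pres p G w} {V : Subgroup G} {t : ℝ} {Z : Fhat p Q.X → G → ZMod p}

lemma IsCoc.one (hZ : IsCoc Q V t Z) : Z 1 = 0 := by
  funext h
  have h1 := hZ.mul 1 1 h
  rw [mul_one, map_one, mul_one] at h1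
  exact left_eq_add.mp h1

lemma IsCoc.invV (hZ : IsCoc Q V t Z) (g : Fhat p Q.X) {v : G} (hv : v ∈ V) (h : G) :
    Z g (v * h) = Z g h := by
  by_cases hg : g = 1
  · rw [hg, hZ.one]; rfl
  · exact (hZ.fil g hg).1 v hv h

lemma IsCoc.small [Fact p.Prime] (hZ : IsCoc Q V t Z) {g : Fhat p Q.X}
    (hg : Wt Q.wx g ≤ t) : Z g = 0 := by
  by_cases h1 : g = 1
  · rw [h1, hZ.one]
  · have hpos : 0 < Wt Q.wx g := by
      refine lt_of_le_of_ne (Wt_nonneg Q.pos g) fun h => h1 ?_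
      exact Wt_eq_zero Q.pos (fun x => (Q.le_wm x).trans w.wm_lt.le) g h.symm
    exact Fil_ge_one ((one_le_div hpos).mpr hg) (hZ.fil g h1)

lemma IsCoc.inv (hZ : IsCoc Q V t Z) (g : Fhat p Q.X) (h : G) :
    Z g h + Z g⁻¹ (h * Q.π g) = 0 := by
  have h1 := hZ.mul g g⁻¹ h
  rw [mul_inv_cancel, hZ.one] at h1
  exact h1.symm

/-- the elements of the kernel on which the cocycle vanishes -/
def kerN (hZ : IsCoc Q V t Z) : Subgroup (Fhat p Q.X) where
  carrier := {g | Q.π g = 1 ∧ ∀ h, Z g h = 0}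
  mul_mem' := by
    rintro a b ⟨ha, ha'⟩ ⟨hb, hb'⟩
    refine ⟨by rw [map_mul, ha, hb, one_mul], fun h => ?_⟩
    rw [hZ.mul, ha', hb', add_zero]
  one_mem' := ⟨map_one _, fun h => by rw [hZ.one]; rfl⟩
  inv_mem' := by
    rintro a ⟨ha, ha'⟩
    refine ⟨by rw [map_inv, ha, inv_one], fun h => ?_⟩
    have h1 := hZ.inv a h
    rw [ha', ha, mul_one, zero_add] at h1
    exact h1

lemma kerN_normal (hZ : IsCoc Q V t Z) : (kerN hZ).Normal := by
  constructor
  rintro n ⟨hn, hn'⟩ a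
  refine ⟨by rw [map_mul, map_mul, hn, mul_one, map_inv, mul_inv_cancel], fun h => ?_⟩
  rw [hZ.mul, hZ.mul, hn', add_zero, map_mul, hn, mul_one]
  exact hZ.inv a h

lemma kerN_closed (hZ : IsCoc Q V t Z) : IsClosed (kerN hZ : Set (Fhat p Q.X)) := by
  have h1 : (kerN hZ : Set (Fhat p Q.X)) =
      (Q.π.ker : Set (Fhat p Q.X)) ∩ ⋂ h, {g | Z g h = (0 : ZMod p)} := by
    ext g
    rw [Set.mem_inter_iff, Set.mem_iInter]
    exact Iff.rfl
  rw [h1]
  refine Q.closed.inter (isClosed_iInter fun h => ?_)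
  exact isClosed_eq (hZ.cont h) continuous_const

lemma IsCoc.ker (hZ : IsCoc Q V t Z) (hr : ∀ i, Z (Q.r i) = 0) {g : Fhat p Q.X}
    (hg : Q.π g = 1) : Z g = 0 := by
  have h1 : Q.π.ker ≤ kerN hZ := Q.minl (kerN hZ) (kerN_normal hZ) (kerN_closed hZ)
    fun i => ⟨Q.ker_r i, fun h => by rw [hr i]; rfl⟩
  funext h
  exact (h1 hg).2 h

lemma IsCoc.eq_of_π (hZ : IsCoc Q V t Z) (hr : ∀ i, Z (Q.r i) = 0) {g g' : Fhat p Q.X}
    (hg : Q.π g = Q.π g') : Z g = Z g' := by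
  have h1 : g' = g * (g⁻¹ * g') := by group
  have h2 : Q.π (g⁻¹ * g') = 1 := by rw [map_mul, map_inv, hg, inv_mul_cancel]
  funext h
  rw [h1, hZ.mul, hZ.ker hr h2]
  simp

end coc

/-- a lift -/
noncomputable def lf (Q : Pres p G w) (g : G) : Fhat p Q.X := (Q.lift g).choose

lemma lf_π (Q : Pres p G w) (g : G) : Q.π (lf Q g) = g := (Q.lift g).choose_spec.1

lemma lf_W (Q : Pres p G w) (g : G) : Wt Q.wx (lf Q g) = w.W g := (Q.lift g).choose_spec.2

section coc2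

variable {Q : Pres p G w} {V : Subgroup G} {t : ℝ} {Z : Fhat p Q.X → G → ZMod p}

lemma IsCoc.lf_mul (hZ : IsCoc Q V t Z) (hr : ∀ i, Z (Q.r i) = 0) (u v : G) :
    Z (lf Q (u * v)) 1 = Z (lf Q u) 1 + Z (lf Q v) u := by
  rw [hZ.eq_of_π hr (g := lf Q (u * v)) (g' := lf Q u * lf Q v)
    (by rw [map_mul, lf_π, lf_π, lf_π]), hZ.mul, lf_π, one_mul]

lemma IsCoc.lf_gen (hZ : IsCoc Q V t Z) (hr : ∀ i, Z (Q.r i) = 0) (x : Q.X) (g : G) :
    Z (lf Q (g * Q.ξ x)) 1 - Z (lf Q g) 1 = Z (genF x) g := by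
  rw [hZ.lf_mul hr, hZ.eq_of_π hr (g := lf Q (Q.ξ x)) (g' := genF x) (by rw [lf_π]; rfl)]
  ring

open Classical in
lemma IsCoc.Phi_mem [Fact p.Prime] (hZ : IsCoc Q V t Z) (hr : ∀ i, Z (Q.r i) = 0) :
    (fun v => if v ∈ V then Z (lf Q v) 1 else 0) ∈ Ch w V t := by
  refine ⟨fun g hg => if_neg hg, fun u hu v hv => ?_, fun v hv hvt => ?_⟩
  · simp only
    rw [if_pos hu, if_pos hv, if_pos (V.mul_mem hu hv), hZ.lf_mul hr]
    have h1 := hZ.invV (lf Q v) hu 1
    rw [mul_one] at h1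
    rw [h1]
  · simp only
    rw [if_pos hv, hZ.small (by rw [lf_W]; exact hvt)]
    rfl

lemma IsCoc.Ups_mem [Fact p.Prime] (hZ : IsCoc Q V t Z) (hr : ∀ i, Z (Q.r i) = 0)
    (hV : Op w V) (ht1 : t < 1) (h0 : ∀ v ∈ V, Z (lf Q v) 1 = 0)
    (hx : ∀ x, Z (genF x) ∈ Fil w V (t / Q.wx x)) :
    (fun g => Z (lf Q g) 1) ∈ Fil w V t := by
  have hI : (fun g => Z (lf Q g) 1) ∈ Inv p V := by
    intro v hv g
    simp only
    rw [hZ.lf_mul hr, h0 v hv, zero_add]
    have h1 := hZ.invV (lf Q g) hv 1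
    rw [mul_one] at h1
    exact h1
  rw [Fil_step Q hV hI ht1]
  intro x
  have h3 : (fun g => Z (lf Q (g * Q.ξ x)) 1 - Z (lf Q g) 1) = Z (genF x) := by
    funext g
    exact hZ.lf_gen hr x g
  rw [h3]
  exact hx x

end coc2

section main

variable [Fact p.Prime] (Q : Pres p G w) {V : Subgroup G} (hV : Op w V) (t : ℝ)

/-- the cochains -/
abbrev Cx (Q : Pres p G w) (V : Subgroup G) (t : ℝ) : Type _ := (x : Q.X) → Fil w V (t / Q.wx x)

include hV in
lemma exZ (ζ : Cx Q V t) : ∃ Z : Fhat p Q.X → G → ZMod p,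
    (∀ x, Z (genF x) = (ζ x).1) ∧ IsCoc Q V t Z := by
  obtain ⟨Z, h1, h2, h3, h4⟩ := add_cocycle Q hV (t := t) (fun x => (ζ x).1) fun x => (ζ x).2
  exact ⟨Z, h1, ⟨h2, h3, h4⟩⟩

/-- the cocycle of a cochain -/
noncomputable def Zf (ζ : Cx Q V t) : Fhat p Q.X → G → ZMod p := (exZ Q hV t ζ).choose

lemma Zf_gen (ζ : Cx Q V t) (x : Q.X) : Zf Q hV t ζ (genF x) = (ζ x).1 :=
  (exZ Q hV t ζ).choose_spec.1 x

lemma Zf_coc (ζ : Cx Q V t) : IsCoc Q V t (Zf Q hV t ζ) := (exZ Q hV t ζ).choose_spec.2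

/-- the cocycle depends linearly on the cochain -/
noncomputable def Zl : Cx Q V t →ₗ[ZMod p] (Fhat p Q.X → G → ZMod p) where
  toFun := Zf Q hV t
  map_add' a b := by
    refine cocycle_unique Q _ _ (Zf_coc Q hV t (a + b)).mul ?_ (Zf_coc Q hV t (a + b)).cont ?_ ?_
    · intro g g' h
      simp only [Pi.add_apply, (Zf_coc Q hV t a).mul, (Zf_coc Q hV t b).mul]
      ring
    · intro h
      exact ((Zf_coc Q hV t a).cont h).add ((Zf_coc Q hV t b).cont h)
    · intro x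
      rw [Zf_gen, Pi.add_apply, Pi.add_apply, Zf_gen, Zf_gen]
      rfl
  map_smul' c a := by
    refine cocycle_unique Q _ _ (Zf_coc Q hV t (c • a)).mul ?_ (Zf_coc Q hV t (c • a)).cont ?_ ?_
    · intro g g' h
      simp only [RingHom.id_apply, Pi.smul_apply, (Zf_coc Q hV t a).mul, smul_add]
    · intro h
      have h1 : Continuous fun z : ZMod p => c • z := continuous_of_discreteTopology
      exact h1.comp ((Zf_coc Q hV t a).cont h)
    · intro x
      rw [Zf_gen, Pi.smul_apply, RingHom.id_apply, Pi.smul_apply, Zf_gen]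
      rfl

lemma Zl_coc (ζ : Cx Q V t) : IsCoc Q V t (Zl Q hV t ζ) := Zf_coc Q hV t ζ

lemma Zl_gen (ζ : Cx Q V t) (x : Q.X) : Zl Q hV t ζ (genF x) = (ζ x).1 := Zf_gen Q hV t ζ x

/-- evaluation at the relators -/
noncomputable def Rl (F : Finset {i : Q.ι // Q.r i ≠ 1}) :
    Cx Q V t →ₗ[ZMod p] ((i : F) → Fil w V (t / Wt Q.wx (Q.r i.1.1))) where
  toFun ζ i := ⟨Zl Q hV t ζ (Q.r i.1.1), (Zl_coc Q hV t ζ).fil _ i.1.2⟩
  map_add' a b := by
    funext i
    apply Subtype.ext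
    simp only [map_add, Pi.add_apply, Submodule.coe_add]
  map_smul' c a := by
    funext i
    apply Subtype.ext
    simp only [map_smul, Pi.smul_apply, RingHom.id_apply, Submodule.coe_smul]

/-- the character of a cocycle -/
noncomputable def Phi : Cx Q V t →ₗ[ZMod p] (G → ZMod p) := by
  classical exact
  { toFun := fun ζ v => if v ∈ V then Zl Q hV t ζ (lf Q v) 1 else 0
    map_add' := fun a b => by
      funext v
      by_cases hv : v ∈ V
      · simp only [if_pos hv, map_add, Pi.add_apply]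
      · simp only [if_neg hv, Pi.add_apply, add_zero]
    map_smul' := fun c a => by
      funext v
      by_cases hv : v ∈ V
      · simp only [if_pos hv, map_smul, Pi.smul_apply, RingHom.id_apply]
      · simp only [if_neg hv, Pi.smul_apply, RingHom.id_apply, smul_zero] }

/-- the primitive of a cocycle -/
noncomputable def Ups : Cx Q V t →ₗ[ZMod p] (G → ZMod p) where
  toFun ζ g := Zl Q hV t ζ (lf Q g) 1
  map_add' a b := by
    funext g
    simp only [map_add, Pi.add_apply]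
  map_smul' c a := by
    funext g
    simp only [map_smul, Pi.smul_apply, RingHom.id_apply]

variable {Q hV t}

lemma r_zero {F : Finset {i : Q.ι // Q.r i ≠ 1}}
    (hF : ∀ i : {i : Q.ι // Q.r i ≠ 1}, t < Wt Q.wx (Q.r i.1) → i ∈ F)
    {ζ : Cx Q V t} (hζ : Rl Q hV t F ζ = 0) (i : Q.ι) : Zl Q hV t ζ (Q.r i) = 0 := by
  by_cases h1 : Q.r i = 1
  · rw [h1, (Zl_coc Q hV t ζ).one]
  · by_cases h2 : t < Wt Q.wx (Q.r i)
    · have h3 := congrFun hζ ⟨⟨i, h1⟩, hF ⟨i, h1⟩ h2⟩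
      exact congrArg Subtype.val h3
    · exact (Zl_coc Q hV t ζ).small (not_lt.mp h2)

end main

/-- the functions of filtration at least `t` which vanish at one -/
def Fil0 (w : WG p G) (V : Subgroup G) (t : ℝ) : Submodule (ZMod p) (G → ZMod p) where
  carrier := {f | f ∈ Fil w V t ∧ f 1 = 0}
  add_mem' := fun {a b} ha hb => ⟨(Fil w V t).add_mem ha.1 hb.1, by
    rw [Pi.add_apply, ha.2, hb.2, add_zero]⟩
  zero_mem' := ⟨(Fil w V t).zero_mem, rfl⟩
  smul_mem' := fun c f hf => ⟨(Fil w V t).smul_mem c hf.1, by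
    rw [Pi.smul_apply, hf.2, smul_zero]⟩

lemma Fil0_finrank [Fact p.Prime] {V : Subgroup G} (hV : Op w V) {t : ℝ} (ht1 : t < 1) :
    Module.Finite (ZMod p) (Fil0 w V t) ∧
      Module.finrank (ZMod p) (Fil0 w V t) + 1 ≤ md w V t := by
  have hfin : Module.Finite (ZMod p) (Fil w V t) := Fil_finite w hV t
  have hle : Fil0 w V t ≤ Fil w V t := fun f hf => hf.1
  have hlt : Fil0 w V t < Fil w V t := by
    refine lt_of_le_of_ne hle fun h => ?_
    have h1 : (fun _ : G => (1 : ZMod p)) ∈ Fil0 w V t := by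
      rw [h]; exact const_mem_Fil ht1 1
    exact one_ne_zero h1.2
  exact ⟨Submodule.finiteDimensional_of_le hle, Submodule.finrank_lt_finrank_of_lt hlt⟩

/-- linear algebra -/
lemma lin_count {k C R H : Type*} [Field k] [AddCommGroup C] [Module k C] [Module.Finite k C]
    [AddCommGroup R] [Module k R] [Module.Finite k R] [AddCommGroup H] [Module k H]
    (ρ : C →ₗ[k] R) (Φ Υ : C →ₗ[k] H) (A B : Submodule k H) [Module.Finite k A]
    [Module.Finite k B] (h1 : ∀ c, ρ c = 0 → Φ c ∈ A) (h2 : ∀ c, ρ c = 0 → Φ c = 0 → Υ c ∈ B)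
    (h3 : ∀ c, ρ c = 0 → Φ c = 0 → Υ c = 0 → c = 0) :
    Module.finrank k C ≤ Module.finrank k R + Module.finrank k A + Module.finrank k B := by
  have e3 := LinearMap.finrank_range_add_finrank_ker ρ
  have e4 := Submodule.finrank_le (LinearMap.range ρ)
  let Φ1 : LinearMap.ker ρ →ₗ[k] A := (Φ.domRestrict (LinearMap.ker ρ)).codRestrict A
    fun c => h1 c.1 c.2
  have e5 := LinearMap.finrank_range_add_finrank_ker Φ1
  have e6 := Submodule.finrank_le (LinearMap.range Φ1)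
  have hk : ∀ c : LinearMap.ker Φ1, Φ c.1.1 = 0 := fun c => congrArg Subtype.val c.2
  let Υ1 : LinearMap.ker Φ1 →ₗ[k] B :=
    ((Υ.domRestrict (LinearMap.ker ρ)).domRestrict (LinearMap.ker Φ1)).codRestrict B
      fun c => h2 c.1.1 c.1.2 (hk c)
  have e7 : Module.finrank k (LinearMap.ker Φ1) ≤ Module.finrank k B := by
    refine LinearMap.finrank_le_finrank_of_injective (f := Υ1) ?_
    rw [injective_iff_map_eq_zero]
    intro c hc
    exact Subtype.ext (Subtype.ext (h3 c.1.1 c.1.2 (hk c) (congrArg Subtype.val hc)))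
  omega

/-- the inequality of dimensions -/
lemma dims [Fact p.Prime] (Q : Pres p G w) {V : Subgroup G} (hV : Op w V) {t : ℝ}
    (ht0 : 0 < t) (ht1 : t < 1) (F : Finset {i : Q.ι // Q.r i ≠ 1})
    (hF : ∀ i : {i : Q.ι // Q.r i ≠ 1}, t < Wt Q.wx (Q.r i.1) → i ∈ F) :
    (∑ x, md w V (t / Q.wx x)) + 1 ≤
      Kd w V t + md w V t + ∑ i : F, md w V (t / Wt Q.wx (Q.r i.1.1)) := by
  have hfin : ∀ s, Module.Finite (ZMod p) (Fil w V s) := fun s => Fil_finite w hV s
  have hfinc : Module.Finite (ZMod p) (Ch w V t) := Ch_finite w V ht0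
  obtain ⟨hf0, e0⟩ := Fil0_finrank hV ht1
  have e1 : Module.finrank (ZMod p) (Cx Q V t) = ∑ x, md w V (t / Q.wx x) :=
    Module.finrank_pi_fintype (ZMod p)
  have e2 : Module.finrank (ZMod p) ((i : F) → Fil w V (t / Wt Q.wx (Q.r i.1.1))) =
      ∑ i : F, md w V (t / Wt Q.wx (Q.r i.1.1)) := Module.finrank_pi_fintype (ZMod p)
  have e3 := lin_count (Rl Q hV t F) (Phi Q hV t) (Ups Q hV t) (Ch w V t) (Fil0 w V t)
    (fun ζ h => (Zl_coc Q hV t ζ).Phi_mem (r_zero hF h))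
    (fun ζ h h' => ⟨(Zl_coc Q hV t ζ).Ups_mem (r_zero hF h) hV ht1 (fun v hv => by
        have h4 := congrFun h' v
        simpa only [Phi, LinearMap.coe_mk, AddHom.coe_mk, if_pos hv, Pi.zero_apply] using h4)
        (fun x => by rw [Zl_gen]; exact (ζ x).2), by
          have h5 := (Zl_coc Q hV t ζ).ker (r_zero hF h) (lf_π Q 1)
          exact congrFun h5 1⟩)
    (fun ζ h h' h'' => by
      funext x
      apply Subtype.ext
      funext g
      have h6 : ∀ g, Zl Q hV t ζ (lf Q g) 1 = 0 := fun g => congrFun h'' g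
      have h7 := (Zl_coc Q hV t ζ).lf_gen (r_zero hF h) x g
      rw [h6, h6, sub_zero, Zl_gen] at h7
      exact h7.symm)
  have e10 : Module.finrank (ZMod p) (Ch w V t) = Kd w V t := rfl
  omega

end GSIbAux

open Classical in
/-- the pointwise inequality in 5.4; the sum over the relators is over any finite set containing all `i` with
`t < Wt (r i)` -/
theorem Kd_lower [Fact p.Prime] (Q : Pres p G w) {V : Subgroup G} (hV : Op w V) {t : ℝ}
    (ht0 : 0 < t) (ht1 : t < 1) (F : Finset Q.ι) (hF : ∀ i, t < Wt Q.wx (Q.r i) → i ∈ F) :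
    (∑ x, (md w V (t / Q.wx x) : ℤ)) -
      ∑ i ∈ F.filter (fun i => Q.r i ≠ 1), (md w V (t / Wt Q.wx (Q.r i)) : ℤ) - md w V t + 1 ≤
      Kd w V t := by
  have h1 := GSIbAux.dims Q hV ht0 ht1 (F.subtype fun i => Q.r i ≠ 1)
    (fun i hi => Finset.mem_subtype.mpr (hF i.1 hi))
  have h2 : (∑ i : (F.subtype fun i => Q.r i ≠ 1), md w V (t / Wt Q.wx (Q.r i.1.1))) =
      ∑ i ∈ F.filter (fun i => Q.r i ≠ 1), md w V (t / Wt Q.wx (Q.r i)) := by
    rw [Finset.sum_coe_sort (F.subtype fun i => Q.r i ≠ 1)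
      (fun i => md w V (t / Wt Q.wx (Q.r i.1)))]
    rw [← Finset.subtype_map, Finset.sum_map]
    rfl
  rw [h2] at h1
  zify at h1
  linarith

end Pool.Agent.GGS
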