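import Pool.Agent.GGS.GSIb

/-!
# The Golod-Shafarevich inequality (paper, 5.4)

Integrate `Kd_lower`; the sum over the relators may be infinite (`MeasureTheory.hasSum_integral_of_summable_integral_norm`
or restrict to `t ≥ τ` and let `τ → 0`).
-/

namespace Pool.Agent.GGS

universe u

open Ser

variable {p : ℕ} {G : Type u} [Group G] {w : WG p G}

theorem ChS_top_finite [Fact p.Prime] (Q : Pres p G w) : Module.Finite (ZMod p) (ChS w ⊤) := by
  let T : ChS w ⊤ →ₗ[ZMod p] (Q.X → ZMod p) :=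
    { toFun := fun χ x => χ.1 (Q.ξ x)
      map_add' := fun _ _ => rfl
      map_smul' := fun _ _ => rfl }
  refine Module.Finite.of_injective T ((injective_iff_map_eq_zero T).2 fun χ h0 => ?_)
  have hx : ∀ x, χ.1 (Q.ξ x) = 0 := fun x => congrFun h0 x
  obtain ⟨χ, t, ht, hχ⟩ := χ
  have hS : χ ∈ ChS w ⊤ := ⟨t, ht, hχ⟩
  have hm : ∀ a b : G, χ (a * b) = χ a + χ b := fun a b =>
    hχ.2.1 a (Subgroup.mem_top a) b (Subgroup.mem_top b)
  have hb : ∀ a : G, w.W a ≤ t → χ a = 0 := fun a ha => hχ.2.2 a (Subgroup.mem_top a) ha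
  have hP : ∀ g : Fhat p Q.X, χ (Q.π g) = 0 := by
    refine Fhat_induction (P := fun g => χ (Q.π g) = 0) ?_ ?_ ?_ ?_ ?_
    · rw [← isOpen_compl_iff, isOpen_iff_forall_mem_open]
      intro g hg
      refine ⟨{h : Fhat p Q.X | (Q.π g)⁻¹ * Q.π h ∈ w.ball t}, ?_,
        isOpen_preimage Q (op_ball w ht) (Q.π g), ?_⟩
      · intro h hh hc
        refine hg ?_
        have h1 : χ ((Q.π g)⁻¹ * Q.π h) = 0 := hb _ ((w.mem_ball ht.le).1 hh)
        have h2 : χ (Q.π g * ((Q.π g)⁻¹ * Q.π h)) = χ (Q.π g) + χ ((Q.π g)⁻¹ * Q.π h) := hm _ _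
        rw [mul_inv_cancel_left, h1, add_zero] at h2
        exact h2.symm.trans hc
      · change (Q.π g)⁻¹ * Q.π g ∈ w.ball t
        rw [inv_mul_cancel]; exact Subgroup.one_mem _
    · rw [map_one]; exact ch_one w hS
    · intro x; exact hx x
    · intro g h hg hh
      rw [map_mul, hm, hg, hh, add_zero]
    · intro g hg
      rw [map_inv, ch_inv w hS (Subgroup.mem_top _), hg, neg_zero]
  refine Subtype.ext (funext fun g => ?_)
  obtain ⟨h, rfl⟩ := Q.surj g
  exact hP h

/-- 5.4 -/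
theorem gs_ineq [Fact p.Prime] (Q : Pres p G w) {V : Subgroup G} (hV : Op w V)
    (hf : Module.Finite (ZMod p) (ChS w V)) : Q.K0 * Ix w V ≤ xm w V - 1 := by
  classical
  have := hf
  have hx1 : ∀ x, Q.wx x ≤ 1 := fun x => (Q.le_wm x).trans w.wm_lt.le
  -- bounds
  set N0 : ℝ := (md w V 0 : ℝ) with hN0
  have hN0n : 0 ≤ N0 := Nat.cast_nonneg _
  have hmdb : ∀ t : ℝ, 0 ≤ t → (md w V t : ℝ) ≤ N0 := fun t ht => by
    exact Nat.cast_le.mpr (md_anti w hV ht)
  have hmdn : ∀ t : ℝ, 0 ≤ (md w V t : ℝ) := fun t => Nat.cast_nonneg _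
  have hmda : ∀ r : ℝ, 0 < r → Antitone fun t : ℝ => (md w V (t / r) : ℝ) := by
    intro r hr s t hst
    have : md w V (t / r) ≤ md w V (s / r) := md_anti w hV (by gcongr)
    exact Nat.cast_le.mpr this
  have hmdi : ∀ r : ℝ, 0 < r → ∀ a b : ℝ,
      IntervalIntegrable (fun t : ℝ => (md w V (t / r) : ℝ)) MeasureTheory.volume a b :=
    fun r hr a b => (hmda r hr).intervalIntegrable
  have hmdi1 : ∀ a b : ℝ,
      IntervalIntegrable (fun t : ℝ => (md w V t : ℝ)) MeasureTheory.volume a b := by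
    intro a b
    have := hmdi 1 one_pos a b
    simpa using this
  -- integrability of `Kd`
  have hKi : IntervalIntegrable (fun t : ℝ => (Kd w V t : ℝ)) MeasureTheory.volume 0 1 := by
    set D : ℝ := (Module.finrank (ZMod p) (ChS w V) : ℝ) with hD
    have hKD : ∀ t : ℝ, 0 < t → (Kd w V t : ℝ) ≤ D := fun t ht => by
      have : Kd w V t ≤ Module.finrank (ZMod p) (ChS w V) :=
        Submodule.finrank_mono (Ch_le_ChS w V ht)
      exact Nat.cast_le.mpr this
    have hanti : Antitone fun t : ℝ => if t ≤ 0 then D else (Kd w V t : ℝ) := by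
      intro s t hst
      by_cases h1 : t ≤ 0
      · have h2 : s ≤ 0 := hst.trans h1
        simp only [if_pos h1, if_pos h2, le_refl]
      · by_cases h2 : s ≤ 0
        · simp only [if_neg h1, if_pos h2]
          exact hKD t (not_le.1 h1)
        · simp only [if_neg h1, if_neg h2]
          have : Kd w V t ≤ Kd w V s := Kd_anti w V (not_le.1 h2) hst
          exact Nat.cast_le.mpr this
    have h3 : IntervalIntegrable (fun t : ℝ => if t ≤ 0 then D else (Kd w V t : ℝ))
        MeasureTheory.volume 0 1 := hanti.intervalIntegrable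
    refine h3.congr ?_
    intro t ht
    rw [Set.uIoc_of_le zero_le_one] at ht
    simp only [if_neg (not_le.2 ht.1)]
  have hWR0 : ∀ i, 0 ≤ Wt Q.wx (Q.r i) := fun i => Wt_nonneg Q.pos _
  -- main estimate for a given `τ`
  have key : ∀ τ : ℝ, 0 < τ → τ < 1 →
      (∑ x, Q.wx x) * Ix w V - Q.WR * Ix w V - Ix w V + 1 -
        τ * ((Fintype.card Q.X : ℝ) * N0 + 1) ≤ xm w V := by
    intro τ h0 h1
    have hfin : {i | τ < Wt Q.wx (Q.r i)}.Finite := by
      have h2 := Q.summ.tendsto_cofinite_zero.eventually (gt_mem_nhds h0)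
      rw [Filter.eventually_cofinite] at h2
      refine h2.subset fun i hi => ?_
      exact not_lt.2 (le_of_lt hi)
    set F : Finset Q.ι := hfin.toFinset with hF
    set F' : Finset Q.ι := F.filter (fun i => Q.r i ≠ 1) with hF'
    have hFpos : ∀ i ∈ F', 0 < Wt Q.wx (Q.r i) := by
      intro i hi
      have hne : Q.r i ≠ 1 := (Finset.mem_filter.1 hi).2
      refine lt_of_le_of_ne (hWR0 i) fun h => hne ?_
      exact Wt_eq_zero Q.pos hx1 _ h.symm
    have hF1 : ∀ i, Wt Q.wx (Q.r i) ≤ 1 := fun i =>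
      (Wt_le Q.pos Q.le_wm w.wm_lt.le w.wm_pos.le _).trans w.wm_lt.le
    have hpt : ∀ t ∈ Set.Ioo τ 1, (∑ x, (md w V (t / Q.wx x) : ℝ)) -
        (∑ i ∈ F', (md w V (t / Wt Q.wx (Q.r i)) : ℝ)) - (md w V t : ℝ) + 1 ≤ (Kd w V t : ℝ) := by
      intro t ht
      have h2 := Kd_lower Q hV (h0.trans ht.1) ht.2 F (fun i hi => by
        rw [hF, Set.Finite.mem_toFinset]
        exact ht.1.trans hi)
      have h3 : (((∑ x, (md w V (t / Q.wx x) : ℤ)) -
        ∑ i ∈ F.filter (fun i => Q.r i ≠ 1), (md w V (t / Wt Q.wx (Q.r i)) : ℤ) - md w V t + 1 : ℤ) : ℝ) ≤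
          ((Kd w V t : ℤ) : ℝ) := by exact_mod_cast h2
      push_cast at h3
      exact h3
    have i1 : IntervalIntegrable (fun t : ℝ => ∑ x, (md w V (t / Q.wx x) : ℝ))
        MeasureTheory.volume τ 1 := by
      have : (fun t : ℝ => ∑ x, (md w V (t / Q.wx x) : ℝ)) =
          ∑ x, fun t : ℝ => (md w V (t / Q.wx x) : ℝ) := by
        funext t; rw [Finset.sum_apply]
      rw [this]
      exact IntervalIntegrable.sum _ fun x _ => hmdi _ (Q.pos x) _ _
    have i2 : IntervalIntegrable (fun t : ℝ => ∑ i ∈ F', (md w V (t / Wt Q.wx (Q.r i)) : ℝ))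
        MeasureTheory.volume τ 1 := by
      have : (fun t : ℝ => ∑ i ∈ F', (md w V (t / Wt Q.wx (Q.r i)) : ℝ)) =
          ∑ i ∈ F', fun t : ℝ => (md w V (t / Wt Q.wx (Q.r i)) : ℝ) := by
        funext t; rw [Finset.sum_apply]
      rw [this]
      exact IntervalIntegrable.sum _ fun i hi => hmdi _ (hFpos i hi) _ _
    have i3 : IntervalIntegrable (fun t : ℝ => (md w V t : ℝ)) MeasureTheory.volume τ 1 :=
      hmdi1 _ _
    have i4 : IntervalIntegrable (fun _ : ℝ => (1 : ℝ)) MeasureTheory.volume τ 1 :=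
      intervalIntegrable_const
    have i5 : IntervalIntegrable (fun t : ℝ => (Kd w V t : ℝ)) MeasureTheory.volume τ 1 :=
      hKi.mono_set (by
        rw [Set.uIcc_of_le h1.le, Set.uIcc_of_le zero_le_one]
        exact Set.Icc_subset_Icc_left h0.le)
    have i6 : IntervalIntegrable (fun t : ℝ => (Kd w V t : ℝ)) MeasureTheory.volume 0 τ :=
      hKi.mono_set (by
        rw [Set.uIcc_of_le h0.le, Set.uIcc_of_le zero_le_one]
        exact Set.Icc_subset_Icc_right h1.le)
    have hint := intervalIntegral.integral_mono_on_of_le_Ioo h1.le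
      (((i1.sub i2).sub i3).add i4) i5 hpt
    rw [intervalIntegral.integral_add ((i1.sub i2).sub i3) i4,
      intervalIntegral.integral_sub (i1.sub i2) i3, intervalIntegral.integral_sub i1 i2,
      intervalIntegral.integral_finsetSum (fun x _ => hmdi _ (Q.pos x) _ _),
      intervalIntegral.integral_finsetSum (fun i hi => hmdi _ (hFpos i hi) _ _),
      intervalIntegral.integral_const] at hint
    -- first sum
    have e1 : (∑ x, Q.wx x) * Ix w V - τ * ((Fintype.card Q.X : ℝ) * N0) ≤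
        ∑ x, ∫ t in τ..1, (md w V (t / Q.wx x) : ℝ) := by
      have h2 : ∀ x ∈ (Finset.univ : Finset Q.X), Q.wx x * Ix w V - τ * N0 ≤
          ∫ t in τ..1, (md w V (t / Q.wx x) : ℝ) := by
        intro x _
        have h3 := integral_md_div w hV (Q.pos x) (hx1 x)
        have h4 := intervalIntegral.integral_add_adjacent_intervals
          (hmdi _ (Q.pos x) 0 τ) (hmdi _ (Q.pos x) τ 1)
        have h5 : ∫ t in (0:ℝ)..τ, (md w V (t / Q.wx x) : ℝ) ≤ ∫ _t in (0:ℝ)..τ, N0 := by
          refine intervalIntegral.integral_mono_on h0.le (hmdi _ (Q.pos x) 0 τ)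
            intervalIntegrable_const fun t ht => ?_
          exact hmdb _ (div_nonneg ht.1 (Q.pos x).le)
        rw [intervalIntegral.integral_const, sub_zero, smul_eq_mul] at h5
        linarith
      have h6 := Finset.sum_le_sum h2
      rw [Finset.sum_sub_distrib, ← Finset.sum_mul, Finset.sum_const, Finset.card_univ,
        nsmul_eq_mul] at h6
      linarith
    -- second sum
    have e2 : ∑ i ∈ F', ∫ t in τ..1, (md w V (t / Wt Q.wx (Q.r i)) : ℝ) ≤ Q.WR * Ix w V := by
      have hI : 0 ≤ Ix w V := zero_le_one.trans (one_le_Ix w hV)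
      have h2 : ∀ i ∈ F', ∫ t in τ..1, (md w V (t / Wt Q.wx (Q.r i)) : ℝ) ≤
          Wt Q.wx (Q.r i) * Ix w V := by
        intro i hi
        rw [← integral_md_div w hV (hFpos i hi) (hF1 i)]
        have h4 := intervalIntegral.integral_add_adjacent_intervals
          (hmdi _ (hFpos i hi) 0 τ) (hmdi _ (hFpos i hi) τ 1)
        have h5 : 0 ≤ ∫ t in (0:ℝ)..τ, (md w V (t / Wt Q.wx (Q.r i)) : ℝ) :=
          intervalIntegral.integral_nonneg h0.le fun t _ => hmdn _
        linarith
      refine (Finset.sum_le_sum h2).trans ?_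
      rw [← Finset.sum_mul]
      refine mul_le_mul_of_nonneg_right ?_ hI
      exact Q.summ.sum_le_tsum F' fun i _ => hWR0 i
    -- third term
    have e3 : ∫ t in τ..1, (md w V t : ℝ) ≤ Ix w V := by
      have h4 := intervalIntegral.integral_add_adjacent_intervals (hmdi1 0 τ) (hmdi1 τ 1)
      have h5 : 0 ≤ ∫ t in (0:ℝ)..τ, (md w V t : ℝ) :=
        intervalIntegral.integral_nonneg h0.le fun t _ => hmdn _
      have h6 : Ix w V = ∫ t in (0 : ℝ)..1, (md w V t : ℝ) := rfl
      linarith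
    -- left-hand side
    have e4 : ∫ t in τ..1, (Kd w V t : ℝ) ≤ xm w V := by
      have h4 := intervalIntegral.integral_add_adjacent_intervals i6 i5
      have h5 : 0 ≤ ∫ t in (0:ℝ)..τ, (Kd w V t : ℝ) :=
        intervalIntegral.integral_nonneg h0.le fun t _ => Nat.cast_nonneg _
      have h6 : xm w V = ∫ t in (0 : ℝ)..1, (Kd w V t : ℝ) := rfl
      linarith
    rw [smul_eq_mul, mul_one] at hint
    linarith
  -- let `τ → 0`
  set C : ℝ := (Fintype.card Q.X : ℝ) * N0 + 1 with hC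
  have hC1 : 1 ≤ C := by
    have : 0 ≤ (Fintype.card Q.X : ℝ) * N0 := mul_nonneg (Nat.cast_nonneg _) hN0n
    linarith
  have hK0 : Q.K0 * Ix w V = (∑ x, Q.wx x) * Ix w V - Q.WR * Ix w V - Ix w V := by
    unfold Pres.K0; ring
  rw [hK0]
  refine le_of_forall_pos_le_add fun ε hε => ?_
  have hτ0 : 0 < min (ε / C) (1 / 2) := lt_min (div_pos hε (by linarith)) (by norm_num)
  have hτ1 : min (ε / C) (1 / 2) < 1 := (min_le_right _ _).trans_lt (by norm_num)
  have h1 := key _ hτ0 hτ1
  have h2 : min (ε / C) (1 / 2) * C ≤ ε := by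
    have h3 : min (ε / C) (1 / 2) * C ≤ ε / C * C :=
      mul_le_mul_of_nonneg_right (min_le_left _ _) (by linarith)
    rwa [div_mul_cancel₀ _ (by linarith : C ≠ 0)] at h3
  linarith

end Pool.Agent.GGS
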