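import Pool.Agent.GGS.AlgDef
import Pool.Agent.GGS.SwBas

/-!
# The Golod-Shafarevich count (paper, section 9)

`D_n(s) ≥ ∑_a D_{n-1}(s / t_a) - ∑_j D_{n-k_j}(s / τ_j)`; integrate over `0 < s < 1`.
-/

namespace Pool.Agent.GGS

open Ser

variable {p : ℕ} {Z : Type} [Fintype Z] {ι : Type} [Fintype ι]

section aux

lemma gsa_mon_append {X : Type*} (u v : List X) :
    (mon (u ++ v) : Ser p X) = mon u * mon v := by
  induction u with
  | nil => rw [List.nil_append, ← one_def, one_mul]
  | cons x u ih =>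
    ext w
    cases w with
    | nil => rw [mul_nil, mon_ne (by simp), mon_ne (by simp), zero_mul]
    | cons y w =>
      rw [mul_cons, mon_ne (v := x :: u) (by simp), zero_mul, zero_add]
      by_cases h : y = x
      · subst h
        have h1 : lder y (mon (y :: u) : Ser p X) = mon u := by
          ext z
          rw [lder_apply]
          by_cases hz : z = u
          · subst hz
            rw [mon_self, mon_self]
          · rw [mon_ne hz, mon_ne (by simpa using hz)]
        rw [h1, ← ih]
        by_cases hw : w = u ++ v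
        · subst hw
          rw [mon_self, List.cons_append, mon_self]
        · rw [mon_ne hw, mon_ne (by simpa using hw)]
      · have h1 : lder y (mon (x :: u) : Ser p X) = 0 := by
          ext z
          rw [lder_apply, mon_ne (by simp [h]), zero_apply]
        rw [h1, zero_mul, zero_apply, mon_ne (by simp [h])]

/-- the span of the words of length `n` -/
noncomputable def gsaT (p : ℕ) (Z : Type) (n : ℕ) : Submodule (ZMod p) (Ser p Z) :=
  Submodule.span (ZMod p) {f | ∃ u : List Z, u.length = n ∧ f = mon u}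

omit [Fintype Z] in
lemma gsaT_mon (u : List Z) : (mon u : Ser p Z) ∈ gsaT p Z u.length :=
  Submodule.subset_span ⟨u, rfl, rfl⟩

omit [Fintype Z] in
lemma gsaT_mon' {n : ℕ} (u : List Z) (h : u.length = n) : (mon u : Ser p Z) ∈ gsaT p Z n :=
  Submodule.subset_span ⟨u, h, rfl⟩

omit [Fintype Z] in
lemma gsaT_range (n : ℕ) : gsaT p Z n =
    Submodule.span (ZMod p) (Set.range fun u : Fin n → Z => (mon (List.ofFn u) : Ser p Z)) := by
  unfold gsaT
  congr 1
  ext f
  constructor
  · rintro ⟨u, rfl, rfl⟩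
    exact ⟨u.get, by simp⟩
  · rintro ⟨u, rfl⟩
    exact ⟨List.ofFn u, by simp, rfl⟩

instance gsaT_fin (n : ℕ) : Module.Finite (ZMod p) (gsaT p Z n) := by
  rw [gsaT_range]
  exact Module.Finite.span_of_finite _ (Set.finite_range _)

lemma gsaT_finrank_le [Fact p.Prime] (n : ℕ) :
    Module.finrank (ZMod p) (gsaT p Z n) ≤ Fintype.card Z ^ n := by
  classical
  rw [gsaT_range]
  have h := finrank_range_le_card (R := ZMod p) (fun u : Fin n → Z => (mon (List.ofFn u) : Ser p Z))
  rw [Set.finrank] at h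
  refine h.trans ?_
  rw [Fintype.card_fun, Fintype.card_fin]

lemma gsaT_finrank_ge [Fact p.Prime] (n : ℕ) :
    Fintype.card Z ^ n ≤ Module.finrank (ZMod p) (gsaT p Z n) := by
  classical
  let φ : Ser p Z →ₗ[ZMod p] ((Fin n → Z) → ZMod p) :=
    { toFun := fun f u => f (List.ofFn u)
      map_add' := fun f g => rfl
      map_smul' := fun c f => rfl }
  have hsur : Function.Surjective (φ.domRestrict (gsaT p Z n)) := by
    intro g
    refine ⟨⟨∑ u : Fin n → Z, g u • mon (List.ofFn u), Submodule.sum_mem _ fun u _ =>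
      Submodule.smul_mem _ _ (gsaT_mon' _ (by simp))⟩, ?_⟩
    rw [LinearMap.domRestrict_apply]
    change φ (∑ u : Fin n → Z, g u • mon (List.ofFn u)) = g
    rw [map_sum]
    funext v
    rw [Finset.sum_apply, Finset.sum_eq_single v]
    · change g v • (mon (List.ofFn v) : Ser p Z) (List.ofFn v) = g v
      rw [mon_self, smul_eq_mul, mul_one]
    · intro u _ hu
      change g u • (mon (List.ofFn u) : Ser p Z) (List.ofFn v) = 0
      rw [mon_ne (fun h => hu (List.ofFn_injective h).symm), smul_zero]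
    · intro h
      exact absurd (Finset.mem_univ _) h
  have h2 := LinearMap.finrank_le_finrank_of_surjective hsur
  rwa [Module.finrank_fintype_fun_eq_card, Fintype.card_fun, Fintype.card_fin] at h2

omit [Fintype Z] in
lemma gsaT_mul {m n : ℕ} {f g : Ser p Z} (hf : f ∈ gsaT p Z m) (hg : g ∈ gsaT p Z n) :
    f * g ∈ gsaT p Z (m + n) := by
  unfold gsaT at hf hg
  induction hf using Submodule.span_induction with
  | mem f hf =>
    obtain ⟨u, hu, rfl⟩ := hf
    induction hg using Submodule.span_induction with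
    | mem g hg =>
      obtain ⟨v, hv, rfl⟩ := hg
      rw [← gsa_mon_append]
      exact gsaT_mon' _ (by rw [List.length_append, hu, hv])
    | zero => rw [mul_zero]; exact Submodule.zero_mem _
    | add g h _ _ hg hh => rw [mul_add]; exact Submodule.add_mem _ hg hh
    | smul c g _ hg => rw [mul_smul_comm]; exact Submodule.smul_mem _ _ hg
  | zero => rw [zero_mul]; exact Submodule.zero_mem _
  | add f h _ _ hf hh => rw [add_mul]; exact Submodule.add_mem _ hf hh
  | smul c f _ hf => rw [smul_mul_assoc]; exact Submodule.smul_mem _ _ hf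

lemma gsaT_rel {k : ℕ} (f : (Fin k → Z) → ZMod p) : relS f ∈ gsaT p Z k :=
  Submodule.sum_mem _ fun u _ => Submodule.smul_mem _ _ (gsaT_mon' _ (by simp))

variable {k : ι → ℕ} {ρ : (j : ι) → (Fin (k j) → Z) → ZMod p} {t : Z → ℝ}

omit [Fintype ι] in
lemma gsa_Jn_le (n : ℕ) : Jn k ρ n ≤ gsaT p Z n := by
  unfold Jn
  rw [Submodule.span_le]
  rintro _ ⟨j, u, v, h, rfl⟩
  have := gsaT_mul (gsaT_mul (gsaT_mon (p := p) u) (gsaT_rel (ρ j))) (gsaT_mon (p := p) v)
  rwa [h] at this

omit [Fintype Z] in
lemma gsa_Tn_le (n : ℕ) (s : ℝ) : Tn p t n s ≤ gsaT p Z n := by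
  unfold Tn
  rw [Submodule.span_le]
  rintro _ ⟨u, h, _, rfl⟩
  exact gsaT_mon' u h

omit [Fintype ι] in
lemma gsa_M_le (n : ℕ) (s : ℝ) : Jn k ρ n ⊔ Tn p t n s ≤ gsaT p Z n :=
  sup_le (gsa_Jn_le n) (gsa_Tn_le n s)

omit [Fintype ι] in
lemma gsa_M_finrank [Fact p.Prime] (n : ℕ) (s : ℝ) :
    Module.finrank (ZMod p) ↥(Jn k ρ n ⊔ Tn p t n s) ≤ Fintype.card Z ^ n :=
  (Submodule.finrank_mono (gsa_M_le n s)).trans (gsaT_finrank_le n)

omit [Fintype ι] in
lemma gsa_Dn_eq [Fact p.Prime] (n : ℕ) (s : ℝ) :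
    (Dn t k ρ n s : ℤ) = (Fintype.card Z : ℤ) ^ n -
      Module.finrank (ZMod p) ↥(Jn k ρ n ⊔ Tn p t n s) := by
  unfold Dn
  rw [Nat.cast_sub (gsa_M_finrank n s)]
  push_cast
  rfl

omit [Fintype Z] in
/-- dimension of a sum, modulo known parts -/
lemma gsa_dim [Fact p.Prime] {κ : Type} (s : Finset κ) (P : Submodule (ZMod p) (Ser p Z))
    [Module.Finite (ZMod p) P] (T M : κ → Submodule (ZMod p) (Ser p Z))
    (hT : ∀ j, Module.Finite (ZMod p) (T j)) (hM : ∀ j, M j ≤ T j)
    (R : κ → (Ser p Z →ₗ[ZMod p] Ser p Z)) (hR : ∀ j ∈ s, (M j).map (R j) ≤ P) :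
    Module.finrank (ZMod p) ↥(P ⊔ s.sup fun j => (T j).map (R j)) ≤
      Module.finrank (ZMod p) P + ∑ j ∈ s, (Module.finrank (ZMod p) (T j) -
        Module.finrank (ZMod p) (M j)) := by
  classical
  have hfin : ∀ s' : Finset κ, Module.Finite (ZMod p) ↥(s'.sup fun j => (T j).map (R j)) := by
    intro s'
    induction s' using Finset.induction_on with
    | empty =>
      rw [Finset.sup_empty]
      infer_instance
    | insert j s' _ ih =>
      rw [Finset.sup_insert]
      have := hT j
      have := ih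
      infer_instance
  induction s using Finset.induction_on with
  | empty =>
    rw [Finset.sup_empty, sup_bot_eq, Finset.sum_empty, add_zero]
  | insert j s hj ih =>
    have := hT j
    have := hfin s
    rw [Finset.sup_insert, Finset.sum_insert hj]
    obtain ⟨C, hC1, hC2⟩ : ∃ C : Submodule (ZMod p) (Ser p Z), M j ⊔ C = T j ∧
        Module.finrank (ZMod p) (M j) + Module.finrank (ZMod p) C =
          Module.finrank (ZMod p) (T j) := by
      obtain ⟨C0, hC0⟩ := Submodule.exists_isCompl ((M j).comap (T j).subtype)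
      refine ⟨C0.map (T j).subtype, ?_, ?_⟩
      · have h1 := congrArg (Submodule.map (T j).subtype) hC0.sup_eq_top
        rw [Submodule.map_sup, Submodule.map_comap_subtype, Submodule.map_subtype_top,
          inf_eq_right.2 (hM j)] at h1
        exact h1
      · have h2 := Submodule.finrank_add_eq_of_isCompl hC0
        have h3 : Module.finrank (ZMod p) ((M j).comap (T j).subtype) =
            Module.finrank (ZMod p) (M j) :=
          (Submodule.comapSubtypeEquivOfLe (hM j)).finrank_eq
        have h4 : Module.finrank (ZMod p) (C0.map (T j).subtype) =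
            Module.finrank (ZMod p) C0 :=
          (Submodule.equivMapOfInjective (T j).subtype (T j).injective_subtype C0).symm.finrank_eq
        omega
    have hCT : C ≤ T j := by
      rw [← hC1]
      exact le_sup_right
    have : Module.Finite (ZMod p) C := Submodule.finiteDimensional_of_le hCT
    have h5 : P ⊔ ((T j).map (R j) ⊔ s.sup fun j => (T j).map (R j)) =
        (P ⊔ s.sup fun j => (T j).map (R j)) ⊔ C.map (R j) := by
      apply le_antisymm
      · refine sup_le (le_sup_left.trans le_sup_left) (sup_le ?_ (le_sup_right.trans le_sup_left))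
        rw [← hC1, Submodule.map_sup]
        exact sup_le (((hR j (Finset.mem_insert_self _ _)).trans le_sup_left).trans le_sup_left)
          le_sup_right
      · refine sup_le (sup_le le_sup_left (le_sup_right.trans le_sup_right)) ?_
        exact ((Submodule.map_mono hCT).trans le_sup_left).trans le_sup_right
    rw [h5]
    have h6 := Submodule.finrank_add_le_finrank_add_finrank
      (P ⊔ s.sup fun j => (T j).map (R j)) (C.map (R j))
    have h7 := ih fun j' hj' => hR j' (Finset.mem_insert_of_mem hj')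
    have h8 := Submodule.finrank_map_le (R j) C
    omega

omit [Fintype ι] in
lemma gsa_fin [Fact p.Prime] (n : ℕ) (s : ℝ) : Module.Finite (ZMod p) ↥(Jn k ρ n ⊔ Tn p t n s) :=
  Submodule.finiteDimensional_of_le (gsa_M_le n s)

/-- right multiplication -/
noncomputable def gsaR (g : Ser p Z) : Ser p Z →ₗ[ZMod p] Ser p Z where
  toFun f := f * g
  map_add' f h := add_mul f h g
  map_smul' c f := smul_mul_assoc c f g

omit [Fintype Z] in
lemma gsaR_apply (g f : Ser p Z) : gsaR g f = f * g := rfl

omit [Fintype Z] in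
lemma gsa_last {u : List Z} (h : u ≠ []) : ∃ v a, u = v ++ [a] :=
  ⟨u.dropLast, u.getLast h, (List.dropLast_append_getLast h).symm⟩

end aux

/-- the pointwise inequality -/
theorem Dn_succ [Fact p.Prime] (t : Z → ℝ) (ht0 : ∀ a, 0 < t a) (k : ι → ℕ) (hk : ∀ j, 2 ≤ k j)
    (ρ : (j : ι) → (Fin (k j) → Z) → ZMod p) (τ : ι → ℝ) (hτ : ∀ j, 0 < τ j)
    (hρ : ∀ j u, ρ j u ≠ 0 → wt t (List.ofFn u) ≤ τ j) (n : ℕ) (s : ℝ) :
    (∑ a, (Dn t k ρ n (s / t a) : ℤ)) -
      ∑ j ∈ Finset.univ.filter (fun j => k j ≤ n + 1), (Dn t k ρ (n + 1 - k j) (s / τ j) : ℤ) ≤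
      Dn t k ρ (n + 1) s := by
  classical
  -- the part with known last letter
  let P : Submodule (ZMod p) (Ser p Z) :=
    Finset.univ.sup fun a => (Jn k ρ n ⊔ Tn p t n (s / t a)).map (gsaR (mon [a]))
  have hPa : ∀ a, (Jn k ρ n ⊔ Tn p t n (s / t a)).map (gsaR (mon [a])) ≤ P := fun a =>
    Finset.le_sup (f := fun a => (Jn k ρ n ⊔ Tn p t n (s / t a)).map (gsaR (mon [a])))
      (Finset.mem_univ a)
  -- words
  have hPT : ∀ u : List Z, u.length = n + 1 → wt t u ≤ s → (mon u : Ser p Z) ∈ P := by
    intro u hu hs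
    obtain ⟨v, a, rfl⟩ := gsa_last (u := u) (by rintro rfl; simp at hu)
    apply hPa a
    refine ⟨mon v, Submodule.mem_sup_right (Submodule.subset_span ⟨v, ?_, ?_, rfl⟩), ?_⟩
    · simpa using hu
    · rw [le_div_iff₀ (ht0 a)]
      rw [wt_append] at hs
      simpa [wt] using hs
    · rw [gsaR_apply, gsa_mon_append]
  have hPJ : ∀ (f : Ser p Z) (a : Z), f ∈ Jn k ρ n → f * mon [a] ∈ P := by
    intro f a hf
    exact hPa a ⟨f, Submodule.mem_sup_left hf, rfl⟩
  -- finiteness of `P` and its dimension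
  have hPfin : ∀ s' : Finset Z, Module.Finite (ZMod p)
      ↥(s'.sup fun a => (Jn k ρ n ⊔ Tn p t n (s / t a)).map (gsaR (mon [a]))) ∧
      Module.finrank (ZMod p)
        ↥(s'.sup fun a => (Jn k ρ n ⊔ Tn p t n (s / t a)).map (gsaR (mon [a]))) ≤
      ∑ a ∈ s', Module.finrank (ZMod p) ↥(Jn k ρ n ⊔ Tn p t n (s / t a)) := by
    intro s'
    induction s' using Finset.induction_on with
    | empty =>
      rw [Finset.sup_empty]
      refine ⟨inferInstance, ?_⟩
      rw [finrank_bot]
      exact Nat.zero_le _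
    | insert a s' ha ih =>
      rw [Finset.sup_insert, Finset.sum_insert ha]
      have h1 : Module.Finite (ZMod p) ↥(Jn k ρ n ⊔ Tn p t n (s / t a)) := gsa_fin n (s / t a)
      have h2 := ih.1
      refine ⟨inferInstance, ?_⟩
      have h3 := Submodule.finrank_add_le_finrank_add_finrank
        ((Jn k ρ n ⊔ Tn p t n (s / t a)).map (gsaR (mon [a])))
        (s'.sup fun a => (Jn k ρ n ⊔ Tn p t n (s / t a)).map (gsaR (mon [a])))
      have h4 := Submodule.finrank_map_le (gsaR (mon [a])) (Jn k ρ n ⊔ Tn p t n (s / t a))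
      have h5 := ih.2
      omega
  have hP1 : Module.Finite (ZMod p) P := (hPfin Finset.univ).1
  have hP2 : Module.finrank (ZMod p) P ≤
      ∑ a, Module.finrank (ZMod p) ↥(Jn k ρ n ⊔ Tn p t n (s / t a)) := (hPfin Finset.univ).2
  -- the known parts
  have hR : ∀ j ∈ Finset.univ.filter (fun j => k j ≤ n + 1),
      (Jn k ρ (n + 1 - k j) ⊔ Tn p t (n + 1 - k j) (s / τ j)).map (gsaR (relS (ρ j))) ≤ P := by
    intro j hj
    have hj' : k j ≤ n + 1 := (Finset.mem_filter.1 hj).2
    rw [Submodule.map_sup]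
    refine sup_le ?_ ?_
    · rw [Submodule.map_le_iff_le_comap]
      unfold Jn
      rw [Submodule.span_le]
      rintro _ ⟨j', u, v, huv, rfl⟩
      change mon u * relS (ρ j') * mon v * relS (ρ j) ∈ P
      unfold relS
      rw [Finset.mul_sum]
      refine Submodule.sum_mem _ fun w _ => ?_
      rw [mul_smul_comm]
      refine Submodule.smul_mem _ _ ?_
      obtain ⟨w', a, hw⟩ := gsa_last (u := List.ofFn w) (by
        intro h
        have := congrArg List.length h
        rw [List.length_ofFn, List.length_nil] at this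
        have := hk j
        omega)
      have hlen : w'.length + 1 = k j := by
        have := congrArg List.length hw
        rw [List.length_ofFn, List.length_append, List.length_singleton] at this
        exact this.symm
      rw [hw, gsa_mon_append, ← mul_assoc]
      apply hPJ
      refine Submodule.subset_span ⟨j', u, v ++ w', ?_, ?_⟩
      · rw [List.length_append]
        omega
      · rw [gsa_mon_append]
        unfold relS
        rw [mul_assoc _ (mon v)]
    · rw [Submodule.map_le_iff_le_comap]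
      unfold Tn
      rw [Submodule.span_le]
      rintro _ ⟨u, hu, hs, rfl⟩
      change mon u * relS (ρ j) ∈ P
      unfold relS
      rw [Finset.mul_sum]
      refine Submodule.sum_mem _ fun w _ => ?_
      rw [mul_smul_comm, ← gsa_mon_append]
      by_cases hw : ρ j w = 0
      · rw [hw, zero_smul]
        exact Submodule.zero_mem _
      · refine Submodule.smul_mem _ _ (hPT _ ?_ ?_)
        · rw [List.length_append, List.length_ofFn]
          omega
        · rw [wt_append]
          rw [le_div_iff₀ (hτ j)] at hs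
          exact (mul_le_mul_of_nonneg_left (hρ j w hw) (wt_pos ht0 u).le).trans hs
  have hdim := gsa_dim (p := p) (Finset.univ.filter fun j => k j ≤ n + 1) P
    (fun j => gsaT p Z (n + 1 - k j))
    (fun j => Jn k ρ (n + 1 - k j) ⊔ Tn p t (n + 1 - k j) (s / τ j))
    (fun j => inferInstance) (fun j => gsa_M_le _ _) (fun j => gsaR (relS (ρ j))) hR
  -- the upper bound for the ideal
  have hle : Jn k ρ (n + 1) ⊔ Tn p t (n + 1) s ≤
      P ⊔ (Finset.univ.filter fun j => k j ≤ n + 1).sup fun j =>
        (gsaT p Z (n + 1 - k j)).map (gsaR (relS (ρ j))) := by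
    refine sup_le ?_ ?_
    · unfold Jn
      rw [Submodule.span_le]
      rintro _ ⟨j, u, v, huv, rfl⟩
      rcases eq_or_ne v [] with rfl | hv
      · apply Submodule.mem_sup_right
        have hj : j ∈ Finset.univ.filter fun j => k j ≤ n + 1 := by
          rw [Finset.mem_filter]
          refine ⟨Finset.mem_univ _, ?_⟩
          rw [List.length_nil] at huv
          omega
        have h1 : (gsaT p Z (n + 1 - k j)).map (gsaR (relS (ρ j))) ≤
            (Finset.univ.filter fun j => k j ≤ n + 1).sup fun j =>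
              (gsaT p Z (n + 1 - k j)).map (gsaR (relS (ρ j))) :=
          Finset.le_sup (f := fun j => (gsaT p Z (n + 1 - k j)).map (gsaR (relS (ρ j)))) hj
        apply h1
        refine ⟨mon u, gsaT_mon' u ?_, ?_⟩
        · rw [List.length_nil] at huv
          omega
        · rw [gsaR_apply, ← one_def, mul_one]
      · obtain ⟨v', a, rfl⟩ := gsa_last hv
        apply Submodule.mem_sup_left
        rw [gsa_mon_append, ← mul_assoc]
        apply hPJ
        refine Submodule.subset_span ⟨j, u, v', ?_, rfl⟩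
        rw [List.length_append, List.length_singleton] at huv
        omega
    · unfold Tn
      rw [Submodule.span_le]
      rintro _ ⟨u, hu, hs, rfl⟩
      exact Submodule.mem_sup_left (hPT u hu hs)
  have hfin2 : Module.Finite (ZMod p) ↥(P ⊔ (Finset.univ.filter fun j => k j ≤ n + 1).sup
      fun j => (gsaT p Z (n + 1 - k j)).map (gsaR (relS (ρ j)))) := by
    have h1 : ∀ s' : Finset ι, Module.Finite (ZMod p) ↥(s'.sup
        fun j => (gsaT p Z (n + 1 - k j)).map (gsaR (relS (ρ j)))) := by
      intro s'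
      induction s' using Finset.induction_on with
      | empty =>
        rw [Finset.sup_empty]
        infer_instance
      | insert j s' _ ih =>
        rw [Finset.sup_insert]
        have := ih
        infer_instance
    have := h1 (Finset.univ.filter fun j => k j ≤ n + 1)
    infer_instance
  have h1 := (Submodule.finrank_mono hle).trans hdim
  -- arithmetic
  have h2 : ∀ j, ((Module.finrank (ZMod p) (gsaT p Z (n + 1 - k j)) -
      Module.finrank (ZMod p) ↥(Jn k ρ (n + 1 - k j) ⊔ Tn p t (n + 1 - k j) (s / τ j)) : ℕ) : ℤ) ≤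
      (Dn t k ρ (n + 1 - k j) (s / τ j) : ℤ) := by
    intro j
    have h3 := gsaT_finrank_le (p := p) (Z := Z) (n + 1 - k j)
    unfold Dn
    omega
  have h3 : (Module.finrank (ZMod p) ↥(Jn k ρ (n + 1) ⊔ Tn p t (n + 1) s) : ℤ) ≤
      (∑ a, (Module.finrank (ZMod p) ↥(Jn k ρ n ⊔ Tn p t n (s / t a)) : ℤ)) +
      ∑ j ∈ Finset.univ.filter (fun j => k j ≤ n + 1),
        (Dn t k ρ (n + 1 - k j) (s / τ j) : ℤ) := by
    have h4 : (Module.finrank (ZMod p) ↥(Jn k ρ (n + 1) ⊔ Tn p t (n + 1) s) : ℤ) ≤
        ((∑ a, Module.finrank (ZMod p) ↥(Jn k ρ n ⊔ Tn p t n (s / t a)) : ℕ) : ℤ) +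
        ((∑ j ∈ Finset.univ.filter (fun j => k j ≤ n + 1),
          (Module.finrank (ZMod p) (gsaT p Z (n + 1 - k j)) -
            Module.finrank (ZMod p) ↥(Jn k ρ (n + 1 - k j) ⊔
              Tn p t (n + 1 - k j) (s / τ j))) : ℕ) : ℤ) := by
      have := h1.trans (Nat.add_le_add_right hP2 _)
      exact_mod_cast this
    refine h4.trans ?_
    rw [Nat.cast_sum, Nat.cast_sum]
    exact add_le_add le_rfl (Finset.sum_le_sum fun j _ => h2 j)
  have h4 : (∑ a, (Dn t k ρ n (s / t a) : ℤ)) = (Fintype.card Z : ℤ) ^ (n + 1) -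
      ∑ a, (Module.finrank (ZMod p) ↥(Jn k ρ n ⊔ Tn p t n (s / t a)) : ℤ) := by
    rw [Finset.sum_congr rfl fun a _ => gsa_Dn_eq (t := t) (k := k) (ρ := ρ) n (s / t a),
      Finset.sum_sub_distrib, Finset.sum_const, Finset.card_univ, nsmul_eq_mul, pow_succ]
    ring
  rw [h4, gsa_Dn_eq (n + 1) s]
  linarith

theorem Dn_anti [Fact p.Prime] (t : Z → ℝ) (k : ι → ℕ) (ρ : (j : ι) → (Fin (k j) → Z) → ZMod p)
    (n : ℕ) {s s' : ℝ} (h : s ≤ s') : Dn t k ρ n s' ≤ Dn t k ρ n s := by
  unfold Dn
  have h1 : Jn k ρ n ⊔ Tn p t n s ≤ Jn k ρ n ⊔ Tn p t n s' := by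
    refine sup_le_sup_left (Submodule.span_mono ?_) _
    rintro f ⟨u, h1, h2, h3⟩
    exact ⟨u, h1, h2.trans h, h3⟩
  have := gsa_fin (p := p) (t := t) (k := k) (ρ := ρ) n s'
  have h2 := Submodule.finrank_mono h1
  omega

theorem Dn_zero [Fact p.Prime] (t : Z → ℝ) (ht0 : ∀ a, 0 < t a) (ht1 : ∀ a, t a < 1) (k : ι → ℕ)
    (ρ : (j : ι) → (Fin (k j) → Z) → ZMod p) (n : ℕ) {s : ℝ} (h : 1 ≤ s) :
    Dn t k ρ n s = 0 := by
  unfold Dn
  have h1 : gsaT p Z n ≤ Jn k ρ n ⊔ Tn p t n s := by
    refine le_trans ?_ le_sup_right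
    unfold gsaT
    rw [Submodule.span_le]
    rintro _ ⟨u, hu, rfl⟩
    refine Submodule.subset_span ⟨u, hu, ?_, rfl⟩
    have := wt_le_pow (c := 1) ht0 (fun a => (ht1 a).le) u
    rw [one_pow] at this
    exact this.trans h
  have := gsa_fin (p := p) (t := t) (k := k) (ρ := ρ) n s
  have h2 := Submodule.finrank_mono h1
  have h3 := gsaT_finrank_ge (p := p) (Z := Z) n
  omega

/-- 9.1 -/
theorem gsa [Fact p.Prime] (t : Z → ℝ) (ht0 : ∀ a, 0 < t a) (ht1 : ∀ a, t a < 1)
    (hsum : ∑ a, t a = 4) (k : ι → ℕ) (hk : ∀ j, 2 ≤ k j)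
    (ρ : (j : ι) → (Fin (k j) → Z) → ZMod p) (τ : ι → ℝ) (hτ : ∀ j, 0 < τ j)
    (hρ : ∀ j u, ρ j u ≠ 0 → wt t (List.ofFn u) ≤ τ j)
    (hle : ∑ j, τ j * (2 : ℝ) / 2 ^ k j ≤ 2) (n : ℕ) :
    (2 : ℝ) ^ n ≤ ∫ s in (0 : ℝ)..1, (Dn t k ρ n s : ℝ) := by
  classical
  set W : ℕ → ℝ := fun n => ∫ s in (0 : ℝ)..1, (Dn t k ρ n s : ℝ) with hW
  have hanti : ∀ n, Antitone fun s : ℝ => (Dn t k ρ n s : ℝ) := by
    intro n s s' h
    exact Nat.cast_le.2 (Dn_anti t k ρ n h)
  have hint : ∀ n a b, IntervalIntegrable (fun s : ℝ => (Dn t k ρ n s : ℝ))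
      MeasureTheory.volume a b := fun n a b => (hanti n).intervalIntegrable
  have hnn : ∀ n s, (0 : ℝ) ≤ Dn t k ρ n s := fun n s => Nat.cast_nonneg _
  have hW0 : ∀ n, 0 ≤ W n := fun n =>
    intervalIntegral.integral_nonneg (by norm_num) fun s _ => hnn n s
  have hzero : ∀ n b, 1 ≤ b → ∫ s in (1 : ℝ)..b, (Dn t k ρ n s : ℝ) = 0 := by
    intro n b hb
    rw [intervalIntegral.integral_congr (g := fun _ => (0 : ℝ))]
    · simp
    · intro s hs
      rw [Set.uIcc_of_le hb] at hs
      change (Dn t k ρ n s : ℝ) = 0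
      rw [Dn_zero t ht0 ht1 k ρ n hs.1, Nat.cast_zero]
  have hbig : ∀ n b, 1 ≤ b → ∫ s in (0 : ℝ)..b, (Dn t k ρ n s : ℝ) = W n := by
    intro n b hb
    rw [← intervalIntegral.integral_add_adjacent_intervals (hint n 0 1) (hint n 1 b), hzero n b hb,
      add_zero]
  have hany : ∀ n b, 0 ≤ b → ∫ s in (0 : ℝ)..b, (Dn t k ρ n s : ℝ) ≤ W n := by
    intro n b hb
    rcases le_total 1 b with h | h
    · exact (hbig n b h).le
    · rw [hW]
      change _ ≤ ∫ s in (0 : ℝ)..1, (Dn t k ρ n s : ℝ)
      rw [← intervalIntegral.integral_add_adjacent_intervals (hint n 0 b) (hint n b 1)]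
      have : 0 ≤ ∫ s in b..1, (Dn t k ρ n s : ℝ) :=
        intervalIntegral.integral_nonneg h fun s _ => hnn n s
      linarith
  have hscale : ∀ n c, 0 < c → ∫ s in (0 : ℝ)..1, (Dn t k ρ n (s / c) : ℝ) =
      c * ∫ s in (0 : ℝ)..(1 / c), (Dn t k ρ n s : ℝ) := by
    intro n c hc
    have := intervalIntegral.integral_comp_div (a := 0) (b := 1)
      (fun s : ℝ => (Dn t k ρ n s : ℝ)) hc.ne'
    rw [this, zero_div, smul_eq_mul]
  have hint' : ∀ n c, 0 < c → IntervalIntegrable (fun s : ℝ => (Dn t k ρ n (s / c) : ℝ))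
      MeasureTheory.volume 0 1 := by
    intro n c hc
    have : Antitone fun s : ℝ => (Dn t k ρ n (s / c) : ℝ) := fun s s' h =>
      hanti n (by rw [div_le_div_iff_of_pos_right hc]; exact h)
    exact this.intervalIntegrable
  -- the recursion
  have hrec : ∀ n, 4 * W n - ∑ j ∈ Finset.univ.filter (fun j => k j ≤ n + 1),
      τ j * W (n + 1 - k j) ≤ W (n + 1) := by
    intro n
    have hA : IntervalIntegrable (fun s : ℝ => ∑ a, (Dn t k ρ n (s / t a) : ℝ))
        MeasureTheory.volume 0 1 := by
      have h := IntervalIntegrable.sum Finset.univ (fun a _ => hint' n (t a) (ht0 a))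
      have e : (fun s : ℝ => ∑ a, (Dn t k ρ n (s / t a) : ℝ)) =
          ∑ a, fun s : ℝ => (Dn t k ρ n (s / t a) : ℝ) := by
        funext s
        rw [Finset.sum_apply]
      rw [e]
      exact h
    have hB : IntervalIntegrable (fun s : ℝ => ∑ j ∈ Finset.univ.filter (fun j => k j ≤ n + 1),
        (Dn t k ρ (n + 1 - k j) (s / τ j) : ℝ)) MeasureTheory.volume 0 1 := by
      have h := IntervalIntegrable.sum (Finset.univ.filter fun j => k j ≤ n + 1)
        (fun j _ => hint' (n + 1 - k j) (τ j) (hτ j))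
      have e : (fun s : ℝ => ∑ j ∈ Finset.univ.filter (fun j => k j ≤ n + 1),
          (Dn t k ρ (n + 1 - k j) (s / τ j) : ℝ)) =
          ∑ j ∈ Finset.univ.filter (fun j => k j ≤ n + 1),
            fun s : ℝ => (Dn t k ρ (n + 1 - k j) (s / τ j) : ℝ) := by
        funext s
        rw [Finset.sum_apply]
      rw [e]
      exact h
    have h1 : (∫ s in (0 : ℝ)..1, ((∑ a, (Dn t k ρ n (s / t a) : ℝ)) -
        ∑ j ∈ Finset.univ.filter (fun j => k j ≤ n + 1),
          (Dn t k ρ (n + 1 - k j) (s / τ j) : ℝ))) ≤ W (n + 1) := by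
      refine intervalIntegral.integral_mono_on (by norm_num) ?_ (hint (n + 1) 0 1) ?_
      · exact hA.sub hB
      · intro s _
        have := Dn_succ t ht0 k hk ρ τ hτ hρ n s
        exact_mod_cast this
    have h2 : (∫ s in (0 : ℝ)..1, ((∑ a, (Dn t k ρ n (s / t a) : ℝ)) -
        ∑ j ∈ Finset.univ.filter (fun j => k j ≤ n + 1),
          (Dn t k ρ (n + 1 - k j) (s / τ j) : ℝ))) =
        (∑ a, ∫ s in (0 : ℝ)..1, (Dn t k ρ n (s / t a) : ℝ)) -
        ∑ j ∈ Finset.univ.filter (fun j => k j ≤ n + 1),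
          ∫ s in (0 : ℝ)..1, (Dn t k ρ (n + 1 - k j) (s / τ j) : ℝ) := by
      rw [intervalIntegral.integral_sub hA hB, intervalIntegral.integral_finsetSum,
        intervalIntegral.integral_finsetSum]
      · exact fun j _ => hint' _ (τ j) (hτ j)
      · exact fun a _ => hint' n (t a) (ht0 a)
    have h3 : (∑ a, ∫ s in (0 : ℝ)..1, (Dn t k ρ n (s / t a) : ℝ)) = 4 * W n := by
      rw [← hsum, Finset.sum_mul]
      refine Finset.sum_congr rfl fun a _ => ?_
      rw [hscale n (t a) (ht0 a), hbig n (1 / t a)]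
      rw [le_div_iff₀ (ht0 a), one_mul]
      exact (ht1 a).le
    have h4 : (∑ j ∈ Finset.univ.filter (fun j => k j ≤ n + 1),
        ∫ s in (0 : ℝ)..1, (Dn t k ρ (n + 1 - k j) (s / τ j) : ℝ)) ≤
        ∑ j ∈ Finset.univ.filter (fun j => k j ≤ n + 1), τ j * W (n + 1 - k j) := by
      refine Finset.sum_le_sum fun j _ => ?_
      rw [hscale _ (τ j) (hτ j)]
      exact mul_le_mul_of_nonneg_left (hany _ _ (one_div_pos.2 (hτ j)).le) (hτ j).le
    rw [h2, h3] at h1
    linarith
  -- doubling
  have hdouble : ∀ n, 2 * W n ≤ W (n + 1) := by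
    intro n
    induction n using Nat.strong_induction_on with
    | _ n ih =>
      have hpow : ∀ i, i ≤ n → 2 ^ i * W (n - i) ≤ W n := by
        intro i
        induction i with
        | zero => intro _; simp
        | succ i ihi =>
          intro hi
          have h1 := ihi (by omega)
          have h2 := ih (n - (i + 1)) (by omega)
          rw [show n - (i + 1) + 1 = n - i by omega] at h2
          calc (2 : ℝ) ^ (i + 1) * W (n - (i + 1)) = 2 ^ i * (2 * W (n - (i + 1))) := by ring
            _ ≤ 2 ^ i * W (n - i) := mul_le_mul_of_nonneg_left h2 (by positivity)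
            _ ≤ W n := h1
      have h1 := hrec n
      have h2 : (∑ j ∈ Finset.univ.filter (fun j => k j ≤ n + 1), τ j * W (n + 1 - k j)) ≤
          2 * W n := by
        calc (∑ j ∈ Finset.univ.filter (fun j => k j ≤ n + 1), τ j * W (n + 1 - k j))
            ≤ ∑ j ∈ Finset.univ.filter (fun j => k j ≤ n + 1), τ j * 2 / 2 ^ k j * W n := by
              refine Finset.sum_le_sum fun j hj => ?_
              have hj1 : k j ≤ n + 1 := (Finset.mem_filter.1 hj).2
              have hj2 := hk j
              have h3 := hpow (k j - 1) (by omega)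
              rw [show n - (k j - 1) = n + 1 - k j by omega] at h3
              have h4 : (2 : ℝ) ^ k j = 2 * 2 ^ (k j - 1) := by
                rw [← pow_succ']
                congr 1
                omega
              have h5 : (0 : ℝ) < 2 ^ (k j - 1) := by positivity
              rw [h4]
              have h6 : τ j * 2 / (2 * 2 ^ (k j - 1)) * W n = τ j * (W n / 2 ^ (k j - 1)) := by
                field_simp
              rw [h6]
              refine mul_le_mul_of_nonneg_left ?_ (hτ j).le
              rw [le_div_iff₀ h5]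
              linarith
          _ ≤ ∑ j, τ j * 2 / 2 ^ k j * W n := by
              refine Finset.sum_le_sum_of_subset_of_nonneg (Finset.filter_subset _ _) ?_
              intro j _ _
              have := (hτ j).le
              have := hW0 n
              positivity
          _ = (∑ j, τ j * 2 / 2 ^ k j) * W n := by rw [Finset.sum_mul]
          _ ≤ 2 * W n := mul_le_mul_of_nonneg_right hle (hW0 n)
      linarith
  -- start
  have hstart : W 0 = 1 := by
    have h1 : ∀ s : ℝ, s < 1 → Dn t k ρ 0 s = 1 := by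
      intro s hs
      have h2 : Jn k ρ 0 ⊔ Tn p t 0 s = ⊥ := by
        rw [sup_eq_bot_iff]
        constructor
        · unfold Jn
          rw [Submodule.span_eq_bot]
          rintro f ⟨j, u, v, h, _⟩
          have := hk j
          omega
        · unfold Tn
          rw [Submodule.span_eq_bot]
          rintro f ⟨u, h, h', _⟩
          rw [List.length_eq_zero_iff] at h
          subst h
          simp [wt] at h'
          linarith
      unfold Dn
      rw [h2, finrank_bot, pow_zero, Nat.sub_zero]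
    have h3 : W 0 = ∫ s in (0 : ℝ)..1, (1 : ℝ) := by
      refine intervalIntegral.integral_congr_ae ?_
      have h4 : ∀ᵐ s : ℝ, s ≠ 1 := by
        rw [MeasureTheory.ae_iff]
        simp
      filter_upwards [h4] with s hs hs'
      rw [Set.uIoc_of_le (by norm_num : (0 : ℝ) ≤ 1)] at hs'
      rw [h1 s (lt_of_le_of_ne hs'.2 hs), Nat.cast_one]
    rw [h3]
    simp
  have hfinal : ∀ n, (2 : ℝ) ^ n ≤ W n := by
    intro n
    induction n with
    | zero => rw [hstart, pow_zero]
    | succ n ih =>
      have := hdouble n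
      rw [pow_succ]
      linarith
  exact hfinal n

end Pool.Agent.GGS
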