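import Pool.Agent.GGS.PBW

/-!
# PBW bases (paper, 2.1)

The space of functions on `P` which are left `V`-invariant has dimension `V.relIndex P = p ^ |L|`; by `pbw`
(with `t = 1`) the linear map `f ↦ (dif (mono L a) f 1)_a` to `𝔽_p ^ (p ^ |L|)` is injective on it,
hence bijective.
-/

namespace Pool.Agent.GGS

universe u

variable {p : ℕ} {G : Type u} [Group G] (w : WG p G)

theorem mw_pos {P V : Subgroup G} {L : List (G × ℝ)} (h : Chain w P V L)
    (a : Fin L.length → Fin p) : 0 < mw L a ∧ mw L a ≤ 1 := by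
  have h1 : ∀ i : Fin L.length, 0 < (L.get i).2 ∧ (L.get i).2 ≤ 1 := by
    intro i
    obtain ⟨_, _, h3, h4⟩ := chain_mem w h (L.get i) (List.get_mem L i)
    exact ⟨h3, h4.trans w.wm_lt.le⟩
  unfold mw
  constructor
  · exact Finset.prod_pos fun i _ => pow_pos (h1 i).1 _
  · exact Finset.prod_le_one (fun i _ => (pow_pos (h1 i).1 _).le)
      fun i _ => pow_le_one₀ (h1 i).1.le (h1 i).2

theorem wl_mono {P V : Subgroup G} {L : List (G × ℝ)} (h : Chain w P V L)
    (a : Fin L.length → Fin p) : wl w (mono L a) = mw L a :=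
  pbw_wl_mono h fun i => (a i : ℕ)

theorem chain_inj [Fact p.Prime] {P V : Subgroup G} {L : List (G × ℝ)} (h : Chain w P V L)
    (hV : Op w V) (f : G → ZMod p) (hf : ∀ v ∈ V, ∀ g ∈ P, f (v * g) = f g)
    (h0 : ∀ a : Fin L.length → Fin p, dif (mono L a) f 1 = 0) : ∀ g ∈ P, f g = 0 := by
  intro g hg
  have h1 := pbw w h hV f hf 1 (fun a _ => h0 a)
  have h2 : f 1 = 0 := by
    have := h1 [] (by simp) (wl_le_one w _)
    simpa using this
  have h3 := h1 [g] (fun x hx => by rw [List.mem_singleton] at hx; rwa [hx]) (wl_le_one w _)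
  rw [dif_cons, dif_nil, one_mul, h2, sub_zero] at h3
  exact h3

/-- the function on `G` given by a function on the cosets of `V` in `P` -/
noncomputable def interpFun (P V : Subgroup G) (φ : (P ⧸ V.subgroupOf P) → ZMod p) : G → ZMod p :=
  fun g => by
    classical
    exact if hg : g ∈ P then φ (QuotientGroup.mk (⟨g, hg⟩ : P)⁻¹) else 0


lemma interpFun_mem {P V : Subgroup G} (φ : (P ⧸ V.subgroupOf P) → ZMod p) {g : G} (hg : g ∈ P) :
    interpFun P V φ g = φ (QuotientGroup.mk (⟨g, hg⟩ : P)⁻¹) := by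
  unfold interpFun
  rw [dif_pos hg]


lemma interpFun_not_mem {P V : Subgroup G} (φ : (P ⧸ V.subgroupOf P) → ZMod p) {g : G}
    (hg : g ∉ P) : interpFun P V φ g = 0 := by
  unfold interpFun
  rw [_root_.dif_neg hg]


lemma interpFun_inv {P V : Subgroup G} (hVP : V ≤ P) (φ : (P ⧸ V.subgroupOf P) → ZMod p) (v : G)
    (hv : v ∈ V) (g : G) : interpFun P V φ (v * g) = interpFun P V φ g := by
  by_cases hg : g ∈ P
  · rw [interpFun_mem φ hg, interpFun_mem φ (P.mul_mem (hVP hv) hg)]
    congr 1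
    rw [QuotientGroup.eq, Subgroup.mem_subgroupOf]
    have h1 : (((⟨v * g, P.mul_mem (hVP hv) hg⟩ : P)⁻¹⁻¹ * (⟨g, hg⟩ : P)⁻¹ : P) : G) = v := by
      simp
    rw [h1]
    exact hv
  · have h2 : v * g ∉ P := fun hcon => hg (by
      have := P.mul_mem (P.inv_mem (hVP hv)) hcon
      rwa [inv_mul_cancel_left] at this)
    rw [interpFun_not_mem φ hg, interpFun_not_mem φ h2]


lemma interpFun_add {P V : Subgroup G} (φ ψ : (P ⧸ V.subgroupOf P) → ZMod p) :
    interpFun P V (φ + ψ) = interpFun P V φ + interpFun P V ψ := by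
  funext g
  by_cases hg : g ∈ P
  · simp only [Pi.add_apply, interpFun_mem _ hg]
  · simp only [Pi.add_apply, interpFun_not_mem _ hg, add_zero]


lemma interpFun_smul {P V : Subgroup G} (c : ZMod p) (φ : (P ⧸ V.subgroupOf P) → ZMod p) :
    interpFun P V (c • φ) = c • interpFun P V φ := by
  funext g
  by_cases hg : g ∈ P
  · simp only [Pi.smul_apply, interpFun_mem _ hg]
  · simp only [Pi.smul_apply, interpFun_not_mem _ hg, smul_zero]

/-- the linear map of coefficients -/
noncomputable def interpMap (p : ℕ) (P V : Subgroup G) (L : List (G × ℝ)) :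
    ((P ⧸ V.subgroupOf P) → ZMod p) →ₗ[ZMod p] ((Fin L.length → Fin p) → ZMod p) where
  toFun φ := fun a => dif (mono L a) (interpFun P V φ) 1
  map_add' φ ψ := by
    funext a
    rw [interpFun_add, dif_add]
    rfl
  map_smul' c φ := by
    funext a
    rw [interpFun_smul, dif_smul]
    rfl

theorem chain_interp [Fact p.Prime] {P V : Subgroup G} {L : List (G × ℝ)} (h : Chain w P V L)
    (hV : Op w V) (c : (Fin L.length → Fin p) → ZMod p) :
    ∃ f : G → ZMod p, (∀ v ∈ V, ∀ g, f (v * g) = f g) ∧ (∀ g, g ∉ P → f g = 0) ∧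
      ∀ a, dif (mono L a) f 1 = c a := by
  classical
  have hp : p.Prime := Fact.out
  have hVP := chain_le w h
  have hcard : Nat.card (P ⧸ V.subgroupOf P) = p ^ L.length := chain_relIndex w h
  have hne : Nat.card (P ⧸ V.subgroupOf P) ≠ 0 := by
    rw [hcard]
    exact pow_ne_zero _ hp.ne_zero
  have : Finite (P ⧸ V.subgroupOf P) := Nat.finite_of_card_ne_zero hne
  have : Fintype (P ⧸ V.subgroupOf P) := Fintype.ofFinite _
  have hinj : Function.Injective (interpMap p P V L) := by
    rw [injective_iff_map_eq_zero]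
    intro φ hφ
    have h1 := chain_inj w h hV (interpFun P V φ)
      (fun v hv g _ => interpFun_inv hVP φ v hv g) (fun a => congrFun hφ a)
    funext x
    obtain ⟨g, rfl⟩ := QuotientGroup.mk_surjective x
    have h2 := h1 (g⁻¹ : P) (g⁻¹ : P).2
    rw [interpFun_mem φ (g⁻¹ : P).2] at h2
    have h3 : (⟨((g⁻¹ : P) : G), (g⁻¹ : P).2⟩ : P)⁻¹ = g := by
      rw [Subtype.coe_eta, inv_inv]
    rw [h3] at h2
    exact h2
  have hfr : Module.finrank (ZMod p) ((P ⧸ V.subgroupOf P) → ZMod p) =
      Module.finrank (ZMod p) ((Fin L.length → Fin p) → ZMod p) := by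
    rw [Module.finrank_fintype_fun_eq_card, Module.finrank_fintype_fun_eq_card,
      ← Nat.card_eq_fintype_card, hcard]
    simp
  obtain ⟨φ, hφ⟩ := (LinearMap.injective_iff_surjective_of_finrank_eq_finrank hfr).1 hinj c
  exact ⟨interpFun P V φ, fun v hv g => interpFun_inv hVP φ v hv g,
    fun g hg => interpFun_not_mem φ hg, fun a => congrFun hφ a⟩

end Pool.Agent.GGS
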