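import Pool.Agent.GGS.Interp
import Pool.Agent.GGS.ChainEx

/-!
# The dimensions `m_V(t)` and the `W`-index (paper, 2.1, 2.2)
-/

namespace Pool.Agent.GGS

universe u

variable {p : ℕ} {G : Type u} [Group G] (w : WG p G)

/-- the coordinates of an invariant function -/
def mdCoord (V : Subgroup G) (t : ℝ) {ι : Type} (M : ι → List G) :
    Fil w V t →ₗ[ZMod p] (ι → ZMod p) where
  toFun := fun f a => dif (M a) (f : G → ZMod p) 1
  map_add' := fun f g => by
    funext a
    change dif (M a) ((f : G → ZMod p) + (g : G → ZMod p)) 1 = _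
    rw [dif_add]
    rfl
  map_smul' := fun c f => by
    funext a
    change dif (M a) (c • (f : G → ZMod p)) 1 = _
    rw [dif_smul]
    rfl

theorem Fil_finite [Fact p.Prime] {V : Subgroup G} (hV : Op w V) (t : ℝ) :
    Module.Finite (ZMod p) (Fil w V t) := by
  obtain ⟨L, hL⟩ := exists_chain w hV (le_top : V ≤ ⊤)
  have hinj : Function.Injective (mdCoord w V t (mono (p := p) L)) := by
    rw [← LinearMap.ker_eq_bot, LinearMap.ker_eq_bot']
    rintro ⟨f, hf⟩ h0
    apply Subtype.ext
    funext g
    exact chain_inj w hL hV f (fun v hv g _ => hf.1 v hv g) (fun a => congrFun h0 a) g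
      (Subgroup.mem_top g)
  exact Module.Finite.of_injective _ hinj

theorem md_eq [Fact p.Prime] {V : Subgroup G} {L : List (G × ℝ)} (h : Chain w ⊤ V L)
    (hV : Op w V) (t : ℝ) :
    md w V t = (Finset.univ.filter fun a : Fin L.length → Fin p => t < mw L a).card := by
  classical
  set φ := mdCoord w V t (fun a : {a : Fin L.length → Fin p // t < mw L a} => mono L a.1) with hφ
  have hinj : Function.Injective φ := by
    rw [← LinearMap.ker_eq_bot, LinearMap.ker_eq_bot']
    rintro ⟨f, hf⟩ h0
    apply Subtype.ext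
    funext g
    refine chain_inj w h hV f (fun v hv g _ => hf.1 v hv g) (fun a => ?_) g (Subgroup.mem_top g)
    by_cases ha : t < mw L a
    · exact congrFun h0 ⟨a, ha⟩
    · refine hf.2 _ ?_
      rw [wl_mono w h]
      exact not_lt.1 ha
  have hsurj : Function.Surjective φ := by
    intro c
    obtain ⟨f, hf1, -, hf3⟩ := chain_interp w h hV
      (fun a => if ha : t < mw L a then c ⟨a, ha⟩ else 0)
    refine ⟨⟨f, hf1, fun l hl => ?_⟩, ?_⟩
    · refine pbw w h hV f (fun v hv g _ => hf1 v hv g) t (fun a ha => ?_) l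
        (fun g _ => Subgroup.mem_top g) hl
      rw [hf3, _root_.dif_neg (not_lt.2 ha)]
    · funext a
      change dif (mono L a.1) f 1 = c a
      rw [hf3, dif_pos a.2]
  have e := LinearEquiv.ofBijective φ ⟨hinj, hsurj⟩
  unfold md
  rw [e.finrank_eq, Module.finrank_fintype_fun_eq_card, Fintype.card_subtype]

end Pool.Agent.GGS
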