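import Mathlib

/-!
# The numbers `i_m(n)` and `n₀(m)` (paper, 10.2, 10.3)

`al m n = im m n / n!` satisfies `(n+1) al (m+2) (n+1) = ∑_{k ≤ n} al (m+2) k * al (m+1) (n-k)`.  Show by induction on `m`:
for every `R ≥ 1` there is `C` with `al m n ≤ C / R ^ n` for all `n`.
-/

namespace Pool.Agent.GGS

/-- the numbers `i_m(n)`; `im 0 n = im 1 n = [n = 0]` -/
def im : ℕ → ℕ → ℕ
  | 0, n => if n = 0 then 1 else 0
  | 1, n => if n = 0 then 1 else 0
  | _ + 2, 0 => 1
  | m + 2, n + 1 => ∑ k : Fin (n + 1), n.choose k * im (m + 2) k * im (m + 1) (n - k)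
termination_by m n => (m, n)
decreasing_by
  all_goals simp_wf
  all_goals first
    | exact Prod.Lex.right _ (by omega)
    | exact Prod.Lex.left _ _ (by omega)

theorem im_one (n : ℕ) : im 1 n = if n = 0 then 1 else 0 := by
  rw [im]

theorem im_zero_right (m : ℕ) : im m 0 = 1 := by
  rcases m with _ | _ | m <;> simp [im]

theorem im_succ (m n : ℕ) : im (m + 2) (n + 1) =
    ∑ k : Fin (n + 1), n.choose k * im (m + 2) k * im (m + 1) (n - k) := by
  rw [im]

/-- `im m n / n!` decays faster than every geometric sequence -/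
theorem im_decay (m : ℕ) : ∀ R : ℝ, 1 ≤ R → ∃ C : ℝ, 0 < C ∧
    ∀ n, (im (m + 1) n : ℝ) / n.factorial * R ^ n ≤ C := by
  induction m with
  | zero =>
    intro R hR
    refine ⟨1, one_pos, fun n => ?_⟩
    rw [show (0 + 1 : ℕ) = 1 from rfl, im_one]
    by_cases hn : n = 0
    · subst hn; simp
    · simp [hn]
  | succ m ihm =>
    intro R hR
    have hR0 : (0 : ℝ) < R := lt_of_lt_of_le one_pos hR
    obtain ⟨C', hC', hb⟩ := ihm (2 * R) (by linarith)
    set s : ℕ → ℝ := fun n => (im (m + 1 + 1) n : ℝ) / n.factorial * R ^ n with hs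
    have hs0 : ∀ n, 0 ≤ s n := fun n => by positivity
    -- the recursion
    have hrec : ∀ n : ℕ, ((n : ℝ) + 1) * s (n + 1) ≤ R * ∑ k ∈ Finset.range (n + 1),
        s k * (C' * (1 / 2) ^ (n - k)) := by
      intro n
      have h1 : ((im (m + 1 + 1) (n + 1) : ℕ) : ℝ) = ∑ k ∈ Finset.range (n + 1),
          (n.choose k : ℝ) * im (m + 2) k * im (m + 1) (n - k) := by
        rw [im_succ, Finset.sum_range]
        push_cast
        rfl
      have h2 : ((n : ℝ) + 1) * s (n + 1) = R * ∑ k ∈ Finset.range (n + 1),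
          ((n.choose k : ℝ) * im (m + 2) k * im (m + 1) (n - k) / n.factorial * R ^ n) := by
        simp only [hs]
        rw [h1, Nat.factorial_succ, Finset.mul_sum, Finset.sum_div, Finset.sum_mul, Finset.mul_sum]
        refine Finset.sum_congr rfl fun k _ => ?_
        have hf : (n.factorial : ℝ) ≠ 0 := by exact_mod_cast Nat.factorial_ne_zero n
        have hn1 : ((n : ℝ) + 1) ≠ 0 := by positivity
        push_cast
        field_simp
        ring
      rw [h2]
      refine mul_le_mul_of_nonneg_left (Finset.sum_le_sum fun k hk => ?_) hR0.le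
      have hkn : k ≤ n := Nat.lt_succ_iff.mp (Finset.mem_range.mp hk)
      have h3 : (n.choose k : ℝ) * im (m + 2) k * im (m + 1) (n - k) / n.factorial * R ^ n =
          s k * ((im (m + 1) (n - k) : ℝ) / (n - k).factorial * (2 * R) ^ (n - k) *
            (1 / 2) ^ (n - k)) := by
        simp only [hs]
        have h4 : (n.choose k : ℝ) = n.factorial / (k.factorial * (n - k).factorial) :=
          Nat.cast_choose ℝ hkn
        have h5 : R ^ n = R ^ k * R ^ (n - k) := by rw [← pow_add]; congr 1; omega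
        have hf : (n.factorial : ℝ) ≠ 0 := by exact_mod_cast Nat.factorial_ne_zero n
        have hf1 : (k.factorial : ℝ) ≠ 0 := by exact_mod_cast Nat.factorial_ne_zero k
        have hf2 : ((n - k).factorial : ℝ) ≠ 0 := by exact_mod_cast Nat.factorial_ne_zero (n - k)
        rw [h4, h5, mul_pow, div_pow, one_pow]
        field_simp
      rw [h3]
      refine mul_le_mul_of_nonneg_left ?_ (hs0 k)
      exact mul_le_mul_of_nonneg_right (hb (n - k)) (by positivity)
    obtain ⟨K, hK⟩ := exists_nat_ge (2 * R * C')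
    set C : ℝ := 1 + ∑ k ∈ Finset.range (K + 1), s k with hC
    have hCpos : 0 < C := by
      have : 0 ≤ ∑ k ∈ Finset.range (K + 1), s k := Finset.sum_nonneg fun k _ => hs0 k
      rw [hC]; linarith
    refine ⟨C, hCpos, ?_⟩
    have hsmall : ∀ n, n ≤ K → s n ≤ C := by
      intro n hn
      have := Finset.single_le_sum (f := s) (fun k _ => hs0 k)
        (Finset.mem_range.mpr (Nat.lt_succ_of_le hn))
      rw [hC]; linarith
    intro n
    change s n ≤ C
    induction n using Nat.strong_induction_on with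
    | _ n ih =>
    by_cases hn : n ≤ K
    · exact hsmall n hn
    · obtain ⟨n, rfl⟩ : ∃ k, n = k + 1 := ⟨n - 1, by omega⟩
      have h1 := hrec n
      have h2 : ∑ k ∈ Finset.range (n + 1), s k * (C' * (1 / 2) ^ (n - k)) ≤ C * C' * 2 := by
        have h3 : ∑ k ∈ Finset.range (n + 1), s k * (C' * (1 / 2) ^ (n - k)) ≤
            ∑ k ∈ Finset.range (n + 1), C * C' * (1 / 2) ^ (n - k) := by
          refine Finset.sum_le_sum fun k hk => ?_
          have h9 := mul_le_mul_of_nonneg_right (ih k (Finset.mem_range.mp hk))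
            (by positivity : (0 : ℝ) ≤ C' * (1 / 2) ^ (n - k))
          exact h9.trans (le_of_eq (by ring))
        refine le_trans h3 ?_
        rw [← Finset.mul_sum]
        refine mul_le_mul_of_nonneg_left ?_ (mul_pos hCpos hC').le
        have h4 : ∑ k ∈ Finset.range (n + 1), ((1 : ℝ) / 2) ^ (n - k) =
            ∑ k ∈ Finset.range (n + 1), ((1 : ℝ) / 2) ^ k := by
          rw [← Finset.sum_range_reflect]
          refine Finset.sum_congr rfl fun k hk => ?_
          congr 1
          have := Finset.mem_range.mp hk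
          omega
        rw [h4]
        have h5 := Summable.sum_le_tsum (Finset.range (n + 1))
          (fun (k : ℕ) _ => (by positivity : (0 : ℝ) ≤ (1 / 2) ^ k)) summable_geometric_two
        rw [tsum_geometric_two] at h5
        exact h5
      have hn1 : (0 : ℝ) < (n : ℝ) + 1 := by positivity
      have h6 : (K : ℝ) ≤ (n : ℝ) + 1 := by
        have : K ≤ n + 1 := by omega
        exact_mod_cast this
      have h7 : ((n : ℝ) + 1) * s (n + 1) ≤ ((n : ℝ) + 1) * C := by
        refine le_trans h1 (le_trans (mul_le_mul_of_nonneg_left h2 hR0.le) ?_)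
        have : R * (C * C' * 2) = (2 * R * C') * C := by ring
        rw [this]
        exact mul_le_mul_of_nonneg_right (hK.trans h6) hCpos.le
      exact le_of_mul_le_mul_left h7 hn1

theorem exists_n0 (m : ℕ) : ∃ n, m ≤ n ∧ 1 ≤ n ∧ im m n * 2 ^ (n + 2) ≤ n.factorial := by
  rcases m with _ | m
  · exact ⟨1, by omega, le_rfl, by simp [im]⟩
  · obtain ⟨C, hC, hb⟩ := im_decay m 4 (by norm_num)
    obtain ⟨n1, hn1⟩ := pow_unbounded_of_one_lt (4 * C) (by norm_num : (1 : ℝ) < 2)
    set n := max n1 (m + 1) with hn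
    refine ⟨n, le_max_right _ _, by omega, ?_⟩
    have h2 : 4 * C ≤ 2 ^ n := hn1.le.trans (pow_le_pow_right₀ (by norm_num) (le_max_left _ _))
    have hf : (0 : ℝ) < n.factorial := by exact_mod_cast Nat.factorial_pos n
    have h3 := hb n
    have h4 : (im (m + 1) n : ℝ) * 4 ^ n ≤ C * n.factorial := by
      rw [div_mul_eq_mul_div, div_le_iff₀ hf] at h3
      exact h3
    have h5 : ((im (m + 1) n * 2 ^ (n + 2) : ℕ) : ℝ) ≤ (n.factorial : ℕ) := by
      push_cast
      have h6 : (0 : ℝ) < 2 ^ n := by positivity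
      refine le_of_mul_le_mul_right ?_ h6
      have h7 : (im (m + 1) n : ℝ) * 2 ^ (n + 2) * 2 ^ n = 4 * ((im (m + 1) n : ℝ) * 4 ^ n) := by
        have : (4 : ℝ) ^ n = 2 ^ n * 2 ^ n := by
          rw [← mul_pow]; norm_num
        rw [this, pow_add]; ring
      rw [h7]
      calc 4 * ((im (m + 1) n : ℝ) * 4 ^ n) ≤ 4 * (C * n.factorial) := by linarith
        _ = n.factorial * (4 * C) := by ring
        _ ≤ n.factorial * 2 ^ n := mul_le_mul_of_nonneg_left h2 hf.le
    exact_mod_cast h5

open Classical in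
/-- `n₀(m)` -/
noncomputable def n0 (m : ℕ) : ℕ := Nat.find (exists_n0 m)

theorem n0_spec (m : ℕ) : m ≤ n0 m ∧ 1 ≤ n0 m ∧ im m (n0 m) * 2 ^ (n0 m + 2) ≤ (n0 m).factorial :=
  Nat.find_spec (exists_n0 m)

end Pool.Agent.GGS
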