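import Pool.Agent.GGS.Span

/-!
# The PBW lemma (paper, section 2), dual form

Reduce to functions which vanish outside `P` (replace `f` by `f` on `P`, `0` outside; it is
left `V`-invariant on `G`, and nothing changes for lists of elements of `P`); then `exists_small`.
Induct on the weight `wl w l` (finitely many values above the bound of `exists_small`, because lengths
are bounded and `W` has finitely many values above any positive number: for fixed weight `b ≤ t` all lists
of smaller weight are done), and, for fixed weight, on the length.  Use `dif_mul_mid`, `dif_swap_mid`,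
`dif_pow_p`, `dif_cons_inv`, `chain_span`.  A factor `1` gives `0` (`dif_one_cons`).
-/

namespace Pool.Agent.GGS

universe u

variable {p : ℕ} {G : Type u} [Group G] (w : WG p G)

lemma pbw_wl_perm {l l' : List G} (h : l.Perm l') : wl w l = wl w l' := by
  unfold wl
  exact (h.map w.W).prod_eq

lemma pbw_vals_finite {a : ℝ} (ha : 0 < a) :
    {b : ℝ | a < b ∧ ∃ l : List G, wl w l = b}.Finite := by
  have hR := W_values_finite w ha
  obtain ⟨K, hK⟩ := exists_pow_lt_of_lt_one ha w.wm_lt
  have hfin : {l : List {r : ℝ | a < r ∧ ∃ g, w.W g = r} | l.length < K}.Finite := by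
    have : Finite {r : ℝ | a < r ∧ ∃ g, w.W g = r} := hR.to_subtype
    exact List.finite_length_lt _ K
  refine (hfin.image fun l => (l.map Subtype.val).prod).subset ?_
  rintro b ⟨hb, l, hl⟩
  have hlen : l.length < K := by
    by_contra hcon
    push Not at hcon
    have h1 := wl_le_pow w l
    have h2 : w.wm ^ l.length ≤ w.wm ^ K :=
      pow_le_pow_of_le_one w.wm_pos.le w.wm_lt.le hcon
    linarith
  have hmem : ∀ g ∈ l, a < w.W g := by
    intro g hg
    obtain ⟨l₁, l₂, rfl⟩ := List.append_of_mem hg
    rw [wl_append, wl_cons] at hl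
    have h1 : wl w l₁ * (w.W g * wl w l₂) ≤ w.W g := by
      have e1 := wl_le_one w l₁
      have e2 := wl_le_one w l₂
      have e3 := wl_nonneg w l₁
      have e4 := wl_nonneg w l₂
      have e5 := w.nonneg g
      calc wl w l₁ * (w.W g * wl w l₂) ≤ 1 * (w.W g * 1) := by
            apply mul_le_mul e1 _ (mul_nonneg e5 e4) zero_le_one
            exact mul_le_mul_of_nonneg_left e2 e5
        _ = w.W g := by ring
    linarith
  refine ⟨l.pmap (fun g hg => ⟨w.W g, hg, g, rfl⟩) hmem, ?_, ?_⟩
  · simpa using hlen
  · rw [← hl]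
    simp only [List.map_pmap]
    unfold wl
    congr 1
    exact List.pmap_eq_map hmem

section core

variable {w}
variable [Fact p.Prime] {P V : Subgroup G} {L : List (G × ℝ)} {f : G → ZMod p} {b : ℝ} {k : ℕ}

/-- first order expansion of a product -/
lemma pbw_prod (hb0 : 0 < b)
    (IH1 : ∀ l : List G, (∀ g ∈ l, g ∈ P) → wl w l < b → dif l f 1 = 0)
    {L₁ L₂ : List G} (hL₁ : ∀ g ∈ L₁, g ∈ P) (hL₂ : ∀ g ∈ L₂, g ∈ P) {r : ℝ}
    (hr0 : 0 ≤ r) (hr : wl w L₁ * r * wl w L₂ ≤ b) (ys : List G) (hys : ∀ y ∈ ys, y ∈ P)
    (hyr : ∀ y ∈ ys, w.W y ≤ r) (h0 : ∀ y ∈ ys, dif (L₁ ++ y :: L₂) f 1 = 0) :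
    dif (L₁ ++ ys.prod :: L₂) f 1 = 0 := by
  have hprod : ∀ ys : List G, (∀ y ∈ ys, y ∈ P) → (∀ y ∈ ys, w.W y ≤ r) →
      ys.prod ∈ P ∧ w.W ys.prod ≤ r := by
    intro ys
    induction ys with
    | nil =>
      intro _ _
      exact ⟨P.one_mem, by rw [List.prod_nil, w.one]; exact hr0⟩
    | cons y ys ih =>
      intro h1 h2
      obtain ⟨h3, h4⟩ := ih (fun z hz => h1 z (List.mem_cons_of_mem _ hz))
        (fun z hz => h2 z (List.mem_cons_of_mem _ hz))
      rw [List.prod_cons]
      exact ⟨P.mul_mem (h1 y List.mem_cons_self) h3,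
        (w.mul _ _).trans (max_le (h2 y List.mem_cons_self) h4)⟩
  induction ys with
  | nil =>
    rw [List.prod_nil, dif_append, dif_one_cons, dif_zero]
    rfl
  | cons y ys ih =>
    have hy := hys y List.mem_cons_self
    have hyr' := hyr y List.mem_cons_self
    have hys' : ∀ z ∈ ys, z ∈ P := fun z hz => hys z (List.mem_cons_of_mem _ hz)
    have hyr2 : ∀ z ∈ ys, w.W z ≤ r := fun z hz => hyr z (List.mem_cons_of_mem _ hz)
    obtain ⟨h3, h4⟩ := hprod ys hys' hyr2
    rw [List.prod_cons, dif_mul_mid]
    simp only [Pi.add_apply]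
    rw [h0 y List.mem_cons_self, ih hys' hyr2 fun z hz => h0 z (List.mem_cons_of_mem _ hz),
      zero_add, zero_add]
    apply IH1
    · intro g hg
      rcases List.mem_append.1 hg with hg | hg
      · exact hL₁ g hg
      · rcases List.mem_cons.1 hg with rfl | hg
        · exact hy
        · rcases List.mem_cons.1 hg with rfl | hg
          · exact h3
          · exact hL₂ g hg
    · rw [wl_append, wl_cons, wl_cons]
      have e1 := wl_nonneg w L₁
      have e2 := wl_nonneg w L₂
      have e3 : w.W ys.prod ≤ w.wm := w.le_wm _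
      have e4 := w.nonneg y
      have e5 := w.nonneg ys.prod
      have e6 : wl w L₁ * (w.W y * (w.W ys.prod * wl w L₂)) ≤
          w.wm * (wl w L₁ * r * wl w L₂) := by
        have e7 : w.W y * w.W ys.prod ≤ r * w.wm := mul_le_mul hyr' e3 e5 hr0
        have e8 : wl w L₁ * (w.W y * (w.W ys.prod * wl w L₂)) =
            (wl w L₁ * wl w L₂) * (w.W y * w.W ys.prod) := by ring
        have e9 : w.wm * (wl w L₁ * r * wl w L₂) = (wl w L₁ * wl w L₂) * (r * w.wm) := by ring
        rw [e8, e9]
        exact mul_le_mul_of_nonneg_left e7 (mul_nonneg e1 e2)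
      have e10 : w.wm * (wl w L₁ * r * wl w L₂) ≤ w.wm * b :=
        mul_le_mul_of_nonneg_left hr w.wm_pos.le
      have e11 : w.wm * b < b := by
        have := mul_lt_mul_of_pos_right w.wm_lt hb0
        linarith
      linarith

/-- factors may be permuted -/
lemma pbw_perm (hb0 : 0 < b)
    (IH1 : ∀ l : List G, (∀ g ∈ l, g ∈ P) → wl w l < b → dif l f 1 = 0)
    (IH2 : ∀ l : List G, (∀ g ∈ l, g ∈ P) → wl w l ≤ b → l.length < k → dif l f 1 = 0)
    {l l' : List G} (hp : l.Perm l') : ∀ L₁ : List G, (∀ g ∈ L₁, g ∈ P) → (∀ g ∈ l, g ∈ P) →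
      wl w (L₁ ++ l) ≤ b → (L₁ ++ l).length ≤ k → dif (L₁ ++ l) f 1 = dif (L₁ ++ l') f 1 := by
  induction hp with
  | nil => intro L₁ _ _ _ _; rfl
  | @cons x l l' hp ih =>
    intro L₁ h1 h2 h3 h4
    have h5 := ih (L₁ ++ [x])
    simp only [List.append_assoc, List.singleton_append] at h5
    refine h5 ?_ (fun g hg => h2 g (List.mem_cons_of_mem _ hg)) h3 h4
    intro g hg
    rcases List.mem_append.1 hg with hg | hg
    · exact h1 g hg
    · rw [List.mem_singleton] at hg
      subst hg
      exact h2 g List.mem_cons_self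
  | @swap x y l =>
    intro L₁ h1 h2 h3 h4
    have hy : y ∈ P := h2 y List.mem_cons_self
    have hx : x ∈ P := h2 x (List.mem_cons_of_mem _ List.mem_cons_self)
    have hl : ∀ g ∈ l, g ∈ P := fun g hg =>
      h2 g (List.mem_cons_of_mem _ (List.mem_cons_of_mem _ hg))
    have hc : y * x * y⁻¹ * x⁻¹ ∈ P :=
      P.mul_mem (P.mul_mem (P.mul_mem hy hx) (P.inv_mem hy)) (P.inv_mem hx)
    rw [dif_swap_mid]
    simp only [Pi.add_apply]
    rw [wl_append, wl_cons, wl_cons] at h3
    have e1 := wl_nonneg w L₁
    have e2 := wl_nonneg w l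
    have hcw := w.comm y x
    have t1 : dif (L₁ ++ y * x * y⁻¹ * x⁻¹ :: l) f 1 = 0 := by
      apply IH2
      · intro g hg
        rcases List.mem_append.1 hg with hg | hg
        · exact h1 g hg
        · rcases List.mem_cons.1 hg with rfl | hg
          · exact hc
          · exact hl g hg
      · rw [wl_append, wl_cons]
        calc wl w L₁ * (w.W (y * x * y⁻¹ * x⁻¹) * wl w l)
            ≤ wl w L₁ * ((w.W y * w.W x) * wl w l) := by
              apply mul_le_mul_of_nonneg_left _ e1
              exact mul_le_mul_of_nonneg_right hcw e2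
          _ = wl w L₁ * (w.W y * (w.W x * wl w l)) := by ring
          _ ≤ b := h3
      · simp only [List.length_append, List.length_cons] at h4 ⊢
        omega
    have t2 : dif (L₁ ++ y * x * y⁻¹ * x⁻¹ :: x * y :: l) f 1 = 0 := by
      apply IH1
      · intro g hg
        rcases List.mem_append.1 hg with hg | hg
        · exact h1 g hg
        · rcases List.mem_cons.1 hg with rfl | hg
          · exact hc
          · rcases List.mem_cons.1 hg with rfl | hg
            · exact P.mul_mem hx hy
            · exact hl g hg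
      · rw [wl_append, wl_cons, wl_cons]
        have e3 : w.W (x * y) ≤ w.wm := w.le_wm _
        have e4 := w.nonneg (x * y)
        calc wl w L₁ * (w.W (y * x * y⁻¹ * x⁻¹) * (w.W (x * y) * wl w l))
            ≤ wl w L₁ * ((w.W y * w.W x) * (w.wm * wl w l)) := by
              apply mul_le_mul_of_nonneg_left _ e1
              apply mul_le_mul hcw (mul_le_mul_of_nonneg_right e3 e2) (mul_nonneg e4 e2)
              exact mul_nonneg (w.nonneg y) (w.nonneg x)
          _ = w.wm * (wl w L₁ * (w.W y * (w.W x * wl w l))) := by ring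
          _ ≤ w.wm * b := mul_le_mul_of_nonneg_left h3 w.wm_pos.le
          _ < b := by
            have := mul_lt_mul_of_pos_right w.wm_lt hb0
            linarith
    rw [t1, t2, add_zero, add_zero]
  | @trans l₁ l₂ l₃ hp1 hp2 ih1 ih2 =>
    intro L₁ h1 h2 h3 h4
    rw [ih1 L₁ h1 h2 h3 h4]
    apply ih2 L₁ h1
    · exact fun g hg => h2 g (hp1.mem_iff.2 hg)
    · rw [← pbw_wl_perm w (hp1.append_left L₁)]
      exact h3
    · rw [← (hp1.append_left L₁).length_eq]
      exact h4

/-- lists of indices in sorted form -/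
lemma pbw_sort {n : ℕ} (l : List (Fin n)) :
    l.Perm ((List.finRange n).flatMap fun i => List.replicate (l.count i) i) := by
  classical
  rw [List.perm_iff_count]
  intro j
  rw [List.count_flatMap]
  have h1 : (List.map (List.count j ∘ fun i => List.replicate (l.count i) i)
      (List.finRange n)) = (List.finRange n).map fun i => if i = j then l.count j else 0 := by
    apply List.map_congr_left
    intro i _
    simp only [Function.comp, List.count_replicate]
    by_cases h : i = j
    · subst h; simp
    · simp [h]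
  rw [h1, ← List.ofFn_eq_map, List.sum_ofFn]
  simp

omit [Fact p.Prime] in
lemma pbw_wl_mono (h : Chain w P V L) (a : Fin L.length → ℕ) :
    wl w ((List.finRange L.length).flatMap fun i => List.replicate (a i) (L.get i).1) =
      ∏ i, (L.get i).2 ^ (a i) := by
  have h1 : ∀ s : List (Fin L.length),
      wl w (s.flatMap fun i => List.replicate (a i) (L.get i).1) =
      (s.map fun i => (L.get i).2 ^ (a i)).prod := by
    intro s
    induction s with
    | nil => simp
    | cons i s ih =>
      rw [List.flatMap_cons, wl_append, ih, List.map_cons, List.prod_cons]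
      congr 1
      have h2 := (chain_mem w h (L.get i) (List.get_mem L i)).2.1
      unfold wl
      rw [List.map_replicate, List.prod_replicate, h2]
  rw [h1, ← List.ofFn_eq_map, List.prod_ofFn]

/-- one level of the induction -/
lemma pbw_step (h : Chain w P V L) (hf : ∀ v ∈ V, ∀ g, f (v * g) = f g) {t : ℝ}
    (h0 : ∀ a : Fin L.length → Fin p, mw L a ≤ t → dif (mono L a) f 1 = 0)
    (hb0 : 0 < b) (hbt : b ≤ t)
    (IH1 : ∀ l : List G, (∀ g ∈ l, g ∈ P) → wl w l < b → dif l f 1 = 0)
    (IH2 : ∀ l : List G, (∀ g ∈ l, g ∈ P) → wl w l ≤ b → l.length < k → dif l f 1 = 0) :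
    ∀ l : List G, (∀ g ∈ l, g ∈ P) → wl w l ≤ b → l.length ≤ k → dif l f 1 = 0 := by
  classical
  have hVP : V ≤ P := chain_le w h
  have hp : p.Prime := Fact.out
  have hgP : ∀ i : Fin L.length, (L.get i).1 ∈ P := fun i =>
    (chain_mem w h (L.get i) (List.get_mem L i)).1
  -- lists of basic elements
  have hB : ∀ l : List G, (∀ g ∈ l, g ∈ V ∨ ∃ i : Fin L.length, g = (L.get i).1) →
      wl w l ≤ b → l.length ≤ k → dif l f 1 = 0 := by
    intro l hl hlb hlk
    have hlP : ∀ g ∈ l, g ∈ P := by
      intro g hg
      rcases hl g hg with h1 | ⟨i, rfl⟩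
      · exact hVP h1
      · exact hgP i
    have hperm : ∀ l' : List G, l.Perm l' → dif l f 1 = dif l' f 1 := by
      intro l' hp
      have := pbw_perm (k := k) hb0 IH1 IH2 hp [] (by simp) hlP hlb hlk
      simpa using this
    by_cases hv : ∃ v ∈ l, v ∈ V
    · obtain ⟨v, hvl, hvV⟩ := hv
      rw [hperm _ (List.perm_cons_erase hvl)]
      exact dif_cons_inv hf hvV _
    · push Not at hv
      have hidx : ∃ s : List (Fin L.length), l = s.map fun i => (L.get i).1 := by
        have hl' : ∀ g ∈ l, ∃ i : Fin L.length, g = (L.get i).1 := by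
          intro g hg
          rcases hl g hg with h1 | h1
          · exact absurd h1 (hv g hg)
          · exact h1
        clear hperm hlP hlk hlb hl hv
        induction l with
        | nil => exact ⟨[], rfl⟩
        | cons x l ih =>
          obtain ⟨s, hs⟩ := ih fun g hg => hl' g (List.mem_cons_of_mem _ hg)
          obtain ⟨i, hi⟩ := hl' x List.mem_cons_self
          exact ⟨i :: s, by rw [List.map_cons, hs, hi]⟩
      obtain ⟨s, rfl⟩ := hidx
      by_cases hbig : ∃ i : Fin L.length, p ≤ s.count i
      · obtain ⟨i, hi⟩ := hbig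
        have hsub : (List.replicate p i).Sublist s := List.replicate_sublist_iff.2 hi
        obtain ⟨r, hr⟩ := List.Sublist.exists_perm_append hsub
        have hr2 := hr.map fun i => (L.get i).1
        rw [hperm _ hr2, List.map_append, List.map_replicate, dif_pow_p]
        have hmem : ∀ g ∈ r.map (fun i => (L.get i).1), g ∈ P := by
          intro g hg
          obtain ⟨j, _, rfl⟩ := List.mem_map.1 hg
          exact hgP j
        apply IH2
        · intro g hg
          rcases List.mem_cons.1 hg with rfl | hg
          · exact P.pow_mem (hgP i) p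
          · exact hmem g hg
        · rw [pbw_wl_perm w hr2, List.map_append, List.map_replicate, wl_append] at hlb
          have e1 : wl w (List.replicate p (L.get i).1) = w.W (L.get i).1 ^ p := by
            unfold wl
            rw [List.map_replicate, List.prod_replicate]
          rw [e1] at hlb
          rw [wl_cons]
          exact (mul_le_mul_of_nonneg_right (w.pow _) (wl_nonneg w _)).trans hlb
        · have e2 := hr2.length_eq
          rw [List.map_append, List.map_replicate, List.length_append,
            List.length_replicate] at e2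
          rw [List.length_cons]
          have := hp.two_le
          omega
      · push Not at hbig
        have hs := (pbw_sort s).map fun i => (L.get i).1
        have e1 : ((List.finRange L.length).flatMap
            fun i => List.replicate (s.count i) i).map (fun i => (L.get i).1) =
            mono L fun i => ⟨s.count i, hbig i⟩ := by
          unfold mono
          rw [List.map_flatMap]
          simp only [List.map_replicate]
        rw [e1] at hs
        rw [hperm _ hs]
        apply h0
        refine le_trans (le_of_eq ?_) (hlb.trans hbt)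
        rw [pbw_wl_perm w hs]
        exact (pbw_wl_mono h fun i => s.count i).symm
  -- general lists
  have hC : ∀ L₂ : List G, ∀ L₁ : List G,
      (∀ g ∈ L₁, g ∈ V ∨ ∃ i : Fin L.length, g = (L.get i).1) → (∀ g ∈ L₂, g ∈ P) →
      wl w (L₁ ++ L₂) ≤ b → (L₁ ++ L₂).length ≤ k → dif (L₁ ++ L₂) f 1 = 0 := by
    intro L₂
    induction L₂ with
    | nil =>
      intro L₁ h1 _ h3 h4
      rw [List.append_nil] at h3 h4 ⊢
      exact hB L₁ h1 h3 h4
    | cons x L₂ ih =>
      intro L₁ h1 h2 h3 h4
      have hx : x ∈ P := h2 x List.mem_cons_self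
      have hL₂ : ∀ g ∈ L₂, g ∈ P := fun g hg => h2 g (List.mem_cons_of_mem _ hg)
      have hL₁ : ∀ g ∈ L₁, g ∈ P := by
        intro g hg
        rcases h1 g hg with h5 | ⟨i, rfl⟩
        · exact hVP h5
        · exact hgP i
      obtain ⟨v, hv, a, hxa, hvw, haw⟩ := chain_span w h x hx
      set ys : List G := v :: (List.finRange L.length).flatMap
        fun i => List.replicate (a i : ℕ) (L.get i).1 with hys
      have hprod : ys.prod = x := by
        rw [hys, List.prod_cons, hxa]
        congr 1
        have : ∀ s : List (Fin L.length),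
            (s.flatMap fun i => List.replicate (a i : ℕ) (L.get i).1).prod =
            (s.map fun i => (L.get i).1 ^ (a i : ℕ)).prod := by
          intro s
          induction s with
          | nil => simp
          | cons i s ih => rw [List.flatMap_cons, List.prod_append, ih, List.map_cons,
              List.prod_cons, List.prod_replicate]
        exact this _
      have hbas : ∀ y ∈ ys, (y ∈ V ∨ ∃ i : Fin L.length, y = (L.get i).1) ∧ w.W y ≤ w.W x := by
        intro y hy
        rw [hys] at hy
        rcases List.mem_cons.1 hy with rfl | hy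
        · exact ⟨Or.inl hv, hvw⟩
        · obtain ⟨i, _, hi⟩ := List.mem_flatMap.1 hy
          rw [List.mem_replicate] at hi
          refine ⟨Or.inr ⟨i, hi.2⟩, ?_⟩
          rw [hi.2, (chain_mem w h (L.get i) (List.get_mem L i)).2.1]
          exact haw i hi.1
      rw [← hprod]
      have h3' := h3
      rw [wl_append, wl_cons] at h3'
      apply pbw_prod hb0 IH1 hL₁ hL₂ (w.nonneg x) (by rw [mul_assoc]; exact h3') ys
      · intro y hy
        rcases (hbas y hy).1 with h5 | ⟨i, rfl⟩
        · exact hVP h5
        · exact hgP i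
      · exact fun y hy => (hbas y hy).2
      · intro y hy
        have h6 := ih (L₁ ++ [y])
        simp only [List.append_assoc, List.singleton_append] at h6
        apply h6
        · intro g hg
          rcases List.mem_append.1 hg with hg | hg
          · exact h1 g hg
          · rw [List.mem_singleton] at hg
            subst hg
            exact (hbas g hy).1
        · exact hL₂
        · rw [wl_append, wl_cons]
          refine le_trans ?_ h3'
          apply mul_le_mul_of_nonneg_left _ (wl_nonneg w L₁)
          exact mul_le_mul_of_nonneg_right (hbas y hy).2 (wl_nonneg w L₂)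
        · simpa using h4
  intro l h1 h2 h3
  exact hC l [] (by simp) h1 h2 h3

lemma pbw_level (h : Chain w P V L) (hf : ∀ v ∈ V, ∀ g, f (v * g) = f g) {t : ℝ}
    (h0 : ∀ a : Fin L.length → Fin p, mw L a ≤ t → dif (mono L a) f 1 = 0)
    (hb0 : 0 < b) (hbt : b ≤ t)
    (IH1 : ∀ l : List G, (∀ g ∈ l, g ∈ P) → wl w l < b → dif l f 1 = 0) :
    ∀ l : List G, (∀ g ∈ l, g ∈ P) → wl w l ≤ b → dif l f 1 = 0 := by
  have key : ∀ k : ℕ, ∀ l : List G, (∀ g ∈ l, g ∈ P) → wl w l ≤ b → l.length ≤ k →
      dif l f 1 = 0 := by
    intro k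
    induction k with
    | zero =>
      exact pbw_step h hf h0 hb0 hbt IH1 fun l _ _ hl => absurd hl (Nat.not_lt_zero _)
    | succ k ih =>
      exact pbw_step h hf h0 hb0 hbt IH1 fun l h1 h2 hl => ih l h1 h2 (Nat.lt_succ_iff.1 hl)
  exact fun l h1 h2 => key l.length l h1 h2 le_rfl

lemma pbw_core (h : Chain w P V L) (hV : Op w V) (hf : ∀ v ∈ V, ∀ g, f (v * g) = f g) {t : ℝ}
    (h0 : ∀ a : Fin L.length → Fin p, mw L a ≤ t → dif (mono L a) f 1 = 0) (l : List G)
    (hl : ∀ g ∈ l, g ∈ P) (hlt : wl w l ≤ t) : dif l f 1 = 0 := by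
  obtain ⟨a, ha, hsm⟩ := exists_small w hV
  have hfin := pbw_vals_finite w ha
  have key : ∀ n : ℕ, ∀ l : List G, (∀ g ∈ l, g ∈ P) → wl w l ≤ t →
      ({c ∈ {b : ℝ | a < b ∧ ∃ l : List G, wl w l = b} | c < wl w l}).ncard = n →
      dif l f 1 = 0 := by
    intro n
    induction n using Nat.strong_induction_on with
    | _ n ih =>
      intro l h1 h2 h3
      rcases le_or_gt (wl w l) a with h4 | h4
      · rw [hsm f hf l h4]; rfl
      · refine pbw_level (b := wl w l) h hf h0 (ha.trans h4) h2 ?_ l h1 le_rfl
        intro l' h5 h6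
        rcases le_or_gt (wl w l') a with h7 | h7
        · rw [hsm f hf l' h7]; rfl
        · refine ih _ ?_ l' h5 (h6.le.trans h2) rfl
          rw [← h3]
          apply Set.ncard_lt_ncard _ (hfin.subset fun c hc => hc.1)
          refine ⟨fun c hc => ⟨hc.1, hc.2.trans h6⟩, fun hcon => ?_⟩
          have := hcon (a := wl w l') ⟨⟨h7, l', rfl⟩, h6⟩
          exact lt_irrefl _ this.2
  exact key _ l hl hlt rfl

end core

theorem pbw [Fact p.Prime] {P V : Subgroup G} {L : List (G × ℝ)} (h : Chain w P V L)
    (hV : Op w V) (f : G → ZMod p) (hf : ∀ v ∈ V, ∀ g ∈ P, f (v * g) = f g) (t : ℝ)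
    (h0 : ∀ a : Fin L.length → Fin p, mw L a ≤ t → dif (mono L a) f 1 = 0)
    (l : List G) (hl : ∀ g ∈ l, g ∈ P) (hlt : wl w l ≤ t) : dif l f 1 = 0 := by
  classical
  have hVP : V ≤ P := chain_le w h
  have hloc : ∀ l : List G, (∀ g ∈ l, g ∈ P) → ∀ g ∈ P,
      dif l (fun g => if g ∈ P then f g else 0) g = dif l f g := by
    intro l
    induction l with
    | nil =>
      intro _ g hg
      simp only [dif_nil]
      rw [if_pos hg]
    | cons x l ih =>
      intro h1 g hg
      have h2 := ih fun y hy => h1 y (List.mem_cons_of_mem _ hy)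
      rw [dif_cons, dif_cons, h2 _ (P.mul_mem hg (h1 x List.mem_cons_self)), h2 g hg]
  rw [← hloc l hl 1 P.one_mem]
  refine pbw_core h hV ?_ ?_ l hl hlt
  · intro v hv g
    by_cases hg : g ∈ P
    · simp only [hg, P.mul_mem (hVP hv) hg, if_true]
      exact hf v hv g hg
    · have : v * g ∉ P := fun hcon => hg (by
        have := P.mul_mem (P.inv_mem (hVP hv)) hcon
        rwa [inv_mul_cancel_left] at this)
      simp only [hg, this, if_false]
  · intro a ha
    rw [hloc (mono L a) ?_ 1 P.one_mem]
    · exact h0 a ha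
    · intro g hg
      unfold mono at hg
      obtain ⟨i, _, hi⟩ := List.mem_flatMap.1 hg
      rw [List.mem_replicate] at hi
      rw [hi.2]
      exact (chain_mem w h (L.get i) (List.get_mem L i)).1

end Pool.Agent.GGS
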