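import Pool.Agent.GGS.AlgDef
import Pool.Agent.GGS.SwBas

/-!
# Reduction to good words (paper, 10.1)

Strong induction on `u` in the lexicographic order (finitely many words of length `N`).
-/

namespace Pool.Agent.GGS

open Ser

section monomials

variable {p : ℕ} {X : Type*}

lemma pia_lder_mon [DecidableEq X] (x y : X) (u : List X) :
    lder y (mon (x :: u) : Ser p X) = if y = x then mon u else 0 := by
  classical
  ext t
  by_cases h : y = x
  · subst h
    simp [mon]
  · simp [mon, h]

lemma pia_mon_mul (u v : List X) : (mon u : Ser p X) * mon v = mon (u ++ v) := by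
  classical
  induction u with
  | nil =>
    rw [List.nil_append, ← one_def, one_mul]
  | cons x u ih =>
    ext t
    cases t with
    | nil => simp [mon]
    | cons y t =>
      rw [mul_cons, pia_lder_mon]
      have h0 : (mon (x :: u) : Ser p X) [] = 0 := by simp [mon]
      rw [h0, zero_mul, zero_add]
      by_cases h : y = x
      · subst h
        rw [if_pos rfl, ih]
        simp [mon]
      · rw [if_neg h, zero_mul]
        simp [mon, h]

end monomials

variable {p : ℕ} {Z : Type} [Fintype Z] [LinearOrder Z] {ι : Type}

/-- the span of the words in a set -/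
noncomputable def piaS (p : ℕ) {Z : Type} (A : Set (List Z)) : Submodule (ZMod p) (Ser p Z) :=
  Submodule.span (ZMod p) {f : Ser p Z | ∃ u ∈ A, f = mon u}

section spans

omit [Fintype Z] [LinearOrder Z]

lemma piaS_mon {A : Set (List Z)} {u : List Z} (h : u ∈ A) : (mon u : Ser p Z) ∈ piaS p A :=
  Submodule.subset_span ⟨u, h, rfl⟩

lemma piaS_mono {A B : Set (List Z)} (h : A ⊆ B) : piaS p A ≤ piaS p B :=
  Submodule.span_mono fun _ ⟨u, hu, hf⟩ => ⟨u, h hu, hf⟩

lemma piaS_le {A : Set (List Z)} {M : Submodule (ZMod p) (Ser p Z)}
    (h : ∀ u ∈ A, (mon u : Ser p Z) ∈ M) : piaS p A ≤ M := by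
  refine Submodule.span_le.2 ?_
  rintro _ ⟨u, hu, rfl⟩
  exact h u hu

lemma piaS_mul {A B C : Set (List Z)} (h : ∀ u ∈ A, ∀ v ∈ B, u ++ v ∈ C) {f g : Ser p Z}
    (hf : f ∈ piaS p A) (hg : g ∈ piaS p B) : f * g ∈ piaS p C := by
  have h1 : ∀ u ∈ A, (mon u : Ser p Z) * g ∈ piaS p C := by
    intro u hu
    induction hg using Submodule.span_induction with
    | mem x hx =>
      obtain ⟨v, hv, rfl⟩ := hx
      rw [pia_mon_mul]
      exact piaS_mon (h u hu v hv)
    | zero => rw [mul_zero]; exact Submodule.zero_mem _
    | add x y _ _ hx hy => rw [mul_add]; exact Submodule.add_mem _ hx hy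
    | smul a x _ hx => rw [mul_smul_comm]; exact Submodule.smul_mem _ _ hx
  induction hf using Submodule.span_induction with
  | mem x hx =>
    obtain ⟨u, hu, rfl⟩ := hx
    exact h1 u hu
  | zero => rw [zero_mul]; exact Submodule.zero_mem _
  | add x y _ _ hx hy => rw [add_mul]; exact Submodule.add_mem _ hx hy
  | smul a x _ hx => rw [smul_mul_assoc]; exact Submodule.smul_mem _ _ hx

end spans

/-- leading word of a block commutator: `lieW` of a block `v` is `v` plus words of the same letters (a permutation of
`v`) with smaller first letter -/
theorem lieW_block (v : List Z) (hv : IsBlock v) :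
    (lieW (fun a => (mon [a] : Ser p Z)) v - mon v) ∈ Submodule.span (ZMod p)
      {f : Ser p Z | ∃ u : List Z, u.Perm v ∧ (∀ a ∈ u.head?, ∀ b ∈ v.head?, a < b) ∧
        f = mon u} := by
  obtain ⟨a, l, rfl, hl⟩ := hv
  have key : (lieW (fun a => (mon [a] : Ser p Z)) (a :: l) - mon (a :: l)) ∈
      piaS p {u : List Z | u.Perm (a :: l) ∧ ∀ a' ∈ u.head?, a' < a} := by
    induction l using List.reverseRecOn with
    | nil =>
      have : lieW (fun a => (mon [a] : Ser p Z)) [a] - mon [a] = 0 := by
        simp [lieW]
      rw [this]
      exact Submodule.zero_mem _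
    | append_singleton l b ih =>
      have hb : b < a := hl b (by simp)
      have ih' := ih fun c hc => hl c (by simp [hc])
      set x := lieW (fun a => (mon [a] : Ser p Z)) (a :: l) with hx
      have h1 : lieW (fun a => (mon [a] : Ser p Z)) (a :: (l ++ [b])) =
          x * mon [b] - mon [b] * x := by
        rw [hx]
        simp [lieW, List.foldl_append]
      have h2 : (mon (a :: (l ++ [b])) : Ser p Z) = mon (a :: l) * mon [b] := by
        rw [pia_mon_mul]; rfl
      have h3 : x * mon [b] - mon [b] * x - mon (a :: l) * mon [b] =
          (x - mon (a :: l)) * mon [b] - mon [b] * (x - mon (a :: l)) -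
            mon [b] * mon (a :: l) := by
        noncomm_ring
      rw [h1, h2, h3]
      refine Submodule.sub_mem _ (Submodule.sub_mem _ ?_ ?_) ?_
      · refine piaS_mul (B := {[b]}) ?_ ih' (piaS_mon rfl)
        rintro u ⟨hu1, hu2⟩ v hv
        rw [Set.mem_singleton_iff] at hv
        subst hv
        refine ⟨by simpa using hu1.append_right [b], ?_⟩
        intro c hc
        have hne : u ≠ [] := by
          rintro rfl
          exact absurd hu1.length_eq (by simp)
        rw [List.head?_append_of_ne_nil _ hne] at hc
        exact hu2 c hc
      · refine piaS_mul (A := {[b]}) ?_ (piaS_mon rfl) ih'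
        rintro v hv u ⟨hu1, hu2⟩
        rw [Set.mem_singleton_iff] at hv
        subst hv
        refine ⟨?_, ?_⟩
        · have h4 : ([b] ++ u).Perm ([b] ++ (a :: l)) := hu1.append_left [b]
          refine h4.trans ?_
          have h5 : ([b] ++ (a :: l)).Perm ((a :: l) ++ [b]) := List.perm_append_comm
          exact h5
        · intro c hc
          simp at hc
          rwa [← hc]
      · rw [pia_mon_mul]
        refine piaS_mon ⟨List.perm_append_comm, ?_⟩
        intro c hc
        simp at hc
        rwa [← hc]
  refine Submodule.span_mono ?_ key
  rintro f ⟨u, ⟨hu1, hu2⟩, hf⟩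
  refine ⟨u, hu1, ?_, hf⟩
  intro a' ha' b hb
  simp at hb
  rw [← hb]
  exact hu2 a' ha'

/-- the product of the block commutators -/
lemma pia_prod (vs : List (List Z)) : ∀ ws : List (List Z), ws.Perm vs → (∀ v ∈ vs, IsBlock v) →
    (vs.Pairwise fun v v' => ∀ a ∈ v.head?, ∀ b ∈ v'.head?, b < a) →
    ((ws.map (lieW (fun a => (mon [a] : Ser p Z)))).prod ∈
      piaS p {u : List Z | u.Perm vs.flatten}) ∧
    (ws.map (lieW (fun a => (mon [a] : Ser p Z)))).prod - (if ws = vs then mon vs.flatten else 0) ∈
      piaS p {u : List Z | u.Perm vs.flatten ∧ u < vs.flatten} := by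
  classical
  induction vs with
  | nil =>
    intro ws hws _ _
    rw [List.perm_nil] at hws
    subst hws
    refine ⟨?_, ?_⟩
    · rw [List.map_nil, List.prod_nil, one_def]
      exact piaS_mon (List.Perm.refl _)
    · simp [one_def]
  | cons v vs ih =>
    intro ws hws hbl hpw
    have hblv := hbl v List.mem_cons_self
    have hbl' : ∀ w ∈ vs, IsBlock w := fun w hw => hbl w (List.mem_cons_of_mem _ hw)
    rw [List.pairwise_cons] at hpw
    obtain ⟨hpv, hpw'⟩ := hpw
    cases ws with
    | nil => exact absurd hws.length_eq (by simp)
    | cons w ws =>
      rw [List.map_cons, List.prod_cons]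
      have hblw : IsBlock w := hbl w (hws.mem_iff.1 List.mem_cons_self)
      have hlw := lieW_block (p := p) w hblw
      -- the full product of the other factors
      have hall : ∀ (vs' ws' : List (List Z)), ws'.Perm vs' → (∀ v ∈ vs', IsBlock v) →
          (ws'.map (lieW (fun a => (mon [a] : Ser p Z)))).prod ∈
            piaS p {u : List Z | u.Perm vs'.flatten} := by
        intro vs' ws'
        induction ws' generalizing vs' with
        | nil =>
          intro h1 _
          rw [List.nil_perm] at h1
          subst h1
          rw [List.map_nil, List.prod_nil, one_def]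
          exact piaS_mon (List.Perm.refl _)
        | cons w' ws' ih' =>
          intro h1 h2
          rw [List.map_cons, List.prod_cons]
          have hw' : w' ∈ vs' := h1.mem_iff.1 List.mem_cons_self
          have h3 : ws'.Perm (vs'.erase w') := (List.cons_perm_iff_perm_erase.1 h1).2
          have h4 := ih' (vs'.erase w') h3 fun v hv => h2 v (List.mem_of_mem_erase hv)
          have h5 : lieW (fun a => (mon [a] : Ser p Z)) w' ∈ piaS p {u : List Z | u.Perm w'} := by
            have h6 := lieW_block (p := p) w' (h2 w' hw')
            have h7 : lieW (fun a => (mon [a] : Ser p Z)) w' =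
              (lieW (fun a => (mon [a] : Ser p Z)) w' - mon w') + mon w' := by abel
            rw [h7]
            refine Submodule.add_mem _ (Submodule.span_mono ?_ h6) (piaS_mon (List.Perm.refl _))
            rintro f ⟨u, hu1, _, hf⟩
            exact ⟨u, hu1, hf⟩
          refine piaS_mul ?_ h5 h4
          intro u hu u' hu'
          change (u ++ u').Perm vs'.flatten
          have h8 : (w' :: vs'.erase w').Perm vs' := (List.perm_cons_erase hw').symm
          exact (List.Perm.append hu hu').trans (by simpa using h8.flatten)
      have hfirst : lieW (fun a => (mon [a] : Ser p Z)) w * (ws.map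
          (lieW (fun a => (mon [a] : Ser p Z)))).prod ∈
          piaS p {u : List Z | u.Perm (v :: vs).flatten} := by
        have := hall (v :: vs) (w :: ws) hws hbl
        rwa [List.map_cons, List.prod_cons] at this
      refine ⟨hfirst, ?_⟩
      obtain ⟨a, l, rfl, hl⟩ := hblv
      obtain ⟨b, l', rfl, hl'⟩ := hblw
      by_cases hvw : b :: l' = a :: l
      · rw [hvw] at hws hlw ⊢
        have hws' : ws.Perm vs := (List.perm_cons _).1 hws
        obtain ⟨ih1, ih2⟩ := ih ws hws' hbl' hpw'
        set x := lieW (fun a => (mon [a] : Ser p Z)) (a :: l) with hx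
        set y := (ws.map (lieW (fun a => (mon [a] : Ser p Z)))).prod with hy
        have h1 : x * y - (if (a :: l) :: ws = (a :: l) :: vs then
            mon ((a :: l) :: vs).flatten else 0) = (x - mon (a :: l)) * y +
            mon (a :: l) * (y - (if ws = vs then mon vs.flatten else 0)) := by
          have h2 : (if (a :: l) :: ws = (a :: l) :: vs then
              (mon ((a :: l) :: vs).flatten : Ser p Z) else 0) =
              mon (a :: l) * (if ws = vs then mon vs.flatten else 0) := by
            by_cases h3 : ws = vs
            · subst h3
              rw [if_pos rfl, if_pos rfl, pia_mon_mul]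
              rfl
            · rw [if_neg h3, if_neg, mul_zero]
              intro h4
              exact h3 (List.cons.inj h4).2
          rw [h2]
          noncomm_ring
        rw [h1]
        refine Submodule.add_mem _ ?_ ?_
        · refine piaS_mul (A := {u : List Z | u.Perm (a :: l) ∧ ∀ a' ∈ u.head?, a' < a}) ?_ ?_ ih1
          · rintro u ⟨hu1, hu2⟩ u' hu'
            refine ⟨by simpa using List.Perm.append hu1 hu', ?_⟩
            cases u with
            | nil => exact absurd hu1.length_eq (by simp)
            | cons d u =>
              have hd : d < a := hu2 d (by simp)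
              exact List.Lex.rel hd
          · refine Submodule.span_mono ?_ hlw
            rintro f ⟨u, hu1, hu2, hf⟩
            exact ⟨u, ⟨hu1, fun a' ha' => hu2 a' ha' a (by simp)⟩, hf⟩
        · refine piaS_mul (A := {a :: l}) ?_ (piaS_mon rfl) ih2
          rintro u hu u' ⟨hu1, hu2⟩
          rw [Set.mem_singleton_iff] at hu
          subst hu
          refine ⟨by simpa using List.Perm.append_left (a :: l) hu1, ?_⟩
          change (a :: l) ++ u' < (a :: l) ++ vs.flatten
          exact List.Lex.append_left _ hu2 _
      · have hne : ¬ ((b :: l') :: ws = (a :: l) :: vs) := fun h => hvw (List.cons.inj h).1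
        rw [if_neg hne, sub_zero]
        have hmem : (b :: l') ∈ vs := by
          have h1 : (b :: l') ∈ (a :: l) :: vs := hws.mem_iff.1 List.mem_cons_self
          rcases List.mem_cons.1 h1 with h2 | h2
          · exact absurd h2 hvw
          · exact h2
        have hba : b < a := hpv _ hmem a (by simp) b (by simp)
        have h3 : ws.Perm (((a :: l) :: vs).erase (b :: l')) :=
          (List.cons_perm_iff_perm_erase.1 hws).2
        have h4 := hall _ ws h3 fun v hv => hbl v (List.mem_of_mem_erase hv)
        have h5 : lieW (fun a => (mon [a] : Ser p Z)) (b :: l') ∈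
            piaS p {u : List Z | u.Perm (b :: l') ∧ ∀ a' ∈ u.head?, a' < a} := by
          have h7 : lieW (fun a => (mon [a] : Ser p Z)) (b :: l') =
            (lieW (fun a => (mon [a] : Ser p Z)) (b :: l') - mon (b :: l')) + mon (b :: l') := by
            abel
          rw [h7]
          refine Submodule.add_mem _ (Submodule.span_mono ?_ hlw)
            (piaS_mon ⟨List.Perm.refl _, ?_⟩)
          · rintro f ⟨u, hu1, hu2, hf⟩
            exact ⟨u, ⟨hu1, fun a' ha' => (hu2 a' ha' b (by simp)).trans hba⟩, hf⟩
          · intro a' ha'
            simp at ha'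
            rwa [← ha']
        refine piaS_mul ?_ h5 h4
        rintro u ⟨hu1, hu2⟩ u' hu'
        have h8 : ((b :: l') :: ((a :: l) :: vs).erase (b :: l')).Perm ((a :: l) :: vs) :=
          (List.perm_cons_erase (hws.mem_iff.1 List.mem_cons_self)).symm
        refine ⟨(List.Perm.append hu1 hu').trans (by simpa using h8.flatten), ?_⟩
        cases u with
        | nil => exact absurd hu1.length_eq (by simp)
        | cons d u =>
          have hd : d < a := hu2 d (by simp)
          exact List.Lex.rel hd

omit [Fintype Z] [LinearOrder Z] in
lemma pia_Jn_mul [Fintype Z] (k : ι → ℕ) (ρ : (j : ι) → (Fin (k j) → Z) → ZMod p) {n N : ℕ}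
    {f : Ser p Z} (hf : f ∈ Jn k ρ n) (a b : List Z) (h : a.length + n + b.length = N) :
    mon a * f * mon b ∈ Jn k ρ N := by
  unfold Jn at hf
  induction hf using Submodule.span_induction with
  | mem x hx =>
    obtain ⟨j, u, v, h1, rfl⟩ := hx
    refine Submodule.subset_span ⟨j, a ++ u, v ++ b, ?_, ?_⟩
    · simp only [List.length_append]
      omega
    · rw [← pia_mon_mul, ← pia_mon_mul]
      noncomm_ring
  | zero => rw [mul_zero, zero_mul]; exact Submodule.zero_mem _
  | add x y _ _ hx hy => rw [mul_add, add_mul]; exact Submodule.add_mem _ hx hy
  | smul a x _ hx => rw [mul_smul_comm, smul_mul_assoc]; exact Submodule.smul_mem _ _ hx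

/-- a multilinear polynomial which vanishes modulo `Jn` on all families of blocks -/
theorem good_span [Fact p.Prime] (k : ι → ℕ) (ρ : (j : ι) → (Fin (k j) → Z) → ZMod p) {m : ℕ}
    (c : Equiv.Perm (Fin m) → ZMod p) (hc : c 1 ≠ 0) (N : ℕ)
    (h : ∀ v : Fin m → List Z, (∀ i, IsBlock (v i)) → ∑ i, (v i).length ≤ N →
      (∀ i j, i < j → ∀ a ∈ (v i).head?, ∀ b ∈ (v j).head?, b < a) →
      mulp c (fun i => lieW (fun a => (mon [a] : Ser p Z)) (v i)) ∈
        Jn k ρ (∑ i, (v i).length)) (u : List Z) (hu : u.length = N) :
    (mon u : Ser p Z) ∈ Jn k ρ N ⊔ Submodule.span (ZMod p)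
      {f | ∃ v : List Z, v.Perm u ∧ ¬ BadW m v ∧ f = mon v} := by
  classical
  have hfin : {v : List Z | v.length = N}.Finite := List.finite_length_eq Z N
  have key : ∀ n : ℕ, ∀ u : List Z, u.length = N →
      ({v ∈ {v : List Z | v.length = N} | v < u}).ncard = n →
      (mon u : Ser p Z) ∈ Jn k ρ N ⊔ Submodule.span (ZMod p)
        {f | ∃ v : List Z, v.Perm u ∧ ¬ BadW m v ∧ f = mon v} := by
    intro n
    induction n using Nat.strong_induction_on with
    | _ n ih =>
      intro u hu hn
      by_cases hbad : BadW m u
      · obtain ⟨pre, post, vs, hvs, hu2, hbl, hpw⟩ := hbad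
        set M := Jn k ρ N ⊔ Submodule.span (ZMod p)
          {f : Ser p Z | ∃ v : List Z, v.Perm u ∧ ¬ BadW m v ∧ f = mon v} with hM
        -- smaller words
        have hsmall : ∀ u' : List Z, u'.Perm u → u' < u → (mon u' : Ser p Z) ∈ M := by
          intro u' h1 h2
          have hlen : u'.length = N := h1.length_eq.trans hu
          have h3 := ih _ ?_ u' hlen rfl
          · have h4 : Jn k ρ N ⊔ Submodule.span (ZMod p)
                {f : Ser p Z | ∃ v : List Z, v.Perm u' ∧ ¬ BadW m v ∧ f = mon v} ≤ M := by
              refine sup_le_sup le_rfl (Submodule.span_mono ?_)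
              rintro f ⟨v, hv1, hv2, hv3⟩
              exact ⟨v, hv1.trans h1, hv2, hv3⟩
            exact h4 h3
          · rw [← hn]
            apply Set.ncard_lt_ncard _ (hfin.subset fun c hc => hc.1)
            refine ⟨fun v hv => ⟨hv.1, lt_trans hv.2 h2⟩, fun hcon => ?_⟩
            exact lt_irrefl _ (hcon (a := u') ⟨hlen, h2⟩).2
        have hget : vs = List.ofFn fun i : Fin m => vs.get (i.cast hvs.symm) := by
          subst hvs
          simp
        set v : Fin m → List Z := fun i => vs.get (i.cast hvs.symm) with hv
        have hvbl : ∀ i, IsBlock (v i) := fun i => hbl _ (List.get_mem _ _)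
        have hvpw : ∀ i j, i < j → ∀ a ∈ (v i).head?, ∀ b ∈ (v j).head?, b < a := by
          intro i j hij
          have := List.pairwise_iff_get.1 hpw (i.cast hvs.symm) (j.cast hvs.symm) (by
            simpa using hij)
          exact this
        have hlen : ∑ i, (v i).length = vs.flatten.length := by
          rw [List.length_flatten, hget, List.map_ofFn, List.sum_ofFn]
          rfl
        have hlenN : pre.length + ∑ i, (v i).length + post.length = N := by
          rw [hlen, ← hu, hu2]
          simp only [List.length_append]
        have hφ := h v hvbl (by omega) hvpw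
        have hφ2 := pia_Jn_mul k ρ hφ pre post hlenN
        -- expansion
        have hexp : mulp c (fun i => lieW (fun a => (mon [a] : Ser p Z)) (v i)) -
            c 1 • mon vs.flatten ∈
            piaS p {u' : List Z | u'.Perm vs.flatten ∧ u' < vs.flatten} := by
          unfold mulp
          have hterm : ∀ σ : Equiv.Perm (Fin m), (List.ofFn fun i =>
              lieW (fun a => (mon [a] : Ser p Z)) (v (σ i))).prod -
              (if σ = 1 then mon vs.flatten else 0) ∈
              piaS p {u' : List Z | u'.Perm vs.flatten ∧ u' < vs.flatten} := by
            intro σ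
            have hperm : (List.ofFn fun i => v (σ i)).Perm vs := by
              rw [hget]
              exact Equiv.Perm.ofFn_comp_perm σ v
            have h1 := (pia_prod (p := p) vs (List.ofFn fun i => v (σ i)) hperm hbl hpw).2
            rw [List.map_ofFn] at h1
            have h2 : ((List.ofFn fun i => v (σ i)) = vs) ↔ σ = 1 := by
              constructor
              · intro h3
                rw [hget] at h3
                have h4 := List.ofFn_injective h3
                ext i
                have h5 : v (σ i) = v i := congrFun h4 i
                have h6 : σ i = i := by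
                  obtain ⟨a, l, ha, _⟩ := hvbl i
                  rcases lt_trichotomy (σ i) i with h7 | h7 | h7
                  · have := hvpw _ _ h7 a (by rw [h5, ha]; simp) a (by rw [ha]; simp)
                    exact absurd this (lt_irrefl _)
                  · exact h7
                  · have := hvpw _ _ h7 a (by rw [ha]; simp) a (by rw [h5, ha]; simp)
                    exact absurd this (lt_irrefl _)
                rw [h6]
                rfl
              · rintro rfl
                exact hget.symm
            by_cases h3 : σ = 1
            · rw [if_pos (h2.2 h3)] at h1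
              rw [if_pos h3]
              exact h1
            · rw [if_neg fun h4 => h3 (h2.1 h4)] at h1
              rw [if_neg h3]
              exact h1
          have h1 : (∑ σ : Equiv.Perm (Fin m), c σ • (List.ofFn fun i =>
              lieW (fun a => (mon [a] : Ser p Z)) (v (σ i))).prod) - c 1 • mon vs.flatten =
              ∑ σ : Equiv.Perm (Fin m), c σ • ((List.ofFn fun i =>
              lieW (fun a => (mon [a] : Ser p Z)) (v (σ i))).prod -
              (if σ = 1 then mon vs.flatten else 0)) := by
            simp only [smul_sub, Finset.sum_sub_distrib, smul_ite, smul_zero,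
              Finset.sum_ite_eq', Finset.mem_univ, if_true]
          rw [h1]
          exact Submodule.sum_mem _ fun σ _ => Submodule.smul_mem _ _ (hterm σ)
        have hexp2 : mon pre * (mulp c (fun i => lieW (fun a => (mon [a] : Ser p Z)) (v i)) -
            c 1 • mon vs.flatten) * mon post ∈ M := by
          have h1 := piaS_mul (C := {x : List Z | ∃ y, (y.Perm vs.flatten ∧ y < vs.flatten) ∧
            x = pre ++ y}) (A := {pre}) (by
              rintro x hx y hy
              rw [Set.mem_singleton_iff] at hx
              subst hx
              exact ⟨y, hy, rfl⟩) (piaS_mon (p := p) rfl) hexp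
          have h2 := piaS_mul (C := {x : List Z | ∃ y, (y.Perm vs.flatten ∧ y < vs.flatten) ∧
            x = pre ++ y ++ post}) (B := {post}) (by
              rintro x ⟨y, hy, rfl⟩ z hz
              rw [Set.mem_singleton_iff] at hz
              subst hz
              exact ⟨y, hy, rfl⟩) h1 (piaS_mon (p := p) rfl)
          refine piaS_le ?_ h2
          rintro x ⟨y, ⟨hy1, hy2⟩, rfl⟩
          apply hsmall
          · rw [hu2]
            exact ((hy1.append_left pre).append_right post)
          · rw [hu2, List.append_assoc, List.append_assoc]
            apply List.Lex.append_left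
            have hly : y.length = vs.flatten.length := hy1.length_eq
            have : ∀ (y z : List Z), y.length = z.length → y < z → y ++ post < z ++ post := by
              intro y
              induction y with
              | nil =>
                intro z hz hlt
                have : z = [] := List.length_eq_zero_iff.1 hz.symm
                subst this
                exact absurd hlt (lt_irrefl _)
              | cons a y ih =>
                intro z hz hlt
                cases z with
                | nil => exact absurd hz (by simp)
                | cons b z =>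
                  rcases List.cons_lt_cons_iff.1 hlt with h3 | ⟨rfl, h3⟩
                  · exact List.Lex.rel h3
                  · exact List.Lex.cons (ih z (by simpa using hz) h3)
            exact this y vs.flatten hly hy2
        have hφ3 : mon pre * mulp c (fun i => lieW (fun a => (mon [a] : Ser p Z)) (v i)) *
            mon post ∈ M := Submodule.mem_sup_left hφ2
        have hmain : c 1 • (mon u : Ser p Z) ∈ M := by
          have h1 : c 1 • (mon u : Ser p Z) =
              mon pre * mulp c (fun i => lieW (fun a => (mon [a] : Ser p Z)) (v i)) * mon post -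
              mon pre * (mulp c (fun i => lieW (fun a => (mon [a] : Ser p Z)) (v i)) -
                c 1 • mon vs.flatten) * mon post := by
            rw [mul_sub, sub_mul, sub_sub_cancel, mul_smul_comm, smul_mul_assoc, pia_mon_mul,
              pia_mon_mul, ← hu2]
          rw [h1]
          exact Submodule.sub_mem _ hφ3 hexp2
        have h1 : (mon u : Ser p Z) = (c 1)⁻¹ • (c 1 • (mon u : Ser p Z)) := by
          rw [smul_smul, inv_mul_cancel₀ hc, one_smul]
        rw [h1]
        exact Submodule.smul_mem _ _ hmain
      · exact Submodule.mem_sup_right (Submodule.subset_span ⟨u, List.Perm.refl _, hbad, rfl⟩)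
  exact key _ u hu rfl

end Pool.Agent.GGS
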