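import Pool.Agent.GGS.AlgDef
import Pool.Agent.GGS.N0
import Pool.Agent.GGS.SwBas

/-!
# Counting good words (paper, 10.2)
-/

namespace Pool.Agent.GGS

open Ser

variable {Z : Type} [Fintype Z] [LinearOrder Z]

lemma PiB_finite (m : ℕ) (S : Finset Z) :
    {u : List Z | u.Nodup ∧ u.toFinset = S ∧ ¬ BadW m u}.Finite := by
  refine (List.finite_length_eq Z S.card).subset ?_
  rintro u ⟨h1, h2, -⟩
  rw [Set.mem_ofPred_eq, ← h2, List.toFinset_card_of_nodup h1]

omit [Fintype Z] in
lemma PiB_bad_left {m : ℕ} {u : List Z} (h : BadW m u) (v : List Z) : BadW m (u ++ v) := by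
  obtain ⟨pre, post, vs, h1, h2, h3, h4⟩ := h
  exact ⟨pre, post ++ v, vs, h1, by rw [h2]; simp, h3, h4⟩

omit [Fintype Z] in
lemma PiB_bad_right {m : ℕ} {u : List Z} (h : BadW m u) (v : List Z) (M : Z)
    (hM : ∀ b ∈ u, b < M) : BadW (m + 1) (v ++ M :: u) := by
  obtain ⟨pre, post, vs, h1, h2, h3, h4⟩ := h
  refine ⟨v, post, (M :: pre) :: vs, by simp [h1], ?_, ?_, ?_⟩
  · rw [h2]; simp
  · intro w hw
    rcases List.mem_cons.mp hw with rfl | hw
    · exact ⟨M, pre, rfl, fun b hb => hM b (by rw [h2]; simp [hb])⟩
    · exact h3 w hw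
  · refine List.pairwise_cons.mpr ⟨?_, h4⟩
    intro w hw a ha b hb
    have ha' : M = a := by simpa using ha
    subst ha'
    refine hM b ?_
    have hbw : b ∈ w := List.mem_of_mem_head? hb
    rw [h2]
    simp only [List.mem_append, List.mem_flatten]
    exact Or.inl (Or.inr ⟨w, hw, hbw⟩)

omit [Fintype Z] in
lemma PiB_bad_one {u : List Z} (hu : u ≠ []) : BadW 1 u := by
  obtain ⟨a, l, rfl⟩ := List.exists_cons_of_ne_nil hu
  exact ⟨[], l, [[a]], rfl, by simp, by
    intro v hv
    have : v = [a] := by simpa using hv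
    subst this
    exact ⟨a, [], rfl, by simp⟩, by simp⟩

/-- good words which use every letter of `S` exactly once -/
theorem card_good (m : ℕ) (hm : 1 ≤ m) (S : Finset Z) :
    {u : List Z | u.Nodup ∧ u.toFinset = S ∧ ¬ BadW m u}.ncard ≤ im m S.card := by
  obtain ⟨m, rfl⟩ : ∃ k, m = k + 1 := ⟨m - 1, by omega⟩
  clear hm
  induction m generalizing S with
  | zero =>
    rw [show (0 + 1 : ℕ) = 1 from rfl, im_one]
    by_cases hS : S = ∅
    · subst hS
      simp only [Finset.card_empty, if_true]
      refine le_trans (Set.ncard_le_ncard (t := {([] : List Z)}) ?_ (Set.finite_singleton _)) ?_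
      · rintro u ⟨-, h2, -⟩
        exact Set.mem_singleton_iff.mpr (by simpa using h2)
      · rw [Set.ncard_singleton]
    · have h0 : {u : List Z | u.Nodup ∧ u.toFinset = S ∧ ¬ BadW 1 u} = ∅ := by
        ext u
        simp only [Set.mem_ofPred_eq, Set.mem_empty_iff_false, iff_false]
        rintro ⟨-, h2, h3⟩
        apply h3
        apply PiB_bad_one
        rintro rfl
        exact hS (by simpa using h2.symm)
      rw [h0]
      simp
  | succ m ihm =>
    induction hn : S.card using Nat.strong_induction_on generalizing S with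
    | _ n ihn =>
    rcases Nat.eq_zero_or_pos n with h0 | hpos
    · subst h0
      have hS : S = ∅ := Finset.card_eq_zero.mp hn
      subst hS
      rw [im_zero_right]
      refine le_trans (Set.ncard_le_ncard (t := {([] : List Z)}) ?_ (Set.finite_singleton _)) ?_
      · rintro u ⟨-, h2, -⟩
        exact Set.mem_singleton_iff.mpr (by simpa using h2)
      · rw [Set.ncard_singleton]
    · obtain ⟨n, rfl⟩ : ∃ k, n = k + 1 := ⟨n - 1, by omega⟩
      have hne : S.Nonempty := by
        rw [← Finset.card_pos]; omega
      set M := S.max' hne with hM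
      have hMS : M ∈ S := S.max'_mem hne
      have hcard : (S.erase M).card = n := by
        rw [Finset.card_erase_of_mem hMS, hn]; rfl
      have hsub : {u : List Z | u.Nodup ∧ u.toFinset = S ∧ ¬ BadW (m + 1 + 1) u} ⊆
          ⋃ A ∈ (S.erase M).powerset, (fun q : List Z × List Z => q.1 ++ M :: q.2) ''
            ({u : List Z | u.Nodup ∧ u.toFinset = A ∧ ¬ BadW (m + 1 + 1) u} ×ˢ
              {u : List Z | u.Nodup ∧ u.toFinset = (S.erase M) \ A ∧ ¬ BadW (m + 1) u}) := by
        rintro u ⟨h1, h2, h3⟩
        have hMu : M ∈ u := by rw [← List.mem_toFinset, h2]; exact hMS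
        obtain ⟨a, b, rfl⟩ := List.append_of_mem hMu
        rw [List.nodup_append] at h1
        obtain ⟨ha, hMb, hdis⟩ := h1
        rw [List.nodup_cons] at hMb
        obtain ⟨hMb, hb⟩ := hMb
        have hMa : M ∉ a := fun h => hdis M h M (by simp) rfl
        have hlt : ∀ x ∈ b, x < M := by
          intro x hx
          have hxS : x ∈ S := by
            rw [← h2]; simp [hx]
          exact lt_of_le_of_ne (S.le_max' x hxS) (fun h => hMb (h ▸ hx))
        simp only [Set.mem_iUnion]
        refine ⟨a.toFinset, ?_, (a, b), ⟨⟨ha, rfl, ?_⟩, ⟨hb, ?_, ?_⟩⟩, rfl⟩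
        · rw [Finset.mem_powerset]
          intro x hx
          rw [List.mem_toFinset] at hx
          rw [Finset.mem_erase, ← h2]
          exact ⟨fun h => hMa (h ▸ hx), by simp [hx]⟩
        · exact fun h => h3 (PiB_bad_left h _)
        · ext x
          simp only [List.mem_toFinset, Finset.mem_sdiff, Finset.mem_erase, ← h2,
            List.mem_append, List.mem_cons]
          constructor
          · intro hx
            refine ⟨⟨fun h => hMb (h ▸ hx), Or.inr (Or.inr hx)⟩, fun h => ?_⟩
            exact hdis x h x (by simp [hx]) rfl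
          · rintro ⟨⟨h4, h5⟩, h6⟩
            rcases h5 with h5 | h5 | h5
            · exact absurd h5 h6
            · exact absurd h5 h4
            · exact h5
        · exact fun h => h3 (PiB_bad_right h _ M hlt)
      have hfin : ∀ A : Finset Z, ((fun q : List Z × List Z => q.1 ++ M :: q.2) ''
            ({u : List Z | u.Nodup ∧ u.toFinset = A ∧ ¬ BadW (m + 1 + 1) u} ×ˢ
              {u : List Z | u.Nodup ∧ u.toFinset = (S.erase M) \ A ∧ ¬ BadW (m + 1) u})).Finite :=
        fun A => ((PiB_finite _ _).prod (PiB_finite _ _)).image _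
      refine le_trans (Set.ncard_le_ncard hsub ?_) ?_
      · exact Set.Finite.biUnion (Finset.finite_toSet _) (fun A _ => hfin A)
      refine le_trans (Finset.set_ncard_biUnion_le _ _) ?_
      have hle : ∀ A ∈ (S.erase M).powerset, ((fun q : List Z × List Z => q.1 ++ M :: q.2) ''
            ({u : List Z | u.Nodup ∧ u.toFinset = A ∧ ¬ BadW (m + 1 + 1) u} ×ˢ
              {u : List Z | u.Nodup ∧ u.toFinset = (S.erase M) \ A ∧ ¬ BadW (m + 1) u})).ncard ≤
          im (m + 2) A.card * im (m + 1) (n - A.card) := by
        intro A hA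
        rw [Finset.mem_powerset] at hA
        refine le_trans (Set.ncard_image_le ((PiB_finite _ _).prod (PiB_finite _ _))) ?_
        rw [Set.ncard_prod]
        refine Nat.mul_le_mul ?_ ?_
        · refine ihn A.card ?_ A rfl
          have := Finset.card_le_card hA
          omega
        · have h5 := ihm ((S.erase M) \ A)
          rw [Finset.card_sdiff_of_subset hA, hcard] at h5
          exact h5
      refine le_trans (Finset.sum_le_sum hle) ?_
      rw [Finset.sum_powerset_apply_card (fun k => im (m + 2) k * im (m + 1) (n - k)), hcard]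
      rw [Finset.sum_range, im_succ]
      refine le_of_eq (Finset.sum_congr rfl fun k _ => ?_)
      rw [smul_eq_mul, mul_assoc]

end Pool.Agent.GGS
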