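import Pool.Agent.GGS.PiB

/-!
# Total weights of good words (paper, 10.4)
-/

namespace Pool.Agent.GGS

open Ser

variable {Z : Type} [Fintype Z] [LinearOrder Z]

/-- `(σ + x)^(N+1) ≥ σ^(N+1) + (N+1) x σ^N` -/
lemma PiB2_bern (σ x : ℝ) (hσ : 0 ≤ σ) (hx : 0 ≤ x) (N : ℕ) :
    σ ^ (N + 1) + (N + 1) * (x * σ ^ N) ≤ (σ + x) ^ (N + 1) := by
  induction N with
  | zero => simp
  | succ N ih =>
    have h1 : 0 ≤ σ + x := add_nonneg hσ hx
    have h2 := mul_le_mul_of_nonneg_right ih h1
    have h3 : 0 ≤ (N + 1 : ℝ) * x ^ 2 * σ ^ N := by positivity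
    rw [pow_succ (σ + x) (N + 1)]
    push_cast
    have h4 : (σ ^ (N + 1) + (N + 1) * (x * σ ^ N)) * (σ + x) =
      σ ^ (N + 1 + 1) + (N + 1 + 1) * (x * σ ^ (N + 1)) + (N + 1 : ℝ) * x ^ 2 * σ ^ N := by ring
    linarith

omit [Fintype Z] in
/-- the elementary symmetric functions -/
lemma PiB2_esymm (t : Z → ℝ) (ht : ∀ a, 0 ≤ t a) (s : Finset Z) (N : ℕ) :
    (N.factorial : ℝ) * ∑ S ∈ s.powersetCard N, ∏ a ∈ S, t a ≤ (∑ a ∈ s, t a) ^ N := by
  induction s using Finset.induction_on generalizing N with
  | empty =>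
    cases N with
    | zero => simp
    | succ N =>
      have h0 : Finset.powersetCard (N + 1) (∅ : Finset Z) = ∅ :=
        Finset.powersetCard_eq_empty.mpr (by simp)
      simp [h0]
  | insert b s hb ih =>
    cases N with
    | zero => simp
    | succ N =>
      have hσ : 0 ≤ ∑ a ∈ s, t a := Finset.sum_nonneg fun a _ => ht a
      rw [Finset.powersetCard_succ_insert hb, Finset.sum_union]
      · rw [Finset.sum_image]
        · have h1 : ∑ S ∈ s.powersetCard N, ∏ a ∈ insert b S, t a =
              t b * ∑ S ∈ s.powersetCard N, ∏ a ∈ S, t a := by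
            rw [Finset.mul_sum]
            refine Finset.sum_congr rfl fun S hS => ?_
            rw [Finset.prod_insert]
            exact fun h => hb ((Finset.mem_powersetCard.mp hS).1 h)
          rw [h1, Finset.sum_insert hb]
          have h2 := ih (N + 1)
          have h3 := ih N
          have h4 := PiB2_bern (∑ a ∈ s, t a) (t b) hσ (ht b) N
          rw [add_comm (t b)]
          refine le_trans ?_ h4
          rw [mul_add]
          refine add_le_add h2 ?_
          rw [Nat.factorial_succ]
          push_cast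
          have h5 := mul_le_mul_of_nonneg_left h3 (mul_nonneg (by positivity : (0:ℝ) ≤ (N:ℝ) + 1) (ht b))
          nlinarith [h5]
        · intro S hS S' hS' h
          have hbS : b ∉ S := fun h => hb ((Finset.mem_powersetCard.mp hS).1 h)
          have hbS' : b ∉ S' := fun h => hb ((Finset.mem_powersetCard.mp hS').1 h)
          rw [← Finset.erase_insert hbS, ← Finset.erase_insert hbS', h]
      · rw [Finset.disjoint_left]
        intro S hS hS'
        obtain ⟨S0, -, rfl⟩ := Finset.mem_image.mp hS'
        exact hb ((Finset.mem_powersetCard.mp hS).1 (Finset.mem_insert_self _ _))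

/-- the total weight of the good words with distinct letters -/
theorem sum_good (m : ℕ) (hm : 1 ≤ m) (t : Z → ℝ) (ht : ∀ a, 0 ≤ t a) (N : ℕ)
    (F : Finset (List Z)) (hF : ∀ u ∈ F, u.length = N ∧ u.Nodup ∧ ¬ BadW m u) :
    ∑ u ∈ F, wt t u ≤ im m N / N.factorial * (∑ a, t a) ^ N := by
  have h1 : ∀ u ∈ F, u.toFinset ∈ (Finset.univ : Finset Z).powersetCard N := by
    intro u hu
    obtain ⟨h1, h2, -⟩ := hF u hu
    rw [Finset.mem_powersetCard]
    exact ⟨Finset.subset_univ _, by rw [List.toFinset_card_of_nodup h2, h1]⟩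
  rw [← Finset.sum_fiberwise_of_maps_to h1]
  have h2 : ∀ S ∈ (Finset.univ : Finset Z).powersetCard N,
      ∑ u ∈ F with u.toFinset = S, wt t u ≤ im m N * ∏ a ∈ S, t a := by
    intro S hS
    have hSN := (Finset.mem_powersetCard.mp hS).2
    have h3 : ∀ u ∈ F.filter (fun u => u.toFinset = S), wt t u = ∏ a ∈ S, t a := by
      intro u hu
      obtain ⟨hu1, hu2⟩ := Finset.mem_filter.mp hu
      rw [← hu2, List.prod_toFinset t (hF u hu1).2.1]
      rfl
    rw [Finset.sum_congr rfl h3, Finset.sum_const, nsmul_eq_mul]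
    refine mul_le_mul_of_nonneg_right ?_ (Finset.prod_nonneg fun a _ => ht a)
    norm_cast
    have h4 := card_good m hm S
    rw [hSN] at h4
    refine le_trans ?_ h4
    rw [← Set.ncard_coe_finset]
    refine Set.ncard_le_ncard ?_ (PiB_finite m S)
    intro u hu
    rw [Finset.mem_coe, Finset.mem_filter] at hu
    exact ⟨(hF u hu.1).2.1, hu.2, (hF u hu.1).2.2⟩
  refine le_trans (Finset.sum_le_sum h2) ?_
  rw [← Finset.mul_sum]
  have h5 := PiB2_esymm t ht Finset.univ N
  have hpos : (0 : ℝ) < N.factorial := by exact_mod_cast Nat.factorial_pos N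
  rw [div_mul_eq_mul_div, le_div_iff₀ hpos]
  have h6 : (0 : ℝ) ≤ im m N := Nat.cast_nonneg _
  nlinarith [mul_le_mul_of_nonneg_left h5 h6]

/-- sum over all words of length `N` -/
noncomputable def PiB2T : ℕ → (List Z → ℝ) → ℝ
  | 0, g => g []
  | N + 1, g => ∑ a, PiB2T N fun v => g (a :: v)

omit [LinearOrder Z] in
lemma PiB2T_mono (N : ℕ) {g h : List Z → ℝ} (hgh : ∀ u, g u ≤ h u) : PiB2T N g ≤ PiB2T N h := by
  induction N generalizing g h with
  | zero => exact hgh _
  | succ N ih => exact Finset.sum_le_sum fun a _ => ih fun v => hgh _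

omit [LinearOrder Z] in
lemma PiB2T_add (N : ℕ) (g h : List Z → ℝ) :
    PiB2T N (fun u => g u + h u) = PiB2T N g + PiB2T N h := by
  induction N generalizing g h with
  | zero => rfl
  | succ N ih =>
    simp only [PiB2T]
    rw [← Finset.sum_add_distrib]
    exact Finset.sum_congr rfl fun a _ => ih _ _

omit [LinearOrder Z] in
lemma PiB2T_smul (N : ℕ) (c : ℝ) (g : List Z → ℝ) :
    PiB2T N (fun u => c * g u) = c * PiB2T N g := by
  induction N generalizing g with
  | zero => rfl
  | succ N ih =>
    simp only [PiB2T]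
    rw [Finset.mul_sum]
    exact Finset.sum_congr rfl fun a _ => ih _

omit [LinearOrder Z] in
lemma PiB2T_wt (N : ℕ) (t : Z → ℝ) : PiB2T N (fun u => wt t u) = (∑ a, t a) ^ N := by
  induction N with
  | zero => simp [PiB2T, wt]
  | succ N ih =>
    simp only [PiB2T]
    have : ∀ a : Z, PiB2T N (fun v => wt t (a :: v)) = t a * (∑ a, t a) ^ N := by
      intro a
      rw [← ih, ← PiB2T_smul]
      simp [wt]
    simp only [this]
    rw [← Finset.sum_mul, pow_succ, mul_comm]

omit [Fintype Z] [LinearOrder Z] in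
lemma PiB2_wt_nonneg (t : Z → ℝ) (ht : ∀ a, 0 ≤ t a) (u : List Z) : 0 ≤ wt t u := by
  unfold wt
  refine List.prod_nonneg ?_
  intro x hx
  obtain ⟨a, -, rfl⟩ := List.mem_map.mp hx
  exact ht a

lemma PiB2T_le (N : ℕ) (g : List Z → ℝ) (hg : ∀ u, 0 ≤ g u) (F : Finset (List Z))
    (hF : ∀ u ∈ F, u.length = N) : ∑ u ∈ F, g u ≤ PiB2T N g := by
  induction N generalizing g F with
  | zero =>
    have : F ⊆ {[]} := by
      intro u hu
      rw [Finset.mem_singleton]
      exact List.length_eq_zero_iff.mp (hF u hu)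
    refine le_trans (Finset.sum_le_sum_of_subset_of_nonneg this fun u _ _ => hg u) ?_
    simp [PiB2T]
  | succ N ih =>
    classical
    have h1 : ∑ u ∈ F, g u ≤ ∑ u ∈ (Finset.univ : Finset Z).biUnion
        (fun a => (F.filter (fun u => u.head? = some a))), g u := by
      refine Finset.sum_le_sum_of_subset_of_nonneg ?_ fun u _ _ => hg u
      intro u hu
      have h2 := hF u hu
      cases u with
      | nil => simp at h2
      | cons a v =>
        rw [Finset.mem_biUnion]
        exact ⟨a, Finset.mem_univ _, Finset.mem_filter.mpr ⟨hu, rfl⟩⟩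
    refine le_trans h1 ?_
    rw [Finset.sum_biUnion]
    · simp only [PiB2T]
      refine Finset.sum_le_sum fun a _ => ?_
      have h3 := ih (fun v => g (a :: v)) (fun v => hg _)
        ((F.filter (fun u => u.head? = some a)).image List.tail) ?_
      · refine le_trans (le_of_eq ?_) h3
        rw [Finset.sum_image]
        · refine Finset.sum_congr rfl fun u hu => ?_
          obtain ⟨-, hu2⟩ := Finset.mem_filter.mp hu
          cases u with
          | nil => simp at hu2
          | cons b v =>
            have : b = a := by simpa using hu2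
            rw [this]
            rfl
        · intro u hu v hv h
          rw [Finset.mem_coe, Finset.mem_filter] at hu hv
          cases u with
          | nil => simp at hu
          | cons b u =>
            cases v with
            | nil => simp at hv
            | cons c v =>
              have hb : b = a := by simpa using hu.2
              have hc : c = a := by simpa using hv.2
              have h' : u = v := h
              rw [hb, hc, h']
      · intro v hv
        obtain ⟨u, hu, rfl⟩ := Finset.mem_image.mp hv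
        rw [List.length_tail, hF u (Finset.mem_filter.mp hu).1]
        rfl
    · intro a _ b _ hab
      rw [Function.onFun, Finset.disjoint_left]
      intro u hu hu'
      have h4 := (Finset.mem_filter.mp hu).2
      rw [(Finset.mem_filter.mp hu').2] at h4
      exact hab (Option.some.inj h4).symm

open Classical in
lemma PiB2T_mem (N : ℕ) (t : Z → ℝ) (ht : ∀ a, 0 ≤ t a) (a : Z) :
    PiB2T (N + 1) (fun u => if a ∈ u then wt t u else 0) ≤ (N + 1) * (t a * (∑ a, t a) ^ N) := by
  have step : ∀ N : ℕ, PiB2T (N + 1) (fun u => if a ∈ u then wt t u else 0) ≤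
      t a * (∑ a, t a) ^ N + (∑ b, t b) * PiB2T N (fun u => if a ∈ u then wt t u else 0) := by
    intro N
    have h1 : ∀ b : Z, PiB2T N (fun v => if a ∈ b :: v then wt t (b :: v) else 0) ≤
        (if b = a then t b * PiB2T N (fun u => wt t u) else 0) +
          t b * PiB2T N (fun u => if a ∈ u then wt t u else 0) := by
      intro b
      by_cases hb : b = a
      · rw [if_pos hb]
        rw [← PiB2T_smul, ← PiB2T_smul, ← PiB2T_add]
        refine PiB2T_mono N fun u => ?_
        subst hb
        simp only [List.mem_cons, true_or, if_true]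
        have h2 : wt t (b :: u) = t b * wt t u := by simp [wt]
        rw [h2]
        have h3 : 0 ≤ t b * (if b ∈ u then wt t u else 0) := by
          refine mul_nonneg (ht b) ?_
          split_ifs
          · exact PiB2_wt_nonneg t ht u
          · exact le_rfl
        linarith
      · rw [if_neg hb, zero_add, ← PiB2T_smul]
        refine PiB2T_mono N fun u => ?_
        have hab : a ≠ b := fun h => hb h.symm
        simp only [List.mem_cons, hab, false_or]
        have h2 : wt t (b :: u) = t b * wt t u := by simp [wt]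
        rw [h2]
        split_ifs <;> simp
    change ∑ b, PiB2T N (fun v => if a ∈ b :: v then wt t (b :: v) else 0) ≤ _
    refine le_trans (Finset.sum_le_sum fun b _ => h1 b) ?_
    rw [Finset.sum_add_distrib, ← Finset.sum_mul, Finset.sum_ite_eq' Finset.univ a,
      if_pos (Finset.mem_univ a), PiB2T_wt]
  have hσ : 0 ≤ ∑ a, t a := Finset.sum_nonneg fun a _ => ht a
  induction N with
  | zero =>
    have := step 0
    simpa [PiB2T] using this
  | succ N ih =>
    refine le_trans (step (N + 1)) ?_
    have := mul_le_mul_of_nonneg_left ih hσ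
    push_cast
    rw [pow_succ]
    nlinarith [this]

open Classical in
lemma PiB2T_rep (N : ℕ) (t : Z → ℝ) (ht : ∀ a, 0 ≤ t a) {τ : ℝ} (hτ : ∀ a, t a ≤ τ) :
    PiB2T (N + 1) (fun u => if u.Nodup then 0 else wt t u) ≤
      ((N + 1) * N / 2) * (τ * (∑ a, t a) ^ N) := by
  have hσ : 0 ≤ ∑ a, t a := Finset.sum_nonneg fun a _ => ht a
  induction N with
  | zero => simp [PiB2T]
  | succ N ih =>
    have h1 : ∀ b : Z, PiB2T (N + 1) (fun v => if (b :: v).Nodup then 0 else wt t (b :: v)) ≤
        t b * PiB2T (N + 1) (fun u => if b ∈ u then wt t u else 0) +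
          t b * PiB2T (N + 1) (fun u => if u.Nodup then 0 else wt t u) := by
      intro b
      rw [← PiB2T_smul, ← PiB2T_smul, ← PiB2T_add]
      refine PiB2T_mono _ fun u => ?_
      have h2 : wt t (b :: u) = t b * wt t u := by simp [wt]
      have h3 : 0 ≤ t b * wt t u := mul_nonneg (ht b) (PiB2_wt_nonneg t ht u)
      rw [h2]
      by_cases h4 : b ∈ u <;> by_cases h5 : u.Nodup <;> simp [List.nodup_cons, h4, h5, h3]
    change ∑ b, PiB2T (N + 1) (fun v => if (b :: v).Nodup then 0 else wt t (b :: v)) ≤ _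
    refine le_trans (Finset.sum_le_sum fun b _ => h1 b) ?_
    rw [Finset.sum_add_distrib, ← Finset.sum_mul]
    have h6 : ∑ b, t b * PiB2T (N + 1) (fun u => if b ∈ u then wt t u else 0) ≤
        ∑ b, t b * ((N + 1) * (τ * (∑ a, t a) ^ N)) := by
      refine Finset.sum_le_sum fun b _ => mul_le_mul_of_nonneg_left ?_ (ht b)
      refine le_trans (PiB2T_mem N t ht b) ?_
      have h7 : (0 : ℝ) ≤ (N : ℝ) + 1 := by positivity
      exact mul_le_mul_of_nonneg_left (mul_le_mul_of_nonneg_right (hτ b) (pow_nonneg hσ N)) h7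
    rw [← Finset.sum_mul] at h6
    have h8 := mul_le_mul_of_nonneg_left ih hσ
    refine le_trans (add_le_add h6 h8) (le_of_eq ?_)
    push_cast
    ring

/-- the total weight of the words with repetitions -/
theorem sum_rep (t : Z → ℝ) (ht : ∀ a, 0 ≤ t a) {τ : ℝ} (hτ : ∀ a, t a ≤ τ) (hτ0 : 0 ≤ τ)
    (N : ℕ) (hN : 1 ≤ N)
    (F : Finset (List Z)) (hF : ∀ u ∈ F, u.length = N ∧ ¬ u.Nodup) :
    ∑ u ∈ F, wt t u ≤ (N : ℝ) ^ 2 / 2 * τ * (∑ a, t a) ^ (N - 1) := by
  classical
  obtain ⟨k, rfl⟩ : ∃ k, N = k + 1 := ⟨N - 1, by omega⟩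
  have hσ : 0 ≤ ∑ a, t a := Finset.sum_nonneg fun a _ => ht a
  have h1 : ∑ u ∈ F, wt t u = ∑ u ∈ F, (if u.Nodup then 0 else wt t u) :=
    Finset.sum_congr rfl fun u hu => by rw [if_neg (hF u hu).2]
  rw [h1]
  refine le_trans (PiB2T_le (k + 1) _ ?_ F fun u hu => (hF u hu).1) ?_
  · intro u
    split_ifs
    · exact le_rfl
    · exact PiB2_wt_nonneg t ht u
  refine le_trans (PiB2T_rep k t ht hτ) ?_
  rw [Nat.add_sub_cancel, mul_assoc]
  refine mul_le_mul_of_nonneg_right ?_ (mul_nonneg hτ0 (pow_nonneg hσ k))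
  push_cast
  nlinarith [(Nat.cast_nonneg k : (0 : ℝ) ≤ k)]

end Pool.Agent.GGS
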