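import Pool.Agent.GGS.Gsa
import Pool.Agent.GGS.PiA
import Pool.Agent.GGS.PiB2
import Pool.Agent.GGS.IxProd

/-!
# No multilinear identity (paper, 10.4)

If the conclusion fails, `good_span` (after renumbering so that `c 1 ≠ 0`) and `integral_count` give
`∫ D_N ≤ ∑ weights of the good words`.
-/

namespace Pool.Agent.GGS

open Ser

variable {p : ℕ} {Z : Type} [Fintype Z] [LinearOrder Z] {ι : Type} [Fintype ι]

omit [Fintype Z] [LinearOrder Z] in
lemma PiC_indep (N : ℕ) :
    LinearIndependent (ZMod p) (fun u : Fin N → Z => (mon (List.ofFn u) : Ser p Z)) := by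
  classical
  let E : Ser p Z →ₗ[ZMod p] ((Fin N → Z) → ZMod p) :=
    { toFun := fun f u => f (List.ofFn u)
      map_add' := fun f g => rfl
      map_smul' := fun c f => rfl }
  refine LinearIndependent.of_comp E ?_
  have h1 : (E ∘ fun u : Fin N → Z => (mon (List.ofFn u) : Ser p Z)) =
      fun u => Pi.single u 1 := by
    funext u v
    show (mon (List.ofFn u) : Ser p Z) (List.ofFn v) = _
    by_cases h : v = u
    · subst h
      rw [mon_self, Pi.single_eq_same]
    · rw [mon_ne (fun h' => h (List.ofFn_injective h')), Pi.single_eq_of_ne h]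
  rw [h1]
  exact Pi.linearIndependent_single_one _ _

omit [LinearOrder Z] in
lemma PiC_fin (k : ι → ℕ) (ρ : (j : ι) → (Fin (k j) → Z) → ZMod p) (n : ℕ) :
    Module.Finite (ZMod p) ↥(Jn k ρ n) := by
  refine Module.Finite.span_of_finite _ ?_
  have h1 : (((Set.univ : Set ι) ×ˢ ({u : List Z | u.length ≤ n} ×ˢ {v : List Z | v.length ≤ n}))
      : Set (ι × List Z × List Z)).Finite :=
    Set.Finite.prod Set.finite_univ
      (Set.Finite.prod (List.finite_length_le Z n) (List.finite_length_le Z n))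
  refine (h1.image fun x => (mon x.2.1 : Ser p Z) * relS (ρ x.1) * mon x.2.2).subset ?_
  rintro f ⟨j, u, v, h, rfl⟩
  exact ⟨(j, u, v), ⟨Set.mem_univ _, (by simp only [Set.mem_ofPred_eq]; omega),
    (by simp only [Set.mem_ofPred_eq]; omega)⟩, rfl⟩

omit [LinearOrder Z] in
lemma PiC_fin' (t : Z → ℝ) (n : ℕ) (s : ℝ) : Module.Finite (ZMod p) ↥(Tn p t n s) := by
  refine Module.Finite.span_of_finite _ ?_
  refine ((List.finite_length_eq Z n).image fun u => (mon u : Ser p Z)).subset ?_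
  rintro f ⟨u, h, _, rfl⟩
  exact ⟨u, h, rfl⟩

/-- renumbering -/
lemma PiC_renum {m : ℕ} {E : Type*} [Ring E] [Algebra (ZMod p) E]
    (c : Equiv.Perm (Fin m) → ZMod p) (τ : Equiv.Perm (Fin m)) (x : Fin m → E) :
    mulp (fun σ => c (τ * σ)) x = mulp c (fun i => x (τ⁻¹ i)) := by
  unfold mulp
  refine Fintype.sum_equiv (Equiv.mulLeft τ) _ _ fun σ => ?_
  have h : ∀ i, x (τ⁻¹ ((Equiv.mulLeft τ σ) i)) = x (σ i) := by
    intro i
    show x (τ⁻¹ ((τ * σ) i)) = x (σ i)
    congr 1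
    exact Equiv.symm_apply_apply τ (σ i)
  simp only [h]
  rfl

/-- the bound for the dimension -/
lemma PiC_Dn [Fact p.Prime] (t : Z → ℝ) (k : ι → ℕ) (ρ : (j : ι) → (Fin (k j) → Z) → ZMod p)
    (m N : ℕ) [Fintype {u : Fin N → Z // ¬ BadW m (List.ofFn u)}]
    (hspan : ∀ u : List Z, u.length = N → (mon u : Ser p Z) ∈ Jn k ρ N ⊔ Submodule.span (ZMod p)
      {f | ∃ v : List Z, v.Perm u ∧ ¬ BadW m v ∧ f = mon v}) (s : ℝ) :
    Dn t k ρ N s ≤ (Finset.univ.filter fun u : {u : Fin N → Z // ¬ BadW m (List.ofFn u)} =>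
      s < wt t (List.ofFn u.1)).card := by
  classical
  have hfin1 := PiC_fin (p := p) k ρ N
  have hfin2 := PiC_fin' (p := p) t N s
  set A : Submodule (ZMod p) (Ser p Z) := Jn k ρ N ⊔ Tn p t N s with hA
  set F := Finset.univ.filter fun u : {u : Fin N → Z // ¬ BadW m (List.ofFn u)} =>
      s < wt t (List.ofFn u.1) with hF
  set B : Submodule (ZMod p) (Ser p Z) := Submodule.span (ZMod p)
    ((F.image fun u => (mon (List.ofFn u.1) : Ser p Z) : Finset (Ser p Z)) : Set (Ser p Z)) with hB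
  have hle : Submodule.span (ZMod p)
      (Set.range fun u : Fin N → Z => (mon (List.ofFn u) : Ser p Z)) ≤ A ⊔ B := by
    rw [Submodule.span_le]
    rintro _ ⟨u, rfl⟩
    have h1 := hspan (List.ofFn u) (List.length_ofFn)
    refine (sup_le ?_ ?_ : Jn k ρ N ⊔ Submodule.span (ZMod p)
      {f | ∃ v : List Z, v.Perm (List.ofFn u) ∧ ¬ BadW m v ∧ f = mon v} ≤ A ⊔ B) h1
    · exact le_sup_left.trans (le_sup_left (a := A))
    · rw [Submodule.span_le]
      rintro _ ⟨v, hv, hb, rfl⟩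
      have hvN : v.length = N := by rw [hv.length_eq, List.length_ofFn]
      by_cases hs : wt t v ≤ s
      · have h2 : (mon v : Ser p Z) ∈ Tn p t N s := Submodule.subset_span ⟨v, hvN, hs, rfl⟩
        exact (le_sup_right.trans (le_sup_left (a := A))) h2
      · push Not at hs
        obtain ⟨v', rfl⟩ : ∃ v' : Fin N → Z, List.ofFn v' = v := by
          subst hvN
          exact ⟨v.get, List.ofFn_get v⟩
        have h2 : (mon (List.ofFn v') : Ser p Z) ∈ B := by
          refine Submodule.subset_span ?_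
          rw [Finset.mem_coe, Finset.mem_image]
          exact ⟨⟨v', hb⟩, by rw [hF, Finset.mem_filter]; exact ⟨Finset.mem_univ _, hs⟩, rfl⟩
        exact (le_sup_right (a := A)) h2
  have hfinA : Module.Finite (ZMod p) ↥A := Submodule.finite_sup _ _
  have hfinB : Module.Finite (ZMod p) ↥B := Module.Finite.span_of_finite _ (Finset.finite_toSet _)
  have hfinAB : Module.Finite (ZMod p) ↥(A ⊔ B) := Submodule.finite_sup _ _
  have h1 : Module.finrank (ZMod p) ↥(Submodule.span (ZMod p)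
      (Set.range fun u : Fin N → Z => (mon (List.ofFn u) : Ser p Z))) = Fintype.card Z ^ N := by
    rw [finrank_span_eq_card (PiC_indep N), Fintype.card_fun, Fintype.card_fin]
  have h2 := Submodule.finrank_mono hle
  have h3 : Module.finrank (ZMod p) ↥(A ⊔ B) ≤ Module.finrank (ZMod p) ↥A +
      Module.finrank (ZMod p) ↥B := Submodule.finrank_add_le_finrank_add_finrank A B
  have h4 : Module.finrank (ZMod p) ↥B ≤ F.card :=
    (finrank_span_finset_le_card _).trans Finset.card_image_le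
  rw [h1] at h2
  show Fintype.card Z ^ N - Module.finrank (ZMod p) ↥A ≤ F.card
  omega

theorem no_identity [Fact p.Prime] {m : ℕ} (hm : 1 ≤ m) (t : Z → ℝ) (ht0 : ∀ a, 0 < t a)
    (ht1 : ∀ a, t a < 1) (hsum : ∑ a, t a = 4) (k : ι → ℕ) (hk : ∀ j, 2 ≤ k j)
    (ρ : (j : ι) → (Fin (k j) → Z) → ZMod p) (τ : ι → ℝ) (hτ : ∀ j, 0 < τ j)
    (hρ : ∀ j u, ρ j u ≠ 0 → wt t (List.ofFn u) ≤ τ j)
    (hle : ∑ j, τ j * (2 : ℝ) / 2 ^ k j ≤ 2) {T : ℝ} (hT : ∀ a, t a ≤ T)
    (hTN : (n0 m : ℝ) ^ 2 * 4 ^ n0 m * T ≤ 2 ^ n0 m)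
    (c : Equiv.Perm (Fin m) → ZMod p) (hc : c ≠ 0) :
    ∃ v : Fin m → List Z, (∀ i, IsBlock (v i)) ∧ ∑ i, (v i).length ≤ n0 m ∧
      mulp c (fun i => lieW (fun a => (mon [a] : Ser p Z)) (v i)) ∉
        Jn k ρ (∑ i, (v i).length) := by
  classical
  by_contra hcon
  push Not at hcon
  obtain ⟨σ, hσ⟩ : ∃ σ, c σ ≠ 0 := by
    by_contra h
    push Not at h
    exact hc (funext h)
  set N := n0 m with hN
  obtain ⟨hmN, hN1, hNf⟩ := n0_spec m
  rw [← hN] at hmN hN1 hNf
  have hspan := good_span k ρ (m := m) (fun τ => c (σ * τ)) (by rwa [mul_one]) N (by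
    intro v hv hl _
    rw [PiC_renum]
    have e : ∑ i, (v i).length = ∑ i, (v (σ⁻¹ i)).length :=
      (Equiv.sum_comp (σ⁻¹ : Equiv.Perm (Fin m)) fun i => (v i).length).symm
    rw [e]
    exact hcon (fun i => v (σ⁻¹ i)) (fun i => hv _) (by rw [← e]; exact hl))
  have hD := fun s => PiC_Dn t k ρ m N hspan s
  have hg := gsa t ht0 ht1 hsum k hk ρ τ hτ hρ hle N
  have hw0 : ∀ u : List Z, 0 < wt t u := wt_pos ht0
  have hw1 : ∀ u : List Z, wt t u ≤ 1 := by
    intro u
    exact (wt_le_pow ht0 (fun a => (ht1 a).le) u).trans (by rw [one_pow])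
  have hcount := integral_count (fun u : {u : Fin N → Z // ¬ BadW m (List.ofFn u)} =>
    wt t (List.ofFn u.1)) (fun u => (hw0 _).le) (fun u => hw1 _)
  have hint := integrable_count (fun u : {u : Fin N → Z // ¬ BadW m (List.ofFn u)} =>
    wt t (List.ofFn u.1)) 0 1
  have hDint : IntervalIntegrable (fun s => (Dn t k ρ N s : ℝ)) MeasureTheory.volume 0 1 := by
    apply AntitoneOn.intervalIntegrable
    intro s _ s' _ h
    show (Dn t k ρ N s' : ℝ) ≤ (Dn t k ρ N s : ℝ)
    exact_mod_cast Dn_anti t k ρ N h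
  have h1 : ∫ s in (0 : ℝ)..1, (Dn t k ρ N s : ℝ) ≤
      ∑ u : {u : Fin N → Z // ¬ BadW m (List.ofFn u)}, wt t (List.ofFn u.1) := by
    rw [← hcount]
    refine intervalIntegral.integral_mono zero_le_one hDint hint fun s => ?_
    exact Nat.cast_le.2 (hD s)
  -- the two sums
  set F : Finset (List Z) := (Finset.univ.filter fun u : Fin N → Z =>
    ¬ BadW m (List.ofFn u)).image List.ofFn with hF
  have h2 : ∑ u : {u : Fin N → Z // ¬ BadW m (List.ofFn u)}, wt t (List.ofFn u.1) =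
      ∑ u ∈ F, wt t u := by
    rw [hF, Finset.sum_image (fun a _ b _ h => List.ofFn_injective h)]
    exact (Finset.sum_subtype _ (fun u => by
      rw [Finset.mem_filter]
      exact ⟨fun h => h.2, fun h => ⟨Finset.mem_univ _, h⟩⟩) (fun u => wt t (List.ofFn u))).symm
  have h3 : ∑ u ∈ F, wt t u = ∑ u ∈ F.filter (fun u => u.Nodup), wt t u +
      ∑ u ∈ F.filter (fun u => ¬ u.Nodup), wt t u :=
    (Finset.sum_filter_add_sum_filter_not F (fun u => u.Nodup) _).symm
  have hFm : ∀ u ∈ F, u.length = N ∧ ¬ BadW m u := by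
    intro u hu
    rw [hF, Finset.mem_image] at hu
    obtain ⟨v, hv, rfl⟩ := hu
    exact ⟨List.length_ofFn, (Finset.mem_filter.1 hv).2⟩
  have h4 := sum_good m hm t (fun a => (ht0 a).le) N (F.filter (fun u => u.Nodup)) (by
    intro u hu
    rw [Finset.mem_filter] at hu
    exact ⟨(hFm u hu.1).1, hu.2, (hFm u hu.1).2⟩)
  have hT0 : 0 ≤ T := by
    obtain ⟨a⟩ : Nonempty Z := by
      by_contra h
      rw [not_nonempty_iff] at h
      rw [Finset.univ_eq_empty, Finset.sum_empty] at hsum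
      norm_num at hsum
    exact (ht0 a).le.trans (hT a)
  have h5 := sum_rep t (fun a => (ht0 a).le) hT hT0 N hN1 (F.filter (fun u => ¬ u.Nodup)) (by
    intro u hu
    rw [Finset.mem_filter] at hu
    exact ⟨(hFm u hu.1).1, hu.2⟩)
  rw [hsum] at h4 h5
  have hfac : (0 : ℝ) < (N.factorial : ℝ) := by exact_mod_cast N.factorial_pos
  have h6 : (im m N : ℝ) / N.factorial * 4 ^ N ≤ 2 ^ N / 4 := by
    have h7 : (im m N : ℝ) * 2 ^ (N + 2) ≤ N.factorial := by exact_mod_cast hNf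
    have h8 : (4 : ℝ) ^ N = 2 ^ N * 2 ^ N := by rw [← mul_pow]; norm_num
    rw [div_mul_eq_mul_div, div_le_iff₀ hfac, h8]
    rw [pow_add] at h7
    have h9 : (0 : ℝ) < 2 ^ N := by positivity
    nlinarith
  have h7 : (N : ℝ) ^ 2 / 2 * T * 4 ^ (N - 1) ≤ 2 ^ N / 8 := by
    have h8 : (4 : ℝ) ^ N = 4 ^ (N - 1) * 4 := by
      rw [← pow_succ]
      congr 1
      omega
    rw [h8] at hTN
    nlinarith
  have h9 : (0 : ℝ) < 2 ^ N := by positivity
  linarith

end Pool.Agent.GGS
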