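import Pool.Agent.GGS.Bas
import Pool.Agent.GGS.SwBas

/-!
# Presentations of weighted groups
-/

namespace Pool.Agent.GGS

universe u

variable {p : ℕ} {G : Type u} [Group G]

/-- A weighted presentation (with finitely many generators) of a weighted group. -/
structure Pres (p : ℕ) (G : Type u) [Group G] (w : WG p G) where
  X : Type
  fin : Fintype X
  wx : X → ℝ
  pos : ∀ x, 0 < wx x
  le_wm : ∀ x, wx x ≤ w.wm
  π : Fhat p X →* G
  surj : Function.Surjective π
  lift : ∀ g, ∃ h, π h = g ∧ Wt wx h = w.W g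
  le : ∀ h, w.W (π h) ≤ Wt wx h
  ι : Type
  r : ι → Fhat p X
  ker_r : ∀ i, π (r i) = 1
  closed : IsClosed (π.ker : Set (Fhat p X))
  minl : ∀ N : Subgroup (Fhat p X), N.Normal → IsClosed (N : Set (Fhat p X)) →
    (∀ i, r i ∈ N) → π.ker ≤ N
  summ : Summable fun i => Wt wx (r i)

attribute [instance] Pres.fin

/-- the images of the generators -/
noncomputable def Pres.ξ {w : WG p G} (Q : Pres p G w) (x : Q.X) : G := Q.π (genF x)

/-- `W(R)` -/
noncomputable def Pres.WR {w : WG p G} (Q : Pres p G w) : ℝ := ∑' i, Wt Q.wx (Q.r i)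

/-- the deficiency -/
noncomputable def Pres.K0 {w : WG p G} (Q : Pres p G w) : ℝ := ∑ x, Q.wx x - Q.WR - 1

end Pool.Agent.GGS
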