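import Pool.Agent.GGS.ResD

/-!
# Reduction to finitely many generators: the kernel (paper, 13.0)

* `red_kappa`: closed induction: two continuous homomorphisms to `G ⧸ M` which agree on the generators.
* `red_ker`: `←`: `red_kappa` for the elements of `P.R`.  `→`: let `N₀` be the right-hand side; `κ⁻¹(N₀)` is a closed
  normal subgroup which contains `P.R`, hence `ker π`, and all `genF x`, `x ∉ X₀`.  Its image under `π` is a closed
  (compactness) normal subgroup, so it contains `redM`.
-/

namespace Pool.Agent.GGS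

universe u

variable {p : ℕ} {G : Type u} [Group G] [TopologicalSpace G] [IsTopologicalGroup G] [T2Space G]

/-- the closed normal subgroup generated by the images of the letters outside `X₀` -/
def redM (P : Presn p G) (X₀ : Set P.X) : Subgroup G :=
  (Subgroup.normalClosure {g | ∃ x, x ∉ X₀ ∧ g = P.π (genF x)}).topologicalClosure

theorem redM_normal (P : Presn p G) (X₀ : Set P.X) : (redM P X₀).Normal := by
  unfold redM
  exact Subgroup.is_normal_topologicalClosure _

theorem redM_isClosed (P : Presn p G) (X₀ : Set P.X) : IsClosed (redM P X₀ : Set G) := by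
  unfold redM
  exact Subgroup.isClosed_topologicalClosure _

theorem redM_gen (P : Presn p G) (X₀ : Set P.X) {x : P.X} (hx : x ∉ X₀) :
    P.π (genF x) ∈ redM P X₀ := by
  unfold redM
  exact Subgroup.le_topologicalClosure _ (Subgroup.subset_normalClosure ⟨x, hx, rfl⟩)

theorem red_kappa [Fact p.Prime] (P : Presn p G) (X₀ : Set P.X) (D : ResD p P.w X₀)
    (h : Fhat p P.X) : (P.π (D.ι (D.κ h)))⁻¹ * P.π h ∈ redM P X₀ := by
  have hN := redM_normal P X₀
  have hcont : Continuous fun h : Fhat p P.X => (P.π (D.ι (D.κ h)))⁻¹ * P.π h :=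
    ((P.continuous.comp (D.cι.comp D.cκ)).inv).mul P.continuous
  refine Fhat_induction (P := fun h : Fhat p P.X => (P.π (D.ι (D.κ h)))⁻¹ * P.π h ∈ redM P X₀)
    ?_ ?_ ?_ ?_ ?_ h
  · exact (redM_isClosed P X₀).preimage hcont
  · simp only [map_one, inv_one, mul_one]
    exact Subgroup.one_mem _
  · intro x
    by_cases hx : x ∈ X₀
    · have e : D.ι (D.κ (genF x)) = genF x := by
        have h1 := D.κ_gen ⟨x, hx⟩
        have h2 := D.ι_gen ⟨x, hx⟩
        rw [show D.κ (genF x) = genF (⟨x, hx⟩ : X₀) from h1, h2]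
      rw [e, inv_mul_cancel]
      exact Subgroup.one_mem _
    · rw [D.κ_one x hx, map_one, map_one, inv_one, one_mul]
      exact redM_gen P X₀ hx
  · intro g k hg hk
    have e : (P.π (D.ι (D.κ (g * k))))⁻¹ * P.π (g * k) =
        ((P.π (D.ι (D.κ k)))⁻¹ * ((P.π (D.ι (D.κ g)))⁻¹ * P.π g) * (P.π (D.ι (D.κ k)))⁻¹⁻¹) *
          ((P.π (D.ι (D.κ k)))⁻¹ * P.π k) := by
      rw [map_mul, map_mul, map_mul, map_mul]
      group
    rw [e]
    exact Subgroup.mul_mem _ (hN.conj_mem _ hg _) hk
  · intro g hg
    have e : (P.π (D.ι (D.κ g⁻¹)))⁻¹ * P.π g⁻¹ =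
        P.π g * ((P.π (D.ι (D.κ g)))⁻¹ * P.π g)⁻¹ * (P.π g)⁻¹ := by
      rw [map_inv, map_inv, map_inv, map_inv]
      group
    rw [e]
    exact hN.conj_mem _ (Subgroup.inv_mem _ hg) _

theorem red_ker [Fact p.Prime] (P : Presn p G) (X₀ : Set P.X) (D : ResD p P.w X₀)
    (g : Fhat p X₀) : P.π (D.ι g) ∈ redM P X₀ ↔
      g ∈ (Subgroup.normalClosure (D.κ '' P.R)).topologicalClosure := by
  have hN := redM_normal P X₀
  constructor
  · intro hg
    set N₀ : Subgroup (Fhat p X₀) := (Subgroup.normalClosure (D.κ '' P.R)).topologicalClosure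
      with hN₀
    have hn0 : N₀.Normal := Subgroup.is_normal_topologicalClosure _
    have hc0 : IsClosed (N₀ : Set (Fhat p X₀)) := Subgroup.isClosed_topologicalClosure _
    set L : Subgroup (Fhat p P.X) := N₀.comap D.κ with hL
    have hLn : L.Normal := hn0.comap D.κ
    have hLc : IsClosed (L : Set (Fhat p P.X)) := hc0.preimage D.cκ
    have hker : P.π.ker ≤ L := by
      rw [P.ker]
      refine Subgroup.topologicalClosure_minimal _ ?_ hLc
      refine Subgroup.normalClosure_le_normal ?_
      intro r hr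
      exact Subgroup.le_topologicalClosure _ (Subgroup.subset_normalClosure ⟨r, hr, rfl⟩)
    have hmapn : (L.map P.π).Normal := hLn.map P.π P.surjective
    have hcomp : CompactSpace (Fhat p P.X) := compact_Fhat
    have hmapc : IsClosed ((L.map P.π : Subgroup G) : Set G) := by
      rw [Subgroup.coe_map]
      exact (hLc.isCompact.image P.continuous).isClosed
    have hle : redM P X₀ ≤ L.map P.π := by
      unfold redM
      refine Subgroup.topologicalClosure_minimal _ ?_ hmapc
      refine Subgroup.normalClosure_le_normal ?_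
      rintro _ ⟨x, hx, rfl⟩
      refine ⟨genF x, ?_, rfl⟩
      change D.κ (genF x) ∈ N₀
      rw [D.κ_one x hx]
      exact Subgroup.one_mem _
    obtain ⟨l, hl, hlg⟩ := hle hg
    have h1 : l⁻¹ * D.ι g ∈ P.π.ker := by
      rw [MonoidHom.mem_ker, map_mul, map_inv, hlg, inv_mul_cancel]
    have h2 : D.ι g ∈ L := by
      have h3 := Subgroup.mul_mem _ hl (hker h1)
      rwa [mul_inv_cancel_left] at h3
    have h4 : D.κ (D.ι g) ∈ N₀ := h2
    rwa [D.κι] at h4
  · intro hg
    set L : Subgroup (Fhat p X₀) := (redM P X₀).comap (P.π.comp D.ι) with hL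
    have hLn : L.Normal := hN.comap _
    have hLc : IsClosed (L : Set (Fhat p X₀)) :=
      (redM_isClosed P X₀).preimage (P.continuous.comp D.cι)
    have hle : (Subgroup.normalClosure (D.κ '' P.R)).topologicalClosure ≤ L := by
      refine Subgroup.topologicalClosure_minimal _ ?_ hLc
      refine Subgroup.normalClosure_le_normal ?_
      rintro _ ⟨r, hr, rfl⟩
      change P.π (D.ι (D.κ r)) ∈ redM P X₀
      have h1 := red_kappa P X₀ D r
      have h2 : P.π r = 1 := by
        rw [← MonoidHom.mem_ker, P.ker]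
        exact Subgroup.le_topologicalClosure _ (Subgroup.subset_normalClosure hr)
      rw [h2, mul_one] at h1
      exact (Subgroup.inv_mem_iff _).1 h1
    exact hle hg

end Pool.Agent.GGS
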