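import Pool.Agent.GGS.CocDef
import Pool.Agent.GGS.Interp

/-!
# The homomorphism to the quotient algebra (paper, 8.6)

`rel_check`: for every linear functional `l` on `E` the function `h ↦ l (evs z (n+1) (K (r i) h) - 1)` is left
`V`-invariant and all `dif (mono L a) _ 1` vanish, so it is `0` by `chain_inj`.
`rel_hom`: `{g ∈ ker π | evs z (n+1) (K g h) = 1 for all h}` is a closed normal subgroup.
-/

namespace Pool.Agent.GGS

universe u

open Ser

variable {p : ℕ} {G : Type u} [Group G] {w : WG p G}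

section aux

variable {X : Type*} [Fintype X] {E : Type*} [Ring E] [Algebra (ZMod p) E]

/-- the value of `evs` if the constant coefficient is `1` and the linear ones vanish -/
lemma evs_eq_one_add (z : X → E) (n : ℕ) (f : List X → ZMod p) (h0 : f [] = 1)
    (h1 : 1 ≤ n → ∀ a, f [a] = 0) :
    evs z (n + 1) f = 1 + ∑ k ∈ Finset.Ico 2 (n + 1), ∑ u : Fin k → X,
      f (List.ofFn u) • ((List.ofFn u).map z).prod := by
  unfold evs
  rw [Finset.range_eq_Ico, Finset.sum_eq_sum_Ico_succ_bot (Nat.succ_pos n)]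
  congr 1
  · rw [Fintype.sum_unique]
    simp [h0]
  · rcases Nat.eq_zero_or_pos n with rfl | hn
    · simp
    · rw [Finset.sum_eq_sum_Ico_succ_bot (by omega : 0 + 1 < n + 1)]
      have e : ∑ u : Fin (0 + 1) → X, f (List.ofFn u) • ((List.ofFn u).map z).prod = 0 := by
        refine Finset.sum_eq_zero fun u _ => ?_
        have e2 : List.ofFn u = [u 0] := by simp
        rw [e2, h1 hn, zero_smul]
      rw [e, zero_add]

lemma dif_lin {M : Type*} [AddCommGroup M] [Module (ZMod p) M] {ι : Type*} (s : Finset ι)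
    (c : ι → G → ZMod p) (m : ι → M) (L : List G) (g : G) :
    dif L (fun h => ∑ i ∈ s, c i h • m i) g = ∑ i ∈ s, dif L (c i) g • m i := by
  induction L generalizing g with
  | nil => rfl
  | cons h L ih =>
    simp only [dif_cons, ih, sub_smul, Finset.sum_sub_distrib]

lemma dif_map {M M' : Type*} [AddCommGroup M] [AddCommGroup M'] (l : M →+ M') (f : G → M)
    (L : List G) (g : G) : dif L (fun h => l (f h)) g = l (dif L f g) := by
  induction L generalizing g with
  | nil => rfl
  | cons h L ih => simp only [dif_cons, ih, map_sub]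

lemma dif_fsum {M : Type*} [AddCommGroup M] {ι : Type*} (s : Finset ι)
    (c : ι → G → M) (L : List G) (g : G) :
    dif L (fun h => ∑ i ∈ s, c i h) g = ∑ i ∈ s, dif L (c i) g := by
  induction L generalizing g with
  | nil => rfl
  | cons h L ih =>
    simp only [dif_cons, ih, Finset.sum_sub_distrib]

end aux

theorem rel_check [Fact p.Prime] (Q : Pres p G w) {V : Subgroup G} (hV : Op w V)
    {L : List (G × ℝ)} (hL : Chain w ⊤ V L) {Z : Type} [Fintype Z] {χ : Z → G → ZMod p}
    {r : Z → ℝ} {n : ℕ} {K : Fhat p Q.X → G → List Z → ZMod p} (hK : Coc Q V χ r n K)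
    {E : Type} [Ring E] [Algebra (ZMod p) E] (z : Z → E) (g : Fhat p Q.X) (hg : Q.π g = 1)
    (h : ∀ (a : Fin L.length → Fin p) (k : ℕ), 2 ≤ k → k ≤ n →
      ∑ u : Fin k → Z, dif (mono L a) (fun h => K g h (List.ofFn u)) 1 •
        ((List.ofFn u).map z).prod = 0) (x : G) :
    evs z (n + 1) (K g x) = 1 := by
  rw [evs_eq_one_add z n (K g x) (hK.nil g x) (fun hn a => hK.lin_ker hn g hg x a)]
  have key : (∑ k ∈ Finset.Ico 2 (n + 1), ∑ u : Fin k → Z,
      K g x (List.ofFn u) • ((List.ofFn u).map z).prod) = 0 := by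
    rw [← Module.forall_dual_apply_eq_zero_iff (ZMod p)]
    intro l
    refine chain_inj w hL hV (fun x => l (∑ k ∈ Finset.Ico 2 (n + 1), ∑ u : Fin k → Z,
      K g x (List.ofFn u) • ((List.ofFn u).map z).prod)) ?_ ?_ x (Subgroup.mem_top x)
    · intro v hv y _
      congr 1
      refine Finset.sum_congr rfl fun k hk => Finset.sum_congr rfl fun u _ => ?_
      rw [hK.inv g v hv y (List.ofFn u)]
      rw [List.length_ofFn]
      have := (Finset.mem_Ico.mp hk).2
      omega
    · intro a
      have e1 := dif_map (l : E →ₗ[ZMod p] ZMod p).toAddMonoidHom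
        (fun x => ∑ k ∈ Finset.Ico 2 (n + 1), ∑ u : Fin k → Z,
          K g x (List.ofFn u) • ((List.ofFn u).map z).prod) (mono L a) 1
      refine e1.trans ?_
      rw [dif_fsum]
      have e2 : (∑ k ∈ Finset.Ico 2 (n + 1), dif (mono L a) (fun x => ∑ u : Fin k → Z,
          K g x (List.ofFn u) • ((List.ofFn u).map z).prod) 1) = 0 := by
        refine Finset.sum_eq_zero fun k hk => ?_
        rw [Finset.mem_Ico] at hk
        rw [dif_lin Finset.univ (fun (u : Fin k → Z) x => K g x (List.ofFn u))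
          (fun u => ((List.ofFn u).map z).prod)]
        exact h a k hk.1 (by omega)
      rw [e2, map_zero]
  rw [key, add_zero]

theorem rel_hom [Fact p.Prime] (Q : Pres p G w) {V : Subgroup G} {Z : Type} [Fintype Z]
    {χ : Z → G → ZMod p} {r : Z → ℝ} {n : ℕ} {K : Fhat p Q.X → G → List Z → ZMod p}
    (hK : Coc Q V χ r n K) {E : Type} [Ring E] [Algebra (ZMod p) E] (z : Z → E)
    (hz : NilW z (n + 1)) (h : ∀ i x, evs z (n + 1) (K (Q.r i) x) = 1) :
    ∃ θ : G → E, (∀ g, Q.π g ∈ V → θ (Q.π g) = evs z (n + 1) (K g 1)) ∧ θ 1 = 1 ∧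
      ∀ u ∈ V, ∀ v ∈ V, θ (u * v) = θ u * θ v := by
  classical
  have Tmul : ∀ g g' x, evs z (n + 1) (K (g * g') x) =
      evs z (n + 1) (K g x) * evs z (n + 1) (K g' (x * Q.π g)) := by
    intro g g' x
    rw [← evs_mul hz (K g x : Ser p Z) (K g' (x * Q.π g) : Ser p Z)]
    refine evs_congr z (n + 1) fun u hu => ?_
    exact hK.mul g g' x u (by omega)
  have Tone : ∀ x, evs z (n + 1) (K 1 x) = 1 := by
    intro x
    rw [← evs_one (p := p) hz]
    refine evs_congr z (n + 1) fun u hu => ?_
    cases u with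
    | nil => rw [hK.nil, Ser.one_nil]
    | cons a u => rw [hK.one x (a :: u) (List.cons_ne_nil a u) (by omega), Ser.one_cons]
  let N : Subgroup (Fhat p Q.X) :=
    { carrier := {g | Q.π g = 1 ∧ ∀ x, evs z (n + 1) (K g x) = 1}
      mul_mem' := by
        rintro g g' ⟨h1, h2⟩ ⟨h3, h4⟩
        refine ⟨by rw [map_mul, h1, h3, one_mul], fun x => ?_⟩
        rw [Tmul, h2, h4, one_mul]
      one_mem' := ⟨map_one _, Tone⟩
      inv_mem' := by
        rintro g ⟨h1, h2⟩
        refine ⟨by rw [map_inv, h1, inv_one], fun x => ?_⟩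
        have h3 := Tmul g g⁻¹ x
        rw [mul_inv_cancel, Tone, h2, one_mul, h1, mul_one] at h3
        exact h3.symm }
  have hmem : ∀ g, g ∈ N ↔ Q.π g = 1 ∧ ∀ x, evs z (n + 1) (K g x) = 1 := fun g => Iff.rfl
  have hnorm : N.Normal := by
    refine ⟨fun g hg y => ?_⟩
    rw [hmem] at hg ⊢
    obtain ⟨h1, h2⟩ := hg
    refine ⟨by rw [map_mul, map_mul, h1, mul_one, ← map_mul, mul_inv_cancel, map_one], fun x => ?_⟩
    rw [Tmul, Tmul, h2, mul_one, map_mul, h1, mul_one, ← Tmul, mul_inv_cancel, Tone]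
  have hclosed : IsClosed (N : Set (Fhat p Q.X)) := by
    have e : (N : Set (Fhat p Q.X)) = (Q.π.ker : Set (Fhat p Q.X)) ∩
        ⋂ x, {g | evs z (n + 1) (K g x) = 1} := by
      ext g
      simp only [SetLike.mem_coe, Set.mem_inter_iff, Set.mem_iInter, Set.mem_ofPred_eq,
        MonoidHom.mem_ker, hmem]
    rw [e]
    refine Q.closed.inter (isClosed_iInter fun x => ?_)
    let _ : TopologicalSpace E := ⊥
    have _ : DiscreteTopology E := ⟨rfl⟩
    have hc : Continuous fun g => evs z (n + 1) (K g x) := by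
      unfold evs
      refine continuous_finsetSum _ fun k hk => continuous_finsetSum _ fun u _ => ?_
      have hk' := Finset.mem_range.mp hk
      have h1 := hK.cont x (List.ofFn u) (by rw [List.length_ofFn]; omega)
      exact (continuous_of_discreteTopology (f := fun c : ZMod p =>
        c • ((List.ofFn u).map z).prod)).comp h1
    exact isClosed_singleton.preimage hc
  have hker := Q.minl N hnorm hclosed (fun i => (hmem _).mpr ⟨Q.ker_r i, h i⟩)
  have hT : ∀ g, Q.π g = 1 → ∀ x, evs z (n + 1) (K g x) = 1 := fun g hg =>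
    ((hmem g).mp (hker hg)).2
  choose s hs using Q.surj
  have hθ : ∀ g, evs z (n + 1) (K (s (Q.π g)) 1) = evs z (n + 1) (K g 1) := by
    intro g
    have e : s (Q.π g) = g * (g⁻¹ * s (Q.π g)) := by group
    rw [e, Tmul, hT (g⁻¹ * s (Q.π g)) (by rw [map_mul, map_inv, hs, inv_mul_cancel]), mul_one]
  refine ⟨fun y => evs z (n + 1) (K (s y) 1), fun g _ => hθ g, ?_, ?_⟩
  · have h1 := hθ 1
    rw [map_one] at h1
    exact h1.trans (Tone 1)
  · intro u hu v hv
    change evs z (n + 1) (K (s (u * v)) 1) = evs z (n + 1) (K (s u) 1) * evs z (n + 1) (K (s v) 1)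
    have h1 := hθ (s u * s v)
    rw [map_mul, hs, hs] at h1
    rw [h1, Tmul, hs, one_mul]
    congr 1
    refine evs_congr z (n + 1) fun t ht => ?_
    have h2 := hK.inv (s v) u hu 1 t (by omega)
    rw [mul_one] at h2
    exact h2

end Pool.Agent.GGS
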