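import Pool.Agent.GGS.IxMono
import Pool.Agent.GGS.ChainEx

/-!
# Relative index (paper, 2.5)
-/

namespace Pool.Agent.GGS

universe u

variable {p : ℕ} {G : Type u} [Group G] (w : WG p G)

/-- a step of small weight stays a step after intersection with `N` -/
theorem step_inf {N V V' : Subgroup G} {y : G} {r : ℝ} (h : Step w V V' y r) (hy : y ∈ N) :
    Step w (N ⊓ V) (N ⊓ V') y r where
  le := inf_le_inf_left N h.le
  mem := Subgroup.mem_inf.mpr ⟨hy, h.mem⟩
  not_mem := fun h' => h.not_mem (Subgroup.mem_inf.mp h').2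
  wy := h.wy
  deep := fun v hv hv' => h.deep v (Subgroup.mem_inf.mp hv).2 fun h' =>
    hv' (Subgroup.mem_inf.mpr ⟨(Subgroup.mem_inf.mp hv).1, h'⟩)
  norm := fun v hv u hu => Subgroup.mem_inf.mpr
    ⟨N.mul_mem (N.mul_mem (Subgroup.mem_inf.mp hv).1 (Subgroup.mem_inf.mp hu).1)
      (N.inv_mem (Subgroup.mem_inf.mp hv).1),
      h.norm v (Subgroup.mem_inf.mp hv).2 u (Subgroup.mem_inf.mp hu).2⟩
  ypow := Subgroup.mem_inf.mpr ⟨N.pow_mem hy p, h.ypow⟩
  cover := fun v hv => by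
    obtain ⟨i, hi, u, hu, hvu⟩ := h.cover v (Subgroup.mem_inf.mp hv).2
    refine ⟨i, hi, u, Subgroup.mem_inf.mpr ⟨?_, hu⟩, hvu⟩
    have h1 : u = v * (y ^ i)⁻¹ := by rw [hvu]; group
    rw [h1]
    exact N.mul_mem (Subgroup.mem_inf.mp hv).1 (N.inv_mem (N.pow_mem hy i))

/-- a chain of steps of small weight stays a chain after intersection with `N` -/
theorem chain_inf {N V V' : Subgroup G} {t : ℝ} {L : List (G × ℝ)} (h : Chain w V V' L)
    (hle : N ≤ V) (hb : ∀ g ∈ V, w.W g ≤ t → g ∈ N) (hL : ∀ x ∈ L, x.2 ≤ t) :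
    Chain w N (N ⊓ V') L := by
  induction h with
  | nil =>
    rw [inf_eq_left.mpr hle]
    exact Chain.nil
  | @cons V₁ V₂ L y r hc hs ih =>
    refine Chain.cons (ih fun x hx => hL x (List.mem_cons_of_mem _ hx)) ?_
    refine step_inf w hs (hb y (chain_le w hc hs.mem) ?_)
    rw [hs.wy]
    exact hL (y, r) List.mem_cons_self

theorem Ix_rel [Fact p.Prime] {V V' N : Subgroup G} {t : ℝ} (hC : Cc w V t V') (hN : Op w N)
    (hle : N ≤ V) (hb : ∀ g ∈ V, w.W g ≤ t → g ∈ N) :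
    Ix w (N ⊓ V') * Ix w V = Ix w N * Ix w V' := by
  obtain ⟨L, hL⟩ := exists_chain w hC.op hC.le
  have h1 := chain_small w hC hL
  have h2 := chain_inf w hL hle hb h1
  rw [Ix_chain w h2 (op_inf w hN hC.op), Ix_chain w hL hC.op]
  ring

end Pool.Agent.GGS
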