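import Pool.Agent.GGS.DeepDef
import Pool.Agent.GGS.CocDef

/-!
# The bounds for the weights of the relations (paper, section 12)
-/

namespace Pool.Agent.GGS

universe u

open Ser

variable {p : ℕ} {G : Type u} [Group G]

theorem relsize_prod {A : Type*} {k : ℕ} (f : Fin k → A) (e : Fin k → ℕ) (φ : A → ℝ) :
    (((List.finRange k).flatMap fun i => List.replicate (e i) (f i)).map φ).prod =
      ∏ i, φ (f i) ^ e i := by
  rw [List.map_flatMap, List.flatMap_def, List.prod_flatten, List.map_map, Fin.prod_univ_def]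
  congr 2
  funext i
  simp only [Function.comp, List.map_replicate, List.prod_replicate]

theorem relsize_len {A : Type*} {k : ℕ} (f : Fin k → A) (e : Fin k → ℕ) (φ : A → Bool) :
    (((List.finRange k).flatMap fun i => List.replicate (e i) (f i)).filter φ).length =
      ∑ i, if φ (f i) = true then e i else 0 := by
  rw [List.filter_flatMap, List.length_flatMap, Fin.sum_univ_def]
  congr 2
  funext i
  rw [List.filter_replicate]
  split <;> simp

/-- the flagged monomial -/
def relsize_fl (n : ℕ) (L : List (G × ℝ)) (a : Fin L.length → Fin p) : FL G :=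
  (List.finRange L.length).flatMap fun i =>
    List.replicate (a i : ℕ) ((L.get i).1, (L.get i).2, decide ((i : ℕ) < n))

omit [Group G] in
theorem relsize_map (n : ℕ) (L : List (G × ℝ)) (a : Fin L.length → Fin p) :
    (relsize_fl n L a).map (fun x => x.1) = mono L a := by
  unfold relsize_fl mono
  rw [List.map_flatMap]
  congr 1
  funext i
  rw [List.map_replicate]

omit [Group G] in
theorem relsize_flw (n : ℕ) (L : List (G × ℝ)) (a : Fin L.length → Fin p) :
    flw (relsize_fl n L a) = mw L a := by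
  unfold flw relsize_fl mw
  rw [relsize_prod]

omit [Group G] in
theorem relsize_flh (n : ℕ) (L : List (G × ℝ)) (a : Fin L.length → Fin p) :
    flh (relsize_fl n L a) = hw n L a := by
  unfold flh relsize_fl hw
  rw [relsize_prod]
  refine Finset.prod_congr rfl fun i _ => ?_
  by_cases h : (i : ℕ) < n
  · rw [if_pos (decide_eq_true h), if_pos h, one_pow]
  · rw [if_neg (by simpa using h), if_neg h]

omit [Group G] in
theorem relsize_fld (n : ℕ) (L : List (G × ℝ)) (a : Fin L.length → Fin p) :
    fld (relsize_fl n L a) = dd n L a := by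
  unfold fld relsize_fl dd
  rw [relsize_len]
  refine Finset.sum_congr rfl fun i _ => ?_
  by_cases h : (i : ℕ) < n
  · rw [if_pos (decide_eq_true h), if_pos h]
  · rw [if_neg (by simpa using h), if_neg h]

/-- The bounds for the weights of the relations. -/
theorem rel_size [Fact p.Prime] {w : WG p G} (Q : Pres p G w) {V : Subgroup G} (hV : Op w V)
    {Ld Lh : List (G × ℝ)} (hL : Chain w ⊤ V (Ld ++ Lh)) {b : ℝ} (hb0 : 0 < b) (hb1 : b < 1)
    (hLd : ∀ x ∈ Ld, x.2 ≤ b) {Z : Type} [Fintype Z] {χ : Z → G → ZMod p} {r : Z → ℝ}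
    (hr : ∀ a, 0 < r a) (hrb : ∀ a, r a ≤ b) {n : ℕ} {K : Fhat p Q.X → G → List Z → ZMod p}
    (hK : Coc Q V χ r n K) (g : Fhat p Q.X) (a : Fin (Ld ++ Lh).length → Fin p) (u : List Z)
    (hu : u ≠ []) (hun : u.length ≤ n)
    (h : dif (mono (Ld ++ Lh) a) (fun h => K g h u) 1 ≠ 0) :
    wt r u ≤ Wt Q.wx g * mw (Ld ++ Lh) a ∧
      (√b ≤ hw Ld.length (Ld ++ Lh) a →
        wt r u ≤ mw (Ld ++ Lh) a * √b ^ (u.length - dd Ld.length (Ld ++ Lh) a)) := by
  have hmem := chain_mem w hL
  have hget : ∀ i : Fin (Ld ++ Lh).length, w.W ((Ld ++ Lh).get i).1 = ((Ld ++ Lh).get i).2 ∧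
      0 < ((Ld ++ Lh).get i).2 ∧ ((Ld ++ Lh).get i).2 ≤ w.wm := fun i =>
    (hmem _ (List.get_mem _ i)).2
  constructor
  · by_contra hcon
    refine h (hK.bound1 g (mono (Ld ++ Lh) a) u hu hun ?_)
    have h1 : wl w (mono (Ld ++ Lh) a) = mw (Ld ++ Lh) a := by
      unfold wl mono mw
      rw [relsize_prod]
      exact Finset.prod_congr rfl fun i _ => by rw [(hget i).1]
    rw [h1]
    exact not_le.1 hcon
  · intro hs
    by_contra hcon
    refine h ?_
    have h1 := hK.bound2 g (relsize_fl Ld.length (Ld ++ Lh) a) b u hb0 hb1 hrb ?_ ?_ hun ?_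
    · rwa [relsize_map] at h1
    · intro x hx
      unfold relsize_fl at hx
      rw [List.mem_flatMap] at hx
      obtain ⟨i, -, hi⟩ := hx
      have hx2 := List.eq_of_mem_replicate hi
      rw [hx2]
      refine ⟨(hget i).1.le, (hget i).2.1, (hget i).2.2.trans w.wm_lt.le, ?_⟩
      intro hd
      have hd' : (i : ℕ) < Ld.length := by simpa using hd
      refine hLd _ ?_
      have h2 : (Ld ++ Lh).get i = Ld.get ⟨i, hd'⟩ := by
        rw [List.get_eq_getElem, List.get_eq_getElem]
        exact List.getElem_append_left hd'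
      rw [h2]
      exact List.get_mem _ _
    · rw [relsize_flh]
      exact hs
    · rw [relsize_flw, relsize_fld]
      exact not_le.1 hcon

end Pool.Agent.GGS
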