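import Pool.Agent.GGS.SwBas

/-!
# Killing letters (paper, 13.0)

`κ`: restrict a series on `X` to the words in `X₀` (`f ↦ fun u => f (u.map Subtype.val)`); `ι`: extend a series on
`X₀` by `0` on the words which are not in `X₀`.  Both are continuous ring homomorphisms; they map the generators to
generators (or to `1`), hence `Fhat` to `Fhat` (`Fhat_induction` or `Subgroup.map`/`topologicalClosure`).
-/

namespace Pool.Agent.GGS

open Ser

/-- The maps between the free pro-`p` groups on `X` and on a subset `X₀`. -/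
structure ResD (p : ℕ) {X : Type} (w : X → ℝ) (X₀ : Set X) where
  κ : Fhat p X →* Fhat p X₀
  ι : Fhat p X₀ →* Fhat p X
  cκ : Continuous κ
  cι : Continuous ι
  κ_gen : ∀ x : X₀, κ (genF x.1) = genF x
  κ_one : ∀ x, x ∉ X₀ → κ (genF x) = 1
  ι_gen : ∀ x : X₀, ι (genF x) = genF x.1
  κι : ∀ g, κ (ι g) = g
  wκ : ∀ g, Wt (fun x : X₀ => w x.1) (κ g) ≤ Wt w g
  wι : ∀ g, Wt w (ι g) ≤ Wt (fun x : X₀ => w x.1) g

namespace ResDAux

variable {p : ℕ} {X : Type} {X₀ : Set X}

/-- restriction of a series to the words in `X₀` -/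
def kS (p : ℕ) {X : Type} (X₀ : Set X) : Ser p X →+* Ser p X₀ where
  toFun f := fun u => f (u.map Subtype.val)
  map_zero' := rfl
  map_one' := by
    ext u
    cases u with
    | nil => rw [List.map_nil, one_nil, one_nil]
    | cons x u => rw [List.map_cons, one_cons, one_cons]
  map_add' f g := rfl
  map_mul' f g := by
    ext u
    change (f * g) (u.map Subtype.val) = ∑ i ∈ Finset.range (u.length + 1),
      f ((u.take i).map Subtype.val) * g ((u.drop i).map Subtype.val)
    rw [mul_apply, List.length_map]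
    refine Finset.sum_congr rfl fun i _ => ?_
    rw [List.map_take, List.map_drop]

theorem kS_apply (f : Ser p X) (u : List X₀) : kS p X₀ f u = f (u.map Subtype.val) := rfl

/-- extension of a series by zero -/
noncomputable def iF (f : Ser p X₀) : Ser p X := fun u => by
  classical exact if h : ∃ v : List X₀, v.map Subtype.val = u then f h.choose else 0

theorem iF_map (f : Ser p X₀) (v : List X₀) : iF f (v.map Subtype.val) = f v := by
  have h : ∃ v' : List X₀, v'.map Subtype.val = v.map Subtype.val := ⟨v, rfl⟩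
  have e : iF f (v.map Subtype.val) = f h.choose := by
    unfold iF
    rw [dif_pos h]
  rw [e]
  have h2 : h.choose = v := (List.map_injective_iff.mpr Subtype.val_injective) h.choose_spec
  rw [h2]

theorem iF_not (f : Ser p X₀) {u : List X} (h : ¬ ∃ v : List X₀, v.map Subtype.val = u) :
    iF f u = 0 := by
  unfold iF
  rw [dif_neg h]

/-- extension by zero as a ring homomorphism -/
noncomputable def iS (p : ℕ) {X : Type} (X₀ : Set X) : Ser p X₀ →+* Ser p X where
  toFun f := iF f
  map_zero' := by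
    ext u
    by_cases h : ∃ v : List X₀, v.map Subtype.val = u
    · obtain ⟨v, rfl⟩ := h
      rw [iF_map, zero_apply, zero_apply]
    · rw [iF_not _ h, zero_apply]
  map_one' := by
    ext u
    by_cases h : ∃ v : List X₀, v.map Subtype.val = u
    · obtain ⟨v, rfl⟩ := h
      rw [iF_map]
      cases v with
      | nil => rw [List.map_nil, one_nil, one_nil]
      | cons x v => rw [List.map_cons, one_cons, one_cons]
    · rw [iF_not _ h]
      cases u with
      | nil => exact absurd ⟨[], rfl⟩ h
      | cons x u => rw [one_cons]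
  map_add' f g := by
    ext u
    by_cases h : ∃ v : List X₀, v.map Subtype.val = u
    · obtain ⟨v, rfl⟩ := h
      rw [add_apply, iF_map, iF_map, iF_map, add_apply]
    · rw [add_apply, iF_not _ h, iF_not _ h, iF_not _ h, add_zero]
  map_mul' f g := by
    ext u
    by_cases h : ∃ v : List X₀, v.map Subtype.val = u
    · obtain ⟨v, rfl⟩ := h
      rw [iF_map, mul_apply, mul_apply, List.length_map]
      refine Finset.sum_congr rfl fun i _ => ?_
      rw [← List.map_take, ← List.map_drop, iF_map, iF_map]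
    · rw [iF_not _ h, mul_apply]
      symm
      refine Finset.sum_eq_zero fun i _ => ?_
      by_cases h1 : ∃ v : List X₀, v.map Subtype.val = u.take i
      · by_cases h2 : ∃ v : List X₀, v.map Subtype.val = u.drop i
        · obtain ⟨v1, hv1⟩ := h1
          obtain ⟨v2, hv2⟩ := h2
          exact absurd ⟨v1 ++ v2, by rw [List.map_append, hv1, hv2, List.take_append_drop]⟩ h
        · rw [iF_not g h2, mul_zero]
      · rw [iF_not f h1, zero_mul]

theorem iS_map (f : Ser p X₀) (v : List X₀) : iS p X₀ f (v.map Subtype.val) = f v := iF_map f v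

theorem iS_not (f : Ser p X₀) {u : List X} (h : ¬ ∃ v : List X₀, v.map Subtype.val = u) :
    iS p X₀ f u = 0 := iF_not f h

theorem kS_cont : Continuous (kS p X₀) :=
  continuous_pi fun u => continuous_apply (u.map Subtype.val)

theorem iS_cont : Continuous (iS p X₀) := by
  refine continuous_pi fun u => ?_
  by_cases h : ∃ v : List X₀, v.map Subtype.val = u
  · obtain ⟨v, rfl⟩ := h
    have e : (fun f : Ser p X₀ => iS p X₀ f (v.map Subtype.val)) = fun f => f v := by
      funext f
      exact iS_map f v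
    rw [e]
    exact continuous_apply v
  · have e : (fun f : Ser p X₀ => iS p X₀ f u) = fun _ => 0 := by
      funext f
      exact iS_not f h
    rw [e]
    exact continuous_const

theorem kS_iS (f : Ser p X₀) : kS p X₀ (iS p X₀ f) = f := by
  ext u
  rw [kS_apply, iS_map]

theorem kS_gen (x : X₀) : kS p X₀ (mon [x.1]) = mon [x] := by
  ext u
  rw [kS_apply]
  by_cases h : u = [x]
  · rw [h]
    change (mon [x.1] : Ser p X) [x.1] = _
    rw [mon_self, mon_self]
  · rw [mon_ne h, mon_ne]
    intro h2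
    exact h ((List.map_injective_iff.mpr Subtype.val_injective) (h2.trans rfl))

theorem kS_one_of_not (x : X) (hx : x ∉ X₀) : kS p X₀ (mon [x]) = 0 := by
  ext u
  rw [kS_apply, zero_apply, mon_ne]
  intro h
  have h2 : x ∈ u.map Subtype.val := by
    rw [h]
    exact List.mem_singleton.mpr rfl
  obtain ⟨y, _, hy⟩ := List.mem_map.mp h2
  exact hx (hy ▸ y.2)

theorem iS_gen (x : X₀) : iS p X₀ (mon [x]) = mon [x.1] := by
  ext u
  by_cases h : ∃ v : List X₀, v.map Subtype.val = u
  · obtain ⟨v, rfl⟩ := h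
    rw [iS_map]
    exact (congrFun (kS_gen x) v).symm
  · rw [iS_not _ h, mon_ne]
    intro h2
    exact h ⟨[x], h2.symm⟩

/-- the restriction on the units -/
noncomputable def kU (p : ℕ) {X : Type} (X₀ : Set X) : (Ser p X)ˣ →* (Ser p X₀)ˣ :=
  Units.map (kS p X₀).toMonoidHom

/-- the extension on the units -/
noncomputable def iU (p : ℕ) {X : Type} (X₀ : Set X) : (Ser p X₀)ˣ →* (Ser p X)ˣ :=
  Units.map (iS p X₀).toMonoidHom

theorem kU_cont : Continuous (kU p X₀) := Continuous.units_map _ kS_cont

theorem iU_cont : Continuous (iU p X₀) := Continuous.units_map _ iS_cont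

theorem kU_gen (x : X₀) : kU p X₀ (gen x.1) = gen x := by
  apply Units.ext
  change kS p X₀ (1 + mon [x.1]) = 1 + mon [x]
  rw [map_add, map_one, kS_gen]

theorem kU_one (x : X) (hx : x ∉ X₀) : kU p X₀ (gen x) = 1 := by
  apply Units.ext
  change kS p X₀ (1 + mon [x]) = 1
  rw [map_add, map_one, kS_one_of_not x hx, add_zero]

theorem iU_gen (x : X₀) : iU p X₀ (gen x) = gen x.1 := by
  apply Units.ext
  change iS p X₀ (1 + mon [x]) = 1 + mon [x.1]
  rw [map_add, map_one, iS_gen]

theorem kU_mem (g : (Ser p X)ˣ) (hg : g ∈ Fhat p X) : kU p X₀ g ∈ Fhat p X₀ := by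
  have hcl : IsClosed ((Fhat p X₀ : Subgroup (Ser p X₀)ˣ) : Set (Ser p X₀)ˣ) :=
    Subgroup.isClosed_topologicalClosure _
  have h : Fhat p X ≤ (Fhat p X₀).comap (kU p X₀) := by
    refine Subgroup.topologicalClosure_minimal _ ?_ ?_
    · rw [Subgroup.closure_le]
      rintro _ ⟨x, rfl⟩
      change kU p X₀ (gen x) ∈ Fhat p X₀
      by_cases hx : x ∈ X₀
      · rw [kU_gen ⟨x, hx⟩]
        exact (genF (⟨x, hx⟩ : X₀)).2
      · rw [kU_one x hx]
        exact one_mem _
    · exact hcl.preimage kU_cont
  exact h hg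

theorem iU_mem (g : (Ser p X₀)ˣ) (hg : g ∈ Fhat p X₀) : iU p X₀ g ∈ Fhat p X := by
  have hcl : IsClosed ((Fhat p X : Subgroup (Ser p X)ˣ) : Set (Ser p X)ˣ) :=
    Subgroup.isClosed_topologicalClosure _
  have h : Fhat p X₀ ≤ (Fhat p X).comap (iU p X₀) := by
    refine Subgroup.topologicalClosure_minimal _ ?_ ?_
    · rw [Subgroup.closure_le]
      rintro _ ⟨x, rfl⟩
      change iU p X₀ (gen x) ∈ Fhat p X
      rw [iU_gen x]
      exact (genF x.1).2
    · exact hcl.preimage iU_cont
  exact h hg

/-- the restriction -/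
noncomputable def kF (p : ℕ) {X : Type} (X₀ : Set X) : Fhat p X →* Fhat p X₀ :=
  ((kU p X₀).comp (Fhat p X).subtype).codRestrict (Fhat p X₀) fun g => kU_mem g.1 g.2

/-- the extension -/
noncomputable def iFh (p : ℕ) {X : Type} (X₀ : Set X) : Fhat p X₀ →* Fhat p X :=
  ((iU p X₀).comp (Fhat p X₀).subtype).codRestrict (Fhat p X) fun g => iU_mem g.1 g.2

theorem kF_toSer (g : Fhat p X) : toSer (kF p X₀ g) = kS p X₀ (toSer g) := rfl

theorem iFh_toSer (g : Fhat p X₀) : toSer (iFh p X₀ g) = iS p X₀ (toSer g) := rfl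

theorem wt_map (w : X → ℝ) (u : List X₀) :
    wt w (u.map Subtype.val) = wt (fun x : X₀ => w x.1) u := by
  unfold wt
  rw [List.map_map]
  rfl

end ResDAux

open ResDAux in
theorem exists_resD (p : ℕ) [Fact p.Prime] {X : Type} (w : X → ℝ) (h0 : ∀ x, 0 < w x)
    (h1 : ∀ x, w x ≤ 1) (X₀ : Set X) : Nonempty (ResD p w X₀) := by
  refine ⟨{
    κ := kF p X₀
    ι := iFh p X₀
    cκ := ?_
    cι := ?_
    κ_gen := ?_
    κ_one := ?_
    ι_gen := ?_
    κι := ?_
    wκ := ?_
    wι := ?_ }⟩
  · exact (kU_cont.comp continuous_subtype_val).subtype_mk _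
  · exact (iU_cont.comp continuous_subtype_val).subtype_mk _
  · intro x
    exact Subtype.ext (kU_gen x)
  · intro x hx
    exact Subtype.ext (kU_one x hx)
  · intro x
    exact Subtype.ext (iU_gen x)
  · intro g
    apply toSer_inj
    rw [kF_toSer, iFh_toSer, kS_iS]
  · intro g
    rw [Wt_def, Wt_def, kF_toSer]
    refine (sw_le_iff (w := fun x : X₀ => w x.1) (fun x : X₀ => h0 x.1) (fun x : X₀ => h1 x.1) _
      (sw_nonneg h0 _)).mpr fun u hu => ?_
    rw [← wt_map]
    refine le_sw h0 h1 _ ?_
    have e : (kS p X₀ (toSer g) - 1) u = (toSer g - 1) (u.map Subtype.val) := by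
      rw [← map_one (kS p X₀), ← map_sub, kS_apply]
    rw [← e]
    exact hu
  · intro g
    rw [Wt_def, Wt_def, iFh_toSer]
    refine (sw_le_iff h0 h1 _ (sw_nonneg (w := fun x : X₀ => w x.1)
      (fun x : X₀ => h0 x.1) _)).mpr fun u hu => ?_
    have e : iS p X₀ (toSer g) - 1 = iS p X₀ (toSer g - 1) := by
      rw [map_sub, map_one]
    rw [e] at hu
    by_cases h : ∃ v : List X₀, v.map Subtype.val = u
    · obtain ⟨v, rfl⟩ := h
      rw [iS_map] at hu
      rw [wt_map]
      exact le_sw (w := fun x : X₀ => w x.1) (fun x : X₀ => h0 x.1) (fun x : X₀ => h1 x.1) _ hu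
    · exact absurd (iS_not _ h) hu

end Pool.Agent.GGS
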