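import Pool.Agent.GGS.StepK
import Pool.Agent.GGS.CcBas

/-!
# `rho` is nonincreasing (paper, 4.3)
-/

namespace Pool.Agent.GGS

universe u

variable {p : ℕ} {G : Type u} [Group G]

lemma rho_chain_finite [Fact p.Prime] (w : WG p G) {P V : Subgroup G} {L : List (G × ℝ)}
    (h : Chain w P V L) (hf : Module.Finite (ZMod p) (ChS w P)) (hV : Op w V) :
    Module.Finite (ZMod p) (ChS w V) := by
  induction h with
  | nil => exact hf
  | cons hc hs ih => exact step_finite w hs hV (ih (op_mono w hV hs.le))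

lemma rho_step_le [Fact p.Prime] (w : WG p G) {V V' : Subgroup G} {y : G} {r : ℝ}
    (h : Step w V V' y r) (hV' : Op w V') (hf : Module.Finite (ZMod p) (ChS w V)) :
    rho w V' ≤ rho w V := by
  have hV : Op w V := op_mono w hV' h.le
  have hq : 0 < qq p r := lt_of_lt_of_le (by linarith [(step_pos w h).1])
    (one_add_le_qq (p := p) (step_pos w h).1.le)
  have hI : 0 < Ix w V := lt_of_lt_of_le one_pos (one_le_Ix w hV)
  unfold rho
  rw [Ix_step w h hV']
  calc (xm w V' - 1) / (qq p r * Ix w V)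
      ≤ (qq p r * (xm w V - 1)) / (qq p r * Ix w V) :=
        div_le_div_of_nonneg_right (step_xm w h hV' hf) (mul_pos hq hI).le
    _ = (xm w V - 1) / Ix w V := mul_div_mul_left _ _ hq.ne'

lemma rho_chain_le [Fact p.Prime] (w : WG p G) {P V : Subgroup G} {L : List (G × ℝ)}
    (h : Chain w P V L) (hf : Module.Finite (ZMod p) (ChS w P)) (hV : Op w V) :
    rho w V ≤ rho w P := by
  induction h with
  | nil => exact le_rfl
  | cons hc hs ih =>
    have hV1 := op_mono w hV hs.le
    exact (rho_step_le w hs hV (rho_chain_finite w hc hf hV1)).trans (ih hV1)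

theorem ChS_finite [Fact p.Prime] (w : GSG p G) {V : Subgroup G} (hV : Op w.toWG V) :
    Module.Finite (ZMod p) (ChS w.toWG V) := by
  obtain ⟨L, hL⟩ := exists_chain w.toWG hV (le_top : V ≤ ⊤)
  exact rho_chain_finite w.toWG hL w.fd hV

theorem rho_anti [Fact p.Prime] (w : GSG p G) {V V' : Subgroup G} (hV' : Op w.toWG V')
    (h : V' ≤ V) : rho w.toWG V' ≤ rho w.toWG V := by
  obtain ⟨L, hL⟩ := exists_chain w.toWG hV' h
  exact rho_chain_le w.toWG hL (ChS_finite w (op_mono w.toWG hV' h)) hV'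

theorem K0_le_rho [Fact p.Prime] (w : GSG p G) {V : Subgroup G} (hV : Op w.toWG V) :
    w.K0 ≤ rho w.toWG V := by
  unfold rho
  rw [le_div_iff₀ (lt_of_lt_of_le one_pos (one_le_Ix w.toWG hV))]
  exact w.gs V hV

theorem xm_eq [Fact p.Prime] (w : GSG p G) {V : Subgroup G} (hV : Op w.toWG V) :
    xm w.toWG V = 1 + rho w.toWG V * Ix w.toWG V := by
  unfold rho
  rw [div_mul_cancel₀ _ (lt_of_lt_of_le one_pos (one_le_Ix w.toWG hV)).ne']
  ring

end Pool.Agent.GGS
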