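import Pool.Agent.GGS.Chains

/-!
# The spanning property of cut systems (paper, 1.6)
-/

namespace Pool.Agent.GGS

universe u

variable {p : ℕ} {G : Type u} [Group G] (w : WG p G)

/-- the exponents of a longer chain -/
lemma Span_cons {L : List (G × ℝ)} (y : G) (r : ℝ) (a : Fin L.length → Fin p) (k : Fin p) :
    ((List.finRange ((y, r) :: L).length).map fun i =>
      (((y, r) :: L).get i).1 ^ ((Fin.cons k a : Fin (L.length + 1) → Fin p) i : ℕ)).prod =
      y ^ (k : ℕ) * ((List.finRange L.length).map fun i => (L.get i).1 ^ (a i : ℕ)).prod := by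
  change ((List.finRange (L.length + 1)).map fun i =>
      (((y, r) :: L).get i).1 ^ ((Fin.cons k a : Fin (L.length + 1) → Fin p) i : ℕ)).prod = _
  rw [List.finRange_succ, List.map_cons, List.prod_cons, List.map_map]
  rfl

theorem chain_span {P V : Subgroup G} {L : List (G × ℝ)} (h : Chain w P V L) (g : G) (hg : g ∈ P) :
    ∃ v ∈ V, ∃ a : Fin L.length → Fin p,
      g = v * ((List.finRange L.length).map fun i => (L.get i).1 ^ (a i : ℕ)).prod ∧
      w.W v ≤ w.W g ∧ ∀ i, (a i : ℕ) ≠ 0 → (L.get i).2 ≤ w.W g := by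
  induction h with
  | nil => exact ⟨g, hg, fun i => i.elim0, by simp, le_rfl, fun i => i.elim0⟩
  | @cons V V' L y r hc hs ih =>
    obtain ⟨v, hv, a, hga, hvg, ha⟩ := ih
    by_cases hv' : v ∈ V'
    · obtain ⟨i, hi, -⟩ := hs.cover v hv
      refine ⟨v, hv', (Fin.cons ⟨0, Nat.lt_of_le_of_lt (Nat.zero_le i) hi⟩ a :
        Fin (L.length + 1) → Fin p), ?_, hvg, ?_⟩
      · rw [Span_cons, pow_zero, one_mul]
        exact hga
      · intro j
        refine Fin.cases ?_ (fun j => ?_) j
        · intro h0
          exact absurd rfl h0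
        · intro h0
          exact ha j h0
    · have hr : r ≤ w.W v := hs.deep v hv hv'
      obtain ⟨i, hi, u, hu, hvu⟩ := hs.cover v hv
      refine ⟨u, hu, (Fin.cons ⟨i, hi⟩ a : Fin (L.length + 1) → Fin p), ?_, ?_, ?_⟩
      · rw [Span_cons, ← mul_assoc]
        change g = u * y ^ i * _
        rw [← hvu]
        exact hga
      · have h1 : u = v * (y ^ i)⁻¹ := by rw [hvu, mul_inv_cancel_right]
        have h2 : w.W (y ^ i)⁻¹ ≤ r := by
          rw [w.inv, ← hs.wy]
          exact W_pow_le w y i
        rw [h1]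
        exact (w.mul _ _).trans (max_le hvg (h2.trans (hr.trans hvg)))
      · intro j
        refine Fin.cases ?_ (fun j => ?_) j
        · intro _
          exact hr.trans hvg
        · intro h0
          exact ha j h0

end Pool.Agent.GGS
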