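import Pool.Agent.GGS.Rho

/-!
# Deep mass grows with the index; near-minimisers (paper, 6.1, 6.2)
-/

namespace Pool.Agent.GGS

universe u

variable {p : ℕ} {G : Type u} [Group G]

/-- the difference of the deep masses -/
theorem xd_sub [Fact p.Prime] (w : GSG p G) {t : ℝ} (ht : 0 < t) {V V' : Subgroup G}
    (hC : Cc w.toWG V t V') :
    xd w.toWG V' t = xd w.toWG V t + (rho w.toWG V' * Ix w.toWG V' - rho w.toWG V * Ix w.toWG V) := by
  have hV := Cc_op w.toWG hC
  have h1 := Cc_xd w.toWG ht hC (ChS_finite w hV) (ChS_finite w hC.op)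
  have h2 := xm_eq w hV
  have h3 := xm_eq w hC.op
  linarith

/-- 6.1 -/
theorem state_deep [Fact p.Prime] (w : GSG p G) {c t : ℝ} {V V' : Subgroup G}
    (h : State w c t V) (hC : Cc w.toWG V t V') (hl : Ix w.toWG V' ≤ 2 * Ix w.toWG V) :
    xd w.toWG V t + Ix w.toWG V * (w.K0 / 2 * (Ix w.toWG V' / Ix w.toWG V - 1) - w.K0 * t / 4) ≤
      xd w.toWG V' t := by
  have hV := Cc_op w.toWG hC
  rw [xd_sub w h.t_pos hC]
  have hm := h.min V' hC
  have hI := one_le_Ix w.toWG hV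
  have hI0 : (0 : ℝ) < Ix w.toWG V := by linarith
  have hII := Ix_anti w.toWG hC.op hC.le
  have hK := K0_le_rho w hV
  have hK0 := w.K0_pos
  have hc := h.c_pos
  have hc' := h.c_le
  have ht := h.t_pos
  set I := Ix w.toWG V
  set I' := Ix w.toWG V'
  set r := rho w.toWG V
  set r' := rho w.toWG V'
  have hl1 : 1 ≤ I' / I := by rw [le_div_iff₀ hI0]; linarith
  have hl2 : I' / I ≤ 2 := by rw [div_le_iff₀ hI0]; linarith
  have hI' : I' = I' / I * I := by field_simp
  set l := I' / I with hldef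
  have hlog := Real.log_le_sub_one_of_pos (show 0 < l by linarith)
  have hlog0 := Real.log_nonneg hl1
  rw [hI']
  have h1 : r * l - c * Real.log l * l - w.K0 * t / 8 * l ≤ r' * l := by nlinarith
  have h2 : c * Real.log l * l ≤ w.K0 / 4 * (l - 1) * 2 := by
    have h3 : c * Real.log l ≤ w.K0 / 4 * (l - 1) :=
      mul_le_mul hc' hlog hlog0 (by linarith)
    have h4 : 0 ≤ c * Real.log l := mul_nonneg hc.le hlog0
    nlinarith
  have h3 : w.K0 * t / 8 * l ≤ w.K0 * t / 4 := by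
    have : 0 < w.K0 * t := mul_pos hK0 ht
    nlinarith
  have h4 : w.K0 * (l - 1) ≤ r * (l - 1) := mul_le_mul_of_nonneg_right hK (by linarith)
  have h5 : w.K0 / 2 * (l - 1) - w.K0 * t / 4 ≤ r' * l - r := by nlinarith
  have h6 := mul_le_mul_of_nonneg_left h5 hI0.le
  nlinarith

/-- the upper bound for the deep mass -/
theorem deep_le [Fact p.Prime] (w : GSG p G) {t : ℝ} (ht : 0 < t) {V V' : Subgroup G}
    (hC : Cc w.toWG V t V') :
    xd w.toWG V' t ≤ xd w.toWG V t + (xm w.toWG V - 1) * (Ix w.toWG V' / Ix w.toWG V - 1) := by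
  have hV := Cc_op w.toWG hC
  rw [xd_sub w ht hC, xm_eq w hV]
  have hI := one_le_Ix w.toWG hV
  have hI0 : (0 : ℝ) < Ix w.toWG V := by linarith
  have hI1 := one_le_Ix w.toWG hC.op
  have hr := rho_anti w hC.op hC.le
  have h1 : (1 + rho w.toWG V * Ix w.toWG V - 1) * (Ix w.toWG V' / Ix w.toWG V - 1) =
      rho w.toWG V * Ix w.toWG V' - rho w.toWG V * Ix w.toWG V := by
    field_simp
    ring
  rw [h1]
  have h2 : rho w.toWG V' * Ix w.toWG V' ≤ rho w.toWG V * Ix w.toWG V' :=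
    mul_le_mul_of_nonneg_right hr (by linarith)
  linarith

/-- 6.2 -/
theorem near_min [Fact p.Prime] (w : GSG p G) {V : Subgroup G} (hV : Op w.toWG V) {c t : ℝ}
    (hc : 0 < c) (ht : 0 < t) :
    ∃ V', Cc w.toWG V t V' ∧
      (∀ V'', Cc w.toWG V' t V'' → rho w.toWG V' ≤
        rho w.toWG V'' + c * Real.log (Ix w.toWG V'' / Ix w.toWG V') + w.K0 * t / 8) ∧
      rho w.toWG V' + c * Real.log (Ix w.toWG V' / Ix w.toWG V) ≤ rho w.toWG V := by
  have hI := one_le_Ix w.toWG hV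
  have hI0 : (0 : ℝ) < Ix w.toWG V := by linarith
  have hK0 := w.K0_pos
  have hδ : 0 < w.K0 * t / 8 := by positivity
  have hr : Cc w.toWG V t V := Cc_refl w.toWG hV ht.le
  set Φ : Subgroup G → ℝ := fun V' =>
    rho w.toWG V' + c * Real.log (Ix w.toWG V' / Ix w.toWG V) with hΦ
  have hΦV : Φ V = rho w.toWG V := by
    rw [hΦ]
    dsimp only
    rw [div_self hI0.ne', Real.log_one, mul_zero, add_zero]
  set S : Set ℝ := Φ '' {V' | Cc w.toWG V t V'} with hS
  have hne : S.Nonempty := ⟨Φ V, V, hr, rfl⟩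
  have hbdd : BddBelow S := by
    refine ⟨0, ?_⟩
    rintro x ⟨V', hV', rfl⟩
    have h1 := K0_le_rho w hV'.op
    have h2 := Ix_anti w.toWG hV'.op hV'.le
    have h3 : 1 ≤ Ix w.toWG V' / Ix w.toWG V := by rw [le_div_iff₀ hI0]; linarith
    have h4 := Real.log_nonneg h3
    have h5 : 0 ≤ c * Real.log (Ix w.toWG V' / Ix w.toWG V) := mul_nonneg hc.le h4
    rw [hΦ]
    dsimp only
    linarith
  obtain ⟨V', hV', h1, h2⟩ : ∃ V', Cc w.toWG V t V' ∧ Φ V' ≤ sInf S + w.K0 * t / 8 ∧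
      Φ V' ≤ Φ V := by
    by_cases h : Φ V ≤ sInf S + w.K0 * t / 8
    · exact ⟨V, hr, h, le_rfl⟩
    · obtain ⟨x, ⟨V', hV', rfl⟩, hx⟩ := exists_lt_of_csInf_lt hne
        (show sInf S < sInf S + w.K0 * t / 8 by linarith)
      exact ⟨V', hV', hx.le, by linarith⟩
  refine ⟨V', hV', ?_, ?_⟩
  · intro V'' hV''
    have h3 : sInf S ≤ Φ V'' := csInf_le hbdd ⟨V'', Cc_trans w.toWG hV' hV'' le_rfl, rfl⟩
    have hI' := one_le_Ix w.toWG hV'.op
    have hI'' := one_le_Ix w.toWG hV''.op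
    have h4 : Real.log (Ix w.toWG V'' / Ix w.toWG V') =
        Real.log (Ix w.toWG V'' / Ix w.toWG V) - Real.log (Ix w.toWG V' / Ix w.toWG V) := by
      rw [Real.log_div (by linarith) (by linarith), Real.log_div (by linarith) (by linarith),
        Real.log_div (by linarith) (by linarith)]
      ring
    rw [h4]
    rw [hΦ] at h1 h3
    dsimp only at h1 h3
    linarith
  · rw [← hΦV]
    exact h2

end Pool.Agent.GGS
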