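import Pool.Agent.GGS.St61
import Pool.Agent.GGS.CutMany

/-!
# The travel step (paper, 6.3)
-/

namespace Pool.Agent.GGS

universe u

variable {p : ℕ} {G : Type u} [Group G]

/-- a deepest final segment `Y` of an adapted basis with mass between `t` and `2t` -/
theorem exists_segment {B : Type} [Fintype B] (r : B → ℝ) (hr : ∀ b, 0 < r b) {t : ℝ} (ht : 0 < t)
    (hm : t ≤ ∑ b ∈ Finset.univ.filter (fun b => r b ≤ t), r b) :
    ∃ (Y : Finset B) (ρ : ℝ), 0 < ρ ∧ ρ ≤ t ∧ (∃ b ∈ Y, r b = ρ) ∧ (∀ b ∈ Y, r b ≤ ρ) ∧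
      (∀ b, b ∉ Y → ρ ≤ r b) ∧ t ≤ ∑ b ∈ Y, r b ∧ ∑ b ∈ Y, r b ≤ 2 * t := by
  classical
  let P : Finset B → Prop := fun Y =>
    (∀ b ∈ Y, r b ≤ t) ∧ (∀ b ∈ Y, ∀ c, c ∉ Y → r b ≤ r c) ∧ t ≤ ∑ b ∈ Y, r b
  have hex : ∃ n, ∃ Y : Finset B, P Y ∧ Y.card = n := by
    refine ⟨_, Finset.univ.filter (fun b => r b ≤ t), ⟨?_, ?_, hm⟩, rfl⟩
    · intro b hb
      exact (Finset.mem_filter.mp hb).2
    · intro b hb c hc
      have h1 := (Finset.mem_filter.mp hb).2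
      have h2 : ¬ r c ≤ t := fun h => hc (Finset.mem_filter.mpr ⟨Finset.mem_univ _, h⟩)
      exact h1.trans (not_le.mp h2).le
  obtain ⟨Y, ⟨h1, h2, h3⟩, hcard⟩ := Nat.find_spec hex
  have hne : Y.Nonempty := by
    rw [Finset.nonempty_iff_ne_empty]
    rintro rfl
    rw [Finset.sum_empty] at h3
    exact absurd h3 (not_le.mpr ht)
  obtain ⟨b0, hb0, hmax⟩ := Finset.exists_max_image Y r hne
  refine ⟨Y, r b0, hr b0, h1 b0 hb0, ⟨b0, hb0, rfl⟩, hmax, fun b hb => h2 b0 hb0 b hb, h3, ?_⟩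
  by_contra hc
  push Not at hc
  have hsum : ∑ b ∈ Y.erase b0, r b + r b0 = ∑ b ∈ Y, r b := Finset.sum_erase_add _ _ hb0
  have hP : P (Y.erase b0) := by
    refine ⟨fun b hb => h1 b (Finset.mem_of_mem_erase hb), fun b hb c hc' => ?_, ?_⟩
    · by_cases hcb : c = b0
      · subst hcb
        exact hmax b (Finset.mem_of_mem_erase hb)
      · exact h2 b (Finset.mem_of_mem_erase hb) c fun h => hc' (Finset.mem_erase.mpr ⟨hcb, h⟩)
    · have := h1 b0 hb0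
      linarith
  have hlt : (Y.erase b0).card < Nat.find hex := by
    rw [← hcard]
    exact Finset.card_erase_lt_of_mem hb0
  exact Nat.find_min hex hlt ⟨Y.erase b0, hP, rfl⟩

theorem one_add_sum_le {B : Type} (r : B → ℝ) (hr : ∀ b, 0 < r b) (Y : Finset B) :
    1 + ∑ b ∈ Y, r b ≤ ∏ b ∈ Y, (1 + r b) := by
  classical
  induction Y using Finset.induction_on with
  | empty => simp
  | insert a Y ha ih =>
    rw [Finset.sum_insert ha, Finset.prod_insert ha]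
    have h1 : 0 ≤ ∑ b ∈ Y, r b := Finset.sum_nonneg fun b _ => (hr b).le
    have h2 : (1 + r a) * (1 + ∑ b ∈ Y, r b) ≤ (1 + r a) * ∏ b ∈ Y, (1 + r b) :=
      mul_le_mul_of_nonneg_left ih (by linarith [hr a])
    have h3 : 0 ≤ r a * ∑ b ∈ Y, r b := mul_nonneg (hr a).le h1
    linarith

/-- 6.3, with all the data -/
theorem travel_step [Fact p.Prime] (w : GSG p G) {c c' t : ℝ} {V : Subgroup G}
    (h : State w c t V) (hc : c < c') (hc' : c' ≤ w.K0 / 4) (hs : 3 * w.K0 * t / (c' - c) ≤ 1 / 2)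
    {B : Type} [Fintype B] {v : B → G} {r : B → ℝ} {χ : B → G → ZMod p}
    (hA : Adapted w.toWG V (ChS w.toWG V) v r χ) :
    ∃ (Y : Finset B) (ρ : ℝ) (VY V' : Subgroup G),
      0 < ρ ∧ ρ ≤ t ∧ (∀ b ∈ Y, r b ≤ ρ) ∧ (∀ b, b ∉ Y → ρ ≤ r b) ∧
      t ≤ ∑ b ∈ Y, r b ∧ ∑ b ∈ Y, r b ≤ 2 * t ∧
      Cc w.toWG V ρ VY ∧ (∀ b, b ∉ Y → v b ∈ VY) ∧
      Cc w.toWG VY (w.wm * ρ) V' ∧ State w c' (w.wm * ρ) V' ∧
      Real.log (Ix w.toWG V' / Ix w.toWG V) ≤ 3 * w.K0 * t / (c' - c) ∧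
      xd w.toWG V' (w.wm * ρ) ≤
        2 * t + (xm w.toWG V - 1) * (Ix w.toWG V' / Ix w.toWG V - 1) := by
  have ht := h.t_pos
  have ht4 := h.t_le
  have hK0 := w.K0_pos
  have hwm := w.wm_pos
  have hwm1 := w.wm_lt
  have hmass : t ≤ ∑ b ∈ Finset.univ.filter (fun b => r b ≤ t), r b := by
    have := h.deep
    rwa [adapted_xd w.toWG hA ht] at this
  obtain ⟨Y, ρ, hρ, hρt, -, hY, hY', hYt, hY2t⟩ := exists_segment r hA.pos ht hmass
  obtain ⟨VY, hC1, hvY, hIY, hfY, hKY⟩ := cut_many w.toWG h.op hA Y hρ hY hY'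
  have hwρ : 0 < w.wm * ρ := mul_pos hwm hρ
  have hwρle : w.wm * ρ ≤ ρ := mul_le_of_le_one_left hρ.le hwm1.le
  obtain ⟨V', hC2, hmin, hnear⟩ := near_min w hC1.op (c := c') (t := w.wm * ρ)
    (lt_trans h.c_pos hc) hwρ
  -- the classes
  have hC3 : Cc w.toWG V ρ V' := Cc_trans w.toWG hC1 hC2 hwρle
  have hC4 : Cc w.toWG V t V' := Cc_mono w.toWG hC3 hρt
  -- positivity of the indices
  have hI : 1 ≤ Ix w.toWG V := one_le_Ix w.toWG h.op
  have hIY1 : 1 ≤ Ix w.toWG VY := one_le_Ix w.toWG hC1.op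
  have hI'1 : 1 ≤ Ix w.toWG V' := one_le_Ix w.toWG hC2.op
  have hI0 : 0 < Ix w.toWG V := lt_of_lt_of_le one_pos hI
  have hIY0 : 0 < Ix w.toWG VY := lt_of_lt_of_le one_pos hIY1
  have hI'0 : 0 < Ix w.toWG V' := lt_of_lt_of_le one_pos hI'1
  have hIYI' : Ix w.toWG VY ≤ Ix w.toWG V' := Ix_anti w.toWG hC2.op hC2.le
  -- logarithms
  have hqpos : ∀ b, 0 < qq p (r b) := fun b => by
    have := one_add_le_qq (p := p) (hA.pos b).le
    have := hA.pos b
    linarith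
  have hratio : Ix w.toWG VY / Ix w.toWG V = ∏ b ∈ Y, qq p (r b) := by
    rw [hIY]; field_simp
  have hL1 : Real.log (Ix w.toWG VY / Ix w.toWG V) ≤ 4 * t := by
    rw [hratio, Real.log_prod (fun b _ => (hqpos b).ne')]
    calc ∑ b ∈ Y, Real.log (qq p (r b)) ≤ ∑ b ∈ Y, 2 * r b := by
          refine Finset.sum_le_sum fun b hb => ?_
          refine (qq_bounds (p := p) (hA.pos b).le ?_).2.2
          have := hY b hb
          linarith
      _ = 2 * ∑ b ∈ Y, r b := by rw [Finset.mul_sum]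
      _ ≤ 4 * t := by linarith
  have hLadd : Real.log (Ix w.toWG V' / Ix w.toWG V) =
      Real.log (Ix w.toWG VY / Ix w.toWG V) + Real.log (Ix w.toWG V' / Ix w.toWG VY) := by
    rw [← Real.log_mul (div_pos hIY0 hI0).ne' (div_pos hI'0 hIY0).ne']
    congr 1
    field_simp
  have hrho1 : rho w.toWG VY ≤ rho w.toWG V := rho_anti w hC1.op hC1.le
  have hrho2 : rho w.toWG V' ≤ rho w.toWG V := rho_anti w hC3.op hC3.le
  have hS2 := h.min V' hC4
  rw [hLadd] at hS2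
  set L1 := Real.log (Ix w.toWG VY / Ix w.toWG V) with hL1def
  set L2 := Real.log (Ix w.toWG V' / Ix w.toWG VY) with hL2def
  have hcc : 0 < c' - c := by linarith
  have hL2 : (c' - c) * L2 ≤ 9 / 8 * (w.K0 * t) := by
    have h1 : c * L1 ≤ w.K0 / 4 * (4 * t) := by
      have h2 : c * L1 ≤ c * (4 * t) := mul_le_mul_of_nonneg_left hL1 h.c_pos.le
      have h3 : c * (4 * t) ≤ w.K0 / 4 * (4 * t) :=
        mul_le_mul_of_nonneg_right h.c_le (by linarith)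
      linarith
    nlinarith
  have hL : L1 + L2 ≤ 3 * w.K0 * t / (c' - c) := by
    rw [le_div_iff₀ hcc]
    have h1 : L1 * (c' - c) ≤ 4 * t * (w.K0 / 4) := by
      have h2 : L1 * (c' - c) ≤ 4 * t * (c' - c) := mul_le_mul_of_nonneg_right hL1 hcc.le
      have h3 : 4 * t * (c' - c) ≤ 4 * t * (w.K0 / 4) :=
        mul_le_mul_of_nonneg_left (by linarith [h.c_pos]) (by linarith)
      linarith
    nlinarith [mul_pos hK0 ht]
  have hlog : Real.log (Ix w.toWG V' / Ix w.toWG V) ≤ 3 * w.K0 * t / (c' - c) := by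
    rw [hLadd]; exact hL
  -- `l ≤ 2`
  have hl2 : Ix w.toWG V' / Ix w.toWG V ≤ 2 := by
    have h1 : Real.log (Ix w.toWG V' / Ix w.toWG V) ≤ Real.log 2 := by
      refine (hlog.trans hs).trans ?_
      have := Real.log_two_gt_d9
      linarith
    exact (Real.log_le_log_iff (div_pos hI'0 hI0) two_pos).mp h1
  have hl2' : Ix w.toWG V' ≤ 2 * Ix w.toWG V := by
    rwa [div_le_iff₀ hI0] at hl2
  -- `l ≥ 1 + t`
  have hl1 : 1 + t ≤ Ix w.toWG V' / Ix w.toWG V := by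
    have h1 : Ix w.toWG VY / Ix w.toWG V ≤ Ix w.toWG V' / Ix w.toWG V :=
      div_le_div_of_nonneg_right hIYI' hI0.le
    refine le_trans ?_ h1
    rw [hratio]
    have h2 : 1 + ∑ b ∈ Y, r b ≤ ∏ b ∈ Y, (1 + r b) := one_add_sum_le r hA.pos Y
    have h3 : ∏ b ∈ Y, (1 + r b) ≤ ∏ b ∈ Y, qq p (r b) :=
      Finset.prod_le_prod (fun b _ => by have := hA.pos b; linarith)
        fun b _ => one_add_le_qq (p := p) (hA.pos b).le
    linarith
  -- the masses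
  have hfV := ChS_finite w h.op
  have hfV' := ChS_finite w hC2.op
  have hx1 := Cc_xd w.toWG hwρ hC2 hfY hfV'
  have hx2 := cut_many_xd w.toWG h.op hA Y hρ hY' hfY hKY
  have hx3 := Cc_xd w.toWG ht hC4 hfV hfV'
  have hdeep := state_deep w h hC4 hl2'
  have hxd : xd w.toWG V' (w.wm * ρ) = xm w.toWG V' - xm w.toWG V + ∑ b ∈ Y, r b := by
    linarith
  have hpos : 0 ≤ Ix w.toWG V *
      (w.K0 / 2 * (Ix w.toWG V' / Ix w.toWG V - 1) - w.K0 * t / 4) := by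
    refine mul_nonneg hI0.le ?_
    have : w.K0 / 2 * t ≤ w.K0 / 2 * (Ix w.toWG V' / Ix w.toWG V - 1) :=
      mul_le_mul_of_nonneg_left (by linarith) (by linarith)
    nlinarith [mul_pos hK0 ht]
  refine ⟨Y, ρ, VY, V', hρ, hρt, hY, hY', hYt, hY2t, hC1, hvY, hC2, ?_, hlog, ?_⟩
  · refine ⟨lt_trans h.c_pos hc, hc', hwρ, by linarith, hC2.op, ?_, hmin⟩
    rw [hxd]
    linarith
  · rw [hxd]
    have h1 : xm w.toWG V' - 1 ≤ (Ix w.toWG V' / Ix w.toWG V) * (xm w.toWG V - 1) := by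
      have h2 := hrho2
      unfold rho at h2
      rw [div_le_div_iff₀ hI'0 hI0] at h2
      rw [div_mul_eq_mul_div, le_div_iff₀ hI0]
      linarith
    have h3 : (xm w.toWG V - 1) * (Ix w.toWG V' / Ix w.toWG V - 1) =
        (Ix w.toWG V' / Ix w.toWG V) * (xm w.toWG V - 1) - (xm w.toWG V - 1) := by ring
    rw [h3]
    linarith

end Pool.Agent.GGS
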