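import Pool.Agent.GGS.RelHom

/-!
# The homomorphism `θ` (paper, section 12)

`rel_check` and `rel_hom` with `z` (note `NilW z (n + 1)` and `evs z (n + 1) f = evs z (n1 + 1) f`, `evs_le`).  Elements
`h ∈ V` of small weight: lift `h = π g` with `Wt g = W h` (`Q.lift`), then `K g 1 u = 0` for all `u ≠ []` (`bound1` with
the empty list).  Products: `θ h - 1` is in the span of the nonempty words in the `z a`.
-/

namespace Pool.Agent.GGS

universe u

open Ser

variable {p : ℕ} {G : Type u} [Group G]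

section aux

variable {Z E : Type} [Ring E] [Algebra (ZMod p) E]

/-- the span of the words of length `≥ k` -/
def StHom_S (p : ℕ) {Z E : Type} [Ring E] [Algebra (ZMod p) E] (z : Z → E) (k : ℕ) :
    Submodule (ZMod p) E :=
  Submodule.span (ZMod p) {x | ∃ u : List Z, k ≤ u.length ∧ x = (u.map z).prod}

lemma StHom_word_mem (z : Z → E) {k : ℕ} (u : List Z) (h : k ≤ u.length) :
    (u.map z).prod ∈ StHom_S p z k :=
  Submodule.subset_span ⟨u, h, rfl⟩

lemma StHom_mul_mem (z : Z → E) {k l : ℕ} {x y : E} (hx : x ∈ StHom_S p z k)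
    (hy : y ∈ StHom_S p z l) : x * y ∈ StHom_S p z (k + l) := by
  induction hx using Submodule.span_induction with
  | mem x hx =>
    obtain ⟨u, hu, rfl⟩ := hx
    induction hy using Submodule.span_induction with
    | mem y hy =>
      obtain ⟨v, hv, rfl⟩ := hy
      rw [← List.prod_append, ← List.map_append]
      refine StHom_word_mem z _ ?_
      rw [List.length_append]
      omega
    | zero => rw [mul_zero]; exact Submodule.zero_mem _
    | add a b _ _ ha hb => rw [mul_add]; exact Submodule.add_mem _ ha hb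
    | smul c a _ ha => rw [mul_smul_comm]; exact Submodule.smul_mem _ c ha
  | zero => rw [zero_mul]; exact Submodule.zero_mem _
  | add a b _ _ ha hb => rw [add_mul]; exact Submodule.add_mem _ ha hb
  | smul c a _ ha => rw [smul_mul_assoc]; exact Submodule.smul_mem _ c ha

lemma StHom_prod_mem (z : Z → E) (l : List E) (h : ∀ x ∈ l, x ∈ StHom_S p z 1) :
    l.prod ∈ StHom_S p z l.length := by
  induction l with
  | nil =>
    rw [List.prod_nil, List.length_nil]
    have := StHom_word_mem (p := p) z [] (le_refl ([] : List Z).length)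
    simpa using this
  | cons x l ih =>
    rw [List.prod_cons, List.length_cons, Nat.add_comm]
    exact StHom_mul_mem z (h x List.mem_cons_self) (ih fun y hy => h y (List.mem_cons_of_mem _ hy))

lemma StHom_S_nil {z : Z → E} {k l : ℕ} (hz : NilW z k) (hl : k ≤ l) {x : E}
    (hx : x ∈ StHom_S p z l) : x = 0 := by
  induction hx using Submodule.span_induction with
  | mem x hx =>
    obtain ⟨u, hu, rfl⟩ := hx
    exact hz u (hl.trans hu)
  | zero => rfl
  | add a b _ _ ha hb => rw [ha, hb, add_zero]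
  | smul c a _ ha => rw [ha, smul_zero]

lemma StHom_T_mem [Fintype Z] (z : Z → E) {j k : ℕ} (h : j ≤ k) (f : Ser p Z) :
    Ev_T z k f ∈ StHom_S p z j := by
  unfold Ev_T
  refine Submodule.sum_mem _ fun u _ => Submodule.smul_mem _ _ ?_
  refine StHom_word_mem z _ ?_
  rw [List.length_ofFn]
  exact h

lemma StHom_T_one [Fintype Z] (z : Z → E) (f : Ser p Z) :
    Ev_T z 1 f = ∑ a, f [a] • z a := by
  rw [Ev_T_succ]
  refine Finset.sum_congr rfl fun a _ => ?_
  rw [Ev_T_zero, mul_smul_comm, mul_one]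
  rfl

/-- the expansion of `evs` up to degree `1` -/
lemma StHom_evs [Fintype Z] (z : Z → E) {n : ℕ} (hn : 1 ≤ n) (f : Ser p Z) (h0 : f [] = 1) :
    evs z (n + 1) f = 1 + (∑ a, f [a] • z a +
      ∑ k ∈ Finset.range (n - 1), Ev_T z (k + 2) f) := by
  obtain ⟨m, rfl⟩ : ∃ m, n = m + 1 := ⟨n - 1, by omega⟩
  show ∑ k ∈ Finset.range (m + 1 + 1), Ev_T z k f = _
  rw [Finset.sum_range_succ', Finset.sum_range_succ', Ev_T_zero, h0, one_smul, Nat.add_sub_cancel]
  have e1 : Ev_T z (0 + 1) f = ∑ a, f [a] • z a := StHom_T_one z f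
  rw [e1]
  abel

end aux

theorem theta_exists [Fact p.Prime] {w : WG p G} (Q : Pres p G w) {V : Subgroup G} (hV : Op w V)
    {L : List (G × ℝ)} (hL : Chain w ⊤ V L) {Z : Type} [Fintype Z] {χ : Z → G → ZMod p}
    {r : Z → ℝ} {n : ℕ} (hn : 1 ≤ n) {K : Fhat p Q.X → G → List Z → ZMod p}
    (hK : Coc Q V χ r n K) {l : ℕ} (hh : Fin l → Fhat p Q.X) (hhV : ∀ c, Q.π (hh c) ∈ V)
    (hhχ : ∀ c a, χ a (Q.π (hh c)) = 0) {n1 : ℕ} (hn1 : n1 ≤ n) {E : Type} [Ring E]
    [Algebra (ZMod p) E] (z : Z → E) (hz : NilW z (n1 + 1))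
    (h1 : ∀ (i : Q.ι) (a : Fin L.length → Fin p) (k : ℕ), 2 ≤ k → k ≤ n →
      ∑ u : Fin k → Z, dif (mono L a) (fun h => K (Q.r i) h (List.ofFn u)) 1 •
        ((List.ofFn u).map z).prod = 0)
    (h2 : ∀ (c : Fin l) (k : ℕ), 2 ≤ k → k ≤ n →
      ∑ u : Fin k → Z, K (hh c) 1 (List.ofFn u) • ((List.ofFn u).map z).prod = 0) :
    ∃ θ : G → E, θ 1 = 1 ∧ (∀ g ∈ V, ∀ h ∈ V, θ (g * h) = θ g * θ h) ∧
      (∀ l : List G, (∀ h ∈ l, h ∈ V) → n1 < l.length → (l.map fun h => θ h - 1).prod = 0) ∧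
      (∀ c, θ (Q.π (hh c)) = 1) ∧
      (∀ h ∈ V, (∀ u : List Z, u ≠ [] → u.length ≤ n → w.W h < wt r u) → θ h = 1) ∧
      (∀ h ∈ V, θ h - 1 - ∑ a, χ a h • z a ∈
        Submodule.span (ZMod p) {x | ∃ u : List Z, 2 ≤ u.length ∧ x = (u.map z).prod}) := by
  have hz' : NilW z (n + 1) := fun u hu => hz u (by omega)
  have hr : ∀ i x, evs z (n + 1) (K (Q.r i) x) = 1 := fun i x =>
    rel_check Q hV hL hK z (Q.r i) (Q.ker_r i) (fun a k hk2 hkn => h1 i a k hk2 hkn) x
  obtain ⟨θ, hθ, hθ1, hθm⟩ := rel_hom Q hK z hz' hr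
  -- the expansion of `θ`
  have hexp : ∀ g, Q.π g ∈ V → θ (Q.π g) = 1 + (∑ a, χ a (Q.π g) • z a +
      ∑ k ∈ Finset.range (n - 1), Ev_T z (k + 2) (K g 1 : Ser p Z)) := by
    intro g hg
    have h3 : ∑ a, (K g 1 : Ser p Z) [a] • z a = ∑ a, χ a (Q.π g) • z a :=
      Finset.sum_congr rfl fun a _ => by rw [hK.lin hn g hg a]
    rw [hθ g hg, ← h3]
    exact StHom_evs z hn (K g 1 : Ser p Z) (hK.nil g 1)
  have hdeep : ∀ g, ∑ k ∈ Finset.range (n - 1), Ev_T z (k + 2) (K g 1 : Ser p Z) ∈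
      StHom_S p z 2 := fun g =>
    Submodule.sum_mem _ fun k _ => StHom_T_mem z (by omega) _
  have hS21 : StHom_S p z 2 ≤ StHom_S p z 1 := by
    refine Submodule.span_mono ?_
    rintro x ⟨u, hu, rfl⟩
    exact ⟨u, by omega, rfl⟩
  have hmem1 : ∀ h ∈ V, θ h - 1 ∈ StHom_S p z 1 := by
    intro h hh
    obtain ⟨g, rfl⟩ := Q.surj h
    rw [hexp g hh, add_sub_cancel_left]
    refine Submodule.add_mem _ (Submodule.sum_mem _ fun a _ => Submodule.smul_mem _ _ ?_)
      (hS21 (hdeep g))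
    have := StHom_word_mem (p := p) z [a] (k := 1) (by simp)
    simpa using this
  refine ⟨θ, hθ1, hθm, ?_, ?_, ?_, ?_⟩
  · intro l hl hlen
    have h3 := StHom_prod_mem (p := p) z (l.map fun h => θ h - 1) (by
      intro x hx
      obtain ⟨h, hh, rfl⟩ := List.mem_map.1 hx
      exact hmem1 h (hl h hh))
    rw [List.length_map] at h3
    exact StHom_S_nil hz (by omega) h3
  · intro c
    rw [hexp (hh c) (hhV c)]
    have h3 : ∑ a, χ a (Q.π (hh c)) • z a = 0 :=
      Finset.sum_eq_zero fun a _ => by rw [hhχ c a, zero_smul]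
    have h4 : ∑ k ∈ Finset.range (n - 1), Ev_T z (k + 2) (K (hh c) 1 : Ser p Z) = 0 := by
      refine Finset.sum_eq_zero fun k hk => ?_
      rw [Finset.mem_range] at hk
      exact h2 c (k + 2) (by omega) (by omega)
    rw [h3, h4, add_zero, add_zero]
  · intro h hh hw
    obtain ⟨g, hg, hgw⟩ := Q.lift h
    have hK0 : ∀ u : List Z, u ≠ [] → u.length ≤ n → K g 1 u = 0 := by
      intro u hu hun
      have h3 := hK.bound1 g [] u hu hun (by rw [wl_nil, mul_one, hgw]; exact hw u hu hun)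
      simpa using h3
    subst hg
    rw [hexp g hh]
    have h3 : ∑ a, χ a (Q.π g) • z a = 0 := by
      refine Finset.sum_eq_zero fun a _ => ?_
      rw [← hK.lin hn g hh a, hK0 [a] (by simp) (by simpa using hn), zero_smul]
    have h4 : ∑ k ∈ Finset.range (n - 1), Ev_T z (k + 2) (K g 1 : Ser p Z) = 0 := by
      refine Finset.sum_eq_zero fun k hk => ?_
      rw [Finset.mem_range] at hk
      unfold Ev_T
      refine Finset.sum_eq_zero fun u _ => ?_
      rw [hK0 (List.ofFn u) (by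
        intro hnil
        have h5 := congrArg List.length hnil
        rw [List.length_ofFn, List.length_nil] at h5
        omega) (by rw [List.length_ofFn]; omega), zero_smul]
    rw [h3, h4, add_zero, add_zero]
  · intro h hh
    obtain ⟨g, rfl⟩ := Q.surj h
    rw [hexp g hh, add_sub_cancel_left, add_sub_cancel_left]
    exact hdeep g

end Pool.Agent.GGS
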