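import Pool.Agent.GGS.RelHom

/-!
# The finite family of relations (paper, section 12)

Index type: the triples `(i, a, k)`, `2 ≤ k ≤ n`, and pairs `(c, k)` whose family is not zero.  Only finitely many `i`
matter: by `Coc.bound1` the family of `(i, a, k)` vanishes if `Wt (r i)` is smaller than all `wt r u`, `|u| ≤ n`, and
`Wt (r i)` is summable.
-/

namespace Pool.Agent.GGS

universe u

open Ser

variable {p : ℕ} {G : Type u} [Group G]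

theorem strel_wt {Z : Type} (r : Z → ℝ) (cc : ℝ) : ∀ l : List Z,
    wt (fun a => cc * r a) l = cc ^ l.length * wt r l
  | [] => by simp [wt]
  | a :: l => by
    have h := strel_wt r cc l
    unfold wt at h ⊢
    rw [List.map_cons, List.prod_cons, h, List.map_cons, List.prod_cons, List.length_cons,
      pow_succ]
    ring

theorem strel_wt_pos {Z : Type} {r : Z → ℝ} (hr : ∀ a, 0 < r a) : ∀ l : List Z, 0 < wt r l
  | [] => by simp [wt]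
  | a :: l => by
    have h := strel_wt_pos hr l
    unfold wt at h ⊢
    rw [List.map_cons, List.prod_cons]
    exact mul_pos (hr a) h

theorem strel_min {Z : Type} [Fintype Z] {r : Z → ℝ} (hr : ∀ a, 0 < r a) {cc : ℝ} (hcc : 0 < cc)
    (k : ℕ) : ∃ m : ℝ, 0 < m ∧ ∀ u : Fin k → Z, m ≤ cc ^ k * wt r (List.ofFn u) := by
  classical
  rcases isEmpty_or_nonempty (Fin k → Z) with h | h
  · exact ⟨1, one_pos, fun u => h.elim u⟩
  · obtain ⟨u₀, hu₀⟩ := Finite.exists_min (fun u : Fin k → Z => cc ^ k * wt r (List.ofFn u))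
    exact ⟨_, mul_pos (pow_pos hcc k) (strel_wt_pos hr _), hu₀⟩

theorem strel_fin {ι Z : Type} [Fintype Z] {r : Z → ℝ} (hr : ∀ a, 0 < r a) {cc : ℝ}
    (hcc : 0 < cc) (k : ℕ) {T : ι → ℝ} (hT : Summable T)
    {P : ι → (Fin k → Z) → Prop} (hP : ∀ i u, P i u → cc ^ k * wt r (List.ofFn u) ≤ T i) :
    {i | ∃ u, P i u}.Finite := by
  obtain ⟨m, hm, hmu⟩ := strel_min hr hcc k
  have h1 : ∀ᶠ i in Filter.cofinite, T i < m :=
    hT.tendsto_cofinite_zero.eventually_lt_const hm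
  rw [Filter.eventually_cofinite] at h1
  refine h1.subset ?_
  rintro i ⟨u, hu⟩
  exact not_lt.2 ((hmu u).trans (hP i u hu))

theorem strel_sum {ι A : Type} [Fintype A] {T : ι → A → ℕ → ℝ} (hT0 : ∀ i a k, 0 ≤ T i a k)
    (hTs : ∀ a k, Summable fun i => T i a k) (n : ℕ) (S : Finset (ι × A × ℕ))
    (hS : ∀ x ∈ S, 2 ≤ x.2.2 ∧ x.2.2 ≤ n) :
    ∑ x ∈ S, T x.1 x.2.1 x.2.2 * (2 : ℝ) / 2 ^ x.2.2 ≤
      ∑ k ∈ Finset.Icc 2 n, (2 : ℝ) / 2 ^ k * ∑ a, ∑' i, T i a k := by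
  classical
  set I := S.image fun x => x.1 with hI
  have hsub : S ⊆ I ×ˢ (Finset.univ ×ˢ Finset.Icc 2 n) := by
    intro x hx
    rw [Finset.mem_product, Finset.mem_product, Finset.mem_Icc]
    exact ⟨Finset.mem_image_of_mem _ hx, Finset.mem_univ _, hS x hx⟩
  have h0 : ∀ x : ι × A × ℕ, 0 ≤ T x.1 x.2.1 x.2.2 * (2 : ℝ) / 2 ^ x.2.2 := by
    intro x
    have := hT0 x.1 x.2.1 x.2.2
    positivity
  calc ∑ x ∈ S, T x.1 x.2.1 x.2.2 * (2 : ℝ) / 2 ^ x.2.2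
      ≤ ∑ x ∈ I ×ˢ (Finset.univ ×ˢ Finset.Icc 2 n), T x.1 x.2.1 x.2.2 * (2 : ℝ) / 2 ^ x.2.2 :=
        Finset.sum_le_sum_of_subset_of_nonneg hsub fun x _ _ => h0 x
    _ = ∑ k ∈ Finset.Icc 2 n, ∑ a, ∑ i ∈ I, T i a k * (2 : ℝ) / 2 ^ k := by
        rw [Finset.sum_product_right, Finset.sum_product_right]
    _ ≤ _ := by
        refine Finset.sum_le_sum fun k _ => ?_
        rw [Finset.mul_sum]
        refine Finset.sum_le_sum fun a _ => ?_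
        have h1 : ∑ i ∈ I, T i a k ≤ ∑' i, T i a k :=
          (hTs a k).sum_le_tsum I fun i _ => hT0 i a k
        have h2 : ∑ i ∈ I, T i a k * (2 : ℝ) / 2 ^ k = (2 : ℝ) / 2 ^ k * ∑ i ∈ I, T i a k := by
          rw [Finset.mul_sum]
          refine Finset.sum_congr rfl fun i _ => ?_
          ring
        rw [h2]
        exact mul_le_mul_of_nonneg_left h1 (by positivity)

theorem strel_sum2 {A : Type} [Fintype A] {T : A → ℕ → ℝ} (hT0 : ∀ a k, 0 ≤ T a k)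
    (n : ℕ) (S : Finset (A × ℕ)) (hS : ∀ x ∈ S, 2 ≤ x.2 ∧ x.2 ≤ n) :
    ∑ x ∈ S, T x.1 x.2 * (2 : ℝ) / 2 ^ x.2 ≤
      ∑ k ∈ Finset.Icc 2 n, (2 : ℝ) / 2 ^ k * ∑ a, T a k := by
  classical
  have hsub : S ⊆ Finset.univ ×ˢ Finset.Icc 2 n := by
    intro x hx
    rw [Finset.mem_product, Finset.mem_Icc]
    exact ⟨Finset.mem_univ _, hS x hx⟩
  have h0 : ∀ x : A × ℕ, 0 ≤ T x.1 x.2 * (2 : ℝ) / 2 ^ x.2 := by
    intro x
    have := hT0 x.1 x.2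
    positivity
  calc ∑ x ∈ S, T x.1 x.2 * (2 : ℝ) / 2 ^ x.2
      ≤ ∑ x ∈ Finset.univ ×ˢ Finset.Icc 2 n, T x.1 x.2 * (2 : ℝ) / 2 ^ x.2 :=
        Finset.sum_le_sum_of_subset_of_nonneg hsub fun x _ _ => h0 x
    _ = ∑ k ∈ Finset.Icc 2 n, ∑ a, T a k * (2 : ℝ) / 2 ^ k := by
        rw [Finset.sum_product_right]
    _ = _ := by
        refine Finset.sum_congr rfl fun k _ => ?_
        rw [Finset.mul_sum]
        refine Finset.sum_congr rfl fun a _ => ?_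
        ring

theorem rels_finite [Fact p.Prime] {w : WG p G} (Q : Pres p G w) {V : Subgroup G} (hV : Op w V)
    {L : List (G × ℝ)} (hL : Chain w ⊤ V L) {Z : Type} [Fintype Z] {χ : Z → G → ZMod p}
    {r : Z → ℝ} (hr : ∀ a, 0 < r a) {n : ℕ} {K : Fhat p Q.X → G → List Z → ZMod p}
    (hK : Coc Q V χ r n K) {l : ℕ} (hh : Fin l → Fhat p Q.X) {cc : ℝ} (hcc : 0 < cc)
    (T1 : Q.ι → (Fin L.length → Fin p) → ℕ → ℝ) (hT10 : ∀ i a k, 0 ≤ T1 i a k)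
    (hT1u : ∀ i a (u : List Z), 2 ≤ u.length → u.length ≤ n →
      dif (mono L a) (fun h => K (Q.r i) h u) 1 ≠ 0 →
        cc ^ u.length * wt r u ≤ T1 i a u.length)
    (hT1s : ∀ a k, Summable fun i => T1 i a k)
    (T2 : Fin l → ℕ → ℝ) (hT20 : ∀ c k, 0 ≤ T2 c k)
    (hT2u : ∀ c (u : List Z), 2 ≤ u.length → u.length ≤ n → K (hh c) 1 u ≠ 0 →
      cc ^ u.length * wt r u ≤ T2 c u.length)
    (hle : ∑ k ∈ Finset.Icc 2 n,
      (2 : ℝ) / 2 ^ k * ((∑ a, ∑' i, T1 i a k) + ∑ c, T2 c k) ≤ 2) :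
    ∃ (ι : Type) (_ : Fintype ι) (k : ι → ℕ) (ρ : (j : ι) → (Fin (k j) → Z) → ZMod p)
      (τ : ι → ℝ), (∀ j, 2 ≤ k j) ∧ (∀ j, 0 < τ j) ∧
      (∀ j u, ρ j u ≠ 0 → wt (fun a => cc * r a) (List.ofFn u) ≤ τ j) ∧
      ∑ j, τ j * (2 : ℝ) / 2 ^ k j ≤ 2 ∧
      (∀ (i : Q.ι) (a : Fin L.length → Fin p) (k' : ℕ), 2 ≤ k' → k' ≤ n →
        (∀ u : List Z, u.length = k' → dif (mono L a) (fun h => K (Q.r i) h u) 1 = 0) ∨
        ∃ j, k j = k' ∧ ∀ u, ρ j u = dif (mono L a) (fun h => K (Q.r i) h (List.ofFn u)) 1) ∧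
      (∀ (c : Fin l) (k' : ℕ), 2 ≤ k' → k' ≤ n →
        (∀ u : List Z, u.length = k' → K (hh c) 1 u = 0) ∨
        ∃ j, k j = k' ∧ ∀ u, ρ j u = K (hh c) 1 (List.ofFn u)) := by
  classical
  -- the two index sets
  set S1 : Set (Q.ι × (Fin L.length → Fin p) × ℕ) :=
    {x | 2 ≤ x.2.2 ∧ x.2.2 ≤ n ∧ ∃ u : Fin x.2.2 → Z,
      dif (mono L x.2.1) (fun h => K (Q.r x.1) h (List.ofFn u)) 1 ≠ 0} with hS1
  set S2 : Set (Fin l × ℕ) :=
    {x | 2 ≤ x.2 ∧ x.2 ≤ n ∧ ∃ u : Fin x.2 → Z, K (hh x.1) 1 (List.ofFn u) ≠ 0} with hS2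
  have hb1 : ∀ (i : Q.ι) (a : Fin L.length → Fin p) (k : ℕ), 2 ≤ k → k ≤ n →
      ∀ u : Fin k → Z, dif (mono L a) (fun h => K (Q.r i) h (List.ofFn u)) 1 ≠ 0 →
      cc ^ k * wt r (List.ofFn u) ≤ T1 i a k := by
    intro i a k hk2 hkn u hu
    have h := hT1u i a (List.ofFn u) (by rwa [List.length_ofFn]) (by rwa [List.length_ofFn]) hu
    rwa [List.length_ofFn] at h
  have hb2 : ∀ (c : Fin l) (k : ℕ), 2 ≤ k → k ≤ n →
      ∀ u : Fin k → Z, K (hh c) 1 (List.ofFn u) ≠ 0 →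
      cc ^ k * wt r (List.ofFn u) ≤ T2 c k := by
    intro c k hk2 hkn u hu
    have h := hT2u c (List.ofFn u) (by rwa [List.length_ofFn]) (by rwa [List.length_ofFn]) hu
    rwa [List.length_ofFn] at h
  have hf1 : S1.Finite := by
    have h1 : ∀ (a : Fin L.length → Fin p) (k : ℕ), 2 ≤ k → k ≤ n →
        {i | ∃ u : Fin k → Z,
          dif (mono L a) (fun h => K (Q.r i) h (List.ofFn u)) 1 ≠ 0}.Finite :=
      fun a k hk2 hkn => strel_fin hr hcc k (hT1s a k) (fun i u hu => hb1 i a k hk2 hkn u hu)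
    have h2 : (⋃ a : Fin L.length → Fin p, ⋃ k ∈ Finset.Icc 2 n,
        (fun i : Q.ι => ((i, a, k) : Q.ι × (Fin L.length → Fin p) × ℕ)) ''
          {i | ∃ u : Fin k → Z,
            dif (mono L a) (fun h => K (Q.r i) h (List.ofFn u)) 1 ≠ 0}).Finite := by
      refine Set.finite_iUnion fun a => ?_
      refine Set.Finite.biUnion (Finset.finite_toSet _) fun k hk => ?_
      have hk' := Finset.mem_Icc.1 (Finset.mem_coe.1 hk)
      exact (h1 a k hk'.1 hk'.2).image _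
    refine h2.subset ?_
    rintro ⟨i, a, k⟩ ⟨hk2, hkn, hu⟩
    rw [Set.mem_iUnion]
    refine ⟨a, ?_⟩
    rw [Set.mem_iUnion₂]
    exact ⟨k, Finset.mem_Icc.2 ⟨hk2, hkn⟩, i, hu, rfl⟩
  have hf2 : S2.Finite := by
    have h2 : ((Set.univ : Set (Fin l)) ×ˢ ((Finset.Icc 2 n : Finset ℕ) : Set ℕ)).Finite :=
      Set.finite_univ.prod (Finset.finite_toSet _)
    refine h2.subset ?_
    rintro ⟨c, k⟩ ⟨hk2, hkn, -⟩
    exact ⟨Set.mem_univ _, Finset.mem_coe.2 (Finset.mem_Icc.2 ⟨hk2, hkn⟩)⟩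
  let _ : Fintype S1 := hf1.fintype
  let _ : Fintype S2 := hf2.fintype
  refine ⟨S1 ⊕ S2, inferInstance, Sum.elim (fun x => x.1.2.2) (fun x => x.1.2),
    fun j => match j with
      | Sum.inl x => fun u => dif (mono L x.1.2.1) (fun h => K (Q.r x.1.1) h (List.ofFn u)) 1
      | Sum.inr x => fun u => K (hh x.1.1) 1 (List.ofFn u),
    Sum.elim (fun x => T1 x.1.1 x.1.2.1 x.1.2.2) (fun x => T2 x.1.1 x.1.2), ?_, ?_, ?_, ?_, ?_, ?_⟩
  · rintro (x | x)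
    · exact x.2.1
    · exact x.2.1
  · rintro (⟨x, hk2, hkn, u, hu⟩ | ⟨x, hk2, hkn, u, hu⟩)
    · exact lt_of_lt_of_le (mul_pos (pow_pos hcc _) (strel_wt_pos hr _))
        (hb1 x.1 x.2.1 x.2.2 hk2 hkn u hu)
    · exact lt_of_lt_of_le (mul_pos (pow_pos hcc _) (strel_wt_pos hr _))
        (hb2 x.1 x.2 hk2 hkn u hu)
  · rintro (⟨x, hk2, hkn, hx⟩ | ⟨x, hk2, hkn, hx⟩) u hu
    · rw [strel_wt, List.length_ofFn]
      exact hb1 x.1 x.2.1 x.2.2 hk2 hkn u hu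
    · rw [strel_wt, List.length_ofFn]
      exact hb2 x.1 x.2 hk2 hkn u hu
  · rw [Fintype.sum_sum_type]
    have e1 : ∑ x : S1, T1 x.1.1 x.1.2.1 x.1.2.2 * (2 : ℝ) / 2 ^ x.1.2.2 =
        ∑ x ∈ hf1.toFinset, T1 x.1 x.2.1 x.2.2 * (2 : ℝ) / 2 ^ x.2.2 := by
      exact (Finset.sum_subtype hf1.toFinset (fun x => hf1.mem_toFinset)
        (fun x => T1 x.1 x.2.1 x.2.2 * (2 : ℝ) / 2 ^ x.2.2)).symm
    have e2 : ∑ x : S2, T2 x.1.1 x.1.2 * (2 : ℝ) / 2 ^ x.1.2 =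
        ∑ x ∈ hf2.toFinset, T2 x.1 x.2 * (2 : ℝ) / 2 ^ x.2 := by
      exact (Finset.sum_subtype hf2.toFinset (fun x => hf2.mem_toFinset)
        (fun x => T2 x.1 x.2 * (2 : ℝ) / 2 ^ x.2)).symm
    have h1 := strel_sum hT10 hT1s n hf1.toFinset (fun x hx => by
      have := (hf1.mem_toFinset).1 hx
      exact ⟨this.1, this.2.1⟩)
    have h2 := strel_sum2 hT20 n hf2.toFinset (fun x hx => by
      have := (hf2.mem_toFinset).1 hx
      exact ⟨this.1, this.2.1⟩)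
    have h3 : ∑ k ∈ Finset.Icc 2 n,
        (2 : ℝ) / 2 ^ k * ((∑ a, ∑' i, T1 i a k) + ∑ c, T2 c k) =
        (∑ k ∈ Finset.Icc 2 n, (2 : ℝ) / 2 ^ k * ∑ a, ∑' i, T1 i a k) +
        ∑ k ∈ Finset.Icc 2 n, (2 : ℝ) / 2 ^ k * ∑ c, T2 c k := by
      rw [← Finset.sum_add_distrib]
      refine Finset.sum_congr rfl fun k _ => ?_
      ring
    have h4 : (∑ x : S1, T1 x.1.1 x.1.2.1 x.1.2.2 * (2 : ℝ) / 2 ^ x.1.2.2) +
        ∑ x : S2, T2 x.1.1 x.1.2 * (2 : ℝ) / 2 ^ x.1.2 ≤ 2 := by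
      rw [e1, e2]
      linarith
    exact h4
  · intro i a k' hk2 hkn
    by_cases hP : ∃ u : Fin k' → Z,
        dif (mono L a) (fun h => K (Q.r i) h (List.ofFn u)) 1 ≠ 0
    · right
      exact ⟨Sum.inl ⟨(i, a, k'), hk2, hkn, hP⟩, rfl, fun u => rfl⟩
    · left
      intro u hu
      by_contra hne
      apply hP
      subst hu
      refine ⟨u.get, ?_⟩
      rw [List.ofFn_get]
      exact hne
  · intro c k' hk2 hkn
    by_cases hP : ∃ u : Fin k' → Z, K (hh c) 1 (List.ofFn u) ≠ 0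
    · right
      exact ⟨Sum.inr ⟨(c, k'), hk2, hkn, hP⟩, rfl, fun u => rfl⟩
    · left
      intro u hu
      by_contra hne
      apply hP
      subst hu
      refine ⟨u.get, ?_⟩
      rw [List.ofFn_get]
      exact hne

end Pool.Agent.GGS
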