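import Pool.Agent.GGS.AlgDef

/-!
# Word maps (paper, section 11)
-/

namespace Pool.Agent.GGS

open Ser

section wmap

open Finset

variable {p : ℕ} {m : ℕ} {E : Type*} [Ring E] [Algebra (ZMod p) E]

/-- which indices belong to the letter `x` -/
def WMside (q : ℕ) (x : Fin 2) (s : Fin m) : Prop := if x = 0 then (s : ℕ) < q else q ≤ (s : ℕ)

instance (q : ℕ) (x : Fin 2) (s : Fin m) : Decidable (WMside q x s) := by
  unfold WMside
  infer_instance

/-- `g` gives the coefficients of `F`. -/
def WMrep (F g : Finset (Fin m) → E) : Prop := ∀ I, F I = ∑ T ∈ I.powerset, g T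

omit [Algebra (ZMod p) E] in
theorem WMrep.mul {F G f g : Finset (Fin m) → E} (hF : WMrep F f) (hG : WMrep G g) :
    WMrep (fun I => F I * G I) (fun U => ∑ P ∈ (U.powerset ×ˢ U.powerset).filter
      (fun P => P.1 ∪ P.2 = U), f P.1 * g P.2) := by
  intro I
  simp only
  rw [hF I, hG I, Finset.sum_mul_sum, ← Finset.sum_product']
  rw [← Finset.sum_fiberwise_of_maps_to (s := I.powerset ×ˢ I.powerset) (t := I.powerset)
    (g := fun P => P.1 ∪ P.2)]
  · refine Finset.sum_congr rfl fun U hU => ?_
    rw [mem_powerset] at hU
    refine Finset.sum_congr ?_ fun _ _ => rfl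
    ext P
    simp only [mem_filter, mem_product, mem_powerset]
    constructor
    · rintro ⟨_, h⟩
      refine ⟨⟨?_, ?_⟩, h⟩
      · rw [← h]; exact subset_union_left
      · rw [← h]; exact subset_union_right
    · rintro ⟨⟨h1, h2⟩, h⟩
      exact ⟨⟨h1.trans hU, h2.trans hU⟩, h⟩
  · intro P hP
    rw [mem_product, mem_powerset, mem_powerset] at hP
    rw [mem_powerset]
    exact union_subset hP.1 hP.2

/-- the alternating sum picks the top coefficient -/
theorem WMrep.alt {F g : Finset (Fin m) → E} (hF : WMrep F g) :
    ∑ K : Finset (Fin m), ((-1 : ZMod p) ^ K.card) • F Kᶜ = g univ := by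
  have h1 : ∀ K : Finset (Fin m), ((-1 : ZMod p) ^ K.card) • F Kᶜ =
      ∑ T : Finset (Fin m), if K ⊆ Tᶜ then ((-1 : ZMod p) ^ K.card) • g T else 0 := by
    intro K
    rw [hF, Finset.smul_sum, ← Finset.sum_filter]
    refine Finset.sum_congr ?_ fun _ _ => rfl
    ext T
    rw [mem_powerset, mem_filter]
    constructor
    · intro h
      exact ⟨mem_univ _, subset_compl_comm.1 h⟩
    · rintro ⟨_, h⟩
      exact subset_compl_comm.1 h
  rw [Finset.sum_congr rfl fun K _ => h1 K, Finset.sum_comm]
  have h2 : ∀ T : Finset (Fin m),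
      (∑ K : Finset (Fin m), if K ⊆ Tᶜ then ((-1 : ZMod p) ^ K.card) • g T else 0) =
        if T = univ then g T else 0 := by
    intro T
    rw [← Finset.sum_filter]
    have h3 : (univ.filter fun K : Finset (Fin m) => K ⊆ Tᶜ) = Tᶜ.powerset := by
      ext K
      rw [mem_powerset, mem_filter]
      exact ⟨fun h => h.2, fun h => ⟨mem_univ _, h⟩⟩
    rw [h3, ← Finset.sum_smul]
    by_cases hT : T = univ
    · rw [if_pos hT, hT, compl_univ, powerset_empty, sum_singleton, card_empty, pow_zero,
        one_smul]
    · rw [if_neg hT]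
      have hne : Tᶜ.Nonempty := by
        rw [Finset.nonempty_iff_ne_empty]
        intro h
        exact hT (compl_eq_empty_iff T |>.1 h)
      have h4 := Finset.sum_powerset_neg_one_pow_card_of_nonempty hne
      have h5 : (∑ K ∈ Tᶜ.powerset, (-1 : ZMod p) ^ K.card) = 0 := by
        have h6 : ((∑ K ∈ Tᶜ.powerset, (-1 : ℤ) ^ K.card : ℤ) : ZMod p) = 0 := by
          rw [h4]; simp
        push_cast at h6
        exact h6
      rw [h5, zero_smul]
  rw [Finset.sum_congr rfl fun T _ => h2 T, Finset.sum_ite_eq' univ univ g, if_pos (mem_univ _)]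

/-- the data -/
structure WMdat (p : ℕ) {m : ℕ} {E : Type*} [Ring E] [Algebra (ZMod p) E]
    (J : ℕ → Submodule (ZMod p) E) (β : Fin m → E) (d : Fin m → ℕ) : Prop where
  anti : Antitone J
  mul : ∀ i j, ∀ a ∈ J i, ∀ b ∈ J j, a * b ∈ J (i + j)
  top : J 0 = ⊤
  one_le : ∀ s, 1 ≤ d s
  mem : ∀ s, β s ∈ J (d s)

variable {J : ℕ → Submodule (ZMod p) E} {β : Fin m → E} {d : Fin m → ℕ}

theorem WMdat.prodRep (h : WMdat p J β d) (side : Fin m → Prop) [DecidablePred side]
    (l : List (Fin m)) (hl : l.Nodup) :
    ∃ g : Finset (Fin m) → E,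
      WMrep (fun I => (l.map fun s => if s ∈ I ∧ side s then 1 + β s else 1).prod) g ∧
      g ∅ = 1 ∧ (∀ T, g T ∈ J (∑ s ∈ T, d s)) ∧
      ∀ s, g {s} = if s ∈ l ∧ side s then β s else 0 := by
  induction l with
  | nil =>
    refine ⟨fun T => if T = ∅ then 1 else 0, ?_, if_pos rfl, ?_, ?_⟩
    · intro I
      rw [Finset.sum_ite_eq' I.powerset ∅ fun _ => (1 : E), if_pos (empty_mem_powerset I)]
      simp
    · intro T
      by_cases hT : T = ∅
      · simp only [hT, if_true, sum_empty, h.top, Submodule.mem_top]
      · simp only [hT, if_false]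
        exact Submodule.zero_mem _
    · intro s
      simp
  | cons s0 l ih =>
    rw [List.nodup_cons] at hl
    obtain ⟨g', h1, h2, h3, h4⟩ := ih hl.2
    refine ⟨fun U => g' U + if s0 ∈ U ∧ side s0 then β s0 * (g' U + g' (U.erase s0)) else 0,
      ?_, ?_, ?_, ?_⟩
    · intro I
      simp only [List.map_cons, List.prod_cons]
      have h1I := h1 I
      simp only at h1I
      rw [h1I, Finset.sum_add_distrib]
      by_cases hs : s0 ∈ I ∧ side s0
      · rw [if_pos hs, add_mul, one_mul]
        congr 1
        have e1 : ∑ U ∈ I.powerset, (if s0 ∈ U ∧ side s0 then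
            β s0 * (g' U + g' (U.erase s0)) else 0) =
            ∑ U ∈ I.powerset.filter (fun U => s0 ∈ U), β s0 * (g' U + g' (U.erase s0)) := by
          rw [Finset.sum_filter]
          refine Finset.sum_congr rfl fun U _ => ?_
          by_cases hU : s0 ∈ U
          · rw [if_pos ⟨hU, hs.2⟩, if_pos hU]
          · rw [if_neg fun hc => hU hc.1, if_neg hU]
        rw [e1, ← Finset.mul_sum, Finset.sum_add_distrib]
        congr 1
        rw [← Finset.sum_filter_add_sum_filter_not I.powerset (fun U => s0 ∈ U) g']
        congr 1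
        refine Finset.sum_bij' (fun T _ => insert s0 T) (fun U _ => U.erase s0) ?_ ?_ ?_ ?_ ?_
        · intro T hT
          rw [mem_filter, mem_powerset] at hT
          rw [mem_filter, mem_powerset]
          exact ⟨insert_subset hs.1 hT.1, mem_insert_self _ _⟩
        · intro U hU
          rw [mem_filter, mem_powerset] at hU
          rw [mem_filter, mem_powerset]
          exact ⟨(erase_subset _ _).trans hU.1, notMem_erase _ _⟩
        · intro T hT
          rw [mem_filter] at hT
          exact erase_insert hT.2
        · intro U hU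
          rw [mem_filter] at hU
          exact insert_erase hU.2
        · intro T hT
          rw [mem_filter] at hT
          rw [erase_insert hT.2]
      · rw [if_neg hs, one_mul]
        have e1 : ∑ U ∈ I.powerset, (if s0 ∈ U ∧ side s0 then
            β s0 * (g' U + g' (U.erase s0)) else 0) = 0 := by
          refine Finset.sum_eq_zero fun U hU => ?_
          rw [mem_powerset] at hU
          rw [if_neg]
          intro hc
          exact hs ⟨hU hc.1, hc.2⟩
        rw [e1, add_zero]
    · simp only [notMem_empty, false_and, if_false, add_zero]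
      exact h2
    · intro T
      refine Submodule.add_mem _ (h3 T) ?_
      by_cases hs : s0 ∈ T ∧ side s0
      · rw [if_pos hs, mul_add]
        refine Submodule.add_mem _ ?_ ?_
        · exact h.anti (by omega) (h.mul _ _ _ (h.mem s0) _ (h3 T))
        · have e2 := h.mul _ _ _ (h.mem s0) _ (h3 (T.erase s0))
          rwa [Finset.add_sum_erase T d hs.1] at e2
      · rw [if_neg hs]
        exact Submodule.zero_mem _
    · intro s
      simp only [mem_singleton]
      by_cases hs : s0 = s
      · subst hs
        have e3 : ({s0} : Finset (Fin m)).erase s0 = ∅ := by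
          rw [erase_singleton]
        have e4 := h4 s0
        rw [if_neg fun hc => hl.1 hc.1] at e4
        by_cases hside : side s0
        · rw [e4, e3, h2, if_pos ⟨rfl, hside⟩, if_pos ⟨List.mem_cons_self, hside⟩]
          simp
        · rw [e4, if_neg fun hc => hside hc.2, if_neg fun hc => hside hc.2]
          simp
      · have e5 : g' {s} = if s ∈ l ∧ side s then β s else 0 := h4 s
        rw [if_neg fun hc => hs hc.1, e5, add_zero]
        by_cases hsl : s ∈ l ∧ side s
        · rw [if_pos hsl, if_pos ⟨List.mem_cons_of_mem _ hsl.1, hsl.2⟩]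
        · rw [if_neg hsl, if_neg]
          rintro ⟨hc, hc'⟩
          rcases List.mem_cons.1 hc with h6 | h6
          · exact hs h6.symm
          · exact hsl ⟨h6, hc'⟩

/-- the substituted letters -/
def WMsub (β : Fin m → E) (q : ℕ) (a : Fin 2 → E) (I : Finset (Fin m)) (x : Fin 2) : E :=
  (1 + a x) * ((List.finRange m).map fun s => if s ∈ I ∧ WMside q x s then 1 + β s else 1).prod - 1

theorem WMdat.subRep (h : WMdat p J β d) (q : ℕ) (a : Fin 2 → E) (ha : ∀ x, a x ∈ J 1)
    (x : Fin 2) : ∃ g : Finset (Fin m) → E, WMrep (fun I => WMsub β q a I x) g ∧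
      g ∅ ∈ J 1 ∧ (∀ T, g T ∈ J (∑ s ∈ T, d s)) ∧
      ∀ s, g {s} - (if WMside q x s then β s else 0) ∈ J (d s + 1) := by
  obtain ⟨g', h1, h2, h3, h4⟩ := h.prodRep (WMside q x) (List.finRange m) (List.nodup_finRange m)
  refine ⟨fun T => (1 + a x) * g' T - if T = ∅ then 1 else 0, ?_, ?_, ?_, ?_⟩
  · intro I
    have h1I := h1 I
    simp only at h1I
    simp only [WMsub]
    rw [h1I, Finset.sum_sub_distrib, ← Finset.mul_sum,
      Finset.sum_ite_eq' I.powerset ∅ fun _ => (1 : E), if_pos (empty_mem_powerset I)]
  · simp only [if_true]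
    rw [h2, mul_one, add_sub_cancel_left]
    exact ha x
  · intro T
    refine Submodule.sub_mem _ ?_ ?_
    · have := h.mul 0 _ (1 + a x) (by rw [h.top]; exact Submodule.mem_top) _ (h3 T)
      rwa [zero_add] at this
    · by_cases hT : T = ∅
      · rw [if_pos hT, hT, sum_empty, h.top]
        exact Submodule.mem_top
      · rw [if_neg hT]
        exact Submodule.zero_mem _
  · intro s
    have e1 : g' {s} = if WMside q x s then β s else 0 := by
      rw [h4 s]
      by_cases hs : WMside q x s
      · rw [if_pos ⟨List.mem_finRange s, hs⟩, if_pos hs]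
      · rw [if_neg fun hc => hs hc.2, if_neg hs]
    have e2 : (1 + a x) * g' {s} - (if ({s} : Finset (Fin m)) = ∅ then 1 else 0) -
        (if WMside q x s then β s else 0) = a x * g' {s} := by
      rw [if_neg (singleton_ne_empty s), ← e1]
      rw [add_mul, one_mul, sub_zero, add_sub_cancel_left]
    simp only
    rw [e2]
    have e3 := h.mul 1 _ (a x) (ha x) _ (h3 {s})
    rw [sum_singleton, add_comm] at e3
    exact e3

/-- the multilinear part -/
def WMM (β : Fin m → E) (q : ℕ) : List (Fin 2) → Finset (Fin m) → E
  | [], _ => 1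
  | x :: u, U => ∑ s ∈ U, if WMside q x s then β s * WMM β q u (U.erase s) else 0

theorem WMdat.wordRep (h : WMdat p J β d) (q : ℕ) (a : Fin 2 → E) (ha : ∀ x, a x ∈ J 1)
    (u : List (Fin 2)) : ∃ g : Finset (Fin m) → E,
      WMrep (fun I => (u.map (WMsub β q a I)).prod) g ∧
      (∀ U, g U ∈ J (∑ s ∈ U, d s)) ∧
      (∀ U, U.card < u.length → g U ∈ J (∑ s ∈ U, d s + 1)) ∧
      ∀ U, U.card = u.length → g U - WMM β q u U ∈ J (∑ s ∈ U, d s + 1) := by
  induction u with
  | nil =>
    refine ⟨fun T => if T = ∅ then 1 else 0, ?_, ?_, ?_, ?_⟩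
    · intro I
      rw [Finset.sum_ite_eq' I.powerset ∅ fun _ => (1 : E), if_pos (empty_mem_powerset I)]
      simp
    · intro T
      by_cases hT : T = ∅
      · simp only [hT, if_true, sum_empty, h.top, Submodule.mem_top]
      · simp only [hT, if_false]
        exact Submodule.zero_mem _
    · intro U hU
      exact absurd hU (by simp)
    · intro U hU
      have hU0 : U = ∅ := card_eq_zero.1 (by simpa using hU)
      simp only [hU0, if_true, WMM, sub_self]
      exact Submodule.zero_mem _
  | cons x u ih =>
    obtain ⟨g', h1, h2, h3, h4⟩ := ih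
    obtain ⟨f, f1, f2, f3, f4⟩ := h.subRep q a ha x
    -- the degree of a term
    have key0 : ∀ U : Finset (Fin m), ∀ P ∈ (U.powerset ×ˢ U.powerset).filter
        (fun P => P.1 ∪ P.2 = U), f P.1 * g' P.2 ∈ J (∑ s ∈ U, d s) := by
      intro U P hP
      rw [mem_filter] at hP
      refine h.anti ?_ (h.mul _ _ _ (f3 P.1) _ (h2 P.2))
      rw [← hP.2]
      have := Finset.sum_union_inter (s₁ := P.1) (s₂ := P.2) (f := d)
      omega
    have key1 : ∀ U : Finset (Fin m), ∀ P ∈ (U.powerset ×ˢ U.powerset).filter
        (fun P => P.1 ∪ P.2 = U), (P.1 = ∅ ∨ ¬ Disjoint P.1 P.2 ∨ P.2.card < u.length) →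
        f P.1 * g' P.2 ∈ J (∑ s ∈ U, d s + 1) := by
      intro U P hP hor
      rw [mem_filter] at hP
      rcases hor with h5 | h5 | h5
      · have e1 : P.2 = U := by
          have := hP.2
          rw [h5, empty_union] at this
          exact this
        rw [h5, e1]
        have := h.mul _ _ _ f2 _ (h2 U)
        rwa [add_comm] at this
      · refine h.anti ?_ (h.mul _ _ _ (f3 P.1) _ (h2 P.2))
        have e1 := Finset.sum_union_inter (s₁ := P.1) (s₂ := P.2) (f := d)
        have e2 : 1 ≤ ∑ s ∈ P.1 ∩ P.2, d s := by
          obtain ⟨s, hs⟩ := Finset.not_disjoint_iff_nonempty_inter.1 h5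
          exact (h.one_le s).trans (Finset.single_le_sum (fun _ _ => Nat.zero_le _) hs)
        rw [← hP.2]
        omega
      · refine h.anti ?_ (h.mul _ _ _ (f3 P.1) _ (h3 P.2 h5))
        have e1 := Finset.sum_union_inter (s₁ := P.1) (s₂ := P.2) (f := d)
        rw [← hP.2]
        omega
    have hcardP : ∀ U : Finset (Fin m), ∀ P ∈ (U.powerset ×ˢ U.powerset).filter
        (fun P => P.1 ∪ P.2 = U), Disjoint P.1 P.2 → P.1.card + P.2.card = U.card := by
      intro U P hP hd
      rw [mem_filter] at hP
      rw [← hP.2, card_union_of_disjoint hd]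
    refine ⟨_, WMrep.mul f1 h1, ?_, ?_, ?_⟩
    · intro U
      exact Submodule.sum_mem _ fun P hP => key0 U P hP
    · intro U hU
      refine Submodule.sum_mem _ fun P hP => key1 U P hP ?_
      by_cases h5 : P.1 = ∅
      · exact Or.inl h5
      · by_cases h6 : Disjoint P.1 P.2
        · right; right
          have e1 := hcardP U P hP h6
          have e2 : 1 ≤ P.1.card := card_pos.2 (nonempty_iff_ne_empty.2 h5)
          rw [List.length_cons] at hU
          omega
        · exact Or.inr (Or.inl h6)
    · intro U hU
      rw [List.length_cons] at hU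
      let good : Finset (Finset (Fin m) × Finset (Fin m)) :=
        U.image fun s => ({s}, U.erase s)
      have hgood : good ⊆ (U.powerset ×ˢ U.powerset).filter (fun P => P.1 ∪ P.2 = U) := by
        intro P hP
        obtain ⟨s, hs, rfl⟩ := mem_image.1 hP
        rw [mem_filter, mem_product, mem_powerset, mem_powerset]
        refine ⟨⟨singleton_subset_iff.2 hs, erase_subset _ _⟩, ?_⟩
        simp only
        rw [← insert_eq, insert_erase hs]
      have hsum : ∑ P ∈ good, f P.1 * g' P.2 = ∑ s ∈ U, f {s} * g' (U.erase s) := by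
        rw [Finset.sum_image]
        intro s _ s' _ hss
        exact singleton_injective (Prod.mk.inj hss).1
      have e1 : (∑ P ∈ (U.powerset ×ˢ U.powerset).filter (fun P => P.1 ∪ P.2 = U),
          f P.1 * g' P.2) - WMM β q (x :: u) U =
          ∑ P ∈ (U.powerset ×ˢ U.powerset).filter (fun P => P.1 ∪ P.2 = U) \ good,
            f P.1 * g' P.2 +
          ∑ s ∈ U, (f {s} * g' (U.erase s) -
            if WMside q x s then β s * WMM β q u (U.erase s) else 0) := by
        rw [← Finset.sum_sdiff hgood, hsum, Finset.sum_sub_distrib]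
        simp only [WMM]
        rw [add_sub_assoc]
      rw [e1]
      refine Submodule.add_mem _ (Submodule.sum_mem _ fun P hP => ?_)
        (Submodule.sum_mem _ fun s hs => ?_)
      · rw [mem_sdiff] at hP
        refine key1 U P hP.1 ?_
        by_cases h5 : P.1 = ∅
        · exact Or.inl h5
        · by_cases h6 : Disjoint P.1 P.2
          · right; right
            have e2 := hcardP U P hP.1 h6
            have e3 : 1 ≤ P.1.card := card_pos.2 (nonempty_iff_ne_empty.2 h5)
            have e4 : P.1.card ≠ 1 := by
              intro h7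
              obtain ⟨s, hs⟩ := card_eq_one.1 h7
              apply hP.2
              have h8 := (mem_filter.1 hP.1).2
              have hsU : s ∈ U := by
                rw [← h8, hs]
                exact mem_union_left _ (mem_singleton_self s)
              refine mem_image.2 ⟨s, hsU, ?_⟩
              refine Prod.ext hs.symm ?_
              change U.erase s = P.2
              rw [← h8, hs, ← insert_eq]
              refine erase_insert ?_
              intro h9
              rw [hs] at h6
              exact (disjoint_singleton_left.1 h6) h9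
            omega
          · exact Or.inr (Or.inl h6)
      · have hce : (U.erase s).card = u.length := by
          rw [card_erase_of_mem hs]
          omega
        have hde : d s + ∑ t ∈ U.erase s, d t = ∑ t ∈ U, d t := Finset.add_sum_erase U d hs
        have e5 : f {s} * g' (U.erase s) -
            (if WMside q x s then β s * WMM β q u (U.erase s) else 0) =
            (f {s} - if WMside q x s then β s else 0) * g' (U.erase s) +
              (if WMside q x s then β s else 0) * (g' (U.erase s) - WMM β q u (U.erase s)) := by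
          by_cases hside : WMside q x s
          · simp only [if_pos hside]
            noncomm_ring
          · simp only [if_neg hside]
            noncomm_ring
        rw [e5]
        refine Submodule.add_mem _ ?_ ?_
        · have e6 := h.mul _ _ _ (f4 s) _ (h2 (U.erase s))
          rwa [show d s + 1 + ∑ t ∈ U.erase s, d t = ∑ t ∈ U, d t + 1 by omega] at e6
        · by_cases hside : WMside q x s
          · rw [if_pos hside]
            have e6 := h.mul _ _ _ (h.mem s) _ (h4 (U.erase s) hce)
            rwa [show d s + (∑ t ∈ U.erase s, d t + 1) = ∑ t ∈ U, d t + 1 by omega] at e6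
          · rw [if_neg hside, zero_mul]
            exact Submodule.zero_mem _

/-- the multilinear part as a sum over injective maps -/
theorem WMM_eq (β : Fin m → E) (q : ℕ) (k : ℕ) (u : Fin k → Fin 2) (U : Finset (Fin m))
    (hU : U.card = k) : WMM β q (List.ofFn u) U =
      ∑ f : Fin k → Fin m, if Function.Injective f ∧ (∀ i, f i ∈ U) ∧
        ∀ i, WMside q (u i) (f i) then (List.ofFn fun i => β (f i)).prod else 0 := by
  induction k generalizing U with
  | zero =>
    rw [List.ofFn_zero]
    simp only [WMM]
    rw [Fintype.sum_unique, if_pos]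
    · rw [List.ofFn_zero, List.prod_nil]
    · exact ⟨Function.injective_of_subsingleton _, fun i => i.elim0, fun i => i.elim0⟩
  | succ k ih =>
    rw [List.ofFn_succ]
    simp only [WMM]
    rw [← (Fin.consEquiv fun _ : Fin (k + 1) => Fin m).sum_comp, Fintype.sum_prod_type]
    have h1 : ∀ s : Fin m, (∑ f' : Fin k → Fin m,
        if Function.Injective ((Fin.consEquiv fun _ : Fin (k + 1) => Fin m) (s, f')) ∧
          (∀ i, (Fin.consEquiv fun _ : Fin (k + 1) => Fin m) (s, f') i ∈ U) ∧
          ∀ i, WMside q (u i) ((Fin.consEquiv fun _ : Fin (k + 1) => Fin m) (s, f') i) then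
          (List.ofFn fun i => β ((Fin.consEquiv fun _ : Fin (k + 1) => Fin m) (s, f') i)).prod
        else 0) = if s ∈ U then (if WMside q (u 0) s then
          β s * WMM β q (List.ofFn fun i => u i.succ) (U.erase s) else 0) else 0 := by
      intro s
      by_cases hs : s ∈ U
      · rw [if_pos hs]
        by_cases hside : WMside q (u 0) s
        · rw [if_pos hside, ih (fun i => u i.succ) (U.erase s) (by
            rw [card_erase_of_mem hs]; omega), Finset.mul_sum]
          refine Finset.sum_congr rfl fun f' _ => ?_
          have e1 : (Function.Injective ((Fin.consEquiv fun _ : Fin (k + 1) => Fin m) (s, f')) ∧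
              (∀ i, (Fin.consEquiv fun _ : Fin (k + 1) => Fin m) (s, f') i ∈ U) ∧
              ∀ i, WMside q (u i) ((Fin.consEquiv fun _ : Fin (k + 1) => Fin m) (s, f') i)) ↔
              (Function.Injective f' ∧ (∀ i, f' i ∈ U.erase s) ∧
                ∀ i, WMside q (u i.succ) (f' i)) := by
            change (Function.Injective (Fin.cons s f' : Fin (k + 1) → Fin m) ∧
              (∀ i, (Fin.cons s f' : Fin (k + 1) → Fin m) i ∈ U) ∧
              ∀ i, WMside q (u i) ((Fin.cons s f' : Fin (k + 1) → Fin m) i)) ↔ _
            rw [Fin.cons_injective_iff, Fin.forall_fin_succ, Fin.forall_fin_succ]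
            simp only [Fin.cons_zero, Fin.cons_succ, mem_erase, Set.mem_range, not_exists]
            constructor
            · rintro ⟨⟨h2, h3⟩, ⟨_, h4⟩, _, h5⟩
              exact ⟨h3, fun i => ⟨h2 i, h4 i⟩, h5⟩
            · rintro ⟨h2, h3, h4⟩
              exact ⟨⟨fun i => (h3 i).1, h2⟩, ⟨hs, fun i => (h3 i).2⟩, hside, h4⟩
          by_cases hc : Function.Injective f' ∧ (∀ i, f' i ∈ U.erase s) ∧
              ∀ i, WMside q (u i.succ) (f' i)
          · rw [if_pos (e1.2 hc), if_pos hc, List.ofFn_succ, List.prod_cons]
            rfl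
          · rw [if_neg fun h => hc (e1.1 h), if_neg hc, mul_zero]
        · rw [if_neg hside]
          refine Finset.sum_eq_zero fun f' _ => if_neg ?_
          rintro ⟨_, _, h4⟩
          exact hside (h4 0)
      · rw [if_neg hs]
        refine Finset.sum_eq_zero fun f' _ => if_neg ?_
        rintro ⟨_, h3, _⟩
        exact hs (h3 0)
    rw [Finset.sum_congr rfl fun s _ => h1 s, Finset.sum_ite_mem, Finset.univ_inter]

end wmap

/-- 11.1: `q` is the number of letters `0` in the chosen bidegree. -/
theorem word_map {p : ℕ} [Fact p.Prime] {m : ℕ} (hm : 1 ≤ m) (wd : List (Fin 2) → ZMod p)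
    (h1 : wd [] = 1) (hl : ∀ u, u ≠ [] → u.length < m → wd u = 0)
    (hn : ∃ u : List (Fin 2), u.length = m ∧ wd u ≠ 0) :
    ∃ (q : ℕ) (c : Equiv.Perm (Fin m) → ZMod p), c ≠ 0 ∧
      ∀ (E : Type) [Ring E] [Algebra (ZMod p) E] (J : ℕ → Submodule (ZMod p) E) (n : ℕ)
        (_ : Antitone J) (_ : ∀ i j, ∀ a ∈ J i, ∀ b ∈ J j, a * b ∈ J (i + j))
        (_ : J 0 = ⊤) (_ : J (n + 1) = ⊥) (A B : E) (_ : A ∈ J 1) (_ : B ∈ J 1)
        (β : Fin m → E) (d : Fin m → ℕ) (_ : ∀ s, 1 ≤ d s) (_ : ∀ s, β s ∈ J (d s))
        (_ : ∑ s, d s = n) (_ : mulp c β ≠ 0),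
        ∃ I : Finset (Fin m),
          evs ![(1 + A) * ((List.finRange m).map fun s =>
              if s ∈ I ∧ (s : ℕ) < q then 1 + β s else 1).prod - 1,
            (1 + B) * ((List.finRange m).map fun s =>
              if s ∈ I ∧ q ≤ (s : ℕ) then 1 + β s else 1).prod - 1] (n + 1) wd ≠ 1 := by
  classical
  obtain ⟨u₀, hu₀, hwu₀⟩ := hn
  set v₀ : Fin m → Fin 2 := fun i => u₀.get (i.cast hu₀.symm) with hv₀
  have hv₀u : List.ofFn v₀ = u₀ := by
    subst hu₀
    exact List.ofFn_get u₀
  set q : ℕ := (Finset.univ.filter fun i => v₀ i = 0).card with hq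
  have hqm : q ≤ m := by
    have := Finset.card_le_univ (Finset.univ.filter fun i => v₀ i = 0)
    rwa [Fintype.card_fin] at this
  let ch : (Fin m → Fin m) → Fin m → Fin 2 := fun f i => if (f i : ℕ) < q then 0 else 1
  have hside : ∀ (f : Fin m → Fin m) (u : Fin m → Fin 2),
      (∀ i, WMside q (u i) (f i)) ↔ u = ch f := by
    intro f u
    rw [funext_iff]
    refine forall_congr' fun i => ?_
    unfold WMside
    simp only [ch]
    by_cases h2 : (f i : ℕ) < q
    · rw [if_pos h2]
      by_cases h3 : u i = 0
      · rw [if_pos h3]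
        exact iff_of_true h2 h3
      · rw [if_neg h3]
        exact iff_of_false (by omega) h3
    · rw [if_neg h2]
      by_cases h3 : u i = 0
      · rw [if_pos h3, h3]
        exact iff_of_false h2 (by decide)
      · rw [if_neg h3]
        refine iff_of_true (by omega) ?_
        have : ∀ x : Fin 2, x ≠ 0 → x = 1 := by decide
        exact this _ h3
  refine ⟨q, fun σ => wd (List.ofFn (ch σ)), ?_, ?_⟩
  · -- a permutation with nonzero coefficient
    have hcard : Fintype.card {i // v₀ i = 0} = Fintype.card {s : Fin m // (s : ℕ) < q} := by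
      rw [Fintype.card_subtype, Fintype.card_subtype, ← hq]
      have h2 : (Finset.univ.filter fun s : Fin m => (s : ℕ) < q) =
          (Finset.univ : Finset (Fin q)).map (Fin.castLEEmb hqm) := by
        ext s
        simp only [Finset.mem_filter, Finset.mem_univ, true_and, Finset.mem_map]
        constructor
        · intro hs
          exact ⟨⟨s, hs⟩, Fin.ext rfl⟩
        · rintro ⟨t, rfl⟩
          exact t.2
      rw [h2, Finset.card_map, Finset.card_univ, Fintype.card_fin]
    let e := Fintype.equivOfCardEq hcard
    intro h0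
    have h2 := congrFun h0 e.extendSubtype
    apply hwu₀
    rw [← hv₀u]
    have h3 : ch e.extendSubtype = v₀ := by
      symm
      rw [← hside]
      intro i
      unfold WMside
      by_cases h4 : v₀ i = 0
      · rw [if_pos h4]
        exact e.extendSubtype_mem i h4
      · rw [if_neg h4]
        have := e.extendSubtype_not_mem i h4
        omega
    rw [← h3]
    exact h2
  · intro E _ _ J n hanti hmul htop hbot A B hA hB β d hd hβ hsum hne
    by_contra hcon
    push Not at hcon
    apply hne
    have hD : WMdat p J β d := ⟨hanti, hmul, htop, hd, hβ⟩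
    set a : Fin 2 → E := ![A, B] with ha
    have haJ : ∀ x, a x ∈ J 1 := by
      intro x
      fin_cases x
      · exact hA
      · exact hB
    have hN : ∀ I : Finset (Fin m), (![(1 + A) * ((List.finRange m).map fun s =>
              if s ∈ I ∧ (s : ℕ) < q then 1 + β s else 1).prod - 1,
            (1 + B) * ((List.finRange m).map fun s =>
              if s ∈ I ∧ q ≤ (s : ℕ) then 1 + β s else 1).prod - 1] : Fin 2 → E) =
        WMsub β q a I := by
      intro I
      funext x
      fin_cases x
      · rfl
      · rfl
    have hmn : m ≤ n := by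
      rw [← hsum]
      calc m = ∑ _s : Fin m, 1 := by simp
        _ ≤ ∑ s, d s := Finset.sum_le_sum fun s _ => hd s
    -- alternating sums of constants vanish
    have hconst : ∀ e : E, ∑ K : Finset (Fin m), ((-1 : ZMod p) ^ K.card) • e = 0 := by
      intro e
      have h2 : WMrep (fun _ : Finset (Fin m) => e) fun T => if T = ∅ then e else 0 := by
        intro I
        rw [Finset.sum_ite_eq' I.powerset ∅ fun _ => e,
          if_pos (Finset.empty_mem_powerset I)]
      rw [h2.alt (p := p), if_neg]
      intro h3
      have : (Finset.univ : Finset (Fin m)).card = 0 := by rw [h3]; rfl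
      rw [Finset.card_univ, Fintype.card_fin] at this
      omega
    have h2 : ∑ K : Finset (Fin m), ((-1 : ZMod p) ^ K.card) •
        evs (WMsub β q a Kᶜ) (n + 1) wd = 0 := by
      rw [Finset.sum_congr rfl fun K _ => by rw [← hN Kᶜ, hcon Kᶜ]]
      exact hconst 1
    -- alternating sums of words
    have hword : ∀ (k : ℕ) (u : Fin k → Fin 2), ∑ K : Finset (Fin m),
        ((-1 : ZMod p) ^ K.card) • (wd (List.ofFn u) •
          ((List.ofFn u).map (WMsub β q a Kᶜ)).prod) =
        if k = m then wd (List.ofFn u) • WMM β q (List.ofFn u) Finset.univ else 0 := by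
      intro k u
      have e0 : ∑ K : Finset (Fin m), ((-1 : ZMod p) ^ K.card) • (wd (List.ofFn u) •
          ((List.ofFn u).map (WMsub β q a Kᶜ)).prod) = wd (List.ofFn u) •
          ∑ K : Finset (Fin m), ((-1 : ZMod p) ^ K.card) •
            ((List.ofFn u).map (WMsub β q a Kᶜ)).prod := by
        rw [Finset.smul_sum]
        refine Finset.sum_congr rfl fun K _ => ?_
        rw [smul_comm]
      rw [e0]
      obtain ⟨g, g1, g2, g3, g4⟩ := hD.wordRep q a haJ (List.ofFn u)
      have e1 := g1.alt (p := p)
      rw [e1]
      have hbot' : ∀ x ∈ J (∑ s ∈ (Finset.univ : Finset (Fin m)), d s + 1), x = 0 := by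
        intro x hx
        rw [hsum, hbot] at hx
        exact (Submodule.mem_bot _).1 hx
      have hcu : (Finset.univ : Finset (Fin m)).card = m := by
        rw [Finset.card_univ, Fintype.card_fin]
      rcases Nat.lt_trichotomy k m with h5 | h5 | h5
      · rw [if_neg (by omega)]
        rcases Nat.eq_zero_or_pos k with h6 | h6
        · subst h6
          have e2 := hconst 1
          have e3 : g Finset.univ = 0 := by
            rw [← e1]
            refine (Finset.sum_congr rfl fun K _ => ?_).trans e2
            rw [List.ofFn_zero, List.map_nil, List.prod_nil]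
          rw [e3, smul_zero]
        · rw [hl _ (by
            intro h7
            have := congrArg List.length h7
            rw [List.length_ofFn, List.length_nil] at this
            omega) (by rw [List.length_ofFn]; exact h5), zero_smul]
      · rw [if_pos h5]
        congr 1
        exact sub_eq_zero.1 (hbot' _ (g4 _ (by rw [hcu, List.length_ofFn, h5])))
      · rw [if_neg (by omega), hbot' _ (g3 _ (by rw [hcu, List.length_ofFn]; exact h5)),
          smul_zero]
    have h3 : ∑ K : Finset (Fin m), ((-1 : ZMod p) ^ K.card) •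
        evs (WMsub β q a Kᶜ) (n + 1) wd =
        ∑ u : Fin m → Fin 2, wd (List.ofFn u) • WMM β q (List.ofFn u) Finset.univ := by
      unfold evs
      simp only [Finset.smul_sum]
      rw [Finset.sum_comm]
      have e1 : ∀ k ∈ Finset.range (n + 1), ∑ K : Finset (Fin m), ∑ u : Fin k → Fin 2,
          ((-1 : ZMod p) ^ K.card) • (wd (List.ofFn u) •
            ((List.ofFn u).map (WMsub β q a Kᶜ)).prod) =
          if k = m then ∑ u : Fin k → Fin 2, wd (List.ofFn u) •
            WMM β q (List.ofFn u) Finset.univ else 0 := by
        intro k _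
        rw [Finset.sum_comm, Finset.sum_congr rfl fun u _ => hword k u]
        by_cases h5 : k = m
        · simp only [if_pos h5]
        · simp only [if_neg h5, Finset.sum_const_zero]
      rw [Finset.sum_congr rfl e1, Finset.sum_ite, Finset.sum_const_zero, add_zero]
      have e2 : ((Finset.range (n + 1)).filter fun k => k = m) = {m} := by
        ext k
        rw [Finset.mem_filter, Finset.mem_range, Finset.mem_singleton]
        constructor
        · exact fun h => h.2
        · intro h
          exact ⟨by omega, h⟩
      rw [e2, Finset.sum_singleton]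
    rw [← h2, h3]
    -- comparison with the multilinear polynomial
    unfold mulp
    have h4 : ∀ u : Fin m → Fin 2, wd (List.ofFn u) • WMM β q (List.ofFn u) Finset.univ =
        ∑ f : Fin m → Fin m, if Function.Injective f ∧ u = ch f then
          wd (List.ofFn (ch f)) • (List.ofFn fun i => β (f i)).prod else 0 := by
      intro u
      rw [WMM_eq β q m u Finset.univ (by rw [Finset.card_univ, Fintype.card_fin]),
        Finset.smul_sum]
      refine Finset.sum_congr rfl fun f _ => ?_
      by_cases h5 : Function.Injective f ∧ u = ch f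
      · rw [if_pos h5, if_pos ⟨h5.1, fun i => Finset.mem_univ _, (hside f u).2 h5.2⟩, h5.2]
      · rw [if_neg h5, if_neg fun h6 => h5 ⟨h6.1, (hside f u).1 h6.2.2⟩, smul_zero]
    rw [Finset.sum_congr rfl fun u _ => h4 u, Finset.sum_comm]
    have h5 : ∀ f : Fin m → Fin m, (∑ u : Fin m → Fin 2,
        if Function.Injective f ∧ u = ch f then
          wd (List.ofFn (ch f)) • (List.ofFn fun i => β (f i)).prod else 0) =
        if Function.Injective f then
          wd (List.ofFn (ch f)) • (List.ofFn fun i => β (f i)).prod else 0 := by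
      intro f
      by_cases h6 : Function.Injective f
      · simp only [h6, true_and, if_true]
        rw [Finset.sum_ite_eq' Finset.univ (ch f), if_pos (Finset.mem_univ _)]
      · simp only [h6, false_and, if_false, Finset.sum_const_zero]
    rw [Finset.sum_congr rfl fun f _ => h5 f, ← Finset.sum_filter]
    refine Finset.sum_bij (fun (σ : Equiv.Perm (Fin m)) _ => (σ : Fin m → Fin m)) ?_ ?_ ?_ ?_
    · intro σ _
      exact Finset.mem_filter.2 ⟨Finset.mem_univ _, σ.injective⟩
    · intro σ _ τ _ hστ
      exact DFunLike.coe_injective hστ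
    · intro f hf
      have hf' := (Finset.mem_filter.1 hf).2
      refine ⟨Equiv.ofBijective f ⟨hf', Finite.surjective_of_injective hf'⟩,
        Finset.mem_univ _, rfl⟩
    · intro σ _
      rfl

end Pool.Agent.GGS
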