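import Pool.Agent.GGS.CommLead
import Pool.Agent.GGS.StRel
import Pool.Agent.GGS.StHom
import Pool.Agent.GGS.PiC
import Pool.Agent.GGS.AlgE
import Pool.Agent.GGS.WMap

/-!
# The algebraic core of the stage lemma (paper, section 12)

`rels_finite` gives the relations `(ι, k, ρ, τ)`; letter weights `t a = cc * r a`.  `word_map` gives `q`, `c`;
`no_identity` gives blocks `v i` with `f = mulp c (lieW …) ∉ Jn`, homogeneous of degree `n1 = ∑ |v i| ≤ n0 m`; `alg_quot`
(with `N = n1`) gives `E`, `z`; relations of degree `> n1` hold trivially in `E` (`NilW`).  `theta_exists` gives `θ`.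
`J i` = span of the products of `≥ i` of the `z a` (`J 0 = ⊤`: replace `E` by the subalgebra generated by the `z a`, or
put `J 0 = ⊤` by definition).  `comm_lead` (applied to `zz`) gives elements `g i` with
`θ (g i) - 1 - lieW z (v i) ∈ J (|v i| + 1)`; `word_map` with `β i = θ (g i) - 1`, `A = θ u - 1`, `B = θ v - 1` gives `I`;
`u'`, `v'` are the products of the `g i`, `i ∈ I`, `i < q` resp. `i ≥ q`.  (`mulp c β - mulp c (lieW …) ∈ J (n1 + 1) = 0`.)
-/

namespace Pool.Agent.GGS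

universe u

open Ser

variable {p : ℕ} {G : Type u} [Group G]

/-- homogeneous series of degree `n` -/
def scHom (p : ℕ) (Z : Type) (n : ℕ) : Submodule (ZMod p) (Ser p Z) where
  carrier := {f | ∀ u : List Z, u.length ≠ n → f u = 0}
  add_mem' := fun {a b} ha hb u hu => by rw [Ser.add_apply, ha u hu, hb u hu, add_zero]
  zero_mem' := fun u _ => rfl
  smul_mem' := fun c f hf u hu => by rw [Ser.smul_apply, hf u hu, mul_zero]

lemma scHom_mul {Z : Type} {a b : ℕ} {f g : Ser p Z} (hf : f ∈ scHom p Z a)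
    (hg : g ∈ scHom p Z b) : f * g ∈ scHom p Z (a + b) := by
  intro u hu
  rw [Ser.mul_apply]
  refine Finset.sum_eq_zero fun i hi => ?_
  have hi' : i ≤ u.length := by
    have := Finset.mem_range.mp hi
    omega
  by_cases h1 : (u.take i).length = a
  · by_cases h2 : (u.drop i).length = b
    · exfalso
      rw [List.length_take] at h1
      rw [List.length_drop] at h2
      omega
    · rw [hg _ h2, mul_zero]
  · rw [hf _ h1, zero_mul]

lemma scHom_one {Z : Type} : (1 : Ser p Z) ∈ scHom p Z 0 := by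
  intro u hu
  cases u with
  | nil => exact absurd rfl hu
  | cons a u => exact Ser.one_cons a u

lemma scHom_mon {Z : Type} (a : Z) : (mon [a] : Ser p Z) ∈ scHom p Z 1 := by
  intro u hu
  refine Ser.mon_ne fun h => hu ?_
  rw [h]; rfl

lemma scHom_foldl {Z : Type} (l : List Z) : ∀ (x : Ser p Z) (n : ℕ), x ∈ scHom p Z n →
    l.foldl (fun x b => x * mon [b] - mon [b] * x) x ∈ scHom p Z (n + l.length) := by
  induction l with
  | nil => intro x n hx; exact hx
  | cons b l ih =>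
    intro x n hx
    rw [List.foldl_cons, List.length_cons]
    have h1 : x * mon [b] - mon [b] * x ∈ scHom p Z (n + 1) := by
      refine Submodule.sub_mem _ (scHom_mul hx (scHom_mon b)) ?_
      rw [add_comm]
      exact scHom_mul (scHom_mon b) hx
    have h2 := ih _ _ h1
    rwa [show n + 1 + l.length = n + (l.length + 1) by omega] at h2

lemma scHom_lieW {Z : Type} (v : List Z) :
    lieW (fun a => (mon [a] : Ser p Z)) v ∈ scHom p Z v.length := by
  cases v with
  | nil => exact Submodule.zero_mem _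
  | cons a l =>
    have := scHom_foldl (p := p) l (mon [a]) 1 (scHom_mon a)
    rw [List.length_cons, add_comm]
    exact this

lemma scHom_prod {Z : Type} : ∀ (m : ℕ) (x : Fin m → Ser p Z) (d : Fin m → ℕ)
    (_ : ∀ i, x i ∈ scHom p Z (d i)), (List.ofFn x).prod ∈ scHom p Z (∑ i, d i) := by
  intro m
  induction m with
  | zero => intro x d _; simpa using scHom_one
  | succ m ih =>
    intro x d h
    rw [List.ofFn_succ, List.prod_cons, Fin.sum_univ_succ]
    exact scHom_mul (h 0) (ih _ _ fun i => h i.succ)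

lemma scHom_mulp {Z : Type} {m : ℕ} (c : Equiv.Perm (Fin m) → ZMod p) (x : Fin m → Ser p Z)
    (d : Fin m → ℕ) (h : ∀ i, x i ∈ scHom p Z (d i)) : mulp c x ∈ scHom p Z (∑ i, d i) := by
  refine Submodule.sum_mem _ fun σ _ => Submodule.smul_mem _ _ ?_
  have h1 := scHom_prod m (fun i => x (σ i)) (fun i => d (σ i)) fun i => h (σ i)
  rwa [Equiv.sum_comp σ d] at h1

/-- evaluation as an algebra homomorphism -/
noncomputable def scEv {Z : Type} [Fintype Z] {E : Type} [Ring E] [Algebra (ZMod p) E]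
    (z : Z → E) (k : ℕ) (h : NilW z k) : Ser p Z →ₐ[ZMod p] E :=
  AlgHom.ofLinearMap
    { toFun := fun f => evs z k f
      map_add' := fun f g => evs_add z k f g
      map_smul' := fun c f => evs_smul z k c f } (evs_one h) (fun f g => evs_mul h f g)

lemma scEv_apply {Z : Type} [Fintype Z] {E : Type} [Ring E] [Algebra (ZMod p) E]
    (z : Z → E) (k : ℕ) (h : NilW z k) (f : Ser p Z) : scEv z k h f = evs z k f := rfl

lemma sc_lieW_map {Z : Type} {E F : Type*} [Ring E] [Ring F] (φ : E →+* F) (z : Z → E)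
    (v : List Z) : φ (lieW z v) = lieW (fun a => φ (z a)) v := by
  cases v with
  | nil => exact map_zero φ
  | cons a l =>
    have h : ∀ (l : List Z) (x : E), φ (l.foldl (fun x b => x * z b - z b * x) x) =
        l.foldl (fun x b => x * φ (z b) - φ (z b) * x) (φ x) := by
      intro l
      induction l with
      | nil => intro x; rfl
      | cons b l ih =>
        intro x
        rw [List.foldl_cons, List.foldl_cons, ih, map_sub, map_mul, map_mul]
    exact h l (z a)

lemma sc_mulp_map {m : ℕ} {E F : Type*} [Ring E] [Ring F] [Algebra (ZMod p) E]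
    [Algebra (ZMod p) F] (φ : E →ₐ[ZMod p] F) (c : Equiv.Perm (Fin m) → ZMod p) (x : Fin m → E) :
    φ (mulp c x) = mulp c (fun i => φ (x i)) := by
  unfold mulp
  rw [map_sum]
  refine Finset.sum_congr rfl fun σ _ => ?_
  rw [map_smul, map_list_prod, List.map_ofFn]
  rfl

lemma sc_evs_map {Z : Type} [Fintype Z] {E F : Type*} [Ring E] [Ring F] [Algebra (ZMod p) E]
    [Algebra (ZMod p) F] (φ : E →ₐ[ZMod p] F) (z : Z → E) (k : ℕ) (f : List Z → ZMod p) :
    φ (evs z k f) = evs (fun a => φ (z a)) k f := by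
  unfold evs
  rw [map_sum]
  refine Finset.sum_congr rfl fun n _ => ?_
  rw [map_sum]
  refine Finset.sum_congr rfl fun u _ => ?_
  rw [map_smul, map_list_prod, List.map_map]
  rfl

/-- the filtration by the number of factors -/
def scJ (p : ℕ) {Z : Type} {E : Type} [Ring E] [Algebra (ZMod p) E] (z : Z → E) (i : ℕ) :
    Submodule (ZMod p) E :=
  Submodule.span (ZMod p) {x | ∃ u : List Z, i ≤ u.length ∧ x = (u.map z).prod}

section filt

variable {Z : Type} {E : Type} [Ring E] [Algebra (ZMod p) E] (z : Z → E)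

lemma scJ_anti : Antitone (scJ p z) := by
  intro i j hij
  refine Submodule.span_mono ?_
  rintro x ⟨u, hu, rfl⟩
  exact ⟨u, hij.trans hu, rfl⟩

lemma scJ_mul (i j : ℕ) : ∀ a ∈ scJ p z i, ∀ b ∈ scJ p z j, a * b ∈ scJ p z (i + j) := by
  intro a ha b hb
  unfold scJ at ha
  induction ha using Submodule.span_induction with
  | mem x hx =>
    obtain ⟨u, hu, rfl⟩ := hx
    unfold scJ at hb
    induction hb using Submodule.span_induction with
    | mem y hy =>
      obtain ⟨v, hv, rfl⟩ := hy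
      refine Submodule.subset_span ⟨u ++ v, ?_, ?_⟩
      · rw [List.length_append]; omega
      · rw [List.map_append, List.prod_append]
    | zero => rw [mul_zero]; exact Submodule.zero_mem _
    | add x y _ _ hx hy => rw [mul_add]; exact Submodule.add_mem _ hx hy
    | smul c x _ hx => rw [mul_smul_comm]; exact Submodule.smul_mem _ _ hx
  | zero => rw [zero_mul]; exact Submodule.zero_mem _
  | add x y _ _ hx hy => rw [add_mul]; exact Submodule.add_mem _ hx hy
  | smul c x _ hx => rw [smul_mul_assoc]; exact Submodule.smul_mem _ _ hx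

lemma scJ_bot {n : ℕ} (h : NilW z n) : scJ p z n = ⊥ := by
  rw [eq_bot_iff]
  refine Submodule.span_le.mpr ?_
  rintro x ⟨u, hu, rfl⟩
  exact (Submodule.mem_bot _).mpr (h u hu)

lemma scJ_z (a : Z) : z a ∈ scJ p z 1 :=
  Submodule.subset_span ⟨[a], le_rfl, by simp⟩

lemma scJ_sum (m : ℕ) : ∀ (x y : Fin m → E) (d : Fin m → ℕ) (_ : ∀ i, x i ∈ scJ p z (d i))
    (_ : ∀ i, y i ∈ scJ p z (d i)) (_ : ∀ i, x i - y i ∈ scJ p z (d i + 1)),
    (List.ofFn x).prod ∈ scJ p z (∑ i, d i) ∧ (List.ofFn y).prod ∈ scJ p z (∑ i, d i) ∧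
    (List.ofFn x).prod - (List.ofFn y).prod ∈ scJ p z (∑ i, d i + 1) := by
  induction m with
  | zero =>
    intro x y d _ _ _
    have h1 : (1 : E) ∈ scJ p z 0 := Submodule.subset_span ⟨[], le_rfl, by simp⟩
    refine ⟨by simpa using h1, by simpa using h1, ?_⟩
    simp
  | succ m ih =>
    intro x y d hx hy hxy
    obtain ⟨h1, h2, h3⟩ := ih (fun i => x i.succ) (fun i => y i.succ) (fun i => d i.succ)
      (fun i => hx _) (fun i => hy _) (fun i => hxy _)
    rw [List.ofFn_succ, List.prod_cons, List.ofFn_succ, List.prod_cons, Fin.sum_univ_succ]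
    refine ⟨scJ_mul z _ _ _ (hx 0) _ h1, scJ_mul z _ _ _ (hy 0) _ h2, ?_⟩
    have e : x 0 * (List.ofFn fun i => x i.succ).prod - y 0 * (List.ofFn fun i => y i.succ).prod =
        x 0 * ((List.ofFn fun i => x i.succ).prod - (List.ofFn fun i => y i.succ).prod) +
        (x 0 - y 0) * (List.ofFn fun i => y i.succ).prod := by
      rw [mul_sub, sub_mul]; abel
    rw [e]
    refine Submodule.add_mem _ ?_ ?_
    · rw [add_assoc]
      exact scJ_mul z _ _ _ (hx 0) _ h3
    · have h4 := scJ_mul z _ _ _ (hxy 0) _ h2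
      rwa [show d 0 + 1 + ∑ i : Fin m, d i.succ = d 0 + ∑ i : Fin m, d i.succ + 1 by omega] at h4

lemma scJ_mulp {m : ℕ} (c : Equiv.Perm (Fin m) → ZMod p) (x y : Fin m → E) (d : Fin m → ℕ)
    (hx : ∀ i, x i ∈ scJ p z (d i)) (hy : ∀ i, y i ∈ scJ p z (d i))
    (hxy : ∀ i, x i - y i ∈ scJ p z (d i + 1)) :
    mulp c x - mulp c y ∈ scJ p z (∑ i, d i + 1) := by
  unfold mulp
  rw [← Finset.sum_sub_distrib]
  refine Submodule.sum_mem _ fun σ _ => ?_
  rw [← smul_sub]
  refine Submodule.smul_mem _ _ ?_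
  have h := (scJ_sum z m (fun i => x (σ i)) (fun i => y (σ i)) (fun i => d (σ i))
    (fun i => hx _) (fun i => hy _) (fun i => hxy _)).2.2
  rwa [Equiv.sum_comp σ d] at h

end filt

/-- passing to the subalgebra generated by the `z a` -/
lemma sc_sub {Z : Type} [Fintype Z] {E : Type} [Ring E] [Algebra (ZMod p) E] (z : Z → E) :
    ∃ (F : Type) (_ : Ring F) (_ : Algebra (ZMod p) F) (φ : F →ₐ[ZMod p] E) (z' : Z → F),
      Function.Injective φ ∧ (∀ a, φ (z' a) = z a) ∧ scJ p z' 0 = ⊤ := by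
  refine ⟨↥(Algebra.adjoin (ZMod p) (Set.range z)), inferInstance, inferInstance,
    (Algebra.adjoin (ZMod p) (Set.range z)).val,
    fun a => ⟨z a, Algebra.subset_adjoin ⟨a, rfl⟩⟩, Subtype.val_injective, fun a => rfl, ?_⟩
  set z' : Z → ↥(Algebra.adjoin (ZMod p) (Set.range z)) :=
    fun a => ⟨z a, Algebra.subset_adjoin ⟨a, rfl⟩⟩ with hz'
  rw [eq_top_iff]
  rintro ⟨x, hx⟩ -
  induction hx using Algebra.adjoin_induction with
  | mem x hx =>
    obtain ⟨a, rfl⟩ := hx
    exact Submodule.subset_span ⟨[a], by simp, by simp [hz']⟩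
  | algebraMap r =>
    have h1 : (1 : ↥(Algebra.adjoin (ZMod p) (Set.range z))) ∈ scJ p z' 0 :=
      Submodule.subset_span ⟨[], by simp, by simp⟩
    have h2 := Submodule.smul_mem _ r h1
    rw [← Algebra.algebraMap_eq_smul_one] at h2
    exact h2
  | add x y hx hy h1 h2 => exact Submodule.add_mem _ h1 h2
  | mul x y hx hy h1 h2 => exact scJ_mul z' 0 0 _ h1 _ h2

lemma sc_theta_prod {V : Subgroup G} {E : Type} [Ring E] (θ : G → E) (h1 : θ 1 = 1)
    (hm : ∀ g ∈ V, ∀ h ∈ V, θ (g * h) = θ g * θ h) (l : List G) (hl : ∀ g ∈ l, g ∈ V) :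
    θ l.prod = (l.map θ).prod := by
  induction l with
  | nil => simpa using h1
  | cons a l ih =>
    rw [List.prod_cons, List.map_cons, List.prod_cons, hm a (hl a (by simp)) _
      (V.list_prod_mem fun g hg => hl g (by simp [hg])), ih fun g hg => hl g (by simp [hg])]

theorem stage_core [Fact p.Prime] {w : WG p G} (Q : Pres p G w) {V : Subgroup G} (hV : Op w V)
    {L : List (G × ℝ)} (hL : Chain w ⊤ V L) {Z : Type} [Fintype Z] [LinearOrder Z]
    {χ : Z → G → ZMod p} {r : Z → ℝ} (hr : ∀ a, 0 < r a) {m : ℕ} (hm : 1 ≤ m)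
    {K : Fhat p Q.X → G → List Z → ZMod p} (hK : Coc Q V χ r (n0 m) K) {l : ℕ}
    (hh : Fin l → Fhat p Q.X) (hhV : ∀ c, Q.π (hh c) ∈ V) (hhχ : ∀ c a, χ a (Q.π (hh c)) = 0)
    {cc : ℝ} (hcc : 0 < cc) (hsum : ∑ a, cc * r a = 4) {T : ℝ} (hT : ∀ a, cc * r a ≤ T)
    (hT1 : T < 1) (hTN : (n0 m : ℝ) ^ 2 * 4 ^ n0 m * T ≤ 2 ^ n0 m)
    (T1 : Q.ι → (Fin L.length → Fin p) → ℕ → ℝ) (hT10 : ∀ i a k, 0 ≤ T1 i a k)
    (hT1u : ∀ i a (u : List Z), 2 ≤ u.length → u.length ≤ n0 m →
      dif (mono L a) (fun h => K (Q.r i) h u) 1 ≠ 0 →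
        cc ^ u.length * wt r u ≤ T1 i a u.length)
    (hT1s : ∀ a k, Summable fun i => T1 i a k)
    (T2 : Fin l → ℕ → ℝ) (hT20 : ∀ c k, 0 ≤ T2 c k)
    (hT2u : ∀ c (u : List Z), 2 ≤ u.length → u.length ≤ n0 m → K (hh c) 1 u ≠ 0 →
      cc ^ u.length * wt r u ≤ T2 c u.length)
    (hle : ∑ k ∈ Finset.Icc 2 (n0 m),
      (2 : ℝ) / 2 ^ k * ((∑ a, ∑' i, T1 i a k) + ∑ c, T2 c k) ≤ 2)
    (wd : List (Fin 2) → ZMod p) (h1 : wd [] = 1)
    (hl : ∀ u, u ≠ [] → u.length < m → wd u = 0)
    (hn : ∃ u : List (Fin 2), u.length = m ∧ wd u ≠ 0)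
    (zz : Z → G) (hz : ∀ a, zz a ∈ V) (hzχ : ∀ a b, χ a (zz b) = if a = b then 1 else 0)
    (u v : G) (hu : u ∈ V) (hv : v ∈ V) :
    ∃ (E : Type) (_ : Ring E) (_ : Algebra (ZMod p) E) (θ : G → E) (n1 : ℕ), n1 ≤ n0 m ∧
      θ 1 = 1 ∧ (∀ g ∈ V, ∀ h ∈ V, θ (g * h) = θ g * θ h) ∧
      (∀ l : List G, (∀ h ∈ l, h ∈ V) → n1 < l.length → (l.map fun h => θ h - 1).prod = 0) ∧
      (∀ c, θ (Q.π (hh c)) = 1) ∧
      (∀ h ∈ V, (∀ u : List Z, u ≠ [] → u.length ≤ n0 m → w.W h < wt r u) → θ h = 1) ∧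
      ∃ u' ∈ Subgroup.closure (Set.range zz), ∃ v' ∈ Subgroup.closure (Set.range zz),
        evs ![θ (u * u') - 1, θ (v * v') - 1] (n1 + 1) wd ≠ 1 := by
  classical
  obtain ⟨ι, hι, k, ρ, τ, hk, hτ, hρ, hτs, hrel1, hrel2⟩ := rels_finite Q hV hL hr hK hh hcc T1
    hT10 hT1u hT1s T2 hT20 hT2u hle
  obtain ⟨q, c, hc, hW⟩ := word_map hm wd h1 hl hn
  obtain ⟨b, hb, hbn, hbJ⟩ := no_identity hm (fun a => cc * r a) (fun a => mul_pos hcc (hr a))
    (fun a => (hT a).trans_lt hT1) hsum k hk ρ τ hτ hρ hτs hT hTN c hc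
  set n1 : ℕ := ∑ i, (b i).length with hn1
  set f : Ser p Z := mulp c (fun i => lieW (fun a => (mon [a] : Ser p Z)) (b i)) with hf
  have hfh : f ∈ scHom p Z n1 := scHom_mulp c _ _ fun i => scHom_lieW (b i)
  obtain ⟨E₀, rE₀, aE₀, z₀, hz₀, hrel₀, hfz₀⟩ := alg_quot k ρ n1 (f := f)
    (fun u hu => by
      by_contra h
      exact hu (hfh u h)) hbJ
  obtain ⟨E, rE, aE, φ, z, hφ, hφz, hJ0⟩ := sc_sub (p := p) z₀
  have hzN : NilW z (n1 + 1) := by
    intro u hu
    apply hφ
    rw [map_zero, map_list_prod, List.map_map]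
    have : (⇑φ ∘ z) = z₀ := funext hφz
    rw [this]
    exact hz₀ u hu
  have hrelE : ∀ j, ∑ u : Fin (k j) → Z, ρ j u • ((List.ofFn u).map z).prod = 0 := by
    intro j
    apply hφ
    rw [map_zero, map_sum, ← hrel₀ j]
    refine Finset.sum_congr rfl fun u _ => ?_
    rw [map_smul, map_list_prod, List.map_map]
    have : (⇑φ ∘ z) = z₀ := funext hφz
    rw [this]
  have hfz : evs z (n1 + 1) f ≠ 0 := by
    intro h
    apply hfz₀
    have h2 := sc_evs_map φ z (n1 + 1) f
    rw [h, map_zero] at h2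
    rw [h2]
    congr 1
    exact (funext hφz).symm
  have hfz' : mulp c (fun i => lieW z (b i)) ≠ 0 := by
    have h2 : evs z (n1 + 1) f = mulp c (fun i => lieW z (b i)) := by
      rw [← scEv_apply z (n1 + 1) hzN f, hf, sc_mulp_map]
      congr 1
      funext i
      have h3 := sc_lieW_map (scEv z (n1 + 1) hzN : Ser p Z →ₐ[ZMod p] E).toRingHom
        (fun a => (mon [a] : Ser p Z)) (b i)
      refine h3.trans ?_
      congr 1
      funext a
      change evs z (n1 + 1) (mon [a]) = z a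
      rw [evs_mon hzN]
      simp
    rw [← h2]
    exact hfz
  have hn0 : 1 ≤ n0 m := (n0_spec m).2.1
  obtain ⟨θ, hθ1, hθm, hθn, hθh, hθd, hθl⟩ := theta_exists Q hV hL hn0 hK hh hhV hhχ hbn z hzN
    (fun i a k' hk2 hkn => by
      rcases hrel1 i a k' hk2 hkn with h | ⟨j, rfl, hj⟩
      · refine Finset.sum_eq_zero fun u _ => ?_
        rw [h _ (List.length_ofFn), zero_smul]
      · rw [← hrelE j]
        exact Finset.sum_congr rfl fun u _ => by rw [hj u])
    (fun c k' hk2 hkn => by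
      rcases hrel2 c k' hk2 hkn with h | ⟨j, rfl, hj⟩
      · refine Finset.sum_eq_zero fun u _ => ?_
        rw [h _ (List.length_ofFn), zero_smul]
      · rw [← hrelE j]
        exact Finset.sum_congr rfl fun u _ => by rw [hj u])
  refine ⟨E, rE, aE, θ, n1, hbn, hθ1, hθm, hθn, hθh, hθd, ?_⟩
  have hclV : Subgroup.closure (Set.range zz) ≤ V := by
    rw [Subgroup.closure_le]
    rintro _ ⟨a, rfl⟩
    exact hz a
  have hb0 : ∀ i, b i ≠ [] := by
    intro i h
    obtain ⟨a, l, hal, _⟩ := hb i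
    rw [h] at hal
    cases hal
  have hcl := fun i => comm_lead (scJ p z) (scJ_anti z) (scJ_mul z) hJ0 V θ hθ1 hθm z
    (scJ_z z) zz hz (fun a => by
      have h2 := hθl (zz a) (hz a)
      have h3 : ∑ a', χ a' (zz a) • z a' = z a := by
        rw [Finset.sum_eq_single a]
        · rw [hzχ, if_pos rfl, one_smul]
        · intro a' _ hne
          rw [hzχ, if_neg hne, zero_smul]
        · intro h; exact absurd (Finset.mem_univ _) h
      rw [h3] at h2
      exact h2) (b i) (hb0 i)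
  choose hlie g hg hgl using hcl
  have hβ : ∀ i, θ (g i) - 1 ∈ scJ p z (b i).length := by
    intro i
    have e : θ (g i) - 1 = (θ (g i) - 1 - lieW z (b i)) + lieW z (b i) := by abel
    rw [e]
    exact Submodule.add_mem _ (scJ_anti z (Nat.le_succ _) (hgl i)) (hlie i)
  have hmul : mulp c (fun i => θ (g i) - 1) ≠ 0 := by
    intro h
    apply hfz'
    have h2 := scJ_mulp z c (fun i => θ (g i) - 1) (fun i => lieW z (b i)) (fun i => (b i).length)
      hβ hlie hgl
    rw [h, zero_sub, ← hn1, scJ_bot z hzN, Submodule.mem_bot] at h2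
    exact neg_eq_zero.mp h2
  have hθJ1 : ∀ h ∈ V, θ h - 1 ∈ scJ p z 1 := by
    intro h hhV'
    have e : θ h - 1 = (θ h - 1 - ∑ a, χ a h • z a) + ∑ a, χ a h • z a := by abel
    rw [e]
    exact Submodule.add_mem _ (scJ_anti z (by norm_num : 1 ≤ 2) (hθl h hhV'))
      (Submodule.sum_mem _ fun a _ => Submodule.smul_mem _ _ (scJ_z z a))
  obtain ⟨I, hI⟩ := hW E (scJ p z) n1 (scJ_anti z) (scJ_mul z) hJ0 (scJ_bot z hzN)
    (θ u - 1) (θ v - 1) (hθJ1 u hu) (hθJ1 v hv) (fun i => θ (g i) - 1) (fun i => (b i).length)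
    (fun i => List.length_pos_iff.mpr (hb0 i)) hβ rfl hmul
  have hprod : ∀ (P : Fin m → Prop) [DecidablePred P],
      ((List.finRange m).map fun s => if P s then g s else 1).prod ∈
        Subgroup.closure (Set.range zz) ∧
      θ ((List.finRange m).map fun s => if P s then g s else 1).prod =
        ((List.finRange m).map fun s => if P s then 1 + (θ (g s) - 1) else 1).prod := by
    intro P _
    have hmem : ∀ x ∈ (List.finRange m).map fun s => if P s then g s else 1,
        x ∈ Subgroup.closure (Set.range zz) := by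
      intro x hx
      obtain ⟨s, _, rfl⟩ := List.mem_map.mp hx
      split_ifs
      · exact hg s
      · exact Subgroup.one_mem _
    refine ⟨Subgroup.list_prod_mem _ hmem, ?_⟩
    rw [sc_theta_prod θ hθ1 hθm _ (fun x hx => hclV (hmem x hx)), List.map_map]
    congr 1
    refine List.map_congr_left fun s _ => ?_
    change θ (if P s then g s else 1) = _
    split_ifs
    · abel
    · exact hθ1
  obtain ⟨hu'1, hu'2⟩ := hprod (fun s => s ∈ I ∧ (s : ℕ) < q)
  obtain ⟨hv'1, hv'2⟩ := hprod (fun s => s ∈ I ∧ q ≤ (s : ℕ))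
  refine ⟨_, hu'1, _, hv'1, ?_⟩
  rw [hθm u hu _ (hclV hu'1), hθm v hv _ (hclV hv'1), hu'2, hv'2]
  have e1 : (1 + (θ u - 1) : E) = θ u := by abel
  have e2 : (1 + (θ v - 1) : E) = θ v := by abel
  rw [e1, e2] at hI
  exact hI

end Pool.Agent.GGS
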