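import Pool.Agent.GGS.St61

/-!
# The mass of the letters (paper, section 12)
-/

namespace Pool.Agent.GGS

universe u

open Ser

variable {p : ℕ} {G : Type u} [Group G]

open Classical in
/-- the mass of the letters -/
theorem mass_Z [Fact p.Prime] (w : GSG p G) {c₁ β e : ℝ} {U Vs : Subgroup G}
    (hU : State w c₁ β U) (hs : Cc w.toWG U β Vs) (he : 0 < e)
    (hl1 : (1 + e / 2) * Ix w.toWG U ≤ Ix w.toWG Vs)
    (hl2 : Ix w.toWG Vs ≤ 3 / 2 * Ix w.toWG U)
    (hβ2 : w.K0 * β / 4 + 2 * β ≤ 3 / 16 * w.K0 * e)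
    {B : Type} [Fintype B] {v : B → G} {r : B → ℝ} {χ : B → G → ZMod p}
    (hA : Adapted w.toWG Vs (ChS w.toWG Vs) v r χ) (Y : Finset B) (hY : ∀ b ∈ Y, r b ≤ β)
    (hYm : ∑ b ∈ Y, r b ≤ 2 * β) :
    w.K0 / 8 * Ix w.toWG U * (Ix w.toWG Vs / Ix w.toWG U - 1) ≤
      ∑ b ∈ Finset.univ.filter (fun b => r b ≤ β ∧ b ∉ Y), r b := by
  have hI : 1 ≤ Ix w.toWG U := one_le_Ix w.toWG hU.op
  have hI0 : 0 < Ix w.toWG U := by linarith
  have hβ : 0 < β := hU.t_pos
  have hK := w.K0_pos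
  have h1 := state_deep w hU hs (by linarith)
  rw [adapted_xd w.toWG hA hβ] at h1
  have h2 := hU.deep
  have hsplit : ∑ b ∈ Finset.univ.filter (fun b => r b ≤ β), r b =
      ∑ b ∈ Finset.univ.filter (fun b => r b ≤ β ∧ b ∉ Y), r b + ∑ b ∈ Y, r b := by
    have hYe : Y = Finset.univ.filter (fun b => r b ≤ β ∧ b ∈ Y) := by
      ext b
      simp only [Finset.mem_filter, Finset.mem_univ, true_and]
      exact ⟨fun h => ⟨hY b h, h⟩, fun h => h.2⟩
    have h3 := Finset.sum_filter_add_sum_filter_not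
      (Finset.univ.filter (fun b => r b ≤ β)) (fun b => b ∉ Y) r
    rw [Finset.filter_filter, Finset.filter_filter] at h3
    rw [← h3]
    congr 1
    refine Finset.sum_congr ?_ fun _ _ => rfl
    ext b
    simp only [Finset.mem_filter, Finset.mem_univ, true_and, not_not]
    exact ⟨fun h => h.2, fun h => ⟨hY b h, h⟩⟩
  rw [hsplit] at h1
  set l := Ix w.toWG Vs / Ix w.toWG U - 1 with hl
  have hle : e / 2 ≤ l := by
    rw [hl, le_sub_iff_add_le, le_div_iff₀ hI0]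
    linarith
  have h4 : 2 * β ≤ 3 / 8 * w.K0 * l - w.K0 * β / 4 := by nlinarith
  have h5 : 2 * β ≤ Ix w.toWG U * (3 / 8 * w.K0 * l - w.K0 * β / 4) := by nlinarith
  have h6 : Ix w.toWG U * (w.K0 / 2 * l - w.K0 * β / 4) =
      w.K0 / 8 * Ix w.toWG U * l + Ix w.toWG U * (3 / 8 * w.K0 * l - w.K0 * β / 4) := by ring
  linarith

end Pool.Agent.GGS
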