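import Pool.Agent.GGS.DeepDef

/-!
# Sums of weights of PBW monomials (paper, section 12: E3)
-/

namespace Pool.Agent.GGS

universe u

variable {p : ℕ} {G : Type u} [Group G] (w : WG p G)

/-- monomials of a given degree -/
private lemma hom_le (L : List (G × ℝ)) (h0 : ∀ i : Fin L.length, 0 ≤ (L.get i).2) (m : ℕ) :
    ∑ a ∈ Finset.univ.filter (fun a : Fin L.length → Fin p => ∑ i, (a i : ℕ) = m), mw L a ≤
      (∑ i : Fin L.length, (L.get i).2) ^ m := by
  classical
  rw [Finset.sum_pow_eq_sum_piAntidiag]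
  let Φ : (Fin L.length → Fin p) → (Fin L.length → ℕ) := fun a i => (a i : ℕ)
  have hinj : Function.Injective Φ := by
    intro a b hab
    funext i
    exact Fin.ext (congrFun hab i)
  have h1 : ∑ a ∈ Finset.univ.filter (fun a : Fin L.length → Fin p => ∑ i, (a i : ℕ) = m),
      mw L a = ∑ k ∈ (Finset.univ.filter
        (fun a : Fin L.length → Fin p => ∑ i, (a i : ℕ) = m)).image Φ,
        ∏ i, (L.get i).2 ^ k i := by
    rw [Finset.sum_image (fun a _ b _ h => hinj h)]
    rfl
  rw [h1]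
  have h2 : (Finset.univ.filter
        (fun a : Fin L.length → Fin p => ∑ i, (a i : ℕ) = m)).image Φ ⊆
        Finset.univ.piAntidiag m := by
    intro k hk
    obtain ⟨a, ha, rfl⟩ := Finset.mem_image.mp hk
    rw [Finset.mem_piAntidiag]
    exact ⟨(Finset.mem_filter.mp ha).2, fun _ _ => Finset.mem_univ _⟩
  have h3 : ∀ k : Fin L.length → ℕ, 0 ≤ ∏ i, (L.get i).2 ^ k i := fun k =>
    Finset.prod_nonneg fun i _ => pow_nonneg (h0 i) _
  refine (Finset.sum_le_sum_of_subset_of_nonneg h2 fun k _ _ => h3 k).trans ?_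
  refine Finset.sum_le_sum fun k _ => ?_
  have h4 : (1 : ℝ) ≤ (Nat.multinomial Finset.univ k : ℝ) := by
    exact_mod_cast Nat.multinomial_pos Finset.univ k
  exact le_mul_of_one_le_left (h3 k) h4

private lemma geo_tail {x : ℝ} (h0 : 0 ≤ x) (h1 : x ≤ 1 / 2) (k M : ℕ) :
    ∑ m ∈ (Finset.range M).filter (fun m => k ≤ m), x ^ m ≤ 2 * x ^ k := by
  have h2 : ∑ m ∈ (Finset.range M).filter (fun m => k ≤ m), x ^ m ≤
      ∑ j ∈ Finset.range M, x ^ (k + j) := by
    have h3 : (Finset.range M).filter (fun m => k ≤ m) ⊆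
        (Finset.range M).image (fun j => k + j) := by
      intro m hm
      rw [Finset.mem_filter, Finset.mem_range] at hm
      refine Finset.mem_image.mpr ⟨m - k, Finset.mem_range.mpr ?_, ?_⟩ <;> omega
    refine (Finset.sum_le_sum_of_subset_of_nonneg h3 fun m _ _ => pow_nonneg h0 _).trans ?_
    rw [Finset.sum_image (fun a _ b _ h => Nat.add_left_cancel h)]
  refine h2.trans ?_
  have h4 : ∀ M : ℕ, ∑ j ∈ Finset.range M, x ^ j ≤ 2 := by
    intro M
    have h5 : (∑ j ∈ Finset.range M, x ^ j) * (1 - x) = 1 - x ^ M := geom_sum_mul_neg x M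
    have h6 : 0 ≤ ∑ j ∈ Finset.range M, x ^ j := Finset.sum_nonneg fun j _ => pow_nonneg h0 _
    have h7 : 0 ≤ x ^ M := pow_nonneg h0 _
    nlinarith
  calc ∑ j ∈ Finset.range M, x ^ (k + j) = x ^ k * ∑ j ∈ Finset.range M, x ^ j := by
        rw [Finset.mul_sum]; exact Finset.sum_congr rfl fun j _ => pow_add _ _ _
    _ ≤ x ^ k * 2 := mul_le_mul_of_nonneg_left (h4 M) (pow_nonneg h0 _)
    _ = 2 * x ^ k := mul_comm _ _

private lemma sum_get (L : List (G × ℝ)) :
    ∑ i : Fin L.length, (L.get i).2 = (L.map fun x => x.2).sum := by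
  induction L with
  | nil => simp
  | cons x L ih =>
    rw [List.map_cons, List.sum_cons, ← ih]
    exact Fin.sum_univ_succ (fun i : Fin (L.length + 1) => ((x :: L).get i).2)

/-- splitting of exponents -/
private def spl (Ld Lh : List (G × ℝ)) :
    (Fin Ld.length → Fin p) × (Fin Lh.length → Fin p) ≃ (Fin (Ld ++ Lh).length → Fin p) :=
  (Fin.appendEquiv Ld.length Lh.length).trans
    (Equiv.arrowCongr (finCongr (List.length_append).symm) (Equiv.refl _))

private lemma prod_app' (Ld Lh : List (G × ℝ)) {M : Type*} [CommMonoid M]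
    (g : ℕ → G × ℝ → ℕ → M) (a : Fin Ld.length → Fin p) (b : Fin Lh.length → Fin p) :
    ∏ i : Fin (Ld ++ Lh).length, g i ((Ld ++ Lh).get i) (spl Ld Lh (a, b) i) =
      (∏ i : Fin Ld.length, g i (Ld.get i) (a i)) *
        ∏ i : Fin Lh.length, g (Ld.length + i) (Lh.get i) (b i) := by
  have h : Ld.length + Lh.length = (Ld ++ Lh).length := (List.length_append).symm
  have h1 : ∏ i : Fin (Ld ++ Lh).length, g i ((Ld ++ Lh).get i) (spl Ld Lh (a, b) i) =
      ∏ i : Fin (Ld.length + Lh.length),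
        g (Fin.cast h i) ((Ld ++ Lh).get (Fin.cast h i)) (spl Ld Lh (a, b) (Fin.cast h i)) :=
    (Fintype.prod_equiv (finCongr h) _ _ (fun i => rfl)).symm
  have h2 : ∀ i : Fin (Ld.length + Lh.length),
      spl Ld Lh (a, b) (Fin.cast h i) = Fin.append a b i := by
    intro i
    simp [spl, Fin.appendEquiv, Equiv.arrowCongr, finCongr]
  rw [h1, Fin.prod_univ_add]
  refine congrArg₂ _ (Finset.prod_congr rfl fun i _ => ?_) (Finset.prod_congr rfl fun i _ => ?_)
  · rw [h2, Fin.append_left]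
    have h3 : (Ld ++ Lh).get (Fin.cast h (Fin.castAdd Lh.length i)) = Ld.get i := by
      simp
    rw [h3]
    rfl
  · rw [h2, Fin.append_right]
    have h3 : (Ld ++ Lh).get (Fin.cast h (Fin.natAdd Ld.length i)) = Lh.get i := by
      simp
    rw [h3]
    rfl

open Classical in
/-- E3: monomials with at least `k` deep factors -/
theorem sum_E3 [Fact p.Prime] {U V : Subgroup G} {Lh Ld : List (G × ℝ)}
    (h0 : Chain w ⊤ U Lh) (hd : Chain w U V Ld) (hV : Op w V)
    (hs : (Ld.map fun x => x.2).sum ≤ 1 / 2) (k : ℕ) :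
    ∑ a ∈ Finset.univ.filter
      (fun a : Fin (Ld ++ Lh).length → Fin p => k ≤ dd Ld.length (Ld ++ Lh) a),
      mw (Ld ++ Lh) a ≤ 2 * Ix w U * (Ld.map fun x => x.2).sum ^ k := by
  have hU : Op w U := op_mono w hV (chain_le w hd)
  have hUeq : Ix w U = ∑ b : Fin Lh.length → Fin p, mw Lh b := Ix_eq_sum w h0 hU
  have hU1 : 1 ≤ Ix w U := one_le_Ix w hU
  have hdpos : ∀ i : Fin Ld.length, 0 ≤ (Ld.get i).2 := fun i =>
    (chain_mem w hd _ (List.get_mem Ld i)).2.2.1.le
  have hx0 : 0 ≤ (Ld.map fun x => x.2).sum := by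
    rw [← sum_get]; exact Finset.sum_nonneg fun i _ => hdpos i
  have hmw : ∀ a b, mw (Ld ++ Lh) (spl Ld Lh (a, b)) = mw Ld a * mw (p := p) Lh b := fun a b =>
    prod_app' Ld Lh (fun _ x n => x.2 ^ n) a b
  have hdd : ∀ a b, dd Ld.length (Ld ++ Lh) (spl (p := p) Ld Lh (a, b)) = ∑ i, (a i : ℕ) := by
    intro a b
    have h1 := prod_app' (M := Multiplicative ℕ) Ld Lh
      (fun i _ n => Multiplicative.ofAdd (if i < Ld.length then n else 0)) a b
    have h2 := congrArg Multiplicative.toAdd h1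
    rw [toAdd_mul, toAdd_prod, toAdd_prod, toAdd_prod] at h2
    simp only [toAdd_ofAdd] at h2
    unfold dd
    rw [h2]
    have h3 : ∑ x : Fin Lh.length, (if Ld.length + (x : ℕ) < Ld.length then (b x : ℕ) else 0) = 0 :=
      Finset.sum_eq_zero fun x _ => if_neg (by omega)
    have h4 : ∑ x : Fin Ld.length, (if (x : ℕ) < Ld.length then (a x : ℕ) else 0) =
        ∑ x : Fin Ld.length, (a x : ℕ) := Finset.sum_congr rfl fun x _ => if_pos x.isLt
    rw [h3, h4, add_zero]
  have h5 : ∑ a ∈ Finset.univ.filter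
      (fun a : Fin (Ld ++ Lh).length → Fin p => k ≤ dd Ld.length (Ld ++ Lh) a),
      mw (Ld ++ Lh) a =
      (∑ a ∈ Finset.univ.filter (fun a : Fin Ld.length → Fin p => k ≤ ∑ i, (a i : ℕ)), mw Ld a) *
        Ix w U := by
    rw [Finset.sum_filter, ← Equiv.sum_comp (spl (p := p) Ld Lh), Fintype.sum_prod_type, hUeq,
      Finset.sum_filter, Finset.sum_mul_sum]
    refine Finset.sum_congr rfl fun a _ => Finset.sum_congr rfl fun b _ => ?_
    rw [hdd, hmw]
    split_ifs
    · rfl
    · rw [zero_mul]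
  rw [h5]
  have h6 : ∑ a ∈ Finset.univ.filter (fun a : Fin Ld.length → Fin p => k ≤ ∑ i, (a i : ℕ)),
      mw Ld a ≤ 2 * (Ld.map fun x => x.2).sum ^ k := by
    set M := Ld.length * p + 1 with hM
    have h7 : ∑ a ∈ Finset.univ.filter (fun a : Fin Ld.length → Fin p => k ≤ ∑ i, (a i : ℕ)),
        mw Ld a = ∑ m ∈ (Finset.range M).filter (fun m => k ≤ m),
          ∑ a ∈ Finset.univ.filter (fun a : Fin Ld.length → Fin p => ∑ i, (a i : ℕ) = m),
            mw Ld a := by
      rw [← Finset.sum_fiberwise_of_maps_to (s := Finset.univ.filter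
        (fun a : Fin Ld.length → Fin p => k ≤ ∑ i, (a i : ℕ)))
        (t := (Finset.range M).filter (fun m => k ≤ m)) (g := fun a => ∑ i, (a i : ℕ))]
      · refine Finset.sum_congr rfl fun m hm => ?_
        refine Finset.sum_congr ?_ fun _ _ => rfl
        ext a
        simp only [Finset.mem_filter, Finset.mem_univ, true_and]
        constructor
        · exact fun h => h.2
        · exact fun h => ⟨h ▸ (Finset.mem_filter.mp hm).2, h⟩
      · intro a ha
        refine Finset.mem_filter.mpr ⟨Finset.mem_range.mpr ?_, (Finset.mem_filter.mp ha).2⟩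
        have h8 : ∑ i : Fin Ld.length, (a i : ℕ) ≤ ∑ _i : Fin Ld.length, p :=
          Finset.sum_le_sum fun i _ => (a i).isLt.le
        rw [Finset.sum_const, Finset.card_univ, Fintype.card_fin, smul_eq_mul] at h8
        omega
    rw [h7]
    refine (Finset.sum_le_sum fun m _ => hom_le Ld hdpos m).trans ?_
    rw [sum_get]
    exact geo_tail hx0 hs k M
  calc _ ≤ 2 * (Ld.map fun x => x.2).sum ^ k * Ix w U :=
        mul_le_mul_of_nonneg_right h6 (by linarith)
    _ = 2 * Ix w U * (Ld.map fun x => x.2).sum ^ k := by ring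

end Pool.Agent.GGS
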