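import Pool.Agent.GGS.SumA
import Pool.Agent.GGS.SumB
import Pool.Agent.GGS.PresDef

/-!
# The total size of the relations (paper, section 12)

`∑_{k ≥ 2} (2 / 2^k) y^k 2 W(R) I(U) ≤ (4/3) W(R) I(U) y² ≤ 1` for `y ≤ 32 / (K0 I(U)) ≤ 1/2`.
-/

namespace Pool.Agent.GGS

universe u

open Ser

variable {p : ℕ} {G : Type u} [Group G]

open Classical in
/-- the bound for the rescaled weight of the relation `(i, a, k)` -/
noncomputable def T1f {w : WG p G} (Q : Pres p G w) (cc b : ℝ) (n : ℕ) (L : List (G × ℝ))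
    (i : Q.ι) (a : Fin L.length → Fin p) (k : ℕ) : ℝ :=
  cc ^ k * mw L a * (if hw n L a < √b then Wt Q.wx (Q.r i) else
    if dd n L a < k then min (Wt Q.wx (Q.r i)) (√b) else Wt Q.wx (Q.r i))

/-- numeric part: the geometric sum -/
lemma stnum_geo {A y : ℝ} (hA : 0 ≤ A) (hy0 : 0 ≤ y) (hy : y ≤ 1 / 2) (N : ℕ) :
    ∑ k ∈ Finset.Icc 2 N, (2 : ℝ) / 2 ^ k * (2 / 3 + A * y ^ k) ≤ 2 / 3 + 2 / 3 * A * y ^ 2 := by
  have key : ∀ n : ℕ, ∑ k ∈ Finset.Icc 2 (n + 1), (2 : ℝ) / 2 ^ k * (2 / 3 + A * y ^ k) ≤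
      2 / 3 * (1 - 1 / 2 ^ n) + 2 / 3 * A * y ^ 2 * (1 - 1 / 4 ^ n) := by
    intro n
    induction n with
    | zero => simp
    | succ n ih =>
      rw [Finset.sum_Icc_succ_top (by omega)]
      have h1 : (2 : ℝ) / 2 ^ (n + 1 + 1) = 1 / 2 ^ n * (1 / 2) := by
        rw [pow_succ, pow_succ]; field_simp
      have h2 : y ^ (n + 1 + 1) ≤ y ^ 2 * (1 / 2) ^ n := by
        have : y ^ (n + 1 + 1) = y ^ 2 * y ^ n := by ring
        rw [this]
        exact mul_le_mul_of_nonneg_left (pow_le_pow_left₀ hy0 hy n) (by positivity)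
      have h3 : A * y ^ (n + 1 + 1) ≤ A * (y ^ 2 * (1 / 2) ^ n) :=
        mul_le_mul_of_nonneg_left h2 hA
      have h4 : (2 : ℝ) / 2 ^ (n + 1 + 1) * (2 / 3 + A * y ^ (n + 1 + 1)) ≤
          1 / 2 ^ n * (1 / 2) * (2 / 3 + A * (y ^ 2 * (1 / 2) ^ n)) := by
        rw [h1]
        exact mul_le_mul_of_nonneg_left (by linarith) (by positivity)
      have h5 : (1 : ℝ) / 2 ^ n * (1 / 2) ^ n = 1 / 4 ^ n := by
        rw [div_pow, one_pow, div_mul_div_comm, ← mul_pow]; norm_num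
      have h6 : (1 : ℝ) / 2 ^ (n + 1) = 1 / 2 ^ n * (1 / 2) := by
        rw [pow_succ]; field_simp
      have h7 : (1 : ℝ) / 4 ^ (n + 1) = 1 / 4 ^ n * (1 / 4) := by
        rw [pow_succ]; field_simp
      rw [h6, h7]
      have h8 : 1 / 2 ^ n * (1 / 2) * (2 / 3 + A * (y ^ 2 * (1 / 2) ^ n)) =
          1 / 3 * (1 / 2 ^ n) + 1 / 2 * A * y ^ 2 * (1 / 4 ^ n) := by
        rw [← h5]; ring
      rw [h8] at h4
      nlinarith [ih, h4]
  rcases N with _ | n
  · simp; positivity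
  · have h1 : (0 : ℝ) ≤ 1 / 2 ^ n := by positivity
    have h2 : (0 : ℝ) ≤ 1 / 4 ^ n := by positivity
    have h3 : (0 : ℝ) ≤ 2 / 3 * A * y ^ 2 := by positivity
    have := key n
    nlinarith [mul_nonneg h3 h2]

/-- the elementary estimate for fixed `k`, abstract form -/
lemma stnum_split {α : Type*} [Fintype α] {m : α → ℝ} (hm : ∀ a, 0 ≤ m a) {c W M : ℝ}
    (hc : 0 ≤ c) (hW : 0 ≤ W) (hM : 0 ≤ M) (P R : α → Prop) [DecidablePred P] [DecidablePred R]
    {T : α → ℝ} (hT : ∀ a, T a ≤ c * m a * (if P a then W else if R a then M else W)) :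
    ∑ a, T a ≤ c * (W * ∑ a ∈ Finset.univ.filter P, m a + M * ∑ a, m a +
      W * ∑ a ∈ Finset.univ.filter (fun a => ¬ R a), m a) := by
  have h1 : ∀ a, T a ≤ c * (W * (if P a then m a else 0) + M * m a +
      W * (if ¬ R a then m a else 0)) := by
    intro a
    refine (hT a).trans ?_
    rw [mul_assoc]
    refine mul_le_mul_of_nonneg_left ?_ hc
    have := hm a
    have h2 : 0 ≤ W * m a := mul_nonneg hW (hm a)
    have h3 : 0 ≤ M * m a := mul_nonneg hM (hm a)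
    by_cases hP : P a <;> by_cases hR : R a <;> simp only [hP, hR, if_true, if_false, not_true_eq_false, not_false_eq_true, mul_zero] <;> nlinarith
  refine (Finset.sum_le_sum fun a _ => h1 a).trans (le_of_eq ?_)
  rw [← Finset.mul_sum, Finset.sum_add_distrib, Finset.sum_add_distrib, ← Finset.mul_sum,
    ← Finset.mul_sum, ← Finset.mul_sum, Finset.sum_filter, Finset.sum_filter]

theorem rel_sum [Fact p.Prime] {w : WG p G} (Q : Pres p G w) {V0 U V : Subgroup G}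
    {L0 Lt Ld : List (G × ℝ)} (h0 : Chain w ⊤ V0 L0) (ht : Chain w V0 U Lt)
    (hd : Chain w U V Ld) (hV : Op w V) {b K₀ cc cst : ℝ} (hb0 : 0 < b) (hb1 : b < 1)
    (hK : 0 < K₀) (hI : max (64 / K₀) (2048 * Q.WR / K₀ ^ 2) ≤ Ix w U)
    (hmin : ∀ a : Fin L0.length → Fin p, √b ≤ mw L0 a) (hcc0 : 0 < cc) (hcc : cc ≤ cst)
    (hcst : 1 ≤ cst) (hl : Ix w V ≤ 3 / 2 * Ix w U) {N : ℕ}
    (hy : cc * (Ld.map fun x => x.2).sum ≤ 32 / (K₀ * Ix w U))
    (hE1 : cst ^ N * (3 / 2) * Q.WR * (Ix w U - Ix w V0) ≤ 1 / 3)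
    (hE2 : cst ^ N * Ix w V * ∑' i, min (Wt Q.wx (Q.r i)) (√b) ≤ 1 / 3) :
    ∑ k ∈ Finset.Icc 2 N, (2 : ℝ) / 2 ^ k *
      ∑ a, ∑' i, T1f Q cc b Ld.length (Ld ++ (Lt ++ L0)) i a k ≤ 5 / 3 := by
  classical
  set s : ℝ := √b with hs
  have hs0 : 0 < s := Real.sqrt_pos.2 hb0
  set L : List (G × ℝ) := Ld ++ (Lt ++ L0) with hL
  have hUV0 : U ≤ V0 := chain_le w ht
  have hVU : V ≤ U := chain_le w hd
  have hU : Op w U := op_mono w hV hVU
  have hV0 : Op w V0 := op_mono w hU hUV0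
  have hcU : Chain w ⊤ U (Lt ++ L0) := chain_append w h0 ht
  have hcV : Chain w ⊤ V L := chain_append w hcU hd
  have hIU1 : 1 ≤ Ix w U := one_le_Ix w hU
  have hIU0 : 0 < Ix w U := lt_of_lt_of_le one_pos hIU1
  have hIV : 1 ≤ Ix w V := one_le_Ix w hV
  have hIV0 : 0 ≤ Ix w V := zero_le_one.trans hIV
  have hd0 : 0 ≤ Ix w U - Ix w V0 := sub_nonneg.2 (Ix_anti w hU hUV0)
  -- the sum of the deep weights
  set S : ℝ := (Ld.map fun x => x.2).sum with hS
  have hS0 : 0 ≤ S := by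
    rw [hS]
    refine List.sum_nonneg fun x hx => ?_
    obtain ⟨y, hy, rfl⟩ := List.mem_map.1 hx
    exact (chain_mem w hd y hy).2.2.1.le
  have hrat : Ix w V / Ix w U ≤ 3 / 2 := (div_le_iff₀ hIU0).2 hl
  have hS1 : S ≤ 1 / 2 := by
    have := sum_deep_le w hd hV
    linarith
  -- weights of the relations
  have hW0 : ∀ i, 0 ≤ Wt Q.wx (Q.r i) := fun i => Wt_nonneg Q.pos _
  have hWR : 0 ≤ Q.WR := tsum_nonneg hW0
  have hsm : Summable fun i => min (Wt Q.wx (Q.r i)) s :=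
    Summable.of_nonneg_of_le (fun i => le_min (hW0 i) hs0.le) (fun i => min_le_left _ _) Q.summ
  set M : ℝ := ∑' i, min (Wt Q.wx (Q.r i)) s with hM
  have hM0 : 0 ≤ M := tsum_nonneg fun i => le_min (hW0 i) hs0.le
  have hmw : ∀ a : Fin L.length → Fin p, 0 ≤ mw L a := fun a => (mw_pos w hcV a).1.le
  -- the two sums of monomials
  have hsumE1 := sum_E1 w h0 ht hd hV (s := s) hmin
  have hall := Ix_eq_sum w hcV hV
  set y : ℝ := cc * S with hy'
  have hy0 : 0 ≤ y := mul_nonneg hcc0.le hS0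
  have hI1 : 64 / K₀ ≤ Ix w U := (le_max_left _ _).trans hI
  have hI2 : 2048 * Q.WR / K₀ ^ 2 ≤ Ix w U := (le_max_right _ _).trans hI
  have hKI : 64 ≤ K₀ * Ix w U := by
    rw [div_le_iff₀ hK] at hI1
    linarith
  have hKI0 : 0 < K₀ * Ix w U := by positivity
  have hy1 : y ≤ 1 / 2 := by
    refine hy.trans ?_
    rw [div_le_iff₀ hKI0]
    linarith
  have hccN : ∀ k ∈ Finset.Icc 2 N, cc ^ k ≤ cst ^ N := by
    intro k hk
    exact (pow_le_pow_left₀ hcc0.le hcc k).trans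
      (pow_le_pow_right₀ hcst (Finset.mem_Icc.1 hk).2)
  -- the bound for fixed `k`
  have hk : ∀ k ∈ Finset.Icc 2 N,
      ∑ a, ∑' i, T1f Q cc b Ld.length L i a k ≤ 2 / 3 + 2 * Q.WR * Ix w U * y ^ k := by
    intro k hk
    have hck : 0 ≤ cc ^ k := pow_nonneg hcc0.le k
    have hT : ∀ a : Fin L.length → Fin p, ∑' i, T1f Q cc b Ld.length L i a k ≤
        cc ^ k * mw L a * (if hw Ld.length L a < s then Q.WR else
          if dd Ld.length L a < k then M else Q.WR) := by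
      intro a
      simp only [T1f]
      rw [tsum_mul_left]
      refine le_of_eq ?_
      split_ifs
      · rfl
      · rfl
      · rfl
    refine (stnum_split hmw hck hWR hM0 (fun a => hw Ld.length L a < s)
      (fun a => dd Ld.length L a < k) hT).trans ?_
    have hE3 : ∑ a ∈ Finset.univ.filter (fun a : Fin L.length → Fin p =>
        ¬ dd Ld.length L a < k), mw L a ≤ 2 * Ix w U * S ^ k := by
      have := sum_E3 w hcU hd hV hS1 k
      refine le_trans (le_of_eq ?_) this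
      refine Finset.sum_congr ?_ fun _ _ => rfl
      ext a
      simp only [Finset.mem_filter, Finset.mem_univ, true_and, not_lt]
      exact Iff.rfl
    have e1 : Q.WR * ∑ a ∈ Finset.univ.filter (fun a : Fin L.length → Fin p =>
        hw Ld.length L a < s), mw L a ≤ Q.WR * ((Ix w U - Ix w V0) * (3 / 2)) := by
      refine mul_le_mul_of_nonneg_left (hsumE1.trans ?_) hWR
      exact mul_le_mul_of_nonneg_left hrat hd0
    have e3 : Q.WR * ∑ a ∈ Finset.univ.filter (fun a : Fin L.length → Fin p =>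
        ¬ dd Ld.length L a < k), mw L a ≤ Q.WR * (2 * Ix w U * S ^ k) :=
      mul_le_mul_of_nonneg_left hE3 hWR
    rw [← hall]
    have f1 : cc ^ k * (Q.WR * ((Ix w U - Ix w V0) * (3 / 2))) ≤ 1 / 3 := by
      have h1 : 0 ≤ Q.WR * ((Ix w U - Ix w V0) * (3 / 2)) := by positivity
      calc _ ≤ cst ^ N * (Q.WR * ((Ix w U - Ix w V0) * (3 / 2))) :=
            mul_le_mul_of_nonneg_right (hccN k hk) h1
        _ = cst ^ N * (3 / 2) * Q.WR * (Ix w U - Ix w V0) := by ring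
        _ ≤ 1 / 3 := hE1
    have f2 : cc ^ k * (M * Ix w V) ≤ 1 / 3 := by
      have h1 : 0 ≤ M * Ix w V := mul_nonneg hM0 hIV0
      calc _ ≤ cst ^ N * (M * Ix w V) := mul_le_mul_of_nonneg_right (hccN k hk) h1
        _ = cst ^ N * Ix w V * M := by ring
        _ ≤ 1 / 3 := hE2
    have f3 : cc ^ k * (Q.WR * (2 * Ix w U * S ^ k)) = 2 * Q.WR * Ix w U * y ^ k := by
      rw [hy', mul_pow]; ring
    calc _ ≤ cc ^ k * (Q.WR * ((Ix w U - Ix w V0) * (3 / 2)) + M * Ix w V +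
          Q.WR * (2 * Ix w U * S ^ k)) :=
          mul_le_mul_of_nonneg_left (by linarith) hck
      _ = cc ^ k * (Q.WR * ((Ix w U - Ix w V0) * (3 / 2))) + cc ^ k * (M * Ix w V) +
          cc ^ k * (Q.WR * (2 * Ix w U * S ^ k)) := by ring
      _ ≤ 2 / 3 + 2 * Q.WR * Ix w U * y ^ k := by rw [f3]; linarith
  have hA : 0 ≤ 2 * Q.WR * Ix w U := by positivity
  refine (Finset.sum_le_sum fun k hk' => mul_le_mul_of_nonneg_left (hk k hk')
    (by positivity)).trans ?_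
  refine (stnum_geo hA hy0 hy1 N).trans ?_
  -- the final numeric estimate
  have hy2 : y ^ 2 ≤ (32 / (K₀ * Ix w U)) ^ 2 := pow_le_pow_left₀ hy0 hy 2
  have g1 : 2 / 3 * (2 * Q.WR * Ix w U) * y ^ 2 ≤
      2 / 3 * (2 * Q.WR * Ix w U) * (32 / (K₀ * Ix w U)) ^ 2 :=
    mul_le_mul_of_nonneg_left hy2 (by positivity)
  have g2 : 2 / 3 * (2 * Q.WR * Ix w U) * (32 / (K₀ * Ix w U)) ^ 2 =
      2 / 3 * (2048 * Q.WR / K₀ ^ 2 / Ix w U) := by
    field_simp
    ring
  have g3 : 2048 * Q.WR / K₀ ^ 2 / Ix w U ≤ 1 := (div_le_one hIU0).2 hI2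
  linarith

end Pool.Agent.GGS
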