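import Pool.Agent.GGS.PresDef
import Pool.Agent.GGS.N0

/-!
# The output of a stage (paper, section 12)
-/

namespace Pool.Agent.GGS

universe u

open Ser

variable {p : ℕ} {G : Type u} [Group G]

/-- The homomorphism part of the output: `θ` on `V'`, trivial on `V'_{t'}`, non-trivial on the word, and with
image generated by few deep elements (weights `≤ t`, total mass `≤ δ`). -/
structure ThOut (w : WG p G) (V' : Subgroup G) (t t' δ : ℝ) (u v : G) (wd : List (Fin 2) → ZMod p)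
    (N : ℕ) (E : Type) [Ring E] [Algebra (ZMod p) E] (θ : G → E) (n1 : ℕ) : Prop where
  n1_le : n1 ≤ N
  one : θ 1 = 1
  mul : ∀ g ∈ V', ∀ h ∈ V', θ (g * h) = θ g * θ h
  nilp : ∀ l : List G, (∀ h ∈ l, h ∈ V') → n1 < l.length → (l.map fun h => θ h - 1).prod = 0
  deep : ∀ h ∈ V', w.W h ≤ t' → θ h = 1
  word : evs ![θ u - 1, θ v - 1] (n1 + 1) wd ≠ 1
  gen : ∃ (k : ℕ) (y : Fin k → G) (s : Fin k → ℝ),
    (∀ i, y i ∈ V' ∧ w.W (y i) ≤ s i ∧ 0 < s i ∧ s i ≤ t) ∧ ∑ i, s i ≤ δ ∧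
    ∀ h ∈ V', ∃ h' ∈ Subgroup.closure (Set.range y), θ h' = θ h

/-- truncated words of leading degree `m` -/
structure IsWd (p m : ℕ) (wd : List (Fin 2) → ZMod p) : Prop where
  nil : wd [] = 1
  low : ∀ u, u ≠ [] → u.length < m → wd u = 0
  lead : ∃ u : List (Fin 2), u.length = m ∧ wd u ≠ 0

/-- The output of a stage. -/
structure StageOut (w : GSG p G) (m : ℕ) (δ g c t : ℝ) (V : Subgroup G) (u₀ v₀ : G)
    (wd : List (Fin 2) → ZMod p) (η : ℝ) (c' t' : ℝ) (V' : Subgroup G) (u v : G) : Prop where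
  c_lt : c < c'
  c_lt' : c' < c + g
  state : State w c' t' V'
  t_le : t' ≤ η
  t_le' : t' ≤ t
  cc : Cc w.toWG V t V'
  ix : Real.log (Ix w.toWG V' / Ix w.toWG V) ≤ δ
  u_mem : u ∈ V'
  v_mem : v ∈ V'
  u_near : w.W (u₀⁻¹ * u) ≤ t
  v_near : w.W (v₀⁻¹ * v) ≤ t
  th : ∃ (E : Type) (_ : Ring E) (_ : Algebra (ZMod p) E) (θ : G → E) (n1 : ℕ),
    ThOut w.toWG V' t t' δ u v wd (n0 m) E θ n1

end Pool.Agent.GGS
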