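import Pool.Agent.GGS.StNum
import Pool.Agent.GGS.RelSize
import Pool.Agent.GGS.StCore
import Pool.Agent.GGS.StageDef
import Pool.Agent.GGS.DeepGen
import Pool.Agent.GGS.CocEx
import Pool.Agent.GGS.StMass

/-!
# The homomorphism of a stage (paper, section 12)

Letters: `Z = {b : B // r b ≤ β ∧ b ∉ Y}` (any linear order), `cc = 4 / ∑_Z r`.
-/

namespace Pool.Agent.GGS

universe u

open Ser

variable {p : ℕ} {G : Type u} [Group G]

omit [Group G] in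
theorem stth_qq_list [Fact p.Prime] (L : List (G × ℝ)) (h : ∀ x ∈ L, 0 ≤ x.2) :
    1 + (L.map fun x => x.2).sum ≤ (L.map fun x => qq p x.2).prod := by
  induction L with
  | nil => simp
  | cons x L ih =>
    rw [List.map_cons, List.sum_cons, List.map_cons, List.prod_cons]
    have h1 := ih fun y hy => h y (List.mem_cons_of_mem _ hy)
    have h0 := h x List.mem_cons_self
    have h2 := one_add_le_qq (p := p) h0
    have h3 : 0 ≤ (L.map fun x => x.2).sum := List.sum_nonneg (by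
      intro y hy
      obtain ⟨z, hz, rfl⟩ := List.mem_map.1 hy
      exact h z (List.mem_cons_of_mem _ hz))
    have h4 := mul_le_mul h2 h1 (by linarith) (by linarith)
    nlinarith [mul_nonneg h0 h3]

theorem stth_deep_sum [Fact p.Prime] (w : WG p G) {U Vs : Subgroup G} {Ld : List (G × ℝ)}
    (hd : Chain w U Vs Ld) (hV : Op w Vs) :
    0 ≤ (Ld.map fun x => x.2).sum ∧ (Ld.map fun x => x.2).sum ≤ Ix w Vs / Ix w U - 1 := by
  have hmem := chain_mem w hd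
  have h0 : ∀ x ∈ Ld, 0 ≤ x.2 := fun x hx => (hmem x hx).2.2.1.le
  have hI := one_le_Ix w (op_mono w hV (chain_le w hd))
  constructor
  · refine List.sum_nonneg ?_
    intro y hy
    obtain ⟨z, hz, rfl⟩ := List.mem_map.1 hy
    exact h0 z hz
  · rw [Ix_chain w hd hV, mul_div_cancel_right₀ _ (by linarith : Ix w U ≠ 0)]
    linarith [stth_qq_list (p := p) Ld h0]

theorem stth_geom (N : ℕ) : ∑ k ∈ Finset.Icc 2 N, (2 : ℝ) / 2 ^ k ≤ 1 := by
  have h : ∀ n : ℕ, ∑ k ∈ Finset.Icc 2 (n + 1), (2 : ℝ) / 2 ^ k = 1 - 2 / 2 ^ (n + 1) := by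
    intro n
    induction n with
    | zero => norm_num
    | succ n ih =>
      rw [Finset.sum_Icc_succ_top (by omega), ih, pow_succ 2 (n + 1)]
      field_simp
      ring
  cases N with
  | zero => simp
  | succ n =>
    rw [h n]
    have : (0 : ℝ) < 2 / 2 ^ (n + 1) := by positivity
    linarith

omit [Group G] in
theorem stth_mw {L : List (G × ℝ)} (hL : ∀ x ∈ L, 0 < x.2) (a : Fin L.length → Fin p) :
    0 ≤ mw L a :=
  Finset.prod_nonneg fun i _ => pow_nonneg (hL _ (List.get_mem _ i)).le _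

theorem stth_T1 {w : WG p G} (Q : Pres p G w) {cc b : ℝ} (hcc : 0 < cc) (n : ℕ)
    {L : List (G × ℝ)} (hL : ∀ x ∈ L, 0 < x.2) (i : Q.ι) (a : Fin L.length → Fin p) (k : ℕ) :
    0 ≤ T1f Q cc b n L i a k ∧ T1f Q cc b n L i a k ≤ cc ^ k * mw L a * Wt Q.wx (Q.r i) := by
  have hm := stth_mw hL a
  have hW : 0 ≤ Wt Q.wx (Q.r i) := Wt_nonneg Q.pos _
  have h1 : 0 ≤ cc ^ k * mw L a := mul_nonneg (pow_nonneg hcc.le _) hm
  unfold T1f
  split_ifs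
  · exact ⟨mul_nonneg h1 hW, le_rfl⟩
  · exact ⟨mul_nonneg h1 (le_min hW (Real.sqrt_nonneg _)),
      mul_le_mul_of_nonneg_left (min_le_left _ _) h1⟩
  · exact ⟨mul_nonneg h1 hW, le_rfl⟩

theorem stth_T1u {w : WG p G} (Q : Pres p G w) {cc b : ℝ} (hcc : 0 < cc) (hb : √b ≤ 1) (n : ℕ)
    {L : List (G × ℝ)} (hL : ∀ x ∈ L, 0 < x.2) (i : Q.ι) (a : Fin L.length → Fin p)
    {Z : Type} (r : Z → ℝ) (u : List Z) (h1 : wt r u ≤ Wt Q.wx (Q.r i) * mw L a)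
    (h2 : √b ≤ hw n L a → wt r u ≤ mw L a * √b ^ (u.length - dd n L a)) :
    cc ^ u.length * wt r u ≤ T1f Q cc b n L i a u.length := by
  have hm := stth_mw hL a
  unfold T1f
  rw [mul_assoc]
  refine mul_le_mul_of_nonneg_left ?_ (pow_nonneg hcc.le _)
  split_ifs with h3 h4
  · rw [mul_comm]; exact h1
  · rw [mul_min_of_nonneg _ _ hm]
    refine le_min (by rw [mul_comm]; exact h1) ((h2 (not_lt.1 h3)).trans ?_)
    refine mul_le_mul_of_nonneg_left ?_ hm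
    calc √b ^ (u.length - dd n L a) ≤ √b ^ 1 :=
          pow_le_pow_of_le_one (Real.sqrt_nonneg b) hb (by omega)
      _ = √b := pow_one _
  · rw [mul_comm]; exact h1

theorem stth_wt_ge {Z : Type} (r : Z → ℝ) {ρ : ℝ} (hρ : 0 ≤ ρ) (hρ1 : ρ ≤ 1) (h : ∀ a, ρ ≤ r a)
    (N : ℕ) (u : List Z) (hu : u.length ≤ N) : ρ ^ N ≤ wt r u := by
  have h1 : ∀ u : List Z, ρ ^ u.length ≤ wt r u := by
    intro u
    induction u with
    | nil => simp [wt]
    | cons a u ih =>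
      have e : wt r (a :: u) = r a * wt r u := by simp [wt]
      rw [e, List.length_cons, pow_succ']
      exact mul_le_mul (h a) ih (pow_nonneg hρ _) (hρ.trans (h a))
  exact (pow_le_pow_of_le_one hρ hρ1 hu).trans (h1 u)

theorem stth_gen [Fact p.Prime] (w : WG p G) {Vs V' : Subgroup G} {β t' : ℝ} (hβ : 0 < β)
    (hC : Cc w Vs β V') (hf' : Module.Finite (ZMod p) (ChS w V')) {B : Type} [Fintype B]
    {v : B → G} {r : B → ℝ} {χ : B → G → ZMod p} (hA : Adapted w Vs (ChS w Vs) v r χ)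
    (v' : B → G) (hv' : ∀ b, β < r b → v' b ∈ V' ∧ w.W ((v b)⁻¹ * v' b) ≤ β) (ht' : 0 < t')
    {E : Type} [Ring E] (θ : G → E) (h1 : θ 1 = 1)
    (hm : ∀ g ∈ V', ∀ h ∈ V', θ (g * h) = θ g * θ h) (hd : ∀ h ∈ V', w.W h ≤ t' → θ h = 1)
    (hv1 : ∀ b, β < r b → θ (v' b) = 1) :
    ∃ (k : ℕ) (y : Fin k → G) (s : Fin k → ℝ),
      (∀ i, y i ∈ V' ∧ w.W (y i) = s i ∧ 0 < s i ∧ s i ≤ β) ∧ ∑ i, s i = xd w V' β ∧
      ∀ h ∈ V', ∃ h' ∈ Subgroup.closure (Set.range y), θ h' = θ h := by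
  obtain ⟨k, y, s, hy, hs, hker⟩ := deep_gens w hβ hC hf' hA v' hv'
  refine ⟨k, y, s, hy, hs, ?_⟩
  have hcl : Subgroup.closure (Set.range y) ≤ V' := by
    rw [Subgroup.closure_le]
    rintro _ ⟨i, rfl⟩
    exact (hy i).1
  have hS : ∀ x ∈ Set.range y ∪ {x | ∃ b, β < r b ∧ x = v' b}, x ∈ V' := by
    rintro x (⟨i, rfl⟩ | ⟨b, hb, rfl⟩)
    · exact (hy i).1
    · exact (hv' b hb).1
  have hfr := frattini w hC.op (Set.range y ∪ {x | ∃ b, β < r b ∧ x = v' b}) hS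
    (fun ψ hψ h0 => hker ψ hψ (fun b hb => h0 _ (Or.inr ⟨b, hb, rfl⟩))
      (fun i => h0 _ (Or.inl ⟨i, rfl⟩))) ht'
  have hclo : ∀ x ∈ Subgroup.closure (Set.range y ∪ {x | ∃ b, β < r b ∧ x = v' b}),
      x ∈ V' ∧ ∃ h' ∈ Subgroup.closure (Set.range y), θ h' = θ x := by
    intro x hx
    induction hx using Subgroup.closure_induction with
    | mem x hx =>
      refine ⟨hS x hx, ?_⟩
      rcases hx with ⟨i, rfl⟩ | ⟨b, hb, rfl⟩
      · exact ⟨y i, Subgroup.subset_closure ⟨i, rfl⟩, rfl⟩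
      · exact ⟨1, Subgroup.one_mem _, by rw [h1, hv1 b hb]⟩
    | one => exact ⟨V'.one_mem, 1, Subgroup.one_mem _, rfl⟩
    | mul x z _ _ hx hz =>
      obtain ⟨hxV, a, ha, hax⟩ := hx
      obtain ⟨hzV, b, hb, hbz⟩ := hz
      refine ⟨V'.mul_mem hxV hzV, a * b, Subgroup.mul_mem _ ha hb, ?_⟩
      rw [hm a (hcl ha) b (hcl hb), hm x hxV z hzV, hax, hbz]
    | inv x _ hx =>
      obtain ⟨hxV, a, ha, hax⟩ := hx
      refine ⟨V'.inv_mem hxV, a⁻¹, Subgroup.inv_mem _ ha, ?_⟩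
      have e1 : θ a⁻¹ * θ a = 1 := by
        rw [← hm _ (V'.inv_mem (hcl ha)) _ (hcl ha), inv_mul_cancel, h1]
      have e2 : θ x * θ x⁻¹ = 1 := by
        rw [← hm _ hxV _ (V'.inv_mem hxV), mul_inv_cancel, h1]
      calc θ a⁻¹ = θ a⁻¹ * (θ x * θ x⁻¹) := by rw [e2, mul_one]
        _ = (θ a⁻¹ * θ a) * θ x⁻¹ := by rw [← mul_assoc, hax]
        _ = θ x⁻¹ := by rw [e1, one_mul]
  intro h hh
  obtain ⟨g, hg, hgt⟩ := hfr h hh
  obtain ⟨hgV, a, ha, hag⟩ := hclo g hg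
  refine ⟨a, ha, ?_⟩
  have e3 : g⁻¹ * h ∈ V' := V'.mul_mem (V'.inv_mem hgV) hh
  have e4 : θ h = θ g * θ (g⁻¹ * h) := by
    rw [← hm g hgV _ e3, mul_inv_cancel_left]
  rw [e4, hd _ e3 hgt, mul_one, hag]

theorem stage_th [Fact p.Prime] (w : GSG p G) (Q : Pres p G w.toWG) {m : ℕ} (hm : 1 ≤ m)
    {c₁ t e δ β : ℝ} {V0 U Vs : Subgroup G} (hU : State w c₁ β U) (hVU : U ≤ V0)
    {L0 : List (G × ℝ)} (hL0 : Chain w.toWG ⊤ V0 L0)
    (hmin : ∀ a : Fin L0.length → Fin p, √β ≤ mw L0 a)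
    (hI : max (64 / w.K0) (2048 * Q.WR / w.K0 ^ 2) ≤ Ix w.toWG U)
    (hs : Cc w.toWG U β Vs) (he : 0 < e)
    (hl1 : (1 + e / 2) * Ix w.toWG U ≤ Ix w.toWG Vs)
    (hl2 : Ix w.toWG Vs ≤ 3 / 2 * Ix w.toWG U)
    (hβ2 : w.K0 * β / 4 + 2 * β ≤ 3 / 16 * w.K0 * e) {cst : ℝ} (hcst1 : 1 ≤ cst)
    (hcst : 64 / (w.K0 * Ix w.toWG U * e) ≤ cst)
    (hE1 : cst ^ n0 m * (3 / 2) * Q.WR * (Ix w.toWG U - Ix w.toWG V0) ≤ 1 / 3)
    (hE2 : cst ^ n0 m * Ix w.toWG Vs * ∑' i, min (Wt Q.wx (Q.r i)) (√β) ≤ 1 / 3)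
    (hE3 : cst ^ n0 m * xm w.toWG Vs * β ≤ 1 / 3)
    (hE4 : (n0 m : ℝ) ^ 2 * 4 ^ n0 m * (cst * β) ≤ 2 ^ n0 m) (hE5 : cst * β < 1)
    {B : Type} [Fintype B] {v : B → G} {r : B → ℝ} {χ : B → G → ZMod p}
    (hA : Adapted w.toWG Vs (ChS w.toWG Vs) v r χ) (Y : Finset B) {ρ : ℝ} (hρ : 0 < ρ)
    (hρβ : ρ ≤ β) (hY : ∀ b ∈ Y, r b ≤ ρ) (hY' : ∀ b, b ∉ Y → ρ ≤ r b)
    (hYm : ∑ b ∈ Y, r b ≤ 2 * β) {VY V' : Subgroup G} (hVY : Cc w.toWG Vs ρ VY)
    (hvY : ∀ b, b ∉ Y → v b ∈ VY) (hV' : Cc w.toWG VY (w.wm * ρ) V') {t' : ℝ} (ht' : 0 < t')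
    (ht'ρ : t' < ρ ^ n0 m) (hβt : β ≤ t) (hδ : xd w.toWG V' β ≤ δ)
    (hV0t : Cc w.toWG V0 t V') (wd : List (Fin 2) → ZMod p) (hwd : IsWd p m wd) {u₀ v₀ : G}
    (hu₀ : u₀ ∈ V0) (hv₀ : v₀ ∈ V0) :
    ∃ u v, u ∈ V' ∧ v ∈ V' ∧ w.W (u₀⁻¹ * u) ≤ t ∧ w.W (v₀⁻¹ * v) ≤ t ∧
      ∃ (E : Type) (_ : Ring E) (_ : Algebra (ZMod p) E) (θ : G → E) (n1 : ℕ),
        ThOut w.toWG V' t t' δ u v wd (n0 m) E θ n1 := by
  classical
  have hβ : 0 < β := hU.t_pos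
  have hβ1 : β ≤ 1 / 4 := hU.t_le
  have hVs : Op w.toWG Vs := hs.op
  have hK0 := w.K0_pos
  have hIU : 1 ≤ Ix w.toWG U := one_le_Ix w.toWG hU.op
  obtain ⟨Lt, hLt⟩ := exists_chain w.toWG hU.op hVU
  obtain ⟨Ld, hLd⟩ := exists_chain w.toWG hVs hs.le
  have hLdβ : ∀ x ∈ Ld, x.2 ≤ β := chain_small w.toWG hs hLd
  have hch : Chain w.toWG ⊤ Vs (Ld ++ (Lt ++ L0)) :=
    chain_append w.toWG (chain_append w.toWG hL0 hLt) hLd
  have hLpos : ∀ x ∈ Ld ++ (Lt ++ L0), 0 < x.2 := fun x hx => (chain_mem w.toWG hch x hx).2.2.1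
  obtain ⟨hds0, hds⟩ := stth_deep_sum w.toWG hLd hVs
  -- the mass of the letters
  have hYβ : ∀ b ∈ Y, r b ≤ β := fun b hb => (hY b hb).trans hρβ
  have hmass := mass_Z w hU hs he hl1 hl2 hβ2 hA Y hYβ hYm
  have hρ1 : ρ ≤ 1 := by linarith
  -- letters
  let Z : Type := {b : B // r b ≤ β ∧ b ∉ Y}
  let _ : LinearOrder Z := LinearOrder.lift' (Fintype.equivFin Z) (Fintype.equivFin Z).injective
  let rZ : Z → ℝ := fun a => r a.1
  let χZ : Z → G → ZMod p := fun a => χ a.1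
  have hSeq : ∑ a : Z, rZ a = ∑ b ∈ Finset.univ.filter (fun b => r b ≤ β ∧ b ∉ Y), r b := by
    rw [Finset.sum_subtype (Finset.univ.filter (fun b => r b ≤ β ∧ b ∉ Y))
      (p := fun b => r b ≤ β ∧ b ∉ Y) (fun b => by simp) r]
  have hratio : e / 2 ≤ Ix w.toWG Vs / Ix w.toWG U - 1 := by
    rw [le_sub_iff_add_le, le_div_iff₀ (by linarith)]
    linarith
  set S : ℝ := ∑ a : Z, rZ a with hSdef
  have hS1 : w.K0 / 8 * Ix w.toWG U * (Ix w.toWG Vs / Ix w.toWG U - 1) ≤ S := by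
    rw [hSeq]; exact hmass
  have hKI : 0 < w.K0 / 8 * Ix w.toWG U := mul_pos (by linarith) (by linarith)
  have hS0 : 0 < S := lt_of_lt_of_le (mul_pos hKI (by linarith)) hS1
  obtain ⟨cc, hccdef⟩ : ∃ cc : ℝ, cc = 4 / S := ⟨_, rfl⟩
  have hccS : cc * S = 4 := by rw [hccdef]; exact div_mul_cancel₀ 4 hS0.ne'
  have hcc0 : 0 < cc := by rw [hccdef]; positivity
  have hcc : cc ≤ cst := by
    refine le_trans ?_ hcst
    have h1 : 0 < w.K0 * Ix w.toWG U * e := mul_pos (mul_pos hK0 (by linarith)) he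
    rw [hccdef, div_le_div_iff₀ hS0 h1]
    have h2 : w.K0 / 8 * Ix w.toWG U * (e / 2) ≤ S :=
      (mul_le_mul_of_nonneg_left hratio hKI.le).trans hS1
    linarith
  have hsum : ∑ a : Z, cc * rZ a = 4 := by
    rw [← Finset.mul_sum]; exact hccS
  have hy : cc * (Ld.map fun x => x.2).sum ≤ 32 / (w.K0 * Ix w.toWG U) := by
    rw [le_div_iff₀ (mul_pos hK0 (by linarith))]
    have h1 : w.K0 / 8 * Ix w.toWG U * (Ld.map fun x => x.2).sum ≤ S :=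
      (mul_le_mul_of_nonneg_left hds hKI.le).trans hS1
    have h2 := mul_le_mul_of_nonneg_left h1 (by positivity : (0 : ℝ) ≤ cc * 8)
    have h3 : cc * 8 * S = 32 := by linarith
    linarith
  have hccN : ∀ k, k ≤ n0 m → cc ^ k ≤ cst ^ n0 m := fun k hk =>
    (pow_le_pow_left₀ hcc0.le hcc k).trans (pow_le_pow_right₀ hcst1 hk)
  -- the lifts to `V'`
  have hex : ∀ b, ∃ x, b ∉ Y → x ∈ V' ∧ w.W ((v b)⁻¹ * x) ≤ w.wm * ρ := by
    intro b
    by_cases hb : b ∈ Y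
    · exact ⟨1, fun h => absurd hb h⟩
    · obtain ⟨x, hx, hxt⟩ := hV'.cov (v b) (hvY b hb)
      exact ⟨x, fun _ => ⟨hx, by rw [W_inv_mul_comm]; exact hxt⟩⟩
  choose v' hv' using hex
  have hheavyY : ∀ b, β < r b → b ∉ Y := fun b hb hbY => absurd (hYβ b hbY) (not_le.2 hb)
  have hwmρ : w.wm * ρ < ρ := by
    have := w.wm_lt
    nlinarith
  have hCV : Cc w.toWG Vs β V' := Cc_mono w.toWG (Cc_trans w.toWG hVY hV' hwmρ.le) hρβ
  have hV'Vs : V' ≤ Vs := hCV.le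
  have hχv' : ∀ a : Z, ∀ b, b ∉ Y → χ a.1 (v' b) = if a.1 = b then 1 else 0 := by
    intro a b hb
    have e1 : v' b = v b * ((v b)⁻¹ * v' b) := by group
    have m1 : (v b)⁻¹ * v' b ∈ Vs := Vs.mul_mem (Vs.inv_mem (hA.mem b)) (hV'Vs (hv' b hb).1)
    rw [e1, ch_mul w.toWG (hA.inS a.1) (hA.mem b) m1, hA.dual a.1 b,
      hA.van a.1 _ m1 ((hv' b hb).2.trans_lt (hwmρ.trans_le (hY' a.1 a.2.2))), add_zero]
  let Hv : Type := {b : B // β < r b}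
  let eH := Fintype.equivFin Hv
  choose lf hlf1 hlf2 using Q.lift
  let hh : Fin (Fintype.card Hv) → Fhat p Q.X := fun c => lf (v' (eH.symm c).1)
  have hhπ : ∀ c, Q.π (hh c) = v' (eH.symm c).1 := fun c => hlf1 _
  have hhY : ∀ c, (eH.symm c).1 ∉ Y := fun c => hheavyY _ (eH.symm c).2
  -- the cocycle
  obtain ⟨K, hK⟩ := coc_exists Q hVs χZ rZ (fun a => hA.pos a.1)
    (fun a => a.2.1.trans (by linarith)) (fun a => hA.inS a.1) (fun a => hA.van a.1) (n0 m)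
  -- the sizes
  have hsqβ : √β ≤ 1 := by
    rw [Real.sqrt_le_iff]; constructor <;> linarith
  have hrs := rel_sum Q hL0 hLt hLd hVs hβ (by linarith) hK0 hI hmin hcc0 hcc hcst1 hl2
    (N := n0 m) hy hE1 hE2
  have hcard : (Fintype.card Hv : ℝ) * β ≤ xm w.toWG Vs := by
    rw [adapted_xm w.toWG hA]
    calc (Fintype.card Hv : ℝ) * β = ∑ _b : Hv, β := by
          rw [Finset.sum_const, Finset.card_univ, nsmul_eq_mul]
      _ ≤ ∑ b : Hv, r b.1 := Finset.sum_le_sum fun b _ => b.2.le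
      _ = ∑ b ∈ Finset.univ.filter (fun b => β < r b), r b :=
          (Finset.sum_subtype (Finset.univ.filter (fun b => β < r b))
            (p := fun b => β < r b) (fun b => by simp) r).symm
      _ ≤ ∑ b, r b := Finset.sum_le_sum_of_subset_of_nonneg (Finset.filter_subset _ _)
          fun b _ _ => (hA.pos b).le
  have hcN0 : 0 ≤ cst ^ n0 m := pow_nonneg (by linarith) _
  have hT2s : ∀ k ∈ Finset.Icc 2 (n0 m),
      ∑ _c : Fin (Fintype.card Hv), cc ^ k * β ^ k ≤ 1 / 3 := by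
    intro k hk
    rw [Finset.mem_Icc] at hk
    rw [Finset.sum_const, Finset.card_univ, Fintype.card_fin, nsmul_eq_mul]
    have h1 : cc ^ k * β ^ k ≤ cst ^ n0 m * β ^ 2 :=
      mul_le_mul (hccN k hk.2) (pow_le_pow_of_le_one hβ.le (by linarith) hk.1)
        (pow_nonneg hβ.le _) hcN0
    calc (Fintype.card Hv : ℝ) * (cc ^ k * β ^ k)
        ≤ (Fintype.card Hv : ℝ) * (cst ^ n0 m * β ^ 2) :=
          mul_le_mul_of_nonneg_left h1 (Nat.cast_nonneg _)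
      _ = cst ^ n0 m * ((Fintype.card Hv : ℝ) * β) * β := by ring
      _ ≤ cst ^ n0 m * xm w.toWG Vs * β :=
          mul_le_mul_of_nonneg_right (mul_le_mul_of_nonneg_left hcard hcN0) hβ.le
      _ ≤ 1 / 3 := hE3
  have hle : ∑ k ∈ Finset.Icc 2 (n0 m), (2 : ℝ) / 2 ^ k *
      ((∑ a, ∑' i, T1f Q cc β Ld.length (Ld ++ (Lt ++ L0)) i a k) +
        ∑ _c : Fin (Fintype.card Hv), cc ^ k * β ^ k) ≤ 2 := by
    have h1 : ∀ k ∈ Finset.Icc 2 (n0 m), (2 : ℝ) / 2 ^ k *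
        ((∑ a, ∑' i, T1f Q cc β Ld.length (Ld ++ (Lt ++ L0)) i a k) +
          ∑ _c : Fin (Fintype.card Hv), cc ^ k * β ^ k) ≤
        (2 : ℝ) / 2 ^ k * (∑ a, ∑' i, T1f Q cc β Ld.length (Ld ++ (Lt ++ L0)) i a k) +
          (2 : ℝ) / 2 ^ k * (1 / 3) := by
      intro k hk
      rw [mul_add]
      exact add_le_add_right (mul_le_mul_of_nonneg_left (hT2s k hk) (by positivity)) _
    refine (Finset.sum_le_sum h1).trans ?_
    rw [Finset.sum_add_distrib, ← Finset.sum_mul]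
    have h2 := stth_geom (n0 m)
    linarith
  -- the elements
  obtain ⟨u₁, hu₁, hu₁t⟩ := hV0t.cov u₀ hu₀
  obtain ⟨v₁, hv₁, hv₁t⟩ := hV0t.cov v₀ hv₀
  have hzzV : ∀ a : Z, v' a.1 ∈ V' := fun a => (hv' a.1 a.2.2).1
  obtain ⟨E, rE, aE, θ, n1, hn1, hθ1, hθm, hθn, hθh, hθd, u', hu', v'', hv'', hword⟩ :=
    stage_core Q hVs hch (χ := χZ) (r := rZ) (fun a => hA.pos a.1) hm hK hh
      (fun c => by rw [hhπ]; exact hV'Vs (hv' _ (hhY c)).1)
      (fun c a => by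
        rw [hhπ]
        refine (hχv' a _ (hhY c)).trans (if_neg ?_)
        intro h
        have h1 := (eH.symm c).2
        rw [← h] at h1
        exact absurd a.2.1 (not_le.2 h1))
      hcc0 hsum (T := cst * β)
      (fun a => mul_le_mul hcc a.2.1 (hA.pos a.1).le (by linarith)) hE5 hE4
      (fun i a k => T1f Q cc β Ld.length (Ld ++ (Lt ++ L0)) i a k)
      (fun i a k => (stth_T1 Q hcc0 _ hLpos i a k).1)
      (fun i a u hu2 huN hne => by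
        have h1 := rel_size Q hVs hch hβ (by linarith) hLdβ (fun a : Z => hA.pos a.1)
          (fun a => a.2.1) hK (Q.r i) a u (by rintro rfl; simp at hu2) huN hne
        exact stth_T1u Q hcc0 hsqβ _ hLpos i a rZ u h1.1 h1.2)
      (fun a k => Summable.of_nonneg_of_le (fun i => (stth_T1 Q hcc0 _ hLpos i a k).1)
        (fun i => (stth_T1 Q hcc0 _ hLpos i a k).2) (Q.summ.mul_left _))
      (fun _ k => cc ^ k * β ^ k) (fun _ k => by positivity)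
      (fun c u _ _ _ => mul_le_mul_of_nonneg_left
        (wt_le_pow (fun a : Z => hA.pos a.1) (fun a => a.2.1) u) (pow_nonneg hcc0.le _))
      hle wd hwd.nil hwd.low hwd.lead (fun a => v' a.1) (fun a => hV'Vs (hzzV a))
      (fun a b => by
        refine (hχv' a _ b.2.2).trans ?_
        by_cases hab : a = b
        · rw [if_pos hab, if_pos (congrArg Subtype.val hab)]
        · rw [if_neg hab, if_neg fun h => hab (Subtype.ext h)])
      u₁ v₁ (hV'Vs hu₁) (hV'Vs hv₁)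
  have hcl : ∀ x ∈ Subgroup.closure (Set.range fun a : Z => v' a.1),
      x ∈ V' ∧ w.W x ≤ t := by
    have h1 : Subgroup.closure (Set.range fun a : Z => v' a.1) ≤ V' ⊓ w.ball t := by
      rw [Subgroup.closure_le]
      rintro _ ⟨a, rfl⟩
      refine ⟨hzzV a, (w.mem_ball (hβ.le.trans hβt)).2 ?_⟩
      have e1 : v' a.1 = v a.1 * ((v a.1)⁻¹ * v' a.1) := by group
      change w.W (v' a.1) ≤ t
      rw [e1]
      refine (w.mul _ _).trans (max_le ?_ ?_)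
      · rw [hA.wv]; exact a.2.1.trans hβt
      · exact (hv' a.1 a.2.2).2.trans (hwmρ.le.trans (hρβ.trans hβt))
    intro x hx
    exact ⟨(h1 hx).1, (w.mem_ball (hβ.le.trans hβt)).1 (h1 hx).2⟩
  have hnear : ∀ x x₁ y : G, w.W (x₁⁻¹ * x) ≤ t → w.W y ≤ t → w.W (x⁻¹ * (x₁ * y)) ≤ t := by
    intro x x₁ y h1 h2
    rw [← mul_assoc]
    refine (w.mul _ _).trans (max_le ?_ h2)
    rw [W_inv_mul_comm]; exact h1
  have hdeep : ∀ h ∈ V', w.W h ≤ t' → θ h = 1 := by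
    intro h hh' hht
    refine hθd h (hV'Vs hh') fun u _ hul => ?_
    exact lt_of_le_of_lt hht (lt_of_lt_of_le ht'ρ
      (stth_wt_ge rZ hρ.le hρ1 (fun a => hY' a.1 a.2.2) (n0 m) u hul))
  obtain ⟨k, y, s, hys, hss, hgen⟩ := stth_gen w.toWG hβ hCV
    (rho_chain_finite w.toWG (exists_chain w.toWG hCV.op (le_top : V' ≤ ⊤)).choose_spec w.fd
      hCV.op) hA v'
    (fun b hb => ⟨(hv' b (hheavyY b hb)).1,
      (hv' b (hheavyY b hb)).2.trans (hwmρ.le.trans hρβ)⟩) ht' θ hθ1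
    (fun g hg h hh' => hθm g (hV'Vs hg) h (hV'Vs hh')) hdeep
    (fun b hb => by
      have h1 := hθh (eH ⟨b, hb⟩)
      rw [hhπ, Equiv.symm_apply_apply] at h1
      exact h1)
  refine ⟨u₁ * u', v₁ * v'', V'.mul_mem hu₁ (hcl _ hu').1, V'.mul_mem hv₁ (hcl _ hv'').1,
    hnear _ _ _ hu₁t (hcl _ hu').2, hnear _ _ _ hv₁t (hcl _ hv'').2, E, rE, aE, θ, n1, ?_⟩
  exact
    { n1_le := hn1
      one := hθ1
      mul := fun g hg h hh' => hθm g (hV'Vs hg) h (hV'Vs hh')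
      nilp := fun l hl hn => hθn l (fun h hh' => hV'Vs (hl h hh')) hn
      deep := hdeep
      word := hword
      gen := ⟨k, y, s, fun i => ⟨(hys i).1, (hys i).2.1.le, (hys i).2.2.1,
        (hys i).2.2.2.trans hβt⟩, hss.le.trans hδ, hgen⟩ }

end Pool.Agent.GGS
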