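import Pool.Agent.GGS.AdSum

/-!
# An adapted basis which contains the deepest element of a step (paper, 3.1)
-/

namespace Pool.Agent.GGS

universe u

variable {p : ℕ} {G : Type u} [Group G] (w : WG p G)

private lemma chs_mul {V : Subgroup G} {χ : G → ZMod p} (h : χ ∈ ChS w V) {u v : G} (hu : u ∈ V)
    (hv : v ∈ V) : χ (u * v) = χ u + χ v := by
  obtain ⟨t, _, h⟩ := h
  exact h.2.1 u hu v hv

private lemma chs_pow {V : Subgroup G} {χ : G → ZMod p} (h : χ ∈ ChS w V) {v : G} (hv : v ∈ V)
    (k : ℕ) : χ (v ^ k) = (k : ZMod p) * χ v := by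
  induction k with
  | zero =>
    have h1 := chs_mul w h V.one_mem V.one_mem
    rw [mul_one] at h1
    have h2 : χ 1 = 0 := by
      have h3 : χ 1 + 0 = χ 1 + χ 1 := by rw [add_zero]; exact h1
      exact (add_left_cancel h3).symm
    rw [pow_zero, h2, Nat.cast_zero, zero_mul]
  | succ k ih =>
    rw [pow_succ, chs_mul w h (V.pow_mem hv k) hv, ih, Nat.cast_succ, add_mul, one_mul]

/-- an adapted basis which contains the deepest element of a step -/
theorem step_adapted [Fact p.Prime] {V V' : Subgroup G} {y : G} {r : ℝ} (h : Step w V V' y r)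
    (hV' : Op w V') (hf : Module.Finite (ZMod p) (ChS w V)) :
    ∃ (B : Type) (_ : Fintype B) (v : B → G) (s : B → ℝ) (χ : B → G → ZMod p) (b₀ : B),
      Adapted w V (ChS w V) v s χ ∧ s b₀ = r ∧ (∀ g, g ∈ V' ↔ g ∈ V ∧ χ b₀ g = 0) := by
  classical
  obtain ⟨χ, hχ, hχy, hχV⟩ := char_of_step w h hV'
  obtain ⟨B, hB, v, s, ψ, hA⟩ := exists_adapted w (ChS w V) le_rfl hf
  have hexp : χ = ∑ b, χ (v b) • ψ b := adapted_expand w hA hχ
  have hexp' : ∀ g, χ g = ∑ b, χ (v b) * ψ b g := by
    intro g
    have h1 := congrFun hexp g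
    rw [h1, Finset.sum_apply]
    rfl
  -- the smallest weight
  have hne : (Finset.univ.filter fun b => χ (v b) ≠ 0).Nonempty := by
    by_contra hcon
    rw [Finset.not_nonempty_iff_eq_empty, Finset.filter_eq_empty_iff] at hcon
    have h1 : χ y = 0 := by
      rw [hexp' y]
      refine Finset.sum_eq_zero fun b _ => ?_
      have h2 := hcon (Finset.mem_univ b)
      rw [not_not] at h2
      rw [h2, zero_mul]
    rw [hχy] at h1
    exact one_ne_zero h1
  obtain ⟨b₀, hb₀, hmin⟩ := Finset.exists_min_image _ s hne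
  have hc : χ (v b₀) ≠ 0 := (Finset.mem_filter.mp hb₀).2
  have hsb : s b₀ = r := by
    refine le_antisymm ?_ ?_
    · by_contra hlt
      rw [not_le] at hlt
      have h1 : χ y = 0 := by
        rw [hexp' y]
        refine Finset.sum_eq_zero fun b _ => ?_
        by_cases hb : χ (v b) = 0
        · rw [hb, zero_mul]
        · have h2 : s b₀ ≤ s b := hmin b (Finset.mem_filter.mpr ⟨Finset.mem_univ b, hb⟩)
          rw [hA.van b y h.mem (by rw [h.wy]; exact hlt.trans_le h2), mul_zero]
      rw [hχy] at h1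
      exact one_ne_zero h1
    · have h1 : v b₀ ∉ V' := fun h2 => hc ((hχV _ (hA.mem b₀)).mp h2)
      have h2 := h.deep _ (hA.mem b₀) h1
      rwa [hA.wv] at h2
  -- the new family
  set c := χ (v b₀) with hcdef
  let k : B → ℕ := fun b => (-(χ (v b)) * c⁻¹).val
  have hk : ∀ b, (k b : ZMod p) * c = - χ (v b) := by
    intro b
    simp only [k]
    rw [ZMod.natCast_val, ZMod.cast_id', id, mul_assoc, inv_mul_cancel₀ hc, mul_one]
  let v' : B → G := fun b => if b = b₀ then v b₀ else v b * v b₀ ^ k b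
  let χ' : B → G → ZMod p := fun b => if b = b₀ then c⁻¹ • χ else ψ b
  have hv'0 : v' b₀ = v b₀ := if_pos rfl
  have hv'1 : ∀ b, b ≠ b₀ → v' b = v b * v b₀ ^ k b := fun b hb => if_neg hb
  have hχ'0 : χ' b₀ = c⁻¹ • χ := if_pos rfl
  have hχ'1 : ∀ b, b ≠ b₀ → χ' b = ψ b := fun b hb => if_neg hb
  have hχ'0' : ∀ g, χ' b₀ g = c⁻¹ * χ g := by
    intro g; rw [hχ'0]; rfl
  have hmem : ∀ b, v' b ∈ V := by
    intro b
    by_cases hb : b = b₀
    · rw [hb, hv'0]; exact hA.mem b₀
    · rw [hv'1 b hb]; exact V.mul_mem (hA.mem b) (V.pow_mem (hA.mem b₀) _)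
  have hval : ∀ θ ∈ ChS w V, ∀ b, b ≠ b₀ → θ (v' b) = θ (v b) + (k b : ZMod p) * θ (v b₀) := by
    intro θ hθ b hb
    rw [hv'1 b hb, chs_mul w hθ (hA.mem b) (V.pow_mem (hA.mem b₀) _), chs_pow w hθ (hA.mem b₀)]
  have hdual : ∀ b b', ψ b (v b') = if b = b' then 1 else 0 := fun b b' => by
    rw [hA.dual b b']
  refine ⟨B, hB, v', s, χ', b₀, ?_, hsb, ?_⟩
  · refine ⟨hmem, hA.pos, ?_, ?_, ?_, ?_, ?_⟩
    · -- weights
      intro b
      by_cases hb : b = b₀
      · rw [hb, hv'0]; exact hA.wv b₀
      · refine le_antisymm ?_ ?_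
        · by_cases h0 : χ (v b) = 0
          · have hk0 : k b = 0 := by
              simp only [k]
              rw [h0, neg_zero, zero_mul, ZMod.val_zero]
            rw [hv'1 b hb, hk0, pow_zero, mul_one]
            exact (hA.wv b).le
          · have h2 : s b₀ ≤ s b := hmin b (Finset.mem_filter.mpr ⟨Finset.mem_univ b, h0⟩)
            rw [hv'1 b hb]
            refine (w.mul _ _).trans (max_le (hA.wv b).le ?_)
            exact (W_pow_le w _ _).trans ((hA.wv b₀).le.trans h2)
        · by_contra hlt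
          rw [not_le] at hlt
          have h3 := hA.van b (v' b) (hmem b) hlt
          rw [hval (ψ b) (hA.inS b) b hb, hdual, hdual, if_pos rfl, if_neg hb, mul_zero,
            add_zero] at h3
          exact one_ne_zero h3
    · intro b
      by_cases hb : b = b₀
      · rw [hb, hχ'0]; exact (ChS w V).smul_mem _ hχ
      · rw [hχ'1 b hb]; exact hA.inS b
    · intro b b'
      by_cases hb : b = b₀
      · subst hb
        by_cases hb' : b' = b
        · subst hb'
          rw [hχ'0', hv'0, if_pos rfl]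
          exact inv_mul_cancel₀ hc
        · have hb'' : ¬ b = b' := fun h => hb' h.symm
          rw [hχ'0', hval χ hχ b' hb', if_neg hb'', ← hcdef, hk b', add_neg_cancel, mul_zero]
      · rw [hχ'1 b hb]
        by_cases hb' : b' = b₀
        · rw [hb', hv'0, hdual]
        · rw [hval (ψ b) (hA.inS b) b' hb', hdual, hdual, if_neg hb, mul_zero, add_zero]
    · intro b u hu hlt
      by_cases hb : b = b₀
      · subst hb
        rw [hχ'0']
        have h1 : χ u = 0 := by
          by_contra h0
          have h2 : u ∉ V' := fun h2 => h0 ((hχV _ hu).mp h2)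
          have h3 := h.deep _ hu h2
          rw [hsb] at hlt
          exact absurd h3 (not_le.mpr hlt)
        rw [h1, mul_zero]
      · rw [hχ'1 b hb]; exact hA.van b u hu hlt
    · intro θ hθ h0
      refine hA.full θ hθ fun b => ?_
      have h1 : θ (v b₀) = 0 := by
        have := h0 b₀
        rwa [hv'0] at this
      by_cases hb : b = b₀
      · rw [hb]; exact h1
      · have h2 := h0 b
        rw [hval θ hθ b hb, h1, mul_zero, add_zero] at h2
        exact h2
  · intro g
    rw [hχ'0']
    constructor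
    · intro hg
      refine ⟨h.le hg, ?_⟩
      rw [(hχV g (h.le hg)).mp hg, mul_zero]
    · rintro ⟨hg, h0⟩
      rw [hχV g hg]
      rcases mul_eq_zero.mp h0 with h1 | h1
      · exact absurd (inv_eq_zero.mp h1) hc
      · exact h1

end Pool.Agent.GGS
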