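import Pool.Agent.GGS.Final

/-!
# The statement in compact form

`FreeP p X` is the group `Fhat p X` as a type of its own.
-/

namespace Pool.Agent.GGS

/-- The free pro-`p` group on `X` (on the set `X` converging to `1`, if `X` is infinite): the closed
subgroup of the group of units of the ring `Ser p X` of formal power series over `𝔽_p` in the noncommuting
variables `x ∈ X` generated by the elements `1 + x`. -/
def FreeP (p : ℕ) (X : Type) : Type := ↥(Fhat p X)

noncomputable instance (p : ℕ) (X : Type) : Group (FreeP p X) :=
  inferInstanceAs (Group ↥(Fhat p X))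

noncomputable instance (p : ℕ) (X : Type) : TopologicalSpace (FreeP p X) :=
  inferInstanceAs (TopologicalSpace ↥(Fhat p X))

/-- The weight `W̃(g) = w(g - 1)` of an element `g` of the free pro-`p` group. -/
noncomputable def wtF {p : ℕ} {X : Type} (w : X → ℝ) (g : FreeP p X) : ℝ := Wt (p := p) w g

/-- The function on `G` induced by `W̃` and `π : F → G`: `W(g) = inf {W̃(h) : π(h) = g}`. -/
noncomputable def indF {p : ℕ} {X : Type} {G : Type*} [Group G] (w : X → ℝ) (π : FreeP p X →* G)
    (g : G) : ℝ :=
  ⨅ h : {h : FreeP p X // π h = g}, wtF w h.1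

/-- A presentation `G = ⟨X | R⟩` of the pro-`p` group `G` (`π` is a continuous epimorphism of the free
pro-`p` group on `X` onto `G`, whose kernel is the closed normal subgroup generated by `R`: the closure of
the subgroup generated by the conjugates of the elements of `R`), with weights `w x ∈ (0,1)` such that
`∑ w x < ∞`. -/
structure WPres (p : ℕ) (G : Type*) [Group G] [TopologicalSpace G] where
  /-- the generators -/
  X : Type
  /-- their weights -/
  w : X → ℝ
  pos : ∀ x, 0 < w x
  lt_one : ∀ x, w x < 1
  summable : Summable w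
  /-- the epimorphism -/
  π : FreeP p X →* G
  continuous : Continuous π
  surjective : Function.Surjective π
  /-- the relators -/
  R : Set (FreeP p X)
  ker : (π.ker : Set (FreeP p X)) = closure (Subgroup.normalClosure R : Set (FreeP p X))

variable {G : Type*} [Group G] {p : ℕ} [TopologicalSpace G]

open Classical in
/-- `W̃(X) - W̃(R) - 1` (this is `-∞` if `W̃(R) = ∞`). -/
noncomputable def WPres.def (P : WPres p G) : EReal :=
  if Summable (fun r : P.R => wtF P.w r.1) then
    ((∑' x, P.w x - ∑' r : P.R, wtF P.w r.1 - 1 : ℝ) : EReal)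
  else ⊥

/-- `def_W(G)`: the supremum of the deficiencies of the weighted presentations which induce `W`. -/
noncomputable def defW (p : ℕ) (W : G → ℝ) : EReal :=
  ⨆ P : {P : WPres p G // indF P.w P.π = W}, P.1.def

theorem defW_le (W : G → ℝ) : defW p W ≤ wDef p W := by
  refine iSup_le fun P => ?_
  obtain ⟨P, hP⟩ := P
  have hk : MonoidHom.ker (G := ↥(Fhat p P.X)) P.π =
      (Subgroup.normalClosure (G := ↥(Fhat p P.X)) P.R).topologicalClosure :=
    SetLike.coe_injective P.ker
  let Q : Presn p G := ⟨P.X, P.w, P.pos, P.lt_one, P.summable, P.π, P.continuous, P.surjective, P.R, hk⟩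
  exact le_iSup (fun P : {P : Presn p G // indW P.w P.π = W} => P.1.deficiency) ⟨Q, hP⟩

theorem main' [Fact p.Prime] [IsTopologicalGroup G] [T2Space G] (W : G → ℝ) (h : 0 < defW p W) :
    ∃ H : Subgroup G, IsClosed (H : Set G) ∧ wIndex p W H < ⊤ ∧
      ∃ φ : H →* FreeP p (Fin 2), Continuous φ ∧ Function.Surjective φ :=
  main W (h.trans_le (defW_le W))

end Pool.Agent.GGS
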