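import Pool.Agent.GGS.DeepDef

/-!
# Sums of weights of PBW monomials (paper, section 12: E1)
-/

namespace Pool.Agent.GGS

universe u

variable {p : ℕ} {G : Type u} [Group G] (w : WG p G)

/-- left embedding of positions -/
private def eL {α : Type*} (L₁ L₂ : List α) (i : Fin L₁.length) : Fin (L₁ ++ L₂).length :=
  ⟨i, by rw [List.length_append]; exact i.isLt.trans_le (Nat.le_add_right _ _)⟩

/-- right embedding of positions -/
private def eR {α : Type*} (L₁ L₂ : List α) (i : Fin L₂.length) : Fin (L₁ ++ L₂).length :=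
  ⟨L₁.length + i, by rw [List.length_append]; exact Nat.add_lt_add_left i.isLt _⟩

private lemma get_eL {α : Type*} (L₁ L₂ : List α) (i : Fin L₁.length) :
    (L₁ ++ L₂).get (eL L₁ L₂ i) = L₁.get i := by
  simp only [List.get_eq_getElem, eL]
  exact List.getElem_append_left i.isLt

private lemma get_eR {α : Type*} (L₁ L₂ : List α) (i : Fin L₂.length) :
    (L₁ ++ L₂).get (eR L₁ L₂ i) = L₂.get i := by
  simp only [List.get_eq_getElem, eR]
  rw [List.getElem_append_right (Nat.le_add_right _ _)]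
  simp

private lemma prod_app {α : Type*} {M : Type*} [CommMonoid M] (L₁ L₂ : List α)
    (g : Fin (L₁ ++ L₂).length → M) :
    ∏ i, g i = (∏ i, g (eL L₁ L₂ i)) * ∏ j, g (eR L₁ L₂ j) := by
  have h : L₁.length + L₂.length = (L₁ ++ L₂).length := (List.length_append).symm
  have h1 : ∏ i, g i = ∏ i : Fin (L₁.length + L₂.length), g (Fin.cast h i) :=
    (Fintype.prod_equiv (finCongr h) _ _ (fun i => rfl)).symm
  rw [h1, Fin.prod_univ_add]
  rfl

private lemma prod_list {α : Type*} (f : α → ℝ) (L : List α) :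
    ∏ i : Fin L.length, f (L.get i) = (L.map f).prod := by
  induction L with
  | nil => simp
  | cons x L ih =>
    rw [List.map_cons, List.prod_cons, ← ih]
    exact Fin.prod_univ_succ (fun i : Fin (L.length + 1) => f ((x :: L).get i))

private lemma sum_pow_qq (r : ℝ) : ∑ j : Fin p, r ^ (j : ℕ) = qq p r :=
  Fin.sum_univ_eq_sum_range (fun j => r ^ j) p

private lemma nonneg_of_chain {P V : Subgroup G} {L : List (G × ℝ)} (h : Chain w P V L)
    (i : Fin L.length) : 0 ≤ (L.get i).2 :=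
  (chain_mem w h _ (List.get_mem L i)).2.2.1.le

open Classical in
/-- E1: monomials with small heavy part -/
theorem sum_E1 [Fact p.Prime] {V0 U V : Subgroup G} {L0 Lt Ld : List (G × ℝ)}
    (h0 : Chain w ⊤ V0 L0) (ht : Chain w V0 U Lt) (hd : Chain w U V Ld) (hV : Op w V) {s : ℝ}
    (hs : ∀ a : Fin L0.length → Fin p, s ≤ mw L0 a) :
    ∑ a ∈ Finset.univ.filter
      (fun a : Fin (Ld ++ (Lt ++ L0)).length → Fin p => hw Ld.length (Ld ++ (Lt ++ L0)) a < s),
      mw (Ld ++ (Lt ++ L0)) a ≤ (Ix w U - Ix w V0) * (Ix w V / Ix w U) := by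
  have hp : 0 < p := (Fact.out : p.Prime).pos
  have hU : Op w U := op_mono w hV (chain_le w hd)
  have hV0 : Op w V0 := op_mono w hU (chain_le w ht)
  have hc1 : Chain w ⊤ U (Lt ++ L0) := chain_append w h0 ht
  have hc2 : Chain w ⊤ V (Ld ++ (Lt ++ L0)) := chain_append w hc1 hd
  have e0 : Ix w V0 = (L0.map fun x => qq p x.2).prod := Ix_eq_prod w h0 hV0
  have e1 : Ix w U = (Lt.map fun x => qq p x.2).prod * Ix w V0 := Ix_chain w ht hU
  have e2 : Ix w V = (Ld.map fun x => qq p x.2).prod * Ix w U := Ix_chain w hd hV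
  have e3 : Ix w V = ∑ a : Fin (Ld ++ (Lt ++ L0)).length → Fin p, mw (Ld ++ (Lt ++ L0)) a :=
    Ix_eq_sum w hc2 hV
  have hU1 : 1 ≤ Ix w U := one_le_Ix w hU
  have hnn := nonneg_of_chain w hc2
  -- the positions of `Lt`
  set L := Ld ++ (Lt ++ L0) with hL
  let Z : Fin L.length → Prop := fun i => Ld.length ≤ (i : ℕ) ∧ (i : ℕ) < Ld.length + Lt.length
  let F : Fin L.length → Fin p → ℝ := fun i j =>
    if Z i then (if (j : ℕ) = 0 then 1 else 0) else (L.get i).2 ^ (j : ℕ)
  have hF0 : ∀ i j, 0 ≤ F i j := by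
    intro i j
    simp only [F]
    split_ifs
    · exact zero_le_one
    · exact le_rfl
    · exact pow_nonneg (hnn i) _
  have hFle : ∀ i j, F i j ≤ (L.get i).2 ^ (j : ℕ) := by
    intro i j
    simp only [F]
    split_ifs with h h'
    · rw [h', pow_zero]
    · exact pow_nonneg (hnn i) _
    · exact le_rfl
  have hterm : ∀ a : Fin L.length → Fin p, ∏ i, F i (a i) ≤ mw L a := fun a =>
    Finset.prod_le_prod (fun i _ => hF0 i _) (fun i _ => hFle i _)
  -- positions
  have hgL : ∀ i, L.get (eL Ld (Lt ++ L0) i) = Ld.get i := fun i => get_eL _ _ i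
  have hgR : ∀ i, L.get (eR Ld (Lt ++ L0) (eR Lt L0 i)) = L0.get i := fun i =>
    (get_eR _ _ _).trans (get_eR _ _ i)
  have zL : ∀ i, ¬ Z (eL Ld (Lt ++ L0) i) := by
    intro i h
    have h1 : Ld.length ≤ (i : ℕ) := h.1
    exact absurd i.isLt (not_lt.mpr h1)
  have zM : ∀ i, Z (eR Ld (Lt ++ L0) (eL Lt L0 i)) := by
    intro i
    refine ⟨?_, ?_⟩
    · exact Nat.le_add_right _ _
    · exact Nat.add_lt_add_left i.isLt _
  have zR : ∀ i, ¬ Z (eR Ld (Lt ++ L0) (eR Lt L0 i)) := by
    intro i h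
    have h1 : Ld.length + (Lt.length + (i : ℕ)) < Ld.length + Lt.length := h.2
    omega
  have hzero : ∀ a : Fin L.length → Fin p, hw Ld.length L a < s → ∏ i, F i (a i) = 0 := by
    intro a ha
    by_contra hne
    have hall : ∀ i, F i (a i) ≠ 0 := fun i h => hne (Finset.prod_eq_zero (Finset.mem_univ i) h)
    have hz : ∀ i, Z i → (a i : ℕ) = 0 := by
      intro i hi
      by_contra h
      exact hall i (by simp only [F, if_pos hi, if_neg h])
    have hcalc : hw Ld.length L a = mw L0 (fun i => a (eR Ld (Lt ++ L0) (eR Lt L0 i))) := by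
      unfold hw mw
      rw [prod_app Ld (Lt ++ L0), prod_app Lt L0]
      have c1 : ∏ i : Fin Ld.length, (if ((eL Ld (Lt ++ L0) i : Fin L.length) : ℕ) < Ld.length
          then (1 : ℝ) else (L.get (eL Ld (Lt ++ L0) i)).2 ^ (a (eL Ld (Lt ++ L0) i) : ℕ)) = 1 := by
        refine Finset.prod_eq_one fun i _ => ?_
        rw [if_pos]
        exact i.isLt
      have c2 : ∏ i : Fin Lt.length,
          (if ((eR Ld (Lt ++ L0) (eL Lt L0 i) : Fin L.length) : ℕ) < Ld.length
          then (1 : ℝ) else (L.get (eR Ld (Lt ++ L0) (eL Lt L0 i))).2 ^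
            (a (eR Ld (Lt ++ L0) (eL Lt L0 i)) : ℕ)) = 1 := by
        refine Finset.prod_eq_one fun i _ => ?_
        rw [hz _ (zM i), pow_zero, ite_self]
      have c3 : ∏ i : Fin L0.length,
          (if ((eR Ld (Lt ++ L0) (eR Lt L0 i) : Fin L.length) : ℕ) < Ld.length
          then (1 : ℝ) else (L.get (eR Ld (Lt ++ L0) (eR Lt L0 i))).2 ^
            (a (eR Ld (Lt ++ L0) (eR Lt L0 i)) : ℕ)) =
          ∏ i : Fin L0.length, (L0.get i).2 ^ (a (eR Ld (Lt ++ L0) (eR Lt L0 i)) : ℕ) := by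
        refine Finset.prod_congr rfl fun i _ => ?_
        rw [if_neg]
        · rw [hgR]
        · exact not_lt.mpr (Nat.le_add_right _ _)
      rw [c1, c2, c3, one_mul, one_mul]
    rw [hcalc] at ha
    exact absurd (hs _) (not_le.mpr ha)
  -- the sum of the products
  have hsum : ∑ a : Fin L.length → Fin p, ∏ i, F i (a i) =
      (Ld.map fun x => qq p x.2).prod * (L0.map fun x => qq p x.2).prod := by
    have h1 : ∑ a : Fin L.length → Fin p, ∏ i, F i (a i) = ∏ i, ∑ j : Fin p, F i j := by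
      rw [Finset.prod_univ_sum, Fintype.piFinset_univ]
    rw [h1, prod_app Ld (Lt ++ L0), prod_app Lt L0]
    have c1 : ∏ i : Fin Ld.length, ∑ j : Fin p, F (eL Ld (Lt ++ L0) i) j =
        (Ld.map fun x => qq p x.2).prod := by
      rw [← prod_list]
      refine Finset.prod_congr rfl fun i _ => ?_
      rw [← sum_pow_qq]
      refine Finset.sum_congr rfl fun j _ => ?_
      simp only [F, if_neg (zL i)]
      rw [hgL]
    have c2 : ∏ i : Fin Lt.length, ∑ j : Fin p, F (eR Ld (Lt ++ L0) (eL Lt L0 i)) j = 1 := by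
      refine Finset.prod_eq_one fun i _ => ?_
      rw [Finset.sum_eq_single (⟨0, hp⟩ : Fin p)]
      · simp only [F, if_pos (zM i), if_true]
      · intro j _ hj
        have hj' : ¬ (j : ℕ) = 0 := fun h => hj (Fin.ext h)
        simp only [F, if_pos (zM i), if_neg hj']
      · intro h; exact absurd (Finset.mem_univ _) h
    have c3 : ∏ i : Fin L0.length, ∑ j : Fin p, F (eR Ld (Lt ++ L0) (eR Lt L0 i)) j =
        (L0.map fun x => qq p x.2).prod := by
      rw [← prod_list]
      refine Finset.prod_congr rfl fun i _ => ?_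
      rw [← sum_pow_qq]
      refine Finset.sum_congr rfl fun j _ => ?_
      simp only [F, if_neg (zR i)]
      rw [hgR]
    rw [c1, c2, c3, one_mul]
  have hmain : ∑ a ∈ Finset.univ.filter
      (fun a : Fin L.length → Fin p => hw Ld.length L a < s), mw L a ≤
      ∑ a : Fin L.length → Fin p, (mw L a - ∏ i, F i (a i)) := by
    have hq : ∑ a ∈ Finset.univ.filter
        (fun a : Fin L.length → Fin p => hw Ld.length L a < s), mw L a =
        ∑ a ∈ Finset.univ.filter
        (fun a : Fin L.length → Fin p => hw Ld.length L a < s), (mw L a - ∏ i, F i (a i)) := by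
      refine Finset.sum_congr rfl fun a ha => ?_
      rw [hzero a (Finset.mem_filter.mp ha).2, sub_zero]
    rw [hq]
    exact Finset.sum_le_sum_of_subset_of_nonneg (Finset.filter_subset _ _)
      (fun a _ _ => sub_nonneg.mpr (hterm a))
  refine hmain.trans (le_of_eq ?_)
  rw [Finset.sum_sub_distrib, ← e3, hsum, ← e0]
  have hUne : Ix w U ≠ 0 := by positivity
  have e4 : (Ld.map fun x => qq p x.2).prod = Ix w V / Ix w U := by
    rw [e2]; field_simp
  rw [e4]
  field_simp

/-- the sum of the deep weights is at most `λ - 1` -/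
theorem sum_deep_le [Fact p.Prime] {U V : Subgroup G} {Ld : List (G × ℝ)}
    (hd : Chain w U V Ld) (hV : Op w V) :
    (Ld.map fun x => x.2).sum ≤ Ix w V / Ix w U - 1 := by
  have hU : Op w U := op_mono w hV (chain_le w hd)
  have hU1 : 1 ≤ Ix w U := one_le_Ix w hU
  have hUne : Ix w U ≠ 0 := by positivity
  have e2 : Ix w V = (Ld.map fun x => qq p x.2).prod * Ix w U := Ix_chain w hd hV
  have e4 : Ix w V / Ix w U = (Ld.map fun x => qq p x.2).prod := by
    rw [e2]; field_simp
  rw [e4]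
  have key : ∀ L : List (G × ℝ), (∀ x ∈ L, 0 ≤ x.2) →
      0 ≤ (L.map fun x => x.2).sum ∧
      1 + (L.map fun x => x.2).sum ≤ (L.map fun x => qq p x.2).prod := by
    intro L
    induction L with
    | nil => intro _; simp
    | cons x L ih =>
      intro hx
      have hx0 : 0 ≤ x.2 := hx x (List.mem_cons_self)
      obtain ⟨i0, i1⟩ := ih fun y hy => hx y (List.mem_cons_of_mem _ hy)
      rw [List.map_cons, List.sum_cons, List.map_cons, List.prod_cons]
      refine ⟨add_nonneg hx0 i0, ?_⟩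
      have h1 : 1 + x.2 ≤ qq p x.2 := one_add_le_qq hx0
      have h2 : (1 + x.2) * (1 + (L.map fun x => x.2).sum) ≤
          qq p x.2 * (L.map fun x => qq p x.2).prod :=
        mul_le_mul h1 i1 (by linarith) (by linarith)
      nlinarith [mul_nonneg hx0 i0]
  have := (key Ld fun x hx => (chain_mem w hd x hx).2.2.1.le).2
  linarith

/-- `∑' min(Wt (r i), s) → 0` -/
theorem tsum_min_tendsto {ι : Type} (f : ι → ℝ) (h0 : ∀ i, 0 ≤ f i) (hf : Summable f) {e : ℝ}
    (he : 0 < e) : ∃ s₀, 0 < s₀ ∧ ∀ s, 0 < s → s ≤ s₀ → ∑' i, min (f i) s ≤ e := by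
  classical
  have h1 : ∃ T : Finset ι, (∑' i, f i) - e / 2 < ∑ i ∈ T, f i := by
    have h2 := hf.hasSum
    have h3 := h2.eventually (Ioi_mem_nhds (show (∑' i, f i) - e / 2 < ∑' i, f i by linarith))
    obtain ⟨T, hT⟩ := h3.exists
    exact ⟨T, hT⟩
  obtain ⟨T, hT⟩ := h1
  refine ⟨e / (2 * (T.card + 1)), by positivity, ?_⟩
  intro s hs hs0
  have hmin : Summable fun i => min (f i) s :=
    Summable.of_nonneg_of_le (fun i => le_min (h0 i) hs.le) (fun i => min_le_left _ _) hf
  have h4 : ∑' i, min (f i) s = ∑ i ∈ T, min (f i) s + ∑' i : ((T : Set ι)ᶜ : Set ι), min (f i) s :=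
    (hmin.sum_add_tsum_compl).symm
  have h5 : ∑' i, f i = ∑ i ∈ T, f i + ∑' i : ((T : Set ι)ᶜ : Set ι), f i :=
    (hf.sum_add_tsum_compl).symm
  have h6 : ∑' i : ((T : Set ι)ᶜ : Set ι), min (f i) s ≤ ∑' i : ((T : Set ι)ᶜ : Set ι), f i :=
    Summable.tsum_le_tsum (fun i => min_le_left _ _) (hmin.subtype _) (hf.subtype _)
  have h7 : ∑ i ∈ T, min (f i) s ≤ T.card * s := by
    calc ∑ i ∈ T, min (f i) s ≤ ∑ _i ∈ T, s := Finset.sum_le_sum fun i _ => min_le_right _ _
      _ = T.card * s := by rw [Finset.sum_const, nsmul_eq_mul]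
  have h8 : (T.card : ℝ) * s ≤ e / 2 := by
    have hc : (0 : ℝ) ≤ T.card := Nat.cast_nonneg _
    calc (T.card : ℝ) * s ≤ T.card * (e / (2 * (T.card + 1))) :=
          mul_le_mul_of_nonneg_left hs0 hc
      _ ≤ (T.card + 1) * (e / (2 * (T.card + 1))) :=
          mul_le_mul_of_nonneg_right (by linarith) (by positivity)
      _ = e / 2 := by field_simp
  linarith

end Pool.Agent.GGS
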