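import Pool.Agent.GGS.TLim
import Pool.Agent.GGS.FhatBas

/-!
# The homomorphism (paper, 13.4, 13.5)

`u i`, `v i` converge to `u∞, v∞ ∈ ⋂ V i`; `Gam` = closure of the subgroup of `G × Fhat p (Fin 2)` generated by
`(u∞, genF 0)`, `(v∞, genF 1)`.  For `(h, f) ∈ Gam`: `h ∈ V (i+1)` and
`θ i h = evs ![θ i u∞ - 1, θ i v∞ - 1] (n1 i + 1) (toSer f)` (closed condition: `θ i` is constant on the cosets of
`(V (i+1))_{t (i+1)}`).
-/

namespace Pool.Agent.GGS

universe u

open Ser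

section basic

variable {p : ℕ} {G : Type u} [Group G] {w : WG p G}

attribute [local instance] Tower.ring Tower.alg

theorem thom_anti (T : Tower w) {i j : ℕ} (h : i ≤ j) : T.V j ≤ T.V i :=
  antitone_nat_of_succ_le (fun i => (T.cc i).le) h

theorem thom_t_pow (T : Tower w) (i : ℕ) : T.t i ≤ T.t 0 / 2 ^ i := by
  induction i with
  | zero => simp
  | succ i ih =>
    refine (T.t_succ i).trans ?_
    rw [pow_succ, ← div_div]
    linarith

theorem thom_t_small (T : Tower w) {s : ℝ} (hs : 0 < s) (i : ℕ) : ∃ j, i ≤ j ∧ T.t j ≤ s := by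
  obtain ⟨n, hn⟩ := pow_unbounded_of_one_lt (T.t 0 / s) (one_lt_two : (1 : ℝ) < 2)
  refine ⟨max i n, le_max_left _ _, (thom_t_pow T _).trans ?_⟩
  rw [div_lt_iff₀ hs] at hn
  rw [div_le_iff₀ (by positivity)]
  have h1 : (2 : ℝ) ^ n ≤ 2 ^ max i n := pow_le_pow_right₀ one_le_two (le_max_right _ _)
  nlinarith

theorem thom_lim_mem (T : Tower w) (x : ℕ → G) (hx : ∀ i, x i ∈ T.V i) (a : G)
    (ha : ∀ i, w.W ((x i)⁻¹ * a) ≤ T.t i) (i : ℕ) : a ∈ T.V i := by
  obtain ⟨s, hs, hV⟩ := T.op i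
  obtain ⟨j, hij, hj⟩ := thom_t_small T hs i
  have h1 : (x j)⁻¹ * a ∈ T.V i := hV _ ((ha j).trans hj)
  have h2 : x j ∈ T.V i := thom_anti T hij (hx j)
  have h3 := (T.V i).mul_mem h2 h1
  rwa [mul_inv_cancel_left] at h3

/-- the function `θ i` is constant on small cosets -/
theorem thom_theta (T : Tower w) (i : ℕ) {x y : G} (hx : x ∈ T.V (i + 1))
    (hxy : x⁻¹ * y ∈ T.V (i + 1)) (h : w.W (x⁻¹ * y) ≤ T.t (i + 1)) : T.θ i y = T.θ i x := by
  have h1 := (T.th i).mul x hx (x⁻¹ * y) hxy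
  rw [mul_inv_cancel_left, (T.th i).deep _ hxy h, mul_one] at h1
  exact h1

/-- the two matrices -/
noncomputable def thomN (T : Tower w) (a b : G) (i : ℕ) : Fin 2 → T.E i :=
  ![T.θ i a - 1, T.θ i b - 1]

theorem thom_nil (T : Tower w) {a b : G} {i : ℕ} (ha : a ∈ T.V (i + 1)) (hb : b ∈ T.V (i + 1)) :
    NilW (thomN T a b i) (T.n1 i + 1) := by
  intro l hl
  have h1 := (T.th i).nilp (l.map ![a, b]) (by
    intro h hh
    rw [List.mem_map] at hh
    obtain ⟨x, -, rfl⟩ := hh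
    fin_cases x
    · exact ha
    · exact hb) (by rw [List.length_map]; omega)
  rw [List.map_map] at h1
  have h2 : ((fun h => T.θ i h - 1) ∘ ![a, b]) = thomN T a b i := by
    funext x
    fin_cases x <;> rfl
  rwa [h2] at h1

/-- the relation between group elements and power series -/
def ThomP (T : Tower w) (a b : G) (i : ℕ) (x : G × Fhat p (Fin 2)) : Prop :=
  x.1 ∈ T.V (i + 1) ∧ T.θ i x.1 = evs (thomN T a b i) (T.n1 i + 1) (toSer x.2)

theorem thomP_one (T : Tower w) {a b : G} {i : ℕ} (ha : a ∈ T.V (i + 1)) (hb : b ∈ T.V (i + 1)) :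
    ThomP T a b i 1 := by
  refine ⟨(T.V (i + 1)).one_mem, ?_⟩
  have h1 : T.θ i (1 : G × Fhat p (Fin 2)).1 = 1 := (T.th i).one
  have h2 : toSer (1 : G × Fhat p (Fin 2)).2 = 1 := toSer_one
  rw [h1, h2, evs_one (thom_nil T ha hb)]

theorem thomP_mul (T : Tower w) {a b : G} {i : ℕ} (ha : a ∈ T.V (i + 1)) (hb : b ∈ T.V (i + 1))
    {x y : G × Fhat p (Fin 2)} (hx : ThomP T a b i x) (hy : ThomP T a b i y) :
    ThomP T a b i (x * y) := by
  refine ⟨(T.V (i + 1)).mul_mem hx.1 hy.1, ?_⟩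
  have h1 : T.θ i (x * y).1 = T.θ i x.1 * T.θ i y.1 := (T.th i).mul _ hx.1 _ hy.1
  have h2 : toSer (x * y).2 = toSer x.2 * toSer y.2 := toSer_mul _ _
  rw [h1, h2, evs_mul (thom_nil T ha hb), hx.2, hy.2]

theorem thomP_inv (T : Tower w) {a b : G} {i : ℕ} (ha : a ∈ T.V (i + 1)) (hb : b ∈ T.V (i + 1))
    {x : G × Fhat p (Fin 2)} (hx : ThomP T a b i x) : ThomP T a b i x⁻¹ := by
  have hx1 : x⁻¹.1 ∈ T.V (i + 1) := (T.V (i + 1)).inv_mem hx.1
  refine ⟨hx1, ?_⟩
  have h1 : T.θ i x⁻¹.1 * T.θ i x.1 = 1 := by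
    rw [← (T.th i).mul _ hx1 _ hx.1]
    have : x⁻¹.1 * x.1 = 1 := inv_mul_cancel x.1
    rw [this]
    exact (T.th i).one
  have h2 : T.θ i x.1 * evs (thomN T a b i) (T.n1 i + 1) (toSer x⁻¹.2) = 1 := by
    rw [hx.2, ← evs_mul (thom_nil T ha hb), ← toSer_mul]
    have : x.2 * x⁻¹.2 = 1 := mul_inv_cancel x.2
    rw [this, toSer_one, evs_one (thom_nil T ha hb)]
  exact left_inv_eq_right_inv h1 h2

theorem thomP_gen (T : Tower w) {a b : G} {i : ℕ} (ha : a ∈ T.V (i + 1)) (hb : b ∈ T.V (i + 1)) :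
    ThomP T a b i (a, genF 0) ∧ ThomP T a b i (b, genF 1) := by
  have key : ∀ x : Fin 2, evs (thomN T a b i) (T.n1 i + 1) (toSer (genF x : Fhat p (Fin 2))) =
      1 + thomN T a b i x := by
    intro x
    have h1 := evs_add (thomN T a b i) (T.n1 i + 1) (1 : Ser p (Fin 2)) (mon [x] : Ser p (Fin 2))
    rw [evs_one (thom_nil T ha hb), evs_mon (thom_nil T ha hb)] at h1
    rw [toSer_gen]
    refine Eq.trans h1 ?_
    simp
  constructor
  · refine ⟨ha, ?_⟩
    have h1 := key 0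
    refine Eq.trans ?_ h1.symm
    show T.θ i a = 1 + (T.θ i a - 1)
    abel
  · refine ⟨hb, ?_⟩
    have h1 := key 1
    refine Eq.trans ?_ h1.symm
    show T.θ i b = 1 + (T.θ i b - 1)
    abel

end basic

section top

variable {p : ℕ} {G : Type u} [Group G] [TopologicalSpace G] [IsTopologicalGroup G] {w : WG p G}

attribute [local instance] Tower.ring Tower.alg

theorem thomP_closed (hop : ∀ V : Subgroup G, Op w V → IsOpen (V : Set G)) (T : Tower w)
    (a b : G) (i : ℕ) : IsClosed {x : G × Fhat p (Fin 2) | ThomP T a b i x} := by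
  refine isClosed_of_closure_subset ?_
  intro x hx
  rw [mem_closure_iff] at hx
  obtain ⟨s, hs, hV⟩ := T.op (i + 1)
  have hr : 0 < min (T.t (i + 1)) s := lt_min (T.t_pos _) hs
  have hU1 : IsOpen {y : G × Fhat p (Fin 2) | x.1⁻¹ * y.1 ∈ w.ball (min (T.t (i + 1)) s)} :=
    (hop _ (op_ball w hr)).preimage (continuous_const.mul continuous_fst)
  have hU2 : IsOpen {y : G × Fhat p (Fin 2) | evs (thomN T a b i) (T.n1 i + 1) (toSer y.2) =
      evs (thomN T a b i) (T.n1 i + 1) (toSer x.2)} := by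
    have h1 := isClopen_of_coeff (p := p) (X := Fin 2)
      (P := fun g => evs (thomN T a b i) (T.n1 i + 1) (toSer g) =
        evs (thomN T a b i) (T.n1 i + 1) (toSer x.2)) (T.n1 i + 1) (by
        intro g g' h hg
        rw [← hg]
        exact (evs_congr _ _ h).symm)
    exact h1.isOpen.preimage continuous_snd
  obtain ⟨y, ⟨hy1, hy2⟩, hy3, hy4⟩ := hx _ (hU1.inter hU2) ⟨by
    show x.1⁻¹ * x.1 ∈ w.ball _
    rw [inv_mul_cancel]
    exact (w.ball _).one_mem, rfl⟩
  have hy1' : w.W (x.1⁻¹ * y.1) ≤ min (T.t (i + 1)) s := (w.mem_ball hr.le).1 hy1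
  have hW : w.W (y.1⁻¹ * x.1) ≤ min (T.t (i + 1)) s := by
    rw [W_inv_mul_comm]
    exact hy1'
  have hmem : y.1⁻¹ * x.1 ∈ T.V (i + 1) := hV _ (hW.trans (min_le_right _ _))
  constructor
  · have h3 := (T.V (i + 1)).mul_mem hy3 hmem
    rwa [mul_inv_cancel_left] at h3
  · rw [thom_theta T i hy3 hmem (hW.trans (min_le_left _ _)), hy4]
    exact hy2

end top

variable {p : ℕ} {G : Type u} [Group G] [TopologicalSpace G] [IsTopologicalGroup G] [T2Space G]
  [CompactSpace G]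

section

attribute [local instance] Tower.ring Tower.alg

/-- 13.4: the limit group and the homomorphism onto the free pro-`p` group -/
theorem exists_hom [Fact p.Prime] (w : WG p G) (hop : ∀ V : Subgroup G, Op w V → IsOpen (V : Set G))
    (hcl : ∀ t, 0 < t → ∀ g, IsClosed {h | w.W (g⁻¹ * h) ≤ t}) (T : Tower w) :
    ∃ H : Subgroup G, IsClosed (H : Set G) ∧ (∀ g, (∀ i, g ∈ T.Nn i) → g ∈ H) ∧
      ∃ φ : H →* Fhat p (Fin 2), Continuous φ ∧ Function.Surjective φ := by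
  have hcomp : CompactSpace (Fhat p (Fin 2)) := compact_Fhat
  have hts : ∀ i, T.t (i + 1) ≤ T.t i := fun i => by
    have h1 := T.t_succ i
    have h2 := T.t_pos i
    linarith
  obtain ⟨a, ha⟩ := exists_lim w hcl T.u T.t T.t_pos hts T.u_near
  obtain ⟨b, hb⟩ := exists_lim w hcl T.v T.t T.t_pos hts T.v_near
  have haV : ∀ i, a ∈ T.V i := thom_lim_mem T T.u T.u_mem a ha
  have hbV : ∀ i, b ∈ T.V i := thom_lim_mem T T.v T.v_mem b hb
  -- the graph
  let Gam : Subgroup (G × Fhat p (Fin 2)) :=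
    (Subgroup.closure {((a, genF 0) : G × Fhat p (Fin 2)), (b, genF 1)}).topologicalClosure
  have hGcl : IsClosed (Gam : Set (G × Fhat p (Fin 2))) := Subgroup.isClosed_topologicalClosure _
  have hgen : ((a, genF 0) : G × Fhat p (Fin 2)) ∈ Gam ∧
      ((b, genF 1) : G × Fhat p (Fin 2)) ∈ Gam :=
    ⟨Subgroup.le_topologicalClosure _ (Subgroup.subset_closure (Or.inl rfl)),
      Subgroup.le_topologicalClosure _ (Subgroup.subset_closure (Or.inr rfl))⟩
  have hP : ∀ x ∈ Gam, ∀ i, ThomP T a b i x := by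
    intro x hx i
    have h1 : closure ((Subgroup.closure {((a, genF 0) : G × Fhat p (Fin 2)), (b, genF 1)} :
        Subgroup (G × Fhat p (Fin 2))) : Set (G × Fhat p (Fin 2))) ⊆
        {x : G × Fhat p (Fin 2) | ThomP T a b i x} := by
      refine closure_minimal ?_ (thomP_closed hop T a b i)
      intro y hy
      refine Subgroup.closure_induction (p := fun y _ => ThomP T a b i y) ?_ ?_ ?_ ?_ hy
      · intro z hz
        rcases hz with rfl | hz
        · exact (thomP_gen T (haV _) (hbV _)).1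
        · rw [Set.mem_singleton_iff] at hz
          rw [hz]
          exact (thomP_gen T (haV _) (hbV _)).2
      · exact thomP_one T (haV _) (hbV _)
      · intro y z _ _ hy hz
        exact thomP_mul T (haV _) (hbV _) hy hz
      · intro y _ hy
        exact thomP_inv T (haV _) (hbV _) hy
    exact h1 hx
  have hGV : ∀ x ∈ Gam, ∀ i, x.1 ∈ T.V i := fun x hx i =>
    thom_anti T (Nat.le_succ i) (hP x hx i).1
  -- injectivity
  have hinj : ∀ x ∈ Gam, (∀ i, x.1 ∈ T.Nn i) → x.2 = 1 := by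
    intro x hx hN
    by_contra hne
    have h1 : toSer x.2 ≠ 1 := by
      intro h
      exact hne (toSer_inj (h.trans toSer_one.symm))
    obtain ⟨i, hi⟩ := T.all (toSer x.2) (toSer_nil _) h1
    have h2 : T.θ i x.1 = 1 := (hN (i + 1)).2 i (Nat.lt_succ_self i)
    have h3 := (hP x hx i).2
    rw [h2] at h3
    have h4 : evs (thomN T a b i) (T.n1 i + 1) (toSer x.2) =
        evs (thomN T a b i) (T.n1 i + 1) (T.wd i) := by
      refine evs_congr _ _ fun u hu => hi u ?_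
      have := (T.th i).n1_le
      omega
    have h5 : T.θ i a = T.θ i (T.u (i + 1)) := by
      refine thom_theta T i (T.u_mem (i + 1)) ?_ (ha (i + 1))
      exact (T.V (i + 1)).mul_mem ((T.V (i + 1)).inv_mem (T.u_mem (i + 1))) (haV (i + 1))
    have h6 : T.θ i b = T.θ i (T.v (i + 1)) := by
      refine thom_theta T i (T.v_mem (i + 1)) ?_ (hb (i + 1))
      exact (T.V (i + 1)).mul_mem ((T.V (i + 1)).inv_mem (T.v_mem (i + 1))) (hbV (i + 1))
    have h7 := (T.th i).word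
    apply h7
    rw [← h5, ← h6]
    exact (h3.trans h4).symm
  -- the kernel
  choose M hM1 hM2 hM3 hM4 hM5 using fun i => tower_sub T i
  let N : Subgroup G := ⨅ i, M i
  have hNmem : ∀ g, g ∈ N ↔ ∀ i, g ∈ T.Nn i := by
    intro g
    rw [Subgroup.mem_iInf]
    refine forall_congr' fun i => ?_
    rw [← hM1 i]
    rfl
  have hNcl : IsClosed (N : Set G) := by
    rw [Subgroup.coe_iInf]
    exact isClosed_iInter fun i => Subgroup.isClosed_of_isOpen _ (hop _ (hM2 i))
  have hNnorm : ∀ v, (∀ i, v ∈ T.V i) → ∀ g ∈ N, v * g * v⁻¹ ∈ N := by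
    intro v hv g hg
    rw [Subgroup.mem_iInf] at hg ⊢
    exact fun i => hM5 i v (hv i) g (hg i)
  -- the big group
  let B : Subgroup (G × Fhat p (Fin 2)) :=
    { carrier := {x | ∃ n ∈ N, ∃ y ∈ Gam, x = (n * y.1, y.2)}
      mul_mem' := by
        rintro _ _ ⟨n, hn, y, hy, rfl⟩ ⟨n', hn', y', hy', rfl⟩
        refine ⟨n * (y.1 * n' * y.1⁻¹), N.mul_mem hn (hNnorm _ (hGV y hy) _ hn'), y * y',
          Gam.mul_mem hy hy', ?_⟩
        refine Prod.ext ?_ rfl
        show n * y.1 * (n' * y'.1) = n * (y.1 * n' * y.1⁻¹) * (y.1 * y'.1)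
        group
      one_mem' := ⟨1, N.one_mem, 1, Gam.one_mem, by
        refine Prod.ext ?_ rfl
        show (1 : G) = 1 * 1
        rw [one_mul]⟩
      inv_mem' := by
        rintro _ ⟨n, hn, y, hy, rfl⟩
        refine ⟨y.1⁻¹ * n⁻¹ * y.1⁻¹⁻¹, hNnorm _ (fun i => (T.V i).inv_mem (hGV y hy i)) _
          (N.inv_mem hn), y⁻¹, Gam.inv_mem hy, ?_⟩
        refine Prod.ext ?_ rfl
        show (n * y.1)⁻¹ = y.1⁻¹ * n⁻¹ * y.1⁻¹⁻¹ * y.1⁻¹
        group }
  have hBc : IsCompact (B : Set (G × Fhat p (Fin 2))) := by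
    have h1 : (B : Set (G × Fhat p (Fin 2))) =
        (fun z : G × (G × Fhat p (Fin 2)) => (z.1 * z.2.1, z.2.2)) ''
          ((N : Set G) ×ˢ (Gam : Set (G × Fhat p (Fin 2)))) := by
      ext x
      constructor
      · rintro ⟨n, hn, y, hy, rfl⟩
        exact ⟨(n, y), ⟨hn, hy⟩, rfl⟩
      · rintro ⟨⟨n, y⟩, ⟨hn, hy⟩, rfl⟩
        exact ⟨n, hn, y, hy, rfl⟩
    rw [h1]
    refine IsCompact.image (hNcl.isCompact.prod hGcl.isCompact) ?_
    exact ((continuous_fst.mul (continuous_fst.comp continuous_snd)).prodMk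
      (continuous_snd.comp continuous_snd))
  have hBcs : CompactSpace B := isCompact_iff_compactSpace.1 hBc
  have hBinj : ∀ x ∈ B, x.1 = 1 → x.2 = 1 := by
    rintro _ ⟨n, hn, y, hy, rfl⟩ h
    have h1 : n * y.1 = 1 := h
    have h2 : y.1 = n⁻¹ := (inv_eq_of_mul_eq_one_right h1).symm
    refine hinj y hy fun i => ?_
    have h3 : y.1 ∈ N := h2 ▸ N.inv_mem hn
    exact (hNmem _).1 h3 i
  let ψ : B →* B.map (MonoidHom.fst G (Fhat p (Fin 2))) :=
    (MonoidHom.fst G (Fhat p (Fin 2))).subgroupMap B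
  have hψs : Function.Surjective ψ := MonoidHom.subgroupMap_surjective _ _
  have hψi : Function.Injective ψ := by
    refine (injective_iff_map_eq_one ψ).2 ?_
    intro x hx
    have h1 : (x : G × Fhat p (Fin 2)).1 = 1 := congrArg Subtype.val hx
    have h2 := hBinj x.1 x.2 h1
    exact Subtype.ext (Prod.ext h1 h2)
  have hψc : Continuous ψ :=
    Continuous.subtype_mk (continuous_fst.comp continuous_subtype_val) _
  let e : B ≃* B.map (MonoidHom.fst G (Fhat p (Fin 2))) := MulEquiv.ofBijective ψ ⟨hψi, hψs⟩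
  have hec : Continuous e.toEquiv.symm :=
    Continuous.continuous_symm_of_equiv_compact_to_t2 (f := e.toEquiv) hψc
  refine ⟨B.map (MonoidHom.fst G (Fhat p (Fin 2))), ?_, ?_,
    ((MonoidHom.snd G (Fhat p (Fin 2))).comp B.subtype).comp e.symm.toMonoidHom, ?_, ?_⟩
  · have h1 : ((B.map (MonoidHom.fst G (Fhat p (Fin 2))) : Subgroup G) : Set G) =
        Prod.fst '' (B : Set (G × Fhat p (Fin 2))) := rfl
    rw [h1]
    exact (hBc.image continuous_fst).isClosed
  · intro g hg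
    refine ⟨(g, 1), ⟨g, (hNmem g).2 hg, 1, Gam.one_mem, ?_⟩, rfl⟩
    refine Prod.ext ?_ rfl
    show g = g * 1
    rw [mul_one]
  · exact (continuous_snd.comp continuous_subtype_val).comp hec
  · have hs : ∀ f : Fhat p (Fin 2), ∃ h, ((h, f) : G × Fhat p (Fin 2)) ∈ Gam := by
      intro f
      refine Fhat_induction (P := fun f => ∃ h, ((h, f) : G × Fhat p (Fin 2)) ∈ Gam)
        ?_ ?_ ?_ ?_ ?_ f
      · have h1 : {f : Fhat p (Fin 2) | ∃ h, ((h, f) : G × Fhat p (Fin 2)) ∈ Gam} =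
            Prod.snd '' (Gam : Set (G × Fhat p (Fin 2))) := by
          ext f
          constructor
          · rintro ⟨h, hh⟩
            exact ⟨(h, f), hh, rfl⟩
          · rintro ⟨⟨h, f'⟩, hh, rfl⟩
            exact ⟨h, hh⟩
        rw [h1]
        exact (hGcl.isCompact.image continuous_snd).isClosed
      · exact ⟨1, Gam.one_mem⟩
      · intro x
        fin_cases x
        · exact ⟨a, hgen.1⟩
        · exact ⟨b, hgen.2⟩
      · rintro g h ⟨x, hx⟩ ⟨y, hy⟩
        exact ⟨x * y, Gam.mul_mem hx hy⟩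
      · rintro g ⟨x, hx⟩
        exact ⟨x⁻¹, Gam.inv_mem hx⟩
    intro f
    obtain ⟨h, hh⟩ := hs f
    have hB : ((h, f) : G × Fhat p (Fin 2)) ∈ B := ⟨1, N.one_mem, (h, f), hh, by
      refine Prod.ext ?_ rfl
      show h = 1 * h
      rw [one_mul]⟩
    refine ⟨e ⟨(h, f), hB⟩, ?_⟩
    show ((e.symm (e ⟨(h, f), hB⟩) : B) : G × Fhat p (Fin 2)).2 = f
    rw [MulEquiv.symm_apply_apply]

end

end Pool.Agent.GGS
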