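import Pool.Agent.GGS.TowerIx

/-!
# Limits (paper, 13.3)

`exists_lim`: the closed sets `{h | w.W ((g i)⁻¹ * h) ≤ t i}` are nonempty and decreasing.
-/

namespace Pool.Agent.GGS

universe u

open Ser

variable {p : ℕ} {G : Type u} [Group G] [TopologicalSpace G] [IsTopologicalGroup G] [T2Space G]
  [CompactSpace G]

/-- Cauchy sequences converge -/
theorem exists_lim (w : WG p G) (hcl : ∀ t, 0 < t → ∀ g, IsClosed {h | w.W (g⁻¹ * h) ≤ t})
    (g : ℕ → G) (t : ℕ → ℝ) (ht : ∀ i, 0 < t i) (hts : ∀ i, t (i + 1) ≤ t i)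
    (hg : ∀ i, w.W ((g i)⁻¹ * g (i + 1)) ≤ t i) :
    ∃ h, ∀ i, w.W ((g i)⁻¹ * h) ≤ t i := by
  have hne : (⋂ i, {h | w.W ((g i)⁻¹ * h) ≤ t i}).Nonempty := by
    apply IsCompact.nonempty_iInter_of_sequence_nonempty_isCompact_isClosed
    · intro i h hh
      have hh' : w.W ((g (i + 1))⁻¹ * h) ≤ t (i + 1) := hh
      exact (W_inv_mul_trans w (g i) (g (i + 1)) h).trans (max_le (hg i) (hh'.trans (hts i)))
    · intro i
      refine ⟨g i, ?_⟩
      change w.W ((g i)⁻¹ * g i) ≤ t i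
      rw [inv_mul_cancel, w.one]
      exact (ht i).le
    · exact (hcl _ (ht 0) _).isCompact
    · intro i
      exact hcl _ (ht i) _
  obtain ⟨h, hh⟩ := hne
  exact ⟨h, fun i => Set.mem_iInter.mp hh i⟩

/-- the groups `V i` decrease -/
theorem tlim_V_anti {w : WG p G} (T : Tower w) : ∀ i j, i ≤ j → T.V j ≤ T.V i := by
  have h : Antitone T.V := antitone_nat_of_succ_le fun i => (T.cc i).le
  exact fun i j hij => h hij

theorem tlim_t_anti {w : WG p G} (T : Tower w) : ∀ i j, i ≤ j → T.t j ≤ T.t i := by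
  have h : Antitone T.t := antitone_nat_of_succ_le fun i =>
    (T.t_succ i).trans (half_le_self (T.t_pos i).le)
  exact fun i j hij => h hij

theorem tlim_t_small {w : WG p G} (T : Tower w) {s : ℝ} (hs : 0 < s) : ∃ n, T.t n ≤ s := by
  have h1 : ∀ n, T.t n ≤ T.t 0 * (1 / 2) ^ n := by
    intro n
    induction n with
    | zero => simp
    | succ n ih =>
      have := T.t_succ n
      rw [pow_succ]
      linarith
  obtain ⟨n, hn⟩ := exists_pow_lt_of_lt_one (div_pos hs (T.t_pos 0)) (show (1 / 2 : ℝ) < 1 by norm_num)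
  refine ⟨n, (h1 n).trans ?_⟩
  rw [lt_div_iff₀ (T.t_pos 0)] at hn
  linarith

/-- 13.3: `⋂ N^i` is dense in the right sense -/
theorem exists_approx [Fact p.Prime] (w : WG p G)
    (hcl : ∀ t, 0 < t → ∀ g, IsClosed {h | w.W (g⁻¹ * h) ≤ t}) (T : Tower w) (i : ℕ) (g : G)
    (hg : g ∈ T.Nn i) : ∃ h, (∀ j, h ∈ T.Nn j) ∧ w.W (g⁻¹ * h) ≤ T.t i := by
  choose next hnext hW using fun (j : ℕ) (x : G) (hx : x ∈ T.Nn j) => tower_next T j x hx
  let a : (k : ℕ) → {x : G // x ∈ T.Nn (i + k)} := fun k =>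
    Nat.rec (motive := fun k => {x : G // x ∈ T.Nn (i + k)}) ⟨g, hg⟩
      (fun k x => ⟨next (i + k) x.1 x.2, hnext (i + k) x.1 x.2⟩) k
  have ha0 : (a 0).1 = g := rfl
  have hstep : ∀ k, w.W (((a k).1)⁻¹ * (a (k + 1)).1) ≤ T.t (i + k) := fun k =>
    hW (i + k) (a k).1 (a k).2
  obtain ⟨h, hh⟩ := exists_lim w hcl (fun k => (a k).1) (fun k => T.t (i + k))
    (fun k => T.t_pos _) (fun k => tlim_t_anti T _ _ (by omega)) hstep
  have haV : ∀ k, (a k).1 ∈ T.V (i + k) := fun k => (a k).2.1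
  have hV : ∀ j, h ∈ T.V j := by
    intro j
    obtain ⟨s, hs, hsV⟩ := T.op j
    obtain ⟨n, hn⟩ := tlim_t_small T hs
    have h1 := hh (n + j)
    have h2 : w.W (((a (n + j)).1)⁻¹ * h) ≤ s :=
      h1.trans ((tlim_t_anti T n (i + (n + j)) (by omega)).trans hn)
    have h3 : (a (n + j)).1 ∈ T.V j := tlim_V_anti T j (i + (n + j)) (by omega) (haV (n + j))
    have h4 := (T.V j).mul_mem h3 (hsV _ h2)
    rwa [mul_inv_cancel_left] at h4
  refine ⟨h, fun j => ?_, hh 0⟩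
  obtain ⟨M, hM, -, -, hM4, -⟩ := tower_sub T (i + j)
  have h1 : (a j).1 ∈ M := by
    have : (a j).1 ∈ (M : Set G) := by rw [hM]; exact (a j).2
    exact this
  have h2 : ((a j).1)⁻¹ * h ∈ M :=
    hM4 _ ((T.V (i + j)).mul_mem ((T.V (i + j)).inv_mem (haV j)) (hV _)) (hh j)
  have h3 : h ∈ M := by
    have := M.mul_mem h1 h2
    rwa [mul_inv_cancel_left] at this
  have h4 : h ∈ T.Nn (i + j) := by
    have : h ∈ (M : Set G) := h3
    rwa [hM] at this
  exact ⟨hV j, fun j' hj' => h4.2 j' (by omega)⟩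

end Pool.Agent.GGS
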