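import Pool.Agent.GGS.IxMono

/-!
# Thin quotients (paper, 2.3)

`thin_zero`: if `dif (word in y of length < n ++ mono L a) f 1 = 0` for all words and all `a`, then `f = 0`
(`L` a chain `⊤ → V`).  `thin_words`: the functions `F a := dif (mono L a) f` vanish on `V`; then downward
induction on the length of lists `vs` in `V`: `g ↦ dif vs (x ↦ f (x * g)) 1` is left `V`-invariant and
vanishes on all monomials.
-/

namespace Pool.Agent.GGS

universe u

variable {p : ℕ} {G : Type u} [Group G] (w : WG p G)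

omit w in
lemma thin_dif_rho (vs M : List G) (f : G → ZMod p) (g : G) :
    dif M (fun g => dif vs (fun x => f (x * g)) 1) g = dif vs (fun x => dif M f (x * g)) 1 := by
  induction M generalizing g with
  | nil => rfl
  | cons h M ih =>
    rw [dif_cons, ih, ih]
    have e : (fun x => dif (h :: M) f (x * g)) =
        (fun x => dif M f (x * (g * h))) - (fun x => dif M f (x * g)) := by
      funext x
      simp only [dif_cons, Pi.sub_apply, mul_assoc]
    rw [e, dif_sub, Pi.sub_apply]

omit w in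
lemma thin_dif_vanish {V : Subgroup G} {F : G → ZMod p} (hF : ∀ v ∈ V, F v = 0) (vs : List G)
    (hvs : ∀ v ∈ vs, v ∈ V) : ∀ v ∈ V, dif vs F v = 0 := by
  induction vs with
  | nil => exact hF
  | cons h vs ih =>
    intro v hv
    have ih' := ih (fun v hv => hvs v (List.mem_cons_of_mem _ hv))
    rw [dif_cons, ih' _ (V.mul_mem hv (hvs h List.mem_cons_self)), ih' v hv, sub_zero]

lemma thin_words {V V' : Subgroup G} (hV' : Op w V')
    (hn : ∀ v ∈ V, ∀ u ∈ V', v * u * v⁻¹ ∈ V') {k : ℕ} (y : Fin k → G) (hy : ∀ i, y i ∈ V)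
    (hgen : ∀ v ∈ V, ∃ h ∈ Subgroup.closure (Set.range y), h⁻¹ * v ∈ V')
    {F : G → ZMod p} (hF : ∀ v ∈ V', ∀ g, F (v * g) = F g)
    (h0 : ∀ ws : List (Fin k), dif (ws.map y) F 1 = 0) : ∀ v ∈ V, F v = 0 := by
  have hcl : Subgroup.closure (Set.range y) ≤ V := by
    rw [Subgroup.closure_le]
    rintro _ ⟨i, rfl⟩
    exact hy i
  have hstep : ∀ (x : G) (i : Fin k), (∀ ws : List (Fin k), dif (ws.map y) F x = 0) →
      ∀ ws : List (Fin k), dif (ws.map y) F (x * y i) = 0 := by
    intro x i hx ws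
    have h1 := hx (i :: ws)
    rw [List.map_cons, dif_cons, hx ws, sub_zero] at h1
    exact h1
  have hstepn : ∀ (m : ℕ) (x : G) (i : Fin k), (∀ ws : List (Fin k), dif (ws.map y) F x = 0) →
      ∀ ws : List (Fin k), dif (ws.map y) F (x * y i ^ m) = 0 := by
    intro m
    induction m with
    | zero => intro x i hx ws; rw [pow_zero, mul_one]; exact hx ws
    | succ m ih =>
      intro x i hx ws
      rw [pow_succ, ← mul_assoc]
      exact hstep _ i (ih x i hx) ws
  have key : ∀ g ∈ Subgroup.closure (Set.range y), ∀ ws : List (Fin k),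
      dif (ws.map y) F g = 0 := by
    intro g hg
    induction hg using Subgroup.closure_induction_right with
    | one => exact h0
    | mul_right x hx z hz ih =>
      obtain ⟨i, rfl⟩ := hz
      exact hstep x i ih
    | mul_inv_cancel x hx z hz ih =>
      obtain ⟨i, rfl⟩ := hz
      intro ws
      have := op_finiteIndex w hV'
      obtain ⟨m, hm, -, hmem⟩ := Subgroup.exists_pow_mem_of_index_ne_zero
        (Subgroup.FiniteIndex.index_ne_zero (H := V')) (y i)
      obtain ⟨m', rfl⟩ : ∃ m', m = m' + 1 := ⟨m - 1, by omega⟩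
      have e : x * (y i)⁻¹ = (x * (y i ^ (m' + 1))⁻¹ * x⁻¹) * (x * y i ^ m') := by
        rw [pow_succ']
        group
      rw [e, dif_left_inv hF _ _ (hn x (hcl hx) _ (V'.inv_mem hmem))]
      exact hstepn m' x i ih ws
  intro v hv
  obtain ⟨h, hh, hm⟩ := hgen v hv
  have e : v = (h * (h⁻¹ * v) * h⁻¹) * h := by group
  rw [e, hF _ (hn h (hcl hh) _ hm)]
  exact key h hh []

lemma thin_zero {V V' : Subgroup G} [Fact p.Prime] (hV' : Op w V') (hle : V' ≤ V)
    (hn : ∀ v ∈ V, ∀ u ∈ V', v * u * v⁻¹ ∈ V') {k : ℕ} (y : Fin k → G) (hy : ∀ i, y i ∈ V)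
    (hgen : ∀ v ∈ V, ∃ h ∈ Subgroup.closure (Set.range y), h⁻¹ * v ∈ V')
    {L : List (G × ℝ)} (hL : Chain w ⊤ V L) {n : ℕ}
    (hnil : ∀ f : G → ZMod p, (∀ v ∈ V', ∀ g, f (v * g) = f g) →
      ∀ L : List G, n ≤ L.length → dif L f = 0)
    {f : G → ZMod p} (hf : ∀ v ∈ V', ∀ g, f (v * g) = f g)
    (h0 : ∀ ws : List (Fin k), ws.length < n → ∀ a : Fin L.length → Fin p,
      dif (ws.map y ++ mono L a) f 1 = 0) : f = 0 := by
  have hF : ∀ a : Fin L.length → Fin p, ∀ v ∈ V, dif (mono L a) f v = 0 := by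
    intro a
    refine thin_words w hV' hn y hy hgen (dif_left_inv hf _) ?_
    intro ws
    by_cases hws : ws.length < n
    · rw [← dif_append]
      exact h0 ws hws a
    · rw [hnil _ (dif_left_inv hf _) _ (by rw [List.length_map]; omega)]
      rfl
  have main : ∀ m : ℕ, ∀ vs : List G, (∀ v ∈ vs, v ∈ V) → n ≤ vs.length + m →
      ∀ g, dif vs (fun x => f (x * g)) 1 = 0 := by
    intro m
    induction m with
    | zero =>
      intro vs _ hlen g
      rw [hnil (fun x => f (x * g)) (fun v hv x => by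
        rw [mul_assoc, hf v hv]) vs (by omega)]
      rfl
    | succ m ih =>
      intro vs hvs hlen g
      have h1 := chain_inj w hL (op_mono w hV' hle)
        (fun g => dif vs (fun x => f (x * g)) 1) (fun v hv g _ => by
          have h2 := ih (vs ++ [v]) (fun x hx => by
            rcases List.mem_append.mp hx with h | h
            · exact hvs x h
            · rw [List.mem_singleton.mp h]; exact hv)
            (by rw [List.length_append, List.length_singleton]; omega) g
          rw [dif_append] at h2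
          have e : dif [v] (fun x => f (x * g)) =
              (fun x => f (x * (v * g))) - (fun x => f (x * g)) := by
            funext x
            simp only [dif_cons, dif_nil, Pi.sub_apply, mul_assoc]
          rw [e, dif_sub, Pi.sub_apply, sub_eq_zero] at h2
          exact h2)
        (fun a => by
          rw [thin_dif_rho]
          have e : (fun x => dif (mono L a) f (x * 1)) = dif (mono L a) f := by
            funext x; rw [mul_one]
          rw [e]
          exact thin_dif_vanish (hF a) vs hvs 1 V.one_mem)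
      exact h1 g (Subgroup.mem_top g)
  funext g
  have h2 := main n [] (fun v hv => absurd hv List.not_mem_nil) (by simp) g
  rw [dif_nil, one_mul] at h2
  exact h2

lemma thin_md [Fact p.Prime] {V V' : Subgroup G} (hV' : Op w V') (hle : V' ≤ V)
    (hn : ∀ v ∈ V, ∀ u ∈ V', v * u * v⁻¹ ∈ V') {k : ℕ} (y : Fin k → G) (r : Fin k → ℝ)
    (hy : ∀ i, y i ∈ V) (hW : ∀ i, w.W (y i) ≤ r i)
    (hgen : ∀ v ∈ V, ∃ h ∈ Subgroup.closure (Set.range y), h⁻¹ * v ∈ V')
    {L : List (G × ℝ)} (hL : Chain w ⊤ V L) {n : ℕ}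
    (hnil : ∀ f : G → ZMod p, (∀ v ∈ V', ∀ g, f (v * g) = f g) →
      ∀ L : List G, n ≤ L.length → dif L f = 0) (t : ℝ) :
    md w V' t ≤ (Finset.univ.filter fun c : (Σ l : Fin n, (Fin l → Fin k)) ×
      (Fin L.length → Fin p) => t < (∏ j, r (c.1.2 j)) * mw L c.2).card := by
  classical
  have hwl : ∀ (l : ℕ) (c : Fin l → Fin k) (a : Fin L.length → Fin p),
      wl w ((List.ofFn c).map y ++ mono L a) ≤ (∏ j, r (c j)) * mw L a := by
    intro l c a
    rw [wl_append, wl_mono w hL]
    refine mul_le_mul_of_nonneg_right ?_ (mw_pos w hL a).1.le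
    have e : wl w ((List.ofFn c).map y) = ∏ j, w.W (y (c j)) := by
      unfold wl
      rw [List.map_map, List.map_ofFn, List.prod_ofFn]
      rfl
    rw [e]
    exact Finset.prod_le_prod (fun j _ => w.nonneg _) (fun j _ => hW _)
  let Φ : Fil w V' t →ₗ[ZMod p] ({c : (Σ l : Fin n, (Fin l → Fin k)) ×
      (Fin L.length → Fin p) // t < (∏ j, r (c.1.2 j)) * mw L c.2} → ZMod p) :=
    { toFun := fun f c => dif ((List.ofFn c.1.1.2).map y ++ mono L c.1.2) f.1 1
      map_add' := fun f f' => by
        funext c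
        simp only [Submodule.coe_add, dif_add, Pi.add_apply]
      map_smul' := fun a f => by
        funext c
        simp only [Submodule.coe_smul, dif_smul, Pi.smul_apply, RingHom.id_apply] }
  have hinj : Function.Injective Φ := by
    rw [injective_iff_map_eq_zero]
    intro f hf
    apply Subtype.ext
    refine thin_zero w hV' hle hn y hy hgen hL hnil f.2.1 ?_
    intro ws hws a
    have hws' : List.ofFn (fun j : Fin ws.length => ws.get j) = ws := List.ofFn_get ws
    by_cases ht : t < (∏ j : Fin ws.length, r (ws.get j)) * mw L a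
    · have h1 := congrFun hf ⟨(⟨⟨ws.length, hws⟩, fun j => ws.get j⟩, a), ht⟩
      change dif ((List.ofFn (fun j : Fin ws.length => ws.get j)).map y ++ mono L a) f.1 1 = 0 at h1
      rw [hws'] at h1
      exact h1
    · refine f.2.2 _ ?_
      have h2 := hwl ws.length (fun j => ws.get j) a
      rw [hws'] at h2
      exact h2.trans (not_lt.mp ht)
  have h3 := LinearMap.finrank_le_finrank_of_injective hinj
  rw [Module.finrank_fintype_fun_eq_card, Fintype.card_subtype] at h3
  exact h3

theorem Ix_thin [Fact p.Prime] {V V' : Subgroup G} (hV' : Op w V') (hle : V' ≤ V)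
    (hn : ∀ v ∈ V, ∀ u ∈ V', v * u * v⁻¹ ∈ V') {k : ℕ} (y : Fin k → G) (r : Fin k → ℝ)
    (hy : ∀ i, y i ∈ V) (hW : ∀ i, w.W (y i) ≤ r i) (hr : ∀ i, 0 < r i) (hs : ∑ i, r i < 1)
    (hgen : ∀ v ∈ V, ∃ h ∈ Subgroup.closure (Set.range y), h⁻¹ * v ∈ V') :
    Ix w V' ≤ Ix w V / (1 - ∑ i, r i) := by
  classical
  have hV : Op w V := op_mono w hV' hle
  obtain ⟨L, hL⟩ := exists_chain w hV (le_top : V ≤ ⊤)
  obtain ⟨n, hnil⟩ := exists_nil w hV'
  have hs0 : 0 ≤ ∑ i, r i := Finset.sum_nonneg fun i _ => (hr i).le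
  have hr1 : ∀ i, r i ≤ 1 := fun i =>
    (Finset.single_le_sum (f := r) (fun i _ => (hr i).le) (Finset.mem_univ i)).trans hs.le
  set m : (Σ l : Fin n, (Fin l → Fin k)) × (Fin L.length → Fin p) → ℝ :=
    fun c => (∏ j, r (c.1.2 j)) * mw L c.2 with hm
  have hm0 : ∀ c, 0 ≤ m c := fun c =>
    mul_nonneg (Finset.prod_nonneg fun j _ => (hr _).le) (mw_pos w hL _).1.le
  have hm1 : ∀ c, m c ≤ 1 := fun c =>
    mul_le_one₀ (Finset.prod_le_one (fun j _ => (hr _).le) fun j _ => hr1 _)
      (mw_pos w hL _).1.le (mw_pos w hL _).2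
  have h1 : Ix w V' ≤ ∑ c, m c := by
    rw [← integral_count m hm0 hm1]
    unfold Ix
    refine intervalIntegral.integral_mono_on zero_le_one ?_ (integrable_count m 0 1) ?_
    · refine Antitone.intervalIntegrable ?_
      intro s t hst
      change ((md w V' t : ℕ) : ℝ) ≤ ((md w V' s : ℕ) : ℝ)
      exact Nat.cast_le.mpr (md_anti w hV' hst)
    · intro t _
      exact_mod_cast thin_md w hV' hle hn y r hy hW hgen hL hnil t
  have h2 : ∑ c, m c = (∑ l : Fin n, (∑ i, r i) ^ (l : ℕ)) * Ix w V := by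
    rw [Ix_eq_sum w hL hV, Fintype.sum_prod_type, Finset.sum_mul]
    rw [Fintype.sum_sigma]
    refine Finset.sum_congr rfl fun l _ => ?_
    rw [Fintype.sum_pow, Finset.sum_mul]
    refine Finset.sum_congr rfl fun c _ => ?_
    rw [Finset.mul_sum]
  have h3 : (∑ l : Fin n, (∑ i, r i) ^ (l : ℕ)) ≤ 1 / (1 - ∑ i, r i) := by
    rw [Fin.sum_univ_eq_sum_range (fun l => (∑ i, r i) ^ l) n]
    have h4 : (1 - ∑ i, r i) * ∑ l ∈ Finset.range n, (∑ i, r i) ^ l = 1 - (∑ i, r i) ^ n := by
      have := mul_neg_geom_sum (∑ i, r i) n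
      exact this
    rw [le_div_iff₀ (by linarith), mul_comm, h4]
    have := pow_nonneg hs0 n
    linarith
  have h5 : 0 ≤ Ix w V := zero_le_one.trans (one_le_Ix w hV)
  calc Ix w V' ≤ (∑ l : Fin n, (∑ i, r i) ^ (l : ℕ)) * Ix w V := h1.trans h2.le
    _ ≤ 1 / (1 - ∑ i, r i) * Ix w V := mul_le_mul_of_nonneg_right h3 h5
    _ = Ix w V / (1 - ∑ i, r i) := by ring

end Pool.Agent.GGS
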