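import Pool.Agent.GGS.StageDef
import Pool.Agent.GGS.IxMono

/-!
# Towers (paper, section 13)
-/

namespace Pool.Agent.GGS

universe u

open Ser

variable {p : ℕ} {G : Type u} [Group G]

/-- The tower of all stages. -/
structure Tower (w : WG p G) where
  V : ℕ → Subgroup G
  t : ℕ → ℝ
  u : ℕ → G
  v : ℕ → G
  δ : ℕ → ℝ
  wd : ℕ → List (Fin 2) → ZMod p
  N : ℕ → ℕ
  E : ℕ → Type
  ring : ∀ i, Ring (E i)
  alg : ∀ i, Algebra (ZMod p) (E i)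
  θ : (i : ℕ) → G → E i
  n1 : ℕ → ℕ
  B : ℝ
  t_pos : ∀ i, 0 < t i
  t_succ : ∀ i, t (i + 1) ≤ t i / 2
  op : ∀ i, Op w (V i)
  cc : ∀ i, Cc w (V i) (t i) (V (i + 1))
  ix : ∀ i, Ix w (V i) ≤ B
  δ_nonneg : ∀ i, 0 ≤ δ i
  δ_le : ∀ i, δ i ≤ 1 / 2
  δ_sum : Summable δ
  u_mem : ∀ i, u i ∈ V i
  v_mem : ∀ i, v i ∈ V i
  u_near : ∀ i, w.W ((u i)⁻¹ * u (i + 1)) ≤ t i
  v_near : ∀ i, w.W ((v i)⁻¹ * v (i + 1)) ≤ t i
  th : ∀ i, ThOut w (V (i + 1)) (t i) (t (i + 1)) (δ i) (u (i + 1)) (v (i + 1)) (wd i) (N i) (E i)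
    (θ i) (n1 i)
  /-- every nontrivial power series with constant term `1` is treated at some stage -/
  all : ∀ f : Ser p (Fin 2), f [] = 1 → f ≠ 1 → ∃ i, ∀ x : List (Fin 2), x.length ≤ N i →
    f x = wd i x

/-- the groups `N^i` -/
def Tower.Nn {w : WG p G} (T : Tower w) (i : ℕ) : Set G :=
  {g | g ∈ T.V i ∧ ∀ j < i, T.θ j g = letI := T.ring j; 1}

end Pool.Agent.GGS
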