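import Pool.Agent.GGS.TowerDef
import Pool.Agent.GGS.Thin
import Pool.Agent.GGS.RelIx

/-!
# The indices of the `N^i` (paper, 13.2, 13.3)
-/

namespace Pool.Agent.GGS

universe u

variable {p : ℕ} {G : Type u} [Group G]

attribute [local instance] Tower.ring Tower.alg

lemma tower_t_anti {w : WG p G} (T : Tower w) {i j : ℕ} (h : i ≤ j) : T.t j ≤ T.t i := by
  induction j, h using Nat.le_induction with
  | base => exact le_rfl
  | succ j _ ih =>
    have h1 := T.t_succ j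
    have h2 := T.t_pos j
    linarith

lemma tower_V_anti {w : WG p G} (T : Tower w) {i j : ℕ} (h : i ≤ j) : T.V j ≤ T.V i := by
  induction j, h using Nat.le_induction with
  | base => exact le_rfl
  | succ j _ ih => exact (T.cc j).le.trans ih

lemma tower_inv {w : WG p G} (T : Tower w) (i : ℕ) {g : G} (hg : g ∈ T.V (i + 1))
    (h1 : T.θ i g = letI := T.ring i; 1) : T.θ i g⁻¹ = letI := T.ring i; 1 := by
  have h2 := (T.th i).mul g⁻¹ (inv_mem hg) g hg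
  rw [inv_mul_cancel, (T.th i).one, h1, mul_one] at h2
  exact h2.symm

/-- the subgroup `N^i` -/
def TSub {w : WG p G} (T : Tower w) (i : ℕ) : Subgroup G where
  carrier := T.Nn i
  mul_mem' := fun {a b} ha hb => by
    refine ⟨mul_mem ha.1 hb.1, fun j hj => ?_⟩
    have h1 := ha.2 j hj
    have h2 := hb.2 j hj
    have h3 := (T.th j).mul a (tower_V_anti T hj ha.1) b (tower_V_anti T hj hb.1)
    rw [h3, h1, h2]
    exact mul_one _
  one_mem' := ⟨one_mem _, fun j _ => (T.th j).one⟩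
  inv_mem' := fun {a} ha => ⟨inv_mem ha.1, fun j hj =>
    tower_inv T j (tower_V_anti T hj ha.1) (ha.2 j hj)⟩

lemma mem_TSub {w : WG p G} (T : Tower w) (i : ℕ) (g : G) :
    g ∈ TSub T i ↔ g ∈ T.V i ∧ ∀ j < i, T.θ j g = letI := T.ring j; 1 := Iff.rfl

lemma TSub_deep {w : WG p G} (T : Tower w) (i : ℕ) {g : G} (hg : g ∈ T.V i)
    (h : w.W g ≤ T.t i) : g ∈ TSub T i :=
  ⟨hg, fun j hj => (T.th j).deep g (tower_V_anti T hj hg) (h.trans (tower_t_anti T hj))⟩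

lemma TSub_norm {w : WG p G} (T : Tower w) (i : ℕ) {v g : G} (hv : v ∈ T.V i)
    (hg : g ∈ TSub T i) : v * g * v⁻¹ ∈ TSub T i := by
  refine ⟨mul_mem (mul_mem hv hg.1) (inv_mem hv), fun j hj => ?_⟩
  have hv' := tower_V_anti T hj hv
  have hg' := tower_V_anti T hj hg.1
  have h1 : T.θ j g = 1 := hg.2 j hj
  have h2 := (T.th j).mul v hv' v⁻¹ (inv_mem hv')
  rw [mul_inv_cancel, (T.th j).one] at h2
  have h3 := (T.th j).mul (v * g) (mul_mem hv' hg') v⁻¹ (inv_mem hv')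
  have h4 := (T.th j).mul v hv' g hg'
  rw [h3, h4, h1, mul_one, ← h2]

lemma TSub_op {w : WG p G} (T : Tower w) (i : ℕ) : Op w (TSub T i) := by
  obtain ⟨s, hs, h⟩ := T.op i
  exact ⟨min s (T.t i), lt_min hs (T.t_pos i), fun g hg =>
    TSub_deep T i (h g (hg.trans (min_le_left _ _))) (hg.trans (min_le_right _ _))⟩

/-- `N^i` is an open subgroup which contains `(V i)_{t i}` -/
theorem tower_sub [Fact p.Prime] {w : WG p G} (T : Tower w) (i : ℕ) :
    ∃ M : Subgroup G, (M : Set G) = T.Nn i ∧ Op w M ∧ M ≤ T.V i ∧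
      (∀ g ∈ T.V i, w.W g ≤ T.t i → g ∈ M) ∧ ∀ v ∈ T.V i, ∀ g ∈ M, v * g * v⁻¹ ∈ M :=
  ⟨TSub T i, rfl, TSub_op T i, fun _ hg => hg.1, fun _ hg h => TSub_deep T i hg h,
    fun _ hv _ hg => TSub_norm T i hv hg⟩

/-- elements of the group generated by the deep elements of stage `i` -/
lemma tower_gen {w : WG p G} (T : Tower w) (i : ℕ) :
    ∃ (k : ℕ) (y : Fin k → G) (s : Fin k → ℝ),
      (∀ a, y a ∈ TSub T i ⊓ T.V (i + 1) ∧ w.W (y a) ≤ s a ∧ 0 < s a) ∧ ∑ a, s a ≤ T.δ i ∧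
      ∀ v ∈ T.V (i + 1), ∃ h ∈ Subgroup.closure (Set.range y),
        h ∈ TSub T i ∧ h ∈ T.V (i + 1) ∧ w.W h ≤ T.t i ∧
          (T.θ i (h⁻¹ * v) = letI := T.ring i; 1) ∧ (T.θ i (v * h⁻¹) = letI := T.ring i; 1) := by
  obtain ⟨k, y, s, h1, h2, h3⟩ := (T.th i).gen
  have hy : ∀ a, y a ∈ TSub T i ⊓ T.V (i + 1) := fun a =>
    Subgroup.mem_inf.mpr ⟨TSub_deep T i ((T.cc i).le (h1 a).1)
      ((h1 a).2.1.trans (h1 a).2.2.2), (h1 a).1⟩
  refine ⟨k, y, s, fun a => ⟨hy a, (h1 a).2.1, (h1 a).2.2.1⟩, h2, fun v hv => ?_⟩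
  obtain ⟨h, hh, he⟩ := h3 v hv
  have hcl : Subgroup.closure (Set.range y) ≤ TSub T i ⊓ T.V (i + 1) := by
    rw [Subgroup.closure_le]
    rintro _ ⟨a, rfl⟩
    exact hy a
  have hcl2 : Subgroup.closure (Set.range y) ≤ w.ball (T.t i) := by
    rw [Subgroup.closure_le]
    rintro _ ⟨a, rfl⟩
    exact (w.mem_ball (T.t_pos i).le).mpr ((h1 a).2.1.trans (h1 a).2.2.2)
  have hm := Subgroup.mem_inf.mp (hcl hh)
  have e1 := (T.th i).mul h⁻¹ (inv_mem hm.2) v hv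
  have e2 := (T.th i).mul h⁻¹ (inv_mem hm.2) h hm.2
  have e3 := (T.th i).mul v hv h⁻¹ (inv_mem hm.2)
  have e4 := (T.th i).mul h hm.2 h⁻¹ (inv_mem hm.2)
  rw [inv_mul_cancel, (T.th i).one] at e2
  rw [mul_inv_cancel, (T.th i).one] at e4
  refine ⟨h, hh, hm.1, hm.2, (w.mem_ball (T.t_pos i).le).mp (hcl2 hh), ?_, ?_⟩
  · rw [e1, ← he, ← e2]
  · rw [e3, ← he, ← e4]

/-- the step `i → i + 1` -/
lemma TSub_succ {w : WG p G} (T : Tower w) (i : ℕ) {g : G} (hg : g ∈ TSub T i)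
    (hV : g ∈ T.V (i + 1)) (h : T.θ i g = letI := T.ring i; 1) : g ∈ TSub T (i + 1) := by
  refine ⟨hV, fun j hj => ?_⟩
  rcases Nat.lt_succ_iff_lt_or_eq.mp hj with h1 | h1
  · exact hg.2 j h1
  · subst h1
    exact h

lemma TSub_le {w : WG p G} (T : Tower w) (i : ℕ) : TSub T (i + 1) ≤ TSub T i ⊓ T.V (i + 1) :=
  fun _ hg => Subgroup.mem_inf.mpr ⟨⟨(T.cc i).le hg.1, fun j hj => hg.2 j (Nat.lt_succ_of_lt hj)⟩,
    hg.1⟩

lemma TSub_ix [Fact p.Prime] {w : WG p G} (T : Tower w) (i : ℕ) :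
    Ix w (TSub T (i + 1)) ≤
      (Ix w (TSub T i) * Ix w (T.V (i + 1)) / Ix w (T.V i)) / (1 - T.δ i) := by
  obtain ⟨k, y, s, h1, h2, h3⟩ := tower_gen T i
  have hd := T.δ_le i
  have hV : 0 < Ix w (T.V i) := lt_of_lt_of_le one_pos (one_le_Ix w (T.op i))
  have hrel := Ix_rel w (T.cc i) (TSub_op T i) (fun _ hg => hg.1)
    (fun g hg h => TSub_deep T i hg h)
  have hthin := Ix_thin w (V := TSub T i ⊓ T.V (i + 1)) (V' := TSub T (i + 1))
    (TSub_op T (i + 1)) (TSub_le T i)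
    (fun v hv u hu => TSub_norm T (i + 1) (Subgroup.mem_inf.mp hv).2 hu) y s
    (fun a => (h1 a).1) (fun a => (h1 a).2.1) (fun a => (h1 a).2.2) (by linarith)
    (fun v hv => by
      obtain ⟨h, hh, m1, m2, -, e1, -⟩ := h3 v (Subgroup.mem_inf.mp hv).2
      exact ⟨h, hh, TSub_succ T i (mul_mem (inv_mem m1) (Subgroup.mem_inf.mp hv).1)
        (mul_mem (inv_mem m2) (Subgroup.mem_inf.mp hv).2) e1⟩)
  have e1 : Ix w (TSub T i) * Ix w (T.V (i + 1)) / Ix w (T.V i) =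
      Ix w (TSub T i ⊓ T.V (i + 1)) := by
    rw [← hrel, mul_div_assoc, div_self hV.ne', mul_one]
  rw [e1]
  refine hthin.trans ?_
  have hpos : 0 ≤ Ix w (TSub T i ⊓ T.V (i + 1)) :=
    le_trans zero_le_one (one_le_Ix w (op_inf w (TSub_op T i) (T.op (i + 1))))
  exact div_le_div_of_nonneg_left hpos (by linarith) (by linarith)

theorem tower_ix [Fact p.Prime] {w : WG p G} (T : Tower w) :
    ∃ C : ℝ, ∀ (i : ℕ) (M : Subgroup G), (M : Set G) = T.Nn i → Ix w M ≤ C := by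
  have key : ∀ i, Ix w (TSub T i) ≤ Ix w (T.V i) * Real.exp (2 * ∑ j ∈ Finset.range i, T.δ j) := by
    intro i
    induction i with
    | zero =>
      have h0 : TSub T 0 = T.V 0 := by
        ext g
        rw [mem_TSub]
        exact ⟨fun h => h.1, fun h => ⟨h, fun j hj => absurd hj (Nat.not_lt_zero j)⟩⟩
      rw [h0]
      simp
    | succ i ih =>
      have hV : 0 < Ix w (T.V i) := lt_of_lt_of_le one_pos (one_le_Ix w (T.op i))
      have hV' : 0 < Ix w (T.V (i + 1)) := lt_of_lt_of_le one_pos (one_le_Ix w (T.op (i + 1)))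
      have hd := T.δ_le i
      have hd0 := T.δ_nonneg i
      have h1 := TSub_ix T i
      have h2 : Ix w (TSub T i) * Ix w (T.V (i + 1)) / Ix w (T.V i) ≤
          Ix w (T.V (i + 1)) * Real.exp (2 * ∑ j ∈ Finset.range i, T.δ j) := by
        rw [div_le_iff₀ hV]
        calc Ix w (TSub T i) * Ix w (T.V (i + 1))
            ≤ (Ix w (T.V i) * Real.exp (2 * ∑ j ∈ Finset.range i, T.δ j)) *
              Ix w (T.V (i + 1)) := mul_le_mul_of_nonneg_right ih hV'.le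
          _ = _ := by ring
      have h3 : (1 : ℝ) / (1 - T.δ i) ≤ Real.exp (2 * T.δ i) := by
        rw [div_le_iff₀ (by linarith)]
        have h4 : 2 * T.δ i + 1 ≤ Real.exp (2 * T.δ i) := Real.add_one_le_exp _
        calc (1 : ℝ) ≤ (2 * T.δ i + 1) * (1 - T.δ i) := by nlinarith
          _ ≤ Real.exp (2 * T.δ i) * (1 - T.δ i) :=
            mul_le_mul_of_nonneg_right h4 (by linarith)
      rw [Finset.sum_range_succ, mul_add, Real.exp_add, ← mul_assoc]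
      refine h1.trans ?_
      rw [div_eq_mul_one_div]
      exact mul_le_mul h2 h3 (div_nonneg zero_le_one (by linarith))
        (mul_nonneg hV'.le (Real.exp_pos _).le)
  refine ⟨T.B * Real.exp (2 * ∑' j, T.δ j), fun i M hM => ?_⟩
  have hM' : M = TSub T i := SetLike.coe_injective hM
  rw [hM']
  refine (key i).trans ?_
  have hV : 0 < Ix w (T.V i) := lt_of_lt_of_le one_pos (one_le_Ix w (T.op i))
  refine mul_le_mul (T.ix i) ?_ (Real.exp_pos _).le (hV.le.trans (T.ix i))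
  refine Real.exp_le_exp.mpr ?_
  have := T.δ_sum.sum_le_tsum (Finset.range i) (fun j _ => T.δ_nonneg j)
  linarith

/-- 13.3, one step -/
theorem tower_next [Fact p.Prime] {w : WG p G} (T : Tower w) (i : ℕ) (g : G) (hg : g ∈ T.Nn i) :
    ∃ h ∈ T.Nn (i + 1), w.W (g⁻¹ * h) ≤ T.t i := by
  have hg' : g ∈ TSub T i := hg
  obtain ⟨v, hv, hvg⟩ := (T.cc i).cov g hg'.1
  have hgv : w.W (g⁻¹ * v) ≤ T.t i := by rw [W_inv_mul_comm]; exact hvg
  have hvi : v ∈ TSub T i := by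
    have h1 : g⁻¹ * v ∈ TSub T i :=
      TSub_deep T i (mul_mem (inv_mem hg'.1) ((T.cc i).le hv)) hgv
    have h2 := mul_mem hg' h1
    rwa [mul_inv_cancel_left] at h2
  obtain ⟨k, y, s, h1, h2, h3⟩ := tower_gen T i
  obtain ⟨h, hh, m1, m2, hW, -, e1⟩ := h3 v hv
  refine ⟨v * h⁻¹, TSub_succ T i (mul_mem hvi (inv_mem m1)) (mul_mem hv (inv_mem m2)) e1, ?_⟩
  rw [← mul_assoc]
  refine (w.mul _ _).trans (max_le hgv ?_)
  rw [w.inv]
  exact hW

end Pool.Agent.GGS
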